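import Mathlib

/-!
Integers with bounded conjugates, and traces.
-/

set_option autoImplicit false
set_option linter.unusedSectionVars false

open Finset NumberField IsDedekindDomain

namespace Pool.Agent.T9h24

variable {K : Type} [Field K] [NumberField K]

theorem abs_trace_le (z : K) :
    |((Algebra.trace ℚ K z : ℚ) : ℝ)| ≤ ∑ σ : K →ₐ[ℚ] ℂ, InfinitePlace.mk σ.toRingHom z := by
  have h1 := trace_eq_sum_embeddings ℂ (K := ℚ) (x := z)
  have h2 : ‖((Algebra.trace ℚ K z : ℚ) : ℂ)‖ = |((Algebra.trace ℚ K z : ℚ) : ℝ)| := by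
    rw [← Complex.ofReal_ratCast, Complex.norm_real, Real.norm_eq_abs]
  rw [← h2]
  have h3 : ((Algebra.trace ℚ K z : ℚ) : ℂ) = ∑ σ : K →ₐ[ℚ] ℂ, σ z := by
    rw [← h1]
    rfl
  rw [h3]
  refine (norm_sum_le _ _).trans (Finset.sum_le_sum fun σ _ => ?_)
  rw [InfinitePlace.apply]
  rfl

/-- the dual basis of the integral basis -/
noncomputable def dual (K : Type) [Field K] [NumberField K] :
    Module.Basis (Module.Free.ChooseBasisIndex ℤ (𝓞 K)) ℚ K :=
  (Algebra.traceForm ℚ K).dualBasis (traceForm_nondegenerate ℚ K) (integralBasis K)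

theorem dual_sum (x : K) :
    x = ∑ i, (Algebra.trace ℚ K (x * integralBasis K i)) • dual K i := by
  conv_lhs => rw [← (dual K).sum_repr x]
  refine Finset.sum_congr rfl fun i _ => ?_
  congr 1
  unfold dual
  rw [LinearMap.BilinForm.dualBasis_repr_apply]
  rfl

theorem repr_eq_trace (x : K) (i : Module.Free.ChooseBasisIndex ℤ (𝓞 K)) :
    (integralBasis K).repr x i = Algebra.trace ℚ K (dual K i * x) := by
  classical
  conv_rhs => rw [← (integralBasis K).sum_repr x]
  rw [Finset.mul_sum, map_sum]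
  have h1 : ∀ j, Algebra.trace ℚ K (dual K i * ((integralBasis K).repr x j • integralBasis K j)) =
      (integralBasis K).repr x j * (if j = i then 1 else 0) := by
    intro j
    rw [mul_smul_comm, map_smul, smul_eq_mul]
    congr 1
    exact LinearMap.BilinForm.apply_dualBasis_left
      (traceForm_nondegenerate ℚ K) (integralBasis K) i j
  simp only [h1]
  simp

/-- the number of integers with bounded conjugates -/
theorem card_bounded (K : Type) [Field K] [NumberField K] : ∃ C : ℝ, 1 ≤ C ∧ ∀ R : ℝ, 1 ≤ R →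
    ∀ F : Finset (𝓞 K), (∀ a ∈ F, ∀ w : InfinitePlace K, w (a : K) ≤ R) →
      (F.card : ℝ) ≤ C * R ^ Module.finrank ℚ K := by
  classical
  set C2 : ℝ := ∑ i, ∑ σ : K →ₐ[ℚ] ℂ, InfinitePlace.mk σ.toRingHom (dual K i) with hC2
  have hC20 : 0 ≤ C2 := Finset.sum_nonneg fun i _ => Finset.sum_nonneg fun σ _ => apply_nonneg _ _
  refine ⟨(2 * C2 + 3) ^ Module.finrank ℚ K, one_le_pow₀ (by linarith), fun R hR F hF => ?_⟩
  set n : ℕ := ⌈C2 * R⌉₊ with hn
  let κ := Module.Free.ChooseBasisIndex ℤ (𝓞 K)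
  let crd : 𝓞 K → κ → ℤ := fun a i => (RingOfIntegers.basis K).repr a i
  have hmaps : ∀ a ∈ F, crd a ∈ Fintype.piFinset fun _ : κ => Finset.Icc (-(n : ℤ)) n := by
    intro a ha
    refine Fintype.mem_piFinset.2 fun i => ?_
    have h1 : ((crd a i : ℤ) : ℚ) = Algebra.trace ℚ K (dual K i * (a : K)) := by
      rw [← repr_eq_trace]
      exact (integralBasis_repr_apply K a i).symm
    have h2 : |((crd a i : ℤ) : ℝ)| ≤ C2 * R := by
      have h3 := abs_trace_le (dual K i * (a : K))
      rw [← h1] at h3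
      push_cast at h3
      refine h3.trans ?_
      have h4 : ∀ σ : K →ₐ[ℚ] ℂ, InfinitePlace.mk σ.toRingHom (dual K i * (a : K)) ≤
          InfinitePlace.mk σ.toRingHom (dual K i) * R := fun σ => by
        rw [map_mul]
        exact mul_le_mul_of_nonneg_left (hF a ha _) (apply_nonneg _ _)
      refine (Finset.sum_le_sum fun σ _ => h4 σ).trans ?_
      rw [← Finset.sum_mul]
      refine mul_le_mul_of_nonneg_right ?_ (by linarith)
      exact Finset.single_le_sum
        (f := fun i => ∑ σ : K →ₐ[ℚ] ℂ, InfinitePlace.mk σ.toRingHom (dual K i))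
        (fun i _ => Finset.sum_nonneg fun σ _ => apply_nonneg _ _) (Finset.mem_univ i)
    have h5 : |((crd a i : ℤ) : ℝ)| ≤ (n : ℝ) := h2.trans (Nat.le_ceil _)
    rw [Finset.mem_Icc]
    have h6 : |crd a i| ≤ (n : ℤ) := by exact_mod_cast h5
    exact abs_le.1 h6
  have hinj : Set.InjOn crd (F : Set (𝓞 K)) := by
    intro a _ b _ h
    exact (RingOfIntegers.basis K).repr.injective (Finsupp.ext fun i => congrFun h i)
  have hcard := Finset.card_le_card_of_injOn crd hmaps hinj
  rw [Fintype.card_piFinset, Finset.prod_const, Finset.card_univ, Int.card_Icc] at hcard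
  have hcardκ : Fintype.card κ = Module.finrank ℚ K := by
    rw [← RingOfIntegers.rank K, Module.finrank_eq_card_chooseBasisIndex]
  have h7 : ((n : ℤ) + 1 - -(n : ℤ)).toNat = 2 * n + 1 := by omega
  rw [hcardκ, h7] at hcard
  have h8 : (F.card : ℝ) ≤ (2 * (n : ℝ) + 1) ^ Module.finrank ℚ K := by exact_mod_cast hcard
  refine h8.trans ?_
  rw [← mul_pow]
  refine pow_le_pow_left₀ (by positivity) ?_ _
  have h9 : (n : ℝ) < C2 * R + 1 := Nat.ceil_lt_add_one (by positivity)
  nlinarith

/-- some trace of a vector is not proportional to a rational vector -/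
theorem exists_trace {ι : Type} (g : ι → 𝓞 K) (f : ι → ℚ)
    (h : ¬ ∃ a : K, ∀ j, (g j : K) = a * (f j : K)) :
    ∃ i, ¬ ∃ a : ℚ, ∀ j, ((Algebra.trace ℤ (𝓞 K) (g j * RingOfIntegers.basis K i) : ℤ) : ℚ) =
      a * f j := by
  classical
  by_contra hcon
  push Not at hcon
  choose a ha using hcon
  apply h
  refine ⟨∑ i, (a i) • dual K i, fun j => ?_⟩
  conv_lhs => rw [dual_sum (g j : K)]
  rw [Finset.sum_mul]
  refine Finset.sum_congr rfl fun i _ => ?_
  have h1 := ha i j
  rw [Algebra.coe_trace_int] at h1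
  push_cast at h1
  have h2 : (integralBasis K) i = ((RingOfIntegers.basis K i : 𝓞 K) : K) :=
    integralBasis_apply K i
  rw [h2, h1, Algebra.smul_def, Algebra.smul_def, map_mul]
  simp only [eq_ratCast]
  ring

end Pool.Agent.T9h24
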