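import Mathlib

/-!
A box principle over the ring of integers of a totally complex number field.
-/

set_option autoImplicit false
set_option linter.unusedSectionVars false

open Finset NumberField IsDedekindDomain

namespace Pool.Agent.T9h24

variable {K : Type} [Field K] [NumberField K]

theorem card_places (htc : ∀ w : InfinitePlace K, w.IsComplex) :
    2 * Fintype.card (InfinitePlace K) = Module.finrank ℚ K := by
  classical
  have h1 := InfinitePlace.card_add_two_mul_card_eq_rank K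
  have h2 : InfinitePlace.nrRealPlaces K = 0 := by
    rw [InfinitePlace.nrRealPlaces, Fintype.card_eq_zero_iff]
    exact ⟨fun w => InfinitePlace.not_isReal_iff_isComplex.2 (htc w.1) w.2⟩
  have h3 := InfinitePlace.card_eq_nrRealPlaces_add_nrComplexPlaces K
  omega

/-- the lattice point with given coordinates -/
noncomputable def pt {κ : Type} [Fintype κ] (ω : Module.Basis κ ℤ (𝓞 K)) {N B : ℕ}
    (c : Fin N × κ → Fin (B + 1)) : Fin N → 𝓞 K :=
  fun j => ∑ i, ((c (j, i) : ℕ) : ℤ) • ω i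

theorem pt_inj {κ : Type} [Fintype κ] (ω : Module.Basis κ ℤ (𝓞 K)) {N B : ℕ} :
    Function.Injective (pt (N := N) (B := B) ω) := by
  intro c c' h
  funext p
  obtain ⟨j, i⟩ := p
  have h1 := congrFun h j
  unfold pt at h1
  have h2 := congrArg (fun z => ω.repr z i) h1
  simp only [ω.repr_sum_self] at h2
  exact Fin.ext (by exact_mod_cast h2)

theorem exists_big {α : Type} [Fintype α] (u : α → ℝ) : ∃ B : ℕ, 1 ≤ B ∧ ∀ a, u a ≤ B := by
  obtain ⟨B, hB⟩ := exists_nat_ge (∑ a, |u a|)
  refine ⟨B + 1, by omega, fun a => ?_⟩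
  have h1 := Finset.single_le_sum (f := fun a => |u a|) (fun a _ => abs_nonneg _)
    (Finset.mem_univ a)
  have h2 := le_abs_self (u a)
  push_cast
  linarith

/-- **Box principle.** -/
theorem box (htc : ∀ w : InfinitePlace K, w.IsComplex) {N : ℕ} {ι : Type} [Fintype ι]
    (L : ι → Fin N → 𝓞 K) :
    ∃ C : ℝ, 1 ≤ C ∧ ∀ (T : Finset (HeightOneSpectrum (𝓞 K)))
      (I : InfinitePlace K → Fin N → ι) (J : HeightOneSpectrum (𝓞 K) → Fin N → ι)
      (m : HeightOneSpectrum (𝓞 K) → Fin N → ℕ) (η : InfinitePlace K → Fin N → ℝ)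
      (_ : ∀ w a, 0 < η w a) (X : ℕ)
      (_ : (X : ℝ) * (∏ w, ∏ a, (C / η w a) ^ 2) *
        ∏ Q ∈ T, ∏ a, (Ideal.absNorm Q.asIdeal : ℝ) ^ (m Q a) < 1),
      ∃ F : Finset (Fin N → 𝓞 K), X < F.card ∧ ∀ g ∈ F,
        (∀ w a, w ((∑ j, L (I w a) j * g j : 𝓞 K) : K) ≤ η w a) ∧
        ∀ Q ∈ T, ∀ a, ∑ j, L (J Q a) j * g j ∈ Q.asIdeal ^ (m Q a) := by
  classical
  set ω := RingOfIntegers.basis K with hω
  -- the constant
  set C0 : ℝ := 1 + ∑ w : InfinitePlace K, ∑ l, ∑ j, ∑ i, w (L l j : K) * w (ω i : K) with hC0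
  have hC1 : 1 ≤ C0 := by
    have : 0 ≤ ∑ w : InfinitePlace K, ∑ l, ∑ j, ∑ i, w (L l j : K) * w (ω i : K) :=
      Finset.sum_nonneg fun w _ => Finset.sum_nonneg fun l _ => Finset.sum_nonneg fun j _ =>
        Finset.sum_nonneg fun i _ => mul_nonneg (apply_nonneg _ _) (apply_nonneg _ _)
    linarith
  have hval : ∀ (B : ℕ) (c : Fin N × _ → Fin (B + 1)) (w : InfinitePlace K) (l : ι),
      w ((∑ j, L l j * pt ω c j : 𝓞 K) : K) ≤ C0 * B := by
    intro B c w l
    have h1 : ((∑ j, L l j * pt ω c j : 𝓞 K) : K) =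
        ∑ j, ∑ i, ((c (j, i) : ℕ) : K) * ((L l j : K) * (ω i : K)) := by
      unfold pt
      push_cast
      refine Finset.sum_congr rfl fun j _ => ?_
      rw [Finset.mul_sum]
      refine Finset.sum_congr rfl fun i _ => ?_
      simp only [natCast_zsmul, nsmul_eq_mul]
      push_cast
      ring
    have hw : ∀ z : K, w z = w.1 z := fun z => rfl
    rw [h1, hw]
    have h2 : w.1 (∑ j, ∑ i, ((c (j, i) : ℕ) : K) * ((L l j : K) * (ω i : K))) ≤
        ∑ j, ∑ i, (B : ℝ) * (w (L l j : K) * w (ω i : K)) := by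
      refine (w.1.sum_le _ _).trans (Finset.sum_le_sum fun j _ => ?_)
      refine (w.1.sum_le _ _).trans (Finset.sum_le_sum fun i _ => ?_)
      rw [map_mul, map_mul]
      have h3 : w.1 ((c (j, i) : ℕ) : K) ≤ B := by
        have h4 : w.1 ((c (j, i) : ℕ) : K) = ((c (j, i) : ℕ) : ℝ) := by
          have := w.norm_embedding_eq ((c (j, i) : ℕ) : K)
          rw [map_natCast] at this
          rw [← hw, ← this]
          simp
        rw [h4]
        exact_mod_cast Nat.lt_succ_iff.1 (c (j, i)).2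
      exact mul_le_mul_of_nonneg_right h3 (mul_nonneg (apply_nonneg _ _) (apply_nonneg _ _))
    refine h2.trans ?_
    have h5 : ∑ j, ∑ i, (B : ℝ) * (w (L l j : K) * w (ω i : K)) =
        B * ∑ j, ∑ i, w (L l j : K) * w (ω i : K) := by
      simp only [Finset.mul_sum]
    rw [h5, mul_comm C0]
    refine mul_le_mul_of_nonneg_left ?_ (Nat.cast_nonneg _)
    have h6 : ∑ j, ∑ i, w (L l j : K) * w (ω i : K) ≤
        ∑ l, ∑ j, ∑ i, w (L l j : K) * w (ω i : K) :=
      Finset.single_le_sum (f := fun l => ∑ j, ∑ i, w (L l j : K) * w (ω i : K))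
        (fun l _ => Finset.sum_nonneg fun j _ => Finset.sum_nonneg fun i _ =>
          mul_nonneg (apply_nonneg _ _) (apply_nonneg _ _)) (Finset.mem_univ l)
    have h7 : ∑ l, ∑ j, ∑ i, w (L l j : K) * w (ω i : K) ≤
        ∑ w : InfinitePlace K, ∑ l, ∑ j, ∑ i, w (L l j : K) * w (ω i : K) :=
      Finset.single_le_sum
        (f := fun w : InfinitePlace K => ∑ l, ∑ j, ∑ i, w (L l j : K) * w (ω i : K))
        (fun w _ => Finset.sum_nonneg fun l _ => Finset.sum_nonneg fun j _ =>
          Finset.sum_nonneg fun i _ => mul_nonneg (apply_nonneg _ _) (apply_nonneg _ _))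
        (Finset.mem_univ w)
    linarith
  refine ⟨8 * C0, by linarith, fun T I J m η hη X hX => ?_⟩
  -- the size of the box
  obtain ⟨B, hB1, hB⟩ := exists_big (fun p : InfinitePlace K × Fin N => η p.1 p.2)
  have hB0 : (0 : ℝ) < B := by exact_mod_cast hB1
  set η' : InfinitePlace K × Fin N → ℝ := fun p => η p.1 p.2 / 2 with hη'
  have hη'0 : ∀ p, 0 < η' p := fun p => by
    have := hη p.1 p.2
    simp only [hη']
    linarith
  set n : InfinitePlace K × Fin N → ℕ := fun p => ⌈C0 * B / η' p⌉₊ with hn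
  let R : (T × Fin N) → Type := fun q => 𝓞 K ⧸ (q.1.1.asIdeal ^ (m q.1.1 q.2))
  have hne : ∀ q : T × Fin N, q.1.1.asIdeal ^ (m q.1.1 q.2) ≠ ⊥ := fun q =>
    pow_ne_zero _ q.1.1.ne_bot
  have hfin : ∀ q, Finite (R q) := fun q => by
    exact Ideal.finiteQuotientOfFreeOfNeBot _ (hne q)
  have hft : ∀ q, Fintype (R q) := fun q => Fintype.ofFinite _
  let κ := Module.Free.ChooseBasisIndex ℤ (𝓞 K)
  let cls : (Fin N × κ → Fin (B + 1)) →
      (InfinitePlace K × Fin N → ℤ × ℤ) × (∀ q, R q) := fun c =>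
    (fun p => (⌊(p.1.embedding ((∑ j, L (I p.1 p.2) j * pt ω c j : 𝓞 K) : K)).re / η' p⌋,
      ⌊(p.1.embedding ((∑ j, L (I p.1 p.2) j * pt ω c j : 𝓞 K) : K)).im / η' p⌋),
      fun q => Ideal.Quotient.mk _ (∑ j, L (J q.1.1 q.2) j * pt ω c j))
  let tgt : Finset ((InfinitePlace K × Fin N → ℤ × ℤ) × (∀ q, R q)) :=
    (Fintype.piFinset fun p => Finset.Icc (-(n p : ℤ)) (n p) ×ˢ Finset.Icc (-(n p : ℤ)) (n p)) ×ˢ
      Finset.univ
  have hfloor : ∀ (u : ℝ) (p : InfinitePlace K × Fin N), |u| ≤ C0 * B →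
      ⌊u / η' p⌋ ∈ Finset.Icc (-(n p : ℤ)) (n p) := by
    intro u p hu
    have h1 : C0 * B / η' p ≤ n p := Nat.le_ceil _
    have h2 : |u / η' p| ≤ n p := by
      rw [abs_div, abs_of_pos (hη'0 p)]
      exact (div_le_div_of_nonneg_right hu (hη'0 p).le).trans h1
    rw [abs_le] at h2
    rw [Finset.mem_Icc]
    constructor
    · rw [Int.le_floor]
      push_cast
      exact h2.1
    · have h3 : (⌊u / η' p⌋ : ℝ) ≤ (n p : ℤ) := (Int.floor_le _).trans (by
        push_cast
        exact h2.2)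
      exact_mod_cast h3
  have hmaps : ∀ c ∈ (Finset.univ : Finset (Fin N × κ → Fin (B + 1))), cls c ∈ tgt := by
    intro c _
    refine Finset.mem_product.2 ⟨Fintype.mem_piFinset.2 fun p => Finset.mem_product.2 ⟨?_, ?_⟩,
      Finset.mem_univ _⟩
    · refine hfloor _ p ((Complex.abs_re_le_norm _).trans ?_)
      rw [InfinitePlace.norm_embedding_eq]
      exact hval B c p.1 (I p.1 p.2)
    · refine hfloor _ p ((Complex.abs_im_le_norm _).trans ?_)
      rw [InfinitePlace.norm_embedding_eq]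
      exact hval B c p.1 (I p.1 p.2)
  -- the cardinalities
  have hcardκ : Fintype.card κ = Module.finrank ℚ K := by
    rw [← RingOfIntegers.rank K, Module.finrank_eq_card_chooseBasisIndex]
  have hcard1 : (Finset.univ : Finset (Fin N × κ → Fin (B + 1))).card =
      (B + 1) ^ (N * Module.finrank ℚ K) := by
    rw [Finset.card_univ, Fintype.card_fun, Fintype.card_prod, Fintype.card_fin, Fintype.card_fin,
      hcardκ]
  have hcard2 : (tgt.card : ℝ) = (∏ p : InfinitePlace K × Fin N, (2 * (n p : ℝ) + 1) ^ 2) *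
      ∏ Q ∈ T, ∏ a, (Ideal.absNorm Q.asIdeal : ℝ) ^ (m Q a) := by
    rw [Finset.card_product, Fintype.card_piFinset, Finset.card_univ, Fintype.card_pi]
    push_cast
    congr 1
    · refine Finset.prod_congr rfl fun p _ => ?_
      rw [Finset.card_product, Int.card_Icc]
      have : ((n p : ℤ) + 1 - -(n p : ℤ)).toNat = 2 * n p + 1 := by omega
      rw [this]
      push_cast
      ring
    · rw [Fintype.prod_prod_type, ← Finset.prod_coe_sort T]
      refine Finset.prod_congr rfl fun Q _ => Finset.prod_congr rfl fun a _ => ?_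
      have h1 : Fintype.card (R (Q, a)) = Ideal.absNorm (Q.1.asIdeal ^ (m Q.1 a)) := by
        rw [← Nat.card_eq_fintype_card, Ideal.absNorm_apply, Submodule.cardQuot_apply]
      rw [h1, map_pow]
      push_cast
      rfl
  have hbig : tgt.card * X < (Finset.univ : Finset (Fin N × κ → Fin (B + 1))).card := by
    rw [hcard1]
    have hp : ∀ p : InfinitePlace K × Fin N,
        (2 * (n p : ℝ) + 1) ^ 2 ≤ (B * (8 * C0 / η p.1 p.2)) ^ 2 := by
      intro p
      have h1 : (n p : ℝ) < C0 * B / η' p + 1 := Nat.ceil_lt_add_one (by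
        have := hη'0 p
        positivity)
      have h2 : C0 * B / η' p = 2 * (C0 * B / η p.1 p.2) := by
        simp only [hη']
        have := (hη p.1 p.2).ne'
        field_simp
      have h3 : 1 ≤ C0 * B / η p.1 p.2 := by
        rw [le_div_iff₀ (hη p.1 p.2), one_mul]
        have h4 := hB p
        nlinarith
      have h5 : (B : ℝ) * (8 * C0 / η p.1 p.2) = 8 * (C0 * B / η p.1 p.2) := by ring
      rw [h5]
      have h6 : 2 * (n p : ℝ) + 1 ≤ 8 * (C0 * B / η p.1 p.2) := by
        rw [h2] at h1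
        linarith
      exact pow_le_pow_left₀ (by positivity) h6 2
    have h7 : ∏ p : InfinitePlace K × Fin N, (2 * (n p : ℝ) + 1) ^ 2 ≤
        (B : ℝ) ^ (N * Module.finrank ℚ K) * ∏ w, ∏ a, (8 * C0 / η w a) ^ 2 := by
      refine (Finset.prod_le_prod (fun p _ => by positivity) fun p _ => hp p).trans (le_of_eq ?_)
      simp only [mul_pow]
      rw [Finset.prod_mul_distrib, Finset.prod_const, Fintype.prod_prod_type, Finset.card_univ,
        Fintype.card_prod, Fintype.card_fin, ← pow_mul]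
      congr 2
      rw [← card_places htc]
      ring
    have h8 : (0 : ℝ) ≤ ∏ Q ∈ T, ∏ a, (Ideal.absNorm Q.asIdeal : ℝ) ^ (m Q a) :=
      Finset.prod_nonneg fun Q _ => Finset.prod_nonneg fun a _ => by positivity
    have h9 : (tgt.card : ℝ) * X < ((B + 1 : ℕ) : ℝ) ^ (N * Module.finrank ℚ K) := by
      rw [hcard2]
      have h10 : (∏ p : InfinitePlace K × Fin N, (2 * (n p : ℝ) + 1) ^ 2) *
          (∏ Q ∈ T, ∏ a, (Ideal.absNorm Q.asIdeal : ℝ) ^ (m Q a)) * X ≤
          (B : ℝ) ^ (N * Module.finrank ℚ K) * ((X : ℝ) * (∏ w, ∏ a, (8 * C0 / η w a) ^ 2) *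
            ∏ Q ∈ T, ∏ a, (Ideal.absNorm Q.asIdeal : ℝ) ^ (m Q a)) := by
        have h11 := mul_le_mul_of_nonneg_right (mul_le_mul_of_nonneg_right h7 h8)
          (Nat.cast_nonneg X)
        refine h11.trans (le_of_eq ?_)
        ring
      have hBp : (0 : ℝ) < (B : ℝ) ^ (N * Module.finrank ℚ K) := by positivity
      have h12 : (B : ℝ) ^ (N * Module.finrank ℚ K) * ((X : ℝ) *
          (∏ w, ∏ a, (8 * C0 / η w a) ^ 2) *
            ∏ Q ∈ T, ∏ a, (Ideal.absNorm Q.asIdeal : ℝ) ^ (m Q a)) <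
          (B : ℝ) ^ (N * Module.finrank ℚ K) * 1 := mul_lt_mul_of_pos_left hX hBp
      have h13 : (B : ℝ) ^ (N * Module.finrank ℚ K) ≤
          ((B + 1 : ℕ) : ℝ) ^ (N * Module.finrank ℚ K) := by
        refine pow_le_pow_left₀ hB0.le ?_ _
        push_cast
        linarith
      linarith
    exact_mod_cast h9
  obtain ⟨y, -, hy⟩ := Finset.exists_lt_card_fiber_of_mul_lt_card_of_maps_to hmaps hbig
  obtain ⟨c0, hc0⟩ : (Finset.univ.filter fun c => cls c = y).Nonempty := by
    rw [← Finset.card_pos]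
    omega
  refine ⟨(Finset.univ.filter fun c => cls c = y).image fun c => pt ω c - pt ω c0, ?_, ?_⟩
  · rw [Finset.card_image_of_injective _ fun c c' h => pt_inj ω (sub_left_injective h)]
    exact hy
  · intro g hg
    obtain ⟨c, hc, rfl⟩ := Finset.mem_image.1 hg
    have hcc : cls c = cls c0 := by
      rw [(Finset.mem_filter.1 hc).2, (Finset.mem_filter.1 hc0).2]
    have hsub : ∀ l, ∑ j, L l j * (pt ω c - pt ω c0) j =
        ∑ j, L l j * pt ω c j - ∑ j, L l j * pt ω c0 j := by
      intro l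
      rw [← Finset.sum_sub_distrib]
      exact Finset.sum_congr rfl fun j _ => by rw [Pi.sub_apply]; ring
    constructor
    · intro w a
      have h1 := congrFun (congrArg Prod.fst hcc) (w, a)
      have h2 := Prod.ext_iff.1 h1
      simp only [cls] at h2
      have hd : ∀ u v : ℝ, ⌊u / η' (w, a)⌋ = ⌊v / η' (w, a)⌋ → |u - v| ≤ η' (w, a) := by
        intro u v huv
        have h3 := Int.abs_sub_lt_one_of_floor_eq_floor huv
        rw [← sub_div, abs_div, abs_of_pos (hη'0 _), div_lt_one (hη'0 _)] at h3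
        exact h3.le
      rw [hsub, ← InfinitePlace.norm_embedding_eq]
      push_cast
      rw [map_sub]
      refine (Complex.norm_le_abs_re_add_abs_im _).trans ?_
      rw [Complex.sub_re, Complex.sub_im]
      have h4 := hd _ _ h2.1
      have h5 := hd _ _ h2.2
      have h6 : η' (w, a) + η' (w, a) = η w a := by
        simp only [hη']
        ring
      push_cast at h4 h5
      linarith
    · intro Q hQ a
      have h1 := congrFun (congrArg Prod.snd hcc) (⟨Q, hQ⟩, a)
      simp only [cls] at h1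
      rw [hsub]
      exact Ideal.Quotient.eq.1 h1

end Pool.Agent.T9h24
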