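import Mathlib
import Pool.Agent.Y742.SF.Pl

/-!
Valuations at primes, and greedy bases.
-/

set_option autoImplicit false
set_option linter.unusedSectionVars false

open Finset NumberField IsDedekindDomain

namespace Pool.Agent.T9h24

open Pool.Agent.Y742.SF (fv fv_eq)

variable {K : Type} [Field K] [NumberField K]

/-- the order of a nonzero integer at a prime -/
theorem exists_ord (Q : HeightOneSpectrum (𝓞 K)) (z : 𝓞 K) (hz : z ≠ 0) :
    ∃ m : ℕ, fv Q (z : K) = ((Ideal.absNorm Q.asIdeal : ℝ) ^ m)⁻¹ ∧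
      ∀ z' : 𝓞 K, z' ∈ Q.asIdeal ^ m → fv Q (z' : K) ≤ fv Q (z : K) := by
  have h1 := Q.intValuation_if_neg hz
  set m := (Associates.mk Q.asIdeal).count (Associates.mk (Ideal.span {z} : Ideal (𝓞 K))).factors
    with hm
  have h2 : Q.valuation K (z : K) = WithZero.exp (-(m : ℤ)) := by
    rw [← h1]
    exact Q.valuation_of_algebraMap z
  refine ⟨m, ?_, fun z' hz' => ?_⟩
  · rw [fv_eq, h2, WithZeroMulInt.toNNReal_neg_apply _ WithZero.exp_ne_zero]
    have h3 : (WithZero.unzero (WithZero.exp_ne_zero (a := -(m : ℤ)))).toAdd = -(m : ℤ) := by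
      rfl
    rw [h3, zpow_neg, zpow_natCast]
    push_cast
    rfl
  · have h3 := (Q.intValuation_le_pow_iff_mem z' m).2 hz'
    have h4 : Q.valuation K (z' : K) ≤ Q.valuation K (z : K) := by
      rw [h2]
      exact (Q.valuation_of_algebraMap z').trans_le h3
    rw [fv_eq, fv_eq]
    exact_mod_cast (WithZeroMulInt.toNNReal_strictMono
      (HeightOneSpectrum.one_lt_absNorm_nnreal Q)).monotone h4

/-- replacing one row -/
theorem det_update {F : Type} [Field F] {N : ℕ} (A : Matrix (Fin N) (Fin N) F) (c : Fin N → F)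
    (a : Fin N) : (A.updateRow a (∑ b, c b • A b)).det = c a * A.det := by
  classical
  rw [← Finset.add_sum_erase _ _ (Finset.mem_univ a)]
  have h := Matrix.det_updateRow_sum_aux A (s := (Finset.univ.erase a)) (j := a)
    (Finset.notMem_erase a _) c (c a)
  rw [smul_eq_mul] at h
  exact h

/-- **Greedy bases.** -/
theorem greedy {F : Type} [Field F] {N : ℕ} {ι : Type} [Fintype ι] [DecidableEq ι]
    (L : ι → Fin N → F) (hs : ∃ β : Fin N → ι, (Matrix.of fun a => L (β a)).det ≠ 0)
    (μ : ι → ℝ) :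
    ∃ β : Fin N → ι, (Matrix.of fun a => L (β a)).det ≠ 0 ∧
      ∀ (l : ι) (c : Fin N → F), L l = ∑ a, c a • L (β a) → ∀ a, c a ≠ 0 → μ (β a) ≤ μ l := by
  classical
  obtain ⟨β0, hβ0⟩ := hs
  obtain ⟨β, hβ, hmin⟩ := Finset.exists_min_image
    (Finset.univ.filter fun β : Fin N → ι => (Matrix.of fun a => L (β a)).det ≠ 0)
    (fun β => ∑ a, μ (β a)) ⟨β0, Finset.mem_filter.2 ⟨Finset.mem_univ _, hβ0⟩⟩
  have hβ' := (Finset.mem_filter.1 hβ).2
  refine ⟨β, hβ', fun l c hc a ha => ?_⟩
  have h1 : (Matrix.of fun b => L (Function.update β a l b)) =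
      (Matrix.of fun b => L (β b)).updateRow a (∑ b, c b • (Matrix.of fun b => L (β b)) b) := by
    ext b j
    rcases eq_or_ne b a with rfl | hb
    · rw [Matrix.updateRow_self, Matrix.of_apply, Function.update_self, hc]
      rfl
    · rw [Matrix.updateRow_ne hb, Matrix.of_apply, Function.update_of_ne hb]
      rfl
  have h2 : (Matrix.of fun b => L (Function.update β a l b)).det ≠ 0 := by
    rw [h1, det_update]
    exact mul_ne_zero ha hβ'
  have h3 := hmin _ (Finset.mem_filter.2 ⟨Finset.mem_univ _, h2⟩)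
  rw [← Finset.add_sum_erase _ _ (Finset.mem_univ a),
    ← Finset.add_sum_erase _ (fun b => μ (Function.update β a l b)) (Finset.mem_univ a)] at h3
  have h4 : ∑ b ∈ Finset.univ.erase a, μ (Function.update β a l b) =
      ∑ b ∈ Finset.univ.erase a, μ (β b) := by
    refine Finset.sum_congr rfl fun b hb => ?_
    rw [Function.update_of_ne (Finset.ne_of_mem_erase hb)]
  rw [h4, Function.update_self] at h3
  linarith

/-- coefficients with respect to a basis -/
theorem exists_coeff {F : Type} [Field F] {N : ℕ} (B : Fin N → Fin N → F)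
    (hB : (Matrix.of B).det ≠ 0) (l : Fin N → F) : ∃ c : Fin N → F, l = ∑ a, c a • B a := by
  have h1 : LinearIndependent F B := Matrix.linearIndependent_rows_of_det_ne_zero hB
  have h2 : Submodule.span F (Set.range B) = ⊤ :=
    h1.span_eq_top_of_card_eq_finrank' (by rw [Fintype.card_fin, Module.finrank_fin_fun])
  have h3 : l ∈ Submodule.span F (Set.range B) := by rw [h2]; exact Submodule.mem_top
  obtain ⟨c, hc⟩ := (Submodule.mem_span_range_iff_exists_fun F).1 h3
  exact ⟨c, hc.symm⟩

end Pool.Agent.T9h24
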