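import Mathlib
import Pool.Agent.T9h24.PH
import Pool.Agent.T9h24.Bd
import Pool.Agent.T9h24.Val
import Pool.Agent.R405.SchV

/-!
The companion theorem: the generic case.
-/

set_option autoImplicit false
set_option linter.unusedSectionVars false

open Finset NumberField IsDedekindDomain Height

namespace Pool.Agent.T9h24

open Pool.Agent.Y742.SF (fv fv_eq fv_pos fv_nonneg fv_int fv_eq_one_iff fv_mul)
open Pool.Agent.W180.OP (Pl av wt nrm le_nrm nrm_pos)
open Pool.Agent.R405 (Good dot exv)

variable {K : Type} [Field K] [NumberField K]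

theorem totally_complex (hi : ∃ z : K, z ^ 2 = -1) (w : InfinitePlace K) : w.IsComplex := by
  rw [← InfinitePlace.not_isReal_iff_isComplex]
  intro hw
  obtain ⟨z, hz⟩ := hi
  have h1 := congrArg (w.embedding_of_isReal hw) hz
  rw [map_pow, map_neg, map_one] at h1
  nlinarith [sq_nonneg (w.embedding_of_isReal hw z)]

theorem good_av (v : Pl K) : Good (k := K) (K := K) v (av v) := by
  rcases v with w | Q
  · refine ⟨w, ?_, fun y => rfl⟩
    ext x
    rfl
  · refine ⟨Q, 1, ?_, one_pos, fun x => ?_, fun y => ?_⟩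
    · ext x
      rfl
    · rw [Real.rpow_one]
      rfl
    · rw [inv_one, Real.rpow_one]
      rfl

/-- the size of an integral vector -/
noncomputable def sz {N : ℕ} (y : Fin N → ℤ) : ℝ := ⨆ j, |(y j : ℝ)|

theorem le_sz {N : ℕ} (y : Fin N → ℤ) (j : Fin N) : |(y j : ℝ)| ≤ sz y :=
  le_ciSup (f := fun j => |(y j : ℝ)|) (Set.finite_range _).bddAbove j

theorem one_le_sz {N : ℕ} (y : Fin N → ℤ) (hy : y ≠ 0) : 1 ≤ sz y := by
  obtain ⟨j, hj⟩ := Function.ne_iff.1 hy
  refine le_trans ?_ (le_sz y j)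
  have : 1 ≤ |y j| := Int.one_le_abs hj
  exact_mod_cast this

theorem place_int (w : InfinitePlace K) (n : ℤ) : w (n : K) = |(n : ℝ)| := by
  have := w.norm_embedding_eq (n : K)
  rw [map_intCast] at this
  rw [← this]
  simp

theorem nrm_inf {N : ℕ} (w : InfinitePlace K) (y : Fin N → ℤ) :
    nrm (av (Sum.inl w : Pl K)) (fun j => (y j : K)) = sz y := by
  unfold nrm sz
  exact iSup_congr fun j => place_int w (y j)

theorem nrm_fin {N : ℕ} (Q : HeightOneSpectrum (𝓞 K)) (y : Fin N → ℤ)
    (hy : ∃ u : Fin N → ℤ, ∑ j, u j * y j = 1) :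
    nrm (av (Sum.inr Q : Pl K)) (fun j => (y j : K)) = 1 := by
  obtain ⟨u, hu⟩ := hy
  have hint : ∀ n : ℤ, fv Q (n : K) ≤ 1 := fun n => by
    have := fv_int Q (n : 𝓞 K)
    rwa [show (((n : 𝓞 K)) : K) = (n : K) from by push_cast; rfl] at this
  have hN : Nonempty (Fin N) := by
    by_contra h
    rw [not_nonempty_iff] at h
    simp at hu
  apply le_antisymm
  · exact ciSup_le fun j => hint (y j)
  · obtain ⟨j, hj⟩ : ∃ j, ((y j : ℤ) : 𝓞 K) ∉ Q.asIdeal := by
      by_contra hcon
      push Not at hcon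
      have h1 : ((∑ j, u j * y j : ℤ) : 𝓞 K) ∈ Q.asIdeal := by
        push_cast
        exact Ideal.sum_mem _ fun j _ => Ideal.mul_mem_left _ _ (hcon j)
      rw [hu, Int.cast_one] at h1
      exact Q.isPrime.ne_top ((Ideal.eq_top_iff_one _).2 h1)
    have h2 := (fv_eq_one_iff Q ((y j : ℤ) : 𝓞 K)).2 hj
    rw [← h2]
    have h3 := le_nrm (av (Sum.inr Q : Pl K)) (fun j => (y j : K)) j
    refine le_trans (le_of_eq ?_) h3
    show fv Q _ = fv Q _
    congr 1

theorem logHeight_le {N : ℕ} (y : Fin N → ℤ) (hy : y ≠ 0) :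
    logHeight (fun j => (y j : K)) ≤ Module.finrank ℚ K * Real.log (sz y) := by
  have hu : (fun j => (y j : 𝓞 K)) ≠ 0 := by
    intro h
    apply hy
    funext j
    have := congrFun h j
    simpa using this
  have h1 := Pool.Agent.R405.mulHeight_int (fun j => (y j : 𝓞 K)) hu
  have hN0 : (1 : ℝ) ≤ Ideal.absNorm (Ideal.span (Set.range (fun j => (y j : 𝓞 K)))) := by
    have hb : Ideal.span (Set.range (fun j => (y j : 𝓞 K))) ≠ ⊥ := by
      obtain ⟨j, hj⟩ := Function.ne_iff.1 hu
      intro h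
      apply hj
      have : (y j : 𝓞 K) ∈ Ideal.span (Set.range (fun j => (y j : 𝓞 K))) :=
        Ideal.subset_span (Set.mem_range_self j)
      rw [h] at this
      exact this
    have : Ideal.absNorm (Ideal.span (Set.range (fun j => (y j : 𝓞 K)))) ≠ 0 := by
      rwa [Ne, Ideal.absNorm_eq_zero_iff]
    exact_mod_cast Nat.one_le_iff_ne_zero.2 this
  have h2 : ∏ v : InfinitePlace K, (⨆ i, v (((y i : 𝓞 K)) : K)) ^ v.mult =
      sz y ^ Module.finrank ℚ K := by
    rw [← InfinitePlace.sum_mult_eq, ← Finset.prod_pow_eq_pow_sum]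
    refine Finset.prod_congr rfl fun v _ => ?_
    congr 1
    unfold sz
    refine iSup_congr fun j => ?_
    rw [← place_int v (y j)]
    congr 1
  rw [h2] at h1
  have h3 : (fun j => (((y j : 𝓞 K)) : K)) = fun j => (y j : K) := by
    funext j
    push_cast
    rfl
  rw [h3] at h1
  have hsz := one_le_sz y hy
  have hx : (fun j => (y j : K)) ≠ 0 := by
    intro h
    apply hy
    funext j
    have := congrFun h j
    simpa using this
  have hH := mulHeight_pos (fun j => (y j : K))
  have h4 : mulHeight (fun j => (y j : K)) ≤ sz y ^ Module.finrank ℚ K := by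
    rw [← h1]
    nlinarith
  rw [logHeight_eq_log_mulHeight, ← Real.log_pow]
  exact Real.log_le_log hH h4

theorem av_sum_le (v : Pl K) {α : Type} (s : Finset α) (f : α → K) :
    av v (∑ i ∈ s, f i) ≤ ∑ i ∈ s, av v (f i) := (av v).sum_le s f

/-- **The companion theorem**, generic points. -/
theorem core [IsGalois ℚ K] (hi : ∃ z : K, z ^ 2 = -1) {N : ℕ} (hN : 2 ≤ N) {ι : Type}
    [Fintype ι] [DecidableEq ι] (L : ι → Fin N → 𝓞 K) (hL : ∀ l, L l ≠ 0)
    (hs : ∃ β : Fin N → ι, (Matrix.of fun a j => (L (β a) j : K)).det ≠ 0)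
    (T : Finset (HeightOneSpectrum (𝓞 K))) (ε : ℝ) (hε : 0 < ε) :
    ∃ (Z : Finset (Fin N → ℚ)) (C : ℝ), (∀ z ∈ Z, z ≠ 0) ∧ 0 ≤ C ∧
      ∀ y : Fin N → ℤ, (∃ u : Fin N → ℤ, ∑ j, u j * y j = 1) →
        (∀ z ∈ Z, ∑ j, z j * (y j : ℚ) ≠ 0) → C ≤ Real.log (sz y) →
        ∃ g : Fin N → 𝓞 K, (¬ ∃ a : K, ∀ j, (g j : K) = a * (y j : K)) ∧
          ∀ v : Pl K, (∀ Q, v = Sum.inr Q → Q ∈ T) → ∀ l,
            av v ((∑ j, L l j * g j : 𝓞 K) : K) ≤
              Real.exp (C + ε * Real.log (sz y)) *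
                av v ((∑ j, L l j * (y j : 𝓞 K) : 𝓞 K) : K) := by
  classical
  have htc := totally_complex hi
  set d := Module.finrank ℚ K with hd
  have hd0 : (0 : ℝ) < d := by exact_mod_cast Module.finrank_pos
  set S : Finset (Pl K) := Finset.disjSum Finset.univ T with hS
  obtain ⟨Z0, hZ0, hmain⟩ := Pool.Agent.R405.schV (k := K) (K := K) hi (show 1 ≤ N by omega)
    (fun l j => (L l j : K))
  obtain ⟨CV, hCV0, hV⟩ := hmain S av (fun v _ => good_av v) (ε / 2) (by positivity)
  -- the exceptional forms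
  have hLK : ∀ l, (fun j => (L l j : K)) ≠ 0 := by
    intro l h
    apply hL l
    funext j
    have := congrFun h j
    simpa using this
  set Z1 : Finset (Fin N → K) := Z0 ∪ Finset.univ.image (fun l j => (L l j : K)) with hZ1
  have hZ1' : ∀ z ∈ Z1, z ≠ 0 := by
    intro z hz
    rcases Finset.mem_union.1 hz with h | h
    · exact hZ0 z h
    · obtain ⟨l, -, rfl⟩ := Finset.mem_image.1 h
      exact hLK l
  have hdes : ∀ z : Fin N → K, ∃ m : Fin N → ℚ, z ∈ Z1 → m ≠ 0 ∧ ∀ x : Fin N → ℚ,
      ∑ j, m j * x j ≠ 0 → ∑ j, z j * algebraMap ℚ K (x j) ≠ 0 := by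
    intro z
    by_cases hz : z ∈ Z1
    · obtain ⟨m, hm⟩ := Pool.Agent.R405.descend (k := ℚ) z (hZ1' z hz)
      exact ⟨m, fun _ => hm⟩
    · exact ⟨0, fun h => absurd h hz⟩
  choose mz hmz using hdes
  -- the coefficients
  have hcoef : ∀ (β : Fin N → ι) (l : ι), ∃ c : Fin N → K,
      (Matrix.of fun a j => (L (β a) j : K)).det ≠ 0 →
      (fun j => (L l j : K)) = ∑ a, c a • (fun j => (L (β a) j : K)) := by
    intro β l
    by_cases h : (Matrix.of fun a j => (L (β a) j : K)).det ≠ 0
    · obtain ⟨c, hc⟩ := exists_coeff (fun a j => (L (β a) j : K)) h (fun j => (L l j : K))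
      exact ⟨c, fun _ => hc⟩
    · exact ⟨0, fun h' => absurd h' h⟩
  choose cf hcf using hcoef
  set CC : ℝ := 1 + ∑ v ∈ S, ∑ β : Fin N → ι, ∑ l, ∑ a, av v (cf β l a) with hCC
  have hnn : ∀ (v : Pl K) (z : K), 0 ≤ av v z := fun v z => (av v).nonneg z
  have hCC1 : 1 ≤ CC := by
    have : 0 ≤ ∑ v ∈ S, ∑ β : Fin N → ι, ∑ l, ∑ a, av v (cf β l a) :=
      Finset.sum_nonneg fun v _ => Finset.sum_nonneg fun β _ => Finset.sum_nonneg fun l _ =>
        Finset.sum_nonneg fun a _ => hnn v _
    linarith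
  have hcle : ∀ v ∈ S, ∀ β l a, av v (cf β l a) ≤ CC := by
    intro v hv β l a
    have h1 : av v (cf β l a) ≤ ∑ a, av v (cf β l a) :=
      Finset.single_le_sum (f := fun a => av v (cf β l a)) (fun a _ => hnn v _)
        (Finset.mem_univ a)
    have h2 : ∑ a, av v (cf β l a) ≤ ∑ l, ∑ a, av v (cf β l a) :=
      Finset.single_le_sum (f := fun l => ∑ a, av v (cf β l a))
        (fun l _ => Finset.sum_nonneg fun a _ => hnn v _) (Finset.mem_univ l)
    have h3 : ∑ l, ∑ a, av v (cf β l a) ≤ ∑ β : Fin N → ι, ∑ l, ∑ a, av v (cf β l a) :=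
      Finset.single_le_sum (f := fun β : Fin N → ι => ∑ l, ∑ a, av v (cf β l a))
        (fun β _ => Finset.sum_nonneg fun l _ => Finset.sum_nonneg fun a _ => hnn v _)
        (Finset.mem_univ β)
    have h4 : ∑ β : Fin N → ι, ∑ l, ∑ a, av v (cf β l a) ≤
        ∑ v ∈ S, ∑ β : Fin N → ι, ∑ l, ∑ a, av v (cf β l a) :=
      Finset.single_le_sum (f := fun v : Pl K => ∑ β : Fin N → ι, ∑ l, ∑ a, av v (cf β l a))
        (fun v _ => Finset.sum_nonneg fun β _ => Finset.sum_nonneg fun l _ =>
          Finset.sum_nonneg fun a _ => hnn v _) hv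
    linarith
  obtain ⟨CB, hCB1, hbox⟩ := box htc L
  obtain ⟨CM, hCM1, hmult⟩ := card_bounded K
  set c0 : ℝ := |Real.log (2 * CM) + d * N * Real.log CB + CV| with hc0
  have hc00 : 0 ≤ c0 := abs_nonneg _
  set C : ℝ := 1 + 2 * c0 / (d * ε) + Real.log (N * CC) with hC
  have hN0 : (2 : ℝ) ≤ N := by exact_mod_cast hN
  have hlogNC : 0 ≤ Real.log (N * CC) := Real.log_nonneg (by nlinarith)
  have hC0 : 0 ≤ C := by positivity
  refine ⟨Z1.image mz, C, ?_, hC0, fun y hprim hZy hbig => ?_⟩
  · intro z hz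
    obtain ⟨z', hz', rfl⟩ := Finset.mem_image.1 hz
    exact (hmz z' hz').1
  have hy0 : y ≠ 0 := by
    rintro rfl
    obtain ⟨u, hu⟩ := hprim
    simp at hu
  set x : Fin N → K := fun j => (y j : K) with hx
  have hx0 : x ≠ 0 := by
    intro h
    apply hy0
    funext j
    have := congrFun h j
    simpa [hx] using this
  have hexv : exv K x = x := by
    funext j
    rfl
  have hZx : ∀ z ∈ Z1, ∑ j, z j * x j ≠ 0 := by
    intro z hz
    have h1 := (hmz z hz).2 (fun j => (y j : ℚ)) (hZy _ (Finset.mem_image_of_mem _ hz))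
    simpa [hx] using h1
  set ev : ι → 𝓞 K := fun l => ∑ j, L l j * (y j : 𝓞 K) with hev
  have hevK : ∀ l, (ev l : K) = dot (fun j => (L l j : K)) (exv K x) := by
    intro l
    rw [hexv]
    simp only [hev, dot, hx]
    push_cast
    rfl
  have hev0 : ∀ l, (ev l : K) ≠ 0 := by
    intro l
    rw [hevK, hexv]
    exact hZx _ (Finset.mem_union_right _ (Finset.mem_image_of_mem _ (Finset.mem_univ l)))
  have hev0' : ∀ l, ev l ≠ 0 := by
    intro l h
    apply hev0 l
    rw [h]
    simp
  -- the greedy bases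
  have hgr := fun v : Pl K => greedy (fun l j => (L l j : K)) hs (fun l => av v (ev l : K))
  choose β hβ hmin using hgr
  have hineq := hV x hx0 (fun z hz => hZx z (Finset.mem_union_left _ hz)) (fun l => by
    rw [← hevK]; exact hev0 l) β (fun v _ => hβ v)
  set h : ℝ := Real.log (sz y) with hh
  have hh0 : 0 ≤ h := hC0.trans hbig
  have hbasic : -(∑ w : InfinitePlace K, ∑ a, 2 * Real.log (w (ev (β (Sum.inl w) a) : K))) -
      ∑ Q ∈ T, ∑ a, Real.log (fv Q (ev (β (Sum.inr Q) a) : K)) ≤ ε / 2 * d * h + CV := by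
    rw [hS, Finset.sum_disjSum] at hineq
    have e1 : ∀ w : InfinitePlace K, wt (Sum.inl w : Pl K) * ∑ a,
        (Real.log (nrm (av (Sum.inl w : Pl K)) x) - Real.log (av (Sum.inl w : Pl K)
          (dot (fun j => (L (β (Sum.inl w) a) j : K)) (exv K x)))) =
        2 * N * h - ∑ a, 2 * Real.log (w (ev (β (Sum.inl w) a) : K)) := by
      intro w
      have h1 : wt (Sum.inl w : Pl K) = 2 := by
        show ((w.mult : ℕ) : ℝ) = 2
        rw [InfinitePlace.mult_isComplex ⟨w, htc w⟩]
        norm_num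
      rw [h1, hx, nrm_inf, Finset.sum_sub_distrib, Finset.sum_const, Finset.card_univ,
        Fintype.card_fin, nsmul_eq_mul, mul_sub, Finset.mul_sum]
      have h2 : ∀ a, Real.log (av (Sum.inl w : Pl K)
          (dot (fun j => (L (β (Sum.inl w) a) j : K)) (exv K x))) =
          Real.log (w (ev (β (Sum.inl w) a) : K)) := fun a => by
        rw [hevK]
        rfl
      rw [hx] at h2
      simp only [h2]
      ring
    have e2 : ∀ Q : HeightOneSpectrum (𝓞 K), wt (Sum.inr Q : Pl K) * ∑ a,
        (Real.log (nrm (av (Sum.inr Q : Pl K)) x) - Real.log (av (Sum.inr Q : Pl K)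
          (dot (fun j => (L (β (Sum.inr Q) a) j : K)) (exv K x)))) =
        - ∑ a, Real.log (fv Q (ev (β (Sum.inr Q) a) : K)) := by
      intro Q
      have h1 : wt (Sum.inr Q : Pl K) = 1 := rfl
      rw [h1, hx, nrm_fin Q y hprim, Real.log_one, one_mul, ← Finset.sum_neg_distrib]
      refine Finset.sum_congr rfl fun a _ => ?_
      rw [zero_sub]
      have h2 : Real.log (av (Sum.inr Q : Pl K)
          (dot (fun j => (L (β (Sum.inr Q) a) j : K)) (exv K x))) =
          Real.log (fv Q (ev (β (Sum.inr Q) a) : K)) := by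
        rw [hevK]
        rfl
      rw [hx] at h2
      rw [h2]
    simp only [e1, e2] at hineq
    rw [Finset.sum_sub_distrib, Finset.sum_const, Finset.card_univ, nsmul_eq_mul,
      Finset.sum_neg_distrib] at hineq
    have h3 : (Fintype.card (InfinitePlace K) : ℝ) * (2 * N * h) = d * N * h := by
      have : (2 : ℝ) * Fintype.card (InfinitePlace K) = d := by
        rw [hd, ← card_places htc]
        push_cast
        ring
      rw [← this]
      ring
    have h4 : logHeight x ≤ d * h := logHeight_le y hy0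
    have h5 : ((N : ℝ) + ε / 2) * logHeight x ≤ (N + ε / 2) * (d * h) :=
      mul_le_mul_of_nonneg_left h4 (by positivity)
    rw [h3] at hineq
    linarith
  -- the box
  set R : ℝ := Real.exp (ε * h) with hR
  have hR1 : 1 ≤ R := Real.one_le_exp (by positivity)
  have hR0 : 0 < R := by linarith
  have hord := fun (Q : HeightOneSpectrum (𝓞 K)) (a : Fin N) =>
    exists_ord Q (ev (β (Sum.inr Q) a)) (hev0' _)
  choose m hm1 hm2 using hord
  set X : ℕ := ⌈CM * R ^ d⌉₊ with hX
  have hX1 : CM * R ^ d ≤ X := Nat.le_ceil _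
  have hRd : 1 ≤ R ^ d := one_le_pow₀ hR1
  have hX2 : (X : ℝ) ≤ 2 * CM * R ^ d := by
    have : (X : ℝ) < CM * R ^ d + 1 := Nat.ceil_lt_add_one (by positivity)
    nlinarith
  have hX0 : (0 : ℝ) < X := by
    have : (0 : ℝ) < CM * R ^ d := by positivity
    linarith
  have hwpos : ∀ (w : InfinitePlace K) l, 0 < w (ev l : K) := fun w l =>
    InfinitePlace.pos_iff.2 (hev0 l)
  have hcond : (X : ℝ) * (∏ w : InfinitePlace K, ∏ a,
      (CB / (R * w (ev (β (Sum.inl w) a) : K))) ^ 2) *
        ∏ Q ∈ T, ∏ a, (Ideal.absNorm Q.asIdeal : ℝ) ^ (m Q a) < 1 := by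
    have hp1 : ∀ (w : InfinitePlace K) (a : Fin N),
        0 < (CB / (R * w (ev (β (Sum.inl w) a) : K))) ^ 2 := fun w a => by
      have := hwpos w (β (Sum.inl w) a)
      positivity
    have hp2 : ∀ (Q : HeightOneSpectrum (𝓞 K)) (a : Fin N),
        0 < (Ideal.absNorm Q.asIdeal : ℝ) ^ (m Q a) := fun Q a => by
      have h1 := hm1 Q a
      have h2 := fv_pos Q _ (hev0 (β (Sum.inr Q) a))
      rw [h1] at h2
      exact inv_pos.1 h2
    have hP1 : 0 < ∏ w : InfinitePlace K, ∏ a,
      (CB / (R * w (ev (β (Sum.inl w) a) : K))) ^ 2 := Finset.prod_pos fun w _ =>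
        Finset.prod_pos fun a _ => hp1 w a
    have hP2 : 0 < ∏ Q ∈ T, ∏ a, (Ideal.absNorm Q.asIdeal : ℝ) ^ (m Q a) :=
      Finset.prod_pos fun Q _ => Finset.prod_pos fun a _ => hp2 Q a
    rw [← Real.log_neg_iff (by positivity)]
    rw [Real.log_mul (by positivity) hP2.ne', Real.log_mul hX0.ne' hP1.ne',
      Real.log_prod fun w _ => (Finset.prod_pos fun a _ => hp1 w a).ne',
      Real.log_prod fun Q _ => (Finset.prod_pos fun a _ => hp2 Q a).ne']
    have e1 : ∀ w : InfinitePlace K, Real.log (∏ a,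
        (CB / (R * w (ev (β (Sum.inl w) a) : K))) ^ 2) =
        2 * N * (Real.log CB - ε * h) -
          ∑ a, 2 * Real.log (w (ev (β (Sum.inl w) a) : K)) := by
      intro w
      rw [Real.log_prod fun a _ => (hp1 w a).ne']
      have h1 : ∀ a, Real.log ((CB / (R * w (ev (β (Sum.inl w) a) : K))) ^ 2) =
          2 * (Real.log CB - ε * h) - 2 * Real.log (w (ev (β (Sum.inl w) a) : K)) := by
        intro a
        have h2 := hwpos w (β (Sum.inl w) a)
        rw [Real.log_pow, Real.log_div (by positivity) (by positivity),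
          Real.log_mul hR0.ne' h2.ne', hR, Real.log_exp]
        push_cast
        ring
      simp only [h1]
      rw [Finset.sum_sub_distrib, Finset.sum_const, Finset.card_univ, Fintype.card_fin,
        nsmul_eq_mul]
      ring
    have e2 : ∀ Q : HeightOneSpectrum (𝓞 K), Real.log (∏ a,
        (Ideal.absNorm Q.asIdeal : ℝ) ^ (m Q a)) =
        - ∑ a, Real.log (fv Q (ev (β (Sum.inr Q) a) : K)) := by
      intro Q
      rw [Real.log_prod fun a _ => (hp2 Q a).ne', ← Finset.sum_neg_distrib]
      refine Finset.sum_congr rfl fun a _ => ?_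
      rw [hm1 Q a, Real.log_inv, neg_neg]
    simp only [e1, e2]
    rw [Finset.sum_sub_distrib, Finset.sum_const, Finset.card_univ, nsmul_eq_mul,
      Finset.sum_neg_distrib]
    have h3 : (Fintype.card (InfinitePlace K) : ℝ) * (2 * N * (Real.log CB - ε * h)) =
        d * N * (Real.log CB - ε * h) := by
      have : (2 : ℝ) * Fintype.card (InfinitePlace K) = d := by
        rw [hd, ← card_places htc]
        push_cast
        ring
      rw [← this]
      ring
    rw [h3]
    have h4 : Real.log X ≤ Real.log (2 * CM) + d * (ε * h) := by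
      refine (Real.log_le_log hX0 hX2).trans (le_of_eq ?_)
      rw [Real.log_mul (by positivity) (by positivity), Real.log_pow, hR, Real.log_exp]
    have h5 : 2 * c0 / (d * ε) + 1 ≤ h := by
      refine le_trans ?_ hbig
      rw [hC]
      linarith
    have h6 : 2 * c0 < d * ε * h := by
      have h7 : 2 * c0 / (d * ε) < h := by linarith
      rw [div_lt_iff₀ (by positivity)] at h7
      linarith
    have h8 : Real.log (2 * CM) + d * N * Real.log CB + CV ≤ c0 := le_abs_self _
    have h9 : (d : ℝ) * (ε * h) ≤ d * (N - 1) * (ε * h) := by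
      have : 0 ≤ (d : ℝ) * (ε * h) := by positivity
      nlinarith
    nlinarith
  obtain ⟨F, hF1, hF2⟩ := hbox T (fun w a => β (Sum.inl w) a) (fun Q a => β (Sum.inr Q) a) m
    (fun w a => R * w (ev (β (Sum.inl w) a) : K)) (fun w a => mul_pos hR0 (hwpos w _)) X hcond
  -- a point which is not a multiple
  obtain ⟨u, hu⟩ := hprim
  obtain ⟨g, hgF, hg⟩ : ∃ g ∈ F, ¬ ∃ a : K, ∀ j, (g j : K) = a * (y j : K) := by
    by_contra hcon
    push Not at hcon
    set A : (Fin N → 𝓞 K) → 𝓞 K := fun g => ∑ j, (u j : 𝓞 K) * g j with hA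
    have hAg : ∀ g ∈ F, ∀ j, g j = A g * (y j : 𝓞 K) := by
      intro g hg j
      obtain ⟨a, ha⟩ := hcon g hg
      have h1 : ((A g : 𝓞 K) : K) = a := by
        simp only [hA]
        push_cast
        have h2 : ∀ j, (u j : K) * (g j : K) = a * ((u j : K) * (y j : K)) := fun j => by
          rw [ha]; ring
        have h3 : ∑ j, (u j : K) * (g j : K) = a := by
          simp only [h2]
          rw [← Finset.mul_sum]
          have h4 : ∑ j, (u j : K) * (y j : K) = 1 := by
            have := congrArg (fun z : ℤ => (z : K)) hu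
            simpa using this
          rw [h4, mul_one]
        exact h3
      apply RingOfIntegers.ext
      rw [ha j, ← h1]
      push_cast
      rfl
    have hinj : Set.InjOn A (F : Set (Fin N → 𝓞 K)) := by
      intro g hg g' hg' hgg
      funext j
      rw [hAg g hg j, hAg g' hg' j, hgg]
    have hcard := Finset.card_image_of_injOn hinj
    have hle := hmult R hR1 (F.image A) (by
      intro a ha w
      obtain ⟨g, hg, rfl⟩ := Finset.mem_image.1 ha
      have h1 := (hF2 g hg).1 w ⟨0, by omega⟩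
      have h2 : (∑ j, L (β (Sum.inl w) ⟨0, by omega⟩) j * g j : 𝓞 K) =
          A g * ev (β (Sum.inl w) ⟨0, by omega⟩) := by
        simp only [hev]
        rw [Finset.mul_sum]
        refine Finset.sum_congr rfl fun j _ => ?_
        rw [hAg g hg j]
        ring
      rw [h2] at h1
      push_cast at h1
      rw [map_mul] at h1
      exact le_of_mul_le_mul_right h1 (hwpos w _))
    rw [hcard] at hle
    have h3 : (F.card : ℝ) ≤ X := hle.trans hX1
    have h4 : F.card ≤ X := by exact_mod_cast h3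
    omega
  refine ⟨g, hg, fun v hv l => ?_⟩
  have hvS : v ∈ S := by
    rw [hS]
    rcases v with w | Q
    · exact Finset.inl_mem_disjSum.2 (Finset.mem_univ _)
    · exact Finset.inr_mem_disjSum.2 (hv Q rfl)
  -- the values on the basis
  have hbv : ∀ a, av v ((∑ j, L (β v a) j * g j : 𝓞 K) : K) ≤ R * av v (ev (β v a) : K) := by
    intro a
    rcases v with w | Q
    · exact (hF2 g hgF).1 w a
    · have h1 := hm2 Q a _ ((hF2 g hgF).2 Q (hv Q rfl) a)
      have h2 : (1 : ℝ) * fv Q (ev (β (Sum.inr Q) a) : K) ≤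
          R * fv Q (ev (β (Sum.inr Q) a) : K) :=
        mul_le_mul_of_nonneg_right hR1 (fv_nonneg _ _)
      rw [one_mul] at h2
      exact h1.trans h2
  have hlin := hcf (β v) l (hβ v)
  have hexp : ((∑ j, L l j * g j : 𝓞 K) : K) =
      ∑ a, cf (β v) l a * ((∑ j, L (β v a) j * g j : 𝓞 K) : K) := by
    push_cast
    have h1 : ∀ j, (L l j : K) = ∑ a, cf (β v) l a * (L (β v a) j : K) := by
      intro j
      have := congrFun hlin j
      simpa using this
    have h2 : ∑ j, (L l j : K) * (g j : K) =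
        ∑ a, cf (β v) l a * ∑ j, (L (β v a) j : K) * (g j : K) := by
      simp only [h1, Finset.sum_mul, Finset.mul_sum]
      rw [Finset.sum_comm]
      exact Finset.sum_congr rfl fun a _ => Finset.sum_congr rfl fun j _ => by ring
    exact h2
  rw [hexp]
  refine (av_sum_le v _ _).trans ?_
  have hterm : ∀ a, av v (cf (β v) l a * ((∑ j, L (β v a) j * g j : 𝓞 K) : K)) ≤
      CC * R * av v (ev l : K) := by
    intro a
    rw [map_mul]
    by_cases hc : cf (β v) l a = 0
    · rw [hc, map_zero, zero_mul]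
      have := hnn v (ev l : K)
      positivity
    · have h1 := hmin v l (cf (β v) l) hlin a hc
      have h2 := hcle v hvS (β v) l a
      have h3 := hbv a
      have h4 : R * av v (ev (β v a) : K) ≤ R * av v (ev l : K) :=
        mul_le_mul_of_nonneg_left h1 hR0.le
      calc av v (cf (β v) l a) * av v ((∑ j, L (β v a) j * g j : 𝓞 K) : K)
          ≤ CC * (R * av v (ev l : K)) :=
            mul_le_mul h2 (h3.trans h4) (hnn v _) (by linarith)
        _ = CC * R * av v (ev l : K) := by ring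
  refine (Finset.sum_le_sum fun a _ => hterm a).trans ?_
  rw [Finset.sum_const, Finset.card_univ, Fintype.card_fin, nsmul_eq_mul]
  have h5 : (N : ℝ) * (CC * R * av v (ev l : K)) = (N * CC * R) * av v (ev l : K) := by ring
  rw [h5]
  refine mul_le_mul_of_nonneg_right ?_ (hnn v _)
  rw [Real.exp_add, ← hR]
  refine mul_le_mul_of_nonneg_right ?_ hR0.le
  rw [← Real.log_le_iff_le_exp (by positivity), hC]
  have : 0 ≤ 2 * c0 / (d * ε) := by positivity
  linarith

end Pool.Agent.T9h24
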