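import Mathlib

/-!
Tropical determinants and optimal assignments.
-/

set_option autoImplicit false
set_option linter.unusedSectionVars false

open Finset

namespace Pool.Agent.T9h24

variable {Y : Type} [Fintype Y] [DecidableEq Y] {n : ℕ}

/-- the cost of an assignment of `n + 1` points -/
def cst (u : Y → Fin (n + 1) → ℝ) (z : Fin (n + 1) → Y) (π : Equiv.Perm (Fin (n + 1))) : ℝ :=
  ∑ l, u (z l) (π l)

/-- the tropical determinant -/
noncomputable def td (u : Y → Fin (n + 1) → ℝ) (z : Fin (n + 1) → Y) : ℝ :=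
  Finset.univ.inf' Finset.univ_nonempty (cst u z)

theorem td_le (u : Y → Fin (n + 1) → ℝ) (z : Fin (n + 1) → Y) (π : Equiv.Perm (Fin (n + 1))) :
    td u z ≤ cst u z π := Finset.inf'_le _ (Finset.mem_univ π)

theorem exists_td (u : Y → Fin (n + 1) → ℝ) (z : Fin (n + 1) → Y) :
    ∃ π, cst u z π = td u z := by
  obtain ⟨π, -, h⟩ := Finset.exists_mem_eq_inf' (Finset.univ_nonempty
    (α := Equiv.Perm (Fin (n + 1)))) (cst u z)
  exact ⟨π, h.symm⟩

theorem le_td (u : Y → Fin (n + 1) → ℝ) (z : Fin (n + 1) → Y) (c : ℝ)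
    (h : ∀ π, c ≤ cst u z π) : c ≤ td u z := by
  obtain ⟨π, hπ⟩ := exists_td u z
  rw [← hπ]
  exact h π

theorem mn_ne (k : Fin (n + 1)) :
    (Finset.univ.filter fun π : Equiv.Perm (Fin (n + 1)) => π 0 = k).Nonempty :=
  ⟨Equiv.swap 0 k, by simp⟩

/-- the tropical minors -/
noncomputable def mn (u : Y → Fin (n + 1) → ℝ) (b : Fin n → Y) (k : Fin (n + 1)) : ℝ :=
  (Finset.univ.filter fun π : Equiv.Perm (Fin (n + 1)) => π 0 = k).inf' (mn_ne k)
    (fun π => ∑ l : Fin n, u (b l) (π l.succ))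

theorem mn_le (u : Y → Fin (n + 1) → ℝ) (b : Fin n → Y) (π : Equiv.Perm (Fin (n + 1))) :
    mn u b (π 0) ≤ ∑ l : Fin n, u (b l) (π l.succ) :=
  Finset.inf'_le (s := Finset.univ.filter fun π' : Equiv.Perm (Fin (n + 1)) => π' 0 = π 0)
    (fun π' => ∑ l : Fin n, u (b l) (π' l.succ))
    (Finset.mem_filter.2 ⟨Finset.mem_univ π, rfl⟩)

theorem exists_mn (u : Y → Fin (n + 1) → ℝ) (b : Fin n → Y) (k : Fin (n + 1)) :
    ∃ π : Equiv.Perm (Fin (n + 1)), π 0 = k ∧ ∑ l : Fin n, u (b l) (π l.succ) = mn u b k := by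
  obtain ⟨π, h1, h2⟩ := Finset.exists_mem_eq_inf' (mn_ne k)
    (fun π : Equiv.Perm (Fin (n + 1)) => ∑ l : Fin n, u (b l) (π l.succ))
  exact ⟨π, (Finset.mem_filter.1 h1).2, h2.symm⟩

theorem cst_cons (u : Y → Fin (n + 1) → ℝ) (b : Fin n → Y) (y : Y)
    (π : Equiv.Perm (Fin (n + 1))) :
    cst u (Fin.cons y b : Fin (n + 1) → Y) π = u y (π 0) + ∑ l : Fin n, u (b l) (π l.succ) := by
  unfold cst
  rw [Fin.sum_univ_succ]
  simp only [Fin.cons_zero, Fin.cons_succ]

theorem td_cons_le (u : Y → Fin (n + 1) → ℝ) (b : Fin n → Y) (y : Y) (k : Fin (n + 1)) :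
    td u (Fin.cons y b : Fin (n + 1) → Y) ≤ u y k + mn u b k := by
  obtain ⟨π, h1, h2⟩ := exists_mn u b k
  have h3 := td_le u (Fin.cons y b : Fin (n + 1) → Y) π
  rw [cst_cons, h1, h2] at h3
  exact h3

theorem exists_td_cons (u : Y → Fin (n + 1) → ℝ) (b : Fin n → Y) (y : Y) :
    ∃ k, td u (Fin.cons y b : Fin (n + 1) → Y) = u y k + mn u b k := by
  obtain ⟨π, hπ⟩ := exists_td u (Fin.cons y b : Fin (n + 1) → Y)
  refine ⟨π 0, le_antisymm (td_cons_le u b y (π 0)) ?_⟩
  rw [← hπ, cst_cons]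
  have := mn_le u b π
  linarith

/-- the minors are bounded by the determinants with a repeated point -/
theorem sum_mn_le (u : Y → Fin (n + 1) → ℝ) (b : Fin n → Y) :
    ∑ k, mn u b k ≤ ∑ i : Fin n, td u (Fin.cons (b i) b : Fin (n + 1) → Y) := by
  classical
  choose κ hκ using fun i : Fin n => exists_td_cons u b (b i)
  choose ρ hρ0 hρ using exists_mn u b
  set N : ℝ := (n : ℝ) + 1 with hN
  have hN0 : 0 < N := by positivity
  set M0 : Fin (n + 1) → Fin (n + 1) → ℝ := fun i k => Fin.cases (1 : ℝ)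
    (fun l => (if κ l = k then (1 : ℝ) else 0) +
      ∑ i' : Fin n, (if ρ (κ i') l.succ = k then (1 : ℝ) else 0)) i with hM0
  have hM00 : ∀ k, M0 0 k = 1 := fun k => rfl
  have hM0s : ∀ (l : Fin n) k, M0 l.succ k = (if κ l = k then (1 : ℝ) else 0) +
      ∑ i' : Fin n, (if ρ (κ i') l.succ = k then (1 : ℝ) else 0) := fun l k => rfl
  set M : Matrix (Fin (n + 1)) (Fin (n + 1)) ℝ := fun i k => N⁻¹ * M0 i k with hM
  have hmem : M ∈ doublyStochastic ℝ (Fin (n + 1)) := by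
    rw [mem_doublyStochastic_iff_sum]
    refine ⟨fun i k => ?_, fun i => ?_, fun k => ?_⟩
    · refine mul_nonneg (inv_nonneg.2 hN0.le) ?_
      refine Fin.cases ?_ (fun l => ?_) i
      · rw [hM00]; exact zero_le_one
      · rw [hM0s]
        refine add_nonneg (by split_ifs <;> norm_num) (Finset.sum_nonneg fun _ _ => by
          split_ifs <;> norm_num)
    · show ∑ k, N⁻¹ * M0 i k = 1
      rw [← Finset.mul_sum]
      have h1 : ∑ k, M0 i k = N := by
        refine Fin.cases ?_ (fun l => ?_) i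
        · simp [hM00, hN]
        · simp only [hM0s]
          rw [Finset.sum_add_distrib, Finset.sum_comm]
          simp [hN]
          ring
      rw [h1, inv_mul_cancel₀ hN0.ne']
    · show ∑ i, N⁻¹ * M0 i k = 1
      rw [← Finset.mul_sum]
      have h1 : ∑ i, M0 i k = N := by
        rw [Fin.sum_univ_succ, hM00]
        simp only [hM0s]
        rw [Finset.sum_add_distrib, Finset.sum_comm (γ := Fin n)]
        have h2 : ∀ i' : Fin n, ∑ l : Fin n, (if ρ (κ i') l.succ = k then (1 : ℝ) else 0) =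
            1 - (if κ i' = k then (1 : ℝ) else 0) := by
          intro i'
          have h3 : ∑ j : Fin (n + 1), (if ρ (κ i') j = k then (1 : ℝ) else 0) = 1 := by
            rw [Equiv.sum_comp (ρ (κ i')) (fun j => if j = k then (1 : ℝ) else 0)]
            simp
          rw [Fin.sum_univ_succ, hρ0] at h3
          linarith
        simp only [h2]
        rw [Finset.sum_sub_distrib]
        simp [hN]
        ring
      rw [h1, inv_mul_cancel₀ hN0.ne']
  obtain ⟨w, hw0, hw1, hwM⟩ := exists_eq_sum_perm_of_mem_doublyStochastic hmem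
  have hentry : ∀ i k, M i k = ∑ σ, w σ * (if σ i = k then (1 : ℝ) else 0) := by
    intro i k
    rw [← hwM, Matrix.sum_apply]
    refine Finset.sum_congr rfl fun σ _ => ?_
    rw [Matrix.smul_apply, smul_eq_mul, Equiv.Perm.permMatrix, PEquiv.toMatrix_apply]
    simp [Equiv.toPEquiv_apply, eq_comm]
  -- the total cost
  have hcost : ∑ l : Fin n, ∑ k, M l.succ k * u (b l) k =
      ∑ σ, w σ * ∑ l : Fin n, u (b l) (σ l.succ) := by
    simp only [hentry, Finset.sum_mul, Finset.mul_sum]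
    have e1 : ∀ l : Fin n, ∑ k, ∑ σ, w σ * (if σ l.succ = k then (1 : ℝ) else 0) * u (b l) k =
        ∑ σ, w σ * u (b l) (σ l.succ) := by
      intro l
      rw [Finset.sum_comm]
      refine Finset.sum_congr rfl fun σ _ => ?_
      simp [Finset.sum_ite_eq, ite_mul, mul_ite]
    simp only [e1]
    rw [Finset.sum_comm]
  have hmk : ∑ σ, w σ * mn u b (σ 0) = N⁻¹ * ∑ k, mn u b k := by
    have e1 : ∀ k, N⁻¹ = ∑ σ, w σ * (if σ 0 = k then (1 : ℝ) else 0) := by
      intro k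
      rw [← hentry]
      show N⁻¹ = N⁻¹ * M0 0 k
      rw [hM00, mul_one]
    rw [Finset.mul_sum]
    have e2 : ∀ k, N⁻¹ * mn u b k = ∑ σ, w σ * (if σ 0 = k then (1 : ℝ) else 0) * mn u b k := by
      intro k
      rw [← Finset.sum_mul, ← e1]
    simp only [e2]
    rw [Finset.sum_comm]
    refine Finset.sum_congr rfl fun σ _ => ?_
    simp [Finset.sum_ite_eq, ite_mul, mul_ite]
  have hcost2 : ∑ l : Fin n, ∑ k, M l.succ k * u (b l) k =
      N⁻¹ * ∑ i : Fin n, td u (Fin.cons (b i) b : Fin (n + 1) → Y) := by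
    have e1 : ∀ l : Fin n, ∑ k, M l.succ k * u (b l) k =
        N⁻¹ * (u (b l) (κ l) + ∑ i' : Fin n, u (b l) (ρ (κ i') l.succ)) := by
      intro l
      show ∑ k, N⁻¹ * M0 l.succ k * u (b l) k = _
      simp only [hM0s, mul_assoc]
      rw [← Finset.mul_sum]
      congr 1
      simp only [add_mul, Finset.sum_mul]
      rw [Finset.sum_add_distrib]
      congr 1
      · simp
      · rw [Finset.sum_comm]
        refine Finset.sum_congr rfl fun i' _ => ?_
        simp
    simp only [e1]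
    rw [← Finset.mul_sum, Finset.sum_add_distrib, Finset.sum_comm (γ := Fin n)]
    simp only [hρ]
    rw [← Finset.sum_add_distrib]
    congr 1
    exact Finset.sum_congr rfl fun i _ => (hκ i).symm
  have h1 : ∑ σ, w σ * mn u b (σ 0) ≤ ∑ σ, w σ * ∑ l : Fin n, u (b l) (σ l.succ) :=
    Finset.sum_le_sum fun σ _ => mul_le_mul_of_nonneg_left (mn_le u b σ) (hw0 σ)
  rw [hmk, ← hcost, hcost2] at h1
  exact le_of_mul_le_mul_left h1 (inv_pos.2 hN0)

/-- tightness -/
theorem tight (u : Y → Fin (n + 1) → ℝ) (b : Fin n → Y) (ρ : Equiv.Perm (Fin (n + 1)))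
    (hρ : ∑ l : Fin n, u (b l) (ρ l.succ) = mn u b (ρ 0)) (i : Fin n) :
    td u (Fin.cons (b i) b : Fin (n + 1) → Y) = u (b i) (ρ i.succ) + mn u b (ρ i.succ) := by
  have h1 : ∀ i ∈ (Finset.univ : Finset (Fin n)), td u (Fin.cons (b i) b : Fin (n + 1) → Y) ≤
      u (b i) (ρ i.succ) + mn u b (ρ i.succ) := fun i _ => td_cons_le u b (b i) _
  have h2 : ∑ i : Fin n, (u (b i) (ρ i.succ) + mn u b (ρ i.succ)) = ∑ k, mn u b k := by
    rw [Finset.sum_add_distrib, hρ, ← Equiv.sum_comp ρ (mn u b), Fin.sum_univ_succ]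
  have h3 : ∑ i : Fin n, td u (Fin.cons (b i) b : Fin (n + 1) → Y) =
      ∑ i : Fin n, (u (b i) (ρ i.succ) + mn u b (ρ i.succ)) := by
    refine le_antisymm (Finset.sum_le_sum h1) ?_
    rw [h2]
    exact sum_mn_le u b
  exact (Finset.sum_eq_sum_iff_of_le h1).1 h3 i (Finset.mem_univ i)

theorem ties (u : Y → Fin (n + 1) → ℝ) (b : Fin n → Y) (i : Fin n) : ∃ k k' : Fin (n + 1),
    k ≠ k' ∧ td u (Fin.cons (b i) b : Fin (n + 1) → Y) = u (b i) k + mn u b k ∧
    td u (Fin.cons (b i) b : Fin (n + 1) → Y) = u (b i) k' + mn u b k' := by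
  obtain ⟨ρ, hρ0, hρ⟩ := exists_mn u b 0
  have h1 := tight u b ρ (by rw [hρ0, hρ]) i
  obtain ⟨ρ', hρ0', hρ'⟩ := exists_mn u b (ρ i.succ)
  have h2 := tight u b ρ' (by rw [hρ0', hρ']) i
  refine ⟨ρ i.succ, ρ' i.succ, ?_, h1, h2⟩
  intro h
  rw [← hρ0'] at h
  exact absurd (ρ'.injective h) (Fin.succ_ne_zero i).symm

end Pool.Agent.T9h24
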