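import Mathlib
import Pool.Agent.T9h24.Cmb

/-!
The sum of the costs of assignments with all possible profiles.
-/

set_option autoImplicit false
set_option linter.unusedSectionVars false

open Finset

namespace Pool.Agent.T9h24

variable {Y : Type} [Fintype Y] [DecidableEq Y] {n : ℕ}

/-- the profile of an assignment -/
noncomputable def prf (g : Y → Fin (n + 1)) : Fin (n + 1) →₀ ℕ := ∑ y, Finsupp.single (g y) 1

theorem sum_prf (g : Y → Fin (n + 1)) (m : Fin (n + 1) → ℝ) :
    ∑ k, (prf g k : ℝ) * m k = ∑ y, m (g y) := by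
  classical
  have h1 : ∀ k, (prf g k : ℝ) = ∑ y, (if g y = k then (1 : ℝ) else 0) := by
    intro k
    unfold prf
    rw [Finsupp.finsetSum_apply]
    push_cast
    refine Finset.sum_congr rfl fun y _ => ?_
    rw [Finsupp.single_apply]
    split_ifs <;> simp
  simp only [h1, Finset.sum_mul]
  rw [Finset.sum_comm]
  refine Finset.sum_congr rfl fun y _ => ?_
  simp

theorem sum_m_eq {f g : Y → Fin (n + 1)} (h : prf f = prf g) (m : Fin (n + 1) → ℝ) :
    ∑ y, m (f y) = ∑ y, m (g y) := by
  rw [← sum_prf, ← sum_prf, h]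

/-- the colour of a point with respect to `n` other points -/
noncomputable def kap (u : Y → Fin (n + 1) → ℝ) (b : Fin n → Y) (y : Y) : Fin (n + 1) :=
  (exists_td_cons u b y).choose

theorem kap_spec (u : Y → Fin (n + 1) → ℝ) (b : Fin n → Y) (y : Y) :
    td u (Fin.cons y b : Fin (n + 1) → Y) = u y (kap u b y) + mn u b (kap u b y) :=
  (exists_td_cons u b y).choose_spec

/-- the optimal assignment of `n` points to the colours different from `k` -/
noncomputable def rho (u : Y → Fin (n + 1) → ℝ) (b : Fin n → Y) (k : Fin (n + 1)) :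
    Equiv.Perm (Fin (n + 1)) := (exists_mn u b k).choose

theorem rho_zero (u : Y → Fin (n + 1) → ℝ) (b : Fin n → Y) (k : Fin (n + 1)) :
    rho u b k 0 = k := (exists_mn u b k).choose_spec.1

theorem rho_spec (u : Y → Fin (n + 1) → ℝ) (b : Fin n → Y) (k : Fin (n + 1)) :
    ∑ l : Fin n, u (b l) (rho u b k l.succ) = mn u b k := (exists_mn u b k).choose_spec.2

open Classical in
/-- an assignment of all points -/
noncomputable def asg (u : Y → Fin (n + 1) → ℝ) (b : Fin n → Y) (k : Fin (n + 1)) (y : Y) :
    Fin (n + 1) :=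
  if h : ∃ i, b i = y then rho u b k (h.choose).succ else kap u b y

theorem asg_mem (u : Y → Fin (n + 1) → ℝ) (b : Fin n → Y) (hb : Function.Injective b)
    (k : Fin (n + 1)) (i : Fin n) : asg u b k (b i) = rho u b k i.succ := by
  unfold asg
  have h : ∃ j, b j = b i := ⟨i, rfl⟩
  rw [dif_pos h]
  congr 2
  exact hb h.choose_spec

theorem asg_not (u : Y → Fin (n + 1) → ℝ) (b : Fin n → Y) (k : Fin (n + 1)) (y : Y)
    (h : y ∉ Finset.univ.image b) : asg u b k y = kap u b y := by
  unfold asg
  rw [dif_neg]
  rintro ⟨i, hi⟩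
  exact h (Finset.mem_image.2 ⟨i, Finset.mem_univ i, hi⟩)

/-- splitting a sum over all points -/
theorem sum_split {M : Type} [AddCommMonoid M] (b : Fin n → Y) (hb : Function.Injective b)
    (F : Y → M) : ∑ y, F y = ∑ y ∈ (Finset.univ.image b)ᶜ, F y + ∑ i, F (b i) := by
  classical
  rw [← Finset.sum_compl_add_sum (Finset.univ.image b)]
  congr 1
  rw [Finset.sum_image fun i _ j _ h => hb h]

/-- the cost of the points outside of `b` -/
noncomputable def cb (u : Y → Fin (n + 1) → ℝ) (b : Fin n → Y) : ℝ :=
  ∑ y ∈ (Finset.univ.image b)ᶜ, u y (kap u b y)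

theorem cost_asg (u : Y → Fin (n + 1) → ℝ) (b : Fin n → Y) (hb : Function.Injective b)
    (k : Fin (n + 1)) : ∑ y, u y (asg u b k y) = cb u b + mn u b k := by
  rw [sum_split b hb]
  congr 1
  · exact Finset.sum_congr rfl fun y hy => by rw [asg_not u b k y (Finset.mem_compl.1 hy)]
  · rw [← rho_spec u b k]
    exact Finset.sum_congr rfl fun i _ => by rw [asg_mem u b hb]

/-- duality -/
theorem dual_asg (u : Y → Fin (n + 1) → ℝ) (b : Fin n → Y) (hb : Function.Injective b)
    (k : Fin (n + 1)) (f : Y → Fin (n + 1)) (hf : prf f = prf (asg u b k)) :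
    cb u b + mn u b k ≤ ∑ y, u y (f y) := by
  classical
  have h1 : ∑ y, (td u (Fin.cons y b : Fin (n + 1) → Y) - mn u b (f y)) ≤ ∑ y, u y (f y) :=
    Finset.sum_le_sum fun y _ => by
      have := td_cons_le u b y (f y)
      linarith
  refine le_trans ?_ h1
  rw [Finset.sum_sub_distrib, sum_m_eq hf, ← Finset.sum_sub_distrib, sum_split b hb]
  refine add_le_add (le_of_eq ?_) ?_
  · refine Finset.sum_congr rfl fun y hy => ?_
    rw [asg_not u b k y (Finset.mem_compl.1 hy), kap_spec]
    ring
  · rw [Finset.sum_sub_distrib]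
    have h2 := sum_mn_le u b
    have h3 : ∑ k', mn u b k' = mn u b k + ∑ i : Fin n, mn u b (asg u b k (b i)) := by
      rw [← Equiv.sum_comp (rho u b k) (mn u b), Fin.sum_univ_succ, rho_zero]
      congr 1
      exact Finset.sum_congr rfl fun i _ => by rw [asg_mem u b hb]
    linarith

theorem prf_asg (u : Y → Fin (n + 1) → ℝ) (b : Fin n → Y) (hb : Function.Injective b)
    (k : Fin (n + 1)) : prf (asg u b k) + Finsupp.single k 1 =
      ∑ y ∈ (Finset.univ.image b)ᶜ, Finsupp.single (kap u b y) 1 +
        ∑ j : Fin (n + 1), Finsupp.single j 1 := by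
  classical
  unfold prf
  rw [sum_split b hb, add_assoc]
  congr 1
  · exact Finset.sum_congr rfl fun y hy => by rw [asg_not u b k y (Finset.mem_compl.1 hy)]
  · rw [← Equiv.sum_comp (rho u b k) (fun j => Finsupp.single j 1), Fin.sum_univ_succ, rho_zero,
      add_comm (∑ i : Fin n, Finsupp.single (asg u b k (b i)) (1 : ℕ))]
    congr 1
    exact Finset.sum_congr rfl fun i _ => by rw [asg_mem u b hb]

/-- uniqueness of optimal assignments of `n + 1` points -/
def Uniq (u : Y → Fin (n + 1) → ℝ) : Prop :=
  ∀ z : Fin (n + 1) → Y, Function.Injective z → ∀ π π' : Equiv.Perm (Fin (n + 1)),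
    cst u z π = td u z → cst u z π' = td u z → π = π'

theorem range_sub (u : Y → Fin (n + 1) → ℝ) (hU : Uniq u) (b b' : Fin n → Y)
    (hb : Function.Injective b) (hb' : Function.Injective b')
    (h : prf (asg u b 0) = prf (asg u b' 0)) :
    Finset.univ.image b' ⊆ Finset.univ.image b := by
  classical
  have hk : ∀ k, prf (asg u b k) = prf (asg u b' k) := by
    intro k
    have h1 := prf_asg u b hb 0
    have h2 := prf_asg u b' hb' 0
    rw [h, h2] at h1
    have h3 := prf_asg u b hb k
    have h4 := prf_asg u b' hb' k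
    rw [← h1] at h3
    exact add_right_cancel (h3.trans h4.symm)
  have hle : ∀ k, cb u b + mn u b k = cb u b' + mn u b' k := by
    intro k
    refine le_antisymm ?_ ?_
    · have := dual_asg u b hb k (asg u b' k) (hk k).symm
      rwa [cost_asg u b' hb' k] at this
    · have := dual_asg u b' hb' k (asg u b k) (hk k)
      rwa [cost_asg u b hb k] at this
  intro y hy
  by_contra hy'
  obtain ⟨i, -, rfl⟩ := Finset.mem_image.1 hy
  obtain ⟨k, k', hkk, h1, h2⟩ := ties u b' i
  have hinj : Function.Injective (Fin.cons (b' i) b : Fin (n + 1) → Y) := by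
    rw [Fin.cons_injective_iff]
    refine ⟨?_, hb⟩
    rintro ⟨j, hj⟩
    exact hy' (Finset.mem_image.2 ⟨j, Finset.mem_univ j, hj⟩)
  -- both colours are optimal
  have hopt : ∀ j, td u (Fin.cons (b' i) b' : Fin (n + 1) → Y) = u (b' i) j + mn u b' j →
      td u (Fin.cons (b' i) b : Fin (n + 1) → Y) = u (b' i) j + mn u b j := by
    intro j hj
    obtain ⟨j', hj'⟩ := exists_td_cons u b (b' i)
    refine le_antisymm (td_cons_le u b (b' i) j) ?_
    rw [hj']
    have h3 := td_cons_le u b' (b' i) j'
    have h4 := hle j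
    have h5 := hle j'
    linarith
  have hperm : ∀ j, td u (Fin.cons (b' i) b : Fin (n + 1) → Y) = u (b' i) j + mn u b j →
      cst u (Fin.cons (b' i) b : Fin (n + 1) → Y) (rho u b j) =
        td u (Fin.cons (b' i) b : Fin (n + 1) → Y) := by
    intro j hj
    rw [cst_cons, rho_zero, rho_spec, hj]
  have h3 := hU _ hinj _ _ (hperm k (hopt k h1)) (hperm k' (hopt k' h2))
  apply hkk
  rw [← rho_zero u b k, h3, rho_zero]

theorem range_eq (u : Y → Fin (n + 1) → ℝ) (hU : Uniq u) (b b' : Fin n → Y)
    (hb : Function.Injective b) (hb' : Function.Injective b')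
    (h : prf (asg u b 0) = prf (asg u b' 0)) :
    Finset.univ.image b = Finset.univ.image b' :=
  Finset.Subset.antisymm (range_sub u hU b' b hb' hb h.symm) (range_sub u hU b b' hb hb' h)

theorem card_same (u : Y → Fin (n + 1) → ℝ) (hU : Uniq u) (a : Fin (n + 1) →₀ ℕ) :
    (Finset.univ.filter fun b : Fin n → Y => Function.Injective b ∧
      prf (asg u b 0) = a).card ≤ n.factorial := by
  classical
  rcases Finset.eq_empty_or_nonempty (Finset.univ.filter fun b : Fin n → Y =>
    Function.Injective b ∧ prf (asg u b 0) = a) with h | ⟨b0, hb0⟩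
  · rw [h]
    exact Nat.zero_le _
  · obtain ⟨-, hb0, ha0⟩ := Finset.mem_filter.1 hb0
    set R := Finset.univ.image b0 with hR
    have hRc : R.card = n := by
      rw [hR, Finset.card_image_of_injective _ hb0, Finset.card_univ, Fintype.card_fin]
    have h1 : ∀ b ∈ (Finset.univ.filter fun b : Fin n → Y => Function.Injective b ∧
        prf (asg u b 0) = a), ∀ i, b i ∈ R := by
      intro b hb i
      obtain ⟨-, hb1, hb2⟩ := Finset.mem_filter.1 hb
      rw [hR, ← range_eq u hU b b0 hb1 hb0 (hb2.trans ha0.symm)]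
      exact Finset.mem_image_of_mem _ (Finset.mem_univ i)
    have h2 : (Finset.univ.filter fun b : Fin n → Y => Function.Injective b ∧
        prf (asg u b 0) = a).card ≤ (Finset.univ : Finset (Fin n ↪ R)).card := by
      refine Finset.card_le_card_of_injOn (fun b => if h : (Function.Injective b ∧ ∀ i, b i ∈ R)
        then ⟨fun i => ⟨b i, h.2 i⟩, fun i j hij => h.1 (Subtype.ext_iff.1 hij)⟩
        else ⟨fun i => ⟨b0 i, Finset.mem_image_of_mem _ (Finset.mem_univ i)⟩,
          fun i j hij => hb0 (Subtype.ext_iff.1 hij)⟩) (fun b _ => Finset.mem_univ _) ?_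
      intro b hb b' hb' hbb
      have hc : Function.Injective b ∧ ∀ i, b i ∈ R :=
        ⟨(Finset.mem_filter.1 hb).2.1, h1 b hb⟩
      have hc' : Function.Injective b' ∧ ∀ i, b' i ∈ R :=
        ⟨(Finset.mem_filter.1 hb').2.1, h1 b' hb'⟩
      simp only [dif_pos hc, dif_pos hc'] at hbb
      funext i
      have := congrArg (fun e : Fin n ↪ R => (e i : Y)) hbb
      exact this
    refine h2.trans (le_of_eq ?_)
    rw [Finset.card_univ, Fintype.card_embedding_eq, Fintype.card_fin, Fintype.card_coe, hRc,
      Nat.descFactorial_self]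

/-- the sum of the tropical determinants of all `n + 1` points, generic costs -/
theorem sum_td_le_gen (u : Y → Fin (n + 1) → ℝ) (hu : ∀ y k, 0 ≤ u y k) (hU : Uniq u)
    (f : (Fin (n + 1) →₀ ℕ) → Y → Fin (n + 1))
    (hf : ∀ a ∈ Finset.finsuppAntidiag Finset.univ (Fintype.card Y), prf (f a) = a) :
    ∑ z ∈ Finset.univ.filter (fun z : Fin (n + 1) → Y => Function.Injective z), td u z ≤
      ((n + 1).factorial : ℝ) * ∑ a ∈ Finset.finsuppAntidiag Finset.univ (Fintype.card Y),
        ∑ y, u y (f a y) := by
  classical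
  choose π hπ using exists_td u
  -- the optimal colour of one point
  have hkap : ∀ (b : Fin n → Y) (y : Y), Function.Injective (Fin.cons y b : Fin (n + 1) → Y) →
      kap u b y = π (Fin.cons y b : Fin (n + 1) → Y) 0 := by
    intro b y hinj
    have h1 : cst u (Fin.cons y b : Fin (n + 1) → Y) (rho u b (kap u b y)) =
        td u (Fin.cons y b : Fin (n + 1) → Y) := by
      rw [cst_cons, rho_zero, rho_spec, ← kap_spec]
    have h2 := hU _ hinj _ _ h1 (hπ _)
    rw [← h2, rho_zero]
  -- symmetry
  have hsym : ∀ l : Fin (n + 1),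
      ∑ z ∈ Finset.univ.filter (fun z : Fin (n + 1) → Y => Function.Injective z),
        u (z l) (π z l) =
      ∑ z ∈ Finset.univ.filter (fun z : Fin (n + 1) → Y => Function.Injective z),
        u (z 0) (π z 0) := by
    intro l
    set s := Equiv.swap (0 : Fin (n + 1)) l with hs
    have hcs : ∀ (z : Fin (n + 1) → Y) (ρ : Equiv.Perm (Fin (n + 1))),
        cst u (z ∘ s) (s.trans ρ) = cst u z ρ := by
      intro z ρ
      unfold cst
      exact Equiv.sum_comp s (fun l => u (z l) (ρ l))
    have htd : ∀ z : Fin (n + 1) → Y, td u (z ∘ s) = td u z := by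
      intro z
      refine le_antisymm ?_ ?_
      · refine le_td u z _ fun ρ => ?_
        rw [← hcs z ρ]
        exact td_le u _ _
      · refine le_td u _ _ fun ρ => ?_
        have h1 := hcs z (s.symm.trans ρ)
        rw [← Equiv.trans_assoc, Equiv.self_trans_symm, Equiv.refl_trans] at h1
        rw [h1]
        exact td_le u _ _
    refine Finset.sum_bij' (fun z _ => z ∘ s) (fun z _ => z ∘ s) ?_ ?_ ?_ ?_ ?_
    · intro z hz
      exact Finset.mem_filter.2 ⟨Finset.mem_univ _, (Finset.mem_filter.1 hz).2.comp s.injective⟩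
    · intro z hz
      exact Finset.mem_filter.2 ⟨Finset.mem_univ _, (Finset.mem_filter.1 hz).2.comp s.injective⟩
    · intro z _
      funext i
      simp [hs]
    · intro z _
      funext i
      simp [hs]
    · intro z hz
      have hinj := (Finset.mem_filter.1 hz).2
      have h1 : π (z ∘ s) = s.trans (π z) := by
        refine hU _ (hinj.comp s.injective) _ _ (hπ _) ?_
        rw [hcs, htd, hπ]
      rw [h1]
      simp [hs]
  have hsum1 : ((n : ℝ) + 1) *
      ∑ z ∈ Finset.univ.filter (fun z : Fin (n + 1) → Y => Function.Injective z),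
        u (z 0) (π z 0) =
      ∑ z ∈ Finset.univ.filter (fun z : Fin (n + 1) → Y => Function.Injective z), td u z := by
    have h1 : ∀ z, td u z = ∑ l, u (z l) (π z l) := fun z => (hπ z).symm
    simp only [h1]
    rw [Finset.sum_comm]
    simp only [hsym]
    rw [Finset.sum_const, Finset.card_univ, Fintype.card_fin, nsmul_eq_mul]
    push_cast
    ring
  -- the sum over `b`
  have hsum2 : ∑ z ∈ Finset.univ.filter (fun z : Fin (n + 1) → Y => Function.Injective z),
        u (z 0) (π z 0) =
      ∑ b ∈ Finset.univ.filter (fun b : Fin n → Y => Function.Injective b), cb u b := by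
    rw [Finset.sum_filter, Finset.sum_filter]
    rw [← Equiv.sum_comp (Fin.consEquiv (fun _ : Fin (n + 1) => Y))
      (fun z => if Function.Injective z then u (z 0) (π z 0) else 0), Fintype.sum_prod_type,
      Finset.sum_comm]
    refine Finset.sum_congr rfl fun b _ => ?_
    by_cases hb : Function.Injective b
    · rw [if_pos hb]
      unfold cb
      rw [← Finset.sum_compl_add_sum (Finset.univ.image b)]
      have h1 : ∑ y ∈ Finset.univ.image b, (if Function.Injective
          ((Fin.consEquiv (fun _ : Fin (n + 1) => Y)) (y, b)) then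
          u ((Fin.consEquiv (fun _ : Fin (n + 1) => Y)) (y, b) 0)
            (π ((Fin.consEquiv (fun _ : Fin (n + 1) => Y)) (y, b)) 0) else 0) = 0 := by
        refine Finset.sum_eq_zero fun y hy => ?_
        rw [if_neg]
        intro hinj
        have h2 : Function.Injective (Fin.cons y b : Fin (n + 1) → Y) := hinj
        rw [Fin.cons_injective_iff] at h2
        obtain ⟨i, -, hi⟩ := Finset.mem_image.1 hy
        exact h2.1 ⟨i, hi⟩
      rw [h1, add_zero]
      refine Finset.sum_congr rfl fun y hy => ?_
      have h2 : Function.Injective (Fin.cons y b : Fin (n + 1) → Y) := by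
        rw [Fin.cons_injective_iff]
        refine ⟨?_, hb⟩
        rintro ⟨i, hi⟩
        exact (Finset.mem_compl.1 hy) (Finset.mem_image.2 ⟨i, Finset.mem_univ i, hi⟩)
      have h3 : Function.Injective ((Fin.consEquiv (fun _ : Fin (n + 1) => Y)) (y, b)) := h2
      rw [if_pos h3, hkap b y h2]
      rfl
    · rw [if_neg hb]
      refine Finset.sum_eq_zero fun y _ => ?_
      rw [if_neg]
      intro hinj
      have h2 : Function.Injective (Fin.cons y b : Fin (n + 1) → Y) := hinj
      rw [Fin.cons_injective_iff] at h2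
      exact hb h2.2
  -- the comparison
  set A := Finset.finsuppAntidiag (Finset.univ : Finset (Fin (n + 1))) (Fintype.card Y) with hA
  have hmem : ∀ b : Fin n → Y, prf (asg u b 0) ∈ A := by
    intro b
    rw [hA, Finset.mem_finsuppAntidiag]
    refine ⟨?_, Finset.subset_univ _⟩
    unfold prf
    simp only [Finsupp.finsetSum_apply]
    rw [Finset.sum_comm]
    simp [Finsupp.single_apply]
  have hF0 : ∀ a, 0 ≤ ∑ y, u y (f a y) := fun a => Finset.sum_nonneg fun y _ => hu y _
  have hmn0 : ∀ (b : Fin n → Y) k, 0 ≤ mn u b k := by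
    intro b k
    rw [← rho_spec]
    exact Finset.sum_nonneg fun l _ => hu _ _
  have hcomp : ∑ b ∈ Finset.univ.filter (fun b : Fin n → Y => Function.Injective b), cb u b ≤
      (n.factorial : ℝ) * ∑ a ∈ A, ∑ y, u y (f a y) := by
    have h1 : ∑ b ∈ Finset.univ.filter (fun b : Fin n → Y => Function.Injective b), cb u b ≤
        ∑ b ∈ Finset.univ.filter (fun b : Fin n → Y => Function.Injective b),
          ∑ y, u y (f (prf (asg u b 0)) y) := by
      refine Finset.sum_le_sum fun b hb => ?_
      have hb' := (Finset.mem_filter.1 hb).2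
      have h2 := dual_asg u b hb' 0 (f (prf (asg u b 0))) (hf _ (hmem b))
      have h3 := hmn0 b 0
      linarith
    refine h1.trans ?_
    rw [← Finset.sum_fiberwise_of_maps_to (t := A) (g := fun b : Fin n → Y => prf (asg u b 0))
      (fun b _ => hmem b), Finset.mul_sum]
    refine Finset.sum_le_sum fun a _ => ?_
    have h2 : ∑ b ∈ (Finset.univ.filter (fun b : Fin n → Y => Function.Injective b)).filter
        (fun b => prf (asg u b 0) = a), ∑ y, u y (f (prf (asg u b 0)) y) =
        ∑ b ∈ (Finset.univ.filter (fun b : Fin n → Y => Function.Injective b)).filter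
        (fun b => prf (asg u b 0) = a), ∑ y, u y (f a y) := by
      refine Finset.sum_congr rfl fun b hb => ?_
      rw [(Finset.mem_filter.1 hb).2]
    rw [h2, Finset.sum_const, nsmul_eq_mul]
    refine mul_le_mul_of_nonneg_right ?_ (hF0 a)
    have h3 := card_same u hU a
    rw [Finset.filter_filter]
    exact_mod_cast h3
  rw [← hsum1, hsum2]
  have h1 : ((n + 1).factorial : ℝ) = ((n : ℝ) + 1) * n.factorial := by
    rw [Nat.factorial_succ]
    push_cast
    ring
  rw [h1, mul_assoc]
  exact mul_le_mul_of_nonneg_left hcomp (by positivity)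

end Pool.Agent.T9h24
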