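import Mathlib
import Pool.Agent.T9h24.Cmc

/-!
The sum of the costs of assignments with all possible profiles: arbitrary costs.
-/

set_option autoImplicit false
set_option linter.unusedSectionVars false

open Finset

namespace Pool.Agent.T9h24

variable {Y : Type} [Fintype Y] [DecidableEq Y] {n : ℕ}

theorem exists_generic (Y : Type) [Fintype Y] [DecidableEq Y] (n : ℕ) :
    ∃ w : Y → Fin (n + 1) → ℝ, (∀ y k, 0 ≤ w y k) ∧
      ∀ z : Fin (n + 1) → Y, Function.Injective z → ∀ π π' : Equiv.Perm (Fin (n + 1)),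
        cst w z π = cst w z π' → π = π' := by
  classical
  set e := Fintype.equivFin (Y × Fin (n + 1)) with he
  refine ⟨fun y k => (2 : ℝ) ^ ((e (y, k) : ℕ)), fun y k => by positivity,
    fun z hz π π' h => ?_⟩
  unfold cst at h
  have h1 : ∀ ρ : Equiv.Perm (Fin (n + 1)), ∑ l, (2 : ℝ) ^ ((e (z l, ρ l) : ℕ)) =
      ((∑ i ∈ Finset.univ.image (fun l => (e (z l, ρ l) : ℕ)), 2 ^ i : ℕ) : ℝ) := by
    intro ρ
    rw [Finset.sum_image]
    · push_cast
      rfl
    · intro l _ l' _ hl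
      have h2 := e.injective (Fin.ext hl)
      exact hz (Prod.ext_iff.1 h2).1
  rw [h1, h1] at h
  have h2 : (∑ i ∈ Finset.univ.image (fun l => (e (z l, π l) : ℕ)), 2 ^ i : ℕ) =
      ∑ i ∈ Finset.univ.image (fun l => (e (z l, π' l) : ℕ)), 2 ^ i := by exact_mod_cast h
  have h3 := Finset.geomSum_injective (le_refl 2) h2
  ext1 l
  have h4 : ((e (z l, π l) : ℕ)) ∈ Finset.univ.image (fun l => (e (z l, π' l) : ℕ)) := by
    rw [← h3]
    exact Finset.mem_image_of_mem _ (Finset.mem_univ l)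
  obtain ⟨l', -, hl'⟩ := Finset.mem_image.1 h4
  have h5 := e.injective (Fin.ext hl')
  have h6 := hz (Prod.ext_iff.1 h5).1
  rw [h6] at h5
  exact (Prod.ext_iff.1 h5).2.symm

/-- the sum of the tropical determinants of all `n + 1` points -/
theorem sum_td_le (u : Y → Fin (n + 1) → ℝ) (hu : ∀ y k, 0 ≤ u y k)
    (f : (Fin (n + 1) →₀ ℕ) → Y → Fin (n + 1))
    (hf : ∀ a ∈ Finset.finsuppAntidiag Finset.univ (Fintype.card Y), prf (f a) = a) :
    ∑ z ∈ Finset.univ.filter (fun z : Fin (n + 1) → Y => Function.Injective z), td u z ≤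
      ((n + 1).factorial : ℝ) * ∑ a ∈ Finset.finsuppAntidiag Finset.univ (Fintype.card Y),
        ∑ y, u y (f a y) := by
  classical
  obtain ⟨w, hw, hwU⟩ := exists_generic Y n
  set bad : Set ℝ := ⋃ (z : Fin (n + 1) → Y) (π : Equiv.Perm (Fin (n + 1)))
    (π' : Equiv.Perm (Fin (n + 1))), {δ : ℝ | cst w z π ≠ cst w z π' ∧
      (cst u z π - cst u z π') + δ * (cst w z π - cst w z π') = 0} with hbad
  have hbadf : bad.Finite := by
    refine Set.finite_iUnion fun z => Set.finite_iUnion fun π => Set.finite_iUnion fun π' => ?_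
    by_cases h : cst w z π = cst w z π'
    · refine Set.finite_empty.subset ?_
      rintro δ ⟨h1, -⟩
      exact absurd h h1
    · refine (Set.finite_singleton (-(cst u z π - cst u z π') /
        (cst w z π - cst w z π'))).subset ?_
      rintro δ ⟨-, h2⟩
      rw [Set.mem_singleton_iff, eq_div_iff (sub_ne_zero.2 h)]
      linarith
  set A := Finset.finsuppAntidiag (Finset.univ : Finset (Fin (n + 1))) (Fintype.card Y) with hA
  set Cw : ℝ := ((n + 1).factorial : ℝ) * ∑ a ∈ A, ∑ y, w y (f a y) with hCw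
  have hCw0 : 0 ≤ Cw := mul_nonneg (by positivity)
    (Finset.sum_nonneg fun a _ => Finset.sum_nonneg fun y _ => hw y _)
  refine le_of_forall_pos_le_add fun e he => ?_
  have hη : 0 < e / (Cw + 1) := by positivity
  obtain ⟨δ, hδ, hδb⟩ : ∃ δ ∈ Set.Ioo 0 (e / (Cw + 1)), δ ∉ bad := by
    obtain ⟨δ, h1, h2⟩ := ((Set.Ioo_infinite hη).diff hbadf).nonempty
    exact ⟨δ, h1, h2⟩
  have hδ0 : 0 < δ := hδ.1
  set u' : Y → Fin (n + 1) → ℝ := fun y k => u y k + δ * w y k with hu'
  have hcst : ∀ z π, cst u' z π = cst u z π + δ * cst w z π := by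
    intro z π
    unfold cst
    rw [Finset.mul_sum, ← Finset.sum_add_distrib]
  have hU : Uniq u' := by
    intro z hz π π' h1 h2
    by_contra hne
    have h3 : cst w z π ≠ cst w z π' := fun h => hne (hwU z hz π π' h)
    apply hδb
    simp only [hbad, Set.mem_iUnion]
    refine ⟨z, π, π', h3, ?_⟩
    rw [← h2, hcst, hcst] at h1
    linarith
  have hu'0 : ∀ y k, 0 ≤ u' y k := fun y k =>
    add_nonneg (hu y k) (mul_nonneg hδ0.le (hw y k))
  have h1 := sum_td_le_gen u' hu'0 hU f hf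
  have h2 : ∑ z ∈ Finset.univ.filter (fun z : Fin (n + 1) → Y => Function.Injective z), td u z ≤
      ∑ z ∈ Finset.univ.filter (fun z : Fin (n + 1) → Y => Function.Injective z), td u' z := by
    refine Finset.sum_le_sum fun z _ => le_td u' z _ fun π => ?_
    rw [hcst]
    have h3 := td_le u z π
    have h4 : 0 ≤ δ * cst w z π := mul_nonneg hδ0.le (Finset.sum_nonneg fun l _ => hw _ _)
    linarith
  refine h2.trans (h1.trans ?_)
  rw [← hA]
  have h3 : ((n + 1).factorial : ℝ) * ∑ a ∈ A, ∑ y, u' y (f a y) =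
      ((n + 1).factorial : ℝ) * ∑ a ∈ A, ∑ y, u y (f a y) + δ * Cw := by
    have h4 : ∑ a ∈ A, ∑ y, u' y (f a y) = ∑ a ∈ A, ∑ y, u y (f a y) +
        δ * ∑ a ∈ A, ∑ y, w y (f a y) := by
      simp only [hu', Finset.sum_add_distrib, Finset.mul_sum]
    rw [h4, hCw]
    ring
  rw [h3]
  have h4 : δ * Cw ≤ e := by
    have h5 : δ < e / (Cw + 1) := hδ.2
    rw [lt_div_iff₀ (by linarith)] at h5
    nlinarith
  linarith

end Pool.Agent.T9h24
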