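import Mathlib
import Pool.Agent.T9h24.Cmd

/-!
Polynomials dominated by products of linear forms.
-/

set_option autoImplicit false
set_option linter.unusedSectionVars false

open Finset MvPolynomial

namespace Pool.Agent.T9h24

section dm

variable {F : Type} [NormedField F] {σ : Type}

/-- the coefficients of `P` are bounded by those of `W` -/
def Dm (P : MvPolynomial σ F) (W : MvPolynomial σ ℝ) : Prop := ∀ a, ‖P.coeff a‖ ≤ W.coeff a

theorem Dm.nonneg {P : MvPolynomial σ F} {W : MvPolynomial σ ℝ} (h : Dm P W) (a : σ →₀ ℕ) :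
    0 ≤ W.coeff a := (norm_nonneg _).trans (h a)

theorem Dm.mul {P Q : MvPolynomial σ F} {W V : MvPolynomial σ ℝ} (h : Dm P W) (h' : Dm Q V) :
    Dm (P * Q) (W * V) := by
  classical
  intro a
  rw [coeff_mul, coeff_mul]
  refine (norm_sum_le _ _).trans (Finset.sum_le_sum fun x _ => ?_)
  rw [norm_mul]
  exact mul_le_mul (h _) (h' _) (norm_nonneg _) (h.nonneg _)

theorem Dm.one : Dm (1 : MvPolynomial σ F) 1 := by
  classical
  intro a
  rw [coeff_one, coeff_one]
  split_ifs <;> simp

theorem Dm.prod {α : Type} (s : Finset α) (P : α → MvPolynomial σ F) (W : α → MvPolynomial σ ℝ)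
    (h : ∀ i ∈ s, Dm (P i) (W i)) : Dm (∏ i ∈ s, P i) (∏ i ∈ s, W i) := by
  classical
  induction s using Finset.induction_on with
  | empty => exact Dm.one
  | insert a s ha ih =>
    rw [Finset.prod_insert ha, Finset.prod_insert ha]
    exact (h a (Finset.mem_insert_self _ _)).mul
      (ih fun i hi => h i (Finset.mem_insert_of_mem hi))

theorem Dm.pow {P : MvPolynomial σ F} {W : MvPolynomial σ ℝ} (h : Dm P W) (n : ℕ) :
    Dm (P ^ n) (W ^ n) := by
  induction n with
  | zero => rw [pow_zero, pow_zero]; exact Dm.one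
  | succ n ih => rw [pow_succ, pow_succ]; exact ih.mul h

theorem Dm.C {c : F} {b : ℝ} (h : ‖c‖ ≤ b) : Dm (MvPolynomial.C c : MvPolynomial σ F)
    (MvPolynomial.C b) := by
  classical
  intro a
  rw [coeff_C, coeff_C]
  split_ifs
  · exact h
  · simp

theorem Dm.sum {α : Type} (s : Finset α) (P : α → MvPolynomial σ F) (W : α → MvPolynomial σ ℝ)
    (h : ∀ i ∈ s, Dm (P i) (W i)) : Dm (∑ i ∈ s, P i) (∑ i ∈ s, W i) := by
  intro a
  rw [coeff_sum, coeff_sum]
  exact (norm_sum_le _ _).trans (Finset.sum_le_sum fun i hi => h i hi a)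

theorem Dm.X (k : σ) : Dm (MvPolynomial.X k : MvPolynomial σ F) (MvPolynomial.X k) := by
  classical
  intro a
  rw [coeff_X, coeff_X]
  split_ifs <;> simp

/-- a linear form -/
theorem Dm.lin [Fintype σ] (c : σ → F) (b : σ → ℝ) (h : ∀ k, ‖c k‖ ≤ b k) :
    Dm (∑ k, MvPolynomial.C (c k) * MvPolynomial.X k)
      (∑ k, MvPolynomial.C (b k) * MvPolynomial.X k) :=
  Dm.sum _ _ _ fun k _ => (Dm.C (h k)).mul (Dm.X k)

theorem Dm.trans {P : MvPolynomial σ F} {W V : MvPolynomial σ ℝ} (h : Dm P W) (h' : Dm W V) :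
    Dm P V := by
  intro a
  refine (h a).trans ?_
  have := h' a
  rw [Real.norm_of_nonneg (h.nonneg a)] at this
  exact this

/-- a determinant of coefficients -/
theorem det_dm {κ : Type} [Fintype κ] [DecidableEq κ] (a : κ → (σ →₀ ℕ))
    (P : κ → MvPolynomial σ F) (W : MvPolynomial σ ℝ) (B : ℝ)
    (h : ∀ ρ, Dm (P ρ) (MvPolynomial.C B * W)) :
    ‖(Matrix.of fun ρ i => (P ρ).coeff (a i)).det‖ ≤
      (Fintype.card κ).factorial * B ^ (Fintype.card κ) * ∏ i, W.coeff (a i) := by
  classical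
  rw [Matrix.det_apply]
  have hterm : ∀ π : Equiv.Perm κ,
      ‖Equiv.Perm.sign π • ∏ i, (Matrix.of fun ρ i => (P ρ).coeff (a i)) (π i) i‖ ≤
      B ^ (Fintype.card κ) * ∏ i, W.coeff (a i) := by
    intro π
    have hsg : ‖Equiv.Perm.sign π • ∏ i, (Matrix.of fun ρ i => (P ρ).coeff (a i)) (π i) i‖ =
        ∏ i, ‖(P (π i)).coeff (a i)‖ := by
      rw [← norm_prod]
      rcases Int.units_eq_one_or (Equiv.Perm.sign π) with h | h
      · rw [h, one_smul]
        rfl
      · rw [h, Units.neg_smul, one_smul, norm_neg]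
        rfl
    rw [hsg]
    have h1 : ∏ i, ‖(P (π i)).coeff (a i)‖ ≤ ∏ i, (B * W.coeff (a i)) := by
      refine Finset.prod_le_prod (fun i _ => norm_nonneg _) fun i _ => ?_
      have := h (π i) (a i)
      rwa [coeff_C_mul] at this
    refine h1.trans (le_of_eq ?_)
    rw [Finset.prod_mul_distrib, Finset.prod_const, Finset.card_univ]
  refine (norm_sum_le _ _).trans ((Finset.sum_le_sum fun π _ => hterm π).trans (le_of_eq ?_))
  rw [Finset.sum_const, Finset.card_univ, Fintype.card_perm, nsmul_eq_mul, mul_assoc]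

end dm

section lin

variable {Y : Type} [Fintype Y] [DecidableEq Y] {n : ℕ}

/-- the product of linear forms attached to costs -/
noncomputable def pw (u : Y → Fin (n + 1) → ℝ) : MvPolynomial (Fin (n + 1)) ℝ :=
  ∏ y, ∑ k, MvPolynomial.C (Real.exp (-(u y k))) * MvPolynomial.X k

theorem prod_mono (u : Y → Fin (n + 1) → ℝ) (f : Y → Fin (n + 1)) :
    ∏ y, (MvPolynomial.C (Real.exp (-(u y (f y)))) * MvPolynomial.X (f y) :
      MvPolynomial (Fin (n + 1)) ℝ) =
      MvPolynomial.monomial (prf f) (Real.exp (-∑ y, u y (f y))) := by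
  classical
  rw [Finset.prod_mul_distrib, ← map_prod, ← Real.exp_sum, Finset.sum_neg_distrib]
  have h1 : ∏ y, (MvPolynomial.X (f y) : MvPolynomial (Fin (n + 1)) ℝ) =
      MvPolynomial.monomial (prf f) 1 := by
    unfold prf
    rw [MvPolynomial.monomial_sum_one]
    rfl
  rw [h1, MvPolynomial.C_mul_monomial, mul_one]

theorem coeff_pw (u : Y → Fin (n + 1) → ℝ) (a : Fin (n + 1) →₀ ℕ) :
    (pw u).coeff a = ∑ f ∈ Finset.univ.filter (fun f : Y → Fin (n + 1) => prf f = a),
      Real.exp (-∑ y, u y (f y)) := by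
  classical
  unfold pw
  rw [Finset.prod_univ_sum, Fintype.piFinset_univ, coeff_sum, Finset.sum_filter]
  refine Finset.sum_congr rfl fun f _ => ?_
  rw [prod_mono, coeff_monomial]

theorem exists_prf (a : Fin (n + 1) →₀ ℕ)
    (ha : a ∈ Finset.finsuppAntidiag Finset.univ (Fintype.card Y)) :
    ∃ f : Y → Fin (n + 1), prf f = a := by
  classical
  rw [Finset.mem_finsuppAntidiag] at ha
  have hcard : Fintype.card Y = Fintype.card (Σ k : Fin (n + 1), Fin (a k)) := by
    rw [Fintype.card_sigma]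
    simp only [Fintype.card_fin]
    exact ha.1.symm
  set e := Fintype.equivOfCardEq hcard with he
  refine ⟨fun y => (e y).1, ?_⟩
  ext k
  unfold prf
  rw [Finsupp.finsetSum_apply]
  simp only [Finsupp.single_apply]
  rw [Equiv.sum_comp e (fun p => if p.1 = k then 1 else 0), Fintype.sum_sigma]
  have h1 : ∀ x : Fin (n + 1), ∑ _y : Fin (a x), (if x = k then 1 else 0) =
      if x = k then a k else 0 := by
    intro x
    rw [Finset.sum_const, Finset.card_univ, Fintype.card_fin, smul_eq_mul]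
    split_ifs with h
    · rw [h, mul_one]
    · rw [mul_zero]
  simp only [h1]
  simp

theorem exists_opt (u : Y → Fin (n + 1) → ℝ) :
    ∃ f : (Fin (n + 1) →₀ ℕ) → Y → Fin (n + 1),
      ∀ a ∈ Finset.finsuppAntidiag Finset.univ (Fintype.card Y), prf (f a) = a ∧
        (pw u).coeff a ≤ ((n : ℝ) + 1) ^ (Fintype.card Y) * Real.exp (-∑ y, u y (f a y)) := by
  classical
  have h : ∀ a : Fin (n + 1) →₀ ℕ, ∃ f : Y → Fin (n + 1),
      a ∈ Finset.finsuppAntidiag Finset.univ (Fintype.card Y) → prf f = a ∧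
        (pw u).coeff a ≤ ((n : ℝ) + 1) ^ (Fintype.card Y) * Real.exp (-∑ y, u y (f y)) := by
    intro a
    by_cases ha : a ∈ Finset.finsuppAntidiag Finset.univ (Fintype.card Y)
    · obtain ⟨f0, hf0⟩ := exists_prf a ha
      obtain ⟨f, hf, hmin⟩ := Finset.exists_min_image
        (Finset.univ.filter (fun f : Y → Fin (n + 1) => prf f = a)) (fun f => ∑ y, u y (f y))
        ⟨f0, Finset.mem_filter.2 ⟨Finset.mem_univ _, hf0⟩⟩
      refine ⟨f, fun _ => ⟨(Finset.mem_filter.1 hf).2, ?_⟩⟩
      rw [coeff_pw]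
      have h1 : ∑ g ∈ Finset.univ.filter (fun f : Y → Fin (n + 1) => prf f = a),
          Real.exp (-∑ y, u y (g y)) ≤
          ∑ g ∈ Finset.univ.filter (fun f : Y → Fin (n + 1) => prf f = a),
          Real.exp (-∑ y, u y (f y)) := by
        refine Finset.sum_le_sum fun g hg => Real.exp_le_exp.2 ?_
        have := hmin g hg
        linarith
      refine h1.trans ?_
      rw [Finset.sum_const, nsmul_eq_mul]
      refine mul_le_mul_of_nonneg_right ?_ (Real.exp_pos _).le
      have h2 := Finset.card_le_univ (Finset.univ.filter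
        (fun f : Y → Fin (n + 1) => prf f = a))
      rw [Fintype.card_fun, Fintype.card_fin] at h2
      exact_mod_cast h2
    · exact ⟨fun _ => 0, fun h => absurd h ha⟩
  choose f hf using h
  exact ⟨f, hf⟩

/-- the product of the coefficients of a product of linear forms -/
theorem prod_coeff_le (u : Y → Fin (n + 1) → ℝ) (hu : ∀ y k, 0 ≤ u y k) :
    ∏ a ∈ Finset.finsuppAntidiag Finset.univ (Fintype.card Y), (pw u).coeff a ≤
      (((n : ℝ) + 1) ^ (Fintype.card Y)) ^
        (Finset.finsuppAntidiag (Finset.univ : Finset (Fin (n + 1))) (Fintype.card Y)).card *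
      Real.exp (-((∑ z ∈ Finset.univ.filter (fun z : Fin (n + 1) → Y => Function.Injective z),
        td u z) / ((n + 1).factorial : ℝ))) := by
  classical
  obtain ⟨f, hf⟩ := exists_opt u
  have h1 := sum_td_le u hu f fun a ha => (hf a ha).1
  have h2 : ∏ a ∈ Finset.finsuppAntidiag Finset.univ (Fintype.card Y), (pw u).coeff a ≤
      ∏ a ∈ Finset.finsuppAntidiag Finset.univ (Fintype.card Y),
        (((n : ℝ) + 1) ^ (Fintype.card Y) * Real.exp (-∑ y, u y (f a y))) := by
    refine Finset.prod_le_prod (fun a _ => ?_) fun a ha => (hf a ha).2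
    rw [coeff_pw]
    exact Finset.sum_nonneg fun g _ => (Real.exp_pos _).le
  refine h2.trans ?_
  rw [Finset.prod_mul_distrib, Finset.prod_const, ← Real.exp_sum, Finset.sum_neg_distrib]
  refine mul_le_mul_of_nonneg_left (Real.exp_le_exp.2 ?_) (by positivity)
  have h3 : (0 : ℝ) < (n + 1).factorial := by exact_mod_cast Nat.factorial_pos _
  rw [neg_le_neg_iff, div_le_iff₀ h3, mul_comm]
  exact h1

end lin

section copies

variable {H : Type} [Fintype H] [DecidableEq H] {n : ℕ}

/-- copies of the points and trivial points -/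
def cp (u : H → Fin (n + 1) → ℝ) (j m : ℕ) : ((Fin j × H) ⊕ Fin m) → Fin (n + 1) → ℝ :=
  Sum.elim (fun p => u p.2) (fun _ _ => 0)

theorem pw_cp (u : H → Fin (n + 1) → ℝ) (j m : ℕ) :
    pw (cp u j m) = pw u ^ j * (∑ k : Fin (n + 1), MvPolynomial.X k) ^ m := by
  classical
  unfold pw
  rw [Fintype.prod_sum_type]
  congr 1
  · rw [Fintype.prod_prod_type]
    simp only [cp, Sum.elim_inl]
    rw [Finset.prod_const, Finset.card_univ, Fintype.card_fin]
  · simp only [cp, Sum.elim_inr, neg_zero, Real.exp_zero, map_one, one_mul]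
    rw [Finset.prod_const, Finset.card_univ, Fintype.card_fin]

theorem td_nonneg {Y : Type} [Fintype Y] [DecidableEq Y] (u : Y → Fin (n + 1) → ℝ)
    (hu : ∀ y k, 0 ≤ u y k) (z : Fin (n + 1) → Y) : 0 ≤ td u z :=
  le_td u z 0 fun _ => Finset.sum_nonneg fun _ _ => hu _ _

theorem sum_td_cp (u : H → Fin (n + 1) → ℝ) (hu : ∀ y k, 0 ≤ u y k) (j m : ℕ) :
    (j.descFactorial (n + 1) : ℝ) * ∑ σ : Fin (n + 1) → H, td u σ ≤
      ∑ z ∈ Finset.univ.filter (fun z : Fin (n + 1) → ((Fin j × H) ⊕ Fin m) =>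
        Function.Injective z), td (cp u j m) z := by
  classical
  have hcp : ∀ y k, 0 ≤ cp u j m y k := by
    rintro (p | i) k
    · exact hu _ _
    · exact le_rfl
  set φ : (Fin (n + 1) ↪ Fin j) × (Fin (n + 1) → H) → Fin (n + 1) → ((Fin j × H) ⊕ Fin m) :=
    fun p l => Sum.inl (p.1 l, p.2 l) with hφ
  have hφi : Function.Injective φ := by
    rintro ⟨c, σ⟩ ⟨c', σ'⟩ h
    have h1 : ∀ l, (c l, σ l) = (c' l, σ' l) := fun l => Sum.inl.inj (congrFun h l)
    refine Prod.ext ?_ ?_
    · ext l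
      exact congrArg Fin.val (Prod.ext_iff.1 (h1 l)).1
    · funext l
      exact (Prod.ext_iff.1 (h1 l)).2
  have h1 : ∑ z ∈ (Finset.univ : Finset ((Fin (n + 1) ↪ Fin j) × (Fin (n + 1) → H))).image φ,
      td (cp u j m) z ≤
      ∑ z ∈ Finset.univ.filter (fun z : Fin (n + 1) → ((Fin j × H) ⊕ Fin m) =>
        Function.Injective z), td (cp u j m) z := by
    refine Finset.sum_le_sum_of_subset_of_nonneg ?_ fun z _ _ => td_nonneg _ hcp z
    intro z hz
    obtain ⟨⟨c, σ⟩, -, rfl⟩ := Finset.mem_image.1 hz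
    refine Finset.mem_filter.2 ⟨Finset.mem_univ _, fun l l' hl => ?_⟩
    have h2 : (c l, σ l) = (c l', σ l') := Sum.inl.inj hl
    exact c.injective (Prod.ext_iff.1 h2).1
  refine le_trans (le_of_eq ?_) h1
  rw [Finset.sum_image fun p _ p' _ h => hφi h, Fintype.sum_prod_type]
  have h2 : ∀ (c : Fin (n + 1) ↪ Fin j) (σ : Fin (n + 1) → H),
      td (cp u j m) (φ (c, σ)) = td u σ := by
    intro c σ
    rfl
  simp only [h2]
  rw [Finset.sum_const, Finset.card_univ, Fintype.card_embedding_eq, Fintype.card_fin,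
    Fintype.card_fin, nsmul_eq_mul]

/-- the local estimate of a determinant -/
theorem loc_det {F : Type} [NormedField F] (u : H → Fin (n + 1) → ℝ) (hu : ∀ y k, 0 ≤ u y k)
    (j m D : ℕ) (hD : D = j * Fintype.card H + m) {κ : Type} [Fintype κ] [DecidableEq κ]
    (a : κ ≃ Finset.finsuppAntidiag (Finset.univ : Finset (Fin (n + 1))) D)
    (P : κ → MvPolynomial (Fin (n + 1)) F) (B : ℝ) (hB : 0 < B)
    (h : ∀ ρ, Dm (P ρ) (MvPolynomial.C B * (pw u ^ j *
      (∑ k : Fin (n + 1), MvPolynomial.X k) ^ m)))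
    (hdet : (Matrix.of fun ρ i => (P ρ).coeff (a i)).det ≠ 0) :
    Real.log ‖(Matrix.of fun ρ i => (P ρ).coeff (a i)).det‖ ≤
      Real.log (Fintype.card κ).factorial + Fintype.card κ * Real.log B +
        Fintype.card κ * (D * Real.log ((n : ℝ) + 1)) -
        (j.descFactorial (n + 1) : ℝ) / ((n + 1).factorial : ℝ) *
          ∑ σ : Fin (n + 1) → H, td u σ := by
  classical
  have hcp : ∀ y k, 0 ≤ cp u j m y k := by
    rintro (p | i) k
    · exact hu _ _
    · exact le_rfl
  have hcard : Fintype.card ((Fin j × H) ⊕ Fin m) = D := by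
    rw [Fintype.card_sum, Fintype.card_prod, Fintype.card_fin, Fintype.card_fin, hD]
  have hκ : Fintype.card κ =
      (Finset.finsuppAntidiag (Finset.univ : Finset (Fin (n + 1))) D).card := by
    rw [Fintype.card_congr a, Fintype.card_coe]
  have h1 := det_dm (fun i => ((a i : Finset.finsuppAntidiag _ _) : Fin (n + 1) →₀ ℕ)) P
    (pw (cp u j m)) B (by rw [pw_cp]; exact h)
  have h2 := prod_coeff_le (cp u j m) hcp
  rw [hcard, ← hκ] at h2
  have h3 : ∏ i, (pw (cp u j m)).coeff ((a i : Finset.finsuppAntidiag _ _) :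
      Fin (n + 1) →₀ ℕ) = ∏ a ∈ Finset.finsuppAntidiag (Finset.univ : Finset (Fin (n + 1))) D,
      (pw (cp u j m)).coeff a := by
    rw [Equiv.prod_comp a (fun b => (pw (cp u j m)).coeff (b : Fin (n + 1) →₀ ℕ)),
      Finset.prod_coe_sort _ (fun b => (pw (cp u j m)).coeff b)]
  rw [h3] at h1
  set s1 := ∑ z ∈ Finset.univ.filter (fun z : Fin (n + 1) → ((Fin j × H) ⊕ Fin m) =>
        Function.Injective z), td (cp u j m) z with hs1
  have h4 : ‖(Matrix.of fun ρ i => (P ρ).coeff (a i)).det‖ ≤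
      ((Fintype.card κ).factorial * B ^ (Fintype.card κ)) *
        ((((n : ℝ) + 1) ^ D) ^ (Fintype.card κ) *
          Real.exp (-(s1 / ((n + 1).factorial : ℝ)))) :=
    h1.trans (mul_le_mul_of_nonneg_left h2 (by positivity))
  have h5 := Real.log_le_log (norm_pos_iff.2 hdet) h4
  have hf : (0 : ℝ) < (Fintype.card κ).factorial := by exact_mod_cast Nat.factorial_pos _
  have hn : (0 : ℝ) < (n : ℝ) + 1 := by positivity
  rw [Real.log_mul (by positivity) (by positivity), Real.log_mul hf.ne' (by positivity),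
    Real.log_mul (by positivity) (Real.exp_pos _).ne', Real.log_exp, Real.log_pow, Real.log_pow,
    Real.log_pow] at h5
  refine h5.trans ?_
  have h6 := sum_td_cp u hu j m
  have h7 : (0 : ℝ) < (n + 1).factorial := by exact_mod_cast Nat.factorial_pos _
  have h8 : (j.descFactorial (n + 1) : ℝ) / ((n + 1).factorial : ℝ) *
      ∑ σ : Fin (n + 1) → H, td u σ ≤ s1 / ((n + 1).factorial : ℝ) := by
    rw [div_mul_eq_mul_div]
    exact div_le_div_of_nonneg_right h6 h7.le
  linarith

end copies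

end Pool.Agent.T9h24
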