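import Mathlib
import Pool.Agent.T9h24.Val
import Pool.Agent.R405.PlaceExt

/-!
Embeddings of a number field into a nonarchimedean field.
-/

set_option autoImplicit false
set_option linter.unusedSectionVars false

open Finset NumberField IsDedekindDomain Height

namespace Pool.Agent.T9h24

open Pool.Agent.Y742.SF (fv fv_eq fv_pos fv_nonneg fv_int fv_eq_one_iff fv_mul fv_div exists_gen
  gen_ne fv_gen)
open Pool.Agent.R405 (fa fa_apply fa_nontrivial)

variable {K : Type} [Field K] [NumberField K]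

theorem norm_integral_le {F : Type} [NormedField F] [IsUltrametricDist F] (z : F)
    (hz : IsIntegral ℤ z) : ‖z‖ ≤ 1 := by
  have h1 : IsIntegral (NormedField.valuation (K := F)).integer z := hz.tower_top
  have h2 := (Valuation.integer.integers (NormedField.valuation (K := F))).mem_of_integral h1
  have h3 : NormedField.valuation z ≤ 1 := h2
  exact_mod_cast h3

/-- the place of a number field given by an embedding into a nonarchimedean field -/
theorem padic_place {F : Type} [NormedField F] [IsUltrametricDist F] (ψ : K →+* F) (p : ℕ)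
    (hp0 : (p : F) ≠ 0) (hp : ‖(p : F)‖ < 1) :
    ∃ Q : HeightOneSpectrum (𝓞 K), (p : 𝓞 K) ∈ Q.asIdeal ∧ ∃ c : ℝ, 0 < c ∧
      ∀ y : K, ‖ψ y‖ = fv Q y ^ c := by
  classical
  have hint : ∀ a : 𝓞 K, ‖ψ (a : K)‖ ≤ 1 := fun a => by
    refine norm_integral_le _ ?_
    have h1 : IsIntegral ℤ (a : K) := RingOfIntegers.isIntegral_coe a
    exact h1.map (ψ.toIntAlgHom)
  let I : Ideal (𝓞 K) :=
    { carrier := {a | ‖ψ (a : K)‖ < 1}
      add_mem' := by
        intro a b ha hb
        have ha' : ‖ψ (a : K)‖ < 1 := ha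
        have hb' : ‖ψ (b : K)‖ < 1 := hb
        show ‖ψ ((a + b : 𝓞 K) : K)‖ < 1
        push_cast
        rw [map_add]
        exact (IsUltrametricDist.norm_add_le_max _ _).trans_lt (max_lt ha' hb')
      zero_mem' := by
        show ‖ψ ((0 : 𝓞 K) : K)‖ < 1
        simp
      smul_mem' := by
        intro a b hb
        have hb' : ‖ψ (b : K)‖ < 1 := hb
        show ‖ψ ((a * b : 𝓞 K) : K)‖ < 1
        push_cast
        rw [map_mul, norm_mul]
        exact mul_lt_one_of_nonneg_of_lt_one_right (hint a) (norm_nonneg _) hb' }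
  have hmemI : ∀ a : 𝓞 K, a ∈ I ↔ ‖ψ (a : K)‖ < 1 := fun a => Iff.rfl
  have hpI : (p : 𝓞 K) ∈ I := by
    rw [hmemI]
    simpa using hp
  have hprime : I.IsPrime := by
    refine ⟨?_, fun {a b} hab => ?_⟩
    · rw [Ne, Ideal.eq_top_iff_one, hmemI]
      simp
    · rw [hmemI] at hab
      push_cast at hab
      rw [map_mul, norm_mul] at hab
      by_contra hcon
      push Not at hcon
      rw [hmemI, hmemI, not_lt, not_lt] at hcon
      have := mul_le_mul hcon.1 hcon.2 zero_le_one (norm_nonneg _)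
      linarith
  have hIne : I ≠ ⊥ := by
    intro h
    rw [h] at hpI
    have h1 : (p : 𝓞 K) = 0 := hpI
    apply hp0
    have h2 : ((p : ℕ) : K) = 0 := by
      have := congrArg (fun z : 𝓞 K => (z : K)) h1
      simpa using this
    have := congrArg ψ h2
    simpa using this
  let Q : HeightOneSpectrum (𝓞 K) := ⟨I, hprime, hIne⟩
  refine ⟨Q, hpI, ?_⟩
  obtain ⟨U, hU⟩ := exists_gen Q
  set h := Fintype.card (ClassGroup (𝓞 K)) with hh
  have hh0 : 0 < h := Fintype.card_pos
  have hUI : U ∈ I := by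
    have h1 : U ∈ Q.asIdeal ^ h := by
      rw [← hU]
      exact Ideal.mem_span_singleton_self U
    exact Ideal.pow_le_self hh0.ne' h1
  have hU1 : ‖ψ (U : K)‖ < 1 := (hmemI U).1 hUI
  have hU0 : U ≠ 0 := gen_ne Q h hh0 U hU
  have hUK : (U : K) ≠ 0 := RingOfIntegers.coe_ne_zero_iff.2 hU0
  have hψU : 0 < ‖ψ (U : K)‖ := norm_pos_iff.2 ((map_ne_zero ψ).2 hUK)
  have hfvU : fv Q (U : K) < 1 := by
    have h1 : ¬ (U ∉ Q.asIdeal) := fun h => h hUI
    rw [← fv_eq_one_iff] at h1
    exact lt_of_le_of_ne (fv_int Q U) h1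
  have hfvU0 : 0 < fv Q (U : K) := fv_pos Q _ hUK
  -- integers
  have hkey : ∀ a : 𝓞 K, a ≠ 0 → ∃ (m : ℕ) (a' : 𝓞 K), a ^ h = U ^ m * a' ∧ a' ∉ I := by
    intro a ha
    obtain ⟨m, hm1, hm2⟩ := exists_ord Q a ha
    have h1 := Q.intValuation_if_neg ha
    set m' := (Associates.mk Q.asIdeal).count (Associates.mk (Ideal.span {a} : Ideal (𝓞 K))).factors
      with hm'
    have ham : a ∈ Q.asIdeal ^ m' := by
      rw [← Q.intValuation_le_pow_iff_mem, h1]
    have ham2 : a ^ h ∈ Ideal.span {U ^ m'} := by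
      have h2 : a ^ h ∈ (Q.asIdeal ^ m') ^ h := Ideal.pow_mem_pow ham h
      rw [← pow_mul, mul_comm, pow_mul, ← hU, Ideal.span_singleton_pow] at h2
      exact h2
    obtain ⟨a', ha'⟩ := Ideal.mem_span_singleton.1 ham2
    refine ⟨m', a', ha', fun hcon => ?_⟩
    -- otherwise the order is too large
    have h3 : Q.intValuation (a ^ h) = Q.intValuation (U ^ m' * a') := by rw [ha']
    have h4 : Q.intValuation U = WithZero.exp (-(h : ℤ)) := by
      have h5 := Q.intValuation_if_neg hU0
      rw [h5]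
      congr 2
      have h6 : Ideal.span {U} = Q.asIdeal ^ h := hU
      rw [h6, Associates.mk_pow]
      have h7 : Irreducible (Associates.mk Q.asIdeal) := Q.associates_irreducible
      rw [Associates.count_pow (by
        rw [Ne, Associates.mk_eq_zero]
        exact Q.ne_bot) h7, Associates.count_self h7, mul_one]
    rw [map_pow, h1, map_mul, map_pow, h4, ← WithZero.exp_nsmul, ← WithZero.exp_nsmul] at h3
    have h8 : Q.intValuation a' < 1 := (Q.intValuation_lt_one_iff_mem a').2 hcon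
    have h9 : m' • (-(h : ℤ)) = h • (-(m' : ℤ)) := by
      simp only [smul_eq_mul, nsmul_eq_mul]
      ring
    rw [h9] at h3
    have h10 : WithZero.exp (h • (-(m' : ℤ))) * Q.intValuation a' <
        WithZero.exp (h • (-(m' : ℤ))) := by
      calc WithZero.exp (h • (-(m' : ℤ))) * Q.intValuation a'
          < WithZero.exp (h • (-(m' : ℤ))) * 1 :=
            mul_lt_mul_of_pos_left h8 (zero_lt_iff.2 WithZero.exp_ne_zero)
        _ = _ := mul_one _
    rw [← h3] at h10
    exact lt_irrefl _ h10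
  have hnotI : ∀ a : 𝓞 K, a ∉ I → ‖ψ (a : K)‖ = 1 ∧ fv Q (a : K) = 1 := by
    intro a ha
    refine ⟨le_antisymm (hint a) ?_, (fv_eq_one_iff Q a).2 ha⟩
    rw [hmemI, not_lt] at ha
    exact ha
  -- the comparison
  let w : AbsoluteValue K ℝ :=
    { toFun := fun y => ‖ψ y‖
      map_mul' := fun x y => by simp only [map_mul, norm_mul]
      nonneg' := fun x => norm_nonneg _
      eq_zero' := fun x => by rw [norm_eq_zero, map_eq_zero]
      add_le' := fun x y => by
        simp only [map_add]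
        exact norm_add_le _ _ }
  have hlt : ∀ y : K, fa Q y < 1 → w y < 1 := by
    intro y hy
    rw [fa_apply] at hy
    show ‖ψ y‖ < 1
    rcases eq_or_ne y 0 with rfl | hy0
    · simp
    obtain ⟨a, b, hb, hab⟩ := IsFractionRing.div_surjective (A := 𝓞 K) y
    have hb0 : b ≠ 0 := nonZeroDivisors.ne_zero hb
    have ha0 : a ≠ 0 := by
      rintro rfl
      apply hy0
      rw [← hab]
      simp
    obtain ⟨m, a', ha', haI⟩ := hkey a ha0
    obtain ⟨n, b', hb', hbI⟩ := hkey b hb0
    have hbK : (b : K) ≠ 0 := RingOfIntegers.coe_ne_zero_iff.2 hb0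
    have hy' : y = (a : K) / (b : K) := hab.symm
    have hva : fv Q (a : K) ^ h = fv Q (U : K) ^ m := by
      have h1 := congrArg (fun z : 𝓞 K => fa Q (z : K)) ha'
      simp only [map_mul, map_pow] at h1
      rw [fa_apply, fa_apply, fa_apply, (hnotI a' haI).2, mul_one] at h1
      exact h1
    have hvb : fv Q (b : K) ^ h = fv Q (U : K) ^ n := by
      have h1 := congrArg (fun z : 𝓞 K => fa Q (z : K)) hb'
      simp only [map_mul, map_pow] at h1
      rw [fa_apply, fa_apply, fa_apply, (hnotI b' hbI).2, mul_one] at h1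
      exact h1
    have hwa : ‖ψ (a : K)‖ ^ h = ‖ψ (U : K)‖ ^ m := by
      have h1 := congrArg (fun z : 𝓞 K => w (z : K)) ha'
      simp only [map_mul, map_pow] at h1
      have h2 : w (a' : K) = 1 := (hnotI a' haI).1
      rw [h2, mul_one] at h1
      exact h1
    have hwb : ‖ψ (b : K)‖ ^ h = ‖ψ (U : K)‖ ^ n := by
      have h1 := congrArg (fun z : 𝓞 K => w (z : K)) hb'
      simp only [map_mul, map_pow] at h1
      have h2 : w (b' : K) = 1 := (hnotI b' hbI).1
      rw [h2, mul_one] at h1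
      exact h1
    have hfb : 0 < fv Q (b : K) := fv_pos Q _ hbK
    have hwb0 : 0 < ‖ψ (b : K)‖ := norm_pos_iff.2 ((map_ne_zero ψ).2 hbK)
    rw [hy', fv_div, div_lt_one hfb] at hy
    have h1 : fv Q (a : K) ^ h < fv Q (b : K) ^ h :=
      pow_lt_pow_left₀ hy (fv_nonneg _ _) hh0.ne'
    rw [hva, hvb, pow_lt_pow_iff_right_of_lt_one₀ hfvU0 hfvU] at h1
    rw [hy', map_div₀, norm_div, div_lt_one hwb0]
    have h2 : ‖ψ (a : K)‖ ^ h < ‖ψ (b : K)‖ ^ h := by
      rw [hwa, hwb]
      exact pow_lt_pow_right_of_lt_one₀ hψU hU1 h1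
    exact lt_of_pow_lt_pow_left₀ h hwb0.le h2
  have h1 := AbsoluteValue.isEquiv_of_lt_one_imp (v := fa Q) (w := w) (fa_nontrivial Q) hlt
  obtain ⟨c, hc, h2⟩ := AbsoluteValue.isEquiv_iff_exists_rpow_eq.1 h1
  exact ⟨c, hc, fun x => (congrFun h2 x).symm⟩

end Pool.Agent.T9h24
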