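import Mathlib
import Pool.Agent.T9h24.Pad
import Pool.Agent.T9h24.Dom
import Pool.Agent.R405.Rep

/-!
Norm forms.
-/

set_option autoImplicit false
set_option linter.unusedSectionVars false

open Finset NumberField

namespace Pool.Agent.T9h24

variable {E : Type} [Field E] [NumberField E] {n : ℕ}

open Classical in
/-- the norm form of a vector of integers -/
noncomputable def nf (x : Fin (n + 1) → 𝓞 E) : MvPolynomial (Fin (n + 1)) ℤ :=
  (∑ j, (MvPolynomial.X j : MvPolynomial (Fin (n + 1)) ℤ) •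
    (Algebra.leftMulMatrix (RingOfIntegers.basis E) (x j)).map
      (MvPolynomial.C : ℤ →+* MvPolynomial (Fin (n + 1)) ℤ)).det

theorem eval_nf (x : Fin (n + 1) → 𝓞 E) (t : Fin (n + 1) → ℤ) :
    MvPolynomial.eval t (nf x) = Algebra.norm ℤ (∑ j, (t j : 𝓞 E) * x j) := by
  classical
  unfold nf
  rw [RingHom.map_det, Algebra.norm_eq_matrix_det (RingOfIntegers.basis E)]
  congr 1
  · rw [map_sum, map_sum]
    refine Finset.sum_congr rfl fun j _ => ?_
    rw [map_mul]
    have h1 : (Algebra.leftMulMatrix (RingOfIntegers.basis E)) ((t j : ℤ) : 𝓞 E) =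
        ((t j : ℤ) : Matrix _ _ ℤ) := map_intCast _ _
    rw [h1]
    ext i k
    rw [RingHom.mapMatrix_apply, Matrix.map_apply, Matrix.smul_apply, Matrix.map_apply,
      smul_eq_mul, map_mul, MvPolynomial.eval_X, MvPolynomial.eval_C]
    rw [← zsmul_one (t j), smul_mul_assoc, one_mul, Matrix.smul_apply, smul_eq_mul]

/-- the factorization of the norm form -/
theorem nf_map (F : Type) [Field F] [CharZero F] [IsAlgClosed F] (x : Fin (n + 1) → 𝓞 E) :
    MvPolynomial.map (Int.castRingHom F) (nf x) =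
      ∏ τ : E →+* F, ∑ j, MvPolynomial.C (τ (x j : E)) * MvPolynomial.X j := by
  classical
  refine MvPolynomial.funext_set (fun _ => Set.range (Int.cast : ℤ → F))
    (fun _ => Set.infinite_range_of_injective Int.cast_injective) fun t ht => ?_
  have ht' : ∀ j, ∃ m : ℤ, (m : F) = t j := fun j => ht j (Set.mem_univ j)
  choose m hm using ht'
  have htm : t = fun j => Int.castRingHom F (m j) := by
    funext j
    exact (hm j).symm
  rw [htm]
  have h1 : MvPolynomial.eval (fun j => Int.castRingHom F (m j))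
      (MvPolynomial.map (Int.castRingHom F) (nf x)) =
      Int.castRingHom F (MvPolynomial.eval m (nf x)) := by
    rw [MvPolynomial.eval_map]
    exact (MvPolynomial.eval₂_comp (Int.castRingHom F) m (nf x)).symm
  rw [h1, eval_nf]
  have h2 : Int.castRingHom F (Algebra.norm ℤ (∑ j, (m j : 𝓞 E) * x j)) =
      algebraMap ℚ F (Algebra.norm ℚ ((∑ j, (m j : 𝓞 E) * x j : 𝓞 E) : E)) := by
    rw [← Algebra.coe_norm_int]
    simp
  rw [h2, Algebra.norm_eq_prod_embeddings, map_prod,
    ← Fintype.prod_equiv (RingHom.equivRatAlgHom E F)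
      (fun τ => ∑ j, τ (x j : E) * (m j : F))
      (fun τ => τ ((∑ j, (m j : 𝓞 E) * x j : 𝓞 E) : E))]
  · refine Finset.prod_congr rfl fun τ _ => ?_
    simp
  · intro τ
    rw [RingHom.equivRatAlgHom_apply]
    push_cast
    simp [mul_comm]

/-- the coefficients of a linear form over a nonarchimedean field -/
theorem ultra_lin {F : Type} [NormedField F] [IsUltrametricDist F] (ℓ : Fin (n + 1) → F)
    (a : Fin (n + 1) →₀ ℕ) :
    ‖(∑ j, MvPolynomial.C (ℓ j) * MvPolynomial.X j : MvPolynomial (Fin (n + 1)) F).coeff a‖ ≤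
      ‖ℓ‖ := by
  classical
  rw [MvPolynomial.coeff_sum]
  refine IsUltrametricDist.norm_sum_le_of_forall_le_of_nonneg (norm_nonneg _) fun j _ => ?_
  rw [MvPolynomial.coeff_C_mul, MvPolynomial.coeff_X]
  split_ifs
  · rw [mul_one]
    exact norm_le_pi_norm ℓ j
  · rw [mul_zero, norm_zero]
    exact norm_nonneg _

/-- the coefficients of a product of linear forms over a nonarchimedean field -/
theorem ultra_prod {F : Type} [NormedField F] [IsUltrametricDist F] {H : Type} [DecidableEq H]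
    (s : Finset H) (ℓ : H → Fin (n + 1) → F) (a : Fin (n + 1) →₀ ℕ) :
    ‖(∏ τ ∈ s, ∑ j, MvPolynomial.C (ℓ τ j) * MvPolynomial.X j :
      MvPolynomial (Fin (n + 1)) F).coeff a‖ ≤ ∏ τ ∈ s, ‖ℓ τ‖ := by
  classical
  induction s using Finset.induction_on generalizing a with
  | empty =>
    rw [Finset.prod_empty, Finset.prod_empty, MvPolynomial.coeff_one]
    split_ifs <;> simp
  | insert τ s hτ ih =>
    rw [Finset.prod_insert hτ, Finset.prod_insert hτ, MvPolynomial.coeff_mul]
    refine IsUltrametricDist.norm_sum_le_of_forall_le_of_nonneg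
      (mul_nonneg (norm_nonneg _) (Finset.prod_nonneg fun _ _ => norm_nonneg _)) fun q _ => ?_
    rw [norm_mul]
    exact mul_le_mul (ultra_lin _ _) (ih _) (norm_nonneg _) (norm_nonneg _)

theorem card_emb (F : Type) [Field F] [CharZero F] [IsAlgClosed F] :
    Fintype.card (E →+* F) = Module.finrank ℚ E := Embeddings.card E F

/-- the product of the norms of the conjugates at a finite place -/
theorem prod_conj_le {F : Type} [NormedField F] [IsUltrametricDist F] [CharZero F]
    [IsAlgClosed F] (x : Fin (n + 1) → 𝓞 E) (hx : x ≠ 0) :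
    ∏ τ : E →+* F, ‖fun j => τ (x j : E)‖ ≤
      ‖((Ideal.absNorm (Ideal.span (Set.range x)) : ℤ) : F)‖ := by
  classical
  set I := Ideal.span (Set.range x) with hI
  have hI0 : I ≠ ⊥ := by
    obtain ⟨j, hj⟩ := Function.ne_iff.1 hx
    intro h
    apply hj
    have : x j ∈ I := Ideal.subset_span (Set.mem_range_self j)
    rw [h] at this
    exact this
  set h := Fintype.card (ClassGroup (𝓞 E)) with hh
  have hh0 : h ≠ 0 := Fintype.card_ne_zero
  obtain ⟨α, hα⟩ : ∃ α : 𝓞 E, Ideal.span {α} = I ^ h := by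
    let J : nonZeroDivisors (Ideal (𝓞 E)) := ⟨I, mem_nonZeroDivisors_of_ne_zero hI0⟩
    have h1 : ClassGroup.mk0 (J ^ h) = 1 := by
      rw [map_pow, hh, pow_card_eq_one]
    rw [ClassGroup.mk0_eq_one_iff] at h1
    obtain ⟨⟨U, hU⟩⟩ := h1
    refine ⟨U, ?_⟩
    rw [← Ideal.submodule_span_eq, ← hU]
    rfl
  have hint : ∀ (τ : E →+* F) (a : 𝓞 E), ‖τ (a : E)‖ ≤ 1 := fun τ a => by
    refine norm_integral_le _ ?_
    exact (RingOfIntegers.isIntegral_coe a).map (τ.toIntAlgHom)
  have hτ : ∀ τ : E →+* F, ‖fun j => τ (x j : E)‖ ^ h ≤ ‖τ (α : E)‖ := by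
    intro τ
    obtain ⟨j0, -, hj0⟩ := Finset.exists_max_image (Finset.univ : Finset (Fin (n + 1)))
      (fun j => ‖τ (x j : E)‖) Finset.univ_nonempty
    have h1 : ‖fun j => τ (x j : E)‖ ≤ ‖τ (x j0 : E)‖ :=
      (pi_norm_le_iff_of_nonneg (norm_nonneg _)).2 fun j => hj0 j (Finset.mem_univ j)
    refine (pow_le_pow_left₀ (norm_nonneg _) h1 h).trans ?_
    have h2 : x j0 ^ h ∈ I ^ h :=
      Ideal.pow_mem_pow (Ideal.subset_span (Set.mem_range_self j0)) h
    rw [← hα, Ideal.mem_span_singleton] at h2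
    obtain ⟨b, hb⟩ := h2
    have h3 : τ (x j0 : E) ^ h = τ (α : E) * τ (b : E) := by
      rw [← map_pow, ← map_mul]
      congr 1
      have := congrArg (fun z : 𝓞 E => (z : E)) hb
      push_cast at this
      exact this
    rw [← norm_pow, h3, norm_mul]
    have := hint τ b
    nlinarith [norm_nonneg (τ (α : E))]
  have hprod : (∏ τ : E →+* F, ‖fun j => τ (x j : E)‖) ^ h ≤
      ‖((Ideal.absNorm I : ℤ) : F)‖ ^ h := by
    rw [← Finset.prod_pow]
    refine (Finset.prod_le_prod (fun τ _ => pow_nonneg (norm_nonneg _) _) fun τ _ => hτ τ).trans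
      (le_of_eq ?_)
    rw [← norm_prod, ← norm_pow]
    have h1 : ∏ τ : E →+* F, τ (α : E) = algebraMap ℚ F (Algebra.norm ℚ (α : E)) := by
      rw [Algebra.norm_eq_prod_embeddings,
        ← Fintype.prod_equiv (RingHom.equivRatAlgHom E F) (fun τ => τ (α : E))
        (fun τ => τ (α : E))]
      intro τ
      rw [RingHom.equivRatAlgHom_apply]
      rfl
    have h2 : algebraMap ℚ F (Algebra.norm ℚ (α : E)) = ((Algebra.norm ℤ α : ℤ) : F) := by
      rw [← Algebra.coe_norm_int]
      simp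
    have h3 : (Algebra.norm ℤ α).natAbs = Ideal.absNorm I ^ h := by
      rw [← Ideal.absNorm_span_singleton, hα, map_pow]
    rw [h1, h2]
    have h4 : ((Ideal.absNorm I : ℤ) : F) ^ h = (((Algebra.norm ℤ α).natAbs : ℤ) : F) := by
      rw [h3]
      push_cast
      rfl
    rw [h4]
    rcases Int.natAbs_eq (Algebra.norm ℤ α) with h5 | h5
    · rw [← h5]
    · conv_lhs => rw [h5]
      rw [Int.cast_neg, norm_neg]
  exact le_of_pow_le_pow_left₀ hh0 (norm_nonneg _) hprod

theorem coeff_nf_le {F : Type} [NormedField F] [IsUltrametricDist F] [CharZero F]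
    [IsAlgClosed F] (x : Fin (n + 1) → 𝓞 E) (hx : x ≠ 0) (a : Fin (n + 1) →₀ ℕ) :
    ‖(((nf x).coeff a : ℤ) : F)‖ ≤ ‖((Ideal.absNorm (Ideal.span (Set.range x)) : ℤ) : F)‖ := by
  classical
  have h2 : (((nf x).coeff a : ℤ) : F) =
      (MvPolynomial.map (Int.castRingHom F) (nf x)).coeff a := by
    rw [MvPolynomial.coeff_map, eq_intCast]
  rw [h2, nf_map]
  have h3 := ultra_prod (Finset.univ : Finset (E →+* F))
    (fun (τ : E →+* F) (j : Fin (n + 1)) => τ (x j : E)) a
  have h4 := prod_conj_le (F := F) x hx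
  exact le_trans h3 h4

/-- the norm of the ideal of the coordinates divides the norm form -/
theorem absNorm_dvd (x : Fin (n + 1) → 𝓞 E) (hx : x ≠ 0) (a : Fin (n + 1) →₀ ℕ) :
    (Ideal.absNorm (Ideal.span (Set.range x)) : ℤ) ∣ (nf x).coeff a := by
  classical
  set N := Ideal.absNorm (Ideal.span (Set.range x)) with hN
  rw [Int.natCast_dvd]
  refine (Nat.dvd_iff_prime_pow_dvd_dvd _ _).2 fun p k hp hk => ?_
  have : Fact p.Prime := ⟨hp⟩
  have h1 := coeff_nf_le (F := PadicAlgCl p) x hx a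
  rw [← hN] at h1
  have hnorm : ∀ m : ℤ, ‖(m : PadicAlgCl p)‖ = ‖(m : ℚ_[p])‖ := by
    intro m
    have := PadicAlgCl.norm_extends p (m : ℚ_[p])
    rw [← this]
    congr 1
  rw [hnorm, hnorm] at h1
  have h3 : ‖((N : ℤ) : ℚ_[p])‖ ≤ (p : ℝ) ^ (-k : ℤ) :=
    (Padic.norm_int_le_pow_iff_dvd _ _).2 (by exact_mod_cast hk)
  have h4 := (Padic.norm_int_le_pow_iff_dvd _ _).1 (h1.trans h3)
  rw [← Int.natCast_dvd]
  exact_mod_cast h4

/-- the product of the norms of the conjugates at infinity -/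
theorem prod_conj_inf (x : Fin (n + 1) → 𝓞 E) (hx : x ≠ 0) :
    ∏ τ : E →+* ℂ, ‖fun j => τ (x j : E)‖ =
      Height.mulHeight (fun j => (x j : E)) * Ideal.absNorm (Ideal.span (Set.range x)) := by
  classical
  rw [Pool.Agent.R405.mulHeight_int x hx]
  have h1 : ∀ τ : E →+* ℂ, ‖fun j => τ (x j : E)‖ =
      ⨆ i, (InfinitePlace.mk τ) (x i : E) := by
    intro τ
    refine le_antisymm ?_ ?_
    · refine (pi_norm_le_iff_of_nonneg (Real.iSup_nonneg fun i => apply_nonneg _ _)).2 fun j => ?_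
      exact le_ciSup (f := fun i => (InfinitePlace.mk τ) (x i : E))
        (Set.finite_range _).bddAbove j
    · exact ciSup_le fun i => norm_le_pi_norm (fun j => τ (x j : E)) i
  simp only [h1]
  rw [← Finset.prod_fiberwise (s := (Finset.univ : Finset (E →+* ℂ)))
    (g := fun τ => InfinitePlace.mk τ)]
  refine Finset.prod_congr rfl fun w _ => ?_
  have h2 : ∏ τ ∈ Finset.univ.filter (fun τ : E →+* ℂ => InfinitePlace.mk τ = w),
      ⨆ i, (InfinitePlace.mk τ) (x i : E) =
      ∏ τ ∈ Finset.univ.filter (fun τ : E →+* ℂ => InfinitePlace.mk τ = w), ⨆ i, w (x i : E) := by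
    refine Finset.prod_congr rfl fun τ hτ => ?_
    rw [(Finset.mem_filter.1 hτ).2]
  rw [h2, Finset.prod_const, InfinitePlace.card_filter_mk_eq]

end Pool.Agent.T9h24
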