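import Mathlib
import Pool.Agent.T9h24.Nrm
import Pool.Agent.T9h24.Core

/-!
Forms and their vectors of coefficients.
-/

set_option autoImplicit false
set_option linter.unusedSectionVars false

open Finset NumberField

namespace Pool.Agent.T9h24

/-- the exponents of degree `r` -/
abbrev AD (n r : ℕ) : Finset (Fin (n + 1) →₀ ℕ) := Finset.finsuppAntidiag Finset.univ r

theorem mem_AD {n r : ℕ} {a : Fin (n + 1) →₀ ℕ} : a ∈ AD n r ↔ a.degree = r := by
  rw [Finset.mem_finsuppAntidiag, Finsupp.degree_eq_sum]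
  constructor
  · exact fun h => h.1
  · exact fun h => ⟨h, Finset.subset_univ _⟩

/-- the number of monomials -/
noncomputable def NN (n r : ℕ) : ℕ := (AD n r).card

/-- the enumeration of the monomials -/
noncomputable def ee (n r : ℕ) : Fin (NN n r) ≃ AD n r := (AD n r).equivFin.symm

/-- the form with given coefficients -/
noncomputable def PY (R : Type) [CommRing R] {n r : ℕ} (y : Fin (NN n r) → R) :
    MvPolynomial (Fin (n + 1)) R :=
  ∑ i, MvPolynomial.monomial ((ee n r i : AD n r) : Fin (n + 1) →₀ ℕ) (y i)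

theorem coeff_PY {R : Type} [CommRing R] {n r : ℕ} (y : Fin (NN n r) → R) (i : Fin (NN n r)) :
    (PY R y).coeff ((ee n r i : AD n r) : Fin (n + 1) →₀ ℕ) = y i := by
  classical
  unfold PY
  rw [MvPolynomial.coeff_sum, Finset.sum_eq_single i]
  · rw [MvPolynomial.coeff_monomial, if_pos rfl]
  · intro j _ hj
    rw [MvPolynomial.coeff_monomial, if_neg]
    intro h
    exact hj ((ee n r).injective (Subtype.ext h))
  · intro h
    exact absurd (Finset.mem_univ i) h

theorem PY_map {R R' : Type} [CommRing R] [CommRing R'] (f : R →+* R') {n r : ℕ}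
    (y : Fin (NN n r) → R) : MvPolynomial.map f (PY R y) = PY R' (fun i => f (y i)) := by
  unfold PY
  rw [map_sum]
  exact Finset.sum_congr rfl fun i _ => MvPolynomial.map_monomial _ _ _

theorem PY_hom {R : Type} [CommRing R] {n r : ℕ} (y : Fin (NN n r) → R) :
    (PY R y).IsHomogeneous r := by
  unfold PY
  exact MvPolynomial.IsHomogeneous.sum _ _ _ fun i _ =>
    MvPolynomial.isHomogeneous_monomial _ (mem_AD.1 (ee n r i).2)

theorem eq_PY {R : Type} [CommRing R] {n r : ℕ} (P : MvPolynomial (Fin (n + 1)) R)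
    (hP : P.IsHomogeneous r) :
    P = PY R (fun i : Fin (NN n r) => P.coeff ((ee n r i : AD n r) : Fin (n + 1) →₀ ℕ)) := by
  classical
  ext a
  by_cases ha : a ∈ AD n r
  · have h1 := coeff_PY (fun i : Fin (NN n r) =>
      P.coeff ((ee n r i : AD n r) : Fin (n + 1) →₀ ℕ)) ((ee n r).symm ⟨a, ha⟩)
    rw [Equiv.apply_symm_apply] at h1
    exact h1.symm
  · have h1 : a.degree ≠ r := fun h => ha (mem_AD.2 h)
    rw [hP.coeff_eq_zero h1, (PY_hom _).coeff_eq_zero h1]

/-- coefficients are bounded by the value at one -/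
theorem coeff_le_eval {σ : Type} (W : MvPolynomial σ ℝ) (h : ∀ a, 0 ≤ W.coeff a)
    (a : σ →₀ ℕ) : W.coeff a ≤ MvPolynomial.eval (fun _ => 1) W := by
  classical
  rw [MvPolynomial.eval_eq]
  simp only [one_pow, Finset.prod_const_one, mul_one]
  by_cases ha : a ∈ W.support
  · exact Finset.single_le_sum (f := fun d => W.coeff d) (fun d _ => h d) ha
  · rw [MvPolynomial.notMem_support_iff.1 ha]
    exact Finset.sum_nonneg fun d _ => h d

/-- the coefficients of a product of linear forms -/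
theorem arch_prod {F : Type} [NormedField F] {n : ℕ} {H : Type} [Fintype H]
    (ℓ : H → Fin (n + 1) → F) (a : Fin (n + 1) →₀ ℕ) :
    ‖(∏ τ, ∑ j, MvPolynomial.C (ℓ τ j) * MvPolynomial.X j :
      MvPolynomial (Fin (n + 1)) F).coeff a‖ ≤ ((n : ℝ) + 1) ^ Fintype.card H * ∏ τ, ‖ℓ τ‖ := by
  classical
  have h1 : Dm (∏ τ, ∑ j, MvPolynomial.C (ℓ τ j) * MvPolynomial.X j :
      MvPolynomial (Fin (n + 1)) F)
      (∏ τ, ∑ j, MvPolynomial.C ‖ℓ τ‖ * MvPolynomial.X j) :=
    Dm.prod _ _ _ fun τ _ => Dm.lin _ _ fun k => norm_le_pi_norm (ℓ τ) k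
  refine (h1 a).trans ((coeff_le_eval _ h1.nonneg a).trans (le_of_eq ?_))
  rw [map_prod]
  simp only [map_sum, map_mul, MvPolynomial.eval_C, MvPolynomial.eval_X, mul_one,
    Finset.sum_const, Finset.card_univ, Fintype.card_fin, nsmul_eq_mul]
  rw [Finset.prod_mul_distrib, Finset.prod_const, Finset.card_univ]
  push_cast
  rfl

/-- extracting the content -/
theorem exists_content {N : ℕ} (y0 : Fin N → ℤ) (h : y0 ≠ 0) : ∃ (g : ℤ) (y : Fin N → ℤ),
    g ≠ 0 ∧ (∀ i, y0 i = g * y i) ∧ (∃ u : Fin N → ℤ, ∑ i, u i * y i = 1) ∧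
      ∀ m : ℤ, (∀ i, m ∣ y0 i) → m ∣ g := by
  obtain ⟨g, hg⟩ := (IsPrincipalIdealRing.principal (Ideal.span (Set.range y0))).principal
  have h1 : ∀ i, g ∣ y0 i := by
    intro i
    have h2 : y0 i ∈ Ideal.span (Set.range y0) := Ideal.subset_span ⟨i, rfl⟩
    rw [hg] at h2
    exact Ideal.mem_span_singleton.1 h2
  choose y hy using h1
  have h2 : g ∈ Ideal.span (Set.range y0) := by
    rw [hg]
    exact Ideal.mem_span_singleton.2 (dvd_refl g)
  obtain ⟨u, hu⟩ := (Ideal.mem_span_range_iff_exists_fun).1 h2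
  have hg0 : g ≠ 0 := by
    rintro rfl
    apply h
    funext i
    rw [hy i, zero_mul]
    rfl
  refine ⟨g, y, hg0, hy, ⟨u, ?_⟩, fun m hm => ?_⟩
  · have h3 : g * ∑ i, u i * y i = g * 1 := by
      rw [Finset.mul_sum, mul_one]
      conv_rhs => rw [← hu]
      refine Finset.sum_congr rfl fun i _ => ?_
      rw [hy i]
      ring
    exact mul_left_cancel₀ hg0 h3
  · rw [← hu]
    exact Finset.dvd_sum fun i _ => (hm i).mul_left _

/-- the primitive form of a point -/
theorem exists_form {E : Type} [Field E] [NumberField E] {n : ℕ} (x : Fin (n + 1) → 𝓞 E)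
    (hx : x ≠ 0) (r : ℕ) (hr : Module.finrank ℚ E = r) :
    ∃ (g : ℤ) (y : Fin (NN n r) → ℤ), g ≠ 0 ∧ (∃ u : Fin (NN n r) → ℤ, ∑ i, u i * y i = 1) ∧
      nf x = MvPolynomial.C g * PY ℤ y ∧
      Real.log (sz y) ≤ r * Real.log ((n : ℝ) + 1) + Height.logHeight (fun j => (x j : E)) ∧
      Real.log (∏ τ : E →+* ℂ, ‖fun j => τ (x j : E)‖) - Real.log |(g : ℝ)| ≤
        Height.logHeight (fun j => (x j : E)) := by
  classical
  have hcardC : Fintype.card (E →+* ℂ) = r := by rw [card_emb ℂ, hr]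
  have hhom : (nf x).IsHomogeneous r := by
    have h1 : (MvPolynomial.map (Int.castRingHom ℂ) (nf x)).IsHomogeneous r := by
      rw [nf_map ℂ x, ← hcardC, ← Finset.card_univ]
      have h2 := MvPolynomial.IsHomogeneous.prod (Finset.univ : Finset (E →+* ℂ))
        (fun τ : E →+* ℂ => (∑ j, MvPolynomial.C (τ (x j : E)) * MvPolynomial.X j :
          MvPolynomial (Fin (n + 1)) ℂ)) (fun _ => 1) (fun τ _ => by
            refine MvPolynomial.IsHomogeneous.sum _ _ _ fun j _ => ?_
            have h3 := (MvPolynomial.isHomogeneous_C (Fin (n + 1)) (τ (x j : E))).mul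
              (MvPolynomial.isHomogeneous_X ℂ j)
            rwa [zero_add] at h3)
      rwa [Finset.sum_const, smul_eq_mul, mul_one] at h2
    intro a ha
    refine h1 ?_
    rw [MvPolynomial.coeff_map]
    intro h0
    apply ha
    have : (((nf x).coeff a : ℤ) : ℂ) = 0 := by simpa using h0
    exact_mod_cast this
  set y0 : Fin (NN n r) → ℤ := fun i =>
    (nf x).coeff ((ee n r i : AD n r) : Fin (n + 1) →₀ ℕ) with hy0
  have hnf : nf x = PY ℤ y0 := eq_PY _ hhom
  have hP0 : 0 < ∏ τ : E →+* ℂ, ‖fun j => τ (x j : E)‖ := by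
    refine Finset.prod_pos fun τ _ => norm_pos_iff.2 fun h0 => hx ?_
    funext j
    have h1 : τ (x j : E) = 0 := congrFun h0 j
    exact RingOfIntegers.ext (by simpa using h1)
  have hy00 : y0 ≠ 0 := by
    intro h0
    have h1 : nf x = 0 := by
      rw [hnf, h0]
      unfold PY
      simp
    have h2 := nf_map ℂ x
    rw [h1, map_zero] at h2
    obtain ⟨τ, -, hτ⟩ := Finset.prod_eq_zero_iff.1 h2.symm
    apply hx
    funext j
    have h3 := congrArg (fun P : MvPolynomial (Fin (n + 1)) ℂ =>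
      P.coeff (Finsupp.single j 1)) hτ
    simp only [MvPolynomial.coeff_sum, MvPolynomial.coeff_C_mul, MvPolynomial.coeff_X,
      MvPolynomial.coeff_zero] at h3
    rw [Finset.sum_eq_single j] at h3
    · rw [if_pos rfl, mul_one] at h3
      exact RingOfIntegers.ext (by simpa using h3)
    · intro i _ hi
      rw [if_neg, mul_zero]
      intro h4
      exact hi (Finsupp.single_left_injective one_ne_zero h4)
    · intro h4
      exact absurd (Finset.mem_univ j) h4
  obtain ⟨g, y, hg0, hgy, hprim, hdvd⟩ := exists_content y0 hy00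
  set N : ℕ := Ideal.absNorm (Ideal.span (Set.range x)) with hN
  have hNg : (N : ℤ) ∣ g := hdvd N fun i => absNorm_dvd x hx _
  have hN0 : (N : ℝ) ≠ 0 := by
    intro h0
    have h1 := prod_conj_inf x hx
    rw [← hN, h0, mul_zero] at h1
    exact hP0.ne' h1
  have hNpos : (0 : ℝ) < N := lt_of_le_of_ne (Nat.cast_nonneg _) (Ne.symm hN0)
  have hgN : (N : ℝ) ≤ |(g : ℝ)| := by
    have h1 := Int.le_of_dvd (abs_pos.2 hg0) ((dvd_abs _ _).2 hNg)
    exact_mod_cast h1
  have hgpos : 0 < |(g : ℝ)| := hNpos.trans_le hgN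
  have hinf := prod_conj_inf x hx
  rw [← hN] at hinf
  have hH : 0 < Height.mulHeight (fun j => (x j : E)) := Height.mulHeight_pos _
  refine ⟨g, y, hg0, hprim, ?_, ?_, ?_⟩
  · rw [hnf]
    unfold PY
    rw [Finset.mul_sum]
    refine Finset.sum_congr rfl fun i _ => ?_
    rw [MvPolynomial.C_mul_monomial, hgy]
  · have hy : y ≠ 0 := by
      rintro rfl
      obtain ⟨u, hu⟩ := hprim
      simp at hu
    have h1 : sz y ≤ ((n : ℝ) + 1) ^ r * Height.mulHeight (fun j => (x j : E)) := by
      have hne : Nonempty (Fin (NN n r)) := by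
        by_contra hcon
        rw [not_nonempty_iff] at hcon
        exact hy (funext fun i => hcon.elim i)
      refine ciSup_le fun i => ?_
      have h2 := arch_prod (fun (τ : E →+* ℂ) (j : Fin (n + 1)) => τ (x j : E))
        ((ee n r i : AD n r) : Fin (n + 1) →₀ ℕ)
      rw [← nf_map ℂ x, MvPolynomial.coeff_map, eq_intCast, Complex.norm_intCast, hcardC,
        hinf] at h2
      have h3 : (((nf x).coeff ((ee n r i : AD n r) : Fin (n + 1) →₀ ℕ) : ℤ) : ℝ) =
          (g : ℝ) * (y i : ℝ) := by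
        have := hgy i
        rw [hy0] at this
        exact_mod_cast this
      rw [h3, abs_mul] at h2
      have h4 : (N : ℝ) * |(y i : ℝ)| ≤ |(g : ℝ)| * |(y i : ℝ)| :=
        mul_le_mul_of_nonneg_right hgN (abs_nonneg _)
      have h5 : (N : ℝ) * |(y i : ℝ)| ≤
          N * (((n : ℝ) + 1) ^ r * Height.mulHeight (fun j => (x j : E))) := by
        refine h4.trans (h2.trans (le_of_eq ?_))
        ring
      exact le_of_mul_le_mul_left h5 hNpos
    have h2 := Real.log_le_log (by linarith [one_le_sz y hy]) h1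
    rw [Real.log_mul (by positivity) hH.ne', Real.log_pow] at h2
    rw [Height.logHeight_eq_log_mulHeight]
    exact h2
  · rw [hinf, Real.log_mul hH.ne' hN0, Height.logHeight_eq_log_mulHeight]
    have := Real.log_le_log hNpos hgN
    linarith

end Pool.Agent.T9h24
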