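import Mathlib
import Pool.Agent.T9h24.Vec

/-!
The number of monomials, and the choice of the degree.
-/

set_option autoImplicit false
set_option linter.unusedSectionVars false

open Finset Filter

namespace Pool.Agent.T9h24

theorem NN_eq (n D : ℕ) : NN n D = (D + n).choose n := by
  unfold NN AD
  rw [Finset.card_finsuppAntidiag_nat_eq_choose, Finset.card_univ, Fintype.card_fin,
    show n + 1 + D - 1 = D + n by omega, ← Nat.choose_symm_add]

theorem numer (n r m0 : ℕ) (hr : 1 ≤ r) (ε : ℝ) (hε : 0 < ε) : ∃ j : ℕ,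
    0 < j.descFactorial (n + 1) ∧ (NN n (j * r + m0) : ℝ) * j ≤
      (j.descFactorial (n + 1) : ℝ) / ((n + 1).factorial : ℝ) * ((r : ℝ) ^ n * ((n : ℝ) + 1 + ε)) := by
  set A : ℕ := n * r + m0 + n with hA
  have hlim : Tendsto (fun t : ℕ => (1 + (A : ℝ) / t) ^ (n + 1)) atTop (nhds 1) := by
    have h1 := (tendsto_const_div_atTop_nhds_zero_nat (A : ℝ)).const_add 1
    have h2 := h1.pow (n + 1)
    rw [add_zero, one_pow] at h2
    exact h2
  have hn0 : (0 : ℝ) < (n : ℝ) + 1 := by positivity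
  have h1 : ∀ᶠ t : ℕ in atTop, (1 + (A : ℝ) / t) ^ (n + 1) < 1 + ε / ((n : ℝ) + 1) := by
    refine (tendsto_order.1 hlim).2 _ ?_
    have : 0 < ε / ((n : ℝ) + 1) := by positivity
    linarith
  obtain ⟨t, ht, ht1⟩ := (h1.and (eventually_ge_atTop 1)).exists
  have ht0 : (0 : ℝ) < t := by exact_mod_cast ht1
  have hr0 : (0 : ℝ) < r := by exact_mod_cast hr
  have hr1 : (1 : ℝ) ≤ r := by exact_mod_cast hr
  refine ⟨n + t, ?_, ?_⟩
  · exact Nat.descFactorial_pos.2 (by omega)
  have h2 : t ^ (n + 1) ≤ (n + t).descFactorial (n + 1) := by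
    have := Nat.pow_sub_le_descFactorial (n + t) (n + 1)
    rwa [show n + t + 1 - (n + 1) = t by omega] at this
  set D := (n + t) * r + m0 with hD
  have h3 : n.factorial * NN n D ≤ (D + n) ^ n := by
    rw [NN_eq, ← Nat.descFactorial_eq_factorial_mul_choose]
    exact Nat.descFactorial_le_pow _ _
  have h4 : ((D : ℝ) + n) ≤ r * (t + A) := by
    have h5 : ((D : ℝ) + n) = r * t + A := by
      rw [hD, hA]
      push_cast
      ring
    rw [h5]
    have : (A : ℝ) ≤ r * A := by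
      have := mul_le_mul_of_nonneg_right hr1 (Nat.cast_nonneg (α := ℝ) A)
      linarith
    linarith
  have h5 : ((n + t : ℕ) : ℝ) ≤ t + A := by
    have : n ≤ A := by omega
    have h6 : (n : ℝ) ≤ A := by exact_mod_cast this
    push_cast
    linarith
  have hf : (0 : ℝ) < ((n + 1).factorial : ℝ) := by exact_mod_cast Nat.factorial_pos _
  have h6 : (((n + 1).factorial : ℝ)) = ((n : ℝ) + 1) * n.factorial := by
    rw [Nat.factorial_succ]
    push_cast
    ring
  rw [div_mul_eq_mul_div, le_div_iff₀ hf, h6]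
  have h7 : (n.factorial : ℝ) * NN n D ≤ (r * (t + A)) ^ n := by
    have h8 : (n.factorial : ℝ) * NN n D ≤ ((D : ℝ) + n) ^ n := by exact_mod_cast h3
    exact h8.trans (pow_le_pow_left₀ (by positivity) h4 n)
  have h8 : (NN n D : ℝ) * ((n + t : ℕ) : ℝ) * (((n : ℝ) + 1) * n.factorial) ≤
      ((n : ℝ) + 1) * (r * (t + A)) ^ n * (t + A) := by
    have e1 : (NN n D : ℝ) * ((n + t : ℕ) : ℝ) * (((n : ℝ) + 1) * n.factorial) =
        ((n : ℝ) + 1) * ((n.factorial : ℝ) * NN n D) * ((n + t : ℕ) : ℝ) := by ring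
    rw [e1]
    exact mul_le_mul (mul_le_mul_of_nonneg_left h7 hn0.le) h5 (by positivity) (by positivity)
  have h9 : ((n : ℝ) + 1) * (r * (t + A)) ^ n * (t + A) =
      ((n : ℝ) + 1) * r ^ n * (t ^ (n + 1) * (1 + (A : ℝ) / t) ^ (n + 1)) := by
    have e2 : (t : ℝ) * (1 + (A : ℝ) / t) = t + A := by
      field_simp
    rw [← mul_pow (t : ℝ), e2, pow_succ, mul_pow]
    ring
  have h10 : (t : ℝ) ^ (n + 1) ≤ ((n + t).descFactorial (n + 1) : ℝ) := by exact_mod_cast h2
  rw [h9] at h8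
  refine h8.trans ?_
  have h11 : ((n : ℝ) + 1) * r ^ n * (t ^ (n + 1) * (1 + (A : ℝ) / t) ^ (n + 1)) ≤
      ((n : ℝ) + 1) * r ^ n * (((n + t).descFactorial (n + 1) : ℝ) * (1 + ε / ((n : ℝ) + 1))) :=
    mul_le_mul_of_nonneg_left (mul_le_mul h10 ht.le (by positivity) (by positivity))
      (by positivity)
  refine h11.trans (le_of_eq ?_)
  field_simp

end Pool.Agent.T9h24
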