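import Mathlib
import Pool.Agent.T9h24.Nmr

/-!
Sums over the monomials of given degree.
-/

set_option autoImplicit false
set_option linter.unusedSectionVars false

open Finset Filter

namespace Pool.Agent.T9h24

/-- the number of monomials divisible by a power of a variable -/
theorem card_ge (n d t : ℕ) (h : t ≤ d) (j : Fin (n + 1)) :
    ((AD n d).filter fun a => t ≤ a j).card = NN n (d - t) := by
  classical
  unfold NN
  refine Finset.card_bij' (fun a _ => a - Finsupp.single j t) (fun b _ => b + Finsupp.single j t)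
    (fun a ha => ?_) (fun b hb => ?_) (fun a ha => ?_) (fun b hb => ?_)
  · obtain ⟨h1, h2⟩ := Finset.mem_filter.1 ha
    rw [mem_AD] at h1 ⊢
    have h3 : Finsupp.single j t ≤ a := Finsupp.single_le_iff.2 h2
    have h4 := congrArg Finsupp.degree (tsub_add_cancel_of_le h3)
    rw [map_add, Finsupp.degree_single, h1] at h4
    omega
  · rw [mem_AD] at hb
    rw [Finset.mem_filter, mem_AD, map_add, Finsupp.degree_single, hb]
    refine ⟨by omega, ?_⟩
    rw [Finsupp.add_apply, Finsupp.single_eq_same]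
    omega
  · obtain ⟨h1, h2⟩ := Finset.mem_filter.1 ha
    exact tsub_add_cancel_of_le (Finsupp.single_le_iff.2 h2)
  · exact add_tsub_cancel_right _ _

/-- the sum of the truncated differences -/
def PT (n d θ : ℕ) (j : Fin (n + 1)) : ℕ := ∑ a ∈ AD n d, (θ - a j)

theorem PT_eq (n d : ℕ) (j : Fin (n + 1)) : ∀ θ ≤ d,
    PT n d θ j + (n + d).choose (n + 1) = θ * NN n d + (n + d - θ).choose (n + 1) := by
  classical
  intro θ
  induction θ with
  | zero =>
    intro _
    unfold PT
    simp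
  | succ θ ih =>
    intro h
    have h1 := ih (by omega)
    have h2 : PT n d (θ + 1) j = PT n d θ j + ((AD n d).filter fun a => a j ≤ θ).card := by
      unfold PT
      rw [Finset.card_filter, ← Finset.sum_add_distrib]
      refine Finset.sum_congr rfl fun a _ => ?_
      split_ifs with h3
      · omega
      · omega
    have h3 : ((AD n d).filter fun a => a j ≤ θ).card + NN n (d - (θ + 1)) = NN n d := by
      rw [← card_ge n d (θ + 1) h j]
      have h4 : ((AD n d).filter fun a => θ + 1 ≤ a j) =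
          (AD n d).filter fun a => ¬ a j ≤ θ := by
        refine Finset.filter_congr fun a _ => ?_
        omega
      rw [h4]
      exact Finset.card_filter_add_card_filter_not (fun a : Fin (n + 1) →₀ ℕ => a j ≤ θ)
    have h4 : (n + d - θ).choose (n + 1) =
        (n + d - (θ + 1)).choose (n + 1) + NN n (d - (θ + 1)) := by
      rw [NN_eq, show n + d - θ = (n + d - (θ + 1)) + 1 by omega, Nat.choose_succ_succ,
        show d - (θ + 1) + n = n + d - (θ + 1) by omega]
      ring
    rw [h2]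
    have h5 : (θ + 1) * NN n d = θ * NN n d + NN n d := by ring
    rw [h5]
    omega

/-- **The lower bound for the constant.** -/
theorem exists_theta (n r : ℕ) (hr : 1 ≤ r) (m : ℝ) (hm0 : 0 ≤ m) (hm1 : m ≤ 1)
    (ε : ℝ) (hε : 0 < ε) : ∃ d θ : ℕ, 1 ≤ d ∧ ∀ j : Fin (n + 1),
      (d : ℝ) * NN n d * ((r : ℝ) / (n + 1) * (1 - (1 - m) ^ (n + 1)) - (r - 1) * m - ε) ≤
        (θ : ℝ) * NN n d - r * PT n d θ j := by
  have hr1 : (1 : ℝ) ≤ r := by exact_mod_cast hr
  have hn0 : (0 : ℝ) < (n : ℝ) + 1 := by positivity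
  have hlim : Tendsto (fun d : ℕ => (r : ℝ) / (n + 1) *
      (1 - m + ((n : ℝ) + 1) / d) ^ (n + 1)) atTop
      (nhds ((r : ℝ) / (n + 1) * (1 - m + 0) ^ (n + 1))) := by
    have h1 := (tendsto_const_div_atTop_nhds_zero_nat ((n : ℝ) + 1)).const_add (1 - m)
    exact (h1.pow (n + 1)).const_mul _
  rw [add_zero] at hlim
  have h1 : ∀ᶠ d : ℕ in atTop, (r : ℝ) / (n + 1) * (1 - m + ((n : ℝ) + 1) / d) ^ (n + 1) <
      (r : ℝ) / (n + 1) * (1 - m) ^ (n + 1) + ε :=
    (tendsto_order.1 hlim).2 _ (by linarith)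
  obtain ⟨d, hd, hd1⟩ := (h1.and (eventually_ge_atTop 1)).exists
  have hd0 : (0 : ℝ) < d := by exact_mod_cast hd1
  set θ := ⌊m * d⌋₊ with hθ
  have hθ1 : (θ : ℝ) ≤ m * d := Nat.floor_le (by positivity)
  have hθ2 : m * d < θ + 1 := Nat.lt_floor_add_one _
  have hθd : θ ≤ d := by
    have h2 : (θ : ℝ) ≤ d := hθ1.trans (by nlinarith)
    exact_mod_cast h2
  refine ⟨d, θ, hd1, fun j => ?_⟩
  have h2 := PT_eq n d j θ hθd
  have h3 : (PT n d θ j : ℝ) = θ * NN n d + ((n + d - θ).choose (n + 1) : ℝ) -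
      ((n + d).choose (n + 1) : ℝ) := by
    have h4 : ((PT n d θ j + (n + d).choose (n + 1) : ℕ) : ℝ) =
        ((θ * NN n d + (n + d - θ).choose (n + 1) : ℕ) : ℝ) := by exact_mod_cast h2
    push_cast at h4
    linarith
  have h4 : ((n + d).choose (n + 1) : ℝ) * (n + 1) = NN n d * d := by
    have h5 := Nat.choose_succ_right_eq (n + d) n
    rw [show n + d - n = d by omega] at h5
    rw [NN_eq, show d + n = n + d by omega]
    exact_mod_cast h5
  set Nd : ℝ := (NN n d : ℝ) with hNd
  have hf : (0 : ℝ) < (n.factorial : ℝ) := by exact_mod_cast Nat.factorial_pos _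
  have h5 : (d : ℝ) ^ n ≤ n.factorial * Nd := by
    have h6 : d ^ n ≤ n.factorial * NN n d := by
      rw [NN_eq, ← Nat.descFactorial_eq_factorial_mul_choose]
      have h7 := Nat.pow_sub_le_descFactorial (d + n) n
      exact (Nat.pow_le_pow_left (by omega) n).trans h7
    rw [hNd]
    exact_mod_cast h6
  have hNd0 : 0 < Nd := by
    by_contra hcon
    have h6 : (d : ℝ) ^ n ≤ 0 := h5.trans (mul_nonpos_of_nonneg_of_nonpos hf.le (not_lt.1 hcon))
    exact absurd h6 (not_le.2 (by positivity))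
  -- the other binomial coefficient
  have h6 : ((n + d - θ).choose (n + 1) : ℝ) * (n + 1) ≤
      Nd * d * (1 - m + ((n : ℝ) + 1) / d) ^ (n + 1) := by
    have h7 : ((n + 1).factorial : ℝ) * ((n + d - θ).choose (n + 1) : ℝ) ≤
        ((n + d - θ : ℕ) : ℝ) ^ (n + 1) := by
      have h8 : (n + 1).factorial * (n + d - θ).choose (n + 1) ≤ (n + d - θ) ^ (n + 1) := by
        rw [← Nat.descFactorial_eq_factorial_mul_choose]
        exact Nat.descFactorial_le_pow _ _
      exact_mod_cast h8
    have h8 : ((n + d - θ : ℕ) : ℝ) ≤ d * (1 - m + ((n : ℝ) + 1) / d) := by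
      have h9 : ((n + d - θ : ℕ) : ℝ) = n + d - θ := by
        rw [Nat.cast_sub (by omega)]
        push_cast
        ring
      have h10 : (d : ℝ) * (1 - m + ((n : ℝ) + 1) / d) = d - m * d + (n + 1) := by
        field_simp
      rw [h9, h10]
      linarith
    have h9 : ((n + 1).factorial : ℝ) = (n + 1) * n.factorial := by
      rw [Nat.factorial_succ]
      push_cast
      ring
    have h10 : (n.factorial : ℝ) * (((n + d - θ).choose (n + 1) : ℝ) * (n + 1)) ≤
        n.factorial * (Nd * d * (1 - m + ((n : ℝ) + 1) / d) ^ (n + 1)) := by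
      have e1 : (n.factorial : ℝ) * (((n + d - θ).choose (n + 1) : ℝ) * (n + 1)) =
          ((n + 1).factorial : ℝ) * ((n + d - θ).choose (n + 1) : ℝ) := by
        rw [h9]
        ring
      rw [e1]
      have h11 : ((n + d - θ : ℕ) : ℝ) ^ (n + 1) ≤
          (d * (1 - m + ((n : ℝ) + 1) / d)) ^ (n + 1) :=
        pow_le_pow_left₀ (Nat.cast_nonneg _) h8 _
      refine h7.trans (h11.trans ?_)
      rw [mul_pow, pow_succ (d : ℝ) n]
      have h12 : 0 ≤ (1 - m + ((n : ℝ) + 1) / d) ^ (n + 1) := by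
        refine pow_nonneg ?_ _
        have : 0 ≤ ((n : ℝ) + 1) / d := by positivity
        linarith
      have h13 := mul_le_mul_of_nonneg_right (mul_le_mul_of_nonneg_right h5 hd0.le) h12
      refine h13.trans (le_of_eq ?_)
      ring
    exact le_of_mul_le_mul_left h10 hf
  rw [h3]
  have h7 : ((n + d).choose (n + 1) : ℝ) = Nd * d / (n + 1) := by
    rw [eq_div_iff hn0.ne']
    exact h4
  have h8 : ((n + d - θ).choose (n + 1) : ℝ) ≤
      Nd * d * (1 - m + ((n : ℝ) + 1) / d) ^ (n + 1) / (n + 1) := by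
    rw [le_div_iff₀ hn0]
    exact h6
  rw [h7]
  have h9 : (θ : ℝ) * Nd - r * (θ * Nd + ((n + d - θ).choose (n + 1) : ℝ) - Nd * d / (n + 1)) =
      r * (Nd * d / (n + 1)) - (r - 1) * (θ * Nd) - r * ((n + d - θ).choose (n + 1) : ℝ) := by
    ring
  rw [h9]
  have h10 := mul_le_mul_of_nonneg_left h8 (by linarith : (0 : ℝ) ≤ r)
  have h11 : (r - 1) * ((θ : ℝ) * Nd) ≤ (r - 1) * (m * d * Nd) :=
    mul_le_mul_of_nonneg_left (mul_le_mul_of_nonneg_right hθ1 hNd0.le) (by linarith)
  have h12 := mul_le_mul_of_nonneg_left hd.le (mul_pos hd0 hNd0).le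
  have h13 : r * (Nd * d * (1 - m + ((n : ℝ) + 1) / d) ^ (n + 1) / (n + 1)) =
      d * Nd * ((r : ℝ) / (n + 1) * (1 - m + ((n : ℝ) + 1) / d) ^ (n + 1)) := by
    field_simp
  rw [h13] at h10
  have h14 : (d : ℝ) * Nd * ((r : ℝ) / (n + 1) * (1 - (1 - m) ^ (n + 1)) - (r - 1) * m - ε) =
      r * (Nd * d / (n + 1)) - (r - 1) * (m * d * Nd) -
        d * Nd * ((r : ℝ) / (n + 1) * (1 - m) ^ (n + 1) + ε) := by
    field_simp
    ring
  rw [h14]
  linarith

end Pool.Agent.T9h24
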