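import Mathlib
import Pool.Agent.T9h24.Vec
import Pool.Agent.T9h24.Dom

/-!
Linear substitutions in forms.
-/

set_option autoImplicit false
set_option linter.unusedSectionVars false

open Finset MvPolynomial

namespace Pool.Agent.T9h24

variable {R : Type} [CommRing R] {n : ℕ}

/-- the linear substitution -/
noncomputable def sb (Λ : Fin (n + 1) → Fin (n + 1) → R) :
    MvPolynomial (Fin (n + 1)) R →ₐ[R] MvPolynomial (Fin (n + 1)) R :=
  MvPolynomial.aeval fun j => ∑ k, C (Λ k j) * X k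

theorem sb_X (Λ : Fin (n + 1) → Fin (n + 1) → R) (j : Fin (n + 1)) :
    sb Λ (X j) = ∑ k, C (Λ k j) * X k := by
  unfold sb
  rw [aeval_X]

theorem sb_C (Λ : Fin (n + 1) → Fin (n + 1) → R) (c : R) : sb Λ (C c) = C c := by
  unfold sb
  rw [aeval_C]
  rfl

theorem sb_map {R' : Type} [CommRing R'] (f : R →+* R') (Λ : Fin (n + 1) → Fin (n + 1) → R)
    (P : MvPolynomial (Fin (n + 1)) R) :
    MvPolynomial.map f (sb Λ P) = sb (fun k j => f (Λ k j)) (MvPolynomial.map f P) := by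
  have h1 : (MvPolynomial.map f).comp (sb Λ : MvPolynomial (Fin (n + 1)) R →+*
      MvPolynomial (Fin (n + 1)) R) = ((sb (fun k j => f (Λ k j)) :
        MvPolynomial (Fin (n + 1)) R' →ₐ[R'] MvPolynomial (Fin (n + 1)) R') :
        MvPolynomial (Fin (n + 1)) R' →+* MvPolynomial (Fin (n + 1)) R').comp
        (MvPolynomial.map f) := by
    apply MvPolynomial.ringHom_ext
    · intro c
      simp only [RingHom.comp_apply, RingHom.coe_coe, sb_C, map_C]
    · intro j
      simp only [RingHom.comp_apply, RingHom.coe_coe, sb_X, map_X, map_sum, map_mul, map_C]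
  exact congrArg (fun φ : MvPolynomial (Fin (n + 1)) R →+* MvPolynomial (Fin (n + 1)) R' => φ P) h1

theorem lin_hom (c : Fin (n + 1) → R) :
    (∑ k, C (c k) * X k : MvPolynomial (Fin (n + 1)) R).IsHomogeneous 1 := by
  refine MvPolynomial.IsHomogeneous.sum _ _ _ fun k _ => ?_
  have h3 := (MvPolynomial.isHomogeneous_C (Fin (n + 1)) (c k)).mul
    (MvPolynomial.isHomogeneous_X R k)
  rwa [zero_add] at h3

theorem sb_monomial (Λ : Fin (n + 1) → Fin (n + 1) → R) (a : Fin (n + 1) →₀ ℕ) (c : R) :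
    sb Λ (monomial a c) = C c * ∏ j, (∑ k, C (Λ k j) * X k) ^ a j := by
  unfold sb
  rw [aeval_monomial, Finsupp.prod_fintype _ _ fun j => pow_zero _]
  rfl

theorem sb_hom (Λ : Fin (n + 1) → Fin (n + 1) → R) {d : ℕ} {P : MvPolynomial (Fin (n + 1)) R}
    (hP : P.IsHomogeneous d) : (sb Λ P).IsHomogeneous d := by
  classical
  rw [eq_PY P hP]
  unfold PY
  rw [map_sum]
  refine MvPolynomial.IsHomogeneous.sum _ _ _ fun i _ => ?_
  rw [sb_monomial]
  have h1 : (∏ j, (∑ k, C (Λ k j) * X k : MvPolynomial (Fin (n + 1)) R) ^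
      ((ee n d i : AD n d) : Fin (n + 1) →₀ ℕ) j).IsHomogeneous d := by
    have h2 := MvPolynomial.IsHomogeneous.prod (Finset.univ : Finset (Fin (n + 1)))
      (fun j => (∑ k, C (Λ k j) * X k : MvPolynomial (Fin (n + 1)) R) ^
      ((ee n d i : AD n d) : Fin (n + 1) →₀ ℕ) j)
      (fun j => 1 * ((ee n d i : AD n d) : Fin (n + 1) →₀ ℕ) j)
      (fun j _ => (lin_hom (fun k => Λ k j)).pow _)
    have h3 := mem_AD.1 (ee n d i).2
    rw [Finsupp.degree_eq_sum] at h3
    simp only [one_mul] at h2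
    rwa [h3] at h2
  have h4 := (MvPolynomial.isHomogeneous_C (Fin (n + 1)) (P.coeff
    ((ee n d i : AD n d) : Fin (n + 1) →₀ ℕ))).mul h1
  rwa [zero_add] at h4

/-- the substitution in a linear form -/
theorem sb_lin (Λ : Fin (n + 1) → Fin (n + 1) → R) (ℓ : Fin (n + 1) → R) :
    sb Λ (∑ j, C (ℓ j) * X j) = ∑ k, C (∑ j, Λ k j * ℓ j) * X k := by
  rw [map_sum]
  simp only [map_mul, sb_C, sb_X, Finset.mul_sum, map_sum, Finset.sum_mul]
  rw [Finset.sum_comm]
  refine Finset.sum_congr rfl fun k _ => Finset.sum_congr rfl fun j _ => ?_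
  ring

theorem sb_sb (Λ Λ' : Fin (n + 1) → Fin (n + 1) → R)
    (h : Matrix.of Λ' * Matrix.of Λ = 1) (P : MvPolynomial (Fin (n + 1)) R) :
    sb Λ' (sb Λ P) = P := by
  have h1 : (sb Λ').comp (sb Λ) = AlgHom.id R _ := by
    apply MvPolynomial.algHom_ext
    intro j
    rw [AlgHom.comp_apply, sb_X, sb_lin, AlgHom.id_apply]
    have h2 : ∀ k, ∑ i, Λ' k i * Λ i j = (1 : Matrix (Fin (n + 1)) (Fin (n + 1)) R) k j := by
      intro k
      rw [← h, Matrix.mul_apply]
      rfl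
    simp only [h2]
    rw [Finset.sum_eq_single j]
    · rw [Matrix.one_apply_eq, map_one, one_mul]
    · intro k _ hk
      rw [Matrix.one_apply_ne hk, map_zero, zero_mul]
    · intro hj
      exact absurd (Finset.mem_univ j) hj
  exact congrArg (fun φ : MvPolynomial (Fin (n + 1)) R →ₐ[R] MvPolynomial (Fin (n + 1)) R => φ P) h1

/-- the matrix of the substitution on forms of degree `D` -/
noncomputable def wm (Λ : Fin (n + 1) → Fin (n + 1) → R) (D : ℕ) :
    Matrix (Fin (NN n D)) (Fin (NN n D)) R :=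
  Matrix.of fun i' i => (sb Λ (monomial ((ee n D i' : AD n D) : Fin (n + 1) →₀ ℕ) 1)).coeff
    ((ee n D i : AD n D) : Fin (n + 1) →₀ ℕ)

theorem coeff_sb (Λ : Fin (n + 1) → Fin (n + 1) → R) {D : ℕ} {P : MvPolynomial (Fin (n + 1)) R}
    (hP : P.IsHomogeneous D) (a : Fin (n + 1) →₀ ℕ) :
    (sb Λ P).coeff a = ∑ i', P.coeff ((ee n D i' : AD n D) : Fin (n + 1) →₀ ℕ) *
      (sb Λ (monomial ((ee n D i' : AD n D) : Fin (n + 1) →₀ ℕ) 1)).coeff a := by
  conv_lhs => rw [eq_PY P hP]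
  unfold PY
  rw [map_sum, coeff_sum]
  refine Finset.sum_congr rfl fun i' _ => ?_
  have h1 : monomial ((ee n D i' : AD n D) : Fin (n + 1) →₀ ℕ)
      (P.coeff ((ee n D i' : AD n D) : Fin (n + 1) →₀ ℕ)) =
      C (P.coeff ((ee n D i' : AD n D) : Fin (n + 1) →₀ ℕ)) *
        monomial ((ee n D i' : AD n D) : Fin (n + 1) →₀ ℕ) 1 := by
    rw [C_mul_monomial, mul_one]
  show (sb Λ (monomial ((ee n D i' : AD n D) : Fin (n + 1) →₀ ℕ)
      (P.coeff ((ee n D i' : AD n D) : Fin (n + 1) →₀ ℕ)))).coeff a = _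
  rw [h1, map_mul, sb_C, coeff_C_mul]

theorem det_wm {F : Type} [Field F] (Λ : Fin (n + 1) → Fin (n + 1) → F)
    (hΛ : (Matrix.of Λ).det ≠ 0) (D : ℕ) : (wm Λ D).det ≠ 0 := by
  classical
  set Λ' : Fin (n + 1) → Fin (n + 1) → F := fun i j => (Matrix.of Λ)⁻¹ i j with hΛ'
  have h1 : Matrix.of Λ' * Matrix.of Λ = 1 := by
    have h2 : Matrix.of Λ' = (Matrix.of Λ)⁻¹ := rfl
    rw [h2]
    exact Matrix.nonsing_inv_mul _ (isUnit_iff_ne_zero.2 hΛ)
  have h2 : wm Λ D * wm Λ' D = 1 := by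
    ext i j
    rw [Matrix.mul_apply]
    have h3 := coeff_sb Λ' (sb_hom Λ (isHomogeneous_monomial (R := F) 1
      (mem_AD.1 (ee n D i).2))) ((ee n D j : AD n D) : Fin (n + 1) →₀ ℕ)
    rw [sb_sb Λ Λ' h1, coeff_monomial] at h3
    have h4 : ∑ x, wm Λ D i x * wm Λ' D x j = ∑ i', (sb Λ (monomial
        ((ee n D i : AD n D) : Fin (n + 1) →₀ ℕ) 1)).coeff
        ((ee n D i' : AD n D) : Fin (n + 1) →₀ ℕ) *
      (sb Λ' (monomial ((ee n D i' : AD n D) : Fin (n + 1) →₀ ℕ) 1)).coeff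
        ((ee n D j : AD n D) : Fin (n + 1) →₀ ℕ) := rfl
    rw [h4, ← h3, Matrix.one_apply]
    by_cases hij : i = j
    · subst hij
      rw [if_pos rfl, if_pos rfl]
    · rw [if_neg hij, if_neg]
      intro h5
      exact hij ((ee n D).injective (Subtype.ext h5))
  intro h3
  have h4 := congrArg Matrix.det h2
  rw [Matrix.det_mul, h3, zero_mul, Matrix.det_one] at h4
  exact zero_ne_one h4

/-- the coefficients after the substitution -/
theorem det_sb {F : Type} [Field F] (Λ : Fin (n + 1) → Fin (n + 1) → F) (D : ℕ)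
    (P : Fin (NN n D) → MvPolynomial (Fin (n + 1)) F) (hP : ∀ ρ, (P ρ).IsHomogeneous D) :
    (Matrix.of fun ρ i => (sb Λ (P ρ)).coeff ((ee n D i : AD n D) : Fin (n + 1) →₀ ℕ)).det =
      (Matrix.of fun ρ i => (P ρ).coeff ((ee n D i : AD n D) : Fin (n + 1) →₀ ℕ)).det *
        (wm Λ D).det := by
  classical
  rw [← Matrix.det_mul]
  congr 1
  ext ρ i
  rw [Matrix.of_apply, coeff_sb Λ (hP ρ), Matrix.mul_apply]
  rfl

end Pool.Agent.T9h24
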