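import Mathlib
import Pool.Agent.T9h24.Sub

/-!
The estimate of a determinant of products of companions at one place.
-/

set_option autoImplicit false
set_option linter.unusedSectionVars false

open Finset MvPolynomial

namespace Pool.Agent.T9h24

variable {n : ℕ} {F : Type} [NormedField F]

/-- a linear form -/
noncomputable def lf (L y : Fin (n + 1) → F) : F := ∑ j, L j * y j

theorem norm_lf_le (L y : Fin (n + 1) → F) : ‖lf L y‖ ≤ ((n : ℝ) + 1) * ‖L‖ * ‖y‖ := by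
  unfold lf
  refine (norm_sum_le _ _).trans ?_
  have h1 : ∀ j ∈ (Finset.univ : Finset (Fin (n + 1))), ‖L j * y j‖ ≤ ‖L‖ * ‖y‖ := by
    intro j _
    rw [norm_mul]
    exact mul_le_mul (norm_le_pi_norm L j) (norm_le_pi_norm y j) (norm_nonneg _) (norm_nonneg _)
  refine (Finset.sum_le_sum h1).trans (le_of_eq ?_)
  rw [Finset.sum_const, Finset.card_univ, Fintype.card_fin, nsmul_eq_mul]
  push_cast
  ring

open Classical in
/-- the costs -/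
noncomputable def uu (Λ : Fin (n + 1) → Fin (n + 1) → F) {H : Type} (ℓ : H → Fin (n + 1) → F)
    (τ : H) (k : Fin (n + 1)) : ℝ :=
  if lf (Λ k) (ℓ τ) = 0 then 0
  else Real.log (((n : ℝ) + 1) * ‖Λ k‖ * ‖ℓ τ‖ / ‖lf (Λ k) (ℓ τ)‖)

theorem uu_nonneg (Λ : Fin (n + 1) → Fin (n + 1) → F) {H : Type} (ℓ : H → Fin (n + 1) → F)
    (τ : H) (k : Fin (n + 1)) : 0 ≤ uu Λ ℓ τ k := by
  unfold uu
  split_ifs with h
  · exact le_rfl
  · refine Real.log_nonneg ?_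
    rw [one_le_div (norm_pos_iff.2 h)]
    exact norm_lf_le _ _

/-- a common bound -/
noncomputable def AA (Λ : Fin (n + 1) → Fin (n + 1) → F) : ℝ :=
  1 + ∑ k, ((n : ℝ) + 1) * ‖Λ k‖

theorem one_le_AA (Λ : Fin (n + 1) → Fin (n + 1) → F) : 1 ≤ AA Λ := by
  unfold AA
  have : 0 ≤ ∑ k, ((n : ℝ) + 1) * ‖Λ k‖ := Finset.sum_nonneg fun k _ => by positivity
  linarith

theorem le_AA (Λ : Fin (n + 1) → Fin (n + 1) → F) (k : Fin (n + 1)) :
    ((n : ℝ) + 1) * ‖Λ k‖ ≤ AA Λ := by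
  unfold AA
  have := Finset.single_le_sum (f := fun k => ((n : ℝ) + 1) * ‖Λ k‖)
    (fun k _ => by positivity) (Finset.mem_univ k)
  linarith

theorem norm_le_AA (Λ : Fin (n + 1) → Fin (n + 1) → F) (k j : Fin (n + 1)) :
    ‖Λ k j‖ ≤ AA Λ := by
  refine le_trans ?_ (le_AA Λ k)
  have h1 := norm_le_pi_norm (Λ k) j
  have h2 : (0 : ℝ) ≤ (n : ℝ) * ‖Λ k‖ := by positivity
  linarith

theorem lf_le_exp (Λ : Fin (n + 1) → Fin (n + 1) → F) {H : Type} (ℓ : H → Fin (n + 1) → F)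
    (τ : H) (k : Fin (n + 1)) :
    ‖lf (Λ k) (ℓ τ)‖ ≤ AA Λ * ‖ℓ τ‖ * Real.exp (-(uu Λ ℓ τ k)) := by
  have hA := one_le_AA Λ
  unfold uu
  split_ifs with h
  · rw [h, norm_zero]
    positivity
  · have h1 : 0 < ‖lf (Λ k) (ℓ τ)‖ := norm_pos_iff.2 h
    have h2 : 0 < ((n : ℝ) + 1) * ‖Λ k‖ * ‖ℓ τ‖ := h1.trans_le (norm_lf_le _ _)
    rw [Real.exp_neg, Real.exp_log (div_pos h2 h1), inv_div, mul_div_assoc']
    rw [le_div_iff₀ h2]
    have h3 := mul_le_mul_of_nonneg_right (le_AA Λ k) (norm_nonneg (ℓ τ))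
    have h4 := mul_le_mul_of_nonneg_left h3 h1.le
    linarith

/-- **The estimate at one place.** -/
theorem loc_place (Λ : Fin (n + 1) → Fin (n + 1) → F) (hΛ : (Matrix.of Λ).det ≠ 0)
    (r j m0 : ℕ) : ∃ Cc : ℝ, 0 ≤ Cc ∧ ∀ {H : Type} [Fintype H] [DecidableEq H],
      Fintype.card H = r → ∀ ℓ : H → Fin (n + 1) → F, (∀ τ, ℓ τ ≠ 0) →
      ∀ (y : Fin (NN n r) → F) (gg : F), gg ≠ 0 →
      C gg * PY F y = ∏ τ, ∑ j, C (ℓ τ j) * X j →
      ∀ {m : ℕ} (g : Fin m → Fin (NN n r) → F) (R : ℝ), 0 < R →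
      (∀ k a, ‖(sb Λ (PY F (g k))).coeff a‖ ≤ R * ‖(sb Λ (PY F y)).coeff a‖) →
      ∀ (κ : Fin (NN n (j * r + m0)) → Fin j → Fin m) (b : Fin (NN n (j * r + m0)) → AD n m0),
      (Matrix.of fun ρ i => ((∏ i', PY F (g (κ ρ i'))) *
        monomial (b ρ : Fin (n + 1) →₀ ℕ) (1 : F)).coeff
          ((ee n (j * r + m0) i : AD n (j * r + m0)) : Fin (n + 1) →₀ ℕ)).det ≠ 0 →
      Real.log ‖(Matrix.of fun ρ i => ((∏ i', PY F (g (κ ρ i'))) *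
        monomial (b ρ : Fin (n + 1) →₀ ℕ) (1 : F)).coeff
          ((ee n (j * r + m0) i : AD n (j * r + m0)) : Fin (n + 1) →₀ ℕ)).det‖ ≤
        (NN n (j * r + m0) : ℝ) * (j * (Real.log R + (∑ τ, Real.log ‖ℓ τ‖ - Real.log ‖gg‖))) +
          Cc - (j.descFactorial (n + 1) : ℝ) / ((n + 1).factorial : ℝ) *
          ∑ σ : Fin (n + 1) → H, td (uu Λ ℓ) σ := by
  classical
  set D := j * r + m0 with hD
  have hA := one_le_AA Λ
  have hA0 : 0 < AA Λ := by linarith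
  have hlA : 0 ≤ Real.log (AA Λ) := Real.log_nonneg hA
  set NR : ℝ := (NN n D : ℝ) with hNR
  have hln : 0 ≤ Real.log ((n : ℝ) + 1) := Real.log_nonneg (by
    have : (0 : ℝ) ≤ n := Nat.cast_nonneg n
    linarith)
  have hf0 : 0 ≤ Real.log ((NN n D).factorial : ℝ) :=
    Real.log_natCast_nonneg _
  refine ⟨|Real.log ‖(wm Λ D).det‖| + Real.log ((NN n D).factorial : ℝ) +
    NR * ((j * r + m0) * Real.log (AA Λ)) + NR * (D * Real.log ((n : ℝ) + 1)), by positivity,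
    fun {H} _ _ hH ℓ hℓ y gg hgg hfac {m} g R hR hcomp κ b hdet => ?_⟩
  set u := uu Λ ℓ with hu
  have hu0 : ∀ τ k, 0 ≤ u τ k := fun τ k => uu_nonneg Λ ℓ τ k
  set P : Fin (NN n D) → MvPolynomial (Fin (n + 1)) F := fun ρ => (∏ i', PY F (g (κ ρ i'))) *
    monomial (b ρ : Fin (n + 1) →₀ ℕ) (1 : F) with hP
  have hPh : ∀ ρ, (P ρ).IsHomogeneous D := by
    intro ρ
    have h1 := MvPolynomial.IsHomogeneous.prod (Finset.univ : Finset (Fin j))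
      (fun i' => PY F (g (κ ρ i'))) (fun _ => r) fun i' _ => PY_hom _
    rw [Finset.sum_const, Finset.card_univ, Fintype.card_fin, smul_eq_mul] at h1
    exact h1.mul (isHomogeneous_monomial (R := F) 1 (mem_AD.1 (b ρ).2))
  set B1 : ℝ := R * (‖gg‖⁻¹ * (AA Λ ^ r * ∏ τ, ‖ℓ τ‖)) with hB1
  have hgg0 : 0 < ‖gg‖ := norm_pos_iff.2 hgg
  have hℓ0 : 0 < ∏ τ, ‖ℓ τ‖ := Finset.prod_pos fun τ _ => norm_pos_iff.2 (hℓ τ)
  have hAr : 0 < AA Λ ^ r := pow_pos hA0 _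
  have hAm : 0 < AA Λ ^ m0 := pow_pos hA0 _
  have hggi : 0 < ‖gg‖⁻¹ := inv_pos.2 hgg0
  have hAl : 0 < AA Λ ^ r * ∏ τ, ‖ℓ τ‖ := mul_pos hAr hℓ0
  have hgAl : 0 < ‖gg‖⁻¹ * (AA Λ ^ r * ∏ τ, ‖ℓ τ‖) := mul_pos hggi hAl
  have hB10 : 0 < B1 := mul_pos hR hgAl
  have hB1j : 0 < B1 ^ j := pow_pos hB10 _
  -- the form of the point
  have hy : Dm (sb Λ (PY F y)) (C (‖gg‖⁻¹ * (AA Λ ^ r * ∏ τ, ‖ℓ τ‖)) * pw u) := by
    have h1 : sb Λ (PY F y) = C gg⁻¹ * ∏ τ, ∑ k, C (lf (Λ k) (ℓ τ)) * X k := by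
      have h2 : sb Λ (C gg * PY F y) = ∏ τ, ∑ k, C (lf (Λ k) (ℓ τ)) * X k := by
        rw [hfac, map_prod]
        exact Finset.prod_congr rfl fun τ _ => sb_lin Λ (ℓ τ)
      rw [map_mul, sb_C] at h2
      rw [← h2, ← mul_assoc, ← C_mul, inv_mul_cancel₀ hgg, C_1, one_mul]
    rw [h1]
    have h2 : Dm (∏ τ, ∑ k, C (lf (Λ k) (ℓ τ)) * X k : MvPolynomial (Fin (n + 1)) F)
        (∏ τ, ∑ k, C (AA Λ * ‖ℓ τ‖ * Real.exp (-(u τ k))) * X k) :=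
      Dm.prod _ _ _ fun τ _ => Dm.lin _ _ fun k => lf_le_exp Λ ℓ τ k
    have h3 : (∏ τ, ∑ k, C (AA Λ * ‖ℓ τ‖ * Real.exp (-(u τ k))) * X k :
        MvPolynomial (Fin (n + 1)) ℝ) = C (AA Λ ^ r * ∏ τ, ‖ℓ τ‖) * pw u := by
      unfold pw
      have h4 : ∀ τ : H, (∑ k, C (AA Λ * ‖ℓ τ‖ * Real.exp (-(u τ k))) * X k :
          MvPolynomial (Fin (n + 1)) ℝ) = C (AA Λ * ‖ℓ τ‖) *
            ∑ k, C (Real.exp (-(u τ k))) * X k := by
        intro τ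
        rw [Finset.mul_sum]
        refine Finset.sum_congr rfl fun k _ => ?_
        rw [C_mul (a := AA Λ * ‖ℓ τ‖), mul_assoc]
      simp only [h4]
      rw [Finset.prod_mul_distrib]
      congr 1
      rw [← map_prod, Finset.prod_mul_distrib, Finset.prod_const, Finset.card_univ, hH]
    rw [h3] at h2
    have h5 : Dm (C gg⁻¹ : MvPolynomial (Fin (n + 1)) F) (C ‖gg‖⁻¹) :=
      Dm.C (by rw [norm_inv])
    have h6 := h5.mul h2
    rw [← mul_assoc, ← C_mul] at h6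
    exact h6
  have hg : ∀ k, Dm (sb Λ (PY F (g k))) (C B1 * pw u) := by
    intro k a
    refine (hcomp k a).trans ?_
    rw [hB1, C_mul, mul_assoc, coeff_C_mul]
    exact mul_le_mul_of_nonneg_left (hy a) hR.le
  have hmono : ∀ a : AD n m0, Dm (sb Λ (monomial (a : Fin (n + 1) →₀ ℕ) (1 : F)))
      (C (AA Λ ^ m0) * (∑ k : Fin (n + 1), X k) ^ m0) := by
    intro a
    rw [sb_monomial, C_1, one_mul]
    have h1 : Dm (∏ j, (∑ k, C (Λ k j) * X k : MvPolynomial (Fin (n + 1)) F) ^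
        (a : Fin (n + 1) →₀ ℕ) j) (∏ j, (∑ k, C (AA Λ) * X k : MvPolynomial (Fin (n + 1)) ℝ) ^
        (a : Fin (n + 1) →₀ ℕ) j) :=
      Dm.prod _ _ _ fun j _ => (Dm.lin _ _ fun k => norm_le_AA Λ k j).pow _
    have h2 : (∏ j, (∑ k, C (AA Λ) * X k : MvPolynomial (Fin (n + 1)) ℝ) ^
        (a : Fin (n + 1) →₀ ℕ) j) = C (AA Λ ^ m0) * (∑ k : Fin (n + 1), X k) ^ m0 := by
      rw [Finset.prod_pow_eq_pow_sum]
      have h3 := mem_AD.1 a.2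
      rw [Finsupp.degree_eq_sum] at h3
      rw [h3, ← Finset.mul_sum, mul_pow, map_pow]
    rw [h2] at h1
    exact h1
  have hPρ : ∀ ρ, Dm (sb Λ (P ρ)) (C (B1 ^ j * AA Λ ^ m0) * (pw u ^ j *
      (∑ k : Fin (n + 1), X k) ^ m0)) := by
    intro ρ
    rw [hP]
    simp only [map_mul, map_prod]
    have h1 : Dm (∏ i', sb Λ (PY F (g (κ ρ i')))) (∏ _i' : Fin j, (C B1 * pw u)) :=
      Dm.prod _ _ _ fun i' _ => hg _
    rw [Finset.prod_const, Finset.card_univ, Fintype.card_fin, mul_pow, ← map_pow] at h1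
    have h2 := h1.mul (hmono (b ρ))
    have h3 : C (B1 ^ j) * pw u ^ j * (C (AA Λ ^ m0) * (∑ k : Fin (n + 1), X k) ^ m0) =
        C (B1 ^ j) * C (AA Λ ^ m0) * (pw u ^ j *
          (∑ k : Fin (n + 1), X k) ^ m0) := by ring
    rw [h3] at h2
    exact h2
  have hsbdet := det_sb Λ D P hPh
  have hw := det_wm Λ hΛ D
  have hdet' : (Matrix.of fun ρ i => (sb Λ (P ρ)).coeff
      ((ee n D i : AD n D) : Fin (n + 1) →₀ ℕ)).det ≠ 0 := by
    rw [hsbdet]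
    exact mul_ne_zero hdet hw
  have h1 := loc_det u hu0 j m0 D (by rw [hH]) (ee n D) (fun ρ => sb Λ (P ρ))
    (B1 ^ j * AA Λ ^ m0) (mul_pos hB1j hAm) hPρ hdet'
  rw [hsbdet, norm_mul, Real.log_mul (norm_ne_zero_iff.2 hdet) (norm_ne_zero_iff.2 hw),
    Fintype.card_fin, Real.log_mul hB1j.ne' hAm.ne', Real.log_pow, Real.log_pow] at h1
  have hB1l : Real.log B1 = Real.log R + (∑ τ, Real.log ‖ℓ τ‖ - Real.log ‖gg‖) +
      r * Real.log (AA Λ) := by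
    rw [hB1, Real.log_mul hR.ne' hgAl.ne', Real.log_mul hggi.ne' hAl.ne',
      Real.log_mul hAr.ne' hℓ0.ne', Real.log_inv, Real.log_pow,
      Real.log_prod fun τ _ => (norm_pos_iff.2 (hℓ τ)).ne']
    ring
  rw [hB1l] at h1
  have h2 := neg_abs_le (Real.log ‖(wm Λ D).det‖)
  have h3 : NR * (j * (Real.log R + (∑ τ, Real.log ‖ℓ τ‖ - Real.log ‖gg‖) +
      r * Real.log (AA Λ)) + m0 * Real.log (AA Λ)) =
      NR * (j * (Real.log R + (∑ τ, Real.log ‖ℓ τ‖ - Real.log ‖gg‖))) +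
        NR * ((j * r + m0) * Real.log (AA Λ)) := by ring
  rw [h3] at h1
  linarith

end Pool.Agent.T9h24
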