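import Mathlib

/-!
Integral points where linear forms are not small.
-/

set_option autoImplicit false
set_option linter.unusedSectionVars false

open Finset

namespace Pool.Agent.T9h24

theorem exists_lower (F : Type) [NormedField F] [CharZero F] (r : ℕ) : ∃ δ : ℝ, 0 < δ ∧
    ∀ m : ℤ, m ≠ 0 → |m| ≤ r → δ ≤ ‖(m : F)‖ := by
  classical
  set s : Finset ℤ := (Finset.Icc (-(r : ℤ)) r).erase 0 with hs
  set δ : ℝ := ∏ m ∈ s, min 1 ‖(m : F)‖ with hδ
  have hpos : ∀ m ∈ s, 0 < min 1 ‖(m : F)‖ := by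
    intro m hm
    refine lt_min one_pos (norm_pos_iff.2 ?_)
    exact_mod_cast (Finset.mem_erase.1 hm).1
  refine ⟨δ, Finset.prod_pos hpos, fun m hm hmr => ?_⟩
  have hms : m ∈ s := by
    rw [hs, Finset.mem_erase, Finset.mem_Icc]
    exact ⟨hm, abs_le.1 hmr⟩
  rw [hδ, ← Finset.mul_prod_erase _ _ hms]
  have h1 : ∏ m ∈ s.erase m, min 1 ‖(m : F)‖ ≤ 1 :=
    Finset.prod_le_one (fun m' hm' => (hpos m' (Finset.mem_of_mem_erase hm')).le)
      fun m' _ => min_le_left _ _
  have h2 := hpos m hms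
  calc min 1 ‖(m : F)‖ * ∏ m ∈ s.erase m, min 1 ‖(m : F)‖ ≤ min 1 ‖(m : F)‖ * 1 :=
        mul_le_mul_of_nonneg_left h1 h2.le
    _ ≤ ‖(m : F)‖ := by rw [mul_one]; exact min_le_right _ _

/-- linear forms are not small simultaneously at some integral point of a box -/
theorem grid (F : Type) [NormedField F] [CharZero F] (n r : ℕ) : ∃ c : ℝ, 0 < c ∧
    ∀ (H : Type) [Fintype H], Fintype.card H = r → ∀ ℓ : H → Fin (n + 1) → F,
      ∃ t : Fin (n + 1) → Fin (r + 1), ∀ τ, c * ‖ℓ τ‖ ≤ ‖∑ j, ℓ τ j * (((t j : ℕ) : ℤ) : F)‖ := by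
  classical
  obtain ⟨δ, hδ, hδr⟩ := exists_lower F r
  refine ⟨δ / 2, by positivity, fun H _ hH ℓ => ?_⟩
  by_contra hcon
  push Not at hcon
  set bad : H → Finset (Fin (n + 1) → Fin (r + 1)) := fun τ =>
    Finset.univ.filter fun t => ‖∑ j, ℓ τ j * (((t j : ℕ) : ℤ) : F)‖ < δ / 2 * ‖ℓ τ‖ with hbad
  have hcov : (Finset.univ : Finset (Fin (n + 1) → Fin (r + 1))) ⊆ Finset.univ.biUnion bad := by
    intro t _
    obtain ⟨τ, hτ⟩ := hcon t
    exact Finset.mem_biUnion.2 ⟨τ, Finset.mem_univ τ,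
      Finset.mem_filter.2 ⟨Finset.mem_univ t, hτ⟩⟩
  have hcard : ∀ τ, (bad τ).card ≤ (r + 1) ^ n := by
    intro τ
    obtain ⟨j0, -, hj0⟩ := Finset.exists_max_image (Finset.univ : Finset (Fin (n + 1)))
      (fun j => ‖ℓ τ j‖) Finset.univ_nonempty
    have hnorm : ‖ℓ τ‖ ≤ ‖ℓ τ j0‖ :=
      (pi_norm_le_iff_of_nonneg (norm_nonneg _)).2 fun j => hj0 j (Finset.mem_univ j)
    have h1 : (bad τ).card ≤ (Finset.univ : Finset (Fin n → Fin (r + 1))).card := by
      refine Finset.card_le_card_of_injOn (fun t => fun i => t (j0.succAbove i))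
        (fun _ _ => Finset.mem_univ _) ?_
      intro t ht t' ht' htt
      have htt' : ∀ i, t (j0.succAbove i) = t' (j0.succAbove i) := fun i => congrFun htt i
      have h2 := (Finset.mem_filter.1 (Finset.mem_coe.1 ht)).2
      have h3 := (Finset.mem_filter.1 (Finset.mem_coe.1 ht')).2
      by_contra hne
      have hj : t j0 ≠ t' j0 := by
        intro h
        apply hne
        funext j
        rcases Fin.eq_self_or_eq_succAbove j0 j with h' | ⟨i, hi⟩
        · rw [h', h]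
        · rw [hi]
          exact htt' i
      set m : ℤ := ((t j0 : ℕ) : ℤ) - ((t' j0 : ℕ) : ℤ) with hm
      have hm0 : m ≠ 0 := by
        intro h
        apply hj
        apply Fin.ext
        omega
      have hmr : |m| ≤ r := by
        have h4 := (t j0).2
        have h5 := (t' j0).2
        rw [abs_le]
        omega
      have h4 := hδr m hm0 hmr
      have h5 : (∑ j, ℓ τ j * (((t j : ℕ) : ℤ) : F)) - (∑ j, ℓ τ j * (((t' j : ℕ) : ℤ) : F)) =
          ℓ τ j0 * (m : F) := by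
        rw [Fin.sum_univ_succAbove _ j0, Fin.sum_univ_succAbove _ j0]
        simp only [htt']
        rw [hm]
        push_cast
        ring
      have h6 := norm_sub_le (∑ j, ℓ τ j * (((t j : ℕ) : ℤ) : F))
        (∑ j, ℓ τ j * (((t' j : ℕ) : ℤ) : F))
      rw [h5, norm_mul] at h6
      have h7 : ‖ℓ τ‖ * δ ≤ ‖ℓ τ j0‖ * ‖(m : F)‖ :=
        mul_le_mul hnorm h4 hδ.le (norm_nonneg _)
      linarith
    refine h1.trans (le_of_eq ?_)
    rw [Finset.card_univ, Fintype.card_fun, Fintype.card_fin, Fintype.card_fin]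
  have h1 := (Finset.card_le_card hcov).trans Finset.card_biUnion_le
  have h2 : ∑ τ, (bad τ).card ≤ r * (r + 1) ^ n := by
    refine (Finset.sum_le_sum fun τ _ => hcard τ).trans (le_of_eq ?_)
    rw [Finset.sum_const, Finset.card_univ, hH, smul_eq_mul]
  rw [Finset.card_univ, Fintype.card_fun, Fintype.card_fin, Fintype.card_fin, pow_succ] at h1
  have h3 : 0 < (r + 1) ^ n := by positivity
  nlinarith

end Pool.Agent.T9h24
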