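import Mathlib
import Pool.Agent.T9h24.Sub
import Pool.Agent.T9h24.Val
import Pool.Agent.T9h24.Nmr

/-!
Star configurations: products of linear forms as bases of the forms of given degree.
-/

set_option autoImplicit false
set_option linter.unusedSectionVars false

open Finset MvPolynomial

namespace Pool.Agent.T9h24

section basics

variable {F : Type} [Field F] {n m : ℕ}

/-- the linear polynomial of a vector -/
noncomputable def LP (y : Fin (n + 1) → F) : MvPolynomial (Fin (n + 1)) F :=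
  ∑ j, C (y j) * X j

/-- the determinant of a vector and of `n` vectors -/
noncomputable def dv (z : Fin (n + 1) → F) (w : Fin n → Fin (n + 1) → F) : F :=
  (Matrix.of (Fin.cons z w : Fin (n + 1) → Fin (n + 1) → F)).det

/-- the vector of minors -/
noncomputable def qv (w : Fin n → Fin (n + 1) → F) (k : Fin (n + 1)) : F :=
  (-1) ^ (k : ℕ) * ((Matrix.of w).submatrix id k.succAbove).det

theorem dv_eq (z : Fin (n + 1) → F) (w : Fin n → Fin (n + 1) → F) :
    dv z w = ∑ k, z k * qv w k := by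
  unfold dv qv
  rw [Matrix.det_succ_row_zero]
  refine Finset.sum_congr rfl fun k _ => ?_
  have h1 : (Matrix.of (Fin.cons z w : Fin (n + 1) → Fin (n + 1) → F)) 0 k = z k := rfl
  have h2 : (Matrix.of (Fin.cons z w : Fin (n + 1) → Fin (n + 1) → F)).submatrix Fin.succ
      k.succAbove = (Matrix.of w).submatrix id k.succAbove := rfl
  rw [h1, h2]
  ring

theorem dv_self (w : Fin n → Fin (n + 1) → F) (l : Fin n) : dv (w l) w = 0 := by
  unfold dv
  refine Matrix.det_zero_of_row_eq (i := 0) (j := l.succ) (Fin.succ_ne_zero l).symm ?_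
  rfl

theorem dv_add (z z' : Fin (n + 1) → F) (a b : F) (w : Fin n → Fin (n + 1) → F) :
    dv (fun j => a * z j + b * z' j) w = a * dv z w + b * dv z' w := by
  simp only [dv_eq, Finset.mul_sum]
  rw [← Finset.sum_add_distrib]
  exact Finset.sum_congr rfl fun j _ => by ring

theorem eval_LP (y q : Fin (n + 1) → F) : MvPolynomial.eval q (LP y) = ∑ j, y j * q j := by
  unfold LP
  rw [map_sum]
  exact Finset.sum_congr rfl fun j _ => by rw [map_mul, eval_C, eval_X]

theorem eval_LP_qv (y : Fin (n + 1) → F) (w : Fin n → Fin (n + 1) → F) :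
    MvPolynomial.eval (qv w) (LP y) = dv y w := by
  rw [eval_LP, dv_eq]

theorem LP_hom (y : Fin (n + 1) → F) : (LP y).IsHomogeneous 1 := lin_hom y

theorem LP_lin {ι : Type} (s : Finset ι) (c : ι → F) (y : ι → Fin (n + 1) → F) :
    LP (fun j => ∑ i ∈ s, c i * y i j) = ∑ i ∈ s, C (c i) * LP (y i) := by
  unfold LP
  simp only [map_sum, Finset.sum_mul, Finset.mul_sum, map_mul]
  rw [Finset.sum_comm]
  refine Finset.sum_congr rfl fun i _ => Finset.sum_congr rfl fun j _ => ?_
  ring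

/-- expansion with respect to `z` and `n` vectors -/
theorem exists_exp (z : Fin (n + 1) → F) (w : Fin n → Fin (n + 1) → F) (h : dv z w ≠ 0)
    (y : Fin (n + 1) → F) : ∃ β : Fin n → F,
      LP y = C (dv y w / dv z w) * LP z + ∑ l, C (β l) * LP (w l) := by
  obtain ⟨c, hc⟩ := exists_coeff (Fin.cons z w : Fin (n + 1) → Fin (n + 1) → F) h y
  have h1 : y = fun j => ∑ i, c i * (Fin.cons z w : Fin (n + 1) → Fin (n + 1) → F) i j := by
    conv_lhs => rw [hc]
    funext j
    simp only [Finset.sum_apply, Pi.smul_apply, smul_eq_mul]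
  have h2 : dv y w = c 0 * dv z w := by
    rw [dv_eq]
    conv_lhs => rw [h1]
    simp only [Finset.sum_mul]
    rw [Finset.sum_comm]
    have h3 : ∀ i : Fin (n + 1), ∑ k, c i *
        (Fin.cons z w : Fin (n + 1) → Fin (n + 1) → F) i k * qv w k =
        c i * dv ((Fin.cons z w : Fin (n + 1) → Fin (n + 1) → F) i) w := by
      intro i
      rw [dv_eq, Finset.mul_sum]
      exact Finset.sum_congr rfl fun k _ => by ring
    simp only [h3]
    rw [Fin.sum_univ_succ]
    simp only [Fin.cons_zero, Fin.cons_succ, dv_self, mul_zero, Finset.sum_const_zero, add_zero]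
  refine ⟨fun l => c l.succ, ?_⟩
  conv_lhs => rw [h1]
  rw [LP_lin, Fin.sum_univ_succ]
  simp only [Fin.cons_zero, Fin.cons_succ]
  rw [h2, mul_div_cancel_right₀ _ h]

/-- the subsets with `n` elements -/
abbrev Bs (m n : ℕ) : Type := {b : Finset (Fin m) // b.card = n}

/-- the enumeration of a subset -/
noncomputable def en (b : Bs m n) : Fin n → Fin m := fun l => b.1.orderEmbOfFin b.2 l

theorem en_inj (b : Bs m n) : Function.Injective (en b) :=
  (b.1.orderEmbOfFin b.2).injective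

theorem en_mem (b : Bs m n) (l : Fin n) : en b l ∈ b.1 := Finset.orderEmbOfFin_mem _ _ _

theorem exists_en (b : Bs m n) {y : Fin m} (hy : y ∈ b.1) : ∃ l, en b l = y := by
  have h1 := Finset.range_orderEmbOfFin b.1 b.2
  have h2 : y ∈ Set.range (b.1.orderEmbOfFin b.2) := by
    rw [h1]
    exact hy
  exact h2

/-- the product of the linear polynomials not in the subset -/
noncomputable def EE (Y : Fin m → Fin (n + 1) → F) (b : Finset (Fin m)) :
    MvPolynomial (Fin (n + 1)) F := ∏ y ∈ bᶜ, LP (Y y)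

theorem EE_hom (Y : Fin m → Fin (n + 1) → F) (b : Bs m n) {D : ℕ} (hm : m = D + n) :
    (EE Y b.1).IsHomogeneous D := by
  unfold EE
  have h1 := MvPolynomial.IsHomogeneous.prod (b.1ᶜ) (fun y => LP (Y y)) (fun _ => 1)
    fun y _ => LP_hom (Y y)
  rw [Finset.sum_const, smul_eq_mul, mul_one, Finset.card_compl, Fintype.card_fin, b.2] at h1
  have h2 : m - n = D := by omega
  rwa [h2] at h1

/-- the vectors of a subset -/
noncomputable def wb (Y : Fin m → Fin (n + 1) → F) (b : Bs m n) : Fin n → Fin (n + 1) → F :=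
  fun l => Y (en b l)

theorem dv_mem (Y : Fin m → Fin (n + 1) → F) (b : Bs m n) {y : Fin m} (hy : y ∈ b.1) :
    dv (Y y) (wb Y b) = 0 := by
  obtain ⟨l, rfl⟩ := exists_en b hy
  exact dv_self (wb Y b) l

theorem eval_EE (Y : Fin m → Fin (n + 1) → F) (b : Bs m n) (b' : Finset (Fin m)) :
    MvPolynomial.eval (qv (wb Y b)) (EE Y b') = ∏ y ∈ b'ᶜ, dv (Y y) (wb Y b) := by
  unfold EE
  rw [map_prod]
  exact Finset.prod_congr rfl fun y _ => eval_LP_qv _ _

theorem eval_EE_ne (Y : Fin m → Fin (n + 1) → F) (b b' : Bs m n) (h : b' ≠ b) :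
    MvPolynomial.eval (qv (wb Y b)) (EE Y b'.1) = 0 := by
  rw [eval_EE]
  have h1 : ∃ y ∈ b.1, y ∉ b'.1 := by
    by_contra hcon
    push Not at hcon
    apply h
    have h2 : b.1 ⊆ b'.1 := hcon
    exact Subtype.ext (Finset.eq_of_subset_of_card_le h2 (by rw [b.2, b'.2])).symm
  obtain ⟨y, hy, hy'⟩ := h1
  exact Finset.prod_eq_zero (Finset.mem_compl.2 hy') (dv_mem Y b hy)

/-- all determinants are nonzero -/
def GoodY (Y : Fin m → Fin (n + 1) → F) : Prop :=
  ∀ b : Bs m n, ∀ y ∉ b.1, dv (Y y) (wb Y b) ≠ 0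

theorem eval_EE_self {Y : Fin m → Fin (n + 1) → F} (hY : GoodY Y) (b : Bs m n) :
    MvPolynomial.eval (qv (wb Y b)) (EE Y b.1) ≠ 0 := by
  rw [eval_EE, Finset.prod_ne_zero_iff]
  exact fun y hy => hY b y (Finset.mem_compl.1 hy)

/-- the matrix of coefficients of the products -/
noncomputable def MM {D : ℕ} (φ : Bs m n ≃ Fin (NN n D)) (Y : Fin m → Fin (n + 1) → F) :
    Matrix (Bs m n) (Bs m n) F :=
  Matrix.of fun b b' => (EE Y b.1).coeff ((ee n D (φ b') : AD n D) : Fin (n + 1) →₀ ℕ)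

/-- a form is determined by its coefficients -/
theorem hom_ext {D : ℕ} (φ : Bs m n ≃ Fin (NN n D)) {P Q : MvPolynomial (Fin (n + 1)) F}
    (hP : P.IsHomogeneous D) (hQ : Q.IsHomogeneous D)
    (h : ∀ b : Bs m n, P.coeff ((ee n D (φ b) : AD n D) : Fin (n + 1) →₀ ℕ) =
      Q.coeff ((ee n D (φ b) : AD n D) : Fin (n + 1) →₀ ℕ)) : P = Q := by
  rw [eq_PY P hP, eq_PY Q hQ]
  congr 1
  funext i
  have := h (φ.symm i)
  rwa [Equiv.apply_symm_apply] at this

theorem sum_EE_hom {D : ℕ} (hm : m = D + n) (Y : Fin m → Fin (n + 1) → F) (x : Bs m n → F) :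
    (∑ b : Bs m n, C (x b) * EE Y b.1).IsHomogeneous D := by
  refine MvPolynomial.IsHomogeneous.sum _ _ _ fun b _ => ?_
  have h4 := (MvPolynomial.isHomogeneous_C (Fin (n + 1)) (x b)).mul (EE_hom Y b hm)
  rwa [zero_add] at h4

/-- the coefficients of an expansion -/
theorem exp_coeff {Y : Fin m → Fin (n + 1) → F} (P : MvPolynomial (Fin (n + 1)) F)
    (x : Bs m n → F) (h : P = ∑ b : Bs m n, C (x b) * EE Y b.1) (b : Bs m n) :
    MvPolynomial.eval (qv (wb Y b)) P = x b * ∏ y ∈ b.1ᶜ, dv (Y y) (wb Y b) := by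
  rw [h, map_sum, Finset.sum_eq_single b]
  · rw [map_mul, eval_C, eval_EE]
  · intro b' _ hb'
    rw [map_mul, eval_EE_ne Y b b' hb', mul_zero]
  · intro hb
    exact absurd (Finset.mem_univ b) hb

theorem det_MM_ne {D : ℕ} (hm : m = D + n) (φ : Bs m n ≃ Fin (NN n D))
    {Y : Fin m → Fin (n + 1) → F} (hY : GoodY Y) : (MM φ Y).det ≠ 0 := by
  classical
  intro h0
  obtain ⟨x, hx, hx0⟩ := Matrix.exists_vecMul_eq_zero_iff.2 h0
  have h1 : (0 : MvPolynomial (Fin (n + 1)) F) = ∑ b : Bs m n, C (x b) * EE Y b.1 := by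
    refine hom_ext φ (MvPolynomial.isHomogeneous_zero _ _ _) (sum_EE_hom hm Y x) fun b' => ?_
    rw [coeff_zero, coeff_sum]
    have h2 := congrFun hx0 b'
    rw [Matrix.vecMul, Pi.zero_apply] at h2
    rw [← h2]
    refine Finset.sum_congr rfl fun b _ => ?_
    rw [coeff_C_mul]
    rfl
  apply hx
  funext b
  have h2 := exp_coeff 0 x h1 b
  rw [map_zero] at h2
  have h3 := eval_EE_self hY b
  rw [eval_EE] at h3
  exact (mul_eq_zero.1 h2.symm).resolve_right h3

/-- **Interpolation**: the determinant of the coefficients of forms. -/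
theorem det_interp {D : ℕ} (hm : m = D + n) (φ : Bs m n ≃ Fin (NN n D))
    {Y : Fin m → Fin (n + 1) → F} (hY : GoodY Y) (P : Bs m n → MvPolynomial (Fin (n + 1)) F)
    (hP : ∀ ρ, (P ρ).IsHomogeneous D) :
    (Matrix.of fun ρ b' : Bs m n => (P ρ).coeff ((ee n D (φ b') : AD n D) :
      Fin (n + 1) →₀ ℕ)).det =
      (Matrix.of fun ρ b : Bs m n => MvPolynomial.eval (qv (wb Y b)) (P ρ) /
        ∏ y ∈ b.1ᶜ, dv (Y y) (wb Y b)).det * (MM φ Y).det := by
  classical
  have hM := det_MM_ne hm φ hY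
  set MP : Matrix (Bs m n) (Bs m n) F := Matrix.of fun ρ b' : Bs m n =>
    (P ρ).coeff ((ee n D (φ b') : AD n D) : Fin (n + 1) →₀ ℕ) with hMP
  have h1 : MP * (MM φ Y)⁻¹ * MM φ Y = MP :=
    Matrix.nonsing_inv_mul_cancel_right _ _ (isUnit_iff_ne_zero.2 hM)
  have h2 : (Matrix.of fun ρ b : Bs m n => MvPolynomial.eval (qv (wb Y b)) (P ρ) /
        ∏ y ∈ b.1ᶜ, dv (Y y) (wb Y b)) = MP * (MM φ Y)⁻¹ := by
    ext ρ b
    rw [Matrix.of_apply]
    have h3 : P ρ = ∑ b : Bs m n, C ((MP * (MM φ Y)⁻¹) ρ b) * EE Y b.1 := by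
      refine hom_ext φ (hP ρ) (sum_EE_hom hm Y _) fun b' => ?_
      rw [coeff_sum]
      have h4 : MP ρ b' = (MP * (MM φ Y)⁻¹ * MM φ Y) ρ b' := by rw [h1]
      rw [Matrix.mul_apply] at h4
      refine h4.trans (Finset.sum_congr rfl fun b _ => ?_)
      rw [coeff_C_mul]
      rfl
    rw [exp_coeff _ _ h3 b]
    have h4 := eval_EE_self hY b
    rw [eval_EE] at h4
    rw [mul_div_cancel_right₀ _ h4]
  rw [h2, ← Matrix.det_mul, h1]

end basics

end Pool.Agent.T9h24
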