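import Mathlib
import Pool.Agent.T9h24.Str

/-!
Star configurations: replacing one vector.
-/

set_option autoImplicit false
set_option linter.unusedSectionVars false

open Finset MvPolynomial

namespace Pool.Agent.T9h24

variable {F : Type} [Field F] {n m : ℕ}

theorem card_nb (b : Bs m n) {i : Fin m} (h : i ∉ b.1) (l : Fin n) :
    (insert i (b.1.erase (en b l))).card = n := by
  have h1 : i ∉ b.1.erase (en b l) := fun h2 => h (Finset.mem_of_mem_erase h2)
  rw [Finset.card_insert_of_notMem h1, Finset.card_erase_of_mem (en_mem b l), b.2]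
  have := l.2
  omega

/-- the neighbours of a subset -/
noncomputable def nb (b : Bs m n) {i : Fin m} (h : i ∉ b.1) (l : Fin n) : Bs m n :=
  ⟨insert i (b.1.erase (en b l)), card_nb b h l⟩

theorem mem_nb (b : Bs m n) {i : Fin m} (h : i ∉ b.1) (l : Fin n) : i ∈ (nb b h l).1 :=
  Finset.mem_insert_self _ _

theorem EE_nb (Y : Fin m → Fin (n + 1) → F) (b : Bs m n) {i : Fin m} (h : i ∉ b.1) (l : Fin n) :
    EE Y (nb b h l).1 = LP (Y (en b l)) * ∏ y ∈ b.1ᶜ.erase i, LP (Y y) := by
  unfold EE nb
  have hne : en b l ≠ i := fun h' => h (h' ▸ en_mem b l)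
  have h1 : (insert i (b.1.erase (en b l)))ᶜ = insert (en b l) (b.1ᶜ.erase i) := by
    ext y
    simp only [Finset.mem_compl, Finset.mem_insert, Finset.mem_erase]
    by_cases h2 : y = en b l
    · subst h2
      simp [hne]
    · simp [h2]
  rw [h1, Finset.prod_insert]
  intro h2
  exact (Finset.mem_compl.1 (Finset.mem_of_mem_erase h2)) (en_mem b l)

theorem EE_split (Y : Fin m → Fin (n + 1) → F) (b : Bs m n) {i : Fin m} (h : i ∉ b.1) :
    EE Y b.1 = LP (Y i) * ∏ y ∈ b.1ᶜ.erase i, LP (Y y) := by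
  unfold EE
  rw [Finset.mul_prod_erase _ (fun y => LP (Y y)) (Finset.mem_compl.2 h)]

theorem EE_update_mem (Y : Fin m → Fin (n + 1) → F) {i : Fin m} (z : Fin (n + 1) → F)
    (b : Finset (Fin m)) (h : i ∈ b) : EE (Function.update Y i z) b = EE Y b := by
  unfold EE
  refine Finset.prod_congr rfl fun y hy => ?_
  rw [Function.update_of_ne]
  rintro rfl
  exact (Finset.mem_compl.1 hy) h

theorem EE_update (Y : Fin m → Fin (n + 1) → F) (b : Bs m n) {i : Fin m} (h : i ∉ b.1)
    (z : Fin (n + 1) → F) :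
    EE (Function.update Y i z) b.1 = LP z * ∏ y ∈ b.1ᶜ.erase i, LP (Y y) := by
  rw [EE_split _ b h, Function.update_self]
  congr 1
  refine Finset.prod_congr rfl fun y hy => ?_
  rw [Function.update_of_ne (Finset.ne_of_mem_erase hy)]

open Classical in
/-- **Replacing one vector.** -/
theorem step_det {D : ℕ} (φ : Bs m n ≃ Fin (NN n D)) (Y : Fin m → Fin (n + 1) → F) (i : Fin m)
    (z : Fin (n + 1) → F) (h : ∀ b : Bs m n, i ∉ b.1 → dv z (wb Y b) ≠ 0) :
    (MM φ Y).det = (∏ b ∈ Finset.univ.filter (fun b : Bs m n => i ∉ b.1),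
      (dv (Y i) (wb Y b) / dv z (wb Y b))) * (MM φ (Function.update Y i z)).det := by
  set Y' := Function.update Y i z with hY'
  have hβ : ∀ b : Bs m n, ∃ β : Fin n → F, i ∉ b.1 →
      LP (Y i) = C (dv (Y i) (wb Y b) / dv z (wb Y b)) * LP z +
        ∑ l, C (β l) * LP (Y (en b l)) := by
    intro b
    by_cases hb : i ∈ b.1
    · exact ⟨fun _ => 0, fun h' => absurd hb h'⟩
    · obtain ⟨β, hβ⟩ := exists_exp z (wb Y b) (h b hb) (Y i)
      exact ⟨β, fun _ => hβ⟩
  choose β hβ using hβ
  set α : Bs m n → F := fun b => dv (Y i) (wb Y b) / dv z (wb Y b) with hα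
  set T : Matrix (Bs m n) (Bs m n) F := Matrix.of fun b b' =>
    if hb : i ∈ b.1 then (if b' = b then 1 else 0)
    else (if b' = b then α b else 0) + ∑ l, if b' = nb b hb l then β b l else 0 with hT
  have hTmem : ∀ b : Bs m n, i ∈ b.1 → ∀ b', T b b' = if b' = b then 1 else 0 := by
    intro b hb b'
    rw [hT, Matrix.of_apply, dif_pos hb]
  have hTnot : ∀ (b : Bs m n) (hb : i ∉ b.1), ∀ b', T b b' = (if b' = b then α b else 0) +
      ∑ l, if b' = nb b hb l then β b l else 0 := by
    intro b hb b'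
    rw [hT, Matrix.of_apply, dif_neg hb]
  have hfac : MM φ Y = T * MM φ Y' := by
    ext b c
    rw [Matrix.mul_apply]
    by_cases hb : i ∈ b.1
    · simp only [hTmem b hb, ite_mul, one_mul, zero_mul]
      rw [Finset.sum_ite_eq' Finset.univ b (fun b' => MM φ Y' b' c),
        if_pos (Finset.mem_univ b)]
      show (EE Y b.1).coeff _ = (EE Y' b.1).coeff _
      rw [hY', EE_update_mem Y z b.1 hb]
    · simp only [hTnot b hb, add_mul, ite_mul, zero_mul, Finset.sum_mul]
      rw [Finset.sum_add_distrib, Finset.sum_ite_eq' Finset.univ b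
        (fun b' => α b * MM φ Y' b' c), if_pos (Finset.mem_univ b), Finset.sum_comm]
      have h1 : ∀ l : Fin n, ∑ b' : Bs m n, (if b' = nb b hb l then
          β b l * MM φ Y' b' c else 0) = β b l * MM φ Y' (nb b hb l) c := by
        intro l
        rw [Finset.sum_ite_eq' Finset.univ (nb b hb l) (fun b' => β b l * MM φ Y' b' c),
          if_pos (Finset.mem_univ _)]
      simp only [h1]
      have h2 : EE Y b.1 = C (α b) * EE Y' b.1 + ∑ l, C (β b l) * EE Y' (nb b hb l).1 := by
        rw [hY', EE_update Y b hb z]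
        have h3 : ∀ l : Fin n, EE (Function.update Y i z) (nb b hb l).1 =
            LP (Y (en b l)) * ∏ y ∈ b.1ᶜ.erase i, LP (Y y) := by
          intro l
          rw [EE_update_mem Y z _ (mem_nb b hb l), EE_nb Y b hb l]
        simp only [h3]
        rw [EE_split Y b hb, hβ b hb, add_mul, Finset.sum_mul]
        congr 1
        · rw [mul_assoc]
        · exact Finset.sum_congr rfl fun l _ => by rw [mul_assoc]
      show (EE Y b.1).coeff _ = α b * (EE Y' b.1).coeff _ +
        ∑ l, β b l * (EE Y' (nb b hb l).1).coeff _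
      conv_lhs => rw [h2]
      rw [coeff_add, coeff_C_mul, coeff_sum]
      simp only [coeff_C_mul]
  rw [hfac, Matrix.det_mul]
  congr 1
  rw [Matrix.twoBlockTriangular_det' T (fun b : Bs m n => i ∈ b.1)]
  · have h1 : T.toSquareBlockProp (fun b : Bs m n => i ∈ b.1) = 1 := by
      ext b b'
      rw [Matrix.toSquareBlockProp_def, Matrix.of_apply, hTmem b.1 b.2, Matrix.one_apply]
      by_cases hbb : b = b'
      · subst hbb
        rw [if_pos rfl, if_pos rfl]
      · rw [if_neg hbb, if_neg fun h' => hbb (Subtype.ext h').symm]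
    have h2 : T.toSquareBlockProp (fun b : Bs m n => ¬ i ∈ b.1) =
        Matrix.diagonal fun b : {b : Bs m n // ¬ i ∈ b.1} => α b.1 := by
      ext b b'
      rw [Matrix.toSquareBlockProp_def, Matrix.of_apply, hTnot b.1 b.2]
      have h3 : ∑ l, (if b'.1 = nb b.1 b.2 l then β b.1 l else 0) = 0 := by
        refine Finset.sum_eq_zero fun l _ => ?_
        rw [if_neg]
        intro h'
        exact b'.2 (h' ▸ mem_nb b.1 b.2 l)
      rw [h3, add_zero]
      by_cases hbb : b = b'
      · subst hbb
        rw [if_pos rfl, Matrix.diagonal_apply_eq]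
      · rw [if_neg fun h' => hbb (Subtype.ext h').symm, Matrix.diagonal_apply_ne _ hbb]
    rw [h1, h2, Matrix.det_one, one_mul, Matrix.det_diagonal]
    exact (Finset.prod_subtype (Finset.univ.filter (fun b : Bs m n => i ∉ b.1))
      (by simp) α).symm
  · intro b hb b' hb'
    rw [hTmem b hb, if_neg]
    rintro rfl
    exact hb' hb

end Pool.Agent.T9h24
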