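import Mathlib
import Pool.Agent.T9h24.Stp
import Pool.Agent.T9h24.Grd

/-!
Star configurations: the norm of the determinant.
-/

set_option autoImplicit false
set_option linter.unusedSectionVars false

open Finset MvPolynomial

namespace Pool.Agent.T9h24

variable {F : Type} [NormedField F] {n m : ℕ}

theorem det_perm_norm {k : ℕ} {T : Type} (v w : Fin k → T) (hv : Function.Injective v)
    (h : ∀ l, ∃ l', w l' = v l) (Y : T → Fin k → F) :
    ‖(Matrix.of fun l => Y (v l)).det‖ = ‖(Matrix.of fun l => Y (w l)).det‖ := by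
  classical
  choose σ hσ using h
  have hσi : Function.Injective σ := by
    intro l l' hl
    apply hv
    rw [← hσ, ← hσ, hl]
  set π : Equiv.Perm (Fin k) := Equiv.ofBijective σ
    ⟨hσi, Finite.surjective_of_injective hσi⟩ with hπ
  have h1 : (Matrix.of fun l => Y (v l)) = (Matrix.of fun l => Y (w l)).submatrix π id := by
    ext l j
    rw [Matrix.submatrix_apply, Matrix.of_apply, Matrix.of_apply]
    show Y (v l) j = Y (w (σ l)) j
    rw [hσ]
  rw [h1, Matrix.det_permute, norm_mul]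
  have h2 : ‖(((Equiv.Perm.sign π : ℤˣ) : ℤ) : F)‖ = 1 := by
    rcases Int.units_eq_one_or (Equiv.Perm.sign π) with h | h
    · rw [h]
      simp
    · rw [h]
      simp
  rw [h2, one_mul]

/-- the norm of the determinant of `n + 1` vectors -/
noncomputable def nd (Y : Fin m → Fin (n + 1) → F) (c : Bs m (n + 1)) : ℝ :=
  ‖(Matrix.of fun l => Y (en c l)).det‖

theorem nd_nonneg (Y : Fin m → Fin (n + 1) → F) (c : Bs m (n + 1)) : 0 ≤ nd Y c := norm_nonneg _

/-- adding an element -/
def ins (b : Bs m n) {i : Fin m} (h : i ∉ b.1) : Bs m (n + 1) :=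
  ⟨insert i b.1, by rw [Finset.card_insert_of_notMem h, b.2]⟩

theorem nd_ins (Y : Fin m → Fin (n + 1) → F) (b : Bs m n) {i : Fin m} (h : i ∉ b.1) :
    ‖dv (Y i) (wb Y b)‖ = nd Y (ins b h) := by
  unfold dv nd
  have h1 : (Fin.cons (Y i) (wb Y b) : Fin (n + 1) → Fin (n + 1) → F) =
      fun l => Y ((Fin.cons i (en b) : Fin (n + 1) → Fin m) l) := by
    funext l
    refine Fin.cases ?_ (fun l => ?_) l
    · rfl
    · rfl
  rw [h1]
  refine det_perm_norm _ _ ?_ ?_ Y
  · intro l l'
    refine Fin.cases ?_ (fun l => ?_) l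
    · refine Fin.cases (fun _ => rfl) (fun l' => ?_) l'
      intro hl
      simp only [Fin.cons_zero, Fin.cons_succ] at hl
      exact absurd (hl ▸ en_mem b l') h
    · refine Fin.cases ?_ (fun l' => ?_) l'
      · intro hl
        simp only [Fin.cons_zero, Fin.cons_succ] at hl
        exact absurd (hl ▸ en_mem b l) h
      · intro hl
        simp only [Fin.cons_succ] at hl
        rw [en_inj b hl]
  · intro l
    refine exists_en (ins b h) ?_
    refine Fin.cases ?_ (fun l => ?_) l
    · exact Finset.mem_insert_self _ _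
    · exact Finset.mem_insert_of_mem (en_mem b l)

/-- all determinants are nonzero -/
theorem goodY_iff (Y : Fin m → Fin (n + 1) → F) : GoodY Y ↔ ∀ c : Bs m (n + 1), nd Y c ≠ 0 := by
  constructor
  · intro h c
    have hne : c.1.Nonempty := Finset.card_pos.1 (by rw [c.2]; omega)
    obtain ⟨i, hi⟩ := hne
    set b : Bs m n := ⟨c.1.erase i, by rw [Finset.card_erase_of_mem hi, c.2]; rfl⟩ with hb
    have hib : i ∉ b.1 := Finset.notMem_erase i _
    have h1 := nd_ins Y b hib
    have h2 : ins b hib = c := Subtype.ext (Finset.insert_erase hi)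
    rw [← h2, ← h1]
    exact norm_ne_zero_iff.2 (h b i hib)
  · intro h b i hi
    have h1 := nd_ins Y b hi
    rw [← norm_ne_zero_iff, h1]
    exact h _

open Classical in
theorem prod_ins (Y : Fin m → Fin (n + 1) → F) (i : Fin m) :
    ∏ b ∈ Finset.univ.filter (fun b : Bs m n => i ∉ b.1), ‖dv (Y i) (wb Y b)‖ =
      ∏ c ∈ Finset.univ.filter (fun c : Bs m (n + 1) => i ∈ c.1), nd Y c := by
  refine Finset.prod_bij (fun b hb => ins b (Finset.mem_filter.1 hb).2) (fun b hb => ?_)
    (fun b hb b' hb' h => ?_) (fun c hc => ?_) (fun b hb => ?_)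
  · exact Finset.mem_filter.2 ⟨Finset.mem_univ _, Finset.mem_insert_self _ _⟩
  · have h1 : insert i b.1 = insert i b'.1 := congrArg Subtype.val h
    have hb1 := (Finset.mem_filter.1 hb).2
    have hb1' := (Finset.mem_filter.1 hb').2
    apply Subtype.ext
    rw [← Finset.erase_insert hb1, h1, Finset.erase_insert hb1']
  · have hi := (Finset.mem_filter.1 hc).2
    refine ⟨⟨c.1.erase i, by rw [Finset.card_erase_of_mem hi, c.2]; rfl⟩,
      Finset.mem_filter.2 ⟨Finset.mem_univ _, Finset.notMem_erase i _⟩, ?_⟩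
    exact Subtype.ext (Finset.insert_erase hi)
  · exact nd_ins Y b _

theorem nd_update (Y : Fin m → Fin (n + 1) → F) (i : Fin m) (z : Fin (n + 1) → F)
    (c : Bs m (n + 1)) (h : i ∉ c.1) : nd (Function.update Y i z) c = nd Y c := by
  unfold nd
  congr 3
  funext l
  rw [Function.update_of_ne]
  rintro rfl
  exact h (en_mem c l)

theorem wb_update (Y : Fin m → Fin (n + 1) → F) (i : Fin m) (z : Fin (n + 1) → F)
    (b : Bs m n) (h : i ∉ b.1) : wb (Function.update Y i z) b = wb Y b := by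
  unfold wb
  funext l
  rw [Function.update_of_ne]
  rintro rfl
  exact h (en_mem b l)

/-- the norm of the determinant, normalized -/
noncomputable def Rn {D : ℕ} (φ : Bs m n ≃ Fin (NN n D)) (Y : Fin m → Fin (n + 1) → F) : ℝ :=
  ‖(MM φ Y).det‖ / ∏ c : Bs m (n + 1), nd Y c

theorem Rn_step {D : ℕ} (φ : Bs m n ≃ Fin (NN n D)) (Y : Fin m → Fin (n + 1) → F) (i : Fin m)
    (z : Fin (n + 1) → F) (hY : GoodY Y) (hY' : GoodY (Function.update Y i z)) :
    Rn φ (Function.update Y i z) = Rn φ Y := by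
  classical
  set Y' := Function.update Y i z with hY'd
  have h1 : ∀ b : Bs m n, i ∉ b.1 → dv z (wb Y b) ≠ 0 := by
    intro b hb
    have h2 := hY' b i hb
    rw [hY'd, wb_update Y i z b hb, Function.update_self] at h2
    exact h2
  have h2 := congrArg (fun x : F => ‖x‖) (step_det φ Y i z h1)
  simp only [norm_mul, norm_prod, norm_div] at h2
  have h3 : ∏ b ∈ Finset.univ.filter (fun b : Bs m n => i ∉ b.1), ‖dv z (wb Y b)‖ =
      ∏ c ∈ Finset.univ.filter (fun c : Bs m (n + 1) => i ∈ c.1), nd Y' c := by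
    rw [← prod_ins Y' i]
    refine Finset.prod_congr rfl fun b hb => ?_
    rw [hY'd, wb_update Y i z b (Finset.mem_filter.1 hb).2, Function.update_self]
  rw [Finset.prod_div_distrib, prod_ins Y i, h3] at h2
  have hsplit : ∀ Z : Fin m → Fin (n + 1) → F, ∏ c : Bs m (n + 1), nd Z c =
      (∏ c ∈ Finset.univ.filter (fun c : Bs m (n + 1) => i ∈ c.1), nd Z c) *
        ∏ c ∈ Finset.univ.filter (fun c : Bs m (n + 1) => ¬ i ∈ c.1), nd Z c := fun Z =>
    (Finset.prod_filter_mul_prod_filter_not Finset.univ (fun c : Bs m (n + 1) => i ∈ c.1) _).symm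
  have hnot : ∏ c ∈ Finset.univ.filter (fun c : Bs m (n + 1) => ¬ i ∈ c.1), nd Y' c =
      ∏ c ∈ Finset.univ.filter (fun c : Bs m (n + 1) => ¬ i ∈ c.1), nd Y c :=
    Finset.prod_congr rfl fun c hc => nd_update Y i z c (Finset.mem_filter.1 hc).2
  unfold Rn
  rw [hsplit Y, hsplit Y', hnot, h2]
  have hg := (goodY_iff Y).1 hY
  have hg' := (goodY_iff Y').1 hY'
  have e1 : (∏ c ∈ Finset.univ.filter (fun c : Bs m (n + 1) => i ∈ c.1), nd Y c) ≠ 0 :=
    Finset.prod_ne_zero_iff.2 fun c _ => hg c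
  have e2 : (∏ c ∈ Finset.univ.filter (fun c : Bs m (n + 1) => i ∈ c.1), nd Y' c) ≠ 0 :=
    Finset.prod_ne_zero_iff.2 fun c _ => hg' c
  have e3 : (∏ c ∈ Finset.univ.filter (fun c : Bs m (n + 1) => ¬ i ∈ c.1), nd Y c) ≠ 0 :=
    Finset.prod_ne_zero_iff.2 fun c _ => hg c
  field_simp
  rfl

theorem good_update {Y : Fin m → Fin (n + 1) → F} (hY : GoodY Y) (i : Fin m)
    (z : Fin (n + 1) → F) (h : ∀ b : Bs m n, i ∉ b.1 → dv z (wb Y b) ≠ 0) :
    GoodY (Function.update Y i z) := by
  rw [goodY_iff]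
  intro c
  by_cases hi : i ∈ c.1
  · set b : Bs m n := ⟨c.1.erase i, by rw [Finset.card_erase_of_mem hi, c.2]; rfl⟩ with hb
    have hib : i ∉ b.1 := Finset.notMem_erase i _
    have h1 := nd_ins (Function.update Y i z) b hib
    have h2 : ins b hib = c := Subtype.ext (Finset.insert_erase hi)
    rw [← h2, ← h1, Function.update_self, wb_update Y i z b hib]
    exact norm_ne_zero_iff.2 (h b hib)
  · rw [nd_update Y i z c hi]
    exact (goodY_iff Y).1 hY c

/-- the normalized determinant does not depend on the configuration -/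
theorem Rn_const [CharZero F] {D : ℕ} (φ : Bs m n ≃ Fin (NN n D))
    (Y Y0 : Fin m → Fin (n + 1) → F) (hY : GoodY Y) (hY0 : GoodY Y0) : Rn φ Y = Rn φ Y0 := by
  classical
  have key : ∀ s : Finset (Fin m), ∃ W W0 : Fin m → Fin (n + 1) → F, GoodY W ∧ GoodY W0 ∧
      (∀ i ∈ s, W i = W0 i) ∧ Rn φ W = Rn φ Y ∧ Rn φ W0 = Rn φ Y0 := by
    intro s
    induction s using Finset.induction_on with
    | empty => exact ⟨Y, Y0, hY, hY0, fun i hi => absurd hi (Finset.notMem_empty _), rfl, rfl⟩
    | insert i s _ ih =>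
      obtain ⟨W, W0, hW, hW0, hag, h1, h2⟩ := ih
      obtain ⟨c, hc, hgrid⟩ := grid F n
        (Fintype.card ({b : Bs m n // i ∉ b.1} ⊕ {b : Bs m n // i ∉ b.1}))
      obtain ⟨t, ht⟩ := hgrid ({b : Bs m n // i ∉ b.1} ⊕ {b : Bs m n // i ∉ b.1}) rfl
        (Sum.elim (fun b => qv (wb W b.1)) (fun b => qv (wb W0 b.1)))
      set z : Fin (n + 1) → F := fun j => (((t j : ℕ) : ℤ) : F) with hz
      have hz1 : ∀ b : Bs m n, i ∉ b.1 → dv z (wb W b) ≠ 0 := by
        intro b hb
        have h3 := ht (Sum.inl ⟨b, hb⟩)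
        simp only [Sum.elim_inl] at h3
        have h4 : qv (wb W b) ≠ 0 := by
          intro h0
          apply hW b i hb
          rw [dv_eq, h0]
          simp
        have h5 : dv z (wb W b) = ∑ j, qv (wb W b) j * (((t j : ℕ) : ℤ) : F) := by
          rw [dv_eq]
          exact Finset.sum_congr rfl fun j _ => mul_comm _ _
        rw [← norm_pos_iff, h5]
        exact lt_of_lt_of_le (mul_pos hc (norm_pos_iff.2 h4)) h3
      have hz2 : ∀ b : Bs m n, i ∉ b.1 → dv z (wb W0 b) ≠ 0 := by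
        intro b hb
        have h3 := ht (Sum.inr ⟨b, hb⟩)
        simp only [Sum.elim_inr] at h3
        have h4 : qv (wb W0 b) ≠ 0 := by
          intro h0
          apply hW0 b i hb
          rw [dv_eq, h0]
          simp
        have h5 : dv z (wb W0 b) = ∑ j, qv (wb W0 b) j * (((t j : ℕ) : ℤ) : F) := by
          rw [dv_eq]
          exact Finset.sum_congr rfl fun j _ => mul_comm _ _
        rw [← norm_pos_iff, h5]
        exact lt_of_lt_of_le (mul_pos hc (norm_pos_iff.2 h4)) h3
      have hg1 := good_update hW i z hz1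
      have hg2 := good_update hW0 i z hz2
      refine ⟨Function.update W i z, Function.update W0 i z, hg1, hg2, fun i' hi' => ?_,
        (Rn_step φ W i z hW hg1).trans h1, (Rn_step φ W0 i z hW0 hg2).trans h2⟩
      by_cases hii : i' = i
      · subst hii
        rw [Function.update_self, Function.update_self]
      · rw [Function.update_of_ne hii, Function.update_of_ne hii]
        exact hag i' ((Finset.mem_insert.1 hi').resolve_left hii)
  obtain ⟨W, W0, -, -, hag, h1, h2⟩ := key Finset.univ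
  have : W = W0 := funext fun i => hag i (Finset.mem_univ i)
  rw [← h1, ← h2, this]

/-- **The determinant of a star configuration.** -/
theorem star [CharZero F] {D : ℕ} (hm : m = D + n) (φ : Bs m n ≃ Fin (NN n D)) :
    ∃ κ : ℝ, 0 < κ ∧ ∀ Y : Fin m → Fin (n + 1) → F, GoodY Y →
      ‖(MM φ Y).det‖ = κ * ∏ c : Bs m (n + 1), nd Y c := by
  by_cases h : ∃ Y0 : Fin m → Fin (n + 1) → F, GoodY Y0
  · obtain ⟨Y0, hY0⟩ := h
    have hpos : ∀ Y : Fin m → Fin (n + 1) → F, GoodY Y → 0 < ∏ c : Bs m (n + 1), nd Y c :=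
      fun Y hY => Finset.prod_pos fun c _ => lt_of_le_of_ne (nd_nonneg Y c)
        ((goodY_iff Y).1 hY c).symm
    refine ⟨Rn φ Y0, div_pos (norm_pos_iff.2 (det_MM_ne hm φ hY0)) (hpos Y0 hY0),
      fun Y hY => ?_⟩
    rw [← Rn_const φ Y Y0 hY hY0]
    unfold Rn
    rw [div_mul_cancel₀ _ (hpos Y hY).ne']
  · exact ⟨1, one_pos, fun Y hY => absurd ⟨Y, hY⟩ h⟩

end Pool.Agent.T9h24
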