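import Mathlib
import Pool.Agent.T9h24.Sta

/-!
Generic vectors in bodies given by generators.
-/

set_option autoImplicit false
set_option linter.unusedSectionVars false

open Finset MvPolynomial

namespace Pool.Agent.T9h24

variable {F : Type} [NormedField F] {n m : ℕ}

theorem det_slot (rows : Fin (n + 1) → Fin (n + 1) → F) (l0 : Fin (n + 1)) (t : Fin (n + 1) → F)
    (g : Fin (n + 1) → Fin (n + 1) → F) :
    (Matrix.of (Function.update rows l0 (fun j => ∑ κ, t κ * g κ j))).det =
      ∑ κ, t κ * (Matrix.of (Function.update rows l0 (g κ))).det := by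
  have h1 : (fun j => ∑ κ, t κ * g κ j) = ∑ κ, t κ • g κ := by
    funext j
    simp only [Finset.sum_apply, Pi.smul_apply, smul_eq_mul]
  have h2 := (Matrix.detRowAlternating (n := Fin (n + 1)) (R := F)).toMultilinearMap.map_update_sum
    Finset.univ l0 (fun κ => t κ • g κ) rows
  simp only [MultilinearMap.map_update_smul] at h2
  rw [h1]
  exact h2

/-- expansion of a determinant whose rows are combinations -/
theorem det_expand_le (t : Fin (n + 1) → Fin (n + 1) → F)
    (g : Fin (n + 1) → Fin (n + 1) → Fin (n + 1) → F) (B M : ℝ) (hB : 0 ≤ B)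
    (ht : ∀ l k, ‖t l k‖ ≤ B)
    (hM : ∀ k : Fin (n + 1) → Fin (n + 1), ‖(Matrix.of fun l => g l (k l)).det‖ ≤ M) :
    ‖(Matrix.of fun l j => ∑ k, t l k * g l k j).det‖ ≤
      (((n : ℝ) + 1) * B) ^ (n + 1) * M := by
  classical
  have h1 := (Matrix.detRowAlternating (n := Fin (n + 1)) (R := F)).toMultilinearMap.map_sum
    (fun l k => t l k • g l k)
  have h2 : (Matrix.of fun l j => ∑ k, t l k * g l k j).det =
      ∑ r : Fin (n + 1) → Fin (n + 1), (∏ l, t l (r l)) *
        (Matrix.of fun l => g l (r l)).det := by
    have h3 : (fun l => ∑ k, t l k • g l k) = fun l j => ∑ k, t l k * g l k j := by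
      funext l j
      simp only [Finset.sum_apply, Pi.smul_apply, smul_eq_mul]
    rw [h3] at h1
    refine h1.trans (Finset.sum_congr rfl fun r _ => ?_)
    rw [MultilinearMap.map_smul_univ]
    rfl
  rw [h2]
  refine (norm_sum_le _ _).trans ?_
  have h4 : ∀ r ∈ (Finset.univ : Finset (Fin (n + 1) → Fin (n + 1))), ‖(∏ l, t l (r l)) *
        (Matrix.of fun l => g l (r l)).det‖ ≤ B ^ (n + 1) * M := by
    intro r _
    rw [norm_mul, norm_prod]
    refine mul_le_mul ?_ (hM r) (norm_nonneg _) (pow_nonneg hB _)
    refine (Finset.prod_le_prod (fun l _ => norm_nonneg _) fun l _ => ht l (r l)).trans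
      (le_of_eq ?_)
    rw [Finset.prod_const, Finset.card_univ, Fintype.card_fin]
  refine (Finset.sum_le_sum h4).trans (le_of_eq ?_)
  rw [Finset.sum_const, Finset.card_univ, Fintype.card_fun, Fintype.card_fin, nsmul_eq_mul,
    mul_pow]
  push_cast
  ring

/-- the largest determinant of generators -/
noncomputable def Mx {T : Type} (gen : T → Fin (n + 1) → Fin (n + 1) → F)
    (c : Fin (n + 1) → T) : ℝ :=
  (Finset.univ : Finset (Fin (n + 1) → Fin (n + 1))).sup' Finset.univ_nonempty
    (fun k => ‖(Matrix.of fun l => gen (c l) (k l)).det‖)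

theorem le_Mx {T : Type} (gen : T → Fin (n + 1) → Fin (n + 1) → F) (c : Fin (n + 1) → T)
    (k : Fin (n + 1) → Fin (n + 1)) :
    ‖(Matrix.of fun l => gen (c l) (k l)).det‖ ≤ Mx gen c :=
  Finset.le_sup' (f := fun k : Fin (n + 1) → Fin (n + 1) =>
    ‖(Matrix.of fun l => gen (c l) (k l)).det‖) (Finset.mem_univ k)

theorem exists_Mx {T : Type} (gen : T → Fin (n + 1) → Fin (n + 1) → F) (c : Fin (n + 1) → T) :
    ∃ k : Fin (n + 1) → Fin (n + 1), Mx gen c = ‖(Matrix.of fun l => gen (c l) (k l)).det‖ := by
  obtain ⟨k, -, hk⟩ := Finset.exists_mem_eq_sup' (Finset.univ_nonempty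
    (α := Fin (n + 1) → Fin (n + 1))) (fun k : Fin (n + 1) → Fin (n + 1) =>
      ‖(Matrix.of fun l => gen (c l) (k l)).det‖)
  exact ⟨k, hk⟩

theorem Mx_nonneg {T : Type} (gen : T → Fin (n + 1) → Fin (n + 1) → F) (c : Fin (n + 1) → T) :
    0 ≤ Mx gen c := (norm_nonneg _).trans (le_Mx gen c (fun _ => 0))

theorem Mx_le {T : Type} (gen : T → Fin (n + 1) → Fin (n + 1) → F) (c : Fin (n + 1) → T) (M : ℝ)
    (h : ∀ k : Fin (n + 1) → Fin (n + 1), ‖(Matrix.of fun l => gen (c l) (k l)).det‖ ≤ M) :
    Mx gen c ≤ M := by
  obtain ⟨k, hk⟩ := exists_Mx gen c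
  rw [hk]
  exact h k

theorem Mx_comp_le {T : Type} (gen : T → Fin (n + 1) → Fin (n + 1) → F) (c : Fin (n + 1) → T)
    (π : Equiv.Perm (Fin (n + 1))) : Mx gen c ≤ Mx gen (fun l => c (π l)) := by
  classical
  refine Mx_le gen c _ fun k => ?_
  have h1 := det_perm_norm (F := F) (T := Fin (n + 1)) (fun l => π l) id π.injective
    (fun l => ⟨π l, rfl⟩) (fun l => gen (c l) (k l))
  have h2 := le_Mx gen (fun l => c (π l)) (fun l => k (π l))
  exact h1.symm.le.trans h2

theorem Mx_comp {T : Type} (gen : T → Fin (n + 1) → Fin (n + 1) → F) (c : Fin (n + 1) → T)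
    (π : Equiv.Perm (Fin (n + 1))) : Mx gen (fun l => c (π l)) = Mx gen c := by
  refine le_antisymm ?_ (Mx_comp_le gen c π)
  have h1 := Mx_comp_le gen (fun l => c (π l)) π.symm
  simp only [Equiv.apply_symm_apply] at h1
  exact h1

theorem Mx_perm {T S : Type} (gen : T → Fin (n + 1) → Fin (n + 1) → F) (ty : S → T)
    (v w : Fin (n + 1) → S) (hv : Function.Injective v) (h : ∀ l, ∃ l', w l' = v l) :
    Mx gen (fun l => ty (v l)) = Mx gen (fun l => ty (w l)) := by
  choose σ hσ using h
  have hσi : Function.Injective σ := by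
    intro l l' hl
    apply hv
    rw [← hσ, ← hσ, hl]
  have h1 := Mx_comp gen (fun l => ty (w l))
    (Equiv.ofBijective σ ⟨hσi, Finite.surjective_of_injective hσi⟩)
  rw [← h1]
  congr 1
  funext l
  show ty (v l) = ty (w (σ l))
  rw [hσ]

open Classical in
/-- the partially replaced rows -/
noncomputable def prow (s : Finset (Fin m)) (Y : Fin m → Fin (n + 1) → F)
    (g : Fin m → Fin (n + 1) → Fin (n + 1) → F) (k : Fin m → Fin (n + 1)) (y : Fin m) :
    Fin (n + 1) → F := if y ∈ s then Y y else g y (k y)

/-- **Generic vectors.** -/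
theorem perturb (F : Type) [NormedField F] [CharZero F] (n m : ℕ) : ∃ (δ : ℝ) (R : ℕ), 0 < δ ∧
    ∀ g : Fin m → Fin (n + 1) → Fin (n + 1) → F, ∃ t : Fin m → Fin (n + 1) → Fin (R + 1),
      ∀ c : Bs m (n + 1), δ * Mx g (en c) ≤
        nd (fun y j => ∑ k, ((((t y k : ℕ) : ℤ)) : F) * g y k j) c := by
  classical
  set R : ℕ := Fintype.card (Bs m (n + 1)) with hR
  have key : ∀ s : Finset (Fin m), ∃ δ : ℝ, 0 < δ ∧
      ∀ g : Fin m → Fin (n + 1) → Fin (n + 1) → F, ∃ t : Fin m → Fin (n + 1) → Fin (R + 1),
      ∀ c : Bs m (n + 1), ∃ k : Fin m → Fin (n + 1), δ * Mx g (en c) ≤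
        ‖(Matrix.of fun l => prow s (fun y j => ∑ k, ((((t y k : ℕ) : ℤ)) : F) * g y k j) g k
          (en c l)).det‖ := by
    intro s
    induction s using Finset.induction_on with
    | empty =>
      refine ⟨1, one_pos, fun g => ⟨fun _ _ => 0, fun c => ?_⟩⟩
      obtain ⟨k0, hk0⟩ := exists_Mx g (en c)
      refine ⟨Function.extend (en c) k0 (fun _ => 0), ?_⟩
      rw [one_mul, hk0]
      refine le_of_eq ?_
      congr 3
      funext l
      unfold prow
      rw [if_neg (Finset.notMem_empty _), (en_inj c).extend_apply]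
    | insert i s his ih =>
      obtain ⟨δ, hδ, ih⟩ := ih
      obtain ⟨c0, hc0, hgrid⟩ := grid F n R
      refine ⟨min (δ * c0) δ, lt_min (mul_pos hδ hc0) hδ, fun g => ?_⟩
      obtain ⟨t, ht⟩ := ih g
      choose k hk using ht
      set Y : Fin m → Fin (n + 1) → F :=
        fun y j => ∑ k, ((((t y k : ℕ) : ℤ)) : F) * g y k j with hY
      -- the vectors of determinants
      have hl0 : ∀ c : Bs m (n + 1), ∃ l0 : Fin (n + 1), i ∈ c.1 → en c l0 = i := by
        intro c
        by_cases hi : i ∈ c.1
        · obtain ⟨l, hl⟩ := exists_en c hi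
          exact ⟨l, fun _ => hl⟩
        · exact ⟨0, fun h => absurd h hi⟩
      choose l0 hl0 using hl0
      obtain ⟨ti, hti⟩ := hgrid (Bs m (n + 1)) hR.symm (fun c κ =>
        (Matrix.of (Function.update (fun l => prow s Y g (k c) (en c l)) (l0 c) (g i κ))).det)
      refine ⟨Function.update t i ti, fun c => ⟨k c, ?_⟩⟩
      have hmx := Mx_nonneg g (en c)
      have hY' : ∀ y, y ≠ i → (fun j => ∑ k, (((((Function.update t i ti) y k : ℕ) : ℤ)) : F) *
          g y k j) = Y y := by
        intro y hy
        funext j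
        rw [hY, Function.update_of_ne hy]
      have hYi : (fun j => ∑ k, (((((Function.update t i ti) i k : ℕ) : ℤ)) : F) *
          g i k j) = fun j => ∑ k, ((((ti k : ℕ) : ℤ)) : F) * g i k j := by
        funext j
        rw [Function.update_self]
      by_cases hi : i ∈ c.1
      · have h1 : (fun l => prow (insert i s) (fun y j => ∑ k,
            (((((Function.update t i ti) y k : ℕ) : ℤ)) : F) * g y k j) g (k c) (en c l)) =
            Function.update (fun l => prow s Y g (k c) (en c l)) (l0 c)
              (fun j => ∑ κ, ((((ti κ : ℕ) : ℤ)) : F) * g i κ j) := by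
          funext l
          by_cases hl : l = l0 c
          · subst hl
            rw [Function.update_self]
            unfold prow
            rw [hl0 c hi, if_pos (Finset.mem_insert_self _ _)]
            exact hYi
          · rw [Function.update_of_ne hl]
            have h2 : en c l ≠ i := by
              intro h3
              rw [← hl0 c hi] at h3
              exact hl (en_inj c h3)
            unfold prow
            by_cases h4 : en c l ∈ s
            · rw [if_pos (Finset.mem_insert_of_mem h4), if_pos h4]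
              exact hY' _ h2
            · rw [if_neg h4, if_neg]
              intro h5
              rcases Finset.mem_insert.1 h5 with h6 | h6
              · exact h2 h6
              · exact h4 h6
        have h2 : (Matrix.of fun l => prow (insert i s) (fun y j => ∑ k,
            (((((Function.update t i ti) y k : ℕ) : ℤ)) : F) * g y k j) g (k c) (en c l)).det =
            ∑ κ, (Matrix.of (Function.update (fun l => prow s Y g (k c) (en c l)) (l0 c)
              (g i κ))).det * ((((ti κ : ℕ) : ℤ)) : F) := by
          rw [h1, det_slot]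
          exact Finset.sum_congr rfl fun κ _ => mul_comm _ _
        rw [h2]
        refine le_trans ?_ (hti c)
        have h3 : ‖(Matrix.of fun l => prow s Y g (k c) (en c l)).det‖ ≤
            ‖fun κ => (Matrix.of (Function.update (fun l => prow s Y g (k c) (en c l)) (l0 c)
              (g i κ))).det‖ := by
          have h4 : (fun l => prow s Y g (k c) (en c l)) =
              Function.update (fun l => prow s Y g (k c) (en c l)) (l0 c) (g i (k c i)) := by
            funext l
            by_cases hl : l = l0 c
            · subst hl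
              rw [Function.update_self]
              unfold prow
              rw [hl0 c hi, if_neg his]
            · rw [Function.update_of_ne hl]
          have h5 : ‖(Matrix.of (Function.update (fun l => prow s Y g (k c) (en c l)) (l0 c)
              (g i (k c i)))).det‖ ≤
              ‖fun κ => (Matrix.of (Function.update (fun l => prow s Y g (k c) (en c l)) (l0 c)
              (g i κ))).det‖ := norm_le_pi_norm (fun κ => (Matrix.of (Function.update
            (fun l => prow s Y g (k c) (en c l)) (l0 c) (g i κ))).det) (k c i)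
          rw [← h4] at h5
          exact h5
        calc min (δ * c0) δ * Mx g (en c) ≤ δ * c0 * Mx g (en c) :=
              mul_le_mul_of_nonneg_right (min_le_left _ _) hmx
          _ = c0 * (δ * Mx g (en c)) := by ring
          _ ≤ _ := mul_le_mul_of_nonneg_left ((hk c).trans h3) hc0.le
      · have h1 : (fun l => prow (insert i s) (fun y j => ∑ k,
            (((((Function.update t i ti) y k : ℕ) : ℤ)) : F) * g y k j) g (k c) (en c l)) =
            fun l => prow s Y g (k c) (en c l) := by
          funext l
          have h2 : en c l ≠ i := fun h3 => hi (h3 ▸ en_mem c l)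
          unfold prow
          by_cases h4 : en c l ∈ s
          · rw [if_pos (Finset.mem_insert_of_mem h4), if_pos h4]
            exact hY' _ h2
          · rw [if_neg h4, if_neg]
            intro h5
            rcases Finset.mem_insert.1 h5 with h6 | h6
            · exact h2 h6
            · exact h4 h6
        rw [h1]
        exact (mul_le_mul_of_nonneg_right (min_le_right _ _) hmx).trans (hk c)
  obtain ⟨δ, hδ, h⟩ := key Finset.univ
  refine ⟨δ, R, hδ, fun g => ?_⟩
  obtain ⟨t, ht⟩ := h g
  refine ⟨t, fun c => ?_⟩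
  obtain ⟨k, hk⟩ := ht c
  refine hk.trans (le_of_eq ?_)
  unfold nd
  congr 3
  funext l
  unfold prow
  rw [if_pos (Finset.mem_univ _)]

end Pool.Agent.T9h24
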