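import Mathlib
import Pool.Agent.T9h24.Prt
import Pool.Agent.T9h24.Plf
import Pool.Agent.T9h24.PH

/-!
Dual bases of a finite family of linear forms.
-/

set_option autoImplicit false
set_option linter.unusedSectionVars false

open Finset MvPolynomial

namespace Pool.Agent.T9h24

section alg

variable {F : Type} [Field F] {n : ℕ} {ι : Type}

/-- the index set of the dual vectors -/
abbrev Jx (n : ℕ) (ι : Type) : Type := Fin (n + 1) ⊕ ((Fin (n + 1) → ι) × Fin (n + 1))

/-- the dual vectors of all frames, and the standard basis -/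
noncomputable def psi (L : ι → Fin (n + 1) → F) : Jx n ι → Fin (n + 1) → F
  | Sum.inl k => Pi.single k 1
  | Sum.inr p => fun j => (Matrix.of fun k => L (p.1 k))⁻¹ j p.2

/-- the dual bases of the bases consisting of dual vectors -/
noncomputable def QQ (L : ι → Fin (n + 1) → F) (γ : Fin (n + 1) → Jx n ι) :
    Fin (n + 1) → Fin (n + 1) → F := fun k j => (Matrix.of fun k => psi L (γ k))⁻¹ j k

theorem inv_map {K : Type} [Field K] (f : K →+* F) (A : Matrix (Fin (n + 1)) (Fin (n + 1)) K) :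
    (A.map f)⁻¹ = A⁻¹.map f := by
  by_cases h : A.det = 0
  · have h1 : (A.map f).det = 0 := by
      have h2 := RingHom.map_det f A
      rw [h, map_zero] at h2
      exact h2.symm
    rw [Matrix.nonsing_inv_apply_not_isUnit _ (by rw [h1]; exact not_isUnit_zero),
      Matrix.nonsing_inv_apply_not_isUnit _ (by rw [h]; exact not_isUnit_zero)]
    ext i j
    simp
  · have h1 : A * A⁻¹ = 1 := Matrix.mul_nonsing_inv _ (isUnit_iff_ne_zero.2 h)
    have h2 : A.map f * A⁻¹.map f = 1 := by
      rw [← Matrix.map_mul, h1, Matrix.map_one _ (map_zero f) (map_one f)]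
    exact Matrix.inv_eq_right_inv h2

theorem psi_map {K : Type} [Field K] (f : K →+* F) (L : ι → Fin (n + 1) → K) (i : Jx n ι)
    (j : Fin (n + 1)) : psi (fun i j => f (L i j)) i j = f (psi L i j) := by
  rcases i with k | p
  · show (Pi.single k (1 : F) : Fin (n + 1) → F) j = f ((Pi.single k (1 : K) : Fin (n + 1) → K) j)
    rw [Pi.single_apply, Pi.single_apply]
    split_ifs
    · rw [map_one]
    · rw [map_zero]
  · show (Matrix.of fun k j => f (L (p.1 k) j))⁻¹ j p.2 =
      f ((Matrix.of fun k => L (p.1 k))⁻¹ j p.2)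
    have h1 : (Matrix.of fun k j => f (L (p.1 k) j)) = (Matrix.of fun k => L (p.1 k)).map f := rfl
    rw [h1, inv_map]
    rfl

theorem QQ_map {K : Type} [Field K] (f : K →+* F) (L : ι → Fin (n + 1) → K)
    (γ : Fin (n + 1) → Jx n ι) (k j : Fin (n + 1)) :
    QQ (fun i j => f (L i j)) γ k j = f (QQ L γ k j) := by
  unfold QQ
  have h1 : (Matrix.of fun k => psi (fun i j => f (L i j)) (γ k)) =
      (Matrix.of fun k => psi L (γ k)).map f := by
    ext k j
    rw [Matrix.map_apply, Matrix.of_apply, Matrix.of_apply, psi_map]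
  rw [h1, inv_map]
  rfl

/-- expansion in a basis -/
theorem row_expand (B : Matrix (Fin (n + 1)) (Fin (n + 1)) F) (hB : B.det ≠ 0)
    (v : Fin (n + 1) → F) : v = fun j => ∑ k, (∑ i, v i * B⁻¹ i k) * B k j := by
  have h1 : B⁻¹ * B = 1 := Matrix.nonsing_inv_mul _ (isUnit_iff_ne_zero.2 hB)
  funext j
  have h2 : ∀ i, ∑ k, B⁻¹ i k * B k j = (1 : Matrix (Fin (n + 1)) (Fin (n + 1)) F) i j := by
    intro i
    rw [← h1, Matrix.mul_apply]
  simp only [Finset.sum_mul]
  rw [Finset.sum_comm]
  have h3 : ∀ i, ∑ k, v i * B⁻¹ i k * B k j = v i *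
      (1 : Matrix (Fin (n + 1)) (Fin (n + 1)) F) i j := by
    intro i
    rw [← h2, Finset.mul_sum]
    exact Finset.sum_congr rfl fun k _ => mul_assoc _ _ _
  simp only [h3, Matrix.one_apply]
  simp

/-- expansion in the dual basis -/
theorem col_expand (B : Matrix (Fin (n + 1)) (Fin (n + 1)) F) (hB : B.det ≠ 0)
    (v : Fin (n + 1) → F) : v = fun j => ∑ k, (∑ i, B k i * v i) * B⁻¹ j k := by
  have h1 : B⁻¹ * B = 1 := Matrix.nonsing_inv_mul _ (isUnit_iff_ne_zero.2 hB)
  funext j
  have h2 : ∀ i, ∑ k, B⁻¹ j k * B k i = (1 : Matrix (Fin (n + 1)) (Fin (n + 1)) F) j i := by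
    intro i
    rw [← h1, Matrix.mul_apply]
  simp only [Finset.sum_mul]
  rw [Finset.sum_comm]
  have h3 : ∀ i, ∑ k, B k i * v i * B⁻¹ j k = v i *
      (1 : Matrix (Fin (n + 1)) (Fin (n + 1)) F) j i := by
    intro i
    rw [← h2, Finset.mul_sum]
    exact Finset.sum_congr rfl fun k _ => by ring
  simp only [h3, Matrix.one_apply]
  simp

/-- coefficients in a basis are unique -/
theorem coeff_unique (B : Matrix (Fin (n + 1)) (Fin (n + 1)) F) (hB : B.det ≠ 0)
    (v c : Fin (n + 1) → F) (h : v = ∑ a, c a • B a) (k : Fin (n + 1)) :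
    ∑ i, v i * B⁻¹ i k = c k := by
  have h1 : B * B⁻¹ = 1 := Matrix.mul_nonsing_inv _ (isUnit_iff_ne_zero.2 hB)
  rw [h]
  simp only [Finset.sum_apply, Pi.smul_apply, smul_eq_mul, Finset.sum_mul]
  rw [Finset.sum_comm]
  have h3 : ∀ a, ∑ i, c a * B a i * B⁻¹ i k = c a *
      (1 : Matrix (Fin (n + 1)) (Fin (n + 1)) F) a k := by
    intro a
    rw [← h1, Matrix.mul_apply, Finset.mul_sum]
    exact Finset.sum_congr rfl fun k _ => by ring
  simp only [h3, Matrix.one_apply]
  simp

end alg

end Pool.Agent.T9h24
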