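import Mathlib
import Pool.Agent.T9h24.Dul

/-!
Expansions of linear forms which are small on several bodies.
-/

set_option autoImplicit false
set_option linter.unusedSectionVars false

open Finset MvPolynomial

namespace Pool.Agent.T9h24

variable {F : Type} [NormedField F] {n : ℕ} {ι : Type} [Fintype ι]

/-- a bound for everything -/
theorem exists_bound (L : ι → Fin (n + 1) → F) : ∃ B : ℝ, 1 ≤ B ∧ (∀ i, ‖L i‖ ≤ B) ∧
    (∀ i j, ‖psi L i j‖ ≤ B) ∧ (∀ i p, ‖lf (L i) (psi L p)‖ ≤ B) ∧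
    (∀ p γ k, ‖lf (psi L p) (QQ L γ k)‖ ≤ B) := by
  classical
  obtain ⟨B1, h1, hB1⟩ := exists_big (fun i => ‖L i‖)
  obtain ⟨B2, h2, hB2⟩ := exists_big (fun p : Jx n ι × Fin (n + 1) => ‖psi L p.1 p.2‖)
  obtain ⟨B3, h3, hB3⟩ := exists_big (fun p : ι × Jx n ι => ‖lf (L p.1) (psi L p.2)‖)
  obtain ⟨B4, h4, hB4⟩ := exists_big (fun p : Jx n ι × (Fin (n + 1) → Jx n ι) × Fin (n + 1) =>
    ‖lf (psi L p.1) (QQ L p.2.1 p.2.2)‖)
  have e1 : (1 : ℝ) ≤ B1 := by exact_mod_cast h1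
  have e2 : (1 : ℝ) ≤ B2 := by exact_mod_cast h2
  have e3 : (1 : ℝ) ≤ B3 := by exact_mod_cast h3
  have e4 : (1 : ℝ) ≤ B4 := by exact_mod_cast h4
  refine ⟨(B1 : ℝ) + B2 + B3 + B4, by linarith, fun i => ?_, fun i j => ?_, fun i p => ?_,
    fun p γ k => ?_⟩
  · have := hB1 i
    linarith
  · have := hB2 (i, j)
    simp only at this
    linarith
  · have := hB3 (i, p)
    simp only at this
    linarith
  · have := hB4 (p, γ, k)
    simp only at this
    linarith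

/-- the data of a point -/
structure PtD (L : ι → Fin (n + 1) → F) (B : ℝ) (x : Fin (n + 1) → F) where
  /-- the sizes of the forms -/
  s : ι → F
  /-- the frame -/
  β : Fin (n + 1) → ι
  s_ne : ∀ i, s i ≠ 0
  s_le : ∀ i, ‖s i‖ ≤ B
  lf_le : ∀ i, ‖lf (L i) x‖ ≤ ‖x‖ * ‖s i‖
  s_eq : ∀ i, lf (L i) x ≠ 0 → ‖s i‖ = ‖lf (L i) x‖ / ‖x‖
  det_ne : (Matrix.of fun a => L (β a)).det ≠ 0
  greedy : ∀ (l : ι) (c : Fin (n + 1) → F), L l = ∑ a, c a • L (β a) → ∀ a, c a ≠ 0 →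
    ‖s (β a)‖ ≤ ‖s l‖

theorem exists_PtD (L : ι → Fin (n + 1) → F)
    (hs : ∃ β : Fin (n + 1) → ι, (Matrix.of fun a => L (β a)).det ≠ 0) (B : ℝ)
    (hB : ((n : ℝ) + 1) * (∑ i, ‖L i‖) + 1 ≤ B) (x : Fin (n + 1) → F) (hx : x ≠ 0) :
    Nonempty (PtD L B x) := by
  classical
  obtain ⟨j0, hj0⟩ : ∃ j0, ‖x‖ = ‖x j0‖ := by
    obtain ⟨j0, -, hj0⟩ := Finset.exists_max_image Finset.univ (fun j => ‖x j‖)
      ⟨0, Finset.mem_univ _⟩
    refine ⟨j0, le_antisymm ?_ (norm_le_pi_norm x j0)⟩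
    exact (pi_norm_le_iff_of_nonneg (norm_nonneg _)).2 fun j => hj0 j (Finset.mem_univ j)
  have hx0 : 0 < ‖x‖ := norm_pos_iff.2 hx
  have hxj : x j0 ≠ 0 := by
    rw [← norm_pos_iff, ← hj0]
    exact hx0
  set s : ι → F := fun i => if lf (L i) x = 0 then 1 else lf (L i) x / x j0 with hs'
  obtain ⟨β, hβ, hgr⟩ := greedy L hs (fun i => ‖s i‖)
  have hB1 : (1 : ℝ) ≤ B := by
    have : 0 ≤ ((n : ℝ) + 1) * (∑ i, ‖L i‖) :=
      mul_nonneg (by positivity) (Finset.sum_nonneg fun i _ => norm_nonneg _)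
    linarith
  refine ⟨⟨s, β, fun i => ?_, fun i => ?_, fun i => ?_, fun i hi => ?_, hβ, hgr⟩⟩
  · rw [hs']
    simp only
    split_ifs with h
    · exact one_ne_zero
    · exact div_ne_zero h hxj
  · rw [hs']
    simp only
    split_ifs with h
    · rw [norm_one]
      exact hB1
    · rw [norm_div, ← hj0, div_le_iff₀ hx0]
      refine (norm_lf_le (L i) x).trans (mul_le_mul_of_nonneg_right ?_ hx0.le)
      have h1 := Finset.single_le_sum (f := fun i => ‖L i‖) (fun i _ => norm_nonneg _)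
        (Finset.mem_univ i)
      have h2 := mul_le_mul_of_nonneg_left h1 (by positivity : (0 : ℝ) ≤ (n : ℝ) + 1)
      linarith
  · rw [hs']
    simp only
    split_ifs with h
    · rw [h, norm_zero, norm_one]
      positivity
    · rw [norm_div, ← hj0, mul_div_cancel₀ _ hx0.ne']
  · rw [hs']
    simp only
    rw [if_neg hi, norm_div, ← hj0]

namespace PtD

variable {L : ι → Fin (n + 1) → F} {B : ℝ} {x : Fin (n + 1) → F} (d : PtD L B x)

/-- the generators of the body of a point -/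
noncomputable def gen (k : Fin (n + 1)) : Fin (n + 1) → F :=
  fun j => d.s (d.β k) * psi L (Sum.inr (d.β, k)) j

/-- the forms of the family on the generators -/
theorem lf_gen_le {B' : ℝ} (hB' : ∀ i p, ‖lf (L i) (psi L p)‖ ≤ B') (hB0 : 0 ≤ B') (i : ι)
    (k : Fin (n + 1)) : ‖lf (L i) (d.gen k)‖ ≤ B' * ‖d.s i‖ := by
  have h1 : lf (L i) (d.gen k) = d.s (d.β k) * lf (L i) (psi L (Sum.inr (d.β, k))) := by
    unfold lf gen
    rw [Finset.mul_sum]
    exact Finset.sum_congr rfl fun j _ => by ring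
  rw [h1, norm_mul]
  obtain ⟨c, hc⟩ := exists_coeff (fun a => L (d.β a)) d.det_ne (L i)
  have h2 : lf (L i) (psi L (Sum.inr (d.β, k))) = c k :=
    coeff_unique (Matrix.of fun a => L (d.β a)) d.det_ne (L i) c hc k
  by_cases h3 : c k = 0
  · rw [h2, h3, norm_zero, mul_zero]
    positivity
  · have h4 := d.greedy i c hc k h3
    have h5 := hB' i (Sum.inr (d.β, k))
    calc ‖d.s (d.β k)‖ * ‖lf (L i) (psi L (Sum.inr (d.β, k)))‖ ≤ ‖d.s i‖ * B' :=
          mul_le_mul h4 h5 (norm_nonneg _) (norm_nonneg _)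
      _ = B' * ‖d.s i‖ := mul_comm _ _

theorem gen_le {B' : ℝ} (hB' : ∀ i j, ‖psi L i j‖ ≤ B') (hB : 0 ≤ B) (k j : Fin (n + 1)) :
    ‖d.gen k j‖ ≤ B * B' := by
  unfold gen
  rw [norm_mul]
  exact mul_le_mul (d.s_le _) (hB' _ _) (norm_nonneg _) hB

end PtD

end Pool.Agent.T9h24
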