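import Mathlib
import Pool.Agent.T9h24.Exn

/-!
Expansions of linear forms which are small on several bodies.
-/

set_option autoImplicit false
set_option linter.unusedSectionVars false

open Finset MvPolynomial

namespace Pool.Agent.T9h24

variable {F : Type} [NormedField F] {n : ℕ}

theorem Mx_mono {T : Type} (gen : T → Fin (n + 1) → Fin (n + 1) → F)
    (gen' : T → Fin (n + 1) → Fin (n + 1) → F) (c c' : Fin (n + 1) → T) (B : ℝ) (hB : 0 ≤ B)
    (h : ∀ l k, ∃ t : Fin (n + 1) → F, (∀ κ, ‖t κ‖ ≤ B) ∧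
      gen (c l) k = fun j => ∑ κ, t κ * gen' (c' l) κ j) :
    Mx gen c ≤ (((n : ℝ) + 1) * B) ^ (n + 1) * Mx gen' c' := by
  refine Mx_le gen c _ fun k => ?_
  choose t ht hgt using h
  have h1 : (Matrix.of fun l => gen (c l) (k l)) =
      Matrix.of fun l j => ∑ κ, t l (k l) κ * gen' (c' l) κ j := by
    ext l j
    rw [Matrix.of_apply, Matrix.of_apply, hgt l (k l)]
  rw [h1]
  exact det_expand_le (fun l κ => t l (k l) κ) (fun l κ => gen' (c' l) κ) B _ hB
    (fun l κ => ht l (k l) κ) fun k' => le_Mx gen' c' k'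

theorem Mx_pos {T : Type} (gen : T → Fin (n + 1) → Fin (n + 1) → F)
    (h : ∀ o, (Matrix.of (gen o)).det ≠ 0) (c : Fin (n + 1) → T) : 0 < Mx gen c := by
  by_contra hcon
  have h0 : Mx gen c = 0 := le_antisymm (not_lt.1 hcon) (Mx_nonneg gen c)
  have h1 : ∀ l k : Fin (n + 1), ∃ t : Fin (n + 1) → F,
      (Pi.single l 1 : Fin (n + 1) → F) = fun j => ∑ κ, t κ * gen (c l) κ j := by
    intro l _
    obtain ⟨t, ht⟩ := exists_coeff (gen (c l)) (h (c l)) (Pi.single l (1 : F))
    refine ⟨t, ?_⟩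
    rw [ht]
    funext j
    simp only [Finset.sum_apply, Pi.smul_apply, smul_eq_mul]
  choose t ht using fun l => h1 l 0
  have h2 := det_expand_le t (fun l => gen (c l))
    (∑ p : Fin (n + 1) × Fin (n + 1), ‖t p.1 p.2‖) 0
    (Finset.sum_nonneg fun p _ => norm_nonneg _)
    (fun l k => Finset.single_le_sum (f := fun p : Fin (n + 1) × Fin (n + 1) => ‖t p.1 p.2‖)
      (fun p _ => norm_nonneg _) (Finset.mem_univ (l, k)))
    (fun k => by rw [← h0]; exact le_Mx gen c k)
  have h3 : (Matrix.of fun l j => ∑ k, t l k * gen (c l) k j) =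
      (1 : Matrix (Fin (n + 1)) (Fin (n + 1)) F) := by
    ext l j
    rw [Matrix.of_apply, Matrix.one_apply]
    have h4 := congrFun (ht l) j
    rw [← h4, Pi.single_apply]
    simp only [eq_comm]
  rw [h3, Matrix.det_one, norm_one, mul_zero] at h2
  linarith

variable {ι : Type} [Fintype ι] {L : ι → Fin (n + 1) → F} {B : ℝ}

/-- the generators for all types -/
noncomputable def genO {H : Type} {ℓ : H → Fin (n + 1) → F} (d : ∀ τ, PtD L B (ℓ τ)) :
    Option H → Fin (n + 1) → Fin (n + 1) → F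
  | none => fun k => Pi.single k 1
  | some τ => (d τ).gen

theorem det_genO {H : Type} {ℓ : H → Fin (n + 1) → F} (d : ∀ τ, PtD L B (ℓ τ)) (o : Option H) :
    (Matrix.of (genO d o)).det ≠ 0 := by
  classical
  rcases o with _ | τ
  · have h1 : (Matrix.of (genO d none)) = (1 : Matrix (Fin (n + 1)) (Fin (n + 1)) F) := by
      ext k j
      rw [Matrix.of_apply, Matrix.one_apply]
      show (Pi.single k (1 : F) : Fin (n + 1) → F) j = _
      rw [Pi.single_apply]
      simp only [eq_comm]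
    rw [h1, Matrix.det_one]
    exact one_ne_zero
  · have h1 : (Matrix.of (genO d (some τ))) =
        Matrix.diagonal (fun k => (d τ).s ((d τ).β k)) *
          ((Matrix.of fun a => L ((d τ).β a))⁻¹).transpose := by
      ext k j
      rw [Matrix.diagonal_mul, Matrix.transpose_apply]
      rfl
    rw [h1, Matrix.det_mul, Matrix.det_diagonal, Matrix.det_transpose]
    refine mul_ne_zero (Finset.prod_ne_zero_iff.2 fun k _ => (d τ).s_ne _) ?_
    intro h2
    have h3 : (Matrix.of fun a => L ((d τ).β a)) * (Matrix.of fun a => L ((d τ).β a))⁻¹ = 1 :=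
      Matrix.mul_nonsing_inv _ (isUnit_iff_ne_zero.2 (d τ).det_ne)
    have h4 := congrArg Matrix.det h3
    rw [Matrix.det_mul, h2, mul_zero, Matrix.det_one] at h4
    exact zero_ne_one h4

/-- **Expansion.** -/
theorem expansion {H : Type} [Fintype H] {ℓ : H → Fin (n + 1) → F} (d : ∀ τ, PtD L B (ℓ τ))
    (B' : ℝ) (hB' : ∀ p γ k, ‖lf (psi L p) (QQ L γ k)‖ ≤ B')
    (q : Fin (n + 1) → F) (μ : Option H → ℝ)
    (hq : ∀ o k, ‖lf (genO d o k) q‖ ≤ μ o) :
    ∃ (γ : Fin (n + 1) → Jx n ι) (θ : Fin (n + 1) → F),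
      (q = fun j => ∑ k, θ k * QQ L γ k j) ∧
      ∀ τ k, ‖θ k‖ * ‖lf (QQ L γ k) (ℓ τ)‖ ≤ ((n : ℝ) + 1) * B' * μ (some τ) * ‖ℓ τ‖ := by
  classical
  set jx : Option H × Fin (n + 1) → Jx n ι := fun p =>
    match p.1 with
    | none => Sum.inl p.2
    | some τ => Sum.inr ((d τ).β, p.2) with hjx
  set bd : Option H × Fin (n + 1) → ℝ := fun p =>
    match p.1 with
    | none => μ none
    | some τ => μ (some τ) / ‖(d τ).s ((d τ).β p.2)‖ with hbd
  have hbdq : ∀ p, ‖lf (psi L (jx p)) q‖ ≤ bd p := by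
    rintro ⟨o, k⟩
    rcases o with _ | τ
    · exact hq none k
    · show ‖lf (psi L (Sum.inr ((d τ).β, k))) q‖ ≤ μ (some τ) / ‖(d τ).s ((d τ).β k)‖
      have hs : 0 < ‖(d τ).s ((d τ).β k)‖ := norm_pos_iff.2 ((d τ).s_ne _)
      rw [le_div_iff₀ hs]
      have h1 := hq (some τ) k
      have h2 : lf (genO d (some τ) k) q =
          (d τ).s ((d τ).β k) * lf (psi L (Sum.inr ((d τ).β, k))) q := by
        unfold lf
        rw [Finset.mul_sum]
        refine Finset.sum_congr rfl fun j _ => ?_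
        show (d τ).s ((d τ).β k) * psi L (Sum.inr ((d τ).β, k)) j * q j = _
        ring
      rw [h2, norm_mul] at h1
      linarith
  obtain ⟨δ, hδ, hgr⟩ := greedy (fun p => psi L (jx p)) ⟨fun k => (none, k), by
    have h1 : (Matrix.of fun k : Fin (n + 1) => psi L (jx (none, k))) =
        (1 : Matrix (Fin (n + 1)) (Fin (n + 1)) F) := by
      ext k j
      rw [Matrix.of_apply, Matrix.one_apply]
      show (Pi.single k (1 : F) : Fin (n + 1) → F) j = _
      rw [Pi.single_apply]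
      simp only [eq_comm]
    rw [h1, Matrix.det_one]
    exact one_ne_zero⟩ bd
  set γ : Fin (n + 1) → Jx n ι := fun k => jx (δ k) with hγ
  set Ψ : Matrix (Fin (n + 1)) (Fin (n + 1)) F := Matrix.of fun k => psi L (γ k) with hΨ
  have hQ : ∀ k j, QQ L γ k j = Ψ⁻¹ j k := fun k j => rfl
  refine ⟨γ, fun k => lf (psi L (γ k)) q, ?_, fun τ k => ?_⟩
  · exact col_expand Ψ hδ q
  · -- the point in the dual basis of its frame
    have h1 := col_expand (Matrix.of fun a => L ((d τ).β a)) (d τ).det_ne (ℓ τ)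
    have h2 : lf (QQ L γ k) (ℓ τ) = ∑ k', lf (L ((d τ).β k')) (ℓ τ) *
        lf (psi L (Sum.inr ((d τ).β, k'))) (QQ L γ k) := by
      unfold lf
      conv_lhs => rw [h1]
      simp only [Finset.mul_sum]
      rw [Finset.sum_comm]
      refine Finset.sum_congr rfl fun k' _ => Finset.sum_congr rfl fun j _ => ?_
      show QQ L γ k j * ((∑ i, L ((d τ).β k') i * ℓ τ i) *
        (Matrix.of fun a => L ((d τ).β a))⁻¹ j k') =
        (∑ i, L ((d τ).β k') i * ℓ τ i) * (psi L (Sum.inr ((d τ).β, k')) j * QQ L γ k j)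
      show QQ L γ k j * ((∑ i, L ((d τ).β k') i * ℓ τ i) *
        (Matrix.of fun a => L ((d τ).β a))⁻¹ j k') =
        (∑ i, L ((d τ).β k') i * ℓ τ i) *
          ((Matrix.of fun a => L ((d τ).β a))⁻¹ j k' * QQ L γ k j)
      ring
    rw [h2]
    have hθ := hbdq (δ k)
    have hterm : ∀ k' ∈ (Finset.univ : Finset (Fin (n + 1))),
        ‖lf (psi L (γ k)) q‖ * ‖lf (L ((d τ).β k')) (ℓ τ) *
          lf (psi L (Sum.inr ((d τ).β, k'))) (QQ L γ k)‖ ≤ B' * μ (some τ) * ‖ℓ τ‖ := by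
      intro k' _
      obtain ⟨c, hc⟩ := exists_coeff (fun a => psi L (γ a)) hδ
        (psi L (jx (some τ, k')))
      have h3 : lf (psi L (Sum.inr ((d τ).β, k'))) (QQ L γ k) = c k :=
        coeff_unique Ψ hδ (psi L (jx (some τ, k'))) c hc k
      have hs : 0 < ‖(d τ).s ((d τ).β k')‖ := norm_pos_iff.2 ((d τ).s_ne _)
      have hμ0 : 0 ≤ μ (some τ) := (norm_nonneg _).trans (hq (some τ) 0)
      have hB0 : 0 ≤ B' := (norm_nonneg _).trans (hB' (Sum.inl 0) γ 0)
      by_cases h4 : c k = 0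
      · rw [h3, h4, mul_zero, norm_zero, mul_zero]
        positivity
      · have h5 := hgr (some τ, k') c hc k h4
        have h6 : bd (some τ, k') = μ (some τ) / ‖(d τ).s ((d τ).β k')‖ := rfl
        rw [h6] at h5
        have h7 := (d τ).lf_le ((d τ).β k')
        rw [norm_mul]
        have h8 := hB' (Sum.inr ((d τ).β, k')) γ k
        calc ‖lf (psi L (γ k)) q‖ * (‖lf (L ((d τ).β k')) (ℓ τ)‖ *
              ‖lf (psi L (Sum.inr ((d τ).β, k'))) (QQ L γ k)‖) ≤
            (μ (some τ) / ‖(d τ).s ((d τ).β k')‖) *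
              ((‖ℓ τ‖ * ‖(d τ).s ((d τ).β k')‖) * B') := by
              refine mul_le_mul (hθ.trans h5) (mul_le_mul h7 h8 (norm_nonneg _) ?_) ?_ ?_
              · positivity
              · positivity
              · positivity
          _ = B' * μ (some τ) * ‖ℓ τ‖ := by
              field_simp
    calc ‖lf (psi L (γ k)) q‖ * ‖∑ k', lf (L ((d τ).β k')) (ℓ τ) *
          lf (psi L (Sum.inr ((d τ).β, k'))) (QQ L γ k)‖ ≤
        ‖lf (psi L (γ k)) q‖ * ∑ k', ‖lf (L ((d τ).β k')) (ℓ τ) *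
          lf (psi L (Sum.inr ((d τ).β, k'))) (QQ L γ k)‖ :=
          mul_le_mul_of_nonneg_left (norm_sum_le _ _) (norm_nonneg _)
      _ = ∑ k', ‖lf (psi L (γ k)) q‖ * ‖lf (L ((d τ).β k')) (ℓ τ) *
          lf (psi L (Sum.inr ((d τ).β, k'))) (QQ L γ k)‖ := by rw [Finset.mul_sum]
      _ ≤ ∑ _k' : Fin (n + 1), B' * μ (some τ) * ‖ℓ τ‖ := Finset.sum_le_sum hterm
      _ = ((n : ℝ) + 1) * B' * μ (some τ) * ‖ℓ τ‖ := by
          rw [Finset.sum_const, Finset.card_univ, Fintype.card_fin, nsmul_eq_mul]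
          push_cast
          ring

end Pool.Agent.T9h24
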