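import Mathlib

/-!
Local estimates for the values of a companion polynomial at the roots of a polynomial.
-/

set_option autoImplicit false
set_option linter.unusedSectionVars false

open Polynomial

namespace Pool.Agent.T9h24

variable {F : Type} [NormedField F]

/-- the local height of the point `P` of the affine line at `x` -/
noncomputable def lam (P x : F) : ℝ := Real.log (max 1 ‖P‖ * max 1 ‖x‖ / ‖x - P‖)

/-- the local height of the point at infinity at `x` -/
noncomputable def lamInf (x : F) : ℝ := Real.log (max 1 ‖x‖)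

theorem max1_pos (x : F) : 0 < max 1 ‖x‖ := lt_of_lt_of_le one_pos (le_max_left _ _)

theorem one_le_max1 (x : F) : 1 ≤ max 1 ‖x‖ := le_max_left _ _

theorem lamInf_nonneg (x : F) : 0 ≤ lamInf x := Real.log_nonneg (one_le_max1 x)

theorem lam_eq (P x : F) (h : x ≠ P) : lam P x = lamInf P + lamInf x - Real.log ‖x - P‖ := by
  unfold lam lamInf
  have h1 : 0 < ‖x - P‖ := norm_pos_iff.2 (sub_ne_zero.2 h)
  rw [Real.log_div (mul_pos (max1_pos P) (max1_pos x)).ne' h1.ne',
    Real.log_mul (max1_pos P).ne' (max1_pos x).ne']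

/-- the coefficients of a product -/
theorem sum_coeff_le (s : Multiset F) (t : ℝ) (ht : 0 ≤ t) (n : ℕ) :
    ∑ j ∈ Finset.range (n + 1), ‖(s.map fun y => X - C y).prod.coeff j‖ * t ^ j ≤
      (s.map fun y => ‖y‖ + t).prod := by
  induction s using Multiset.induction_on generalizing n with
  | empty =>
    rw [Multiset.map_zero, Multiset.prod_zero, Multiset.map_zero, Multiset.prod_zero,
      Finset.sum_range_succ']
    simp [Polynomial.coeff_one]
  | cons a s ih =>
    rw [Multiset.map_cons, Multiset.prod_cons, Multiset.map_cons, Multiset.prod_cons]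
    set p := (s.map fun y => X - C y).prod with hp
    have h1 : ∀ j, ‖((X - C a) * p).coeff (j + 1)‖ * t ^ (j + 1) ≤
        t * (‖p.coeff j‖ * t ^ j) + ‖a‖ * (‖p.coeff (j + 1)‖ * t ^ (j + 1)) := by
      intro j
      rw [coeff_X_sub_C_mul]
      have h2 : ‖p.coeff j - a * p.coeff (j + 1)‖ ≤ ‖p.coeff j‖ + ‖a‖ * ‖p.coeff (j + 1)‖ := by
        rw [← norm_mul]
        exact norm_sub_le _ _
      have h3 := mul_le_mul_of_nonneg_right h2 (pow_nonneg ht (j + 1))
      refine h3.trans (le_of_eq ?_)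
      ring
    have h0 : ‖((X - C a) * p).coeff 0‖ * t ^ 0 = ‖a‖ * (‖p.coeff 0‖ * t ^ 0) := by
      have h4 : ((X - C a) * p).coeff 0 = -(a * p.coeff 0) := by
        rw [mul_coeff_zero]
        simp
      rw [h4, norm_neg, norm_mul]
      ring
    rw [Finset.sum_range_succ']
    have h5 : ∑ j ∈ Finset.range n, ‖((X - C a) * p).coeff (j + 1)‖ * t ^ (j + 1) ≤
        t * ∑ j ∈ Finset.range n, ‖p.coeff j‖ * t ^ j +
          ‖a‖ * ∑ j ∈ Finset.range n, ‖p.coeff (j + 1)‖ * t ^ (j + 1) := by
      rw [Finset.mul_sum, Finset.mul_sum, ← Finset.sum_add_distrib]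
      exact Finset.sum_le_sum fun j _ => h1 j
    have h6 : ∑ j ∈ Finset.range n, ‖p.coeff j‖ * t ^ j ≤ (s.map fun y => ‖y‖ + t).prod := by
      refine le_trans ?_ (ih n)
      rw [Finset.sum_range_succ]
      have : 0 ≤ ‖p.coeff n‖ * t ^ n := by positivity
      linarith
    have h7 := ih n
    rw [Finset.sum_range_succ'] at h7
    have h8 := mul_le_mul_of_nonneg_left h6 ht
    have h9 := mul_le_mul_of_nonneg_left h7 (norm_nonneg a)
    rw [h0]
    calc ∑ j ∈ Finset.range n, ‖((X - C a) * p).coeff (j + 1)‖ * t ^ (j + 1) +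
          ‖a‖ * (‖p.coeff 0‖ * t ^ 0)
        ≤ t * (s.map fun y => ‖y‖ + t).prod +
          ‖a‖ * (∑ j ∈ Finset.range n, ‖p.coeff (j + 1)‖ * t ^ (j + 1) +
            ‖p.coeff 0‖ * t ^ 0) := by
          rw [mul_add]
          linarith
      _ ≤ t * (s.map fun y => ‖y‖ + t).prod + ‖a‖ * (s.map fun y => ‖y‖ + t).prod := by
          linarith
      _ = (‖a‖ + t) * (s.map fun y => ‖y‖ + t).prod := by ring

theorem taylor_prod (s : Multiset F) (P : F) :
    taylor P (s.map fun y => X - C y).prod = ((s.map fun y => y - P).map fun z => X - C z).prod := by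
  induction s using Multiset.induction_on with
  | empty => simp
  | cons a s ih =>
    simp only [Multiset.map_cons, Multiset.prod_cons, taylor_mul, ih]
    congr 1
    rw [map_sub, taylor_X, taylor_C, C_sub]
    ring

/-- the Taylor coefficients of a polynomial with given roots -/
theorem sum_taylor_le (h : F[X]) (hs : h.Splits) (P : F) (t : ℝ) (ht : 0 ≤ t) (n : ℕ) :
    ∑ j ∈ Finset.range (n + 1), ‖(taylor P h).coeff j‖ * t ^ j ≤
      ‖h.leadingCoeff‖ * (h.roots.map fun y => ‖y - P‖ + t).prod := by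
  have h1 : taylor P h = C h.leadingCoeff *
      ((h.roots.map fun y => y - P).map fun z => X - C z).prod := by
    conv_lhs => rw [hs.eq_prod_roots]
    rw [taylor_mul, taylor_C, taylor_prod]
  have h2 := sum_coeff_le (h.roots.map fun y => y - P) t ht n
  have e1 : ((h.roots.map fun y => y - P).map fun y => ‖y‖ + t) =
      h.roots.map fun y => ‖y - P‖ + t := by
    rw [Multiset.map_map]
    rfl
  rw [e1] at h2
  have h3 : ∀ j, ‖(taylor P h).coeff j‖ * t ^ j = ‖h.leadingCoeff‖ *
      (‖((h.roots.map fun y => y - P).map fun z => X - C z).prod.coeff j‖ * t ^ j) := by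
    intro j
    rw [h1, coeff_C_mul, norm_mul]
    ring
  rw [Finset.sum_congr rfl fun j _ => h3 j, ← Finset.mul_sum]
  exact mul_le_mul_of_nonneg_left h2 (norm_nonneg _)

/-- the value of a companion -/
theorem eval_le (h g : F[X]) (hs : h.Splits) (P x : F) (r : ℕ) (hg : g.natDegree ≤ r) (R : ℝ)
    (hR : 0 ≤ R) (hgh : ∀ j, j ≤ r → ‖(taylor P g).coeff j‖ ≤ R * ‖(taylor P h).coeff j‖) :
    ‖g.eval x‖ ≤ R * (‖h.leadingCoeff‖ * (h.roots.map fun y => ‖y - P‖ + ‖x - P‖).prod) := by
  have h1 : g.eval x = ∑ j ∈ Finset.range (r + 1), (taylor P g).coeff j * (x - P) ^ j := by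
    have h2 : (taylor P g).natDegree < r + 1 := by
      rw [natDegree_taylor]
      omega
    rw [← Polynomial.eval_eq_sum_range' h2, taylor_eval, sub_add_cancel]
  rw [h1]
  refine (norm_sum_le _ _).trans ?_
  have h3 := sum_taylor_le h hs P ‖x - P‖ (norm_nonneg _) r
  refine le_trans ?_ (mul_le_mul_of_nonneg_left h3 hR)
  rw [Finset.mul_sum]
  refine Finset.sum_le_sum fun j hj => ?_
  rw [norm_mul, norm_pow, ← mul_assoc]
  exact mul_le_mul_of_nonneg_right (hgh j (by
    have := Finset.mem_range.1 hj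
    omega)) (by positivity)

/-- the Mahler measure -/
noncomputable def mm (h : F[X]) : ℝ := ‖h.leadingCoeff‖ * (h.roots.map fun y => max 1 ‖y‖).prod

theorem log_prod_map {α : Type} (s : Multiset α) (f : α → ℝ) (hf : ∀ a ∈ s, f a ≠ 0) :
    Real.log (s.map f).prod = (s.map fun a => Real.log (f a)).sum := by
  induction s using Multiset.induction_on with
  | empty => simp
  | cons a s ih =>
    rw [Multiset.map_cons, Multiset.prod_cons, Multiset.map_cons, Multiset.sum_cons,
      Real.log_mul (hf a (Multiset.mem_cons_self a s)) ?_,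
      ih fun b hb => hf b (Multiset.mem_cons_of_mem hb)]
    intro h0
    rw [Multiset.prod_eq_zero_iff] at h0
    obtain ⟨b, hb, hb0⟩ := Multiset.mem_map.1 h0
    exact hf b (Multiset.mem_cons_of_mem hb) hb0

theorem log_mm (h : F[X]) (h0 : h ≠ 0) :
    Real.log (mm h) = Real.log ‖h.leadingCoeff‖ + (h.roots.map lamInf).sum := by
  unfold mm
  have h1 : 0 < ‖h.leadingCoeff‖ := norm_pos_iff.2 (leadingCoeff_ne_zero.2 h0)
  have h2 : 0 < (h.roots.map fun y => max 1 ‖y‖).prod := by
    refine Multiset.prod_pos fun a ha => ?_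
    obtain ⟨y, -, rfl⟩ := Multiset.mem_map.1 ha
    exact max1_pos y
  rw [Real.log_mul h1.ne' h2.ne', log_prod_map _ _ fun y _ => (max1_pos y).ne']
  rfl

/-- the local heights -/
noncomputable def lamO : Option F → F → ℝ
  | none => lamInf
  | some P => lam P

theorem log_add_le {a b m : ℝ} (ha : 0 ≤ a) (hb : 0 ≤ b) (hab : 0 < a + b) (h1 : a = 0 ∨ Real.log a ≤ m)
    (h2 : b = 0 ∨ Real.log b ≤ m) : Real.log (a + b) ≤ Real.log 2 + m := by
  rcases le_total a b with h | h
  · have hb0 : 0 < b := by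
      rcases hb.lt_or_eq with h' | h'
      · exact h'
      · rw [← h'] at h hab
        linarith
    have h3 : Real.log b ≤ m := by
      rcases h2 with h2 | h2
      · exact absurd h2 hb0.ne'
      · exact h2
    have h4 : Real.log (a + b) ≤ Real.log (2 * b) := Real.log_le_log hab (by linarith)
    rw [Real.log_mul two_ne_zero hb0.ne'] at h4
    linarith
  · have ha0 : 0 < a := by
      rcases ha.lt_or_eq with h' | h'
      · exact h'
      · rw [← h'] at h hab
        linarith
    have h3 : Real.log a ≤ m := by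
      rcases h1 with h1 | h1
      · exact absurd h1 ha0.ne'
      · exact h1
    have h4 : Real.log (a + b) ≤ Real.log (2 * a) := Real.log_le_log hab (by linarith)
    rw [Real.log_mul two_ne_zero ha0.ne'] at h4
    linarith

/-- the value at one root: general form -/
theorem root_bound (h g : F[X]) (hs : h.Splits) (h0 : h ≠ 0) (r : ℕ) (hr : h.roots.card = r)
    (P x : F) (hg : g.natDegree ≤ r) (R : ℝ) (hR : 0 < R)
    (hgh : ∀ j, j ≤ r → ‖(taylor P g).coeff j‖ ≤ R * ‖(taylor P h).coeff j‖)
    (hgx : g.eval x ≠ 0) (A : ℝ) (m : F → ℝ)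
    (hm : ∀ y ∈ h.roots, ‖y - P‖ = 0 ∨ Real.log ‖y - P‖ ≤ A + lamInf y + lamInf x - m y)
    (hm' : ∀ y ∈ h.roots, ‖x - P‖ = 0 ∨ Real.log ‖x - P‖ ≤ A + lamInf y + lamInf x - m y) :
    Real.log ‖g.eval x‖ ≤ Real.log R + Real.log (mm h) + r * lamInf x + r * (Real.log 2 + A) -
      (h.roots.map m).sum := by
  have h1 := eval_le h g hs P x r hg R hR.le hgh
  have h2 : 0 < ‖g.eval x‖ := norm_pos_iff.2 hgx
  have h3 : 0 < ‖h.leadingCoeff‖ := norm_pos_iff.2 (leadingCoeff_ne_zero.2 h0)
  have h4 : (h.roots.map fun y => ‖y - P‖ + ‖x - P‖).prod ≠ 0 := by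
    intro h5
    rw [h5, mul_zero, mul_zero] at h1
    linarith
  have h5 : ∀ y ∈ h.roots, ‖y - P‖ + ‖x - P‖ ≠ 0 := by
    intro y hy h6
    apply h4
    rw [Multiset.prod_eq_zero_iff]
    exact Multiset.mem_map.2 ⟨y, hy, h6⟩
  have h6 := Real.log_le_log h2 h1
  have h7 : (h.roots.map fun y => ‖y - P‖ + ‖x - P‖).prod ≠ 0 := h4
  rw [Real.log_mul hR.ne' (mul_ne_zero h3.ne' h7), Real.log_mul h3.ne' h7,
    log_prod_map _ _ h5] at h6
  have h8 : (h.roots.map fun y => Real.log (‖y - P‖ + ‖x - P‖)).sum ≤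
      (h.roots.map fun y => (Real.log 2 + A + lamInf x) + (lamInf y - m y)).sum := by
    refine Multiset.sum_map_le_sum_map _ _ fun y hy => ?_
    have h9 : 0 < ‖y - P‖ + ‖x - P‖ :=
      lt_of_le_of_ne (add_nonneg (norm_nonneg _) (norm_nonneg _)) (h5 y hy).symm
    have h10 := log_add_le (norm_nonneg _) (norm_nonneg _) h9 (hm y hy) (hm' y hy)
    linarith
  rw [Multiset.sum_map_add, Multiset.map_const', Multiset.sum_replicate, hr,
    Multiset.sum_map_sub, nsmul_eq_mul] at h8
  have h9 := log_mm h h0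
  have h10 : (h.roots.map fun y => lamInf y).sum = (h.roots.map lamInf).sum := rfl
  have h11 : (h.roots.map fun y => m y).sum = (h.roots.map m).sum := rfl
  rw [h10, h11] at h8
  linarith

/-- the value at one root, for one point of the divisor -/
theorem root_bound_O (h g : F[X]) (hs : h.Splits) (h0 : h ≠ 0) (r : ℕ) (hr : h.roots.card = r)
    (D : Finset (Option F)) (x : F) (hx : x ∈ h.roots) (hD : ∀ y ∈ h.roots, some y ∉ D)
    (hg : g.natDegree ≤ r) (R : ℝ) (hR : 0 < R)
    (hgh : ∀ P, (P = 0 ∨ some P ∈ D) → ∀ j, j ≤ r →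
      ‖(taylor P g).coeff j‖ ≤ R * ‖(taylor P h).coeff j‖)
    (hgx : g.eval x ≠ 0) (A : ℝ) (hA0 : 0 ≤ A) (hA : ∀ P, some P ∈ D → lamInf P ≤ A)
    (P : Option F) (hP : P ∈ D ∨ P = none) :
    Real.log ‖g.eval x‖ ≤ Real.log R + Real.log (mm h) + r * lamInf x + r * (Real.log 2 + A) -
      (h.roots.map fun y => min (lamO P y) (lamO P x)).sum := by
  rcases P with _ | P
  · refine root_bound h g hs h0 r hr 0 x hg R hR (hgh 0 (Or.inl rfl)) hgx A _ ?_ ?_
    · intro y hy
      rw [sub_zero]
      right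
      show Real.log ‖y‖ ≤ A + lamInf y + lamInf x - min (lamInf y) (lamInf x)
      have h1 : Real.log ‖y‖ ≤ lamInf y := by
        rcases (norm_nonneg y).lt_or_eq with h' | h'
        · exact Real.log_le_log h' (le_max_right _ _)
        · rw [← h', Real.log_zero]
          exact lamInf_nonneg y
      have h2 := min_le_right (lamInf y) (lamInf x)
      linarith
    · intro y hy
      rw [sub_zero]
      right
      show Real.log ‖x‖ ≤ A + lamInf y + lamInf x - min (lamInf y) (lamInf x)
      have h1 : Real.log ‖x‖ ≤ lamInf x := by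
        rcases (norm_nonneg x).lt_or_eq with h' | h'
        · exact Real.log_le_log h' (le_max_right _ _)
        · rw [← h', Real.log_zero]
          exact lamInf_nonneg x
      have h2 := min_le_left (lamInf y) (lamInf x)
      linarith
  · have hPD : some P ∈ D := by
      rcases hP with h | h
      · exact h
      · exact absurd h (by simp)
    have hne : ∀ y ∈ h.roots, y ≠ P := by
      intro y hy h
      exact hD y hy (by rw [h]; exact hPD)
    refine root_bound h g hs h0 r hr P x hg R hR (hgh P (Or.inr hPD)) hgx A _ ?_ ?_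
    · intro y hy
      right
      show Real.log ‖y - P‖ ≤ A + lamInf y + lamInf x - min (lam P y) (lam P x)
      have h1 := lam_eq P y (hne y hy)
      have h2 := min_le_left (lam P y) (lam P x)
      have h3 := hA P hPD
      have h4 := lamInf_nonneg x
      linarith
    · intro y hy
      right
      show Real.log ‖x - P‖ ≤ A + lamInf y + lamInf x - min (lam P y) (lam P x)
      have h1 := lam_eq P x (hne x hx)
      have h2 := min_le_right (lam P y) (lam P x)
      have h3 := hA P hPD
      have h4 := lamInf_nonneg y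
      linarith

theorem max1_le (P x : F) (h : ‖x - P‖ ≤ max 1 ‖x‖ / 2) : max 1 ‖x‖ ≤ 2 * max 1 ‖P‖ := by
  have h1 : ‖x‖ ≤ ‖P‖ + ‖x - P‖ := by
    have := norm_add_le P (x - P)
    rwa [add_sub_cancel] at this
  have h2 : ‖P‖ ≤ max 1 ‖P‖ := le_max_right _ _
  have h3 : 1 ≤ max 1 ‖P‖ := le_max_left _ _
  rcases le_total 1 ‖x‖ with h4 | h4
  · rw [max_eq_right h4] at h ⊢
    linarith
  · rw [max_eq_left h4]
    linarith

/-- a point is near at most one point of the divisor -/
theorem sep2 (P P' : Option F) (hPP : P ≠ P') : ∃ κ : ℝ, 0 ≤ κ ∧ ∀ x : F, P ≠ some x →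
    P' ≠ some x → min (lamO P x) (lamO P' x) ≤ κ := by
  have hfin : ∀ (P : F) (K x : ℝ) (y : F), 0 < K → y ≠ P → Real.log K < lam P y →
      ‖y - P‖ < max 1 ‖P‖ * max 1 ‖y‖ / K := by
    intro P K _ y hK hy h
    have h1 : 0 < ‖y - P‖ := norm_pos_iff.2 (sub_ne_zero.2 hy)
    unfold lam at h
    have h2 : 0 < max 1 ‖P‖ * max 1 ‖y‖ / ‖y - P‖ :=
      div_pos (mul_pos (max1_pos P) (max1_pos y)) h1
    have h3 := (Real.log_lt_log_iff hK h2).1 h
    rw [lt_div_iff₀ h1] at h3
    rw [lt_div_iff₀ hK]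
    linarith
  have hinf : ∀ P : F, ∃ κ : ℝ, 0 ≤ κ ∧ ∀ x : F, x ≠ P → min (lam P x) (lamInf x) ≤ κ := by
    intro P
    have hP := one_le_max1 P
    refine ⟨Real.log (2 * max 1 ‖P‖), Real.log_nonneg (by linarith), fun x hx => ?_⟩
    by_contra hcon
    push Not at hcon
    rw [lt_min_iff] at hcon
    have h1 := hfin P (2 * max 1 ‖P‖) 0 x (by linarith) hx hcon.1
    have h2 : max 1 ‖P‖ * max 1 ‖x‖ / (2 * max 1 ‖P‖) = max 1 ‖x‖ / 2 := by
      field_simp
    rw [h2] at h1
    have h3 := max1_le P x h1.le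
    have h4 := Real.log_le_log (max1_pos x) h3
    have h5 := hcon.2
    unfold lamInf at h5
    linarith
  rcases P with _ | P
  · rcases P' with _ | P'
    · exact absurd rfl hPP
    · obtain ⟨κ, hκ, h⟩ := hinf P'
      refine ⟨κ, hκ, fun x _ hx => ?_⟩
      have := h x (fun h' => hx (by rw [h']))
      rw [min_comm] at this
      exact this
  · rcases P' with _ | P'
    · obtain ⟨κ, hκ, h⟩ := hinf P
      exact ⟨κ, hκ, fun x hx _ => h x (fun h' => hx (by rw [h']))⟩
    · have hne : P ≠ P' := fun h => hPP (by rw [h])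
      have hd : 0 < ‖P - P'‖ := norm_pos_iff.2 (sub_ne_zero.2 hne)
      have ha := one_le_max1 P
      have hb := one_le_max1 P'
      set a := max 1 ‖P‖ with ha'
      set b := max 1 ‖P'‖ with hb'
      set K := 2 * a + (a + b) * (2 * a) / ‖P - P'‖ with hK
      have hpos : 0 < (a + b) * (2 * a) / ‖P - P'‖ := by positivity
      have hK1 : 1 ≤ K := by linarith
      have hK0 : 0 < K := by linarith
      refine ⟨Real.log K, Real.log_nonneg hK1, fun x hx hx' => ?_⟩
      by_contra hcon
      push Not at hcon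
      rw [lt_min_iff] at hcon
      have hxP : x ≠ P := fun h => hx (by rw [h])
      have hxP' : x ≠ P' := fun h => hx' (by rw [h])
      have h1 := hfin P K 0 x hK0 hxP hcon.1
      have h2 := hfin P' K 0 x hK0 hxP' hcon.2
      rw [← ha'] at h1
      rw [← hb'] at h2
      have hm := max1_pos x
      have h3 : a * max 1 ‖x‖ / K ≤ max 1 ‖x‖ / 2 := by
        rw [div_le_div_iff₀ hK0 two_pos]
        nlinarith
      have h4 := max1_le P x (h1.le.trans h3)
      rw [← ha'] at h4
      have h5 : ‖P - P'‖ ≤ ‖x - P‖ + ‖x - P'‖ := by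
        have := norm_sub_le (x - P') (x - P)
        rw [show x - P' - (x - P) = P - P' by ring] at this
        linarith
      have h6 : ‖P - P'‖ < (a + b) * (2 * a) / K := by
        have h7 : (a + b) * max 1 ‖x‖ / K ≤ (a + b) * (2 * a) / K :=
          div_le_div_of_nonneg_right (mul_le_mul_of_nonneg_left h4 (by linarith)) hK0.le
        have h8 : (a + b) * max 1 ‖x‖ / K = a * max 1 ‖x‖ / K + b * max 1 ‖x‖ / K := by ring
        linarith
      rw [lt_div_iff₀ hK0] at h6
      have h7 : ‖P - P'‖ * ((a + b) * (2 * a) / ‖P - P'‖) = (a + b) * (2 * a) := by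
        field_simp
      have h8 : ‖P - P'‖ * K = ‖P - P'‖ * (2 * a) + (a + b) * (2 * a) := by
        rw [hK, mul_add, h7]
      have h9 : 0 < ‖P - P'‖ * (2 * a) := by positivity
      linarith

theorem sep (D : Finset (Option F)) : ∃ κ : ℝ, 0 ≤ κ ∧ ∀ P ∈ D, ∀ P' ∈ D, P ≠ P' →
    ∀ x : F, some x ∉ D → min (lamO P x) (lamO P' x) ≤ κ := by
  classical
  have h1 : ∀ p : Option F × Option F, ∃ κ : ℝ, 0 ≤ κ ∧ (p.1 ≠ p.2 → ∀ x : F, p.1 ≠ some x →
      p.2 ≠ some x → min (lamO p.1 x) (lamO p.2 x) ≤ κ) := by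
    intro p
    by_cases h : p.1 = p.2
    · exact ⟨0, le_rfl, fun h' => absurd h h'⟩
    · obtain ⟨κ, hκ, h2⟩ := sep2 p.1 p.2 h
      exact ⟨κ, hκ, fun _ => h2⟩
  choose κ hκ0 hκ using h1
  refine ⟨∑ p ∈ D ×ˢ D, κ p, Finset.sum_nonneg fun p _ => hκ0 p,
    fun P hP P' hP' hPP x hx => ?_⟩
  refine (hκ (P, P') hPP x (fun h => hx (h ▸ hP)) (fun h => hx (h ▸ hP'))).trans ?_
  exact Finset.single_le_sum (f := κ) (fun p _ => hκ0 p) (Finset.mem_product.2 ⟨hP, hP'⟩)

/-- the sum over the pairs of roots -/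
noncomputable def pairs (D : Finset (Option F)) (h : F[X]) : ℝ :=
  ∑ P ∈ D, (h.roots.map fun x => (h.roots.map fun y => min (lamO P y) (lamO P x)).sum).sum

/-- **The local estimate.** -/
theorem local_bound (D : Finset (Option F)) (r : ℕ) : ∃ C : ℝ, 0 ≤ C ∧
    ∀ (h g : F[X]), h.Splits → h ≠ 0 → h.roots.card = r → (∀ y ∈ h.roots, some y ∉ D) →
    g.natDegree ≤ r → ∀ R : ℝ, 0 < R →
    (∀ P, (P = 0 ∨ some P ∈ D) → ∀ j, j ≤ r →
      ‖(taylor P g).coeff j‖ ≤ R * ‖(taylor P h).coeff j‖) →
    (∀ x ∈ h.roots, g.eval x ≠ 0) →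
    (h.roots.map fun x => Real.log ‖g.eval x‖).sum ≤
      r * (h.roots.map lamInf).sum + r * Real.log R + r * Real.log (mm h) + C - pairs D h := by
  classical
  obtain ⟨κ, hκ0, hκ⟩ := sep D
  set A : ℝ := ∑ P ∈ D, (P.elim 0 lamInf) with hA
  have hAnn : ∀ P ∈ D, 0 ≤ P.elim 0 lamInf := by
    rintro (_ | P) _
    · exact le_rfl
    · exact lamInf_nonneg P
  have hA0 : 0 ≤ A := Finset.sum_nonneg hAnn
  have hAP : ∀ P, some P ∈ D → lamInf P ≤ A := fun P hP =>
    Finset.single_le_sum (f := fun P : Option F => P.elim 0 lamInf) hAnn hP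
  have hl2 : 0 ≤ Real.log 2 := Real.log_nonneg (by norm_num)
  refine ⟨r * (r * (Real.log 2 + A) + D.card * (r * κ)), by positivity,
    fun h g hs h0 hr hD hg R hR hgh hgx => ?_⟩
  have hx : ∀ x ∈ h.roots, Real.log ‖g.eval x‖ ≤ Real.log R + Real.log (mm h) + r * lamInf x +
      (r * (Real.log 2 + A) + D.card * (r * κ)) -
        ∑ P ∈ D, (h.roots.map fun y => min (lamO P y) (lamO P x)).sum := by
    intro x hx
    rcases D.eq_empty_or_nonempty with hDe | hDn
    · have h1 := root_bound_O h g hs h0 r hr D x hx hD hg R hR hgh (hgx x hx) A hA0 hAP none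
        (Or.inr rfl)
      have h2 : 0 ≤ (h.roots.map fun y => min (lamO none y) (lamO none x)).sum := by
        refine Multiset.sum_nonneg fun a ha => ?_
        obtain ⟨y, -, rfl⟩ := Multiset.mem_map.1 ha
        exact le_min (lamInf_nonneg y) (lamInf_nonneg x)
      have h3 : ∑ P ∈ D, (h.roots.map fun y => min (lamO P y) (lamO P x)).sum = 0 := by
        rw [hDe, Finset.sum_empty]
      rw [h3]
      have h4 : 0 ≤ (D.card : ℝ) * (r * κ) := by positivity
      linarith
    · obtain ⟨Q, hQ, hmax⟩ := Finset.exists_max_image D (fun P => lamO P x) hDn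
      have h1 := root_bound_O h g hs h0 r hr D x hx hD hg R hR hgh (hgx x hx) A hA0 hAP Q
        (Or.inl hQ)
      have h2 : ∑ P ∈ D, (h.roots.map fun y => min (lamO P y) (lamO P x)).sum ≤
          (h.roots.map fun y => min (lamO Q y) (lamO Q x)).sum + D.card * (r * κ) := by
        rw [← Finset.add_sum_erase D _ hQ]
        refine add_le_add le_rfl ?_
        have h3 : ∀ P ∈ D.erase Q, (h.roots.map fun y => min (lamO P y) (lamO P x)).sum ≤
            r * κ := by
          intro P hP
          have hPD := Finset.mem_of_mem_erase hP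
          have hPQ := Finset.ne_of_mem_erase hP
          have h4 := hκ P hPD Q hQ hPQ x (hD x hx)
          rw [min_eq_left (hmax P hPD)] at h4
          have h5 : (h.roots.map fun y => min (lamO P y) (lamO P x)).sum ≤
              (h.roots.map fun _ => κ).sum :=
            Multiset.sum_map_le_sum_map _ _ fun y _ => (min_le_right _ _).trans h4
          rw [Multiset.map_const', Multiset.sum_replicate, hr, nsmul_eq_mul] at h5
          exact h5
        refine (Finset.sum_le_sum h3).trans ?_
        rw [Finset.sum_const, nsmul_eq_mul]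
        have h4 : ((D.erase Q).card : ℝ) ≤ D.card := by
          exact_mod_cast Finset.card_le_card (Finset.erase_subset Q D)
        exact mul_le_mul_of_nonneg_right h4 (by positivity)
      linarith
  have hsum := Multiset.sum_map_le_sum_map (s := h.roots) _ _ hx
  refine hsum.trans (le_of_eq ?_)
  have e1 : (h.roots.map fun x => Real.log R + Real.log (mm h) + r * lamInf x +
      (r * (Real.log 2 + A) + D.card * (r * κ)) -
        ∑ P ∈ D, (h.roots.map fun y => min (lamO P y) (lamO P x)).sum).sum =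
      (h.roots.map fun _ => Real.log R + Real.log (mm h) +
        (r * (Real.log 2 + A) + D.card * (r * κ))).sum +
      (h.roots.map fun x => r * lamInf x).sum -
      (h.roots.map fun x => ∑ P ∈ D,
        (h.roots.map fun y => min (lamO P y) (lamO P x)).sum).sum := by
    rw [← Multiset.sum_map_add, ← Multiset.sum_map_sub]
    congr 1
    refine Multiset.map_congr rfl fun x _ => ?_
    ring
  rw [e1, Multiset.map_const', Multiset.sum_replicate, hr, nsmul_eq_mul,
    Multiset.sum_map_mul_left]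
  have e2 : (h.roots.map fun x => ∑ P ∈ D,
      (h.roots.map fun y => min (lamO P y) (lamO P x)).sum).sum = pairs D h := by
    unfold pairs
    rw [Multiset.sum_map_sum]
  rw [e2]
  have e3 : (h.roots.map fun i => lamInf i).sum = (h.roots.map lamInf).sum := rfl
  rw [e3]
  ring

end Pool.Agent.T9h24
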