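import Mathlib
import Pool.Agent.T9h24.Loc

/-!
The estimate of a resultant at one place.
-/

set_option autoImplicit false
set_option linter.unusedSectionVars false

open Polynomial

namespace Pool.Agent.T9h24

/-- a polynomial over the integers, over a field -/
noncomputable def mp (F : Type) [Field F] (f : ℤ[X]) : F[X] := f.map (Int.castRingHom F)

open Classical in
/-- the points of the divisor over the field `F` -/
noncomputable def divi (F : Type) [Field F] (G : ℤ[X]) (q : ℕ) : Finset (Option F) :=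
  (mp F G).roots.toFinset.image some ∪ if G.natDegree < q then {none} else ∅

theorem some_mem_divi {F : Type} [Field F] {G : ℤ[X]} {q : ℕ} {P : F} :
    some P ∈ divi F G q ↔ P ∈ (mp F G).roots := by
  classical
  unfold divi
  rw [Finset.mem_union, Finset.mem_image]
  constructor
  · rintro (⟨P', h1, h2⟩ | h)
    · rw [← Option.some.inj h2]
      exact Multiset.mem_toFinset.1 h1
    · split_ifs at h with h'
      · exact absurd (Finset.mem_singleton.1 h) (by simp)
      · exact absurd h (Finset.notMem_empty _)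
  · intro h
    exact Or.inl ⟨P, Multiset.mem_toFinset.2 h, rfl⟩

theorem mp_ne {F : Type} [Field F] [CharZero F] {f : ℤ[X]} (hf : f ≠ 0) : mp F f ≠ 0 :=
  (Polynomial.map_ne_zero_iff (RingHom.injective_int _)).2 hf

theorem natDegree_mp {F : Type} [Field F] [CharZero F] (f : ℤ[X]) :
    (mp F f).natDegree = f.natDegree := natDegree_map_eq_of_injective (RingHom.injective_int _) f

theorem mp_splits {F : Type} [Field F] [IsAlgClosed F] (f : ℤ[X]) : (mp F f).Splits :=
  IsAlgClosed.splits _

theorem card_roots_mp {F : Type} [Field F] [CharZero F] [IsAlgClosed F] (f : ℤ[X]) :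
    (mp F f).roots.card = f.natDegree := by
  rw [← natDegree_mp (F := F) f]
  exact (mp_splits f).natDegree_eq_card_roots.symm

/-- the resultant over a field -/
theorem res_mp {F : Type} [Field F] [CharZero F] [IsAlgClosed F] (f g : ℤ[X]) (r : ℕ)
    (hf : f.natDegree = r) (hg : g.natDegree ≤ r) :
    ((resultant f g r r : ℤ) : F) =
      (mp F f).leadingCoeff ^ r * ((mp F f).roots.map fun x => (mp F g).eval x).prod := by
  have h1 := resultant_map_map f g r r (Int.castRingHom F)
  have h2 := resultant_eq_prod_eval (mp F f) (mp F g) r (by rw [natDegree_mp]; exact hg)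
    (mp_splits f)
  rw [natDegree_mp, hf] at h2
  have h3 : resultant (mp F f) (mp F g) r r = ((resultant f g r r : ℤ) : F) := h1
  rw [← h3, h2]

/-- **One place.** -/
theorem place_bound {F : Type} [NormedField F] [CharZero F] [IsAlgClosed F] (G : ℤ[X])
    (q r : ℕ) : ∃ C : ℝ, 0 ≤ C ∧ ∀ f g : ℤ[X], f ≠ 0 → f.natDegree = r → g.natDegree ≤ r →
      (∀ x ∈ (mp F f).roots, x ∉ (mp F G).roots) →
      (∀ x ∈ (mp F f).roots, (mp F g).eval x ≠ 0) → ∀ R : ℝ, 0 < R →
      (∀ P : F, (P = 0 ∨ P ∈ (mp F G).roots) → ∀ j, j ≤ r →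
        ‖(taylor P (mp F g)).coeff j‖ ≤ R * ‖(taylor P (mp F f)).coeff j‖) →
      Real.log ‖((resultant f g r r : ℤ) : F)‖ ≤
        2 * r * Real.log (mm (mp F f)) + r * Real.log R + C - pairs (divi F G q) (mp F f) := by
  obtain ⟨C, hC, h⟩ := local_bound (divi F G q) r
  refine ⟨C, hC, fun f g hf0 hf hg hG hgx R hR hT => ?_⟩
  have h0 := mp_ne (F := F) hf0
  have hcard : (mp F f).roots.card = r := by rw [card_roots_mp, hf]
  have h1 := h (mp F f) (mp F g) (mp_splits f) h0 hcard
    (fun y hy h' => hG y hy (some_mem_divi.1 h')) (by rw [natDegree_mp]; exact hg) R hR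
    (fun P hP => hT P (by
      rcases hP with hP | hP
      · exact Or.inl hP
      · exact Or.inr (some_mem_divi.1 hP))) hgx
  rw [res_mp f g r hf hg, norm_mul, norm_pow]
  have h2 : ‖((mp F f).roots.map fun x => (mp F g).eval x).prod‖ =
      ((mp F f).roots.map fun x => ‖(mp F g).eval x‖).prod :=
    (Multiset.prod_hom' ((mp F f).roots) (normHom : F →*₀ ℝ) fun x => (mp F g).eval x).symm
  have ha : 0 < ‖(mp F f).leadingCoeff‖ := norm_pos_iff.2 (leadingCoeff_ne_zero.2 h0)
  have h3 : ((mp F f).roots.map fun x => ‖(mp F g).eval x‖).prod ≠ 0 := by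
    intro h4
    rw [Multiset.prod_eq_zero_iff] at h4
    obtain ⟨x, hx, hx0⟩ := Multiset.mem_map.1 h4
    exact hgx x hx (norm_eq_zero.1 hx0)
  rw [h2, Real.log_mul (pow_pos ha r).ne' h3, Real.log_pow,
    log_prod_map _ _ fun x hx => (norm_pos_iff.2 (hgx x hx)).ne']
  have h4 := log_mm (mp F f) h0
  have h5 : (r : ℝ) * Real.log ‖(mp F f).leadingCoeff‖ +
      r * ((mp F f).roots.map lamInf).sum = r * Real.log (mm (mp F f)) := by
    rw [h4]; ring
  linarith

end Pool.Agent.T9h24
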