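import Mathlib
import Pool.Agent.T9h24.Plc

/-!
Algebraic preliminaries for the global theorem.
-/

set_option autoImplicit false
set_option linter.unusedSectionVars false

open Polynomial

namespace Pool.Agent.T9h24

/-- the polynomial with given coefficients -/
noncomputable def py {r : ℕ} (y : Fin (r + 1) → ℤ) : ℤ[X] :=
  ∑ i : Fin (r + 1), C (y i) * X ^ (i : ℕ)

theorem py_coeff {r : ℕ} (y : Fin (r + 1) → ℤ) (i : Fin (r + 1)) : (py y).coeff i = y i := by
  unfold py
  rw [finsetSum_coeff]
  simp only [coeff_C_mul, coeff_X_pow]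
  rw [Finset.sum_eq_single i]
  · simp
  · intro j _ hj
    rw [if_neg (fun h => hj (Fin.ext h.symm)), mul_zero]
  · intro h
    exact absurd (Finset.mem_univ _) h

theorem py_deg {r : ℕ} (y : Fin (r + 1) → ℤ) : (py y).natDegree ≤ r := by
  unfold py
  refine natDegree_sum_le_of_forall_le _ _ fun i _ => ?_
  refine (natDegree_C_mul_X_pow_le _ _).trans ?_
  have := i.2
  omega

theorem py_self {r : ℕ} (f : ℤ[X]) (hf : f.natDegree ≤ r) :
    py (fun i : Fin (r + 1) => f.coeff i) = f := by
  ext n
  rcases Nat.lt_or_ge n (r + 1) with h | h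
  · exact py_coeff (fun i : Fin (r + 1) => f.coeff i) ⟨n, h⟩
  · rw [coeff_eq_zero_of_natDegree_lt (by
      have := py_deg (fun i : Fin (r + 1) => f.coeff i)
      omega), coeff_eq_zero_of_natDegree_lt (by omega)]

theorem mp_coeff (F : Type) [Field F] (f : ℤ[X]) (n : ℕ) : (mp F f).coeff n = (f.coeff n : F) := by
  unfold mp
  rw [coeff_map]
  rfl

/-- the Taylor coefficients -/
theorem taylor_mp (F : Type) [Field F] (f : ℤ[X]) (r : ℕ) (hf : f.natDegree ≤ r) (P : F) (j : ℕ) :
    (taylor P (mp F f)).coeff j =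
      ∑ i : Fin (r + 1), (((i : ℕ).choose j : ℕ) : F) * P ^ ((i : ℕ) - j) * (f.coeff i : F) := by
  rw [taylor_coeff]
  have h1 : (mp F f).natDegree < r + 1 := by
    have : (mp F f).natDegree ≤ f.natDegree := natDegree_map_le
    omega
  rw [(mp F f).as_sum_range' (r + 1) h1, map_sum, eval_finsetSum, Finset.sum_range]
  refine Finset.sum_congr rfl fun i _ => ?_
  rw [hasseDeriv_monomial, eval_monomial, mp_coeff]
  ring

/-- a primitive polynomial has a primitive vector of coefficients -/
theorem exists_bezout (f : ℤ[X]) (hf : f.IsPrimitive) (r : ℕ) (hr : f.natDegree ≤ r) :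
    ∃ u : Fin (r + 1) → ℤ, ∑ i, u i * f.coeff i = 1 := by
  obtain ⟨d, hd⟩ := (IsPrincipalIdealRing.principal
    (Ideal.span (Set.range fun i : Fin (r + 1) => f.coeff i))).principal
  have h1 : ∀ i : Fin (r + 1), d ∣ f.coeff i := by
    intro i
    have h2 : f.coeff i ∈ Ideal.span (Set.range fun i : Fin (r + 1) => f.coeff i) :=
      Ideal.subset_span ⟨i, rfl⟩
    rw [hd] at h2
    exact Ideal.mem_span_singleton.1 h2
  have h3 : C d ∣ f := by
    rw [C_dvd_iff_dvd_coeff]
    intro i
    rcases Nat.lt_or_ge i (r + 1) with h | h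
    · exact h1 ⟨i, h⟩
    · rw [coeff_eq_zero_of_natDegree_lt (by omega)]
      exact dvd_zero d
  have h4 : IsUnit d := hf d h3
  have h5 : (1 : ℤ) ∈ Ideal.span (Set.range fun i : Fin (r + 1) => f.coeff i) := by
    rw [hd]
    exact Ideal.mem_span_singleton.2 h4.dvd
  obtain ⟨u, hu⟩ := (Ideal.mem_span_range_iff_exists_fun).1 h5
  exact ⟨u, hu⟩

theorem mp_rat {F : Type} [Field F] [CharZero F] (f : ℤ[X]) :
    (mp ℚ f).map (Rat.castHom F) = mp F f := by
  unfold mp
  rw [Polynomial.map_map]
  congr 1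
  exact RingHom.ext_int _ _

/-- no common root -/
theorem eval_ne {f g : ℤ[X]} (hf : Irreducible f) (hdeg : f.natDegree ≠ 0)
    (hnd : ¬ mp ℚ f ∣ mp ℚ g) {F : Type} [Field F] [CharZero F] (x : F)
    (hx : (mp F f).eval x = 0) : (mp F g).eval x ≠ 0 := by
  intro hgx
  have hirr : Irreducible (mp ℚ f) :=
    ((hf.isPrimitive hdeg).irreducible_iff_irreducible_map_fraction_map (K := ℚ)).1 hf
  have hcop : IsCoprime (mp ℚ f) (mp ℚ g) := (hirr.coprime_iff_not_dvd).2 hnd
  obtain ⟨a, b, hab⟩ := hcop
  have h1 := congrArg (fun p : ℚ[X] => (p.map (Rat.castHom F)).eval x) hab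
  simp only [Polynomial.map_add, Polynomial.map_mul, Polynomial.map_one, eval_add, eval_mul,
    eval_one, mp_rat, hx, hgx, mul_zero, add_zero] at h1
  exact zero_ne_one h1

/-- a polynomial which is not proportional is not divisible -/
theorem not_dvd {f g : ℤ[X]} {r : ℕ} (hf0 : f ≠ 0) (hf : f.natDegree = r) (hg : g.natDegree ≤ r)
    (h : ¬ ∃ a : ℚ, ∀ i : Fin (r + 1), (g.coeff i : ℚ) = a * (f.coeff i : ℚ)) :
    ¬ mp ℚ f ∣ mp ℚ g := by
  rintro ⟨k, hk⟩
  apply h
  have hf' : mp ℚ f ≠ 0 := mp_ne hf0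
  have hk0 : k.natDegree = 0 := by
    rcases eq_or_ne k 0 with rfl | hk0
    · exact natDegree_zero
    · have h1 := congrArg natDegree hk
      rw [natDegree_mul hf' hk0, natDegree_mp, natDegree_mp] at h1
      omega
  obtain ⟨a, ha⟩ := natDegree_eq_zero.1 hk0
  refine ⟨a, fun i => ?_⟩
  rw [← mp_coeff, ← mp_coeff, hk, ← ha, mul_comm, coeff_C_mul]

instance primesFact (p : Nat.Primes) : Fact (p : ℕ).Prime := ⟨p.2⟩

/-- the product formula for an integer -/
theorem sum_log_nonneg (S : Finset Nat.Primes) (n : ℤ) (hn : n ≠ 0) :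
    0 ≤ Real.log |(n : ℝ)| + ∑ p ∈ S, Real.log ‖(n : ℚ_[(p : ℕ)])‖ := by
  classical
  have h1 : ∀ p : Nat.Primes, Real.log ‖(n : ℚ_[(p : ℕ)])‖ =
      -((n.natAbs.factorization p : ℕ) * Real.log (p : ℕ)) := by
    intro p
    have h2 : ‖(n : ℚ_[(p : ℕ)])‖ = ((p : ℕ) : ℝ) ^ (-(padicValInt p n : ℤ)) := by
      have := Padic.norm_eq_zpow_neg_valuation (p := (p : ℕ)) (x := (n : ℚ_[(p : ℕ)]))
        (by exact_mod_cast hn)
      rw [this, Padic.valuation_intCast]
    rw [h2, Real.log_zpow, padicValInt, Nat.factorization_def _ p.2, Int.cast_neg,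
      Int.cast_natCast]
    ring
  simp only [h1]
  rw [Finset.sum_neg_distrib]
  have h0 : n.natAbs ≠ 0 := Int.natAbs_ne_zero.2 hn
  have h3 : Real.log |(n : ℝ)| = ∑ p ∈ n.natAbs.primeFactors,
      (n.natAbs.factorization p : ℝ) * Real.log p := by
    have h2 : |(n : ℝ)| = (n.natAbs : ℝ) := by rw [Nat.cast_natAbs]; push_cast; rfl
    rw [h2]
    conv_lhs => rw [← Nat.prod_factorization_pow_eq_self h0]
    rw [Finsupp.prod, Nat.support_factorization]
    push_cast
    rw [Real.log_prod]
    · exact Finset.sum_congr rfl fun p _ => Real.log_pow _ _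
    · intro p hp
      have := (Nat.prime_of_mem_primeFactors hp).ne_zero
      positivity
  have h4 : ∑ p ∈ S, ((n.natAbs.factorization p : ℕ) : ℝ) * Real.log (p : ℕ) =
      ∑ p ∈ S.image (fun p : Nat.Primes => (p : ℕ)),
        ((n.natAbs.factorization p : ℕ) : ℝ) * Real.log p :=
    (Finset.sum_image (s := S) (g := fun p : Nat.Primes => (p : ℕ))
      (f := fun p : ℕ => ((n.natAbs.factorization p : ℕ) : ℝ) * Real.log p)
      fun p _ p' _ h => Nat.Primes.coe_nat_injective h).symm
  have h5 : ∑ p ∈ S.image (fun p : Nat.Primes => (p : ℕ)),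
      ((n.natAbs.factorization p : ℕ) : ℝ) * Real.log p ≤
      ∑ p ∈ n.natAbs.primeFactors, (n.natAbs.factorization p : ℝ) * Real.log p := by
    have h6 : ∑ p ∈ S.image (fun p : Nat.Primes => (p : ℕ)),
        ((n.natAbs.factorization p : ℕ) : ℝ) * Real.log p =
        ∑ p ∈ (S.image (fun p : Nat.Primes => (p : ℕ))) ∩ n.natAbs.primeFactors,
          ((n.natAbs.factorization p : ℕ) : ℝ) * Real.log p := by
      symm
      refine Finset.sum_subset Finset.inter_subset_left fun p hp hp' => ?_
      have h7 : p ∉ n.natAbs.primeFactors := fun h => hp' (Finset.mem_inter.2 ⟨hp, h⟩)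
      rw [← Nat.support_factorization, Finsupp.notMem_support_iff] at h7
      rw [h7]
      simp
    rw [h6]
    refine Finset.sum_le_sum_of_subset_of_nonneg Finset.inter_subset_right fun p hp _ => ?_
    have := (Nat.prime_of_mem_primeFactors hp).one_lt
    have h8 : 0 ≤ Real.log (p : ℝ) := Real.log_nonneg (by exact_mod_cast this.le)
    positivity
  rw [h3, h4]
  linarith

theorem norm_int_padicAlgCl (p : ℕ) [Fact p.Prime] (n : ℤ) :
    ‖(n : PadicAlgCl p)‖ = ‖(n : ℚ_[p])‖ := by
  have := PadicAlgCl.norm_extends p (n : ℚ_[p])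
  rw [← this]
  congr 1

/-- the Mahler measure is at most one at a finite place -/
theorem mm_padic {F : Type} [NormedField F] [IsUltrametricDist F] [CharZero F] [IsAlgClosed F]
    (f : ℤ[X]) : mm (mp F f) ≤ 1 := by
  classical
  have hna : IsNonarchimedean (NormedField.toAbsoluteValue F) := fun x y =>
    IsUltrametricDist.norm_add_le_max x y
  have hX : ∀ y : F, (X - C y : F[X]).gaussNorm (NormedField.toAbsoluteValue F) 1 = max 1 ‖y‖ := by
    intro y
    apply le_antisymm
    · obtain ⟨i, hi⟩ := exists_eq_gaussNorm (NormedField.toAbsoluteValue F) 1 (X - C y : F[X])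
      rw [hi, one_pow, mul_one]
      show ‖(X - C y : F[X]).coeff i‖ ≤ _
      rcases i with _ | i
      · simp
      · rcases i with _ | i
        · simp
        · have h1 : (X - C y : F[X]).coeff (i + 1 + 1) = 0 :=
            coeff_eq_zero_of_natDegree_lt (by rw [natDegree_X_sub_C]; omega)
          rw [h1, norm_zero]
          exact (max1_pos y).le
    · refine max_le ?_ ?_
      · have := le_gaussNorm (NormedField.toAbsoluteValue F) (X - C y : F[X])
          (c := 1) zero_le_one 1
        have h1 : NormedField.toAbsoluteValue F ((X - C y : F[X]).coeff 1) = 1 := by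
          simp
        rw [h1] at this
        simpa using this
      · have := le_gaussNorm (NormedField.toAbsoluteValue F) (X - C y : F[X])
          (c := 1) zero_le_one 0
        have h1 : NormedField.toAbsoluteValue F ((X - C y : F[X]).coeff 0) = ‖y‖ := by
          have h2 : (X - C y : F[X]).coeff 0 = -y := by simp
          rw [h2]
          show ‖-y‖ = _
          rw [norm_neg]
        rw [h1] at this
        simpa using this
  have hprod : ∀ s : Multiset F, (s.map fun y => (X - C y : F[X])).prod.gaussNorm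
      (NormedField.toAbsoluteValue F) 1 = (s.map fun y => max 1 ‖y‖).prod := by
    intro s
    induction s using Multiset.induction_on with
    | empty =>
      rw [Multiset.map_zero, Multiset.prod_zero, Multiset.map_zero, Multiset.prod_zero]
      have := gaussNorm_C (NormedField.toAbsoluteValue F) 1 (1 : F)
      rw [C_1] at this
      rw [this, map_one]
    | cons a s ih =>
      rw [Multiset.map_cons, Multiset.prod_cons, Multiset.map_cons, Multiset.prod_cons,
        gaussNorm_mul hna one_pos, ih, hX]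
  have h1 : (mp F f).gaussNorm (NormedField.toAbsoluteValue F) 1 = mm (mp F f) := by
    conv_lhs => rw [(mp_splits f).eq_prod_roots]
    rw [gaussNorm_mul hna one_pos, gaussNorm_C, hprod]
    rfl
  rw [← h1]
  obtain ⟨i, hi⟩ := exists_eq_gaussNorm (NormedField.toAbsoluteValue F) 1 (mp F f)
  rw [hi, one_pow, mul_one, mp_coeff]
  exact IsUltrametricDist.norm_intCast_le_one F _

end Pool.Agent.T9h24
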