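import Mathlib
import Pool.Agent.T9h24.Core

/-!
The companion theorem: all points.
-/

set_option autoImplicit false
set_option linter.unusedSectionVars false

open Finset NumberField IsDedekindDomain Height

namespace Pool.Agent.T9h24

open Pool.Agent.Y742.SF (fv fv_eq fv_pos fv_nonneg fv_int fv_eq_one_iff fv_mul)
open Pool.Agent.W180.OP (Pl av wt nrm le_nrm nrm_pos)
open Pool.Agent.R405 (Good dot exv)

variable {K : Type} [Field K] [NumberField K]

/-- integral coordinates on a rational hyperplane -/
theorem exists_hyper {N : ℕ} (z : Fin N → ℚ) (hz : z ≠ 0) :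
    ∃ (m : ℕ) (e : Fin m → Fin N → ℤ) (C : ℝ), m < N ∧ 0 ≤ C ∧
      LinearIndependent ℚ (fun a j => (e a j : ℚ)) ∧
      ∀ y : Fin N → ℤ, ∑ j, z j * (y j : ℚ) = 0 → ∃ c : Fin m → ℤ,
        (∀ j, y j = ∑ a, c a * e a j) ∧ ∀ a, |(c a : ℝ)| ≤ C * sz y := by
  classical
  set φ : (Fin N → ℤ) →ₗ[ℤ] ℚ :=
    { toFun := fun y => ∑ j, z j * (y j : ℚ)
      map_add' := fun x y => by
        rw [← Finset.sum_add_distrib]
        exact Finset.sum_congr rfl fun j _ => by
          rw [Pi.add_apply]; push_cast; ring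
      map_smul' := fun t y => by
        rw [Finset.smul_sum]
        refine Finset.sum_congr rfl fun j _ => ?_
        simp only [Pi.smul_apply, smul_eq_mul, RingHom.id_apply, zsmul_eq_mul]
        push_cast
        ring } with hφ
  obtain ⟨m, b⟩ := Submodule.basisOfPid (Pi.basisFun ℤ (Fin N)) (LinearMap.ker φ)
  set e : Fin m → Fin N → ℤ := fun a => (b a : Fin N → ℤ) with he
  have hke : ∀ a, ∑ j, z j * (e a j : ℚ) = 0 := fun a => (b a).2
  have hliZ : LinearIndependent ℤ e :=
    b.linearIndependent.map' (LinearMap.ker φ).subtype (Submodule.ker_subtype _)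
  have hliQ : LinearIndependent ℚ (fun a j => (e a j : ℚ)) := by
    rw [Fintype.linearIndependent_iff]
    intro q hq
    obtain ⟨⟨D, hD⟩, hDq⟩ := IsLocalization.exist_integer_multiples_of_finite
      (nonZeroDivisors ℤ) q
    choose p hp using hDq
    have hD0 : (D : ℚ) ≠ 0 := by exact_mod_cast nonZeroDivisors.ne_zero hD
    have hp' : ∀ a, (p a : ℚ) = D * q a := by
      intro a
      have := hp a
      simpa [zsmul_eq_mul] using this
    have h1 : ∑ a, p a • e a = 0 := by
      funext j
      have h2 := congrFun hq j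
      simp only [Finset.sum_apply, Pi.smul_apply, smul_eq_mul, Pi.zero_apply] at h2 ⊢
      have h3 : ((∑ a, p a * e a j : ℤ) : ℚ) = 0 := by
        push_cast
        simp only [hp']
        have : ∑ a, (D : ℚ) * q a * (e a j : ℚ) = D * ∑ a, q a * (e a j : ℚ) := by
          rw [Finset.mul_sum]
          exact Finset.sum_congr rfl fun a _ => by ring
        rw [this, h2, mul_zero]
      exact_mod_cast h3
    intro a
    have h4 := Fintype.linearIndependent_iff.1 hliZ p h1 a
    have h5 := hp' a
    rw [h4, Int.cast_zero] at h5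
    exact (mul_eq_zero.1 h5.symm).resolve_left hD0
  -- the dimension
  set ψ : (Fin N → ℚ) →ₗ[ℚ] ℚ := Fintype.linearCombination ℚ z with hψ
  have hψa : ∀ x, ψ x = ∑ j, x j * z j := fun x => by
    rw [hψ, Fintype.linearCombination_apply]
    rfl
  have hlt : Submodule.span ℚ (Set.range (fun a j => (e a j : ℚ))) < ⊤ := by
    refine lt_of_le_of_lt (b := LinearMap.ker ψ) ?_ ?_
    · refine Submodule.span_le.2 ?_
      rintro _ ⟨a, rfl⟩
      show ψ _ = 0
      rw [hψa]
      rw [← hke a]
      exact Finset.sum_congr rfl fun j _ => mul_comm _ _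
    · rw [lt_top_iff_ne_top]
      intro h
      apply hz
      funext j
      have h1 : Pi.single j (1 : ℚ) ∈ LinearMap.ker ψ := by rw [h]; exact Submodule.mem_top
      have h2 : ψ (Pi.single j (1 : ℚ)) = 0 := h1
      rw [hψa] at h2
      simpa [Pi.single_apply] using h2
  have hm : m < N := by
    have h1 := Submodule.finrank_lt hlt.ne
    rwa [finrank_span_eq_card hliQ, Fintype.card_fin, Module.finrank_fin_fun] at h1
  -- a left inverse
  have hinj : LinearMap.ker (Fintype.linearCombination ℚ (fun a j => (e a j : ℚ))) = ⊥ := by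
    rw [eq_bot_iff]
    intro c hc
    have h1 : Fintype.linearCombination ℚ (fun a j => (e a j : ℚ)) c = 0 := hc
    rw [Fintype.linearCombination_apply] at h1
    exact (Submodule.mem_bot ℚ).2 (funext fun i => Fintype.linearIndependent_iff.1 hliQ c h1 i)
  obtain ⟨P, hP⟩ := LinearMap.exists_leftInverse_of_injective _ hinj
  set C : ℝ := ∑ a, ∑ j, |((P (Pi.single j 1) a : ℚ) : ℝ)| with hC
  have hC0 : 0 ≤ C := Finset.sum_nonneg fun a _ => Finset.sum_nonneg fun j _ => abs_nonneg _
  refine ⟨m, e, C, hm, hC0, hliQ, fun y hy => ?_⟩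
  have hyk : y ∈ LinearMap.ker φ := hy
  set c : Fin m → ℤ := fun a => b.repr ⟨y, hyk⟩ a with hc
  have hyc : ∀ j, y j = ∑ a, c a * e a j := by
    intro j
    have h1 := congrArg (LinearMap.ker φ).subtype (b.sum_repr ⟨y, hyk⟩)
    rw [map_sum] at h1
    simp only [map_smul, Submodule.subtype_apply] at h1
    have h2 := congrFun h1 j
    simp only [Finset.sum_apply, Pi.smul_apply, smul_eq_mul] at h2
    exact h2.symm
  refine ⟨c, hyc, fun a => ?_⟩
  have h1 : P (fun j => (y j : ℚ)) = fun a => (c a : ℚ) := by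
    have h2 : (fun j => (y j : ℚ)) =
        Fintype.linearCombination ℚ (fun a j => (e a j : ℚ)) (fun a => (c a : ℚ)) := by
      rw [Fintype.linearCombination_apply]
      funext j
      rw [hyc j]
      push_cast
      simp only [Finset.sum_apply, Pi.smul_apply, smul_eq_mul]
    rw [h2]
    exact LinearMap.congr_fun hP _
  have h2 : (c a : ℚ) = ∑ j, (y j : ℚ) * P (Pi.single j 1) a := by
    have h3 : (fun j => (y j : ℚ)) = ∑ j, (y j : ℚ) • (Pi.single j (1 : ℚ) : Fin N → ℚ) := by
      funext i
      simp [Finset.sum_apply, Pi.single_apply]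
    rw [h3, map_sum] at h1
    have h4 := congrFun h1 a
    rw [← h4]
    simp only [map_smul, Finset.sum_apply, Pi.smul_apply, smul_eq_mul]
  have h3 : (c a : ℝ) = ∑ j, (y j : ℝ) * ((P (Pi.single j 1) a : ℚ) : ℝ) := by
    have := congrArg (fun q : ℚ => (q : ℝ)) h2
    push_cast at this
    exact this
  rw [h3]
  refine (Finset.abs_sum_le_sum_abs _ _).trans ?_
  have h4 : ∀ j, |(y j : ℝ) * ((P (Pi.single j 1) a : ℚ) : ℝ)| ≤
      |((P (Pi.single j 1) a : ℚ) : ℝ)| * sz y := fun j => by
    rw [abs_mul, mul_comm]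
    exact mul_le_mul_of_nonneg_left (le_sz y j) (abs_nonneg _)
  refine (Finset.sum_le_sum fun j _ => h4 j).trans ?_
  rw [← Finset.sum_mul]
  refine mul_le_mul_of_nonneg_right ?_ ((abs_nonneg _).trans (le_sz y ⟨0, by omega⟩))
  exact Finset.single_le_sum (f := fun a => ∑ j, |((P (Pi.single j 1) a : ℚ) : ℝ)|)
    (fun a _ => Finset.sum_nonneg fun j _ => abs_nonneg _) (Finset.mem_univ a)

/-- the conclusion of the companion theorem -/
def HasComp (T : Finset (HeightOneSpectrum (𝓞 K))) (C ε : ℝ) {N : ℕ} {ι : Type}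
    (L : ι → Fin N → 𝓞 K) (y : Fin N → ℤ) : Prop :=
  ∃ g : Fin N → 𝓞 K, (¬ ∃ a : K, ∀ j, (g j : K) = a * (y j : K)) ∧
    ∀ v : Pl K, (∀ Q, v = Sum.inr Q → Q ∈ T) → ∀ l,
      av v ((∑ j, L l j * g j : 𝓞 K) : K) ≤ Real.exp (C + ε * Real.log (sz y)) *
        av v ((∑ j, L l j * (y j : 𝓞 K) : 𝓞 K) : K)

theorem HasComp.mono {T : Finset (HeightOneSpectrum (𝓞 K))} {C C' ε : ℝ} {N : ℕ} {ι : Type}
    {L : ι → Fin N → 𝓞 K} {y : Fin N → ℤ} (h : HasComp T C ε L y) (hC : C ≤ C') :
    HasComp T C' ε L y := by
  obtain ⟨g, h1, h2⟩ := h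
  refine ⟨g, h1, fun v hv l => (h2 v hv l).trans ?_⟩
  refine mul_le_mul_of_nonneg_right (Real.exp_le_exp.2 ?_) ((av v).nonneg _)
  linarith

theorem finite_size {N : ℕ} (B : ℝ) : ∃ E : Finset (Fin N → ℤ), ∀ y : Fin N → ℤ, sz y ≤ B →
    y ∈ E := by
  classical
  refine ⟨Fintype.piFinset fun _ => Finset.Icc (-(⌈B⌉₊ : ℤ)) ⌈B⌉₊, fun y hy => ?_⟩
  refine Fintype.mem_piFinset.2 fun j => ?_
  have h1 : |(y j : ℝ)| ≤ (⌈B⌉₊ : ℝ) := ((le_sz y j).trans hy).trans (Nat.le_ceil _)
  rw [Finset.mem_Icc]
  exact abs_le.1 (by exact_mod_cast h1)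

/-- **The companion theorem** over a number field. -/
theorem companionK [IsGalois ℚ K] (hi : ∃ z : K, z ^ 2 = -1)
    (T : Finset (HeightOneSpectrum (𝓞 K))) (ε : ℝ) (hε : 0 < ε) (N : ℕ) :
    ∀ {ι : Type} [Fintype ι] (L : ι → Fin N → 𝓞 K),
      ∃ (C : ℝ) (E : Finset (Fin N → ℤ)), 0 ≤ C ∧ ∀ y : Fin N → ℤ,
        (∃ u : Fin N → ℤ, ∑ j, u j * y j = 1) → y ∉ E → HasComp T C ε L y := by
  classical
  induction N using Nat.strong_induction_on with
  | _ N ih =>
  intro ι _ L
  rcases Nat.lt_or_ge N 2 with hN | hN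
  · -- dimension at most one
    obtain ⟨E, hE⟩ := finite_size (N := N) 1
    refine ⟨0, E, le_rfl, fun y hy hyE => ?_⟩
    exfalso
    apply hyE
    apply hE
    obtain ⟨u, hu⟩ := hy
    have h01 : N = 0 ∨ N = 1 := by omega
    rcases h01 with rfl | rfl
    · simp at hu
    · rw [Fin.sum_univ_one] at hu
      have h1 : IsUnit (y 0) := IsUnit.of_mul_eq_one (u 0) (by rw [mul_comm]; exact hu)
      rw [Int.isUnit_iff] at h1
      unfold sz
      refine ciSup_le fun j => ?_
      have hj : j = 0 := Subsingleton.elim _ _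
      rw [hj]
      rcases h1 with h1 | h1 <;> rw [h1] <;> norm_num
  · -- the generic case
    set L' : ({l // L l ≠ 0} ⊕ Fin N) → Fin N → 𝓞 K := Sum.elim (fun l => L l.1)
      (fun i => Pi.single i 1) with hL'
    have hL'0 : ∀ l, L' l ≠ 0 := by
      rintro (l | i)
      · exact l.2
      · intro h
        have := congrFun h i
        simp [hL'] at this
    have hs : ∃ β : Fin N → ({l // L l ≠ 0} ⊕ Fin N),
        (Matrix.of fun a j => (L' (β a) j : K)).det ≠ 0 := by
      refine ⟨Sum.inr, ?_⟩
      have h1 : (Matrix.of fun a j => (L' (Sum.inr a) j : K)) = 1 := by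
        ext a j
        simp only [hL', Matrix.of_apply, Sum.elim_inr, Pi.single_apply, Matrix.one_apply]
        by_cases h : j = a
        · subst h; simp
        · rw [if_neg h, if_neg (Ne.symm h)]; simp
      rw [h1, Matrix.det_one]
      exact one_ne_zero
    obtain ⟨Z, C0, hZ, hC0, hcore⟩ := core hi hN L' hL'0 hs T ε hε
    -- the hyperplanes
    have hhyp : ∀ z : Fin N → ℚ, ∃ (C : ℝ) (E : Finset (Fin N → ℤ)), 0 ≤ C ∧ (z ∈ Z →
        ∀ y : Fin N → ℤ, (∃ u : Fin N → ℤ, ∑ j, u j * y j = 1) → ∑ j, z j * (y j : ℚ) = 0 →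
        y ∉ E → HasComp T C ε L y) := by
      intro z
      by_cases hz : z ∈ Z
      · obtain ⟨m, e, Ce, hm, hCe, hli, hco⟩ := exists_hyper z (hZ z hz)
        obtain ⟨C, E, hC, hcomp⟩ := ih m hm (fun l a => ∑ j, L l j * (e a j : 𝓞 K))
        refine ⟨C + ε * Real.log (Ce + 1), E.image fun c j => ∑ a, c a * e a j, by
          have := Real.log_nonneg (show (1 : ℝ) ≤ Ce + 1 by linarith)
          positivity, fun _ y hy hzy hyE => ?_⟩
        obtain ⟨c, hyc, hcb⟩ := hco y hzy
        obtain ⟨u, hu⟩ := hy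
        have hcE : c ∉ E := by
          intro h
          apply hyE
          refine Finset.mem_image.2 ⟨c, h, ?_⟩
          funext j
          exact (hyc j).symm
        have hcp : ∃ u' : Fin m → ℤ, ∑ a, u' a * c a = 1 := by
          refine ⟨fun a => ∑ j, u j * e a j, ?_⟩
          rw [← hu]
          simp only [hyc, Finset.sum_mul, Finset.mul_sum]
          rw [Finset.sum_comm]
          exact Finset.sum_congr rfl fun a _ => Finset.sum_congr rfl fun j _ => by ring
        have hc0 : c ≠ 0 := by
          rintro rfl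
          obtain ⟨u', hu'⟩ := hcp
          simp at hu'
        have hy0 : y ≠ 0 := by
          rintro rfl
          simp at hu
        obtain ⟨g, hg, hgv⟩ := hcomp c hcp hcE
        -- values
        have hval : ∀ (l : ι) (c' : Fin m → 𝓞 K), ∑ a, (∑ j, L l j * (e a j : 𝓞 K)) * c' a =
            ∑ j, L l j * ∑ a, c' a * (e a j : 𝓞 K) := by
          intro l c'
          simp only [Finset.sum_mul, Finset.mul_sum]
          rw [Finset.sum_comm]
          exact Finset.sum_congr rfl fun a _ => Finset.sum_congr rfl fun j _ => by ring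
        refine ⟨fun j => ∑ a, g a * (e a j : 𝓞 K), ?_, fun v hv l => ?_⟩
        · rintro ⟨t, ht⟩
          apply hg
          refine ⟨t, fun a => ?_⟩
          have hliK := Pool.Agent.R405.exv_li (K := K) hli
          have h1 : ∑ a, ((g a : K) - t * (c a : K)) • exv K (fun j => (e a j : ℚ)) = 0 := by
            funext j
            simp only [Finset.sum_apply, Pi.smul_apply, exv, smul_eq_mul, Pi.zero_apply,
              sub_mul, Finset.sum_sub_distrib]
            have h2 := ht j
            push_cast at h2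
            have h3 : (y j : K) = ∑ a, (c a : K) * (e a j : K) := by
              have := congrArg (fun q : ℤ => (q : K)) (hyc j)
              push_cast at this
              exact this
            rw [h3, Finset.mul_sum] at h2
            have h4 : ∀ a, algebraMap ℚ K ((e a j : ℤ) : ℚ) = (e a j : K) := fun a => by simp
            simp only [h4]
            rw [sub_eq_zero]
            refine Eq.trans (Finset.sum_congr rfl fun a _ => ?_)
              (h2.trans (Finset.sum_congr rfl fun a _ => by ring))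
            simp
          have h5 := Fintype.linearIndependent_iff.1 hliK _ h1 a
          exact sub_eq_zero.1 h5
        · have h1 := hgv v hv l
          rw [hval l g] at h1
          have h2 : ∑ a, (∑ j, L l j * (e a j : 𝓞 K)) * (c a : 𝓞 K) =
              ∑ j, L l j * (y j : 𝓞 K) := by
            rw [hval l (fun a => (c a : 𝓞 K))]
            refine Finset.sum_congr rfl fun j _ => ?_
            congr 1
            rw [hyc j]
            push_cast
            rfl
          rw [h2] at h1
          refine h1.trans (mul_le_mul_of_nonneg_right (Real.exp_le_exp.2 ?_) ((av v).nonneg _))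
          have hsc : sz c ≤ (Ce + 1) * sz y := by
            unfold sz
            have hne : Nonempty (Fin m) := by
              by_contra hcon
              rw [not_nonempty_iff] at hcon
              exact hc0 (funext fun a => hcon.elim a)
            refine ciSup_le fun a => (hcb a).trans ?_
            have := one_le_sz y hy0
            exact mul_le_mul_of_nonneg_right (by linarith) (by
              show 0 ≤ sz y
              linarith)
          have h3 := Real.log_le_log (by linarith [one_le_sz c hc0]) hsc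
          rw [Real.log_mul (by positivity) (by linarith [one_le_sz y hy0])] at h3
          nlinarith
      · exact ⟨0, ∅, le_rfl, fun h => absurd h hz⟩
    choose Ch Eh hCh hhyp using hhyp
    obtain ⟨Es, hEs⟩ := finite_size (N := N) (Real.exp C0)
    refine ⟨C0 + ∑ z ∈ Z, Ch z, Es ∪ Z.biUnion Eh, add_nonneg hC0
      (Finset.sum_nonneg fun z _ => hCh z), fun y hy hyE => ?_⟩
    have hsum0 : 0 ≤ ∑ z ∈ Z, Ch z := Finset.sum_nonneg fun z _ => hCh z
    have hy0 : y ≠ 0 := by
      rintro rfl
      obtain ⟨u, hu⟩ := hy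
      simp at hu
    by_cases hZy : ∀ z ∈ Z, ∑ j, z j * (y j : ℚ) ≠ 0
    · have hbig : C0 ≤ Real.log (sz y) := by
        by_contra hcon
        push Not at hcon
        apply hyE
        refine Finset.mem_union_left _ (hEs y ?_)
        have h1 := one_le_sz y hy0
        rw [← Real.log_le_iff_le_exp (by linarith)]
        exact hcon.le
      obtain ⟨g, hg, hgv⟩ := hcore y hy hZy hbig
      refine HasComp.mono (C := C0) ⟨g, hg, fun v hv l => ?_⟩ (by linarith)
      by_cases hl : L l = 0
      · rw [hl]
        simp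
      · exact hgv v hv (Sum.inl ⟨l, hl⟩)
    · push Not at hZy
      obtain ⟨z, hz, hzy⟩ := hZy
      refine HasComp.mono (hhyp z hz y hy hzy fun h => hyE (Finset.mem_union_right _
        (Finset.mem_biUnion.2 ⟨z, hz, h⟩))) ?_
      have := Finset.single_le_sum (f := Ch) (fun z _ => hCh z) hz
      linarith

end Pool.Agent.T9h24
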