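import Mathlib
import Pool.Agent.T9h24.Comp

/-!
The companion theorem: rational companions.
-/

set_option autoImplicit false
set_option linter.unusedSectionVars false

open Finset NumberField IsDedekindDomain Height

namespace Pool.Agent.T9h24

open Pool.Agent.Y742.SF (fv fv_eq fv_pos fv_nonneg fv_int fv_eq_one_iff fv_mul)
open Pool.Agent.W180.OP (Pl av wt nrm le_nrm nrm_pos)
open Pool.Agent.R405 (Good dot exv fv_act)
open Pool.Agent.TeamU (Over act)

variable {K : Type} [Field K] [NumberField K]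

/-- the place `y ↦ |σ y|` -/
noncomputable def tw (σ : K ≃ₐ[ℚ] K) : Pl K → Pl K
  | Sum.inl w => Sum.inl (w.comap σ.toRingEquiv.toRingHom)
  | Sum.inr Q => Sum.inr (act σ⁻¹ Q)

theorem av_tw (σ : K ≃ₐ[ℚ] K) (v : Pl K) (y : K) : av (tw σ v) y = av v (σ y) := by
  rcases v with w | Q
  · rfl
  · have h1 := fv_act σ⁻¹ Q (σ y)
    rw [← AlgEquiv.mul_apply, inv_mul_cancel, AlgEquiv.one_apply] at h1
    exact h1

/-- **The companion theorem**: all primitive integral vectors with finitely many exceptions have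
rational companions. -/
theorem companionQ [IsGalois ℚ K] (hi : ∃ z : K, z ^ 2 = -1)
    (T : Finset (HeightOneSpectrum (𝓞 K))) (hT : ∀ (σ : K ≃ₐ[ℚ] K), ∀ Q ∈ T, act σ Q ∈ T)
    (ε : ℝ) (hε : 0 < ε) {N : ℕ} {ι : Type} [Fintype ι] (L : ι → Fin N → 𝓞 K)
    (hLG : ∀ (σ : K ≃ₐ[ℚ] K) (l : ι), ∃ l', ∀ j, (L l' j : K) = σ (L l j : K)) :
    ∃ (C : ℝ) (E : Finset (Fin N → ℤ)), 0 ≤ C ∧ ∀ y : Fin N → ℤ,
      (∃ u : Fin N → ℤ, ∑ j, u j * y j = 1) → y ∉ E →
      ∃ g : Fin N → ℤ, (¬ ∃ a : ℚ, ∀ j, (g j : ℚ) = a * (y j : ℚ)) ∧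
        ∀ v : Pl K, (∀ Q, v = Sum.inr Q → Q ∈ T) → ∀ l,
          av v (∑ j, (L l j : K) * (g j : K)) ≤ Real.exp (C + ε * Real.log (sz y)) *
            av v (∑ j, (L l j : K) * (y j : K)) := by
  classical
  obtain ⟨C, E, hC, hcomp⟩ := companionK hi T ε hε N L
  set S : Finset (Pl K) := Finset.disjSum Finset.univ T with hS
  have hmemS : ∀ v : Pl K, (∀ Q, v = Sum.inr Q → Q ∈ T) → v ∈ S := by
    intro v hv
    rw [hS]
    rcases v with w | Q
    · exact Finset.inl_mem_disjSum.2 (Finset.mem_univ _)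
    · exact Finset.inr_mem_disjSum.2 (hv Q rfl)
  have hnn : ∀ (v : Pl K) (z : K), 0 ≤ av v z := fun v z => (av v).nonneg z
  set B : ℝ := 1 + ∑ v ∈ S, ∑ i, ∑ σ : K ≃ₐ[ℚ] K, av v (σ (RingOfIntegers.basis K i : K)) with hB
  have hB1 : 1 ≤ B := by
    have : 0 ≤ ∑ v ∈ S, ∑ i, ∑ σ : K ≃ₐ[ℚ] K, av v (σ (RingOfIntegers.basis K i : K)) :=
      Finset.sum_nonneg fun v _ => Finset.sum_nonneg fun i _ => Finset.sum_nonneg fun σ _ =>
        hnn v _
    linarith
  refine ⟨C + Real.log B, E, add_nonneg hC (Real.log_nonneg hB1), fun y hy hyE => ?_⟩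
  obtain ⟨g0, hg0, hgv⟩ := hcomp y hy hyE
  obtain ⟨i, hi'⟩ := exists_trace g0 (fun j => (y j : ℚ)) (by
    rintro ⟨a, ha⟩
    apply hg0
    refine ⟨a, fun j => ?_⟩
    have := ha j
    push_cast at this
    exact this)
  refine ⟨fun j => Algebra.trace ℤ (𝓞 K) (g0 j * RingOfIntegers.basis K i), hi', ?_⟩
  intro v hv l
  have hvS := hmemS v hv
  have htr : ∀ j, ((Algebra.trace ℤ (𝓞 K) (g0 j * RingOfIntegers.basis K i) : ℤ) : K) =
      ∑ σ : K ≃ₐ[ℚ] K, σ (RingOfIntegers.basis K i : K) * σ (g0 j : K) := by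
    intro j
    have h1 := trace_eq_sum_automorphisms (K := ℚ)
      (((g0 j * RingOfIntegers.basis K i : 𝓞 K)) : K)
    have h2 : algebraMap ℚ K (Algebra.trace ℚ K (((g0 j * RingOfIntegers.basis K i : 𝓞 K)) : K)) =
        ((Algebra.trace ℤ (𝓞 K) (g0 j * RingOfIntegers.basis K i) : ℤ) : K) := by
      rw [← Algebra.coe_trace_int]
      simp
    rw [← h2, h1]
    refine Finset.sum_congr rfl fun σ _ => ?_
    push_cast
    rw [map_mul, mul_comm]
  -- the conjugate forms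
  have hconj : ∀ σ : K ≃ₐ[ℚ] K, ∃ l', ∀ j, σ (L l' j : K) = (L l j : K) := by
    intro σ
    obtain ⟨l', hl'⟩ := hLG σ⁻¹ l
    refine ⟨l', fun j => ?_⟩
    rw [hl', ← AlgEquiv.mul_apply, mul_inv_cancel, AlgEquiv.one_apply]
  choose lc hlc using hconj
  have hsum : ∑ j, (L l j : K) *
      ((Algebra.trace ℤ (𝓞 K) (g0 j * RingOfIntegers.basis K i) : ℤ) : K) =
      ∑ σ : K ≃ₐ[ℚ] K, σ (RingOfIntegers.basis K i : K) *
        σ ((∑ j, L (lc σ) j * g0 j : 𝓞 K) : K) := by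
    simp only [htr, Finset.mul_sum]
    rw [Finset.sum_comm]
    refine Finset.sum_congr rfl fun σ _ => ?_
    have h1 : σ ((∑ j, L (lc σ) j * g0 j : 𝓞 K) : K) = ∑ j, (L l j : K) * σ (g0 j : K) := by
      push_cast
      rw [map_sum]
      refine Finset.sum_congr rfl fun j _ => ?_
      rw [map_mul, hlc]
    rw [h1, Finset.mul_sum]
    exact Finset.sum_congr rfl fun j _ => by ring
  have hyv : ∀ σ : K ≃ₐ[ℚ] K, σ ((∑ j, L (lc σ) j * (y j : 𝓞 K) : 𝓞 K) : K) =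
      ∑ j, (L l j : K) * (y j : K) := by
    intro σ
    push_cast
    rw [map_sum]
    refine Finset.sum_congr rfl fun j _ => ?_
    rw [map_mul, hlc]
    congr 1
    refine Eq.trans (congrArg σ (a₂ := ((y j : ℤ) : K)) ?_) (map_intCast σ _)
    simp
  show av v (∑ j, (L l j : K) *
      ((Algebra.trace ℤ (𝓞 K) (g0 j * RingOfIntegers.basis K i) : ℤ) : K)) ≤ _
  rw [hsum]
  refine (av_sum_le v _ _).trans ?_
  have hterm : ∀ σ : K ≃ₐ[ℚ] K, av v (σ (RingOfIntegers.basis K i : K) *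
        σ ((∑ j, L (lc σ) j * g0 j : 𝓞 K) : K)) ≤
      av v (σ (RingOfIntegers.basis K i : K)) * (Real.exp (C + ε * Real.log (sz y)) *
        av v (∑ j, (L l j : K) * (y j : K))) := by
    intro σ
    rw [map_mul]
    refine mul_le_mul_of_nonneg_left ?_ (hnn v _)
    have h1 := hgv (tw σ v) (by
      intro Q hQ
      rcases v with w | Q'
      · exact absurd hQ (by simp [tw])
      · have h2 : act σ⁻¹ Q' = Q := Sum.inr.inj hQ
        rw [← h2]
        exact hT σ⁻¹ Q' (hv Q' rfl)) (lc σ)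
    rw [av_tw, av_tw, hyv] at h1
    exact h1
  refine (Finset.sum_le_sum fun σ _ => hterm σ).trans ?_
  rw [← Finset.sum_mul]
  have h3 : ∑ σ : K ≃ₐ[ℚ] K, av v (σ (RingOfIntegers.basis K i : K)) ≤ B := by
    have h4 : ∑ σ : K ≃ₐ[ℚ] K, av v (σ (RingOfIntegers.basis K i : K)) ≤
        ∑ i, ∑ σ : K ≃ₐ[ℚ] K, av v (σ (RingOfIntegers.basis K i : K)) :=
      Finset.single_le_sum
        (f := fun i => ∑ σ : K ≃ₐ[ℚ] K, av v (σ (RingOfIntegers.basis K i : K)))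
        (fun i _ => Finset.sum_nonneg fun σ _ => hnn v _) (Finset.mem_univ i)
    have h5 : ∑ i, ∑ σ : K ≃ₐ[ℚ] K, av v (σ (RingOfIntegers.basis K i : K)) ≤
        ∑ v ∈ S, ∑ i, ∑ σ : K ≃ₐ[ℚ] K, av v (σ (RingOfIntegers.basis K i : K)) :=
      Finset.single_le_sum
        (f := fun v : Pl K => ∑ i, ∑ σ : K ≃ₐ[ℚ] K, av v (σ (RingOfIntegers.basis K i : K)))
        (fun v _ => Finset.sum_nonneg fun i _ => Finset.sum_nonneg fun σ _ => hnn v _) hvS
    linarith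
  refine (mul_le_mul_of_nonneg_right h3 (mul_nonneg (Real.exp_pos _).le (hnn v _))).trans
    (le_of_eq ?_)
  rw [Real.exp_add, Real.exp_add, Real.exp_add, Real.exp_log (by linarith)]
  ring

end Pool.Agent.T9h24
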