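import Mathlib
import Pool.Agent.T9h24.Plc

/-!
The splitting field.
-/

set_option autoImplicit false
set_option linter.unusedSectionVars false

open Polynomial

namespace Pool.Agent.T9h24

theorem gal_sf (k : Type) [Field k] [CharZero k] (p : k[X]) : IsGalois k p.SplittingField := by
  have h1 : Normal k p.SplittingField := Normal.of_isSplittingField p
  exact { }

theorem spl_sf (k : Type) [Field k] [CharZero k] (p : k[X]) :
    ∃ φ : k →+* p.SplittingField, (p.map φ).Splits := ⟨_, SplittingField.splits p⟩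

theorem fin_sf (k : Type) [Field k] [CharZero k] (p : k[X]) :
    FiniteDimensional k p.SplittingField := inferInstance

theorem exists_field (G : ℤ[X]) (hG : G ≠ 0) : ∃ (K : Type) (_ : Field K) (_ : NumberField K),
    IsGalois ℚ K ∧ (∃ z : K, z ^ 2 = -1) ∧ (mp K G).Splits := by
  classical
  set p : ℚ[X] := mp ℚ G * (X ^ 2 + 1) with hp
  have hX : (X ^ 2 + 1 : ℚ[X]) ≠ 0 := by
    have : (X ^ 2 + 1 : ℚ[X]).Monic := by monicity!
    exact this.ne_zero
  have hp0 : p ≠ 0 := mul_ne_zero (mp_ne hG) hX
  have hfin : FiniteDimensional ℚ p.SplittingField := by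
    convert fin_sf ℚ p
  have hn : NumberField p.SplittingField := { }
  obtain ⟨φ, hsp⟩ := spl_sf ℚ p
  have hmul : p.map φ = (mp ℚ G).map φ * (X ^ 2 + 1 : ℚ[X]).map φ := by
    rw [← Polynomial.map_mul]
  have hpφ : p.map φ ≠ 0 := (Polynomial.map_ne_zero_iff φ.injective).2 hp0
  rw [hmul] at hsp hpφ
  refine ⟨p.SplittingField, inferInstance, hn, ?_, ?_, ?_⟩
  · convert gal_sf ℚ p
    exact Subsingleton.elim _ _
  · have h1 : ((X ^ 2 + 1 : ℚ[X]).map φ).Splits := hsp.of_dvd hpφ (dvd_mul_left _ _)
    obtain ⟨z, hz⟩ := h1.exists_eval_eq_zero (by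
      rw [degree_map]
      have : (X ^ 2 + 1 : ℚ[X]).natDegree = 2 := by compute_degree!
      intro h
      rw [degree_eq_natDegree hX, this] at h
      norm_num at h)
    refine ⟨z, ?_⟩
    simp only [Polynomial.map_add, Polynomial.map_pow, map_X, Polynomial.map_one, eval_add,
      eval_pow, eval_X, eval_one] at hz
    linear_combination hz
  · have h1 : ((mp ℚ G).map φ).Splits := hsp.of_dvd hpφ (dvd_mul_right _ _)
    have h2 : (mp ℚ G).map φ = mp p.SplittingField G := by
      unfold mp
      rw [Polynomial.map_map]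
      congr 1
      exact RingHom.ext_int _ _
    rw [h2] at h1
    exact h1

end Pool.Agent.T9h24
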