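import Mathlib
import Pool.Agent.T9h24.CompQ
import Pool.Agent.T9h24.Pad
import Pool.Agent.T9h24.Fld
import Pool.Agent.T9h24.Alg

/-!
The inequality for pairs of conjugates.
-/

set_option autoImplicit false
set_option linter.unusedSectionVars false

open Polynomial NumberField IsDedekindDomain

namespace Pool.Agent.T9h24

open Pool.Agent.Y742.SF (fv fv_eq fv_pos fv_nonneg fv_int fv_eq_one_iff fv_mul finite_primes)
open Pool.Agent.W180.OP (Pl av wt nrm le_nrm nrm_pos)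
open Pool.Agent.TeamU (Over act mem_act)

theorem exists_emb (K : Type) [Field K] [NumberField K] (F : Type) [Field F] [CharZero F]
    [IsAlgClosed F] : Nonempty (K →+* F) :=
  ⟨(IsAlgClosed.lift : K →ₐ[ℚ] F).toRingHom⟩

variable {K : Type} [Field K] [NumberField K]

theorem mp_map {F : Type} [Field F] (ψ : K →+* F) (f : ℤ[X]) : (mp K f).map ψ = mp F f := by
  unfold mp
  rw [Polynomial.map_map]
  congr 1
  exact RingHom.ext_int _ _

/-- the centres of the expansions -/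
noncomputable def ctr (K : Type) [Field K] (G : ℤ[X]) : Set K := {P | P = 0 ∨ P ∈ (mp K G).roots}

theorem place_comp (G : ℤ[X]) (q r : ℕ) (hr : 1 ≤ r) (hsp : (mp K G).Splits) {F : Type}
    [NormedField F] [CharZero F] [IsAlgClosed F] (ψ : K →+* F) (w : Pl K) (c : ℝ) (hc : 0 < c)
    (hψ : ∀ z, ‖ψ z‖ = av w z ^ c) :
    ∃ C : ℝ, 0 ≤ C ∧ ∀ f g : ℤ[X], Irreducible f → f.natDegree = r → g.natDegree ≤ r →
      ¬ mp ℚ f ∣ mp ℚ G → ¬ mp ℚ f ∣ mp ℚ g → ∀ B : ℝ,
      (∀ P ∈ ctr K G, ∀ j, j ≤ r → av w ((taylor P (mp K g)).coeff j) ≤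
        Real.exp B * av w ((taylor P (mp K f)).coeff j)) →
      Real.log ‖((resultant f g r r : ℤ) : F)‖ ≤
        2 * r * Real.log (mm (mp F f)) + r * (c * B) + C - pairs (divi F G q) (mp F f) := by
  obtain ⟨C, hC, h⟩ := place_bound (F := F) G q r
  refine ⟨C, hC, fun f g hf hfr hg hfG hfg B hB => ?_⟩
  have hroot : ∀ x ∈ (mp F f).roots, (mp F f).eval x = 0 := fun x hx => (mem_roots'.1 hx).2
  have h1 := h f g hf.ne_zero hfr hg (fun x hx hx' => by
    exact eval_ne hf (by omega) hfG x (hroot x hx) (mem_roots'.1 hx').2)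
    (fun x hx => eval_ne hf (by omega) hfg x (hroot x hx)) (Real.exp (c * B)) (Real.exp_pos _)
    (by
      intro P hP j hj
      obtain ⟨P', hP', rfl⟩ : ∃ P' ∈ ctr K G, ψ P' = P := by
        rcases hP with rfl | hP
        · exact ⟨0, Or.inl rfl, map_zero ψ⟩
        · rw [← mp_map ψ, hsp.roots_map] at hP
          obtain ⟨P', h1, h2⟩ := Multiset.mem_map.1 hP
          exact ⟨P', Or.inr h1, h2⟩
      have e1 : ∀ g : ℤ[X], (taylor (ψ P') (mp F g)).coeff j =
          ψ ((taylor P' (mp K g)).coeff j) := by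
        intro g
        rw [← mp_map ψ g, ← map_taylor, coeff_map]
      rw [e1, e1, hψ, hψ]
      have h2 := hB P' hP' j hj
      have h3 := Real.rpow_le_rpow ((av w).nonneg _) h2 hc.le
      rw [Real.mul_rpow (Real.exp_pos _).le ((av w).nonneg _), ← Real.exp_mul, mul_comm B c] at h3
      exact h3)
  rw [Real.log_exp] at h1
  exact h1

/-- the integral forms -/
theorem exists_forms (G : ℤ[X]) (r : ℕ) : ∃ (D0 : ℤ) (RK : Finset K)
    (L : RK × Fin (r + 1) → Fin (r + 1) → 𝓞 K), D0 ≠ 0 ∧ (∀ P, P ∈ RK ↔ P ∈ ctr K G) ∧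
      ∀ l i, (L l i : K) = (D0 : K) ^ r *
        ((((i : ℕ).choose (l.2 : ℕ) : ℕ) : K) * (l.1 : K) ^ ((i : ℕ) - (l.2 : ℕ))) := by
  classical
  set RK : Finset K := insert 0 (mp K G).roots.toFinset with hRK
  have hmem : ∀ P, P ∈ RK ↔ P ∈ ctr K G := by
    intro P
    rw [hRK, Finset.mem_insert, Multiset.mem_toFinset]
    rfl
  obtain ⟨D0, hD0, hint⟩ := exists_integral_multiples ℤ ℚ RK
  have hL : ∀ (l : RK × Fin (r + 1)) (i : Fin (r + 1)), ∃ z : 𝓞 K, (z : K) = (D0 : K) ^ r *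
        ((((i : ℕ).choose (l.2 : ℕ) : ℕ) : K) * (l.1 : K) ^ ((i : ℕ) - (l.2 : ℕ))) := by
    intro l i
    have h1 := hint (l.1 : K) l.1.2
    rw [zsmul_eq_mul] at h1
    have h2 : IsIntegral ℤ ((D0 : K) ^ r *
        ((((i : ℕ).choose (l.2 : ℕ) : ℕ) : K) * (l.1 : K) ^ ((i : ℕ) - (l.2 : ℕ)))) := by
      have hi := i.2
      have e1 : (D0 : K) ^ r *
          ((((i : ℕ).choose (l.2 : ℕ) : ℕ) : K) * (l.1 : K) ^ ((i : ℕ) - (l.2 : ℕ))) =
          (((D0 ^ (r - ((i : ℕ) - (l.2 : ℕ))) * ((i : ℕ).choose (l.2 : ℕ) : ℕ) : ℤ)) : K) *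
            ((D0 : K) * (l.1 : K)) ^ ((i : ℕ) - (l.2 : ℕ)) := by
        have e2 : (D0 : K) ^ r = (D0 : K) ^ (r - ((i : ℕ) - (l.2 : ℕ))) *
            (D0 : K) ^ ((i : ℕ) - (l.2 : ℕ)) := by
          rw [← pow_add]
          congr 1
          omega
        push_cast
        rw [e2, mul_pow]
        ring
      rw [e1]
      exact (isIntegral_algebraMap (R := ℤ) (A := K)
        (x := (D0 ^ (r - ((i : ℕ) - (l.2 : ℕ))) * ((i : ℕ).choose (l.2 : ℕ) : ℕ) : ℤ))).mul
        (h1.pow _)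
    exact ⟨⟨_, h2⟩, rfl⟩
  choose L hL using hL
  exact ⟨D0, RK, L, hD0, hmem, hL⟩

theorem ctr_map (G : ℤ[X]) (σ : K ≃ₐ[ℚ] K) {P : K} (hP : P ∈ ctr K G) : σ P ∈ ctr K G := by
  rcases hP with rfl | hP
  · exact Or.inl (map_zero σ)
  · right
    rw [mem_roots'] at hP ⊢
    refine ⟨hP.1, ?_⟩
    have h1 : (mp K G).map (σ : K →+* K) = mp K G := mp_map (σ : K →+* K) G
    have h2 : (mp K G).eval P = 0 := hP.2
    show (mp K G).eval (σ P) = 0
    conv_lhs => rw [← h1]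
    have h3 : σ P = (σ : K →+* K) P := rfl
    rw [h3, eval_map, eval₂_hom, h2, map_zero]

/-- the primes above a finite set of rational primes -/
theorem exists_T (S : Finset Nat.Primes) : ∃ T : Finset (HeightOneSpectrum (𝓞 K)),
    (∀ (σ : K ≃ₐ[ℚ] K), ∀ Q ∈ T, act σ Q ∈ T) ∧
    ∀ Q : HeightOneSpectrum (𝓞 K), (∃ p ∈ S, ((p : ℕ) : 𝓞 K) ∈ Q.asIdeal) → Q ∈ T := by
  classical
  have hm : (∏ p ∈ S, (p : ℕ)) ≠ 0 := Finset.prod_ne_zero_iff.2 fun p _ => p.2.ne_zero
  have hfin := finite_primes (K := K) (∏ p ∈ S, (p : ℕ)) hm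
  refine ⟨hfin.toFinset, fun σ Q hQ => ?_, fun Q hQ => ?_⟩
  · rw [Set.Finite.mem_toFinset] at hQ ⊢
    show ((∏ p ∈ S, (p : ℕ) : ℕ) : 𝓞 K) ∈ (act σ Q).asIdeal
    rw [mem_act, map_natCast]
    exact hQ
  · obtain ⟨p, hp, hpQ⟩ := hQ
    rw [Set.Finite.mem_toFinset]
    show ((∏ p ∈ S, (p : ℕ) : ℕ) : 𝓞 K) ∈ Q.asIdeal
    rw [← Finset.mul_prod_erase S _ hp]
    push_cast
    exact Ideal.mul_mem_right _ _ hpQ

theorem sz_le (f : ℤ[X]) (r : ℕ) (hf : f.natDegree = r) :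
    sz (fun i : Fin (r + 1) => f.coeff i) ≤ 2 ^ r * mm (mp ℂ f) := by
  have h1 := sum_taylor_le (mp ℂ f) (mp_splits f) 0 1 zero_le_one r
  have hcard : (mp ℂ f).roots.card = r := by rw [card_roots_mp, hf]
  have h2 : ((mp ℂ f).roots.map fun y => ‖y - 0‖ + 1).prod ≤
      ((mp ℂ f).roots.map fun y => 2 * max 1 ‖y‖).prod := by
    refine Multiset.prod_map_le_prod_map₀ _ _ (fun y _ => by positivity) fun y _ => ?_
    rw [sub_zero]
    have h3 := le_max_left 1 ‖y‖
    have h4 := le_max_right 1 ‖y‖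
    linarith
  rw [Multiset.prod_map_mul, Multiset.map_const', Multiset.prod_replicate, hcard] at h2
  unfold sz
  refine ciSup_le fun i => ?_
  have h3 : |(f.coeff i : ℝ)| = ‖(taylor 0 (mp ℂ f)).coeff i‖ := by
    rw [taylor_zero, mp_coeff, Complex.norm_intCast]
  rw [h3]
  have h4 : ‖(taylor 0 (mp ℂ f)).coeff i‖ ≤
      ∑ j ∈ Finset.range (r + 1), ‖(taylor 0 (mp ℂ f)).coeff j‖ * 1 ^ j := by
    have h5 := Finset.single_le_sum (s := Finset.range (r + 1))
      (f := fun j : ℕ => ‖(taylor 0 (mp ℂ f)).coeff j‖ * (1 : ℝ) ^ j)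
      (fun j _ => by positivity) (Finset.mem_range.2 i.2)
    simp only [one_pow, mul_one] at h5 ⊢
    exact h5
  refine h4.trans (h1.trans ?_)
  unfold mm
  have h5 := mul_le_mul_of_nonneg_left h2 (norm_nonneg (mp ℂ f).leadingCoeff)
  refine h5.trans (le_of_eq ?_)
  ring

theorem one_le_mm (f : ℤ[X]) (hf : f ≠ 0) : 1 ≤ mm (mp ℂ f) := by
  unfold mm
  have h1 : 1 ≤ ‖(mp ℂ f).leadingCoeff‖ := by
    have h2 : (mp ℂ f).leadingCoeff = (f.leadingCoeff : ℂ) := by
      unfold mp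
      rw [leadingCoeff_map_of_injective (RingHom.injective_int _)]
      rfl
    rw [h2, Complex.norm_intCast]
    exact_mod_cast Int.one_le_abs (leadingCoeff_ne_zero.2 hf)
  have h3 : ∀ s : Multiset ℂ, 1 ≤ (s.map fun y => max 1 ‖y‖).prod := by
    intro s
    induction s using Multiset.induction_on with
    | empty => simp
    | cons a s ih =>
      rw [Multiset.map_cons, Multiset.prod_cons]
      exact one_le_mul_of_one_le_of_one_le (le_max_left _ _) ih
  have h4 := h3 (mp ℂ f).roots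
  nlinarith

/-- **Wirsing's theorem with pairs of conjugates.** -/
theorem main (G : ℤ[X]) (hG : G ≠ 0) (q r : ℕ) (hr : 1 ≤ r) (S : Finset Nat.Primes) (ε : ℝ)
    (hε : 0 < ε) :
    ∃ C : ℝ, 0 ≤ C ∧ ∀ f : ℤ[X], Irreducible f → f.natDegree = r → ¬ mp ℚ f ∣ mp ℚ G →
      pairs (divi ℂ G q) (mp ℂ f) +
        ∑ p ∈ S, pairs (divi (PadicAlgCl p) G q) (mp (PadicAlgCl p) f) ≤
        (2 * r + ε) * Real.log (mm (mp ℂ f)) + C := by
  classical
  obtain ⟨K, _, _, hgal, hi, hsp⟩ := exists_field G hG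
  obtain ⟨D0, RK, L, hD0, hRK, hL⟩ := exists_forms (K := K) G r
  obtain ⟨T, hT, hT'⟩ := exists_T (K := K) S
  -- the places
  obtain ⟨ψ⟩ := exists_emb K ℂ
  have hψ : ∀ z, ‖ψ z‖ = av (Sum.inl (InfinitePlace.mk ψ) : Pl K) z ^ (1 : ℝ) := fun z => by
    rw [Real.rpow_one]
    exact (InfinitePlace.apply ψ z).symm
  obtain ⟨C1, hC1, hinf⟩ := place_comp G q r hr hsp ψ (Sum.inl (InfinitePlace.mk ψ)) 1 one_pos hψ
  have hfinp : ∀ p : Nat.Primes, ∃ (w : Pl K) (c C : ℝ), (p ∈ S → ∀ Q, w = Sum.inr Q → Q ∈ T) ∧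
      0 < c ∧ 0 ≤ C ∧ ∀ f g : ℤ[X], Irreducible f → f.natDegree = r → g.natDegree ≤ r →
      ¬ mp ℚ f ∣ mp ℚ G → ¬ mp ℚ f ∣ mp ℚ g → ∀ B : ℝ,
      (∀ P ∈ ctr K G, ∀ j, j ≤ r → av w ((taylor P (mp K g)).coeff j) ≤
        Real.exp B * av w ((taylor P (mp K f)).coeff j)) →
      Real.log ‖((resultant f g r r : ℤ) : PadicAlgCl p)‖ ≤
        2 * r * Real.log (mm (mp (PadicAlgCl p) f)) + r * (c * B) + C -
          pairs (divi (PadicAlgCl p) G q) (mp (PadicAlgCl p) f) := by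
    intro p
    obtain ⟨ψp⟩ := exists_emb K (PadicAlgCl p)
    have hp0 : (((p : ℕ) : ℕ) : PadicAlgCl p) ≠ 0 := by exact_mod_cast p.2.ne_zero
    have hp1 : ‖(((p : ℕ) : ℕ) : PadicAlgCl p)‖ < 1 := by
      have h1 := norm_int_padicAlgCl (p : ℕ) ((p : ℕ) : ℤ)
      push_cast at h1
      rw [h1, Padic.norm_p]
      exact inv_lt_one_of_one_lt₀ (by exact_mod_cast p.2.one_lt)
    obtain ⟨Q, hQ, c, hc, hψp⟩ := padic_place ψp (p : ℕ) hp0 hp1
    obtain ⟨C, hC, hplace⟩ := place_comp G q r hr hsp ψp (Sum.inr Q) c hc hψp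
    exact ⟨Sum.inr Q, c, C, fun hp Q' hQ' => by
      rw [← Sum.inr.inj hQ']
      exact hT' Q ⟨p, hp, hQ⟩, hc, hC, hplace⟩
  choose w c Cp hwT hc hCp hplace using hfinp
  set csum : ℝ := 1 + ∑ p ∈ S, c p with hcsum
  have hcs0 : 0 ≤ ∑ p ∈ S, c p := Finset.sum_nonneg fun p _ => (hc p).le
  have hcs1 : 1 ≤ csum := by linarith
  have hr0 : (0 : ℝ) < r := by exact_mod_cast hr
  set ε' : ℝ := ε / (r * csum) with hε'
  have hε'0 : 0 < ε' := by positivity
  -- the companions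
  have hLG : ∀ (σ : K ≃ₐ[ℚ] K) (l : RK × Fin (r + 1)), ∃ l', ∀ j, (L l' j : K) = σ (L l j : K) := by
    intro σ l
    refine ⟨(⟨σ l.1, (hRK _).2 (ctr_map G σ ((hRK _).1 l.1.2))⟩, l.2), fun j => ?_⟩
    rw [hL, hL]
    simp only [map_mul, map_pow, map_natCast, map_intCast]
  obtain ⟨C0, E, hC0, hcomp⟩ := companionQ hi T hT ε' hε'0 L hLG
  set Tot : ℤ[X] → ℝ := fun f => pairs (divi ℂ G q) (mp ℂ f) +
        ∑ p ∈ S, pairs (divi (PadicAlgCl p) G q) (mp (PadicAlgCl p) f) with hTot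
  set CE : ℝ := ∑ y ∈ E, |Tot (py y)| with hCE
  have hCE0 : 0 ≤ CE := Finset.sum_nonneg fun y _ => abs_nonneg _
  have hCpS : 0 ≤ ∑ p ∈ S, Cp p := Finset.sum_nonneg fun p _ => hCp p
  have hl2 : 0 ≤ Real.log 2 := Real.log_nonneg (by norm_num)
  refine ⟨CE + (C1 + ∑ p ∈ S, Cp p + r * csum * (C0 + ε' * (r * Real.log 2))), by positivity,
    fun f hf hfr hfG => ?_⟩
  have hf0 := hf.ne_zero
  have hprim : f.IsPrimitive := hf.isPrimitive (by omega)
  set y : Fin (r + 1) → ℤ := fun i => f.coeff i with hy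
  have hfy : py y = f := py_self f hfr.le
  have hmm := one_le_mm f hf0
  have hlm : 0 ≤ Real.log (mm (mp ℂ f)) := Real.log_nonneg hmm
  have hrest : 0 ≤ C1 + ∑ p ∈ S, Cp p + r * csum * (C0 + ε' * (r * Real.log 2)) := by positivity
  show Tot f ≤ _
  by_cases hyE : y ∈ E
  · have h1 : |Tot (py y)| ≤ CE :=
      Finset.single_le_sum (f := fun y => |Tot (py y)|) (fun y _ => abs_nonneg _) hyE
    rw [hfy] at h1
    have h2 := le_abs_self (Tot f)
    have h3 : 0 ≤ (2 * r + ε) * Real.log (mm (mp ℂ f)) := by positivity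
    linarith
  · obtain ⟨g, hg, hgv⟩ := hcomp y (exists_bezout f hprim r hfr.le) hyE
    have hgd : (py g).natDegree ≤ r := py_deg g
    have hnd : ¬ mp ℚ f ∣ mp ℚ (py g) := by
      refine not_dvd hf0 hfr hgd ?_
      rintro ⟨a, ha⟩
      apply hg
      refine ⟨a, fun j => ?_⟩
      have := ha j
      rw [py_coeff] at this
      exact this
    -- the values of the forms
    have hval : ∀ (u : Fin (r + 1) → ℤ) (P : RK) (j : Fin (r + 1)),
        ∑ i, (L (P, j) i : K) * (u i : K) =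
          (D0 : K) ^ r * (taylor (P : K) (mp K (py u))).coeff j := by
      intro u P j
      rw [taylor_mp K (py u) r (py_deg u), Finset.mul_sum]
      refine Finset.sum_congr rfl fun i _ => ?_
      rw [hL, py_coeff]
      ring
    have hD0K : (D0 : K) ^ r ≠ 0 := pow_ne_zero _ (by exact_mod_cast hD0)
    set B : ℝ := C0 + ε' * Real.log (sz y) with hB
    have htay : ∀ v : Pl K, (∀ Q, v = Sum.inr Q → Q ∈ T) → ∀ P ∈ ctr K G, ∀ j, j ≤ r →
        av v ((taylor P (mp K (py g))).coeff j) ≤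
          Real.exp B * av v ((taylor P (mp K f)).coeff j) := by
      intro v hv P hP j hj
      have h1 := hgv v hv (⟨P, (hRK P).2 hP⟩, ⟨j, by omega⟩)
      rw [hval, hval, hfy, map_mul, map_mul] at h1
      have h2 : 0 < av v ((D0 : K) ^ r) := (av v).pos hD0K
      have h3 : av v ((D0 : K) ^ r) * av v ((taylor P (mp K (py g))).coeff j) ≤
          av v ((D0 : K) ^ r) * (Real.exp B * av v ((taylor P (mp K f)).coeff j)) := by
        refine h1.trans (le_of_eq ?_)
        ring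
      exact le_of_mul_le_mul_left h3 h2
    have hres0 : resultant f (py g) r r ≠ 0 := by
      intro h0
      have h1 := res_mp (F := ℂ) f (py g) r hfr hgd
      rw [h0, Int.cast_zero] at h1
      have h2 : (mp ℂ f).leadingCoeff ^ r ≠ 0 :=
        pow_ne_zero _ (leadingCoeff_ne_zero.2 (mp_ne hf0))
      have h3 : ((mp ℂ f).roots.map fun x => (mp ℂ (py g)).eval x).prod ≠ 0 := by
        intro h4
        rw [Multiset.prod_eq_zero_iff] at h4
        obtain ⟨x, hx, hx0⟩ := Multiset.mem_map.1 h4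
        exact eval_ne hf (by omega) hnd x (mem_roots'.1 hx).2 hx0
      exact mul_ne_zero h2 h3 h1.symm
    have h1 := hinf f (py g) hf hfr hgd hfG hnd B (htay _ (fun Q hQ => absurd hQ (by simp)))
    have h2 : ∀ p ∈ S, Real.log ‖((resultant f (py g) r r : ℤ) : PadicAlgCl p)‖ ≤
        r * (c p * B) + Cp p - pairs (divi (PadicAlgCl p) G q) (mp (PadicAlgCl p) f) := by
      intro p hp
      have h3 := hplace p f (py g) hf hfr hgd hfG hnd B (htay _ (hwT p hp))
      have h4 : Real.log (mm (mp (PadicAlgCl p) f)) ≤ 0 := by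
        refine Real.log_nonpos ?_ (mm_padic f)
        unfold mm
        refine mul_nonneg (norm_nonneg _) (Multiset.prod_nonneg fun a ha => ?_)
        obtain ⟨z, -, rfl⟩ := Multiset.mem_map.1 ha
        exact (max1_pos z).le
      have h5 : 2 * (r : ℝ) * Real.log (mm (mp (PadicAlgCl p) f)) ≤ 0 :=
        mul_nonpos_of_nonneg_of_nonpos (by positivity) h4
      linarith
    have h3 := Finset.sum_le_sum h2
    rw [Finset.sum_sub_distrib, Finset.sum_add_distrib] at h3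
    have h4 := sum_log_nonneg S _ hres0
    have h5 : Real.log ‖((resultant f (py g) r r : ℤ) : ℂ)‖ =
        Real.log |((resultant f (py g) r r : ℤ) : ℝ)| := by
      rw [Complex.norm_intCast]
    have h6 : ∑ p ∈ S, Real.log ‖((resultant f (py g) r r : ℤ) : PadicAlgCl p)‖ =
        ∑ p ∈ S, Real.log ‖((resultant f (py g) r r : ℤ) : ℚ_[(p : ℕ)])‖ :=
      Finset.sum_congr rfl fun p _ => by rw [norm_int_padicAlgCl]
    rw [h5] at h1
    rw [h6] at h3
    have h7 : ∑ p ∈ S, (r : ℝ) * (c p * B) = r * ((∑ p ∈ S, c p) * B) := by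
      rw [Finset.sum_mul, Finset.mul_sum]
    rw [h7] at h3
    have hsz : Real.log (sz y) ≤ r * Real.log 2 + Real.log (mm (mp ℂ f)) := by
      have hy0 : y ≠ 0 := by
        intro h0
        obtain ⟨u, hu⟩ := exists_bezout f hprim r hfr.le
        have h8 : ∀ i : Fin (r + 1), f.coeff i = 0 := fun i => congrFun h0 i
        simp [h8] at hu
      have h8 := one_le_sz y hy0
      have h9 := Real.log_le_log (by linarith) (sz_le f r hfr)
      rw [Real.log_mul (by positivity) (by linarith), Real.log_pow] at h9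
      exact h9
    have h8 : (r : ℝ) * csum * B ≤ ε * Real.log (mm (mp ℂ f)) +
        r * csum * (C0 + ε' * (r * Real.log 2)) := by
      have h9 : B ≤ C0 + ε' * (r * Real.log 2 + Real.log (mm (mp ℂ f))) := by
        rw [hB]
        have := mul_le_mul_of_nonneg_left hsz hε'0.le
        linarith
      have h10 := mul_le_mul_of_nonneg_left h9 (by positivity : 0 ≤ (r : ℝ) * csum)
      have h11 : (r : ℝ) * csum * ε' = ε := by
        rw [hε']
        field_simp
      have h12 : (r : ℝ) * csum * (C0 + ε' * (r * Real.log 2 + Real.log (mm (mp ℂ f)))) =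
          (r * csum * ε') * Real.log (mm (mp ℂ f)) +
            r * csum * (C0 + ε' * (r * Real.log 2)) := by ring
      rw [h12, h11] at h10
      exact h10
    have h9 : (r : ℝ) * csum * B = r * (1 * B) + r * ((∑ p ∈ S, c p) * B) := by
      rw [hcsum]
      ring
    simp only [hTot]
    linarith

end Pool.Agent.T9h24
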