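import Mathlib
import Pool.Agent.T9h24.Core
import Pool.Agent.R405.ProjH

/-!
Linear algebra and heights for the dual estimate.
-/

set_option autoImplicit false
set_option linter.unusedSectionVars false

open Finset NumberField IsDedekindDomain Height Module

namespace Pool.Agent.T9h24

open Pool.Agent.Y742.SF (fv fv_eq fv_pos fv_nonneg fv_int fv_eq_one_iff fv_mul)
open Pool.Agent.W180.OP (Pl av wt nrm le_nrm nrm_pos nrm_nonneg nrm_le exists_nrm wt_nonneg)

/-- a spanning family contains a basis -/
theorem exists_det {F : Type} [Field F] {α : Type} {n : ℕ} (D : α → Fin n → F)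
    (h : ∀ t : Fin n → F, (∀ a, ∑ i, D a i * t i = 0) → t = 0) :
    ∃ γ : Fin n → α, (Matrix.of fun i => D (γ i)).det ≠ 0 := by
  classical
  have hspan : Submodule.span F (Set.range D) = ⊤ := by
    by_contra hne
    obtain ⟨f, hf0, hf⟩ := Submodule.exists_le_ker_of_lt_top _ (lt_top_iff_ne_top.2 hne)
    apply hf0
    have h1 : (fun i => f (Pi.single i 1)) = (0 : Fin n → F) := by
      apply h
      intro a
      have h2 : f (D a) = 0 := hf (Submodule.subset_span ⟨a, rfl⟩)
      rw [← h2]
      conv_rhs => rw [show D a = ∑ i, D a i • (Pi.single i (1 : F) : Fin n → F) by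
        funext j
        simp [Finset.sum_apply, Pi.single_apply]]
      rw [map_sum]
      exact Finset.sum_congr rfl fun i _ => by rw [map_smul, smul_eq_mul]
    refine (Pi.basisFun F (Fin n)).ext fun i => ?_
    rw [Pi.basisFun_apply]
    exact congrFun h1 i
  have hfr : finrank F (Submodule.span F (Set.range D)) = n := by
    rw [hspan, finrank_top, finrank_fin_fun]
  obtain ⟨f, hf1, -, hf3⟩ := Submodule.exists_fun_fin_finrank_span_eq F (Set.range D)
  choose g hg using hf1
  refine ⟨fun i => g (Fin.cast hfr.symm i), ?_⟩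
  have h4 : LinearIndependent F (fun i : Fin n => D (g (Fin.cast hfr.symm i))) := by
    have h5 := hf3.comp (Fin.cast hfr.symm) (Fin.cast_injective _)
    refine (linearIndependent_equiv' (Equiv.refl _) ?_).1 h5
    funext i
    show D (g (Fin.cast hfr.symm i)) = f (Fin.cast hfr.symm i)
    rw [hg]
  have h6 : IsUnit (Matrix.of fun i => D (g (Fin.cast hfr.symm i))) :=
    Matrix.linearIndependent_rows_iff_isUnit.1 h4
  exact ((Matrix.isUnit_iff_isUnit_det _).1 h6).ne_zero

/-- a basis of a hyperplane -/
theorem exists_kerbasis {F : Type} [Field F] {s : ℕ} (z : Fin (s + 1) → F) (hz : z ≠ 0) :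
    ∃ e : Fin s → Fin (s + 1) → F, LinearIndependent F e ∧
      ∀ t : Fin (s + 1) → F, ∑ i, z i * t i = 0 → ∃ t' : Fin s → F, t = ∑ a, t' a • e a := by
  classical
  set φ : (Fin (s + 1) → F) →ₗ[F] F := Fintype.linearCombination F z with hφ
  have hφa : ∀ x, φ x = ∑ j, x j * z j := fun x => by
    rw [hφ, Fintype.linearCombination_apply]
    rfl
  have hφ0 : φ ≠ 0 := by
    intro h
    apply hz
    funext j
    have h1 := LinearMap.congr_fun h (Pi.single j 1)
    rw [hφa] at h1
    simpa [Pi.single_apply] using h1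
  have hker : finrank F (LinearMap.ker φ) = s := by
    have h1 := LinearMap.finrank_range_add_finrank_ker φ
    rw [finrank_fin_fun, LinearMap.range_eq_top.2 (LinearMap.surjective hφ0), finrank_top,
      finrank_self] at h1
    omega
  let b := finBasisOfFinrankEq F (LinearMap.ker φ) hker
  refine ⟨fun a => (b a : Fin (s + 1) → F),
    b.linearIndependent.map' (LinearMap.ker φ).subtype (Submodule.ker_subtype _), fun t ht => ?_⟩
  have htk : t ∈ LinearMap.ker φ := by
    rw [LinearMap.mem_ker, hφa, ← ht]
    exact Finset.sum_congr rfl fun i _ => mul_comm _ _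
  refine ⟨fun a => b.repr ⟨t, htk⟩ a, ?_⟩
  have h1 := congrArg (LinearMap.ker φ).subtype (b.sum_repr ⟨t, htk⟩)
  rw [map_sum] at h1
  simp only [map_smul, Submodule.subtype_apply] at h1
  exact h1.symm

variable {K : Type} [Field K] [NumberField K]

/-- the height of an integral vector -/
theorem int_height {N : ℕ} (ξ : Fin N → 𝓞 K) (hξ : ξ ≠ 0)
    (T : Finset (HeightOneSpectrum (𝓞 K))) :
    logHeight (fun j => (ξ j : K)) ≤ ∑ v ∈ Finset.disjSum Finset.univ T,
      wt v * Real.log (nrm (av v) (fun j => (ξ j : K))) := by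
  classical
  set x : Fin N → K := fun j => (ξ j : K) with hx
  have hx0 : x ≠ 0 := by
    intro h
    apply hξ
    funext j
    have := congrFun h j
    simpa [hx] using this
  have hfin := Pool.Agent.R405.nrm_finite x hx0
  have h1 := Pool.Agent.R405.logHeight_sum x hx0 (T ∪ hfin.toFinset) (fun v hv => by
    by_contra h
    apply hv
    refine Finset.mem_union_right _ ?_
    rw [Set.Finite.mem_toFinset]
    exact h)
  rw [h1, Finset.sum_disjSum]
  refine add_le_add (le_of_eq ?_) ?_
  · exact Finset.sum_congr rfl fun w _ => rfl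
  · have h2 : ∑ v ∈ T ∪ hfin.toFinset, Real.log (nrm (Pool.Agent.W180.OP.fv v) x) ≤
        ∑ v ∈ T, Real.log (nrm (Pool.Agent.W180.OP.fv v) x) := by
      rw [← Finset.sum_sdiff (Finset.subset_union_left (s₁ := T) (s₂ := hfin.toFinset))]
      have h3 : ∑ v ∈ (T ∪ hfin.toFinset) \ T, Real.log (nrm (Pool.Agent.W180.OP.fv v) x) ≤ 0 := by
        refine Finset.sum_nonpos fun v _ => Real.log_nonpos (nrm_nonneg _ _) ?_
        exact nrm_le zero_le_one fun j => fv_int v (ξ j)
      linarith
    refine h2.trans (le_of_eq ?_)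
    refine Finset.sum_congr rfl fun v _ => ?_
    have : wt (Sum.inr v : Pl K) = 1 := rfl
    rw [this, one_mul]
    rfl

/-- the product formula for an integer -/
theorem int_prod (z : 𝓞 K) (hz : z ≠ 0) (T : Finset (HeightOneSpectrum (𝓞 K))) :
    0 ≤ ∑ v ∈ Finset.disjSum Finset.univ T, wt v * Real.log (av v (z : K)) := by
  classical
  have h1 := int_height (N := 1) (fun _ => z) (fun h => hz (congrFun h 0)) T
  have h2 := logHeight_nonneg (fun _ : Fin 1 => (z : K))
  refine h2.trans (h1.trans (le_of_eq ?_))
  refine Finset.sum_congr rfl fun v _ => ?_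
  congr 2
  unfold nrm
  exact ciSup_const

end Pool.Agent.T9h24
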