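import Mathlib
import Pool.Agent.T9h24.Vec
import Pool.Agent.T9h24.Lin
import Pool.Agent.W180.OP.Base

/-!
Forms of large degree in the ideal generated by forms without a common zero.
-/

set_option autoImplicit false
set_option linter.unusedSectionVars false

open Finset MvPolynomial

namespace Pool.Agent.T9h24

variable {n : ℕ}

/-- either there is a common zero or all forms of large degree lie in the ideal -/
theorem ns (I : Ideal (MvPolynomial (Fin (n + 1)) ℚ)) :
    (∃ u : Fin (n + 1) → AlgebraicClosure ℚ, u ≠ 0 ∧ ∀ P ∈ I, MvPolynomial.aeval u P = 0) ∨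
    ∃ m0 : ℕ, ∀ D, m0 ≤ D → ∀ Q : MvPolynomial (Fin (n + 1)) ℚ, Q.IsHomogeneous D → Q ∈ I := by
  classical
  by_cases h : ∃ u : Fin (n + 1) → AlgebraicClosure ℚ, u ≠ 0 ∧
      ∀ P ∈ I, MvPolynomial.aeval u P = 0
  · exact Or.inl h
  right
  push Not at h
  have h1 : ∀ a : Fin (n + 1), ∃ N : ℕ, (X a : MvPolynomial (Fin (n + 1)) ℚ) ^ N ∈ I := by
    intro a
    have h2 : (X a : MvPolynomial (Fin (n + 1)) ℚ) ∈ I.radical := by
      rw [← vanishingIdeal_zeroLocus_eq_radical (K := AlgebraicClosure ℚ),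
        mem_vanishingIdeal_iff]
      intro x hx
      rw [aeval_X]
      by_contra hxa
      obtain ⟨P, hP, hP0⟩ := h x (fun h0 => hxa (congrFun h0 a))
      exact hP0 (hx P hP)
    exact h2
  choose N hN using h1
  refine ⟨∑ a, N a + 1, fun D hD Q hQ => ?_⟩
  rw [Q.as_sum]
  refine Ideal.sum_mem _ fun b hb => ?_
  have hdeg : b.degree = D := by
    by_contra h0
    exact (mem_support_iff.1 hb) (hQ.coeff_eq_zero h0)
  obtain ⟨a, ha⟩ : ∃ a, N a ≤ b a := by
    by_contra hcon
    push Not at hcon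
    rw [Finsupp.degree_eq_sum] at hdeg
    have h3 : ∑ a, b a ≤ ∑ a, N a := Finset.sum_le_sum fun a _ => (hcon a).le
    omega
  have h3 : (monomial b (Q.coeff b) : MvPolynomial (Fin (n + 1)) ℚ) =
      monomial (b - Finsupp.single a (N a)) (Q.coeff b) * X a ^ N a := by
    rw [X_pow_eq_monomial, monomial_mul, mul_one]
    congr 1
    rw [tsub_add_cancel_of_le]
    rw [Finsupp.single_le_iff]
    exact ha
  rw [h3]
  exact Ideal.mul_mem_left _ _ (hN a)

/-- products of forms and monomials span -/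
theorem span_prod (r m0 : ℕ) {m : ℕ} (P : Fin m → MvPolynomial (Fin (n + 1)) ℚ)
    (hP : ∀ k, (P k).IsHomogeneous r)
    (h : ∀ D, m0 + r ≤ D → ∀ Q : MvPolynomial (Fin (n + 1)) ℚ, Q.IsHomogeneous D →
      Q ∈ Ideal.span (Set.range P)) (j : ℕ) :
    ∀ Q : MvPolynomial (Fin (n + 1)) ℚ, Q.IsHomogeneous (j * r + m0) →
      Q ∈ Submodule.span ℚ (Set.range fun p : (Fin j → Fin m) × AD n m0 =>
        (∏ i, P (p.1 i)) * monomial (p.2 : Fin (n + 1) →₀ ℕ) (1 : ℚ)) := by
  classical
  induction j with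
  | zero =>
    intro Q hQ
    rw [zero_mul, zero_add] at hQ
    rw [eq_PY Q hQ]
    unfold PY
    refine Submodule.sum_mem _ fun i _ => ?_
    have h1 : (monomial ((ee n m0 i : AD n m0) : Fin (n + 1) →₀ ℕ)
        (Q.coeff ((ee n m0 i : AD n m0) : Fin (n + 1) →₀ ℕ)) : MvPolynomial (Fin (n + 1)) ℚ) =
        (Q.coeff ((ee n m0 i : AD n m0) : Fin (n + 1) →₀ ℕ)) •
          ((∏ i' : Fin 0, P ((fun x : Fin 0 => x.elim0 : Fin 0 → Fin m) i')) *
          monomial ((ee n m0 i : AD n m0) : Fin (n + 1) →₀ ℕ) (1 : ℚ)) := by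
      rw [Finset.univ_eq_empty, Finset.prod_empty, one_mul, smul_monomial, smul_eq_mul, mul_one]
    show (monomial ((ee n m0 i : AD n m0) : Fin (n + 1) →₀ ℕ)
        (Q.coeff ((ee n m0 i : AD n m0) : Fin (n + 1) →₀ ℕ)) : MvPolynomial (Fin (n + 1)) ℚ) ∈ _
    rw [h1]
    exact Submodule.smul_mem _ _ (Submodule.subset_span
      ⟨((fun x : Fin 0 => x.elim0 : Fin 0 → Fin m), ee n m0 i), rfl⟩)
  | succ j ih =>
    intro Q hQ
    have hD : (j + 1) * r + m0 = (j * r + m0) + r := by ring
    have h1 := h _ (by rw [hD]; omega) Q hQ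
    obtain ⟨c, hc⟩ := (Ideal.mem_span_range_iff_exists_fun).1 h1
    have h2 : Q = ∑ k, homogeneousComponent (j * r + m0) (c k) * P k := by
      rw [hD] at hQ
      have h3 : homogeneousComponent ((j * r + m0) + r) Q = Q := by
        rw [homogeneousComponent_of_mem hQ, if_pos rfl]
      rw [← h3, ← hc, map_sum]
      exact Finset.sum_congr rfl fun k _ => Pool.Agent.W180.OP.homComp_mul _ _ _ _ (hP k)
    rw [h2]
    refine Submodule.sum_mem _ fun k _ => ?_
    have h3 := ih _ (homogeneousComponent_isHomogeneous (j * r + m0) (c k))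
    have h4 : ∀ q ∈ Submodule.span ℚ (Set.range fun p : (Fin j → Fin m) × AD n m0 =>
        (∏ i, P (p.1 i)) * monomial (p.2 : Fin (n + 1) →₀ ℕ) (1 : ℚ)), q * P k ∈
        Submodule.span ℚ (Set.range fun p : (Fin (j + 1) → Fin m) × AD n m0 =>
        (∏ i, P (p.1 i)) * monomial (p.2 : Fin (n + 1) →₀ ℕ) (1 : ℚ)) := by
      intro q hq
      induction hq using Submodule.span_induction with
      | mem x hx =>
        obtain ⟨p, rfl⟩ := hx
        refine Submodule.subset_span ⟨(Fin.cons k p.1, p.2), ?_⟩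
        show (∏ i, P ((Fin.cons k p.1 : Fin (j + 1) → Fin m) i)) *
          monomial (p.2 : Fin (n + 1) →₀ ℕ) (1 : ℚ) = _
        rw [Fin.prod_univ_succ]
        simp only [Fin.cons_zero, Fin.cons_succ]
        ring
      | zero =>
        rw [zero_mul]
        exact Submodule.zero_mem _
      | add x y _ _ hx hy =>
        rw [add_mul]
        exact Submodule.add_mem _ hx hy
      | smul a x _ hx =>
        rw [smul_mul_assoc]
        exact Submodule.smul_mem _ _ hx
    exact h4 _ h3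

/-- a basis of forms of large degree consisting of products -/
theorem exists_prods (r m0 : ℕ) {m : ℕ} (g : Fin m → Fin (NN n r) → ℤ)
    (h : ∀ D, m0 + r ≤ D → ∀ Q : MvPolynomial (Fin (n + 1)) ℚ, Q.IsHomogeneous D →
      Q ∈ Ideal.span (Set.range fun k => PY ℚ fun i => (g k i : ℚ))) (j : ℕ) :
    ∃ (κ : Fin (NN n (j * r + m0)) → Fin j → Fin m) (a : Fin (NN n (j * r + m0)) → AD n m0),
      (Matrix.of fun ρ i => ((∏ i', PY ℤ (g (κ ρ i'))) *
        monomial (a ρ : Fin (n + 1) →₀ ℕ) (1 : ℤ)).coeff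
          ((ee n (j * r + m0) i : AD n (j * r + m0)) : Fin (n + 1) →₀ ℕ)).det ≠ 0 := by
  classical
  set P : Fin m → MvPolynomial (Fin (n + 1)) ℚ := fun k => PY ℚ fun i => (g k i : ℚ) with hP
  have hspan := span_prod r m0 P (fun k => PY_hom _) h j
  set D := j * r + m0 with hD
  obtain ⟨γ, hγ⟩ := exists_det (F := ℚ) (α := (Fin j → Fin m) × AD n m0) (n := NN n D)
    (fun p i => ((∏ i', P (p.1 i')) * monomial (p.2 : Fin (n + 1) →₀ ℕ) (1 : ℚ)).coeff
      ((ee n D i : AD n D) : Fin (n + 1) →₀ ℕ)) (by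
    intro t ht
    funext i0
    have h1 : ∀ q ∈ Submodule.span ℚ (Set.range fun p : (Fin j → Fin m) × AD n m0 =>
        (∏ i, P (p.1 i)) * monomial (p.2 : Fin (n + 1) →₀ ℕ) (1 : ℚ)),
        ∑ i, q.coeff ((ee n D i : AD n D) : Fin (n + 1) →₀ ℕ) * t i = 0 := by
      intro q hq
      induction hq using Submodule.span_induction with
      | mem x hx =>
        obtain ⟨p, rfl⟩ := hx
        exact ht p
      | zero => simp
      | add x y _ _ hx hy =>
        simp only [coeff_add, add_mul, Finset.sum_add_distrib]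
        rw [hx, hy, add_zero]
      | smul a x _ hx =>
        simp only [coeff_smul, smul_eq_mul, mul_assoc]
        rw [← Finset.mul_sum, hx, mul_zero]
    have h2 := h1 _ (hspan _ (isHomogeneous_monomial (R := ℚ) 1 (mem_AD.1 (ee n D i0).2)))
    rw [Finset.sum_eq_single i0] at h2
    · rw [coeff_monomial, if_pos rfl, one_mul] at h2
      exact h2
    · intro i _ hi
      rw [coeff_monomial, if_neg, zero_mul]
      intro h3
      exact hi ((ee n D).injective (Subtype.ext h3.symm))
    · intro h3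
      exact absurd (Finset.mem_univ i0) h3)
  refine ⟨fun ρ => (γ ρ).1, fun ρ => (γ ρ).2, fun h0 => hγ ?_⟩
  have h1 := congrArg (Int.castRingHom ℚ) h0
  rw [map_zero, RingHom.map_det] at h1
  rw [← h1]
  congr 1
  ext ρ i
  rw [Matrix.of_apply, RingHom.mapMatrix_apply, Matrix.map_apply, Matrix.of_apply,
    ← coeff_map, map_mul, map_prod, map_monomial]
  simp only [PY_map, map_one]
  rfl

end Pool.Agent.T9h24
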