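import Mathlib
import Pool.Agent.T9h24.Plf
import Pool.Agent.T9h24.Nst
import Pool.Agent.T9h24.Glo

/-!
The family of linear forms on the coefficients, and the estimate at one place.
-/

set_option autoImplicit false
set_option linter.unusedSectionVars false

open Finset MvPolynomial NumberField IsDedekindDomain

namespace Pool.Agent.T9h24

open Pool.Agent.W180.OP (Pl av wt nrm le_nrm nrm_pos)

variable {n : ℕ}

/-- the determinant of products of forms -/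
noncomputable def Dt (r j m0 : ℕ) {m : ℕ} (h : Fin m → Fin (NN n r) → ℤ)
    (κ : Fin (NN n (j * r + m0)) → Fin j → Fin m) (b : Fin (NN n (j * r + m0)) → AD n m0) : ℤ :=
  (Matrix.of fun ρ i => ((∏ i', PY ℤ (h (κ ρ i'))) *
        monomial (b ρ : Fin (n + 1) →₀ ℕ) (1 : ℤ)).coeff
          ((ee n (j * r + m0) i : AD n (j * r + m0)) : Fin (n + 1) →₀ ℕ)).det

theorem Dt_cast (F : Type) [Field F] (r j m0 : ℕ) {m : ℕ} (h : Fin m → Fin (NN n r) → ℤ)
    (κ : Fin (NN n (j * r + m0)) → Fin j → Fin m) (b : Fin (NN n (j * r + m0)) → AD n m0) :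
    ((Dt r j m0 h κ b : ℤ) : F) =
      (Matrix.of fun ρ i => ((∏ i', PY F (fun i => ((h (κ ρ i') i : ℤ) : F))) *
        monomial (b ρ : Fin (n + 1) →₀ ℕ) (1 : F)).coeff
          ((ee n (j * r + m0) i : AD n (j * r + m0)) : Fin (n + 1) →₀ ℕ)).det := by
  unfold Dt
  have h1 := RingHom.map_det (Int.castRingHom F) (Matrix.of fun ρ i =>
    ((∏ i', PY ℤ (h (κ ρ i'))) * monomial (b ρ : Fin (n + 1) →₀ ℕ) (1 : ℤ)).coeff
          ((ee n (j * r + m0) i : AD n (j * r + m0)) : Fin (n + 1) →₀ ℕ))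
  rw [eq_intCast] at h1
  rw [h1]
  congr 1
  ext ρ i
  rw [Matrix.of_apply, RingHom.mapMatrix_apply, Matrix.map_apply, Matrix.of_apply,
    ← coeff_map, map_mul, map_prod, map_monomial]
  simp only [PY_map, map_one]
  rfl

variable {K : Type} [Field K] [NumberField K]

/-- the coefficients of the linear forms -/
theorem coe_LL (Λ : Fin (n + 1) → Fin (n + 1) → 𝓞 K) (b a : Fin (n + 1) →₀ ℕ) :
    (((sb Λ (monomial b 1)).coeff a : 𝓞 K) : K) =
      (sb (fun k j => (Λ k j : K)) (monomial b (1 : K))).coeff a := by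
  have h1 := coeff_map (algebraMap (𝓞 K) K) (sb Λ (monomial b 1)) a
  rw [sb_map, map_monomial, map_one] at h1
  exact h1.symm

theorem val_LL (Λ : Fin (n + 1) → Fin (n + 1) → 𝓞 K) (a : Fin (n + 1) →₀ ℕ) {r : ℕ}
    (y : Fin (NN n r) → ℤ) :
    ∑ i, (((sb Λ (monomial ((ee n r i : AD n r) : Fin (n + 1) →₀ ℕ) 1)).coeff a : 𝓞 K) : K) *
      ((y i : ℤ) : K) =
      (sb (fun k j => (Λ k j : K)) (PY K fun i => ((y i : ℤ) : K))).coeff a := by
  rw [coeff_sb _ (PY_hom _)]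
  refine Finset.sum_congr rfl fun i _ => ?_
  rw [coe_LL, coeff_PY, mul_comm]

theorem map_sb_coeff {F : Type} [Field F] (ψ : K →+* F) (Λ : Fin (n + 1) → Fin (n + 1) → K)
    (a : Fin (n + 1) →₀ ℕ) {r : ℕ} (y : Fin (NN n r) → ℤ) :
    ψ ((sb Λ (PY K fun i => ((y i : ℤ) : K))).coeff a) =
      (sb (fun k j => ψ (Λ k j)) (PY F fun i => ((y i : ℤ) : F))).coeff a := by
  have h1 := coeff_map ψ (sb Λ (PY K fun i => ((y i : ℤ) : K))) a
  rw [sb_map, PY_map] at h1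
  simp only [map_intCast] at h1
  exact h1.symm

/-- **One place.** -/
theorem placeF {F : Type} [NormedField F] [CharZero F] [IsAlgClosed F] (ψ : K →+* F)
    (w : Pl K) (c : ℝ) (hc : 0 < c) (hψ : ∀ z, ‖ψ z‖ = av w z ^ c) (r j m0 : ℕ)
    {κβ : Type} [Fintype κβ] (Ω : κβ → Fin (n + 1) → Fin (n + 1) → 𝓞 K) :
    ∃ Cc : ℝ, 0 ≤ Cc ∧ ∀ (E : Type) [Field E] [NumberField E], Module.finrank ℚ E = r →
      ∀ x : Fin (n + 1) → 𝓞 E, x ≠ 0 → ∀ (g : ℤ) (y : Fin (NN n r) → ℤ), g ≠ 0 →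
      nf x = C g * PY ℤ y → ∀ {m : ℕ} (h : Fin m → Fin (NN n r) → ℤ) (B : ℝ),
      (∀ k β (a : AD n r), av w (∑ i, (((sb (Ω β) (monomial ((ee n r i : AD n r) :
        Fin (n + 1) →₀ ℕ) 1)).coeff (a : Fin (n + 1) →₀ ℕ) : 𝓞 K) : K) * ((h k i : ℤ) : K)) ≤
        Real.exp B * av w (∑ i, (((sb (Ω β) (monomial ((ee n r i : AD n r) :
        Fin (n + 1) →₀ ℕ) 1)).coeff (a : Fin (n + 1) →₀ ℕ) : 𝓞 K) : K) * ((y i : ℤ) : K))) →
      ∀ (κ : Fin (NN n (j * r + m0)) → Fin j → Fin m) (b : Fin (NN n (j * r + m0)) → AD n m0),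
      Dt r j m0 h κ b ≠ 0 → ∀ β, (Matrix.of fun k j => ψ (Ω β k j : K)).det ≠ 0 →
      Real.log ‖((Dt r j m0 h κ b : ℤ) : F)‖ ≤
        (NN n (j * r + m0) : ℝ) * (j * (c * B + (∑ τ : E →+* F,
          Real.log ‖fun i => τ (x i : E)‖ - Real.log ‖(g : F)‖))) +
          Cc - (j.descFactorial (n + 1) : ℝ) / ((n + 1).factorial : ℝ) *
          ∑ σ : Fin (n + 1) → (E →+* F), td (uu (fun k j => ψ (Ω β k j : K))
            (fun (τ : E →+* F) i => τ (x i : E))) σ := by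
  classical
  have hloc : ∀ β, ∃ Cc : ℝ, 0 ≤ Cc ∧ ((Matrix.of fun k j => ψ (Ω β k j : K)).det ≠ 0 →
      ∀ {H : Type} [Fintype H] [DecidableEq H],
      Fintype.card H = r → ∀ ℓ : H → Fin (n + 1) → F, (∀ τ, ℓ τ ≠ 0) →
      ∀ (y : Fin (NN n r) → F) (gg : F), gg ≠ 0 →
      C gg * PY F y = ∏ τ, ∑ j, C (ℓ τ j) * X j →
      ∀ {m : ℕ} (g : Fin m → Fin (NN n r) → F) (R : ℝ), 0 < R →
      (∀ k a, ‖(sb (fun k j => ψ (Ω β k j : K)) (PY F (g k))).coeff a‖ ≤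
        R * ‖(sb (fun k j => ψ (Ω β k j : K)) (PY F y)).coeff a‖) →
      ∀ (κ : Fin (NN n (j * r + m0)) → Fin j → Fin m) (b : Fin (NN n (j * r + m0)) → AD n m0),
      (Matrix.of fun ρ i => ((∏ i', PY F (g (κ ρ i'))) *
        monomial (b ρ : Fin (n + 1) →₀ ℕ) (1 : F)).coeff
          ((ee n (j * r + m0) i : AD n (j * r + m0)) : Fin (n + 1) →₀ ℕ)).det ≠ 0 →
      Real.log ‖(Matrix.of fun ρ i => ((∏ i', PY F (g (κ ρ i'))) *
        monomial (b ρ : Fin (n + 1) →₀ ℕ) (1 : F)).coeff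
          ((ee n (j * r + m0) i : AD n (j * r + m0)) : Fin (n + 1) →₀ ℕ)).det‖ ≤
        (NN n (j * r + m0) : ℝ) * (j * (Real.log R + (∑ τ, Real.log ‖ℓ τ‖ - Real.log ‖gg‖))) +
          Cc - (j.descFactorial (n + 1) : ℝ) / ((n + 1).factorial : ℝ) *
          ∑ σ : Fin (n + 1) → H, td (uu (fun k j => ψ (Ω β k j : K)) ℓ) σ) := by
    intro β
    by_cases hβ : (Matrix.of fun k j => ψ (Ω β k j : K)).det ≠ 0
    · obtain ⟨Cc, hC, h⟩ := loc_place (fun k j => ψ (Ω β k j : K)) hβ r j m0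
      exact ⟨Cc, hC, fun _ => h⟩
    · exact ⟨0, le_rfl, fun h => absurd h hβ⟩
  choose Cβ hCβ hloc using hloc
  refine ⟨∑ β, Cβ β, Finset.sum_nonneg fun β _ => hCβ β,
    fun E _ _ hE x hx g y hg hnf {m} h B hB κ b hΔ β hβ => ?_⟩
  have hH : Fintype.card (E →+* F) = r := by rw [card_emb F, hE]
  have hℓ : ∀ τ : E →+* F, (fun i => τ (x i : E)) ≠ 0 := by
    intro τ h0
    apply hx
    funext i
    have h1 : τ (x i : E) = 0 := congrFun h0 i
    exact RingOfIntegers.ext (by simpa using h1)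
  have hgF : (g : F) ≠ 0 := by exact_mod_cast hg
  have hfac : C (g : F) * PY F (fun i => ((y i : ℤ) : F)) =
      ∏ τ : E →+* F, ∑ j, C (τ (x j : E)) * X j := by
    rw [← nf_map F x, hnf, map_mul, PY_map, map_C]
    rfl
  have hcomp : ∀ k a, ‖(sb (fun k j => ψ (Ω β k j : K))
      (PY F fun i => ((h k i : ℤ) : F))).coeff a‖ ≤
        Real.exp (c * B) * ‖(sb (fun k j => ψ (Ω β k j : K))
          (PY F fun i => ((y i : ℤ) : F))).coeff a‖ := by
    intro k a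
    by_cases ha : a ∈ AD n r
    · have h1 := hB k β ⟨a, ha⟩
      rw [val_LL, val_LL] at h1
      rw [← map_sb_coeff ψ (fun k j => (Ω β k j : K)) a (h k),
        ← map_sb_coeff ψ (fun k j => (Ω β k j : K)) a y, hψ, hψ]
      have h3 := Real.rpow_le_rpow ((av w).nonneg _) h1 hc.le
      rw [Real.mul_rpow (Real.exp_pos _).le ((av w).nonneg _), ← Real.exp_mul, mul_comm B c] at h3
      exact h3
    · have h1 : a.degree ≠ r := fun h => ha (mem_AD.2 h)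
      rw [(sb_hom _ (PY_hom _)).coeff_eq_zero h1, norm_zero]
      exact mul_nonneg (Real.exp_pos _).le (norm_nonneg _)
  have hΔF : ((Dt r j m0 h κ b : ℤ) : F) ≠ 0 := by exact_mod_cast hΔ
  rw [Dt_cast F] at hΔF ⊢
  have h1 := hloc β hβ (H := E →+* F) hH (fun τ i => τ (x i : E)) hℓ
    (fun i => ((y i : ℤ) : F)) (g : F) hgF hfac (fun k i => ((h k i : ℤ) : F))
    (Real.exp (c * B)) (Real.exp_pos _) hcomp κ b hΔF
  rw [Real.log_exp] at h1
  refine h1.trans ?_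
  have h2 := Finset.single_le_sum (f := Cβ) (fun β _ => hCβ β) (Finset.mem_univ β)
  exact sub_le_sub_right (add_le_add_right h2 _) _

/-- integral multiples of the roots -/
theorem exists_roots (G : Polynomial ℤ) : ∃ (D0 : ℤ) (RK : Finset K) (ω : RK → 𝓞 K), D0 ≠ 0 ∧
    (∀ P, P ∈ RK ↔ P ∈ (mp K G).roots) ∧ ∀ z, (ω z : K) = (D0 : K) * (z : K) := by
  classical
  set RK : Finset K := (mp K G).roots.toFinset with hRK
  obtain ⟨D0, hD0, hint⟩ := exists_integral_multiples ℤ ℚ RK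
  have hL : ∀ z : RK, ∃ w : 𝓞 K, (w : K) = (D0 : K) * (z : K) := by
    intro z
    have h1 := hint (z : K) z.2
    rw [zsmul_eq_mul] at h1
    exact ⟨⟨_, h1⟩, rfl⟩
  choose ω hω using hL
  exact ⟨D0, RK, ω, hD0, fun P => by rw [hRK, Multiset.mem_toFinset], hω⟩

end Pool.Agent.T9h24
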