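import Mathlib
import Pool.Agent.T9h24.Lin

/-!
The dual estimate: small vectors of the dual lattice.
-/

set_option autoImplicit false
set_option linter.unusedSectionVars false

open Finset NumberField IsDedekindDomain Height Module

namespace Pool.Agent.T9h24

open Pool.Agent.Y742.SF (fv fv_eq fv_pos fv_nonneg fv_int fv_eq_one_iff fv_mul)
open Pool.Agent.W180.OP (Pl av wt nrm le_nrm nrm_pos nrm_nonneg nrm_le exists_nrm wt_nonneg)
open Pool.Agent.R405 (Good dot exv)

variable {K : Type} [Field K] [NumberField K]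

theorem wt_inl (w : InfinitePlace K) : wt (Sum.inl w : Pl K) = (w.mult : ℝ) := rfl

theorem sum_wt_inl : ∑ w : InfinitePlace K, wt (Sum.inl w : Pl K) = Module.finrank ℚ K := by
  simp only [wt_inl]
  exact_mod_cast InfinitePlace.sum_mult_eq (K := K)

/-- the values of integral forms at an integral point are not too small -/
theorem sum_abs_log {N : ℕ} {ι : Type} [Fintype ι] (L : ι → Fin N → 𝓞 K) :
    ∃ C1 C2 : ℝ, 0 ≤ C1 ∧ 0 ≤ C2 ∧ ∀ (T : Finset (HeightOneSpectrum (𝓞 K))) (y : Fin N → ℤ),
      y ≠ 0 → (∀ l, ∑ j, L l j * (y j : 𝓞 K) ≠ 0) →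
      ∑ v ∈ Finset.disjSum Finset.univ T, wt v *
        ∑ l, |Real.log (av v ((∑ j, L l j * (y j : 𝓞 K) : 𝓞 K) : K))| ≤
          C1 * Real.log (sz y) + C2 := by
  classical
  set d : ℝ := ((Module.finrank ℚ K : ℕ) : ℝ) with hd
  have hd0 : 0 ≤ d := Nat.cast_nonneg _
  set M : ℝ := 1 + ∑ w : InfinitePlace K, ∑ l, ∑ j, w (L l j : K) with hM
  have hM0 : 0 ≤ ∑ w : InfinitePlace K, ∑ l, ∑ j, w (L l j : K) :=
    Finset.sum_nonneg fun w _ => Finset.sum_nonneg fun l _ => Finset.sum_nonneg fun j _ =>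
      apply_nonneg _ _
  have hM1 : 1 ≤ M := by linarith
  have hMle : ∀ (w : InfinitePlace K) l, ∑ j, w (L l j : K) ≤ M := by
    intro w l
    have h1 := Finset.single_le_sum (f := fun l => ∑ j, w (L l j : K))
      (fun l _ => Finset.sum_nonneg fun j _ => apply_nonneg _ _) (Finset.mem_univ l)
    have h2 := Finset.single_le_sum (f := fun w : InfinitePlace K => ∑ l, ∑ j, w (L l j : K))
      (fun w _ => Finset.sum_nonneg fun l _ => Finset.sum_nonneg fun j _ =>
        apply_nonneg _ _) (Finset.mem_univ w)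
    have h3 : ∑ j, w (L l j : K) ≤ ∑ w : InfinitePlace K, ∑ l, ∑ j, w (L l j : K) := h1.trans h2
    linarith
  have hlogM := Real.log_nonneg hM1
  refine ⟨2 * d * Fintype.card ι, 2 * d * Real.log M * Fintype.card ι, by positivity,
    by positivity, fun T y hy hev => ?_⟩
  set ev : ι → 𝓞 K := fun l => ∑ j, L l j * (y j : 𝓞 K) with hevd
  set S : Finset (Pl K) := Finset.disjSum Finset.univ T with hS
  have hsz := one_le_sz y hy
  have hlsz := Real.log_nonneg hsz
  have hone : ∀ l, ∑ v ∈ S, wt v * |Real.log (av v (ev l : K))| ≤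
      2 * d * Real.log (sz y) + 2 * d * Real.log M := by
    intro l
    have h1 := int_prod (ev l) (hev l) T
    rw [← hS] at h1
    have h2 : ∀ a : ℝ, |a| = 2 * max a 0 - a := by
      intro a
      rcases le_total 0 a with h | h
      · rw [abs_of_nonneg h, max_eq_left h]
        ring
      · rw [abs_of_nonpos h, max_eq_right h]
        ring
    have h3 : ∑ v ∈ S, wt v * |Real.log (av v (ev l : K))| =
        2 * ∑ v ∈ S, wt v * max (Real.log (av v (ev l : K))) 0 -
          ∑ v ∈ S, wt v * Real.log (av v (ev l : K)) := by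
      rw [Finset.mul_sum, ← Finset.sum_sub_distrib]
      refine Finset.sum_congr rfl fun v _ => ?_
      rw [h2]
      ring
    have h4 : ∑ v ∈ S, wt v * max (Real.log (av v (ev l : K))) 0 ≤
        d * (Real.log (sz y) + Real.log M) := by
      rw [hS, Finset.sum_disjSum]
      have h5 : ∑ Q ∈ T, wt (Sum.inr Q : Pl K) * max (Real.log (av (Sum.inr Q : Pl K)
          (ev l : K))) 0 ≤ 0 := by
        refine Finset.sum_nonpos fun Q _ => ?_
        have h6 : Real.log (av (Sum.inr Q : Pl K) (ev l : K)) ≤ 0 :=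
          Real.log_nonpos ((av _).nonneg _) (fv_int Q (ev l))
        rw [max_eq_right h6, mul_zero]
      have h7 : ∑ w : InfinitePlace K, wt (Sum.inl w : Pl K) * max (Real.log
          (av (Sum.inl w : Pl K) (ev l : K))) 0 ≤
          ∑ w : InfinitePlace K, wt (Sum.inl w : Pl K) * (Real.log (sz y) + Real.log M) := by
        refine Finset.sum_le_sum fun w _ => mul_le_mul_of_nonneg_left ?_ (wt_nonneg _)
        refine max_le ?_ (by positivity)
        have h8 : w (ev l : K) ≤ M * sz y := by
          have h9 : (ev l : K) = ∑ j, (L l j : K) * (y j : K) := by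
            simp only [hevd]
            push_cast
            rfl
          rw [h9]
          refine (w.1.sum_le _ _).trans ?_
          have h10 : ∀ j, w.1 ((L l j : K) * (y j : K)) ≤ w (L l j : K) * sz y := by
            intro j
            rw [map_mul]
            refine mul_le_mul_of_nonneg_left ?_ (apply_nonneg w.1 _)
            have := le_sz y j
            rw [← place_int w (y j)] at this
            exact this
          refine (Finset.sum_le_sum fun j _ => h10 j).trans ?_
          rw [← Finset.sum_mul]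
          exact mul_le_mul_of_nonneg_right (hMle w l) (by linarith)
        have h11 : 0 < w (ev l : K) :=
          InfinitePlace.pos_iff.2 (RingOfIntegers.coe_ne_zero_iff.2 (hev l))
        have h12 := Real.log_le_log h11 h8
        rw [Real.log_mul (by linarith) (by linarith)] at h12
        have h13 : Real.log (av (Sum.inl w : Pl K) (ev l : K)) = Real.log (w (ev l : K)) := rfl
        rw [h13]
        linarith
      rw [← Finset.sum_mul, sum_wt_inl] at h7
      linarith
    rw [h3]
    linarith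
  have h1 : ∑ v ∈ S, wt v * ∑ l, |Real.log (av v (ev l : K))| =
      ∑ l, ∑ v ∈ S, wt v * |Real.log (av v (ev l : K))| := by
    simp only [Finset.mul_sum]
    exact Finset.sum_comm
  rw [h1]
  refine (Finset.sum_le_sum fun l _ => hone l).trans (le_of_eq ?_)
  rw [Finset.sum_const, Finset.card_univ, nsmul_eq_mul]
  ring

/-- a left inverse of a linearly independent family -/
theorem exists_left {N s : ℕ} (Θ : Fin s → Fin N → K) (hΘ : LinearIndependent K Θ) :
    ∃ P : Fin s → Fin N → K, ∀ (t : Fin s → K) (ξ : Fin N → K), (∀ j, ξ j = ∑ i, t i * Θ i j) →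
      (fun i => ∑ j, P i j * ξ j) = t := by
  classical
  have hinj : LinearMap.ker (Fintype.linearCombination K Θ) = ⊥ := by
    rw [eq_bot_iff]
    intro c hc
    have h1 : Fintype.linearCombination K Θ c = 0 := hc
    rw [Fintype.linearCombination_apply] at h1
    exact (Submodule.mem_bot K).2 (funext fun i => Fintype.linearIndependent_iff.1 hΘ c h1 i)
  obtain ⟨P, hP⟩ := LinearMap.exists_leftInverse_of_injective _ hinj
  refine ⟨fun i j => P (Pi.single j 1) i, fun t ξ hξ => ?_⟩
  have h1 : P ξ = t := by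
    have h2 : ξ = Fintype.linearCombination K Θ t := by
      rw [Fintype.linearCombination_apply]
      funext j
      rw [hξ j]
      simp only [Finset.sum_apply, Pi.smul_apply, smul_eq_mul]
    rw [h2]
    exact LinearMap.congr_fun hP _
  have h3 : ξ = ∑ j, ξ j • (Pi.single j (1 : K) : Fin N → K) := by
    funext i
    simp [Finset.sum_apply, Pi.single_apply]
  rw [h3, map_sum] at h1
  funext i
  have h4 := congrFun h1 i
  rw [← h4]
  simp only [map_smul, Finset.sum_apply, Pi.smul_apply, smul_eq_mul]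
  exact Finset.sum_congr rfl fun j _ => mul_comm _ _

/-- the dual estimate, generic multipliers -/
theorem dualA [IsGalois ℚ K] (hi : ∃ z : K, z ^ 2 = -1) {N : ℕ} {ι : Type} [Fintype ι]
    [DecidableEq ι] (L : ι → Fin N → 𝓞 K) {s : ℕ} (hs : 1 ≤ s) (Θ : Fin s → Fin N → K)
    (hΘ : LinearIndependent K Θ) :
    ∃ (Zt : Finset (Fin s → K)) (Zy : Finset (Fin N → K)), (∀ z ∈ Zt, z ≠ 0) ∧
      (∀ z ∈ Zy, z ≠ 0) ∧ ∀ (T : Finset (HeightOneSpectrum (𝓞 K))) (ε : ℝ), 0 < ε →
      ∃ C : ℝ, 0 ≤ C ∧ ∀ y : Fin N → ℤ, (∃ u : Fin N → ℤ, ∑ j, u j * y j = 1) →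
        (∀ z ∈ Zy, ∑ j, z j * (y j : K) ≠ 0) → (∀ l, ∑ j, L l j * (y j : 𝓞 K) ≠ 0) →
        ∀ β : Pl K → Fin N → ι, (∀ v, (Matrix.of fun a j => (L (β v a) j : K)).det ≠ 0) →
        ∀ t : Fin s → K, t ≠ 0 → (∀ z ∈ Zt, ∑ i, z i * t i ≠ 0) →
        ∀ ξ : Fin N → 𝓞 K, (∀ j, (ξ j : K) = ∑ i, t i * Θ i j) → ∀ κ : Pl K → ℝ,
        (∀ v ∈ Finset.disjSum Finset.univ T, ∀ dd : Fin N → K,
          (fun j => (ξ j : K)) = ∑ a, dd a • (fun j => (L (β v a) j : K)) → ∀ a,
          av v (dd a) * av v ((∑ j, L (β v a) j * (y j : 𝓞 K) : 𝓞 K) : K) ≤ Real.exp (κ v)) →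
        -(ε * Real.log (sz y)) - C ≤ ∑ v ∈ Finset.disjSum Finset.univ T, wt v * κ v := by
  classical
  have hnn : ∀ (v : Pl K) (z : K), 0 ≤ av v z := fun v z => (av v).nonneg z
  -- coordinates of the vectors
  have hD : ∀ (β : Fin N → ι) (i : Fin s), ∃ c : Fin N → K,
      (Matrix.of fun a j => (L (β a) j : K)).det ≠ 0 →
      Θ i = ∑ a, c a • (fun j => (L (β a) j : K)) := by
    intro β i
    by_cases h : (Matrix.of fun a j => (L (β a) j : K)).det ≠ 0
    · obtain ⟨c, hc⟩ := exists_coeff (fun a j => (L (β a) j : K)) h (Θ i)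
      exact ⟨c, fun _ => hc⟩
    · exact ⟨0, fun h' => absurd h' h⟩
  choose cD hcD using hD
  set D : (Fin N → ι) → Fin N → Fin s → K := fun β a i => cD β i a with hDdef
  have hDt : ∀ β : Fin N → ι, (Matrix.of fun a j => (L (β a) j : K)).det ≠ 0 →
      ∀ (t : Fin s → K) (j : Fin N),
      ∑ i, t i * Θ i j = ∑ a, (∑ i, D β a i * t i) * (L (β a) j : K) := by
    intro β hβ t j
    have h1 : ∀ i, Θ i j = ∑ a, D β a i * (L (β a) j : K) := by
      intro i
      have := congrFun (hcD β i hβ) j
      simpa [Finset.sum_apply] using this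
    simp only [h1, Finset.mul_sum, Finset.sum_mul]
    rw [Finset.sum_comm]
    exact Finset.sum_congr rfl fun a _ => Finset.sum_congr rfl fun i _ => by ring
  have hrank : ∀ β : Fin N → ι, (Matrix.of fun a j => (L (β a) j : K)).det ≠ 0 →
      ∀ t : Fin s → K, (∀ a, ∑ i, D β a i * t i = 0) → t = 0 := by
    intro β hβ t ht
    have h1 : ∑ i, t i • Θ i = 0 := by
      funext j
      simp only [Finset.sum_apply, Pi.smul_apply, smul_eq_mul, Pi.zero_apply]
      rw [hDt β hβ t j]
      simp [ht]
    exact funext fun i => Fintype.linearIndependent_iff.1 hΘ t h1 i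
  -- the forms for the multipliers
  set ιt := {p : (Fin N → ι) × Fin N // D p.1 p.2 ≠ 0} with hιt
  obtain ⟨Z1, hZ1, hmain1⟩ := Pool.Agent.R405.schV (k := K) (K := K) hi hs
    (fun p : ιt => D p.1.1 p.1.2)
  -- the dual forms
  set η : (Fin N → ι) → (Fin s → Fin N) → Fin s → Fin s → K := fun β γ i j =>
    (Matrix.of fun i' => D β (γ i'))⁻¹ j i with hη
  set ιy := {q : (Fin N → ι) × (Fin s → Fin N) × Fin s // η q.1 q.2.1 q.2.2 ≠ 0} with hιy
  obtain ⟨Z2, hZ2, hmain2⟩ := Pool.Agent.R405.schV (k := K) (K := K) hi hs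
    (fun q : ιy => η q.1.1 q.1.2.1 q.1.2.2)
  have hηD : ∀ (β : Fin N → ι) (γ : Fin s → Fin N), (Matrix.of fun i => D β (γ i)).det ≠ 0 →
      ∀ i i', ∑ j, η β γ i j * D β (γ i') j = if i' = i then 1 else 0 := by
    intro β γ hγ i i'
    have h1 := Matrix.mul_nonsing_inv (Matrix.of fun i => D β (γ i)) (Ne.isUnit hγ)
    have h2 := congrFun (congrFun h1 i') i
    rw [Matrix.mul_apply, Matrix.one_apply] at h2
    rw [← h2]
    exact Finset.sum_congr rfl fun j _ => mul_comm _ _
  -- the projections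
  obtain ⟨P, hP⟩ := exists_left Θ hΘ
  obtain ⟨CL1, CL2, hCL1, hCL2, hCL⟩ := sum_abs_log L
  -- the exceptional sets
  set Zt : Finset (Fin s → K) := Z1 ∪ (Finset.univ : Finset ιt).image
    (fun p => D p.1.1 p.1.2) with hZt
  set Zy : Finset (Fin N → K) := (Z2 ∪ (Finset.univ : Finset ιy).image
    (fun q => η q.1.1 q.1.2.1 q.1.2.2)).image (fun z j => ∑ i, z i * Θ i j) with hZy
  have hZt0 : ∀ z ∈ Zt, z ≠ 0 := by
    intro z hz
    rcases Finset.mem_union.1 hz with h | h
    · exact hZ1 z h
    · obtain ⟨p, -, rfl⟩ := Finset.mem_image.1 h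
      exact p.2
  have hZy0 : ∀ z ∈ Zy, z ≠ 0 := by
    intro z hz
    obtain ⟨z', hz', rfl⟩ := Finset.mem_image.1 hz
    have hz'0 : z' ≠ 0 := by
      rcases Finset.mem_union.1 hz' with h | h
      · exact hZ2 z' h
      · obtain ⟨q, -, rfl⟩ := Finset.mem_image.1 h
        exact q.2
    intro h0
    apply hz'0
    have h1 : ∑ i, z' i • Θ i = 0 := by
      funext j
      simp only [Finset.sum_apply, Pi.smul_apply, smul_eq_mul, Pi.zero_apply]
      exact congrFun h0 j
    exact funext fun i => Fintype.linearIndependent_iff.1 hΘ z' h1 i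
  refine ⟨Zt, Zy, hZt0, hZy0, fun T ε hε => ?_⟩
  set S : Finset (Pl K) := Finset.disjSum Finset.univ T with hS
  set d : ℝ := ((Module.finrank ℚ K : ℕ) : ℝ) with hd
  have hd0 : 0 ≤ d := Nat.cast_nonneg _
  have hs0 : (1 : ℝ) ≤ s := by exact_mod_cast hs
  set ε' : ℝ := ε * s / (2 * d + CL1 + 1) with hε'
  have hden : 0 < 2 * d + CL1 + 1 := by positivity
  have hε'0 : 0 < ε' := by positivity
  obtain ⟨C1, hC10, hV1⟩ := hmain1 S av (fun v _ => good_av v) ε' hε'0
  obtain ⟨C2, hC20, hV2⟩ := hmain2 S av (fun v _ => good_av v) ε' hε'0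
  obtain ⟨C3, hC30, hP1⟩ := Pool.Agent.R405.projH P S
  obtain ⟨C4, hC40, hP2⟩ := Pool.Agent.R405.projH P (∅ : Finset (Pl K))
  obtain ⟨C5, hC50, hP3⟩ := Pool.Agent.R405.projH Θ S
  obtain ⟨C6, hC60, hP4⟩ := Pool.Agent.R405.projH Θ (∅ : Finset (Pl K))
  -- constants
  set CC : ℝ := 1 + ∑ v ∈ S, ∑ β : Fin N → ι, ∑ γ : Fin s → Fin N, ∑ a, ∑ i,
    av v (∑ j, η β γ i j * D β a j) with hCC
  have hCC0 : 0 ≤ ∑ v ∈ S, ∑ β : Fin N → ι, ∑ γ : Fin s → Fin N, ∑ a, ∑ i,
      av v (∑ j, η β γ i j * D β a j) :=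
    Finset.sum_nonneg fun v _ => Finset.sum_nonneg fun β _ => Finset.sum_nonneg fun γ _ =>
      Finset.sum_nonneg fun a _ => Finset.sum_nonneg fun i _ => hnn v _
  have hCC1 : 1 ≤ CC := by linarith
  have hCCle : ∀ v ∈ S, ∀ β γ a i, av v (∑ j, η β γ i j * D β a j) ≤ CC := by
    intro v hv β γ a i
    have h1 := Finset.single_le_sum (f := fun i => av v (∑ j, η β γ i j * D β a j))
      (fun i _ => hnn v _) (Finset.mem_univ i)
    have h2 := Finset.single_le_sum (f := fun a => ∑ i, av v (∑ j, η β γ i j * D β a j))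
      (fun a _ => Finset.sum_nonneg fun i _ => hnn v _) (Finset.mem_univ a)
    have h3 := Finset.single_le_sum
      (f := fun γ : Fin s → Fin N => ∑ a, ∑ i, av v (∑ j, η β γ i j * D β a j))
      (fun γ _ => Finset.sum_nonneg fun a _ => Finset.sum_nonneg fun i _ => hnn v _)
      (Finset.mem_univ γ)
    have h4 := Finset.single_le_sum
      (f := fun β : Fin N → ι => ∑ γ : Fin s → Fin N, ∑ a, ∑ i,
        av v (∑ j, η β γ i j * D β a j))
      (fun β _ => Finset.sum_nonneg fun γ _ => Finset.sum_nonneg fun a _ =>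
        Finset.sum_nonneg fun i _ => hnn v _) (Finset.mem_univ β)
    have h5 := Finset.single_le_sum
      (f := fun v : Pl K => ∑ β : Fin N → ι, ∑ γ : Fin s → Fin N, ∑ a, ∑ i,
        av v (∑ j, η β γ i j * D β a j))
      (fun v _ => Finset.sum_nonneg fun β _ => Finset.sum_nonneg fun γ _ =>
        Finset.sum_nonneg fun a _ => Finset.sum_nonneg fun i _ => hnn v _) hv
    linarith
  set CL : ℝ := 1 + ∑ v ∈ S, ∑ l, ∑ j, av v (L l j : K) with hCLdef
  have hCL0' : 0 ≤ ∑ v ∈ S, ∑ l, ∑ j, av v (L l j : K) :=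
    Finset.sum_nonneg fun v _ => Finset.sum_nonneg fun l _ => Finset.sum_nonneg fun j _ => hnn v _
  have hCLle : ∀ v ∈ S, ∀ l j, av v (L l j : K) ≤ CL := by
    intro v hv l j
    have h1 := Finset.single_le_sum (f := fun j => av v (L l j : K))
      (fun i _ => hnn v _) (Finset.mem_univ j)
    have h2 := Finset.single_le_sum (f := fun l => ∑ j, av v (L l j : K))
      (fun a _ => Finset.sum_nonneg fun i _ => hnn v _) (Finset.mem_univ l)
    have h3 := Finset.single_le_sum (f := fun v : Pl K => ∑ l, ∑ j, av v (L l j : K))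
      (fun v _ => Finset.sum_nonneg fun a _ => Finset.sum_nonneg fun i _ => hnn v _) hv
    linarith
  set W : ℝ := ∑ v ∈ S, wt v with hW
  have hW0 : 0 ≤ W := Finset.sum_nonneg fun v _ => wt_nonneg v
  set K1 : ℝ := Real.log (N * CC + 1) with hK1
  have hK10 : 0 ≤ K1 := Real.log_nonneg (by
    have : (0 : ℝ) ≤ N * CC := by positivity
    linarith)
  set K2 : ℝ := Real.log (N * CL + 1) with hK2
  have hCL0'' : 0 ≤ CL := by linarith
  have hK20 : 0 ≤ K2 := Real.log_nonneg (by
    have : (0 : ℝ) ≤ N * CL := by positivity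
    linarith)
  set CF : ℝ := C1 + C2 + s * (C3 + C5) + s * K1 * W + ε' * (C4 + C6 + CL2 + K2 * W) with hCF
  have hCF0 : 0 ≤ CF := by positivity
  clear_value CF K1 K2 CC CL d ε'
  refine ⟨CF, hCF0, fun y hy hZ hev β hβ t ht hZt' ξ hξ κ hκ => ?_⟩
  have hy0 : y ≠ 0 := by
    rintro rfl
    obtain ⟨u, hu⟩ := hy
    simp at hu
  set h : ℝ := Real.log (sz y) with hh
  have hh0 : 0 ≤ h := Real.log_nonneg (one_le_sz y hy0)
  set B : ℝ := ∑ v ∈ S, wt v * κ v with hB
  by_cases hBpos : 0 ≤ B
  · have : 0 ≤ ε * h := mul_nonneg hε.le hh0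
    linarith
  push Not at hBpos
  set x : Fin N → K := fun j => (y j : K) with hx
  have hx0 : x ≠ 0 := by
    intro h
    apply hy0
    funext j
    have := congrFun h j
    simpa [hx] using this
  set ev : ι → 𝓞 K := fun l => ∑ j, L l j * (y j : 𝓞 K) with hevd
  have hevx : ∀ l, (ev l : K) = ∑ j, (L l j : K) * x j := by
    intro l
    simp only [hevd, hx]
    push_cast
    rfl
  have hevpos : ∀ (v : Pl K) l, 0 < av v (ev l : K) := fun v l =>
    (av v).pos (RingOfIntegers.coe_ne_zero_iff.2 (hev l))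
  -- greedy bases
  have hgr := fun v : Pl K => greedy (fun a : Fin N => D (β v) a)
    (exists_det (D (β v)) (hrank (β v) (hβ v))) (fun a => -Real.log (av v (ev (β v a) : K)))
  choose γ hγ hγmin using hgr
  -- the multipliers
  set dd : Pl K → Fin N → K := fun v a => ∑ i, D (β v) a i * t i with hdd
  have hddξ : ∀ v, (fun j => (ξ j : K)) = ∑ a, dd v a • (fun j => (L (β v a) j : K)) := by
    intro v
    funext j
    rw [hξ j, hDt (β v) (hβ v) t j]
    simp only [Finset.sum_apply, Pi.smul_apply, smul_eq_mul, hdd]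
  have hκ' : ∀ v ∈ S, ∀ a, av v (dd v a) * av v (ev (β v a) : K) ≤ Real.exp (κ v) :=
    fun v hv a => hκ v hv (dd v) (hddξ v) a
  -- the projection of the point
  set τ : Fin s → K := fun i => ∑ j, Θ i j * x j with hτ
  have hΘD : ∀ β : Fin N → ι, (Matrix.of fun a j => (L (β a) j : K)).det ≠ 0 →
      ∀ i j, Θ i j = ∑ a, D β a i * (L (β a) j : K) := by
    intro β hβ i j
    have := congrFun (hcD β i hβ) j
    simpa [Finset.sum_apply] using this
  have hτD : ∀ v (z : Fin s → K), ∑ i, z i * τ i =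
      ∑ a, (∑ i, z i * D (β v) a i) * (ev (β v a) : K) := by
    intro v z
    simp only [hτ, hevx, hΘD (β v) (hβ v), Finset.mul_sum, Finset.sum_mul]
    have e1 : ∑ i, ∑ j, ∑ a, z i * (D (β v) a i * (L (β v a) j : K) * x j) =
        ∑ i, ∑ a, ∑ j, z i * (D (β v) a i * (L (β v a) j : K) * x j) :=
      Finset.sum_congr rfl fun i _ => Finset.sum_comm
    rw [e1, Finset.sum_comm]
    refine Finset.sum_congr rfl fun a _ => ?_
    rw [Finset.sum_comm]
    exact Finset.sum_congr rfl fun j _ => Finset.sum_congr rfl fun i _ => by ring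
  have hτy : ∀ z : Fin s → K, ∑ i, z i * τ i = ∑ j, (∑ i, z i * Θ i j) * (y j : K) := by
    intro z
    simp only [hτ, hx, Finset.mul_sum, Finset.sum_mul]
    rw [Finset.sum_comm]
    exact Finset.sum_congr rfl fun j _ => Finset.sum_congr rfl fun i _ => by ring
  have hZ2' : ∀ z ∈ Z2 ∪ (Finset.univ : Finset ιy).image
      (fun q => η q.1.1 q.1.2.1 q.1.2.2), ∑ i, z i * τ i ≠ 0 := by
    intro z hz
    rw [hτy]
    exact hZ _ (Finset.mem_image_of_mem _ hz)
  have hDne : ∀ v i, D (β v) (γ v i) ≠ 0 := by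
    intro v i h0
    apply hγ v
    refine Matrix.det_eq_zero_of_row_eq_zero i fun j => ?_
    exact congrFun h0 j
  have hηne : ∀ v i, η (β v) (γ v) i ≠ 0 := by
    intro v i h0
    have h1 := hηD (β v) (γ v) (hγ v) i i
    rw [if_pos rfl, h0] at h1
    simp at h1
  have hηdet : ∀ v, (Matrix.of fun i => η (β v) (γ v) i).det ≠ 0 := by
    intro v
    have h1 : (Matrix.of fun i => η (β v) (γ v) i) =
        ((Matrix.of fun i' => D (β v) (γ v i'))⁻¹).transpose := by
      ext i j
      rfl
    rw [h1, Matrix.det_transpose, Matrix.det_nonsing_inv]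
    have h2 : Ring.inverse (Matrix.of fun i' => D (β v) (γ v i')).det ≠ 0 := by
      rw [Ring.inverse_eq_inv']
      exact inv_ne_zero (hγ v)
    exact h2
  have hexv : ∀ z : Fin s → K, exv K z = z := fun z => by
    funext j
    rfl
  have hDt0 : ∀ p : ιt, dot (D p.1.1 p.1.2) (exv K t) ≠ 0 := by
    intro p
    rw [hexv]
    exact hZt' _ (Finset.mem_union_right _ (Finset.mem_image_of_mem _ (Finset.mem_univ p)))
  have hητ0 : ∀ q : ιy, dot (η q.1.1 q.1.2.1 q.1.2.2) (exv K τ) ≠ 0 := by
    intro q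
    rw [hexv]
    exact hZ2' _ (Finset.mem_union_right _ (Finset.mem_image_of_mem _ (Finset.mem_univ q)))
  have hτ0 : τ ≠ 0 := by
    intro h0
    obtain ⟨w⟩ := (inferInstance : Nonempty (InfinitePlace K))
    have h1 := hητ0 ⟨(β (Sum.inl w), γ (Sum.inl w), ⟨0, by omega⟩), hηne _ _⟩
    apply h1
    rw [hexv, h0]
    simp [dot]
  have hi1 := hV1 t ht (fun z hz => hZt' z (Finset.mem_union_left _ hz)) hDt0
    (fun v i => ⟨(β v, γ v i), hDne v i⟩) (fun v _ => hγ v)
  have hi2 := hV2 τ hτ0 (fun z hz => hZ2' z (Finset.mem_union_left _ hz)) hητ0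
    (fun v i => ⟨(β v, γ v, i), hηne v i⟩) (fun v _ => hηdet v)
  simp only [hexv] at hi1 hi2
  -- local bounds
  have hb1 : ∀ v ∈ S, ∀ i, Real.log (av v (dot (D (β v) (γ v i)) t)) +
      Real.log (av v (ev (β v (γ v i)) : K)) ≤ κ v := by
    intro v hv i
    have h1 := hκ' v hv (γ v i)
    have h2 : dd v (γ v i) = dot (D (β v) (γ v i)) t := rfl
    rw [h2] at h1
    have h3 : 0 < av v (dot (D (β v) (γ v i)) t) := by
      refine (av v).pos ?_
      have := hDt0 ⟨(β v, γ v i), hDne v i⟩
      rwa [hexv] at this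
    have h4 := hevpos v (β v (γ v i))
    rw [← Real.log_mul h3.ne' h4.ne']
    exact (Real.log_le_iff_le_exp (mul_pos h3 h4)).2 h1
  have hN0 : (0 : ℝ) ≤ N := Nat.cast_nonneg _
  have hb2 : ∀ v ∈ S, ∀ i, Real.log (av v (dot (η (β v) (γ v) i) τ)) ≤
      K1 + Real.log (av v (ev (β v (γ v i)) : K)) := by
    intro v hv i
    have h1 : dot (η (β v) (γ v) i) τ =
        ∑ a, (∑ j, η (β v) (γ v) i j * D (β v) a j) * (ev (β v a) : K) := hτD v _
    have h2 : ∀ a, av v ((∑ j, η (β v) (γ v) i j * D (β v) a j) * (ev (β v a) : K)) ≤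
        CC * av v (ev (β v (γ v i)) : K) := by
      intro a
      rw [map_mul]
      by_cases h0 : ∑ j, η (β v) (γ v) i j * D (β v) a j = 0
      · rw [h0, map_zero, zero_mul]
        exact mul_nonneg (zero_le_one.trans hCC1) (hevpos v (β v (γ v i))).le
      · obtain ⟨c, hc⟩ := exists_coeff (fun i => D (β v) (γ v i)) (hγ v) (D (β v) a)
        have h3 : ∑ j, η (β v) (γ v) i j * D (β v) a j = c i := by
          have h4 : ∀ j, D (β v) a j = ∑ i', c i' * D (β v) (γ v i') j := by
            intro j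
            have := congrFun hc j
            simpa [Finset.sum_apply] using this
          simp only [h4, Finset.mul_sum]
          rw [Finset.sum_comm]
          have h5 : ∀ i', ∑ j, η (β v) (γ v) i j * (c i' * D (β v) (γ v i') j) =
              c i' * (if i' = i then 1 else 0) := by
            intro i'
            rw [← hηD (β v) (γ v) (hγ v) i i', Finset.mul_sum]
            exact Finset.sum_congr rfl fun j _ => by ring
          simp only [h5]
          simp
        have h6 := hγmin v a c hc i (by rwa [h3] at h0)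
        have h7 : av v (ev (β v a) : K) ≤ av v (ev (β v (γ v i)) : K) := by
          rw [← Real.log_le_log_iff (hevpos v _) (hevpos v _)]
          linarith
        exact mul_le_mul (hCCle v hv (β v) (γ v) a i) h7 (hnn v _) (by linarith)
    have h8 : av v (dot (η (β v) (γ v) i) τ) ≤
        (N * CC + 1) * av v (ev (β v (γ v i)) : K) := by
      rw [h1]
      refine (av_sum_le v _ _).trans ((Finset.sum_le_sum fun a _ => h2 a).trans ?_)
      rw [Finset.sum_const, Finset.card_univ, Fintype.card_fin, nsmul_eq_mul, add_mul, one_mul,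
        mul_assoc]
      exact le_add_of_nonneg_right (hevpos v (β v (γ v i))).le
    have h9 : 0 < av v (dot (η (β v) (γ v) i) τ) := by
      refine (av v).pos ?_
      have := hητ0 ⟨(β v, γ v, i), hηne v i⟩
      rwa [hexv] at this
    have h10 := Real.log_le_log h9 h8
    have h11 : (0 : ℝ) < N * CC + 1 :=
      add_pos_of_nonneg_of_pos (mul_nonneg hN0 (zero_le_one.trans hCC1)) one_pos
    rw [hK1]
    rwa [Real.log_mul h11.ne' (hevpos v _).ne'] at h10
  set A1 : ℝ := ∑ v ∈ S, wt v * Real.log (nrm (av v) t) with hA1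
  set A2 : ℝ := ∑ v ∈ S, wt v * Real.log (nrm (av v) τ) with hA2
  set ht' : ℝ := logHeight t with hht
  set hτ' : ℝ := logHeight τ with hhτ
  have hsum : s * (A1 + A2) - s * (B + K1 * W) ≤ (s + ε') * (ht' + hτ') + (C1 + C2) := by
    have h1 : ∀ v ∈ S, wt v * (s * (Real.log (nrm (av v) t) + Real.log (nrm (av v) τ)) -
        s * (κ v + K1)) ≤
        wt v * ∑ a, (Real.log (nrm (av v) t) - Real.log (av v (dot (D (β v) (γ v a)) t))) +
        wt v * ∑ a, (Real.log (nrm (av v) τ) - Real.log (av v (dot (η (β v) (γ v) a) τ))) := by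
      intro v hv
      rw [← mul_add]
      refine mul_le_mul_of_nonneg_left ?_ (wt_nonneg v)
      rw [← Finset.sum_add_distrib]
      have h2 : ∀ a : Fin s, Real.log (nrm (av v) t) + Real.log (nrm (av v) τ) - (κ v + K1) ≤
          Real.log (nrm (av v) t) - Real.log (av v (dot (D (β v) (γ v a)) t)) +
          (Real.log (nrm (av v) τ) - Real.log (av v (dot (η (β v) (γ v) a) τ))) := by
        intro a
        have h3 := hb1 v hv a
        have h4 := hb2 v hv a
        linarith
      refine le_trans (le_of_eq ?_) (Finset.sum_le_sum fun a _ => h2 a)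
      rw [Finset.sum_const, Finset.card_univ, Fintype.card_fin, nsmul_eq_mul]
      ring
    have h2 := Finset.sum_le_sum h1
    rw [Finset.sum_add_distrib] at h2
    have h3 : ∑ v ∈ S, wt v * (s * (Real.log (nrm (av v) t) + Real.log (nrm (av v) τ)) -
        s * (κ v + K1)) = s * (A1 + A2) - s * (B + K1 * W) := by
      rw [hA1, hA2, hB, hW, ← Finset.sum_add_distrib, Finset.mul_sum, Finset.mul_sum,
        ← Finset.sum_add_distrib, Finset.mul_sum, ← Finset.sum_sub_distrib]
      exact Finset.sum_congr rfl fun v _ => by ring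
    rw [h3] at h2
    refine h2.trans ((add_le_add hi1 hi2).trans (le_of_eq ?_))
    ring
  -- heights
  have hξ0 : ξ ≠ 0 := by
    intro h0
    apply ht
    have h1 := hP t (fun j => (ξ j : K)) hξ
    rw [← h1, h0]
    funext i
    simp
  have hPξ := hP t (fun j => (ξ j : K)) hξ
  have hHξ := int_height ξ hξ0 T
  rw [← hS] at hHξ
  have hii : ht' ≤ A1 + C3 := by
    have h1 := hP1 (fun j => (ξ j : K)) (by rw [hPξ]; exact ht)
    rw [hPξ] at h1
    have h2 : ∑ v ∈ S, wt v * (Real.log (nrm (av v) fun j => (ξ j : K)) -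
        Real.log (nrm (av v) t)) =
        ∑ v ∈ S, wt v * Real.log (nrm (av v) fun j => (ξ j : K)) - A1 := by
      rw [hA1, ← Finset.sum_sub_distrib]
      exact Finset.sum_congr rfl fun v _ => by ring
    rw [h2] at h1
    linarith
  have hyO : (fun j => (y j : 𝓞 K)) ≠ 0 := by
    intro h0
    apply hy0
    funext j
    have := congrFun h0 j
    simpa using this
  have hHy := int_height (fun j => (y j : 𝓞 K)) hyO T
  have hyx : (fun j => (((y j : 𝓞 K)) : K)) = x := by
    funext j
    simp only [hx]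
    push_cast
    rfl
  rw [hyx, ← hS] at hHy
  have hiii : hτ' ≤ A2 + C5 := by
    have h1 := hP3 x hτ0
    have h2 : ∑ v ∈ S, wt v * (Real.log (nrm (av v) x) - Real.log (nrm (av v) τ)) =
        ∑ v ∈ S, wt v * Real.log (nrm (av v) x) - A2 := by
      rw [hA2, ← Finset.sum_sub_distrib]
      exact Finset.sum_congr rfl fun v _ => by ring
    have h3 : logHeight τ + ∑ v ∈ S, wt v * (Real.log (nrm (av v) x) -
        Real.log (nrm (av v) τ)) ≤ logHeight x + C5 := h1
    rw [h2] at h3
    linarith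
  have hv' : hτ' ≤ d * h + C6 := by
    have h1 := hP4 x hτ0
    rw [Finset.sum_empty, add_zero] at h1
    have h2 : logHeight x ≤ d * h := by
      rw [hd]
      exact logHeight_le y hy0
    have h3 : logHeight τ ≤ logHeight x + C6 := h1
    linarith
  have hiv : ht' ≤ K2 * W + (CL1 * h + CL2) + C4 := by
    have h1 := hP2 (fun j => (ξ j : K)) (by rw [hPξ]; exact ht)
    rw [hPξ, Finset.sum_empty, add_zero] at h1
    have h2 : ∑ v ∈ S, wt v * Real.log (nrm (av v) (fun j => (ξ j : K))) ≤
        ∑ v ∈ S, wt v * (K2 + κ v + ∑ l, |Real.log (av v (ev l : K))|) := by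
      refine Finset.sum_le_sum fun v hv => mul_le_mul_of_nonneg_left ?_ (wt_nonneg v)
      have h3 : nrm (av v) (fun j => (ξ j : K)) ≤
          (N * CL + 1) * Real.exp (κ v + ∑ l, |Real.log (av v (ev l : K))|) := by
        have hNCL : (0 : ℝ) ≤ N * CL + 1 := add_nonneg (mul_nonneg hN0 hCL0'') zero_le_one
        refine nrm_le (mul_nonneg hNCL (Real.exp_pos _).le) fun j => ?_
        have h4 : (ξ j : K) = ∑ a, dd v a * (L (β v a) j : K) := by
          have := congrFun (hddξ v) j
          simpa [Finset.sum_apply] using this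
        rw [h4]
        refine (av_sum_le v _ _).trans ?_
        have h5 : ∀ a, av v (dd v a * (L (β v a) j : K)) ≤
            CL * Real.exp (κ v + ∑ l, |Real.log (av v (ev l : K))|) := by
          intro a
          rw [map_mul, mul_comm]
          refine mul_le_mul (hCLle v hv _ _) ?_ (hnn v _) (by linarith)
          have h6 := hκ' v hv a
          have h7 := hevpos v (β v a)
          rw [← le_div_iff₀ h7] at h6
          refine h6.trans ?_
          rw [Real.exp_add, div_eq_mul_inv]
          refine mul_le_mul_of_nonneg_left ?_ (Real.exp_pos _).le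
          rw [← Real.log_le_iff_le_exp (inv_pos.2 h7), Real.log_inv]
          have h8 := Finset.single_le_sum (f := fun l => |Real.log (av v (ev l : K))|)
            (fun l _ => abs_nonneg _) (Finset.mem_univ (β v a))
          have h9 := neg_le_abs (Real.log (av v (ev (β v a) : K)))
          linarith
        refine (Finset.sum_le_sum fun a _ => h5 a).trans ?_
        rw [Finset.sum_const, Finset.card_univ, Fintype.card_fin, nsmul_eq_mul, add_mul, one_mul,
          mul_assoc]
        exact le_add_of_nonneg_right (Real.exp_pos _).le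
      have h11 : 0 < nrm (av v) (fun j => (ξ j : K)) := by
        refine nrm_pos _ ?_
        intro h0
        apply hξ0
        funext j
        have := congrFun h0 j
        exact RingOfIntegers.ext (by simpa using this)
      have h12 := Real.log_le_log h11 h3
      have h13 : (0 : ℝ) < N * CL + 1 :=
        add_pos_of_nonneg_of_pos (mul_nonneg hN0 hCL0'') one_pos
      rw [Real.log_mul h13.ne' (Real.exp_pos _).ne', Real.log_exp, ← hK2] at h12
      linarith
    have h3 : ∑ v ∈ S, wt v * (K2 + κ v + ∑ l, |Real.log (av v (ev l : K))|) =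
        K2 * W + B + ∑ v ∈ S, wt v * ∑ l, |Real.log (av v (ev l : K))| := by
      rw [hW, hB, Finset.mul_sum, ← Finset.sum_add_distrib, ← Finset.sum_add_distrib]
      exact Finset.sum_congr rfl fun v _ => by ring
    have h4 := hCL T y hy0 hev
    rw [← hS] at h4
    rw [h3] at h2
    linarith
  have hfin : -(s * B) ≤ ε' * ((2 * d + CL1 + 1) * h) + CF := by
    have h1 : (s + ε') * (ht' + hτ') ≤ s * (A1 + C3) + s * (A2 + C5) +
        ε' * (K2 * W + (CL1 * h + CL2) + C4 + (d * h + C6)) := by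
      have h2 := mul_le_mul_of_nonneg_left hii (show (0 : ℝ) ≤ s by linarith)
      have h3 := mul_le_mul_of_nonneg_left hiii (show (0 : ℝ) ≤ s by linarith)
      have h4 := mul_le_mul_of_nonneg_left (add_le_add hiv hv') hε'0.le
      linarith [h2, h3, h4]
    have h5 : 0 ≤ ε' * ((d + 1) * h) :=
      mul_nonneg hε'0.le (mul_nonneg (add_nonneg hd0 zero_le_one) hh0)
    rw [hCF]
    linarith [h1, h5, hsum]
  have h1 : ε' * ((2 * d + CL1 + 1) * h) = s * (ε * h) := by
    rw [hε']
    field_simp
  rw [h1] at hfin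
  have h2 : -B - ε * h ≤ CF / s := by
    rw [le_div_iff₀ (by linarith)]
    linarith [hfin]
  have h3 : CF / s ≤ CF := div_le_self hCF0 hs0
  linarith

end Pool.Agent.T9h24
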