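import Mathlib
import Pool.Agent.T9h24.Dua

/-!
The dual estimate: all multipliers.
-/

set_option autoImplicit false
set_option linter.unusedSectionVars false

open Finset NumberField IsDedekindDomain Height Module

namespace Pool.Agent.T9h24

open Pool.Agent.Y742.SF (fv fv_eq fv_pos fv_nonneg fv_int fv_eq_one_iff fv_mul)
open Pool.Agent.W180.OP (Pl av wt nrm le_nrm nrm_pos nrm_nonneg nrm_le exists_nrm wt_nonneg)
open Pool.Agent.R405 (Good dot exv)

variable {K : Type} [Field K] [NumberField K]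

/-- the dual estimate -/
theorem dualB [IsGalois ℚ K] (hi : ∃ z : K, z ^ 2 = -1) {N : ℕ} {ι : Type} [Fintype ι]
    [DecidableEq ι] (L : ι → Fin N → 𝓞 K) (s : ℕ) : ∀ Θ : Fin s → Fin N → K,
    LinearIndependent K Θ →
    ∃ Zy : Finset (Fin N → K), (∀ z ∈ Zy, z ≠ 0) ∧
      ∀ (T : Finset (HeightOneSpectrum (𝓞 K))) (ε : ℝ), 0 < ε →
      ∃ C : ℝ, 0 ≤ C ∧ ∀ y : Fin N → ℤ, (∃ u : Fin N → ℤ, ∑ j, u j * y j = 1) →
        (∀ z ∈ Zy, ∑ j, z j * (y j : K) ≠ 0) → (∀ l, ∑ j, L l j * (y j : 𝓞 K) ≠ 0) →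
        ∀ β : Pl K → Fin N → ι, (∀ v, (Matrix.of fun a j => (L (β v a) j : K)).det ≠ 0) →
        ∀ t : Fin s → K, t ≠ 0 →
        ∀ ξ : Fin N → 𝓞 K, (∀ j, (ξ j : K) = ∑ i, t i * Θ i j) → ∀ κ : Pl K → ℝ,
        (∀ v ∈ Finset.disjSum Finset.univ T, ∀ dd : Fin N → K,
          (fun j => (ξ j : K)) = ∑ a, dd a • (fun j => (L (β v a) j : K)) → ∀ a,
          av v (dd a) * av v ((∑ j, L (β v a) j * (y j : 𝓞 K) : 𝓞 K) : K) ≤ Real.exp (κ v)) →
        -(ε * Real.log (sz y)) - C ≤ ∑ v ∈ Finset.disjSum Finset.univ T, wt v * κ v := by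
  classical
  induction s with
  | zero =>
    intro Θ _
    refine ⟨∅, by simp, fun T ε _ => ⟨0, le_rfl, fun y _ _ _ β _ t ht => ?_⟩⟩
    exact absurd (Subsingleton.elim t 0) ht
  | succ s ih =>
    intro Θ hΘ
    obtain ⟨Zt, Zy, hZt, hZy, hA⟩ := dualA hi L (Nat.succ_le_succ (Nat.zero_le s)) Θ hΘ
    have hker : ∀ z : Fin (s + 1) → K, ∃ e : Fin s → Fin (s + 1) → K, z ≠ 0 →
        LinearIndependent K e ∧
        ∀ t : Fin (s + 1) → K, ∑ i, z i * t i = 0 → ∃ t' : Fin s → K, t = ∑ a, t' a • e a := by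
      intro z
      by_cases hz : z = 0
      · exact ⟨0, fun h => absurd hz h⟩
      · obtain ⟨e, he⟩ := exists_kerbasis z hz
        exact ⟨e, fun _ => he⟩
    choose e he using hker
    set Θz : (Fin (s + 1) → K) → Fin s → Fin N → K := fun z a j => ∑ i, e z a i * Θ i j with hΘz
    have hΘzli : ∀ z, z ≠ 0 → LinearIndependent K (Θz z) := by
      intro z hz
      rw [Fintype.linearIndependent_iff]
      intro c hc
      have h1 : ∑ i, (∑ a, c a * e z a i) • Θ i = 0 := by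
        rw [← hc]
        funext j
        simp only [Finset.sum_apply, Pi.smul_apply, smul_eq_mul, hΘz, Finset.sum_mul,
          Finset.mul_sum]
        rw [Finset.sum_comm]
        exact Finset.sum_congr rfl fun a _ => Finset.sum_congr rfl fun i _ => by ring
      have h2 := Fintype.linearIndependent_iff.1 hΘ _ h1
      have h3 : ∑ a, c a • e z a = 0 := by
        funext i
        simp only [Finset.sum_apply, Pi.smul_apply, smul_eq_mul, Pi.zero_apply]
        exact h2 i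
      exact Fintype.linearIndependent_iff.1 (he z hz).1 c h3
    have hih : ∀ z : Fin (s + 1) → K, ∃ Zy : Finset (Fin N → K), z ≠ 0 → (∀ z ∈ Zy, z ≠ 0) ∧
        ∀ (T : Finset (HeightOneSpectrum (𝓞 K))) (ε : ℝ), 0 < ε →
        ∃ C : ℝ, 0 ≤ C ∧ ∀ y : Fin N → ℤ, (∃ u : Fin N → ℤ, ∑ j, u j * y j = 1) →
        (∀ z ∈ Zy, ∑ j, z j * (y j : K) ≠ 0) → (∀ l, ∑ j, L l j * (y j : 𝓞 K) ≠ 0) →
        ∀ β : Pl K → Fin N → ι, (∀ v, (Matrix.of fun a j => (L (β v a) j : K)).det ≠ 0) →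
        ∀ t : Fin s → K, t ≠ 0 →
        ∀ ξ : Fin N → 𝓞 K, (∀ j, (ξ j : K) = ∑ i, t i * Θz z i j) → ∀ κ : Pl K → ℝ,
        (∀ v ∈ Finset.disjSum Finset.univ T, ∀ dd : Fin N → K,
          (fun j => (ξ j : K)) = ∑ a, dd a • (fun j => (L (β v a) j : K)) → ∀ a,
          av v (dd a) * av v ((∑ j, L (β v a) j * (y j : 𝓞 K) : 𝓞 K) : K) ≤ Real.exp (κ v)) →
        -(ε * Real.log (sz y)) - C ≤ ∑ v ∈ Finset.disjSum Finset.univ T, wt v * κ v := by
      intro z
      by_cases hz : z = 0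
      · exact ⟨∅, fun h => absurd hz h⟩
      · obtain ⟨Zy, h⟩ := ih (Θz z) (hΘzli z hz)
        exact ⟨Zy, fun _ => h⟩
    choose Yz hYz using hih
    refine ⟨Zy ∪ Zt.biUnion Yz, ?_, fun T ε hε => ?_⟩
    · intro z hz
      rcases Finset.mem_union.1 hz with h | h
      · exact hZy z h
      · obtain ⟨z', hz', h⟩ := Finset.mem_biUnion.1 h
        exact (hYz z' (hZt z' hz')).1 z h
    obtain ⟨C, hC0, hC⟩ := hA T ε hε
    have hCz : ∀ z : Fin (s + 1) → K, ∃ C : ℝ, 0 ≤ C ∧ (z ≠ 0 → ∀ y : Fin N → ℤ,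
        (∃ u : Fin N → ℤ, ∑ j, u j * y j = 1) →
        (∀ z' ∈ Yz z, ∑ j, z' j * (y j : K) ≠ 0) → (∀ l, ∑ j, L l j * (y j : 𝓞 K) ≠ 0) →
        ∀ β : Pl K → Fin N → ι, (∀ v, (Matrix.of fun a j => (L (β v a) j : K)).det ≠ 0) →
        ∀ t : Fin s → K, t ≠ 0 →
        ∀ ξ : Fin N → 𝓞 K, (∀ j, (ξ j : K) = ∑ i, t i * Θz z i j) → ∀ κ : Pl K → ℝ,
        (∀ v ∈ Finset.disjSum Finset.univ T, ∀ dd : Fin N → K,
          (fun j => (ξ j : K)) = ∑ a, dd a • (fun j => (L (β v a) j : K)) → ∀ a,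
          av v (dd a) * av v ((∑ j, L (β v a) j * (y j : 𝓞 K) : 𝓞 K) : K) ≤ Real.exp (κ v)) →
        -(ε * Real.log (sz y)) - C ≤ ∑ v ∈ Finset.disjSum Finset.univ T, wt v * κ v) := by
      intro z
      by_cases hz : z = 0
      · exact ⟨0, le_rfl, fun h => absurd hz h⟩
      · obtain ⟨C, hC0, h⟩ := (hYz z hz).2 T ε hε
        exact ⟨C, hC0, fun _ => h⟩
    choose Cz hCz0 hCz using hCz
    refine ⟨C + ∑ z ∈ Zt, Cz z, add_nonneg hC0 (Finset.sum_nonneg fun z _ => hCz0 z),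
      fun y hy hZ hev β hβ t ht ξ hξ κ hκ => ?_⟩
    have hsum0 : 0 ≤ ∑ z ∈ Zt, Cz z := Finset.sum_nonneg fun z _ => hCz0 z
    by_cases hgen : ∀ z ∈ Zt, ∑ i, z i * t i ≠ 0
    · have h1 := hC y hy (fun z hz => hZ z (Finset.mem_union_left _ hz)) hev β hβ t ht hgen ξ hξ
        κ hκ
      linarith
    · push Not at hgen
      obtain ⟨z, hz, hzt⟩ := hgen
      obtain ⟨t', ht'⟩ := (he z (hZt z hz)).2 t hzt
      have ht'0 : t' ≠ 0 := by
        rintro rfl
        apply ht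
        rw [ht']
        simp
      have hξ' : ∀ j, (ξ j : K) = ∑ i, t' i * Θz z i j := by
        intro j
        rw [hξ j]
        have h2 : ∀ i, t i = ∑ a, t' a * e z a i := by
          intro i
          have := congrFun ht' i
          simpa [Finset.sum_apply] using this
        simp only [h2, hΘz, Finset.sum_mul, Finset.mul_sum]
        rw [Finset.sum_comm]
        exact Finset.sum_congr rfl fun a _ => Finset.sum_congr rfl fun i _ => by ring
      have h1 := hCz z (hZt z hz) y hy (fun z' hz' => hZ z' (Finset.mem_union_right _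
        (Finset.mem_biUnion.2 ⟨z, hz, hz'⟩))) hev β hβ t' ht'0 ξ hξ' κ hκ
      have h2 := Finset.single_le_sum (f := Cz) (fun z _ => hCz0 z) hz
      linarith

end Pool.Agent.T9h24
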