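import Mathlib
import Pool.Agent.T9h24.PH

/-!
The box principle in a subgroup.
-/

set_option autoImplicit false
set_option linter.unusedSectionVars false

open Finset NumberField IsDedekindDomain

namespace Pool.Agent.T9h24

variable {K : Type} [Field K] [NumberField K]

/-- **Box principle** in a subgroup. -/
theorem boxT (htc : ∀ w : InfinitePlace K, w.IsComplex) {N : ℕ} {ι : Type} [Fintype ι]
    (L : ι → Fin N → 𝓞 K) :
    ∃ C : ℝ, 1 ≤ C ∧ ∀ (T : Finset (HeightOneSpectrum (𝓞 K)))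
      (I : InfinitePlace K → Fin N → ι) (J : HeightOneSpectrum (𝓞 K) → Fin N → ι)
      (m : HeightOneSpectrum (𝓞 K) → Fin N → ℕ) (η : InfinitePlace K → Fin N → ℝ)
      (_ : ∀ w a, 0 < η w a) (Θ : Type) (_ : AddCommGroup Θ) (_ : Fintype Θ)
      (θ : (Fin N → 𝓞 K) →+ Θ)
      (_ : (Fintype.card Θ : ℝ) * (∏ w, ∏ a, (C / η w a) ^ 2) *
        ∏ Q ∈ T, ∏ a, (Ideal.absNorm Q.asIdeal : ℝ) ^ (m Q a) < 1),
      ∃ g : Fin N → 𝓞 K, g ≠ 0 ∧ θ g = 0 ∧
        (∀ w a, w ((∑ j, L (I w a) j * g j : 𝓞 K) : K) ≤ η w a) ∧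
        ∀ Q ∈ T, ∀ a, ∑ j, L (J Q a) j * g j ∈ Q.asIdeal ^ (m Q a) := by
  classical
  obtain ⟨C, hC, hbox⟩ := box htc L
  refine ⟨2 * C, by linarith, fun T I J m η hη Θ _ _ θ hX => ?_⟩
  have hη' : ∀ w a, 0 < η w a / 2 := fun w a => by
    have := hη w a
    linarith
  obtain ⟨F, hF1, hF2⟩ := hbox T I J m (fun w a => η w a / 2) hη' (Fintype.card Θ) (by
    refine lt_of_eq_of_lt ?_ hX
    congr 2
    refine Finset.prod_congr rfl fun w _ => Finset.prod_congr rfl fun a _ => ?_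
    congr 1
    have := (hη w a).ne'
    field_simp)
  obtain ⟨g1, hg1, g2, hg2, hne, heq⟩ := Finset.exists_ne_map_eq_of_card_lt_of_maps_to
    (t := (Finset.univ : Finset Θ)) (by rwa [Finset.card_univ]) (f := θ)
    (fun g _ => Finset.mem_univ _)
  have hsub : ∀ l, ∑ j, L l j * (g1 - g2) j = ∑ j, L l j * g1 j - ∑ j, L l j * g2 j := by
    intro l
    rw [← Finset.sum_sub_distrib]
    exact Finset.sum_congr rfl fun j _ => by rw [Pi.sub_apply]; ring
  refine ⟨g1 - g2, sub_ne_zero.2 hne, by rw [map_sub, heq, sub_self], fun w a => ?_,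
    fun Q hQ a => ?_⟩
  · rw [hsub]
    have h1 := (hF2 g1 hg1).1 w a
    have h2 := (hF2 g2 hg2).1 w a
    have hw : ∀ z : K, w z = w.1 z := fun z => rfl
    rw [hw] at h1 h2 ⊢
    push_cast at h1 h2 ⊢
    have h3 := w.1.sub_le_add
      (∑ j, (L (I w a) j : K) * (g1 j : K)) (∑ j, (L (I w a) j : K) * (g2 j : K))
    linarith
  · rw [hsub]
    exact Ideal.sub_mem _ ((hF2 g1 hg1).2 Q hQ a) ((hF2 g2 hg2).2 Q hQ a)

end Pool.Agent.T9h24
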