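import Mathlib

/-!
A subgroup adapted to a flag.
-/

set_option autoImplicit false
set_option linter.unusedSectionVars false

open Finset Module

namespace Pool.Agent.T9h24

variable {K : Type} [Field K] [NumberField K]

/-- **A subgroup of small index adapted to a flag.** -/
theorem flag (K : Type) [Field K] [NumberField K] : ∀ (N : ℕ) (E : Type) [AddCommGroup E]
    [Module.Finite ℤ E] (c : E →+ (Fin N → K)), Function.Injective c → ∀ n : Fin N → ℕ,
    (∀ k, 0 < n k) → (∀ i j, i ≤ j → n j ∣ n i) →
    ∃ (Θ : Type) (_ : AddCommGroup Θ) (_ : Fintype Θ) (θ : E →+ Θ),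
      Fintype.card Θ ≤ ∏ k, n k ^ finrank ℚ K ∧
      ∀ g, θ g = 0 → ∀ k, (∀ j, k < j → c g j = 0) → ∃ g', g = n k • g' := by
  intro N
  induction N with
  | zero =>
    intro E _ _ c hc n hn hd
    refine ⟨PUnit, inferInstance, inferInstance, 0, ?_, fun g _ k => k.elim0⟩
    simp
  | succ N ih =>
    intro E _ _ c hc n hn hd
    classical
    -- the last coordinate
    let lam : E →ₗ[ℤ] K :=
      { toFun := fun g => c g (Fin.last N)
        map_add' := fun x y => by rw [map_add]; rfl
        map_smul' := fun t y => by
          rw [map_zsmul]
          rfl }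
    have hlam : ∀ g, lam g = c g (Fin.last N) := fun g => rfl
    let I : Submodule ℤ K := LinearMap.range lam
    have hfgI : Module.Finite ℤ I := Module.Finite.range lam
    have hfree : Module.Free ℤ I := Module.free_of_finite_type_torsion_free'
    let ι := Module.Free.ChooseBasisIndex ℤ I
    let b : Module.Basis ι ℤ I := Module.Free.chooseBasis ℤ I
    have hcard : Fintype.card ι ≤ finrank ℚ K := by
      have h1 : LinearIndependent ℤ (fun i => (b i : K)) :=
        b.linearIndependent.map' I.subtype (Submodule.ker_subtype _)
      have h2 : LinearIndependent ℚ (fun i => (b i : K)) :=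
        (LinearIndependent.iff_fractionRing (R := ℤ) (K := ℚ)).1 h1
      exact h2.fintype_card_le_finrank
    -- a section
    let lam' : E →ₗ[ℤ] I := lam.rangeRestrict
    have hsurj : Function.Surjective lam' := LinearMap.surjective_rangeRestrict lam
    obtain ⟨s, hs⟩ := Module.projective_lifting_property lam' LinearMap.id hsurj
    have hs' : ∀ u, lam' (s u) = u := fun u => LinearMap.congr_fun hs u
    have hlam' : ∀ g, ((lam' g : I) : K) = c g (Fin.last N) := fun g => rfl
    -- the kernel
    let E' : Submodule ℤ E := LinearMap.ker lam'
    have hfg' : Module.Finite ℤ E' := Module.Finite.of_fg (IsNoetherian.noetherian E')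
    let pr : E →ₗ[ℤ] E' := LinearMap.codRestrict E' (LinearMap.id - s.comp lam') (fun g => by
      show lam' (g - s (lam' g)) = 0
      rw [map_sub, hs', sub_self])
    have hpr : ∀ g, ((pr g : E') : E) = g - s (lam' g) := fun g => rfl
    let c' : E' →+ (Fin N → K) :=
      { toFun := fun g j => c (g : E) j.castSucc
        map_zero' := by funext j; simp
        map_add' := fun x y => by
          funext j
          simp }
    have hc' : Function.Injective c' := by
      rw [injective_iff_map_eq_zero]
      intro g hg
      have h1 : (g : E) = 0 := by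
        apply hc
        rw [map_zero]
        funext j
        refine Fin.lastCases ?_ (fun j => ?_) j
        · have h2 : lam' (g : E) = 0 := g.2
          have h3 := hlam' (g : E)
          rw [h2] at h3
          exact h3.symm
        · exact congrFun hg j
      exact Subtype.ext h1
    obtain ⟨Θ, _, _, θ, hcardΘ, hθ⟩ := ih E' c' hc' (fun k => n k.castSucc) (fun k => hn _)
      (fun i j hij => hd _ _ (Fin.castSucc_le_castSucc_iff.2 hij))
    have hne : NeZero (n (Fin.last N)) := ⟨(hn _).ne'⟩
    let θ2 : E →+ (ι → ZMod (n (Fin.last N))) :=
      { toFun := fun g i => ((b.repr (lam' g) i : ℤ) : ZMod (n (Fin.last N)))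
        map_zero' := by funext i; simp
        map_add' := fun x y => by funext i; simp }
    refine ⟨Θ × (ι → ZMod (n (Fin.last N))), inferInstance, inferInstance,
      (θ.comp pr.toAddMonoidHom).prod θ2, ?_, ?_⟩
    · rw [Fintype.card_prod, Fintype.card_fun, ZMod.card, Fin.prod_univ_castSucc]
      exact Nat.mul_le_mul hcardΘ (Nat.pow_le_pow_right (hn _) hcard)
    · intro g hg k hk
      have hg1 : θ (pr g) = 0 := congrArg Prod.fst hg
      have hg2 : θ2 g = 0 := congrArg Prod.snd hg
      -- the last coordinate is divisible
      have hdiv : ∃ u : I, lam' g = n (Fin.last N) • u := by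
        have h1 : ∀ i, ∃ t : ℤ, b.repr (lam' g) i = n (Fin.last N) * t := by
          intro i
          have h2 := congrFun hg2 i
          have h3 : ((b.repr (lam' g) i : ℤ) : ZMod (n (Fin.last N))) = 0 := h2
          rw [ZMod.intCast_zmod_eq_zero_iff_dvd] at h3
          exact h3
        choose t ht using h1
        refine ⟨∑ i, t i • b i, ?_⟩
        conv_lhs => rw [← b.sum_repr (lam' g)]
        rw [Finset.smul_sum]
        refine Finset.sum_congr rfl fun i _ => ?_
        rw [ht i, mul_smul, natCast_zsmul]
      obtain ⟨u, hu⟩ := hdiv
      refine Fin.lastCases (motive := fun k => (∀ j, k < j → c g j = 0) → ∃ g', g = n k • g')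
        ?_ ?_ k hk
      · intro _
        -- the top level
        have hsplit : g = ((pr g : E') : E) + s (lam' g) := by
          rw [hpr]
          abel
        have h1 : s (lam' g) = n (Fin.last N) • s u := by
          rw [hu, map_nsmul]
        rcases Nat.eq_zero_or_pos N with rfl | hN
        · have h2 : ((pr g : E') : E) = 0 := by
            have : pr g = 0 := by
              apply hc'
              funext j
              exact j.elim0
            rw [this]
            rfl
          refine ⟨s u, ?_⟩
          conv_lhs => rw [hsplit, h2, zero_add, h1]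
        · obtain ⟨N', rfl⟩ : ∃ N', N = N' + 1 := ⟨N - 1, by omega⟩
          obtain ⟨g1, hg1'⟩ := hθ (pr g) hg1 (Fin.last N') (fun j hj =>
            absurd hj (not_lt.2 (Fin.le_last j)))
          obtain ⟨e, he⟩ := hd (Fin.last N').castSucc (Fin.last (N' + 1)) (Fin.le_last _)
          refine ⟨e • ((g1 : E') : E) + s u, ?_⟩
          rw [smul_add, ← mul_smul, ← he, ← h1]
          conv_lhs => rw [hsplit, hg1']
          rfl
      · intro k hk
        have h0 : lam' g = 0 := by
          apply Subtype.ext
          have := hk (Fin.last N) (Fin.castSucc_lt_last k)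
          rw [hlam', this]
          rfl
        have h1 : ((pr g : E') : E) = g := by
          rw [hpr, h0, map_zero, sub_zero]
        obtain ⟨g1, hg1'⟩ := hθ (pr g) hg1 k (fun j hj => by
          show c ((pr g : E') : E) j.castSucc = 0
          rw [h1]
          exact hk _ (Fin.castSucc_lt_castSucc_iff.2 hj))
        refine ⟨((g1 : E') : E), ?_⟩
        conv_lhs => rw [← h1, hg1']
        rfl

end Pool.Agent.T9h24
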