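import Mathlib
import Pool.Agent.T9h24.Core
import Pool.Agent.T9h24.Flg
import Pool.Agent.T9h24.Bxt

/-!
The norm of a lattice attached to linear forms and values.
-/

set_option autoImplicit false
set_option linter.unusedSectionVars false

open Finset NumberField IsDedekindDomain

namespace Pool.Agent.T9h24

open Pool.Agent.Y742.SF (fv fv_eq fv_pos fv_nonneg fv_int fv_eq_one_iff fv_mul)

variable {K : Type} [Field K] [NumberField K]

/-- the norm -/
noncomputable def nu {N : ℕ} {ι : Type} [Fintype ι] (L : ι → Fin N → 𝓞 K) (ev : ι → 𝓞 K)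
    (g : Fin N → 𝓞 K) : ℝ :=
  ∑ w : InfinitePlace K, ∑ l, w ((∑ j, L l j * g j : 𝓞 K) : K) / w (ev l : K)

variable {N : ℕ} {ι : Type} [Fintype ι] (L : ι → Fin N → 𝓞 K) (ev : ι → 𝓞 K)

theorem nu_term_nonneg (g : Fin N → 𝓞 K) (w : InfinitePlace K) (l : ι) :
    0 ≤ w ((∑ j, L l j * g j : 𝓞 K) : K) / w (ev l : K) :=
  div_nonneg (apply_nonneg _ _) (apply_nonneg _ _)

theorem nu_nonneg (g : Fin N → 𝓞 K) : 0 ≤ nu L ev g :=
  Finset.sum_nonneg fun w _ => Finset.sum_nonneg fun l _ => nu_term_nonneg L ev g w l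

theorem le_nu (hev : ∀ l, ev l ≠ 0) (g : Fin N → 𝓞 K) (w : InfinitePlace K) (l : ι) :
    w ((∑ j, L l j * g j : 𝓞 K) : K) ≤ nu L ev g * w (ev l : K) := by
  have h0 : 0 < w (ev l : K) := InfinitePlace.pos_iff.2 (RingOfIntegers.coe_ne_zero_iff.2 (hev l))
  rw [← div_le_iff₀ h0]
  have h1 := Finset.single_le_sum
    (f := fun l => w ((∑ j, L l j * g j : 𝓞 K) : K) / w (ev l : K))
    (fun l _ => nu_term_nonneg L ev g w l) (Finset.mem_univ l)
  have h2 := Finset.single_le_sum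
    (f := fun w : InfinitePlace K => ∑ l, w ((∑ j, L l j * g j : 𝓞 K) : K) / w (ev l : K))
    (fun w _ => Finset.sum_nonneg fun l _ => nu_term_nonneg L ev g w l) (Finset.mem_univ w)
  exact h1.trans h2

theorem nu_nsmul (n : ℕ) (g : Fin N → 𝓞 K) : nu L ev (n • g) = n * nu L ev g := by
  unfold nu
  simp only [Finset.mul_sum]
  refine Finset.sum_congr rfl fun w _ => Finset.sum_congr rfl fun l _ => ?_
  have h1 : ∑ j, L l j * (n • g) j = (n : 𝓞 K) * ∑ j, L l j * g j := by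
    rw [Finset.mul_sum]
    refine Finset.sum_congr rfl fun j _ => ?_
    rw [Pi.smul_apply, nsmul_eq_mul]
    ring
  rw [h1]
  push_cast
  rw [map_mul]
  have h2 : w (n : K) = n := by
    have := place_int w (n : ℤ)
    simpa using this
  rw [h2]
  ring

theorem nu_le (hev : ∀ l, ev l ≠ 0) (g : Fin N → 𝓞 K) (A : ℝ)
    (h : ∀ (w : InfinitePlace K) l, w ((∑ j, L l j * g j : 𝓞 K) : K) ≤ A * w (ev l : K)) :
    nu L ev g ≤ (Fintype.card (InfinitePlace K) * Fintype.card ι) * A := by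
  unfold nu
  have h1 : ∀ (w : InfinitePlace K) l, w ((∑ j, L l j * g j : 𝓞 K) : K) / w (ev l : K) ≤ A := by
    intro w l
    have h0 : 0 < w (ev l : K) :=
      InfinitePlace.pos_iff.2 (RingOfIntegers.coe_ne_zero_iff.2 (hev l))
    rw [div_le_iff₀ h0]
    exact h w l
  refine (Finset.sum_le_sum fun w _ => Finset.sum_le_sum fun l _ => h1 w l).trans (le_of_eq ?_)
  rw [Finset.sum_const, Finset.sum_const, Finset.card_univ, Finset.card_univ, nsmul_eq_mul,
    nsmul_eq_mul]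
  ring

theorem coord_eq (hc : ∀ j, ∃ l, L l = Pi.single j 1) (g : Fin N → 𝓞 K) (j : Fin N) :
    ∃ l, ∑ i, L l i * g i = g j := by
  classical
  obtain ⟨l, hl⟩ := hc j
  refine ⟨l, ?_⟩
  rw [hl, Finset.sum_eq_single j]
  · simp
  · intro i _ hi
    rw [Pi.single_eq_of_ne hi, zero_mul]
  · intro h
    exact absurd (Finset.mem_univ j) h

theorem nu_pos (hc : ∀ j, ∃ l, L l = Pi.single j 1) (hev : ∀ l, ev l ≠ 0) (g : Fin N → 𝓞 K)
    (hg : g ≠ 0) : 0 < nu L ev g := by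
  obtain ⟨j, hj⟩ := Function.ne_iff.1 hg
  obtain ⟨l, hl⟩ := coord_eq L hc g j
  obtain ⟨w⟩ := (inferInstance : Nonempty (InfinitePlace K))
  have h1 := le_nu L ev hev g w l
  rw [hl] at h1
  have h2 : 0 < w (g j : K) :=
    InfinitePlace.pos_iff.2 (RingOfIntegers.coe_ne_zero_iff.2 hj)
  have h0 : 0 < w (ev l : K) :=
    InfinitePlace.pos_iff.2 (RingOfIntegers.coe_ne_zero_iff.2 (hev l))
  by_contra hcon
  push Not at hcon
  have h3 := mul_nonpos_of_nonpos_of_nonneg hcon h0.le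
  linarith

theorem finite_int (B : ℝ) : {a : 𝓞 K | ∀ w : InfinitePlace K, w (a : K) ≤ B}.Finite := by
  have h1 := Embeddings.finite_of_norm_le K ℂ B
  refine Set.Finite.of_finite_image (f := fun a : 𝓞 K => (a : K)) (h1.subset ?_)
    (fun a _ b _ h => RingOfIntegers.ext h)
  rintro _ ⟨a, ha, rfl⟩
  refine ⟨RingOfIntegers.isIntegral_coe a, fun φ => ?_⟩
  have := ha (InfinitePlace.mk φ)
  rwa [InfinitePlace.apply] at this

theorem finite_nu (hc : ∀ j, ∃ l, L l = Pi.single j 1) (hev : ∀ l, ev l ≠ 0) (R : ℝ) :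
    {g : Fin N → 𝓞 K | nu L ev g ≤ R}.Finite := by
  set B : ℝ := ∑ w : InfinitePlace K, ∑ l, |R| * w (ev l : K) with hB
  have h1 : (Set.pi Set.univ fun _ : Fin N =>
      {a : 𝓞 K | ∀ w : InfinitePlace K, w (a : K) ≤ B}).Finite :=
    Set.Finite.pi fun _ => finite_int B
  refine h1.subset fun g hg j _ w => ?_
  obtain ⟨l, hl⟩ := coord_eq L hc g j
  have h2 := le_nu L ev hev g w l
  rw [hl] at h2
  have h3 : nu L ev g * w (ev l : K) ≤ |R| * w (ev l : K) :=
    mul_le_mul_of_nonneg_right ((show nu L ev g ≤ R from hg).trans (le_abs_self R))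
      (apply_nonneg _ _)
  have h4 := Finset.single_le_sum (f := fun l => |R| * w (ev l : K))
    (fun l _ => mul_nonneg (abs_nonneg R) (apply_nonneg _ _)) (Finset.mem_univ l)
  have h5 := Finset.single_le_sum (f := fun w : InfinitePlace K => ∑ l, |R| * w (ev l : K))
    (fun w _ => Finset.sum_nonneg fun l _ => mul_nonneg (abs_nonneg R) (apply_nonneg _ _))
    (Finset.mem_univ w)
  exact h2.trans (h3.trans (h4.trans h5))

/-- a prime number which is a unit at finitely many primes -/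
theorem exists_coprime (T : Finset (HeightOneSpectrum (𝓞 K))) : ∃ p : ℕ, p.Prime ∧
    ∀ Q ∈ T, (p : 𝓞 K) ∉ Q.asIdeal := by
  classical
  set n : ℕ := ∏ Q ∈ T, Ideal.absNorm Q.asIdeal with hn
  have hn0 : n ≠ 0 := Finset.prod_ne_zero_iff.2 fun Q _ => by
    rw [Ne, Ideal.absNorm_eq_zero_iff]
    exact Q.ne_bot
  obtain ⟨p, hp1, hp⟩ := Nat.exists_infinite_primes (n + 1)
  refine ⟨p, hp, fun Q hQ h => ?_⟩
  have h1 : (n : 𝓞 K) ∈ Q.asIdeal := by
    rw [hn, ← Finset.mul_prod_erase T _ hQ]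
    push_cast
    exact Ideal.mul_mem_right _ _ (Ideal.absNorm_mem _)
  have h2 : Nat.Coprime p n := Nat.coprime_of_lt_prime hn0 (by omega) hp
  have h3 := Nat.isCoprime_iff_coprime.2 h2
  obtain ⟨a, b, hab⟩ := h3
  apply Q.isPrime.ne_top
  rw [Ideal.eq_top_iff_one]
  have h4 : ((a : ℤ) : 𝓞 K) * (p : 𝓞 K) + (b : 𝓞 K) * (n : 𝓞 K) = 1 := by
    have := congrArg (fun z : ℤ => (z : 𝓞 K)) hab
    push_cast at this
    exact this
  rw [← h4]
  exact Ideal.add_mem _ (Ideal.mul_mem_left _ _ h) (Ideal.mul_mem_left _ _ h1)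

end Pool.Agent.T9h24
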