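import Mathlib
import Pool.Agent.T9h24.Nu

/-!
The second theorem of Minkowski.
-/

set_option autoImplicit false
set_option linter.unusedSectionVars false

open Finset NumberField IsDedekindDomain

namespace Pool.Agent.T9h24

open Pool.Agent.Y742.SF (fv fv_eq fv_pos fv_nonneg fv_int fv_eq_one_iff fv_mul fv_pow fv_prod)
open Pool.Agent.W180.OP (Pl av wt nrm le_nrm nrm_pos)

variable {K : Type} [Field K] [NumberField K]

/-- coordinates with respect to a basis -/
noncomputable def crd {N : ℕ} (b : Fin N → Fin N → 𝓞 K) : (Fin N → 𝓞 K) →+ (Fin N → K) where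
  toFun g := Matrix.vecMul (fun j => (g j : K)) (Matrix.of fun k j => (b k j : K))⁻¹
  map_zero' := by
    have : (fun j => (((0 : Fin N → 𝓞 K) j : 𝓞 K) : K)) = 0 := by
      funext j
      simp
    rw [this, Matrix.zero_vecMul]
  map_add' x y := by
    rw [← Matrix.add_vecMul]
    congr 1

theorem crd_spec {N : ℕ} (b : Fin N → Fin N → 𝓞 K)
    (hb : (Matrix.of fun k j => (b k j : K)).det ≠ 0) (g : Fin N → 𝓞 K) :
    (fun j => (g j : K)) = ∑ k, crd b g k • (fun j => (b k j : K)) := by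
  have h1 : Matrix.vecMul (crd b g) (Matrix.of fun k j => (b k j : K)) = fun j => (g j : K) := by
    show Matrix.vecMul (Matrix.vecMul (fun j => (g j : K)) _) _ = _
    rw [Matrix.vecMul_vecMul, Matrix.nonsing_inv_mul _ (Ne.isUnit hb), Matrix.vecMul_one]
  rw [← h1, Matrix.vecMul_eq_sum]
  rfl

theorem crd_inj {N : ℕ} (b : Fin N → Fin N → 𝓞 K)
    (hb : (Matrix.of fun k j => (b k j : K)).det ≠ 0) : Function.Injective (crd b) := by
  intro x y h
  have h1 := crd_spec b hb x
  rw [h, ← crd_spec b hb y] at h1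
  funext j
  exact RingOfIntegers.ext (congrFun h1 j)

theorem crd_nsmul {N : ℕ} (b : Fin N → Fin N → 𝓞 K) (n : ℕ) (g : Fin N → 𝓞 K) (k : Fin N) :
    crd b (n • g) k = n * crd b g k := by
  rw [map_nsmul, Pi.smul_apply, nsmul_eq_mul]

/-- replacing a vector -/
theorem det_update_crd {N : ℕ} (b : Fin N → Fin N → 𝓞 K)
    (hb : (Matrix.of fun k j => (b k j : K)).det ≠ 0) (g : Fin N → 𝓞 K) (k : Fin N) :
    (Matrix.of fun i j => (Function.update b k g i j : K)).det =
      crd b g k * (Matrix.of fun k j => (b k j : K)).det := by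
  classical
  have h1 : (Matrix.of fun i j => (Function.update b k g i j : K)) =
      (Matrix.of fun k j => (b k j : K)).updateRow k
        (∑ i, crd b g i • (Matrix.of fun k j => (b k j : K)) i) := by
    ext i j
    rcases eq_or_ne i k with rfl | hi
    · rw [Matrix.updateRow_self, Matrix.of_apply, Function.update_self]
      exact congrFun (crd_spec b hb g) j
    · rw [Matrix.updateRow_ne hi, Matrix.of_apply, Function.update_of_ne hi]
      rfl
  rw [h1, det_update]

theorem alg1 (a b c P W V : ℝ) (n : ℕ) (h : a * b = c) :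
    (a ^ n * P⁻¹) * (b ^ n * W⁻¹) * V⁻¹ = c ^ n / (P * (W * V)) := by
  rw [← h, mul_pow, div_eq_mul_inv, mul_inv, mul_inv]
  ring

/-- **The second theorem of Minkowski.** -/
theorem minkowski2 (htc : ∀ w : InfinitePlace K, w.IsComplex) {N : ℕ} (hN : 1 ≤ N) {ι : Type}
    [Fintype ι] [DecidableEq ι] (L : ι → Fin N → 𝓞 K) (hc : ∀ j, ∃ l, L l = Pi.single j 1)
    (T : Finset (HeightOneSpectrum (𝓞 K))) :
    ∃ C CC : ℝ, 1 ≤ C ∧ 1 ≤ CC ∧ ∀ (ev : ι → 𝓞 K), (∀ l, ev l ≠ 0) → ∀ β : Pl K → Fin N → ι,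
      (∀ v, (Matrix.of fun a j => (L (β v a) j : K)).det ≠ 0) →
      (∀ (v : Pl K) (l : ι) (c : Fin N → K),
        (fun j => (L l j : K)) = ∑ a, c a • (fun j => (L (β v a) j : K)) →
        ∀ a, c a ≠ 0 → av v (ev (β v a) : K) ≤ av v (ev l : K)) →
      ∃ b : Fin N → Fin N → 𝓞 K, (Matrix.of fun k j => (b k j : K)).det ≠ 0 ∧
        Monotone (fun k => nu L ev (b k)) ∧
        (∀ k, ∀ Q ∈ T, ∀ l, fv Q ((∑ j, L l j * b k j : 𝓞 K) : K) ≤ CC * fv Q (ev l : K)) ∧
        (∏ k, nu L ev (b k) ^ Module.finrank ℚ K) *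
          ((∏ w : InfinitePlace K, ∏ a, w (ev (β (Sum.inl w) a) : K) ^ 2) *
            ∏ Q ∈ T, ∏ a, fv Q (ev (β (Sum.inr Q) a) : K)) ≤ C := by
  classical
  set d := Module.finrank ℚ K with hd
  have hd0 : 0 < d := Module.finrank_pos
  set S : Finset (Pl K) := Finset.disjSum Finset.univ T with hS
  have hnn : ∀ (v : Pl K) (z : K), 0 ≤ av v z := fun v z => (av v).nonneg z
  -- the coefficients
  have hcoef : ∀ (β : Fin N → ι) (l : ι), ∃ c : Fin N → K,
      (Matrix.of fun a j => (L (β a) j : K)).det ≠ 0 →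
      (fun j => (L l j : K)) = ∑ a, c a • (fun j => (L (β a) j : K)) := by
    intro β l
    by_cases h : (Matrix.of fun a j => (L (β a) j : K)).det ≠ 0
    · obtain ⟨c, hc⟩ := exists_coeff (fun a j => (L (β a) j : K)) h (fun j => (L l j : K))
      exact ⟨c, fun _ => hc⟩
    · exact ⟨0, fun h' => absurd h' h⟩
  choose cf hcf using hcoef
  set C1 : ℝ := 1 + ∑ v ∈ S, ∑ β : Fin N → ι, ∑ l, ∑ a, av v (cf β l a) with hC1
  have hC11 : 1 ≤ C1 := by
    have : 0 ≤ ∑ v ∈ S, ∑ β : Fin N → ι, ∑ l, ∑ a, av v (cf β l a) :=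
      Finset.sum_nonneg fun v _ => Finset.sum_nonneg fun β _ => Finset.sum_nonneg fun l _ =>
        Finset.sum_nonneg fun a _ => hnn v _
    linarith
  have hcle : ∀ v ∈ S, ∀ β l a, av v (cf β l a) ≤ C1 := by
    intro v hv β l a
    have h1 : av v (cf β l a) ≤ ∑ a, av v (cf β l a) :=
      Finset.single_le_sum (f := fun a => av v (cf β l a)) (fun a _ => hnn v _)
        (Finset.mem_univ a)
    have h2 : ∑ a, av v (cf β l a) ≤ ∑ l, ∑ a, av v (cf β l a) :=
      Finset.single_le_sum (f := fun l => ∑ a, av v (cf β l a))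
        (fun l _ => Finset.sum_nonneg fun a _ => hnn v _) (Finset.mem_univ l)
    have h3 : ∑ l, ∑ a, av v (cf β l a) ≤ ∑ β : Fin N → ι, ∑ l, ∑ a, av v (cf β l a) :=
      Finset.single_le_sum (f := fun β : Fin N → ι => ∑ l, ∑ a, av v (cf β l a))
        (fun β _ => Finset.sum_nonneg fun l _ => Finset.sum_nonneg fun a _ => hnn v _)
        (Finset.mem_univ β)
    have h4 : ∑ β : Fin N → ι, ∑ l, ∑ a, av v (cf β l a) ≤
        ∑ v ∈ S, ∑ β : Fin N → ι, ∑ l, ∑ a, av v (cf β l a) :=
      Finset.single_le_sum (f := fun v : Pl K => ∑ β : Fin N → ι, ∑ l, ∑ a, av v (cf β l a))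
        (fun v _ => Finset.sum_nonneg fun β _ => Finset.sum_nonneg fun l _ =>
          Finset.sum_nonneg fun a _ => hnn v _) hv
    linarith
  obtain ⟨CB, hCB1, hbox⟩ := boxT htc L
  obtain ⟨p, hp, hpT⟩ := exists_coprime T
  have hp1 : (1 : ℝ) < p := by exact_mod_cast hp.one_lt
  have hp0 : (0 : ℝ) < p := by linarith
  have hN0 : (1 : ℝ) ≤ N := by exact_mod_cast hN
  set CC : ℝ := N * C1 with hCC
  have hCC1 : 1 ≤ CC := by nlinarith
  have hιne : Nonempty ι := by
    obtain ⟨l, -⟩ := hc ⟨0, by omega⟩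
    exact ⟨l⟩
  set M : ℝ := (Fintype.card (InfinitePlace K) * Fintype.card ι : ℝ) * CC with hM
  have hcp : (1 : ℝ) ≤ Fintype.card (InfinitePlace K) := by
    exact_mod_cast Fintype.card_pos (α := InfinitePlace K)
  have hcι : (1 : ℝ) ≤ Fintype.card ι := by exact_mod_cast Fintype.card_pos (α := ι)
  have hM1 : 1 ≤ M := by
    have h1 : 1 ≤ (Fintype.card (InfinitePlace K) * Fintype.card ι : ℝ) := by nlinarith
    nlinarith
  have hM0 : 0 < M := by linarith
  refine ⟨(p * (CB * M)) ^ (d * N), CC, one_le_pow₀ (by nlinarith [mul_nonneg (show (0:ℝ) ≤ CB by linarith) hM0.le]), hCC1,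
    fun ev hev β hβ hmin => ?_⟩
  have hevK : ∀ l, (ev l : K) ≠ 0 := fun l => RingOfIntegers.coe_ne_zero_iff.2 (hev l)
  have hwpos : ∀ (w : InfinitePlace K) l, 0 < w (ev l : K) := fun w l =>
    InfinitePlace.pos_iff.2 (hevK l)
  have hfpos : ∀ (Q : HeightOneSpectrum (𝓞 K)) l, 0 < fv Q (ev l : K) := fun Q l =>
    fv_pos Q _ (hevK l)
  -- linear combinations
  have hcomb : ∀ v ∈ S, ∀ (g : Fin N → 𝓞 K) (R : ℝ), 0 ≤ R →
      (∀ a, av v ((∑ j, L (β v a) j * g j : 𝓞 K) : K) ≤ R * av v (ev (β v a) : K)) →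
      ∀ l, av v ((∑ j, L l j * g j : 𝓞 K) : K) ≤ CC * R * av v (ev l : K) := by
    intro v hv g R hR hbv l
    have hlin := hcf (β v) l (hβ v)
    have hexp : ((∑ j, L l j * g j : 𝓞 K) : K) =
        ∑ a, cf (β v) l a * ((∑ j, L (β v a) j * g j : 𝓞 K) : K) := by
      push_cast
      have h1 : ∀ j, (L l j : K) = ∑ a, cf (β v) l a * (L (β v a) j : K) := by
        intro j
        have := congrFun hlin j
        simpa using this
      have h2 : ∑ j, (L l j : K) * (g j : K) =
          ∑ a, cf (β v) l a * ∑ j, (L (β v a) j : K) * (g j : K) := by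
        simp only [h1, Finset.sum_mul, Finset.mul_sum]
        rw [Finset.sum_comm]
        exact Finset.sum_congr rfl fun a _ => Finset.sum_congr rfl fun j _ => by ring
      exact h2
    rw [hexp]
    refine (av_sum_le v _ _).trans ?_
    have hterm : ∀ a, av v (cf (β v) l a * ((∑ j, L (β v a) j * g j : 𝓞 K) : K)) ≤
        C1 * R * av v (ev l : K) := by
      intro a
      rw [map_mul]
      by_cases hc : cf (β v) l a = 0
      · rw [hc, map_zero, zero_mul]
        have := hnn v (ev l : K)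
        positivity
      · have h1 := hmin v l (cf (β v) l) hlin a hc
        have h2 := hcle v hv (β v) l a
        have h3 := hbv a
        have h4 : R * av v (ev (β v a) : K) ≤ R * av v (ev l : K) :=
          mul_le_mul_of_nonneg_left h1 hR
        calc av v (cf (β v) l a) * av v ((∑ j, L (β v a) j * g j : 𝓞 K) : K)
            ≤ C1 * (R * av v (ev l : K)) :=
              mul_le_mul h2 (h3.trans h4) (hnn v _) (by linarith)
          _ = C1 * R * av v (ev l : K) := by ring
    refine (Finset.sum_le_sum fun a _ => hterm a).trans ?_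
    rw [Finset.sum_const, Finset.card_univ, Fintype.card_fin, nsmul_eq_mul, hCC]
    refine le_of_eq ?_
    ring
  -- the lattice
  set Mem : (Fin N → 𝓞 K) → Prop := fun g =>
    ∀ Q ∈ T, ∀ l, fv Q ((∑ j, L l j * g j : 𝓞 K) : K) ≤ CC * fv Q (ev l : K) with hMem
  -- a first basis
  set a0 : 𝓞 K := ∏ l, ev l with ha0
  have ha00 : a0 ≠ 0 := Finset.prod_ne_zero_iff.2 fun l _ => hev l
  set g0 : Fin N → Fin N → 𝓞 K := fun k => Pi.single k a0 with hg0
  have hg0L : ∀ k l, ∑ j, L l j * g0 k j = L l k * a0 := by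
    intro k l
    rw [Finset.sum_eq_single k]
    · simp [hg0]
    · intro j _ hj
      simp only [hg0]
      rw [Pi.single_eq_of_ne hj, mul_zero]
    · intro h
      exact absurd (Finset.mem_univ k) h
  have hg0mem : ∀ k, Mem (g0 k) := by
    intro k Q _ l
    rw [hg0L]
    push_cast
    rw [fv_mul]
    have h1 := fv_int Q (L l k)
    have h2 : fv Q (a0 : K) ≤ fv Q (ev l : K) := by
      rw [ha0, ← Finset.mul_prod_erase _ _ (Finset.mem_univ l)]
      push_cast
      rw [fv_mul]
      have h3 := fv_int Q (∏ x ∈ Finset.univ.erase l, ev x)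
      push_cast at h3
      have h4 := hfpos Q l
      nlinarith
    have h5 := fv_nonneg Q (a0 : K)
    have h6 := hfpos Q l
    have h7 : fv Q (L l k : K) * fv Q (a0 : K) ≤ fv Q (a0 : K) := by nlinarith
    nlinarith
  have hg0det : (Matrix.of fun k j => (g0 k j : K)).det ≠ 0 := by
    have h1 : (Matrix.of fun k j => (g0 k j : K)) = Matrix.diagonal fun _ => (a0 : K) := by
      ext k j
      rw [Matrix.of_apply]
      rcases eq_or_ne k j with rfl | h
      · rw [Matrix.diagonal_apply_eq]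
        simp [hg0]
      · rw [Matrix.diagonal_apply_ne _ h]
        simp only [hg0]
        rw [Pi.single_eq_of_ne h.symm]
        simp
    rw [h1, Matrix.det_diagonal, Finset.prod_const]
    exact pow_ne_zero _ (RingOfIntegers.coe_ne_zero_iff.2 ha00)
  set R0 : ℝ := ∑ k, nu L ev (g0 k) with hR0
  have hR0k : ∀ k, nu L ev (g0 k) ≤ R0 := fun k =>
    Finset.single_le_sum (f := fun k => nu L ev (g0 k)) (fun k _ => nu_nonneg L ev _)
      (Finset.mem_univ k)
  have hfinite := finite_nu L ev hc hev R0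
  set F : Finset (Fin N → 𝓞 K) := hfinite.toFinset.filter Mem with hF
  have hmemF : ∀ g, g ∈ F ↔ nu L ev g ≤ R0 ∧ Mem g := by
    intro g
    rw [hF, Finset.mem_filter, Set.Finite.mem_toFinset]
    rfl
  set TT : Finset (Fin N → Fin N → 𝓞 K) := (Fintype.piFinset fun _ : Fin N => F).filter
    fun b => (Matrix.of fun k j => (b k j : K)).det ≠ 0 with hTT
  obtain ⟨b1, hb1, hb1min⟩ := Finset.exists_min_image TT (fun b => ∏ k, nu L ev (b k))
    ⟨g0, by
      rw [hTT, Finset.mem_filter, Fintype.mem_piFinset]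
      exact ⟨fun k => (hmemF _).2 ⟨hR0k k, hg0mem k⟩, hg0det⟩⟩
  rw [hTT, Finset.mem_filter, Fintype.mem_piFinset] at hb1
  -- sort
  set σ := Tuple.sort (fun k => nu L ev (b1 k)) with hσ
  set b : Fin N → Fin N → 𝓞 K := fun k => b1 (σ k) with hb
  have hmono : Monotone (fun k => nu L ev (b k)) := Tuple.monotone_sort (fun k => nu L ev (b1 k))
  have hdet : (Matrix.of fun k j => (b k j : K)).det ≠ 0 := by
    have h1 : (Matrix.of fun k j => (b k j : K)) =
        (Matrix.of fun k j => (b1 k j : K)).submatrix σ id := rfl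
    rw [h1, Matrix.det_permute]
    refine mul_ne_zero ?_ hb1.2
    rcases Int.units_eq_one_or (Equiv.Perm.sign σ) with h | h <;> rw [h] <;> simp
  have hbF : ∀ k, b k ∈ F := fun k => hb1.1 (σ k)
  have hprod : ∏ k, nu L ev (b k) = ∏ k, nu L ev (b1 k) :=
    Equiv.prod_comp σ (fun k => nu L ev (b1 k))
  have hbmin : ∀ b' ∈ TT, ∏ k, nu L ev (b k) ≤ ∏ k, nu L ev (b' k) := by
    intro b' hb'
    rw [hprod]
    exact hb1min b' hb'
  have hbne : ∀ k, b k ≠ 0 := by
    intro k h
    apply hdet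
    refine Matrix.det_eq_zero_of_row_eq_zero k fun j => ?_
    rw [Matrix.of_apply, h]
    simp
  have hpos : ∀ k, 0 < nu L ev (b k) := fun k => nu_pos L ev hc hev _ (hbne k)
  refine ⟨b, hdet, hmono, fun k => ((hmemF _).1 (hbF k)).2, ?_⟩
  by_contra hcon
  push Not at hcon
  -- the exponents
  set last : Fin N := ⟨N - 1, by omega⟩ with hlast
  set ρ : ℝ := nu L ev (b last) with hρ
  have hρ0 : 0 < ρ := hpos last
  have hex : ∀ k, ∃ e : ℕ, ρ < (p : ℝ) ^ e * nu L ev (b k) := by
    intro k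
    obtain ⟨e, he⟩ := pow_unbounded_of_one_lt (ρ / nu L ev (b k)) hp1
    refine ⟨e, ?_⟩
    rwa [div_lt_iff₀ (hpos k)] at he
  set e : Fin N → ℕ := fun k => Nat.find (hex k) with he
  have he1 : ∀ k, ρ < (p : ℝ) ^ e k * nu L ev (b k) := fun k => Nat.find_spec (hex k)
  have he2 : ∀ k, (p : ℝ) ^ e k * nu L ev (b k) ≤ p * ρ := by
    intro k
    rcases Nat.eq_zero_or_pos (e k) with h | h
    · rw [h, pow_zero, one_mul]
      have h1 : nu L ev (b k) ≤ ρ := hmono (by
        rw [hlast, Fin.le_def]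
        have := k.2
        show (k : ℕ) ≤ N - 1
        omega)
      nlinarith
    · have h1 := Nat.find_min (hex k) (m := e k - 1) (by
        show e k - 1 < e k
        omega)
      push Not at h1
      have h2 : (p : ℝ) ^ e k = p * (p : ℝ) ^ (e k - 1) := by
        rw [← pow_succ']
        congr 1
        omega
      rw [h2, mul_assoc]
      exact mul_le_mul_of_nonneg_left h1 hp0.le
  have he3 : ∀ i j, i ≤ j → e j ≤ e i := by
    intro i j hij
    refine Nat.find_min' (hex j) ?_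
    refine (he1 i).trans_le (mul_le_mul_of_nonneg_left (hmono hij) (by positivity))
  obtain ⟨Θ, hΘ1, hΘ2, θ, hcardΘ, hθ⟩ := flag K N (Fin N → 𝓞 K) (crd b) (crd_inj b hdet)
    (fun k => p ^ e k) (fun k => pow_pos hp.pos _) (fun i j hij => pow_dvd_pow _ (he3 i j hij))
  -- the box
  have hord := fun (Q : HeightOneSpectrum (𝓞 K)) (a : Fin N) =>
    exists_ord Q (ev (β (Sum.inr Q) a)) (hev _)
  choose m hm1 hm2 using hord
  set κ : ℝ := ρ / M with hκ
  have hκ0 : 0 < κ := by positivity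
  have hcond : (Fintype.card Θ : ℝ) * (∏ w : InfinitePlace K, ∏ a,
      (CB / (κ * w (ev (β (Sum.inl w) a) : K))) ^ 2) *
        ∏ Q ∈ T, ∏ a, (Ideal.absNorm Q.asIdeal : ℝ) ^ (m Q a) < 1 := by
    set W : ℝ := ∏ w : InfinitePlace K, ∏ a, w (ev (β (Sum.inl w) a) : K) ^ 2 with hW
    set V : ℝ := ∏ Q ∈ T, ∏ a, fv Q (ev (β (Sum.inr Q) a) : K) with hV
    set P : ℝ := ∏ k, nu L ev (b k) ^ d with hP
    have hW0 : 0 < W := Finset.prod_pos fun w _ => Finset.prod_pos fun a _ =>
      pow_pos (hwpos w _) 2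
    have hV0 : 0 < V := Finset.prod_pos fun Q _ => Finset.prod_pos fun a _ => hfpos Q _
    have hP0 : 0 < P := Finset.prod_pos fun k _ => pow_pos (hpos k) d
    have h1 : ∏ Q ∈ T, ∏ a, (Ideal.absNorm Q.asIdeal : ℝ) ^ (m Q a) = V⁻¹ := by
      rw [hV, ← Finset.prod_inv_distrib]
      refine Finset.prod_congr rfl fun Q _ => ?_
      rw [← Finset.prod_inv_distrib]
      refine Finset.prod_congr rfl fun a _ => ?_
      rw [hm1 Q a, inv_inv]
    have h2 : ∏ w : InfinitePlace K, ∏ a, (CB / (κ * w (ev (β (Sum.inl w) a) : K))) ^ 2 =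
        (CB / κ) ^ (d * N) * W⁻¹ := by
      have h3 : ∀ (w : InfinitePlace K) (a : Fin N),
          (CB / (κ * w (ev (β (Sum.inl w) a) : K))) ^ 2 =
          (CB / κ) ^ 2 * (w (ev (β (Sum.inl w) a) : K) ^ 2)⁻¹ := by
        intro w a
        have := (hwpos w (β (Sum.inl w) a)).ne'
        field_simp
      simp only [h3]
      simp only [Finset.prod_mul_distrib, Finset.prod_const, Finset.card_univ, Fintype.card_fin]
      rw [hW]
      simp only [Finset.prod_inv_distrib]
      congr 1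
      rw [← pow_mul, ← pow_mul]
      congr 1
      rw [hd, ← card_places htc]
      ring
    have h3 : (Fintype.card Θ : ℝ) ≤ (p * ρ) ^ (d * N) * P⁻¹ := by
      have h4 : (Fintype.card Θ : ℝ) ≤ ∏ k, ((p : ℝ) ^ e k) ^ d := by
        have := hcardΘ
        exact_mod_cast this
      refine h4.trans ?_
      have h5 : (p * ρ) ^ (d * N) * P⁻¹ = ∏ k : Fin N, (p * ρ / nu L ev (b k)) ^ d := by
        rw [hP]
        simp only [div_pow]
        rw [Finset.prod_div_distrib, Finset.prod_const, Finset.card_univ, Fintype.card_fin,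
          ← pow_mul, div_eq_mul_inv]
      rw [h5]
      refine Finset.prod_le_prod (fun k _ => by positivity) fun k _ => ?_
      refine pow_le_pow_left₀ (by positivity) ?_ d
      rw [le_div_iff₀ (hpos k)]
      exact he2 k
    rw [h1, h2]
    have h6 : (p * (CB * M)) ^ (d * N) < P * (W * V) := hcon
    have h7 : (Fintype.card Θ : ℝ) * ((CB / κ) ^ (d * N) * W⁻¹) * V⁻¹ ≤
        ((p * ρ) ^ (d * N) * P⁻¹) * ((CB / κ) ^ (d * N) * W⁻¹) * V⁻¹ := by
      have hCB0 : 0 < CB := by linarith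
      refine mul_le_mul_of_nonneg_right (mul_le_mul_of_nonneg_right h3 ?_) (inv_nonneg.2 hV0.le)
      positivity
    refine h7.trans_lt ?_
    have h9 : (p : ℝ) * ρ * (CB / κ) = p * (CB * M) := by
      rw [hκ]
      clear_value ρ M
      field_simp
    rw [alg1 _ _ _ _ _ _ _ h9]
    exact (div_lt_one (mul_pos hP0 (mul_pos hW0 hV0))).2 h6
  obtain ⟨z, hz0, hzθ, hzw, hzQ⟩ := hbox T (fun w a => β (Sum.inl w) a)
    (fun Q a => β (Sum.inr Q) a) m (fun w a => κ * w (ev (β (Sum.inl w) a) : K))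
    (fun w a => mul_pos hκ0 (hwpos w _)) Θ hΘ1 hΘ2 θ hcond
  have hnuz : nu L ev z ≤ ρ := by
    have h1 := nu_le L ev hev z (CC * κ) (fun w l =>
      hcomb (Sum.inl w) (by rw [hS]; exact Finset.inl_mem_disjSum.2 (Finset.mem_univ _)) z κ
        hκ0.le (fun a => hzw w a) l)
    refine h1.trans (le_of_eq ?_)
    rw [hκ, hM]
    field_simp
  have hmemz : Mem z := by
    intro Q hQ l
    have h1 := hcomb (Sum.inr Q) (by rw [hS]; exact Finset.inr_mem_disjSum.2 hQ) z 1
      zero_le_one (fun a => by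
        rw [one_mul]
        exact hm2 Q a _ (hzQ Q hQ a)) l
    rw [mul_one] at h1
    exact h1
  -- the level
  have hcz : ∃ k, crd b z k ≠ 0 := by
    by_contra h
    push Not at h
    apply hz0
    apply crd_inj b hdet
    rw [map_zero]
    funext k
    exact h k
  obtain ⟨k, hk, hkmax⟩ := Finset.exists_max_image
    (Finset.univ.filter fun k => crd b z k ≠ 0) (fun k => k) (by
      obtain ⟨k, hk⟩ := hcz
      exact ⟨k, Finset.mem_filter.2 ⟨Finset.mem_univ _, hk⟩⟩)
  have hk0 : crd b z k ≠ 0 := (Finset.mem_filter.1 hk).2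
  obtain ⟨g', hg'⟩ := hθ z hzθ k (fun j hj => by
    by_contra h
    exact absurd (hkmax j (Finset.mem_filter.2 ⟨Finset.mem_univ _, h⟩)) (not_le.2 hj))
  have hpe : (0 : ℝ) < (p : ℝ) ^ e k := by positivity
  have hnug : (p : ℝ) ^ e k * nu L ev g' ≤ ρ := by
    have h1 := nu_nsmul L ev (p ^ e k) g'
    rw [← hg'] at h1
    push_cast at h1
    rw [← h1]
    exact hnuz
  have hlt : nu L ev g' < nu L ev (b k) := by
    have h1 := hnug.trans_lt (he1 k)
    exact lt_of_mul_lt_mul_left h1 hpe.le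
  have hmemg : Mem g' := by
    intro Q hQ l
    have h1 := hmemz Q hQ l
    have h2 : ((∑ j, L l j * z j : 𝓞 K) : K) =
        ((p : 𝓞 K) : K) ^ e k * ((∑ j, L l j * g' j : 𝓞 K) : K) := by
      rw [hg', ← map_pow, ← map_mul]
      congr 1
      rw [Finset.mul_sum]
      refine Finset.sum_congr rfl fun j _ => ?_
      rw [Pi.smul_apply, nsmul_eq_mul]
      push_cast
      ring
    rw [h2, fv_mul, fv_pow, (fv_eq_one_iff Q (p : 𝓞 K)).2 (hpT Q hQ), one_pow, one_mul] at h1
    exact h1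
  have hckg : crd b g' k ≠ 0 := by
    intro h
    apply hk0
    rw [hg', crd_nsmul, h, mul_zero]
  have hmemTT : Function.update b k g' ∈ TT := by
    rw [hTT, Finset.mem_filter, Fintype.mem_piFinset]
    constructor
    · intro i
      rcases eq_or_ne i k with rfl | hi
      · rw [Function.update_self]
        exact (hmemF _).2 ⟨hlt.le.trans ((hmemF _).1 (hbF i)).1, hmemg⟩
      · rw [Function.update_of_ne hi]
        exact hbF i
    · rw [det_update_crd b hdet]
      exact mul_ne_zero hckg hdet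
  have h1 := hbmin _ hmemTT
  rw [← Finset.mul_prod_erase _ _ (Finset.mem_univ k),
    ← Finset.mul_prod_erase _ (fun i => nu L ev (Function.update b k g' i)) (Finset.mem_univ k),
    Function.update_self] at h1
  have h2 : ∏ i ∈ Finset.univ.erase k, nu L ev (Function.update b k g' i) =
      ∏ i ∈ Finset.univ.erase k, nu L ev (b i) := by
    refine Finset.prod_congr rfl fun i hi => ?_
    rw [Function.update_of_ne (Finset.ne_of_mem_erase hi)]
  rw [h2] at h1
  have h3 : 0 < ∏ i ∈ Finset.univ.erase k, nu L ev (b i) := Finset.prod_pos fun i _ => hpos i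
  have h4 := le_of_mul_le_mul_right h1 h3
  exact absurd h4 (not_le.2 hlt)

end Pool.Agent.T9h24
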