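import Mathlib
import Pool.Agent.T9h24.Dub
import Pool.Agent.T9h24.Mk

/-!
Full bases of companions: generic points.
-/

set_option autoImplicit false
set_option linter.unusedSectionVars false

open Finset NumberField IsDedekindDomain Height Module

namespace Pool.Agent.T9h24

open Pool.Agent.Y742.SF (fv fv_eq fv_pos fv_nonneg fv_int fv_eq_one_iff fv_mul)
open Pool.Agent.W180.OP (Pl av wt nrm le_nrm nrm_pos nrm_nonneg nrm_le exists_nrm wt_nonneg)
open Pool.Agent.R405 (Good dot exv)

variable {K : Type} [Field K] [NumberField K]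

/-- the adjugate of a matrix with bounded entries -/
theorem adj_bound (v : Pl K) {N : ℕ} (M : Matrix (Fin N) (Fin N) K) (p q : Fin N → ℝ)
    (hp : ∀ k, 0 ≤ p k) (hq : ∀ i, 0 ≤ q i) (hM : ∀ k i, av v (M k i) ≤ p k * q i)
    (a b : Fin N) :
    av v (M.adjugate a b) * q a ≤ N.factorial * (∏ k ∈ Finset.univ.erase b, p k) * ∏ i, q i := by
  classical
  have hnn : ∀ z : K, 0 ≤ av v z := fun z => (av v).nonneg z
  rw [Matrix.adjugate_apply, Matrix.det_apply]
  set R := M.updateRow b (Pi.single a 1) with hR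
  have hterm : ∀ σ : Equiv.Perm (Fin N), av v (Equiv.Perm.sign σ • ∏ i, R (σ i) i) * q a ≤
      (∏ k ∈ Finset.univ.erase b, p k) * ∏ i, q i := by
    intro σ
    have hsg : av v (Equiv.Perm.sign σ • ∏ i, R (σ i) i) = ∏ i, av v (R (σ i) i) := by
      rw [← map_prod]
      rcases Int.units_eq_one_or (Equiv.Perm.sign σ) with h | h
      · rw [h, one_smul]
      · rw [h, Units.neg_smul, one_smul, (av v).map_neg]
    rw [hsg]
    have hRHS : 0 ≤ (∏ k ∈ Finset.univ.erase b, p k) * ∏ i, q i :=
      mul_nonneg (Finset.prod_nonneg fun k _ => hp k) (Finset.prod_nonneg fun i _ => hq i)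
    by_cases hσ : σ a = b
    · rw [← Finset.mul_prod_erase _ _ (Finset.mem_univ a)]
      have h1 : R (σ a) a = 1 := by
        rw [hσ, hR, Matrix.updateRow_self, Pi.single_eq_same]
      rw [h1, map_one, one_mul]
      have h2 : ∏ i ∈ Finset.univ.erase a, av v (R (σ i) i) ≤
          ∏ i ∈ Finset.univ.erase a, p (σ i) * q i := by
        refine Finset.prod_le_prod (fun i _ => hnn _) fun i hi => ?_
        have h3 : σ i ≠ b := by
          rw [← hσ]
          exact fun h => (Finset.ne_of_mem_erase hi) (σ.injective h)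
        rw [hR, Matrix.updateRow_ne h3]
        exact hM _ _
      refine (mul_le_mul_of_nonneg_right h2 (hq a)).trans (le_of_eq ?_)
      rw [Finset.prod_mul_distrib]
      have h4 : ∏ i ∈ Finset.univ.erase a, p (σ i) = ∏ k ∈ Finset.univ.erase b, p k := by
        refine Finset.prod_bij (fun i _ => σ i) ?_ ?_ ?_ ?_
        · intro i hi
          refine Finset.mem_erase.2 ⟨?_, Finset.mem_univ _⟩
          rw [← hσ]
          exact fun h => (Finset.ne_of_mem_erase hi) (σ.injective h)
        · intro i _ j _ h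
          exact σ.injective h
        · intro k hk
          refine ⟨σ.symm k, Finset.mem_erase.2 ⟨?_, Finset.mem_univ _⟩, σ.apply_symm_apply k⟩
          intro h
          apply Finset.ne_of_mem_erase hk
          rw [← hσ, ← h, σ.apply_symm_apply]
        · intro i _
          rfl
      rw [h4, mul_assoc]
      congr 1
      rw [mul_comm]
      exact Finset.mul_prod_erase _ _ (Finset.mem_univ a)
    · have h1 : ∏ i, av v (R (σ i) i) = 0 := by
        refine Finset.prod_eq_zero (Finset.mem_univ (σ.symm b)) ?_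
        rw [σ.apply_symm_apply, hR, Matrix.updateRow_self, Pi.single_eq_of_ne, map_zero]
        intro h
        apply hσ
        rw [← h, σ.apply_symm_apply]
      rw [h1, zero_mul]
      exact hRHS
  refine (mul_le_mul_of_nonneg_right (av_sum_le v _ _) (hq a)).trans ?_
  rw [Finset.sum_mul]
  refine (Finset.sum_le_sum fun σ _ => hterm σ).trans (le_of_eq ?_)
  rw [Finset.sum_const, Finset.card_univ, Fintype.card_perm, Fintype.card_fin, nsmul_eq_mul,
    mul_assoc]

/-- the last dual vector of a basis in terms of linear forms -/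
theorem dual_coord {N : ℕ} (A Λ : Matrix (Fin N) (Fin N) K) (hA : A.det ≠ 0) (b : Fin N)
    (dd : Fin N → K) (h : (fun j => A.adjugate j b) = ∑ a, dd a • Λ a) (a : Fin N) :
    Λ.det * dd a = (A * Λ.transpose).adjugate a b := by
  classical
  have h1 : A.mulVec (fun j => A.adjugate j b) = A.det • (Pi.single b 1 : Fin N → K) := by
    have h2 := Matrix.mul_adjugate A
    funext k
    have h3 := congrFun (congrFun h2 k) b
    rw [Matrix.mul_apply] at h3
    rw [Matrix.mulVec, dotProduct, h3, Matrix.smul_apply, Pi.smul_apply, Matrix.one_apply,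
      Pi.single_apply]
  have h2 : (A * Λ.transpose).mulVec dd = A.det • (Pi.single b 1 : Fin N → K) := by
    rw [← h1, h, ← Matrix.mulVec_mulVec]
    congr 1
    funext j
    simp only [Matrix.mulVec, dotProduct, Matrix.transpose_apply, Finset.sum_apply,
      Pi.smul_apply, smul_eq_mul]
    exact Finset.sum_congr rfl fun i _ => mul_comm _ _
  have h3 := congrArg (fun z => (A * Λ.transpose).adjugate.mulVec z) h2
  simp only [Matrix.mulVec_mulVec, Matrix.adjugate_mul, Matrix.mulVec_smul] at h3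
  have h4 := congrFun h3 a
  rw [Matrix.smul_mulVec, Matrix.one_mulVec, Pi.smul_apply, Pi.smul_apply,
    Matrix.mulVec_single_one, Matrix.det_mul, Matrix.det_transpose, smul_eq_mul, smul_eq_mul,
    mul_assoc] at h4
  exact mul_left_cancel₀ hA h4

/-- **Full bases of companions**, generic points. -/
theorem core2 [IsGalois ℚ K] (hi : ∃ z : K, z ^ 2 = -1) {N : ℕ} (hN : 1 ≤ N) {ι : Type}
    [Fintype ι] [DecidableEq ι] (L : ι → Fin N → 𝓞 K) (hL : ∀ l, L l ≠ 0)
    (hc : ∀ j, ∃ l, L l = Pi.single j 1) :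
    ∃ Z : Finset (Fin N → ℚ), (∀ z ∈ Z, z ≠ 0) ∧
      ∀ (T : Finset (HeightOneSpectrum (𝓞 K))) (ε : ℝ), 0 < ε → ∃ C : ℝ, 0 ≤ C ∧
      ∀ y : Fin N → ℤ, (∃ u : Fin N → ℤ, ∑ j, u j * y j = 1) →
        (∀ z ∈ Z, ∑ j, z j * (y j : ℚ) ≠ 0) →
        ∃ b : Fin N → Fin N → 𝓞 K, (Matrix.of fun k j => (b k j : K)).det ≠ 0 ∧
          ∀ k, ∀ v : Pl K, (∀ Q, v = Sum.inr Q → Q ∈ T) → ∀ l,
            av v ((∑ j, L l j * b k j : 𝓞 K) : K) ≤
              Real.exp (C + ε * Real.log (sz y)) *
                av v ((∑ j, L l j * (y j : 𝓞 K) : 𝓞 K) : K) := by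
  classical
  have htc := totally_complex hi
  have hsingle : LinearIndependent K (fun i : Fin N => (Pi.single i 1 : Fin N → K)) := by
    have h1 := (Pi.basisFun K (Fin N)).linearIndependent
    refine (linearIndependent_equiv' (Equiv.refl _) ?_).1 h1
    funext i
    show Pi.single i 1 = (Pi.basisFun K (Fin N)) i
    rw [Pi.basisFun_apply]
  obtain ⟨Zy, hZy, hdual⟩ := dualB hi L N (fun i => Pi.single i 1) hsingle
  have hLK : ∀ l, (fun j => (L l j : K)) ≠ 0 := by
    intro l h
    apply hL l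
    funext j
    have := congrFun h j
    simpa using this
  set Z1 : Finset (Fin N → K) := Zy ∪ Finset.univ.image (fun l j => (L l j : K)) with hZ1
  have hZ1' : ∀ z ∈ Z1, z ≠ 0 := by
    intro z hz
    rcases Finset.mem_union.1 hz with h | h
    · exact hZy z h
    · obtain ⟨l, -, rfl⟩ := Finset.mem_image.1 h
      exact hLK l
  have hdes : ∀ z : Fin N → K, ∃ m : Fin N → ℚ, z ∈ Z1 → m ≠ 0 ∧ ∀ x : Fin N → ℚ,
      ∑ j, m j * x j ≠ 0 → ∑ j, z j * algebraMap ℚ K (x j) ≠ 0 := by
    intro z
    by_cases hz : z ∈ Z1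
    · obtain ⟨m, hm⟩ := Pool.Agent.R405.descend (k := ℚ) z (hZ1' z hz)
      exact ⟨m, fun _ => hm⟩
    · exact ⟨0, fun h => absurd h hz⟩
  choose mz hmz using hdes
  refine ⟨Z1.image mz, ?_, fun T ε hε => ?_⟩
  · intro z hz
    obtain ⟨z', hz', rfl⟩ := Finset.mem_image.1 hz
    exact (hmz z' hz').1
  set S : Finset (Pl K) := Finset.disjSum Finset.univ T with hS
  have hnn : ∀ (v : Pl K) (z : K), 0 ≤ av v z := fun v z => (av v).nonneg z
  obtain ⟨CM, CC, hCM1, hCC1, hmink⟩ := minkowski2 htc hN L hc T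
  obtain ⟨CD, hCD0, hCD⟩ := hdual T ε hε
  set Cd : Pl K → ℝ := fun v => ∑ β : Fin N → ι,
    |Real.log (av v (Matrix.of fun a j => (L (β a) j : K)).det)| with hCd
  have hCd0 : ∀ v, 0 ≤ Cd v := fun v => Finset.sum_nonneg fun β _ => abs_nonneg _
  have hCdle : ∀ v (β : Fin N → ι),
      -Real.log (av v (Matrix.of fun a j => (L (β a) j : K)).det) ≤ Cd v := by
    intro v β
    have h1 := Finset.single_le_sum (f := fun β : Fin N → ι =>
      |Real.log (av v (Matrix.of fun a j => (L (β a) j : K)).det)|)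
      (fun β _ => abs_nonneg _) (Finset.mem_univ β)
    exact (neg_le_abs _).trans h1
  set F : ℝ := Real.log (N.factorial : ℝ) with hF
  have hF0 : 0 ≤ F := Real.log_nonneg (by exact_mod_cast Nat.one_le_iff_ne_zero.2 N.factorial_ne_zero)
  have hlCC : 0 ≤ Real.log CC := Real.log_nonneg hCC1
  have hlCM : 0 ≤ Real.log CM := Real.log_nonneg hCM1
  set last : Fin N := ⟨N - 1, by omega⟩ with hlast
  set K0 : ℝ := ∑ v ∈ S, wt v * (F + Cd v) +
    ∑ Q ∈ T, wt (Sum.inr Q : Pl K) * ∑ k ∈ (Finset.univ : Finset (Fin N)).erase last, Real.log CC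
    with hK0
  have hK00 : 0 ≤ K0 := by
    refine add_nonneg (Finset.sum_nonneg fun v _ => mul_nonneg (wt_nonneg v)
      (add_nonneg hF0 (hCd0 v))) (Finset.sum_nonneg fun Q _ => mul_nonneg (wt_nonneg _)
      (Finset.sum_nonneg fun k _ => hlCC))
  refine ⟨CD + K0 + Real.log CM + Real.log CC, by positivity, fun y hprim hZy' => ?_⟩
  have hy0 : y ≠ 0 := by
    rintro rfl
    obtain ⟨u, hu⟩ := hprim
    simp at hu
  set h : ℝ := Real.log (sz y) with hh
  have hh0 : 0 ≤ h := Real.log_nonneg (one_le_sz y hy0)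
  have hZx : ∀ z ∈ Z1, ∑ j, z j * (y j : K) ≠ 0 := by
    intro z hz
    have h1 := (hmz z hz).2 (fun j => (y j : ℚ)) (hZy' _ (Finset.mem_image_of_mem _ hz))
    simpa using h1
  set ev : ι → 𝓞 K := fun l => ∑ j, L l j * (y j : 𝓞 K) with hev
  have hevK : ∀ l, (ev l : K) = ∑ j, (L l j : K) * (y j : K) := by
    intro l
    simp only [hev]
    push_cast
    rfl
  have hev0 : ∀ l, (ev l : K) ≠ 0 := by
    intro l
    rw [hevK]
    exact hZx _ (Finset.mem_union_right _ (Finset.mem_image_of_mem _ (Finset.mem_univ l)))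
  have hev0' : ∀ l, ev l ≠ 0 := by
    intro l h
    apply hev0 l
    rw [h]
    simp
  have hpos : ∀ (v : Pl K) l, 0 < av v (ev l : K) := fun v l => (av v).pos (hev0 l)
  -- the greedy bases
  have hs : ∃ β : Fin N → ι, (Matrix.of fun a => (fun l j => (L l j : K)) (β a)).det ≠ 0 := by
    choose l hl using hc
    refine ⟨l, ?_⟩
    have h1 : (Matrix.of fun a => (fun l j => (L l j : K)) (l a)) = (1 : Matrix _ _ K) := by
      ext a j
      simp only [Matrix.of_apply, hl, Pi.single_apply, Matrix.one_apply]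
      by_cases h : j = a
      · subst h; simp
      · rw [if_neg h, if_neg (Ne.symm h)]; simp
    rw [h1, Matrix.det_one]
    exact one_ne_zero
  have hgr := fun v : Pl K => greedy (fun l j => (L l j : K)) hs (fun l => av v (ev l : K))
  choose β hβ hmin using hgr
  obtain ⟨b, hb, hmono, hbT, hprod⟩ := hmink ev hev0' β hβ hmin
  refine ⟨b, hb, ?_⟩
  -- the dual vector
  set A : Matrix (Fin N) (Fin N) K := Matrix.of fun k j => (b k j : K) with hA
  set ξ : Fin N → 𝓞 K := fun j => (Matrix.of b).adjugate j last with hξ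
  have hξK : ∀ j, (ξ j : K) = A.adjugate j last := by
    intro j
    have h1 := RingHom.map_adjugate (algebraMap (𝓞 K) K) (Matrix.of b)
    have h2 := congrFun (congrFun h1 j) last
    exact h2
  have hξ0 : (fun j => (ξ j : K)) ≠ 0 := by
    intro h0
    apply hb
    have h1 := congrFun (congrFun (Matrix.mul_adjugate A) last) last
    rw [Matrix.mul_apply, Matrix.smul_apply, Matrix.one_apply_eq, smul_eq_mul, mul_one] at h1
    rw [← h1]
    refine Finset.sum_eq_zero fun j _ => ?_
    rw [← hξK, show (ξ j : K) = 0 from congrFun h0 j, mul_zero]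
  have hbne : ∀ k, b k ≠ 0 := by
    intro k h
    apply hb
    refine Matrix.det_eq_zero_of_row_eq_zero k fun j => ?_
    rw [hA, Matrix.of_apply, h]
    simp
  have hnu : ∀ k, 0 < nu L ev (b k) := fun k => nu_pos L ev hc hev0' _ (hbne k)
  set pv : Pl K → Fin N → ℝ := fun v k => match v with
    | Sum.inl _ => nu L ev (b k)
    | Sum.inr _ => CC with hpv
  have hpvpos : ∀ v k, 0 < pv v k := by
    rintro (w | Q) k
    · exact hnu k
    · exact lt_of_lt_of_le one_pos hCC1
  have hentry : ∀ v ∈ S, ∀ k i, av v (((A * (Matrix.of fun a j =>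
      (L (β v a) j : K)).transpose) : Matrix _ _ K) k i) ≤ pv v k * av v (ev (β v i) : K) := by
    intro v hv k i
    have h1 : ((A * (Matrix.of fun a j => (L (β v a) j : K)).transpose) : Matrix _ _ K) k i =
        ((∑ j, L (β v i) j * b k j : 𝓞 K) : K) := by
      rw [Matrix.mul_apply]
      push_cast
      refine Finset.sum_congr rfl fun j _ => ?_
      rw [Matrix.transpose_apply, mul_comm]
      rfl
    rw [h1]
    rcases v with w | Q
    · exact le_nu L ev hev0' (b k) w _
    · exact hbT k Q (Finset.inr_mem_disjSum.1 (by rw [← hS]; exact hv)) _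
  set κ : Pl K → ℝ := fun v => F + ∑ k ∈ (Finset.univ : Finset (Fin N)).erase last,
    Real.log (pv v k) + ∑ i, Real.log (av v (ev (β v i) : K)) + Cd v with hκ
  have hκb : ∀ v ∈ S, ∀ dd : Fin N → K,
      (fun j => (ξ j : K)) = ∑ a, dd a • (fun j => (L (β v a) j : K)) → ∀ a,
      av v (dd a) * av v ((∑ j, L (β v a) j * (y j : 𝓞 K) : 𝓞 K) : K) ≤ Real.exp (κ v) := by
    intro v hv dd hdd a
    set Λ : Matrix (Fin N) (Fin N) K := Matrix.of fun a j => (L (β v a) j : K) with hΛ
    have h1 := dual_coord A Λ hb last dd (by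
      rw [← show (fun j => (ξ j : K)) = fun j => A.adjugate j last from funext hξK]
      exact hdd) a
    have h2 := adj_bound v (A * Λ.transpose) (pv v) (fun i => av v (ev (β v i) : K))
      (fun k => (hpvpos v k).le) (fun i => hnn v _) (hentry v hv) a last
    rw [← h1, map_mul] at h2
    have hdet : 0 < av v Λ.det := (av v).pos (hβ v)
    have h3 : av v (dd a) * av v (ev (β v a) : K) ≤ (N.factorial *
        (∏ k ∈ Finset.univ.erase last, pv v k) * ∏ i, av v (ev (β v i) : K)) / av v Λ.det := by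
      rw [le_div_iff₀ hdet]
      refine le_trans (le_of_eq ?_) h2
      ring
    refine h3.trans ?_
    have hf0 : (0 : ℝ) < N.factorial := by exact_mod_cast N.factorial_pos
    have hp0 : 0 < ∏ k ∈ (Finset.univ : Finset (Fin N)).erase last, pv v k :=
      Finset.prod_pos fun k _ => hpvpos v k
    have hq0 : 0 < ∏ i, av v (ev (β v i) : K) := Finset.prod_pos fun i _ => hpos v _
    rw [← Real.log_le_iff_le_exp (div_pos (mul_pos (mul_pos hf0 hp0) hq0) hdet),
      Real.log_div (mul_pos (mul_pos hf0 hp0) hq0).ne' hdet.ne',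
      Real.log_mul (mul_pos hf0 hp0).ne' hq0.ne', Real.log_mul hf0.ne' hp0.ne',
      Real.log_prod fun k _ => (hpvpos v k).ne', Real.log_prod fun i _ => (hpos v _).ne']
    have h4 := hCdle v (β v)
    have h5 : κ v = F + ∑ k ∈ (Finset.univ : Finset (Fin N)).erase last,
      Real.log (pv v k) + ∑ i, Real.log (av v (ev (β v i) : K)) + Cd v := rfl
    rw [h5]
    linarith
  have hlow := hCD y hprim (fun z hz => hZx z (Finset.mem_union_left _ hz)) hev0' β hβ
    (fun j => (ξ j : K)) hξ0 ξ (fun j => by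
      simp [Pi.single_apply]) κ hκb
  -- the upper bound
  have hd1 : (1 : ℝ) ≤ ((Module.finrank ℚ K : ℕ) : ℝ) := by
    exact_mod_cast (Module.finrank_pos : 0 < Module.finrank ℚ K)
  set d : ℝ := ((Module.finrank ℚ K : ℕ) : ℝ) with hd
  have hmk : d * ∑ k, Real.log (nu L ev (b k)) +
      (∑ w : InfinitePlace K, wt (Sum.inl w : Pl K) *
        ∑ a, Real.log (av (Sum.inl w : Pl K) (ev (β (Sum.inl w) a) : K)) +
      ∑ Q ∈ T, wt (Sum.inr Q : Pl K) *
        ∑ a, Real.log (av (Sum.inr Q : Pl K) (ev (β (Sum.inr Q) a) : K))) ≤ Real.log CM := by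
    have e1 : ∀ k, (0 : ℝ) < nu L ev (b k) ^ Module.finrank ℚ K := fun k => pow_pos (hnu k) _
    have e2 : ∀ (w : InfinitePlace K) a, (0 : ℝ) < w (ev (β (Sum.inl w) a) : K) ^ 2 :=
      fun w a => pow_pos (hpos (Sum.inl w) _) 2
    have e3 : ∀ (Q : HeightOneSpectrum (𝓞 K)) a, (0 : ℝ) < fv Q (ev (β (Sum.inr Q) a) : K) :=
      fun Q a => hpos (Sum.inr Q) _
    have hP1 : 0 < ∏ k, nu L ev (b k) ^ Module.finrank ℚ K := Finset.prod_pos fun k _ => e1 k
    have hP2 : 0 < ∏ w : InfinitePlace K, ∏ a, w (ev (β (Sum.inl w) a) : K) ^ 2 :=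
      Finset.prod_pos fun w _ => Finset.prod_pos fun a _ => e2 w a
    have hP3 : 0 < ∏ Q ∈ T, ∏ a, fv Q (ev (β (Sum.inr Q) a) : K) :=
      Finset.prod_pos fun Q _ => Finset.prod_pos fun a _ => e3 Q a
    have h1 := Real.log_le_log (mul_pos hP1 (mul_pos hP2 hP3)) hprod
    rw [Real.log_mul hP1.ne' (mul_pos hP2 hP3).ne', Real.log_mul hP2.ne' hP3.ne',
      Real.log_prod fun k _ => (e1 k).ne',
      Real.log_prod fun w _ => (Finset.prod_pos fun a _ => e2 w a).ne',
      Real.log_prod fun Q _ => (Finset.prod_pos fun a _ => e3 Q a).ne'] at h1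
    refine le_trans (le_of_eq ?_) h1
    congr 1
    · rw [Finset.mul_sum]
      exact Finset.sum_congr rfl fun k _ => by rw [Real.log_pow]
    · congr 1
      · refine Finset.sum_congr rfl fun w _ => ?_
        rw [Real.log_prod fun a _ => (e2 w a).ne', wt_inl,
          InfinitePlace.mult_isComplex ⟨w, htc w⟩, Finset.mul_sum]
        refine Finset.sum_congr rfl fun a _ => ?_
        rw [Real.log_pow]
        rfl
      · refine Finset.sum_congr rfl fun Q _ => ?_
        rw [Real.log_prod fun a _ => (e3 Q a).ne', Finset.mul_sum]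
        refine Finset.sum_congr rfl fun a _ => ?_
        have : wt (Sum.inr Q : Pl K) = 1 := rfl
        rw [this, one_mul]
        rfl
  have hup : ∑ v ∈ S, wt v * κ v ≤ K0 + Real.log CM - d * Real.log (nu L ev (b last)) := by
    have h1 : ∑ v ∈ S, wt v * κ v = K0 + (d * ∑ k ∈ (Finset.univ : Finset (Fin N)).erase last,
        Real.log (nu L ev (b k)) + (∑ w : InfinitePlace K, wt (Sum.inl w : Pl K) *
        ∑ a, Real.log (av (Sum.inl w : Pl K) (ev (β (Sum.inl w) a) : K)) +
      ∑ Q ∈ T, wt (Sum.inr Q : Pl K) *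
        ∑ a, Real.log (av (Sum.inr Q : Pl K) (ev (β (Sum.inr Q) a) : K)))) := by
      have e1 : ∀ w : InfinitePlace K, wt (Sum.inl w : Pl K) * κ (Sum.inl w) =
          wt (Sum.inl w : Pl K) * (F + Cd (Sum.inl w)) + (wt (Sum.inl w : Pl K) *
          ∑ k ∈ (Finset.univ : Finset (Fin N)).erase last, Real.log (nu L ev (b k)) +
          wt (Sum.inl w : Pl K) *
          ∑ a, Real.log (av (Sum.inl w : Pl K) (ev (β (Sum.inl w) a) : K))) := by
        intro w
        show _ * (F + ∑ k ∈ (Finset.univ : Finset (Fin N)).erase last,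
          Real.log (nu L ev (b k)) + _ + _) = _
        ring
      have e2 : ∀ Q : HeightOneSpectrum (𝓞 K), wt (Sum.inr Q : Pl K) * κ (Sum.inr Q) =
          wt (Sum.inr Q : Pl K) * (F + Cd (Sum.inr Q)) + (wt (Sum.inr Q : Pl K) *
          ∑ k ∈ (Finset.univ : Finset (Fin N)).erase last, Real.log CC +
          wt (Sum.inr Q : Pl K) *
          ∑ a, Real.log (av (Sum.inr Q : Pl K) (ev (β (Sum.inr Q) a) : K))) := by
        intro Q
        show _ * (F + ∑ k ∈ (Finset.univ : Finset (Fin N)).erase last,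
          Real.log CC + _ + _) = _
        ring
      rw [hK0, hS, Finset.sum_disjSum, Finset.sum_disjSum, Finset.sum_congr rfl fun w _ => e1 w,
        Finset.sum_congr rfl fun Q _ => e2 Q]
      simp only [Finset.sum_add_distrib]
      rw [← Finset.sum_mul, sum_wt_inl, ← hd]
      ring
    rw [h1]
    have h2 : ∑ k, Real.log (nu L ev (b k)) = Real.log (nu L ev (b last)) +
        ∑ k ∈ (Finset.univ : Finset (Fin N)).erase last, Real.log (nu L ev (b k)) :=
      (Finset.add_sum_erase _ _ (Finset.mem_univ last)).symm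
    rw [h2] at hmk
    linarith
  have hlog : Real.log (nu L ev (b last)) ≤ CD + K0 + Real.log CM + ε * h := by
    have h1 : d * Real.log (nu L ev (b last)) ≤ CD + K0 + Real.log CM + ε * h := by
      have : -(ε * h) - CD ≤ ∑ v ∈ S, wt v * κ v := hlow
      linarith
    rcases le_total (Real.log (nu L ev (b last))) 0 with h2 | h2
    · have : 0 ≤ ε * h := mul_nonneg hε.le hh0
      linarith
    · nlinarith
  intro k v hv l
  have hk : nu L ev (b k) ≤ nu L ev (b last) := hmono (by
    rw [hlast, Fin.le_def]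
    have := k.2
    show (k : ℕ) ≤ N - 1
    omega)
  rcases v with w | Q
  · refine (le_nu L ev hev0' (b k) w l).trans ?_
    refine mul_le_mul_of_nonneg_right ?_ (hnn (Sum.inl w) _)
    refine hk.trans ?_
    rw [← Real.log_le_iff_le_exp (hnu last)]
    linarith
  · refine (hbT k Q (hv Q rfl) l).trans ?_
    refine mul_le_mul_of_nonneg_right ?_ (hnn (Sum.inr Q) _)
    rw [← Real.log_le_iff_le_exp (lt_of_lt_of_le one_pos hCC1)]
    have : 0 ≤ ε * h := mul_nonneg hε.le hh0
    linarith

end Pool.Agent.T9h24
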