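import Mathlib
import Pool.Agent.T9h24.Bas
import Pool.Agent.T9h24.CompQ

/-!
Full bases of rational companions.
-/

set_option autoImplicit false
set_option linter.unusedSectionVars false

open Finset NumberField IsDedekindDomain Height Module

namespace Pool.Agent.T9h24

open Pool.Agent.Y742.SF (fv fv_eq fv_pos fv_nonneg fv_int fv_eq_one_iff fv_mul)
open Pool.Agent.W180.OP (Pl av wt nrm le_nrm nrm_pos)
open Pool.Agent.R405 (Good dot exv fv_act)
open Pool.Agent.TeamU (Over act)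

variable {K : Type} [Field K] [NumberField K]

/-- **Full bases of rational companions**, generic points. -/
theorem core2Q [IsGalois ℚ K] (hi : ∃ z : K, z ^ 2 = -1) {N : ℕ} (hN : 1 ≤ N) {ι : Type}
    [Fintype ι] (L : ι → Fin N → 𝓞 K)
    (hLG : ∀ (σ : K ≃ₐ[ℚ] K) (l : ι), ∃ l', ∀ j, (L l' j : K) = σ (L l j : K)) :
    ∃ Z : Finset (Fin N → ℚ), (∀ z ∈ Z, z ≠ 0) ∧
      ∀ (T : Finset (HeightOneSpectrum (𝓞 K))), (∀ (σ : K ≃ₐ[ℚ] K), ∀ Q ∈ T, act σ Q ∈ T) →
      ∀ ε : ℝ, 0 < ε → ∃ C : ℝ, 0 ≤ C ∧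
      ∀ y : Fin N → ℤ, (∃ u : Fin N → ℤ, ∑ j, u j * y j = 1) →
        (∀ z ∈ Z, ∑ j, z j * (y j : ℚ) ≠ 0) →
        ∃ b : Fin N → Fin N → ℤ, (Matrix.of fun k j => (b k j : ℚ)).det ≠ 0 ∧
          ∀ k, ∀ v : Pl K, (∀ Q, v = Sum.inr Q → Q ∈ T) → ∀ l,
            av v (∑ j, (L l j : K) * (b k j : K)) ≤ Real.exp (C + ε * Real.log (sz y)) *
              av v (∑ j, (L l j : K) * (y j : K)) := by
  classical
  set L' : ({l // L l ≠ 0} ⊕ Fin N) → Fin N → 𝓞 K := Sum.elim (fun l => L l.1)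
    (fun i => Pi.single i 1) with hL'
  have hL'0 : ∀ l, L' l ≠ 0 := by
    rintro (l | i)
    · exact l.2
    · intro h
      have := congrFun h i
      simp [hL'] at this
  obtain ⟨Z, hZ, hmain⟩ := core2 hi hN L' hL'0 (fun j => ⟨Sum.inr j, rfl⟩)
  refine ⟨Z, hZ, fun T hT ε hε => ?_⟩
  obtain ⟨C, hC, hcomp⟩ := hmain T ε hε
  set S : Finset (Pl K) := Finset.disjSum Finset.univ T with hS
  have hmemS : ∀ v : Pl K, (∀ Q, v = Sum.inr Q → Q ∈ T) → v ∈ S := by
    intro v hv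
    rw [hS]
    rcases v with w | Q
    · exact Finset.inl_mem_disjSum.2 (Finset.mem_univ _)
    · exact Finset.inr_mem_disjSum.2 (hv Q rfl)
  have hnn : ∀ (v : Pl K) (z : K), 0 ≤ av v z := fun v z => (av v).nonneg z
  set B : ℝ := 1 + ∑ v ∈ S, ∑ i, ∑ σ : K ≃ₐ[ℚ] K, av v (σ (RingOfIntegers.basis K i : K)) with hB
  have hB1 : 1 ≤ B := by
    have : 0 ≤ ∑ v ∈ S, ∑ i, ∑ σ : K ≃ₐ[ℚ] K, av v (σ (RingOfIntegers.basis K i : K)) :=
      Finset.sum_nonneg fun v _ => Finset.sum_nonneg fun i _ => Finset.sum_nonneg fun σ _ =>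
        hnn v _
    linarith
  refine ⟨C + Real.log B, add_nonneg hC (Real.log_nonneg hB1), fun y hy hyZ => ?_⟩
  obtain ⟨b0, hb0, hbv⟩ := hcomp y hy hyZ
  -- the traces
  set tr : (Fin N × Module.Free.ChooseBasisIndex ℤ (𝓞 K)) → Fin N → ℤ := fun p j =>
    Algebra.trace ℤ (𝓞 K) (b0 p.1 j * RingOfIntegers.basis K p.2) with htrd
  have hspan : ∀ t : Fin N → ℚ, (∀ p, ∑ j, (tr p j : ℚ) * t j = 0) → t = 0 := by
    intro t ht
    have h1 : ∀ k, ∑ j, (b0 k j : K) * (t j : K) = 0 := by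
      intro k
      rw [dual_sum (∑ j, (b0 k j : K) * (t j : K))]
      refine Finset.sum_eq_zero fun i _ => ?_
      have h2 : Algebra.trace ℚ K ((∑ j, (b0 k j : K) * (t j : K)) * integralBasis K i) = 0 := by
        rw [← ht (k, i), Finset.sum_mul, map_sum]
        refine Finset.sum_congr rfl fun j _ => ?_
        have h3 : (b0 k j : K) * (t j : K) * integralBasis K i =
            t j • (((b0 k j * RingOfIntegers.basis K i : 𝓞 K)) : K) := by
          rw [integralBasis_apply, Algebra.smul_def, eq_ratCast]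
          push_cast
          ring
        rw [h3, map_smul, smul_eq_mul, mul_comm]
        congr 1
        exact (Algebra.coe_trace_int _).symm
      rw [h2, zero_smul]
    have h4 : (Matrix.of fun k j => (b0 k j : K)).mulVec (fun j => (t j : K)) = 0 := by
      funext k
      exact h1 k
    have h5 := Matrix.eq_zero_of_mulVec_eq_zero hb0 h4
    funext j
    have h6 := congrFun h5 j
    simpa using h6
  obtain ⟨γ, hγ⟩ := exists_det (fun p j => (tr p j : ℚ)) hspan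
  refine ⟨fun k => tr (γ k), hγ, ?_⟩
  intro k v hv l
  have hvS := hmemS v hv
  by_cases hl0 : L l = 0
  · rw [hl0]
    simp
  have htr : ∀ j, ((tr (γ k) j : ℤ) : K) =
      ∑ σ : K ≃ₐ[ℚ] K, σ (RingOfIntegers.basis K (γ k).2 : K) * σ (b0 (γ k).1 j : K) := by
    intro j
    have h1 := trace_eq_sum_automorphisms (K := ℚ)
      (((b0 (γ k).1 j * RingOfIntegers.basis K (γ k).2 : 𝓞 K)) : K)
    have h2 : algebraMap ℚ K (Algebra.trace ℚ K
        (((b0 (γ k).1 j * RingOfIntegers.basis K (γ k).2 : 𝓞 K)) : K)) =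
        ((tr (γ k) j : ℤ) : K) := by
      rw [← Algebra.coe_trace_int]
      simp [htrd]
    rw [← h2, h1]
    refine Finset.sum_congr rfl fun σ _ => ?_
    push_cast
    rw [map_mul, mul_comm]
  -- the conjugate forms
  have hconj : ∀ σ : K ≃ₐ[ℚ] K, ∃ l', ∀ j, σ (L l' j : K) = (L l j : K) := by
    intro σ
    obtain ⟨l', hl'⟩ := hLG σ⁻¹ l
    refine ⟨l', fun j => ?_⟩
    rw [hl', ← AlgEquiv.mul_apply, mul_inv_cancel, AlgEquiv.one_apply]
  choose lc hlc using hconj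
  have hlc0 : ∀ σ, L (lc σ) ≠ 0 := by
    intro σ h0
    apply hl0
    funext j
    have h1 := hlc σ j
    rw [h0] at h1
    have h2 : (L l j : K) = 0 := by
      rw [← h1]
      simp
    exact RingOfIntegers.ext (by simpa using h2)
  have hsum : ∑ j, (L l j : K) * ((tr (γ k) j : ℤ) : K) =
      ∑ σ : K ≃ₐ[ℚ] K, σ (RingOfIntegers.basis K (γ k).2 : K) *
        σ ((∑ j, L (lc σ) j * b0 (γ k).1 j : 𝓞 K) : K) := by
    simp only [htr, Finset.mul_sum]
    rw [Finset.sum_comm]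
    refine Finset.sum_congr rfl fun σ _ => ?_
    have h1 : σ ((∑ j, L (lc σ) j * b0 (γ k).1 j : 𝓞 K) : K) =
        ∑ j, (L l j : K) * σ (b0 (γ k).1 j : K) := by
      push_cast
      rw [map_sum]
      refine Finset.sum_congr rfl fun j _ => ?_
      rw [map_mul, hlc]
    rw [h1, Finset.mul_sum]
    exact Finset.sum_congr rfl fun j _ => by ring
  have hyv : ∀ σ : K ≃ₐ[ℚ] K, σ ((∑ j, L (lc σ) j * (y j : 𝓞 K) : 𝓞 K) : K) =
      ∑ j, (L l j : K) * (y j : K) := by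
    intro σ
    push_cast
    rw [map_sum]
    refine Finset.sum_congr rfl fun j _ => ?_
    rw [map_mul, hlc]
    congr 1
    refine Eq.trans (congrArg σ (a₂ := ((y j : ℤ) : K)) ?_) (map_intCast σ _)
    simp
  rw [hsum]
  refine (av_sum_le v _ _).trans ?_
  have hterm : ∀ σ : K ≃ₐ[ℚ] K, av v (σ (RingOfIntegers.basis K (γ k).2 : K) *
        σ ((∑ j, L (lc σ) j * b0 (γ k).1 j : 𝓞 K) : K)) ≤
      av v (σ (RingOfIntegers.basis K (γ k).2 : K)) * (Real.exp (C + ε * Real.log (sz y)) *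
        av v (∑ j, (L l j : K) * (y j : K))) := by
    intro σ
    rw [map_mul]
    refine mul_le_mul_of_nonneg_left ?_ (hnn v _)
    have h1 := hbv (γ k).1 (tw σ v) (by
      intro Q hQ
      rcases v with w | Q'
      · exact absurd hQ (by simp [tw])
      · have h2 : act σ⁻¹ Q' = Q := Sum.inr.inj hQ
        rw [← h2]
        exact hT σ⁻¹ Q' (hv Q' rfl)) (Sum.inl ⟨lc σ, hlc0 σ⟩)
    have h3 : L' (Sum.inl ⟨lc σ, hlc0 σ⟩) = L (lc σ) := rfl
    rw [h3, av_tw, av_tw, hyv] at h1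
    exact h1
  refine (Finset.sum_le_sum fun σ _ => hterm σ).trans ?_
  rw [← Finset.sum_mul]
  have h3 : ∑ σ : K ≃ₐ[ℚ] K, av v (σ (RingOfIntegers.basis K (γ k).2 : K)) ≤ B := by
    have h4 : ∑ σ : K ≃ₐ[ℚ] K, av v (σ (RingOfIntegers.basis K (γ k).2 : K)) ≤
        ∑ i, ∑ σ : K ≃ₐ[ℚ] K, av v (σ (RingOfIntegers.basis K i : K)) :=
      Finset.single_le_sum
        (f := fun i => ∑ σ : K ≃ₐ[ℚ] K, av v (σ (RingOfIntegers.basis K i : K)))
        (fun i _ => Finset.sum_nonneg fun σ _ => hnn v _) (Finset.mem_univ (γ k).2)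
    have h5 : ∑ i, ∑ σ : K ≃ₐ[ℚ] K, av v (σ (RingOfIntegers.basis K i : K)) ≤
        ∑ v ∈ S, ∑ i, ∑ σ : K ≃ₐ[ℚ] K, av v (σ (RingOfIntegers.basis K i : K)) :=
      Finset.single_le_sum
        (f := fun v : Pl K => ∑ i, ∑ σ : K ≃ₐ[ℚ] K, av v (σ (RingOfIntegers.basis K i : K)))
        (fun v _ => Finset.sum_nonneg fun i _ => Finset.sum_nonneg fun σ _ => hnn v _) hvS
    linarith
  refine (mul_le_mul_of_nonneg_right h3 (mul_nonneg (Real.exp_pos _).le (hnn v _))).trans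
    (le_of_eq ?_)
  rw [Real.exp_add, Real.exp_add, Real.exp_add, Real.exp_log (by linarith)]
  ring

end Pool.Agent.T9h24
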