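import Mathlib
import Pool.Agent.T9h24.BasQ

/-!
Full bases of rational companions: all points.
-/

set_option autoImplicit false
set_option linter.unusedSectionVars false

open Finset NumberField IsDedekindDomain Height Module

namespace Pool.Agent.T9h24

open Pool.Agent.Y742.SF (fv fv_eq fv_pos fv_nonneg fv_int fv_eq_one_iff fv_mul)
open Pool.Agent.W180.OP (Pl av wt nrm le_nrm nrm_pos)
open Pool.Agent.R405 (Good dot exv fv_act)
open Pool.Agent.TeamU (Over act)

variable {K : Type} [Field K] [NumberField K]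

theorem coe_form {N : ℕ} (L : Fin N → 𝓞 K) (e : Fin N → ℤ) :
    ((∑ j, L j * (e j : 𝓞 K) : 𝓞 K) : K) = ∑ j, (L j : K) * (e j : K) := by
  push_cast
  rfl

/-- a full basis of companions of `y` in the rational subspace `W` -/
def HasFull (T : Finset (HeightOneSpectrum (𝓞 K))) (C ε : ℝ) {N : ℕ} {ι : Type}
    (L : ι → Fin N → 𝓞 K) (y : Fin N → ℤ) (W : Submodule ℚ (Fin N → ℚ)) : Prop :=
  (fun j => (y j : ℚ)) ∈ W ∧ ∃ (m : ℕ) (g : Fin m → Fin N → ℤ),
    Submodule.span ℚ (Set.range fun k j => (g k j : ℚ)) = W ∧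
    ∀ k, ∀ v : Pl K, (∀ Q, v = Sum.inr Q → Q ∈ T) → ∀ l,
      av v (∑ j, (L l j : K) * (g k j : K)) ≤ Real.exp (C + ε * Real.log (sz y)) *
        av v (∑ j, (L l j : K) * (y j : K))

theorem HasFull.mono {T : Finset (HeightOneSpectrum (𝓞 K))} {C C' ε : ℝ} {N : ℕ} {ι : Type}
    {L : ι → Fin N → 𝓞 K} {y : Fin N → ℤ} {W : Submodule ℚ (Fin N → ℚ)}
    (h : HasFull T C ε L y W) (hC : C ≤ C') : HasFull T C' ε L y W := by
  obtain ⟨h1, m, g, h2, h3⟩ := h
  refine ⟨h1, m, g, h2, fun k v hv l => (h3 k v hv l).trans ?_⟩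
  refine mul_le_mul_of_nonneg_right (Real.exp_le_exp.2 ?_) ((av v).nonneg _)
  linarith

/-- **Full bases of companions**: for a Galois stable family of linear forms there are finitely
many rational subspaces such that for all primitive integral `y` one of them contains `y` and is
spanned by companions of `y`. -/
theorem full [IsGalois ℚ K] (hi : ∃ z : K, z ^ 2 = -1) (N : ℕ) :
    ∀ {ι : Type} [Fintype ι] (L : ι → Fin N → 𝓞 K),
    (∀ (σ : K ≃ₐ[ℚ] K) (l : ι), ∃ l', ∀ j, (L l' j : K) = σ (L l j : K)) →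
    ∃ TT : Finset (Submodule ℚ (Fin N → ℚ)),
      ∀ (T : Finset (HeightOneSpectrum (𝓞 K))), (∀ (σ : K ≃ₐ[ℚ] K), ∀ Q ∈ T, act σ Q ∈ T) →
      ∀ ε : ℝ, 0 < ε → ∃ C : ℝ, 0 ≤ C ∧
      ∀ y : Fin N → ℤ, (∃ u : Fin N → ℤ, ∑ j, u j * y j = 1) →
        ∃ W ∈ TT, HasFull T C ε L y W := by
  classical
  induction N using Nat.strong_induction_on with
  | _ N ih =>
  intro ι _ L hLG
  rcases Nat.eq_zero_or_pos N with hN | hN
  · subst hN
    refine ⟨∅, fun T _ ε _ => ⟨0, le_rfl, fun y hy => ?_⟩⟩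
    obtain ⟨u, hu⟩ := hy
    simp at hu
  obtain ⟨Z, hZ, hcore⟩ := core2Q hi hN L hLG
  -- the hyperplanes
  have hhyp : ∀ z : Fin N → ℚ, ∃ TT : Finset (Submodule ℚ (Fin N → ℚ)), z ∈ Z →
      ∀ (T : Finset (HeightOneSpectrum (𝓞 K))), (∀ (σ : K ≃ₐ[ℚ] K), ∀ Q ∈ T, act σ Q ∈ T) →
      ∀ ε : ℝ, 0 < ε → ∃ C : ℝ, 0 ≤ C ∧
      ∀ y : Fin N → ℤ, (∃ u : Fin N → ℤ, ∑ j, u j * y j = 1) → ∑ j, z j * (y j : ℚ) = 0 →
        ∃ W ∈ TT, HasFull T C ε L y W := by
    intro z
    by_cases hz : z ∈ Z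
    · obtain ⟨m, e, Ce, hm, hCe, hli, hco⟩ := exists_hyper z (hZ z hz)
      obtain ⟨TT, hTT⟩ := ih m hm (fun l a => ∑ j, L l j * (e a j : 𝓞 K)) (by
        intro σ l
        obtain ⟨l', hl'⟩ := hLG σ l
        refine ⟨l', fun a => ?_⟩
        rw [coe_form (L l') (e a), coe_form (L l) (e a), map_sum]
        refine Finset.sum_congr rfl fun j _ => ?_
        rw [map_mul, hl', map_intCast])
      set φ : (Fin m → ℚ) →ₗ[ℚ] (Fin N → ℚ) :=
        Fintype.linearCombination ℚ (fun a j => (e a j : ℚ)) with hφ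
      have hφa : ∀ c : Fin m → ℚ, ∀ j, φ c j = ∑ a, c a * (e a j : ℚ) := by
        intro c j
        rw [hφ, Fintype.linearCombination_apply]
        simp only [Finset.sum_apply, Pi.smul_apply, smul_eq_mul]
      refine ⟨TT.image (Submodule.map φ), fun _ T hT ε hε => ?_⟩
      obtain ⟨C, hC, hcomp⟩ := hTT T hT ε hε
      refine ⟨C + ε * Real.log (Ce + 1), by
          have := Real.log_nonneg (show (1 : ℝ) ≤ Ce + 1 by linarith)
          positivity, fun y hy hzy => ?_⟩
      obtain ⟨c, hyc, hcb⟩ := hco y hzy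
      obtain ⟨u, hu⟩ := hy
      have hcp : ∃ u' : Fin m → ℤ, ∑ a, u' a * c a = 1 := by
        refine ⟨fun a => ∑ j, u j * e a j, ?_⟩
        rw [← hu]
        simp only [hyc, Finset.sum_mul, Finset.mul_sum]
        rw [Finset.sum_comm]
        exact Finset.sum_congr rfl fun a _ => Finset.sum_congr rfl fun j _ => by ring
      have hc0 : c ≠ 0 := by
        rintro rfl
        obtain ⟨u', hu'⟩ := hcp
        simp at hu'
      have hy0 : y ≠ 0 := by
        rintro rfl
        simp at hu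
      obtain ⟨W, hW, hcW, k, g, hg, hgv⟩ := hcomp c hcp
      have hval : ∀ (l : ι) (c' : Fin m → ℤ),
          ∑ a, (((∑ j, L l j * (e a j : 𝓞 K) : 𝓞 K)) : K) * (c' a : K) =
          ∑ j, (L l j : K) * ((∑ a, c' a * e a j : ℤ) : K) := by
        intro l c'
        have h1 : ∀ a, (((∑ j, L l j * (e a j : 𝓞 K) : 𝓞 K)) : K) =
            ∑ j, (L l j : K) * (e a j : K) := fun a => coe_form (L l) (e a)
        simp only [h1]
        push_cast
        simp only [Finset.sum_mul, Finset.mul_sum]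
        rw [Finset.sum_comm]
        exact Finset.sum_congr rfl fun a _ => Finset.sum_congr rfl fun j _ => by ring
      refine ⟨Submodule.map φ W, Finset.mem_image_of_mem _ hW, ?_, k,
        fun i j => ∑ a, g i a * e a j, ?_, fun i v hv l => ?_⟩
      · refine ⟨fun a => (c a : ℚ), hcW, ?_⟩
        funext j
        rw [hφa, hyc j]
        push_cast
        rfl
      · rw [← hg, Submodule.map_span, ← Set.range_comp]
        congr 1
        congr 1
        funext i
        funext j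
        rw [Function.comp_apply, hφa]
        push_cast
        rfl
      · have h1 := hgv i v hv l
        rw [hval l (g i), hval l c] at h1
        have h2 : ∑ j, (L l j : K) * ((∑ a, c a * e a j : ℤ) : K) =
            ∑ j, (L l j : K) * (y j : K) := by
          refine Finset.sum_congr rfl fun j _ => ?_
          rw [hyc j]
        rw [h2] at h1
        refine h1.trans (mul_le_mul_of_nonneg_right (Real.exp_le_exp.2 ?_) ((av v).nonneg _))
        have hsc : sz c ≤ (Ce + 1) * sz y := by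
          unfold sz
          have hne : Nonempty (Fin m) := by
            by_contra hcon
            rw [not_nonempty_iff] at hcon
            exact hc0 (funext fun a => hcon.elim a)
          refine ciSup_le fun a => (hcb a).trans ?_
          have := one_le_sz y hy0
          exact mul_le_mul_of_nonneg_right (by linarith) (by
            show 0 ≤ sz y
            linarith)
        have h3 := Real.log_le_log (by linarith [one_le_sz c hc0]) hsc
        rw [Real.log_mul (by positivity) (by linarith [one_le_sz y hy0])] at h3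
        nlinarith
    · exact ⟨∅, fun h => absurd h hz⟩
  choose TTz hTTz using hhyp
  refine ⟨insert ⊤ (Z.biUnion TTz), fun T hT ε hε => ?_⟩
  obtain ⟨C0, hC0, hcore⟩ := hcore T hT ε hε
  have hCz : ∀ z : Fin N → ℚ, ∃ C : ℝ, 0 ≤ C ∧ (z ∈ Z → ∀ y : Fin N → ℤ,
      (∃ u : Fin N → ℤ, ∑ j, u j * y j = 1) → ∑ j, z j * (y j : ℚ) = 0 →
      ∃ W ∈ TTz z, HasFull T C ε L y W) := by
    intro z
    by_cases hz : z ∈ Z
    · obtain ⟨C, hC, h⟩ := hTTz z hz T hT ε hε
      exact ⟨C, hC, fun _ => h⟩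
    · exact ⟨0, le_rfl, fun h => absurd h hz⟩
  choose Cz hCz0 hCz using hCz
  refine ⟨C0 + ∑ z ∈ Z, Cz z, add_nonneg hC0 (Finset.sum_nonneg fun z _ => hCz0 z),
    fun y hy => ?_⟩
  have hsum0 : 0 ≤ ∑ z ∈ Z, Cz z := Finset.sum_nonneg fun z _ => hCz0 z
  by_cases hZy : ∀ z ∈ Z, ∑ j, z j * (y j : ℚ) ≠ 0
  · obtain ⟨b, hb, hbv⟩ := hcore y hy hZy
    refine ⟨⊤, Finset.mem_insert_self _ _, HasFull.mono (C := C0)
      ⟨Submodule.mem_top, N, b, ?_, hbv⟩ (by linarith)⟩
    have h1 : LinearIndependent ℚ (fun k j => (b k j : ℚ)) :=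
      Matrix.linearIndependent_rows_of_det_ne_zero hb
    exact h1.span_eq_top_of_card_eq_finrank' (by rw [Fintype.card_fin, Module.finrank_fin_fun])
  · push Not at hZy
    obtain ⟨z, hz, hzy⟩ := hZy
    obtain ⟨W, hW, hfull⟩ := hCz z hz y hy hzy
    refine ⟨W, Finset.mem_insert_of_mem (Finset.mem_biUnion.2 ⟨z, hz, hW⟩),
      HasFull.mono hfull ?_⟩
    have := Finset.single_le_sum (f := Cz) (fun z _ => hCz0 z) hz
    linarith

end Pool.Agent.T9h24
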