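import Mathlib
import Pool.Agent.T9h24.Frm
import Pool.Agent.T9h24.Nmr
import Pool.Agent.T9h24.Grd
import Pool.Agent.T9h24.Ful

/-!
The subspace theorem for closed points of given degree: integral coordinates.
-/

set_option autoImplicit false
set_option linter.unusedSectionVars false

open Finset MvPolynomial NumberField IsDedekindDomain

namespace Pool.Agent.T9h24

open Pool.Agent.W180.OP (Pl av wt nrm le_nrm nrm_pos)
open Pool.Agent.TeamU (Over act mem_act)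

/-- the content controls the conjugates at a finite place -/
theorem padic_A {F : Type} [NormedField F] [IsUltrametricDist F] [CharZero F] [IsAlgClosed F]
    (n r : ℕ) : ∃ Cc : ℝ, 0 ≤ Cc ∧ ∀ (E : Type) [Field E] [NumberField E],
      Module.finrank ℚ E = r → ∀ x : Fin (n + 1) → 𝓞 E, x ≠ 0 →
      ∀ (g : ℤ) (y : Fin (NN n r) → ℤ), g ≠ 0 → nf x = C g * PY ℤ y →
      ∑ τ : E →+* F, Real.log ‖fun i => τ (x i : E)‖ - Real.log ‖(g : F)‖ ≤ Cc := by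
  classical
  obtain ⟨c, hc, hgrid⟩ := grid F n r
  refine ⟨r * |Real.log c|, by positivity, fun E _ _ hE x hx g y hg hnf => ?_⟩
  have hH : Fintype.card (E →+* F) = r := by rw [card_emb F, hE]
  obtain ⟨t, ht⟩ := hgrid (E →+* F) hH (fun τ i => τ (x i : E))
  set t' : Fin (n + 1) → ℤ := fun j => ((t j : ℕ) : ℤ) with ht'
  have hℓ : ∀ τ : E →+* F, 0 < ‖fun i => τ (x i : E)‖ := by
    intro τ
    rw [norm_pos_iff]
    intro h0
    apply hx
    funext i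
    have h1 : τ (x i : E) = 0 := congrFun h0 i
    exact RingOfIntegers.ext (by simpa using h1)
  have hev : MvPolynomial.eval (fun j => Int.castRingHom F (t' j))
      (MvPolynomial.map (Int.castRingHom F) (nf x)) =
      ((g * MvPolynomial.eval t' (PY ℤ y) : ℤ) : F) := by
    rw [MvPolynomial.eval_map, hnf]
    have h1 := (MvPolynomial.eval₂_comp (Int.castRingHom F) t' (C g * PY ℤ y)).symm
    refine h1.trans ?_
    rw [map_mul, eval_C]
    rfl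
  rw [nf_map F x, map_prod] at hev
  have hev2 : ∏ τ : E →+* F, ‖∑ j, τ (x j : E) * (((t j : ℕ) : ℤ) : F)‖ =
      ‖(g : F)‖ * ‖((MvPolynomial.eval t' (PY ℤ y) : ℤ) : F)‖ := by
    rw [← norm_mul, ← Int.cast_mul, ← hev, norm_prod]
    refine Finset.prod_congr rfl fun τ _ => ?_
    rw [map_sum]
    congr 1
    refine Finset.sum_congr rfl fun j _ => ?_
    rw [map_mul, eval_C, eval_X]
    rfl
  have hint : ‖((MvPolynomial.eval t' (PY ℤ y) : ℤ) : F)‖ ≤ 1 :=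
    norm_integral_le _ (isIntegral_algebraMap (R := ℤ) (A := F)
      (x := MvPolynomial.eval t' (PY ℤ y)))
  have hgF : 0 < ‖(g : F)‖ := norm_pos_iff.2 (by exact_mod_cast hg)
  have h1 : c ^ r * ∏ τ : E →+* F, ‖fun i => τ (x i : E)‖ ≤ ‖(g : F)‖ := by
    have h2 : ∏ τ : E →+* F, (c * ‖fun i => τ (x i : E)‖) ≤
        ∏ τ : E →+* F, ‖∑ j, τ (x j : E) * (((t j : ℕ) : ℤ) : F)‖ :=
      Finset.prod_le_prod (fun τ _ => mul_nonneg hc.le (norm_nonneg _)) fun τ _ => ht τ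
    rw [Finset.prod_mul_distrib, Finset.prod_const, Finset.card_univ, hH, hev2] at h2
    refine h2.trans ?_
    have h3 := mul_le_mul_of_nonneg_left hint hgF.le
    rwa [mul_one] at h3
  have hprod : 0 < ∏ τ : E →+* F, ‖fun i => τ (x i : E)‖ := Finset.prod_pos fun τ _ => hℓ τ
  have h2 := Real.log_le_log (mul_pos (pow_pos hc r) hprod) h1
  rw [Real.log_mul (pow_pos hc r).ne' hprod.ne', Real.log_pow,
    Real.log_prod fun τ _ => (hℓ τ).ne'] at h2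
  have h3 := mul_le_mul_of_nonneg_left (neg_abs_le (Real.log c)) (Nat.cast_nonneg (α := ℝ) r)
  linarith


/-- the local height of a hyperplane -/
noncomputable def lamH {n : ℕ} {F : Type} [NormedField F] (L y : Fin (n + 1) → F) : ℝ :=
  Real.log (‖L‖ * ‖y‖ / ‖lf L y‖)

theorem lamH_le_uu {n : ℕ} {F : Type} [NormedField F] (c : F) (hc : c ≠ 0)
    (Λ : Fin (n + 1) → Fin (n + 1) → F) {H : Type} (ℓ : H → Fin (n + 1) → F) (τ : H)
    (k : Fin (n + 1)) : lamH (Λ k) (ℓ τ) ≤ uu (fun k j => c * Λ k j) ℓ τ k := by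
  have h1 : lf (fun j => c * Λ k j) (ℓ τ) = c * lf (Λ k) (ℓ τ) := by
    unfold lf
    rw [Finset.mul_sum]
    exact Finset.sum_congr rfl fun j _ => mul_assoc _ _ _
  have h2 : ‖fun j => c * Λ k j‖ = ‖c‖ * ‖Λ k‖ := by
    have : (fun j => c * Λ k j) = c • Λ k := rfl
    rw [this, norm_smul]
  unfold lamH uu
  rw [h1, h2]
  by_cases h : lf (Λ k) (ℓ τ) = 0
  · rw [if_pos (by rw [h, mul_zero]), h, norm_zero, div_zero, Real.log_zero]
  · rw [if_neg (mul_ne_zero hc h), norm_mul]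
    have hc0 : 0 < ‖c‖ := norm_pos_iff.2 hc
    have h3 : 0 < ‖lf (Λ k) (ℓ τ)‖ := norm_pos_iff.2 h
    have h4 := norm_lf_le (Λ k) (ℓ τ)
    have hn : (0 : ℝ) ≤ n := Nat.cast_nonneg n
    have h5 : 0 < ‖Λ k‖ * ‖ℓ τ‖ := by
      by_contra hcon
      have h6 : ‖Λ k‖ * ‖ℓ τ‖ = 0 := le_antisymm (not_lt.1 hcon)
        (mul_nonneg (norm_nonneg _) (norm_nonneg _))
      rw [mul_assoc, h6, mul_zero] at h4
      linarith
    refine Real.log_le_log (div_pos h5 h3) ?_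
    have h6 : ((n : ℝ) + 1) * (‖c‖ * ‖Λ k‖) * ‖ℓ τ‖ / (‖c‖ * ‖lf (Λ k) (ℓ τ)‖) =
        ((n : ℝ) + 1) * (‖Λ k‖ * ‖ℓ τ‖ / ‖lf (Λ k) (ℓ τ)‖) := by
      field_simp
    rw [h6]
    have h7 : 0 ≤ ‖Λ k‖ * ‖ℓ τ‖ / ‖lf (Λ k) (ℓ τ)‖ := (div_pos h5 h3).le
    nlinarith

theorem td_mono {Y : Type} [Fintype Y] [DecidableEq Y] {n : ℕ} {u u' : Y → Fin (n + 1) → ℝ}
    (h : ∀ y k, u y k ≤ u' y k) (z : Fin (n + 1) → Y) : td u z ≤ td u' z :=
  le_td u' z _ fun π => (td_le u z π).trans (Finset.sum_le_sum fun _ _ => h _ _)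

variable {K : Type} [Field K] [NumberField K] {n : ℕ}

/-- the family -/
noncomputable def Om {RK : Finset K} (ω : RK → 𝓞 K) (β : Fin (n + 1) → Fin (n + 1) → RK) :
    Fin (n + 1) → Fin (n + 1) → 𝓞 K := fun k j => ω (β k j)

/-- the linear forms on vectors of coefficients -/
noncomputable def LLf {RK : Finset K} (ω : RK → 𝓞 K) (r : ℕ)
    (l : (Fin (n + 1) → Fin (n + 1) → RK) × AD n r) (i : Fin (NN n r)) : 𝓞 K :=
  (sb (Om ω l.1) (monomial ((ee n r i : AD n r) : Fin (n + 1) →₀ ℕ) 1)).coeff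
    (l.2 : Fin (n + 1) →₀ ℕ)

theorem LLf_gal (G : Polynomial ℤ) {D0 : ℤ} {RK : Finset K} {ω : RK → 𝓞 K}
    (hRK : ∀ P, P ∈ RK ↔ P ∈ (mp K G).roots) (hω : ∀ z, (ω z : K) = (D0 : K) * (z : K)) (r : ℕ)
    (σ : K ≃ₐ[ℚ] K) (l : (Fin (n + 1) → Fin (n + 1) → RK) × AD n r) :
    ∃ l', ∀ j, (LLf ω r l' j : K) = σ (LLf ω r l j : K) := by
  have hroot : ∀ P ∈ RK, σ P ∈ RK := by
    intro P hP
    rw [hRK] at hP ⊢
    rw [Polynomial.mem_roots'] at hP ⊢
    refine ⟨hP.1, ?_⟩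
    have h1 : (mp K G).map (σ : K →+* K) = mp K G := mp_map (σ : K →+* K) G
    have h2 : (mp K G).eval P = 0 := hP.2
    show (mp K G).eval (σ P) = 0
    conv_lhs => rw [← h1]
    have h3 : σ P = (σ : K →+* K) P := rfl
    rw [h3, Polynomial.eval_map, Polynomial.eval₂_hom, h2, map_zero]
  refine ⟨(fun k j => ⟨σ (l.1 k j), hroot _ (l.1 k j).2⟩, l.2), fun i => ?_⟩
  unfold LLf
  rw [coe_LL, coe_LL]
  have h1 := coeff_map (σ : K →+* K) (sb (fun k j => (Om ω l.1 k j : K))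
    (monomial ((ee n r i : AD n r) : Fin (n + 1) →₀ ℕ) 1)) (l.2 : Fin (n + 1) →₀ ℕ)
  rw [sb_map, map_monomial, map_one] at h1
  refine Eq.trans ?_ h1
  congr 3
  funext k j
  show (ω ⟨σ (l.1 k j), _⟩ : K) = σ (ω (l.1 k j) : K)
  rw [hω, hω, map_mul, map_intCast]

/-- **One place**, arbitrary forms with coefficients among the roots of `G`. -/
theorem placeG {F : Type} [NormedField F] [CharZero F] [IsAlgClosed F] (ψ : K →+* F)
    (w : Pl K) (c : ℝ) (hc : 0 < c) (hψ : ∀ z, ‖ψ z‖ = av w z ^ c) (r j m0 : ℕ)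
    (G : Polynomial ℤ) (hsp : (mp K G).Splits) {D0 : ℤ} (hD0 : D0 ≠ 0) {RK : Finset K}
    {ω : RK → 𝓞 K} (hRK : ∀ P, P ∈ RK ↔ P ∈ (mp K G).roots)
    (hω : ∀ z, (ω z : K) = (D0 : K) * (z : K)) :
    ∃ Cc : ℝ, 0 ≤ Cc ∧ ∀ (E : Type) [Field E] [NumberField E], Module.finrank ℚ E = r →
      ∀ x : Fin (n + 1) → 𝓞 E, x ≠ 0 → ∀ (g : ℤ) (y : Fin (NN n r) → ℤ), g ≠ 0 →
      nf x = C g * PY ℤ y → ∀ {m : ℕ} (h : Fin m → Fin (NN n r) → ℤ) (B : ℝ),
      (∀ k, ∀ l : (Fin (n + 1) → Fin (n + 1) → RK) × AD n r,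
        av w (∑ i, (LLf ω r l i : K) * ((h k i : ℤ) : K)) ≤
        Real.exp B * av w (∑ i, (LLf ω r l i : K) * ((y i : ℤ) : K))) →
      ∀ (κ : Fin (NN n (j * r + m0)) → Fin j → Fin m) (b : Fin (NN n (j * r + m0)) → AD n m0),
      Dt r j m0 h κ b ≠ 0 → ∀ Λ : Fin (n + 1) → Fin (n + 1) → F,
      (∀ k j, Λ k j ∈ (mp F G).roots) → (Matrix.of Λ).det ≠ 0 →
      Real.log ‖((Dt r j m0 h κ b : ℤ) : F)‖ ≤
        (NN n (j * r + m0) : ℝ) * (j * (c * B + (∑ τ : E →+* F,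
          Real.log ‖fun i => τ (x i : E)‖ - Real.log ‖(g : F)‖))) +
          Cc - (j.descFactorial (n + 1) : ℝ) / ((n + 1).factorial : ℝ) *
          ∑ σ : Fin (n + 1) → (E →+* F), td (fun (τ : E →+* F) k =>
            lamH (Λ k) (fun i => τ (x i : E))) σ := by
  classical
  obtain ⟨Cc, hC, h0⟩ := placeF ψ w c hc hψ r j m0
    (Ω := fun β : Fin (n + 1) → Fin (n + 1) → RK => Om ω β)
  refine ⟨Cc, hC, fun E _ _ hE x hx g y hg hnf {m} h B hB κ b hΔ Λ hΛ hdet => ?_⟩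
  have hβ : ∀ k i, ∃ z : RK, ψ (z : K) = Λ k i := by
    intro k i
    have h1 := hΛ k i
    rw [← mp_map ψ, hsp.roots_map] at h1
    obtain ⟨P', h2, h3⟩ := Multiset.mem_map.1 h1
    exact ⟨⟨P', (hRK P').2 h2⟩, h3⟩
  choose β hβ using hβ
  have hD0F : (D0 : F) ≠ 0 := by exact_mod_cast hD0
  have hOm : (fun k i => ψ (Om ω β k i : K)) = fun k i => (D0 : F) * Λ k i := by
    funext k i
    show ψ (ω (β k i) : K) = _
    rw [hω, map_mul, map_intCast, hβ]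
  have hdet' : (Matrix.of fun k i => ψ (Om ω β k i : K)).det ≠ 0 := by
    rw [hOm]
    have h1 : (Matrix.of fun k i => (D0 : F) * Λ k i) = (D0 : F) • Matrix.of Λ := rfl
    rw [h1, Matrix.det_smul]
    exact mul_ne_zero (pow_ne_zero _ hD0F) hdet
  have h1 := h0 E hE x hx g y hg hnf h B (fun k β a => hB k (β, a)) κ b hΔ β hdet'
  refine h1.trans (sub_le_sub_left (mul_le_mul_of_nonneg_left
    (Finset.sum_le_sum fun σ _ => td_mono (fun τ k => ?_) σ) ?_) _)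
  · rw [hOm]
    exact lamH_le_uu (D0 : F) hD0F Λ (fun (τ : E →+* F) i => τ (x i : E)) τ k
  · exact div_nonneg (Nat.cast_nonneg _) (Nat.cast_nonneg _)

end Pool.Agent.T9h24
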