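import Mathlib
import Pool.Agent.T9h24.Exo
import Pool.Agent.T9h24.Glf

/-!
Local estimates: values of companions, bounds for determinants of generators.
-/

set_option autoImplicit false
set_option linter.unusedSectionVars false

open Finset MvPolynomial

namespace Pool.Agent.T9h24

variable {F : Type} [NormedField F] {n : ℕ}

theorem det_col_le {κ : Type} [Fintype κ] [DecidableEq κ] (A : Matrix κ κ F) (e : κ → ℝ)
    (h : ∀ i j, ‖A i j‖ ≤ e j) : ‖A.det‖ ≤ (Fintype.card κ).factorial * ∏ j, e j := by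
  rw [Matrix.det_apply]
  have hterm : ∀ π ∈ (Finset.univ : Finset (Equiv.Perm κ)),
      ‖Equiv.Perm.sign π • ∏ i, A (π i) i‖ ≤ ∏ j, e j := by
    intro π _
    have hsg : ‖Equiv.Perm.sign π • ∏ i, A (π i) i‖ = ∏ i, ‖A (π i) i‖ := by
      rw [← norm_prod]
      rcases Int.units_eq_one_or (Equiv.Perm.sign π) with h | h
      · rw [h, one_smul]
      · rw [h, Units.neg_smul, one_smul, norm_neg]
    rw [hsg]
    exact Finset.prod_le_prod (fun i _ => norm_nonneg _) fun i _ => h _ _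
  refine (norm_sum_le _ _).trans ((Finset.sum_le_sum hterm).trans (le_of_eq ?_))
  rw [Finset.sum_const, Finset.card_univ, Fintype.card_perm, nsmul_eq_mul]

theorem eval_sb (Λ : Fin (n + 1) → Fin (n + 1) → F) (θ : Fin (n + 1) → F)
    (P : MvPolynomial (Fin (n + 1)) F) :
    MvPolynomial.eval θ (sb Λ P) = MvPolynomial.eval (fun j => ∑ k, θ k * Λ k j) P := by
  have h1 : (MvPolynomial.eval θ).comp (sb Λ : MvPolynomial (Fin (n + 1)) F →+*
      MvPolynomial (Fin (n + 1)) F) = MvPolynomial.eval (fun j => ∑ k, θ k * Λ k j) := by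
    apply MvPolynomial.ringHom_ext
    · intro c
      simp only [RingHom.comp_apply, RingHom.coe_coe, sb_C, eval_C]
    · intro j
      simp only [RingHom.comp_apply, RingHom.coe_coe, sb_X, eval_X, map_sum, map_mul, eval_C]
      exact Finset.sum_congr rfl fun k _ => mul_comm _ _
  exact congrArg (fun φ : MvPolynomial (Fin (n + 1)) F →+* F => φ P) h1

theorem eval_Dm_le {P : MvPolynomial (Fin (n + 1)) F} {W : MvPolynomial (Fin (n + 1)) ℝ}
    (h : Dm P W) (θ : Fin (n + 1) → F) :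
    ‖MvPolynomial.eval θ P‖ ≤ MvPolynomial.eval (fun k => ‖θ k‖) W := by
  rw [MvPolynomial.eval_eq, MvPolynomial.eval_eq]
  refine (norm_sum_le _ _).trans ?_
  have h1 : P.support ⊆ W.support := by
    intro d hd
    rw [MvPolynomial.mem_support_iff] at hd ⊢
    intro h0
    have h2 := h d
    rw [h0] at h2
    exact hd (norm_le_zero_iff.1 h2)
  have h2 : ∀ d ∈ P.support, ‖P.coeff d * ∏ i ∈ d.support, θ i ^ d i‖ ≤
      W.coeff d * ∏ i ∈ d.support, ‖θ i‖ ^ d i := by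
    intro d _
    rw [norm_mul, norm_prod]
    simp only [norm_pow]
    exact mul_le_mul_of_nonneg_right (h d) (Finset.prod_nonneg fun i _ => by positivity)
  refine (Finset.sum_le_sum h2).trans (Finset.sum_le_sum_of_subset_of_nonneg h1 fun d _ _ => ?_)
  exact mul_nonneg (h.nonneg d) (Finset.prod_nonneg fun i _ => by positivity)

/-- values of companions -/
theorem eval_comp_le (Λ : Fin (n + 1) → Fin (n + 1) → F) (θ : Fin (n + 1) → F) {r : ℕ}
    {H : Type} [Fintype H] (ℓ : H → Fin (n + 1) → F) (y : Fin (NN n r) → F) (gg : F)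
    (hgg : gg ≠ 0) (hfac : C gg * PY F y = ∏ τ, ∑ j, C (ℓ τ j) * X j)
    (g : Fin (NN n r) → F) (R : ℝ) (hR : 0 ≤ R)
    (hcomp : ∀ a, ‖(sb Λ (PY F g)).coeff a‖ ≤ R * ‖(sb Λ (PY F y)).coeff a‖)
    (A : H → ℝ) (hA : ∀ τ k, ‖θ k‖ * ‖lf (Λ k) (ℓ τ)‖ ≤ A τ) :
    ‖MvPolynomial.eval (fun j => ∑ k, θ k * Λ k j) (PY F g)‖ ≤
      R * (‖gg‖⁻¹ * ∏ τ, (((n : ℝ) + 1) * A τ)) := by
  classical
  have hy : Dm (sb Λ (PY F y)) (C ‖gg‖⁻¹ * ∏ τ, ∑ k, C ‖lf (Λ k) (ℓ τ)‖ * X k) := by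
    have h1 : sb Λ (PY F y) = C gg⁻¹ * ∏ τ, ∑ k, C (lf (Λ k) (ℓ τ)) * X k := by
      have h2 : sb Λ (C gg * PY F y) = ∏ τ, ∑ k, C (lf (Λ k) (ℓ τ)) * X k := by
        rw [hfac, map_prod]
        exact Finset.prod_congr rfl fun τ _ => sb_lin Λ (ℓ τ)
      rw [map_mul, sb_C] at h2
      rw [← h2, ← mul_assoc, ← C_mul, inv_mul_cancel₀ hgg, C_1, one_mul]
    rw [h1]
    refine (Dm.C (by rw [norm_inv])).mul (Dm.prod _ _ _ fun τ _ => Dm.lin _ _ fun k => le_rfl)
  have hG : Dm (sb Λ (PY F g)) (C R * (C ‖gg‖⁻¹ * ∏ τ, ∑ k, C ‖lf (Λ k) (ℓ τ)‖ * X k)) := by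
    intro a
    rw [coeff_C_mul]
    exact (hcomp a).trans (mul_le_mul_of_nonneg_left (hy a) hR)
  rw [← eval_sb]
  refine (eval_Dm_le hG θ).trans (le_of_eq_of_le ?_ (mul_le_mul_of_nonneg_left
    (mul_le_mul_of_nonneg_left (Finset.prod_le_prod (f := fun τ => ∑ k, ‖lf (Λ k) (ℓ τ)‖ * ‖θ k‖)
      (fun τ _ => Finset.sum_nonneg fun k _ => by positivity) fun τ _ => ?_)
      (inv_nonneg.2 (norm_nonneg gg))) hR))
  · rw [map_mul, map_mul, eval_C, eval_C, map_prod]
    simp only [map_sum, map_mul, eval_C, eval_X]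
  · have h1 : ∀ k ∈ (Finset.univ : Finset (Fin (n + 1))), ‖lf (Λ k) (ℓ τ)‖ * ‖θ k‖ ≤ A τ :=
      fun k _ => by
        rw [mul_comm]
        exact hA τ k
    refine (Finset.sum_le_sum h1).trans (le_of_eq ?_)
    rw [Finset.sum_const, Finset.card_univ, Fintype.card_fin, nsmul_eq_mul]
    push_cast
    ring

variable {ι : Type} [Fintype ι] {L : ι → Fin (n + 1) → F} {B : ℝ}

theorem genO_entry {H : Type} {ℓ : H → Fin (n + 1) → F} (d : ∀ τ, PtD L B (ℓ τ)) {B' : ℝ}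
    (hB' : ∀ i j, ‖psi L i j‖ ≤ B') (hB : 1 ≤ B) (hB1 : 1 ≤ B') (o : Option H)
    (k j : Fin (n + 1)) : ‖genO d o k j‖ ≤ B * B' := by
  rcases o with _ | τ
  · show ‖(Pi.single k (1 : F) : Fin (n + 1) → F) j‖ ≤ B * B'
    have h1 : (1 : ℝ) ≤ B * B' := one_le_mul_of_one_le_of_one_le hB hB1
    rw [Pi.single_apply]
    split_ifs
    · rw [norm_one]
      exact h1
    · rw [norm_zero]
      linarith
  · exact (d τ).gen_le hB' (by linarith) k j

theorem Mx_upper {H : Type} {ℓ : H → Fin (n + 1) → F} (d : ∀ τ, PtD L B (ℓ τ)) {B' : ℝ}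
    (hB' : ∀ i j, ‖psi L i j‖ ≤ B') (hB : 1 ≤ B) (hB1 : 1 ≤ B') (c : Fin (n + 1) → Option H) :
    Mx (genO d) c ≤ (n + 1).factorial * (B * B') ^ (n + 1) := by
  refine Mx_le _ _ _ fun k => ?_
  have h1 := det_col_le (Matrix.of fun l => genO d (c l) (k l)) (fun _ => B * B')
    fun i j => genO_entry d hB' hB hB1 _ _ _
  rw [Finset.prod_const, Finset.card_univ, Fintype.card_fin] at h1
  exact h1

/-- replacing trivial types -/
theorem Mx_some_le {H : Type} {ℓ : H → Fin (n + 1) → F} (d : ∀ τ, PtD L B (ℓ τ)) {B' : ℝ}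
    (hB' : ∀ i j, ‖psi L i j‖ ≤ B') (hB : 1 ≤ B) (hB1 : 1 ≤ B') (τ0 : H)
    (c : Fin (n + 1) → Option H) :
    Mx (genO d) (fun l => some ((c l).getD τ0)) ≤
      (((n : ℝ) + 1) * (B * B')) ^ (n + 1) * Mx (genO d) c := by
  classical
  have h1 : (1 : ℝ) ≤ B * B' := one_le_mul_of_one_le_of_one_le hB hB1
  refine Mx_mono _ _ _ _ _ (by linarith) fun l k => ?_
  rcases hc : c l with _ | τ
  · refine ⟨genO d (some τ0) k, fun κ => genO_entry d hB' hB hB1 _ _ _, ?_⟩
    funext j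
    show genO d (some τ0) k j = ∑ κ, genO d (some τ0) k κ * (Pi.single κ (1 : F) : _ → F) j
    simp only [Pi.single_apply, mul_ite, mul_one, mul_zero]
    simp
  · refine ⟨Pi.single k 1, fun κ => ?_, ?_⟩
    · rw [Pi.single_apply]
      split_ifs
      · rw [norm_one]
        exact h1
      · rw [norm_zero]
        linarith
    · funext j
      simp only [Option.getD_some, Pi.single_apply, ite_mul, one_mul, zero_mul]
      simp

/-- **Generators and matchings.** -/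
theorem Mx_matching {H : Type} [Fintype H] [DecidableEq H] {ℓ : H → Fin (n + 1) → F}
    (d : ∀ τ, PtD L B (ℓ τ)) {B' : ℝ} (hL : ∀ i, ‖L i‖ ≤ B)
    (hB' : ∀ i p, ‖lf (L i) (psi L p)‖ ≤ B') (hB : 1 ≤ B) (hB1 : 1 ≤ B')
    (hℓ : ∀ τ, ℓ τ ≠ 0) (Λ : Fin (n + 1) → ι)
    (σ : Fin (n + 1) → H) :
    ‖(Matrix.of fun k => L (Λ k)).det‖ * Mx (genO d) (fun l => some (σ l)) ≤
      (n + 1).factorial * (B' * B) ^ (n + 1) *
        Real.exp (-(td (fun τ k => lamH (L (Λ k)) (ℓ τ)) σ)) := by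
  classical
  obtain ⟨k, hk⟩ := exists_Mx (genO d) (fun l => some (σ l))
  have h1 : ‖(Matrix.of fun k => L (Λ k)).det‖ * Mx (genO d) (fun l => some (σ l)) =
      ‖(Matrix.of fun i l => lf (L (Λ i)) ((d (σ l)).gen (k l))).det‖ := by
    rw [hk, ← norm_mul, ← Matrix.det_transpose (Matrix.of fun l => genO d (some (σ l)) (k l)),
      ← Matrix.det_mul]
    congr 2
  rw [h1, Matrix.det_apply]
  have hs : ∀ τ i, ‖(d τ).s i‖ ≤ B * Real.exp (-(lamH (L i) (ℓ τ))) := by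
    intro τ i
    by_cases h0 : lf (L i) (ℓ τ) = 0
    · unfold lamH
      rw [h0, norm_zero, div_zero, Real.log_zero, neg_zero, Real.exp_zero, mul_one]
      exact (d τ).s_le i
    · have h2 := (d τ).s_eq i h0
      have h3 : 0 < ‖lf (L i) (ℓ τ)‖ := norm_pos_iff.2 h0
      have h4 : 0 < ‖ℓ τ‖ := norm_pos_iff.2 (hℓ τ)
      have h5 : 0 < ‖L i‖ := by
        by_contra hcon
        have h6 : L i = 0 := norm_le_zero_iff.1 (not_lt.1 hcon)
        apply h0
        rw [h6]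
        unfold lf
        simp
      have h6 : Real.exp (-(lamH (L i) (ℓ τ))) = ‖lf (L i) (ℓ τ)‖ / (‖L i‖ * ‖ℓ τ‖) := by
        unfold lamH
        rw [Real.exp_neg, Real.exp_log (div_pos (mul_pos h5 h4) h3), inv_div]
      rw [h6, h2, mul_div_assoc', div_le_div_iff₀ h4 (mul_pos h5 h4)]
      have h7 := mul_le_mul_of_nonneg_right (hL i) (mul_nonneg h3.le h4.le)
      linarith
  have hterm : ∀ π ∈ (Finset.univ : Finset (Equiv.Perm (Fin (n + 1)))),
      ‖Equiv.Perm.sign π • ∏ l, (Matrix.of fun i l => lf (L (Λ i)) ((d (σ l)).gen (k l)))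
        (π l) l‖ ≤ (B' * B) ^ (n + 1) *
        Real.exp (-(td (fun τ k => lamH (L (Λ k)) (ℓ τ)) σ)) := by
    intro π _
    have hsg : ‖Equiv.Perm.sign π • ∏ l, (Matrix.of fun i l =>
        lf (L (Λ i)) ((d (σ l)).gen (k l))) (π l) l‖ =
        ∏ l, ‖lf (L (Λ (π l))) ((d (σ l)).gen (k l))‖ := by
      rw [← norm_prod]
      rcases Int.units_eq_one_or (Equiv.Perm.sign π) with h | h
      · rw [h, one_smul]
        rfl
      · rw [h, Units.neg_smul, one_smul, norm_neg]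
        rfl
    rw [hsg]
    have h2 : ∏ l, ‖lf (L (Λ (π l))) ((d (σ l)).gen (k l))‖ ≤
        ∏ l, (B' * (B * Real.exp (-(lamH (L (Λ (π l))) (ℓ (σ l)))))) := by
      refine Finset.prod_le_prod (fun l _ => norm_nonneg _) fun l _ => ?_
      refine ((d (σ l)).lf_gen_le hB' (by linarith) (Λ (π l)) (k l)).trans ?_
      exact mul_le_mul_of_nonneg_left (hs _ _) (by linarith)
    refine h2.trans ?_
    have h3 : ∏ l, (B' * (B * Real.exp (-(lamH (L (Λ (π l))) (ℓ (σ l)))))) =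
        (B' * B) ^ (n + 1) * Real.exp (-∑ l, lamH (L (Λ (π l))) (ℓ (σ l))) := by
      simp only [← mul_assoc]
      rw [Finset.prod_mul_distrib, Finset.prod_const, Finset.card_univ, Fintype.card_fin,
        ← Real.exp_sum, Finset.sum_neg_distrib]
    rw [h3]
    refine mul_le_mul_of_nonneg_left (Real.exp_le_exp.2 ?_) (by positivity)
    rw [neg_le_neg_iff]
    exact td_le (fun τ k => lamH (L (Λ k)) (ℓ τ)) σ π
  refine (norm_sum_le _ _).trans ((Finset.sum_le_sum hterm).trans (le_of_eq ?_))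
  rw [Finset.sum_const, Finset.card_univ, Fintype.card_perm, Fintype.card_fin, nsmul_eq_mul]
  ring

end Pool.Agent.T9h24
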