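import Mathlib
import Pool.Agent.T9h24.Lce

/-!
The matrix of values of products of companions.
-/

set_option autoImplicit false
set_option linter.unusedSectionVars false

open Finset MvPolynomial

namespace Pool.Agent.T9h24

variable {F : Type} [NormedField F] {n m : ℕ}

/-- the vectors given by generators and integral coefficients -/
noncomputable def YY {T : Type} (gen : T → Fin (n + 1) → Fin (n + 1) → F) (ty : Fin m → T)
    {R : ℕ} (t : Fin m → Fin (n + 1) → Fin (R + 1)) (y : Fin m) : Fin (n + 1) → F :=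
  fun j => ∑ k, ((((t y k : ℕ) : ℤ)) : F) * gen (ty y) k j

theorem norm_cast_le {R : ℕ} (t : Fin (R + 1)) : ‖((((t : ℕ) : ℤ)) : F)‖ ≤ (R : ℝ) + 1 := by
  have h1 := Nat.norm_cast_le (α := F) (t : ℕ)
  rw [norm_one, mul_one] at h1
  have h2 : ((t : ℕ) : ℝ) ≤ (R : ℝ) + 1 := by
    have := t.2
    exact_mod_cast this.le
  have h3 : ((((t : ℕ) : ℤ)) : F) = ((t : ℕ) : F) := by push_cast; rfl
  rw [h3]
  exact h1.trans h2

theorem nd_YY_le {T : Type} (gen : T → Fin (n + 1) → Fin (n + 1) → F) (ty : Fin m → T)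
    {R : ℕ} (t : Fin m → Fin (n + 1) → Fin (R + 1)) (c : Bs m (n + 1)) :
    nd (YY gen ty t) c ≤ (((n : ℝ) + 1) * ((R : ℝ) + 1)) ^ (n + 1) *
      Mx gen (fun l => ty (en c l)) := by
  unfold nd YY
  exact det_expand_le (fun l k => ((((t (en c l) k : ℕ) : ℤ)) : F))
    (fun l => gen (ty (en c l))) ((R : ℝ) + 1) _ (by positivity)
    (fun l k => norm_cast_le _) fun k => le_Mx gen (fun l => ty (en c l)) k

theorem dv_YY_le {T : Type} (gen : T → Fin (n + 1) → Fin (n + 1) → F) (ty : Fin m → T)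
    {R : ℕ} (t : Fin m → Fin (n + 1) → Fin (R + 1)) (b : Bs m n) (o : T) (k : Fin (n + 1)) :
    ‖dv (gen o k) (wb (YY gen ty t) b)‖ ≤ (((n : ℝ) + 1) * ((R : ℝ) + 1)) ^ (n + 1) *
      Mx gen (Fin.cons o (fun l => ty (en b l)) : Fin (n + 1) → T) := by
  unfold dv
  set c : Fin (n + 1) → T := Fin.cons o (fun l => ty (en b l)) with hc
  set tt : Fin (n + 1) → Fin (n + 1) → F := Fin.cons (Pi.single k 1)
    (fun l κ => ((((t (en b l) κ : ℕ) : ℤ)) : F)) with htt
  have h1 : (Fin.cons (gen o k) (wb (YY gen ty t) b) : Fin (n + 1) → Fin (n + 1) → F) =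
      fun l j => ∑ κ, tt l κ * gen (c l) κ j := by
    funext l j
    refine Fin.cases ?_ (fun l => ?_) l
    · show gen o k j = ∑ κ, (Pi.single k (1 : F) : _ → F) κ * gen o κ j
      simp only [Pi.single_apply, ite_mul, one_mul, zero_mul]
      simp
    · rfl
  rw [h1]
  refine det_expand_le tt (fun l => gen (c l)) ((R : ℝ) + 1) _ (by positivity) (fun l κ => ?_)
    fun k => le_Mx gen c k
  refine Fin.cases ?_ (fun l => ?_) l
  · show ‖(Pi.single k (1 : F) : _ → F) κ‖ ≤ (R : ℝ) + 1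
    have : (0 : ℝ) ≤ R := Nat.cast_nonneg R
    rw [Pi.single_apply]
    split_ifs
    · rw [norm_one]
      linarith
    · rw [norm_zero]
      linarith
  · exact norm_cast_le _

theorem Mx_ins {T : Type} (gen : T → Fin (n + 1) → Fin (n + 1) → F) (ty : Fin m → T)
    (b : Bs m n) {y : Fin m} (h : y ∉ b.1) :
    Mx gen (Fin.cons (ty y) (fun l => ty (en b l)) : Fin (n + 1) → T) =
      Mx gen (fun l => ty (en (ins b h) l)) := by
  have h1 : (Fin.cons (ty y) (fun l => ty (en b l)) : Fin (n + 1) → T) =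
      fun l => ty ((Fin.cons y (en b) : Fin (n + 1) → Fin m) l) := by
    funext l
    refine Fin.cases ?_ (fun l => ?_) l
    · rfl
    · rfl
  rw [h1]
  refine Mx_perm gen ty _ _ ?_ ?_
  · intro l l'
    refine Fin.cases ?_ (fun l => ?_) l
    · refine Fin.cases (fun _ => rfl) (fun l' => ?_) l'
      intro hl
      simp only [Fin.cons_zero, Fin.cons_succ] at hl
      exact absurd (hl ▸ en_mem b l') h
    · refine Fin.cases ?_ (fun l' => ?_) l'
      · intro hl
        simp only [Fin.cons_zero, Fin.cons_succ] at hl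
        exact absurd (hl ▸ en_mem b l) h
      · intro hl
        simp only [Fin.cons_succ] at hl
        rw [en_inj b hl]
  · intro l
    refine exists_en (ins b h) ?_
    refine Fin.cases ?_ (fun l => ?_) l
    · exact Finset.mem_insert_self _ _
    · exact Finset.mem_insert_of_mem (en_mem b l)

/-- the type of a label -/
def tyO {H : Type} {j m1 : ℕ} (lab : Fin m ≃ ((Fin j × H) ⊕ Fin m1)) (y : Fin m) : Option H :=
  Sum.elim (fun p => some p.2) (fun _ => none) (lab y)

theorem prod_tyO {H : Type} [Fintype H] {j m1 : ℕ} (lab : Fin m ≃ ((Fin j × H) ⊕ Fin m1))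
    (f : Option H → ℝ) :
    ∏ y, f (tyO lab y) = (∏ τ, f (some τ)) ^ j * f none ^ m1 := by
  unfold tyO
  rw [Equiv.prod_comp lab (fun p => f (Sum.elim (fun p => some p.2) (fun _ => none) p)),
    Fintype.prod_sum_type]
  congr 1
  · rw [Fintype.prod_prod_type]
    simp only [Sum.elim_inl]
    rw [Finset.prod_const, Finset.card_univ, Fintype.card_fin]
  · simp only [Sum.elim_inr]
    rw [Finset.prod_const, Finset.card_univ, Fintype.card_fin]

variable {ι : Type} [Fintype ι] {L : ι → Fin (n + 1) → F} {B : ℝ}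

/-- the value of a product of companions and a monomial at a vector of minors -/
theorem eval_prod_le {H : Type} [Fintype H] {ℓ : H → Fin (n + 1) → F}
    (d : ∀ τ, PtD L B (ℓ τ)) {B' : ℝ} (hB' : ∀ p γ k, ‖lf (psi L p) (QQ L γ k)‖ ≤ B')
    {r j m0 : ℕ} (y : Fin (NN n r) → F) (gg : F) (hgg : gg ≠ 0)
    (hfac : C gg * PY F y = ∏ τ, ∑ j, C (ℓ τ j) * X j)
    {k0 : ℕ} (g : Fin k0 → Fin (NN n r) → F) (R : ℝ) (hR : 0 ≤ R)
    (hcomp : ∀ k γ a, ‖(sb (QQ L γ) (PY F (g k))).coeff a‖ ≤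
      R * ‖(sb (QQ L γ) (PY F y)).coeff a‖)
    (κ : Fin j → Fin k0) (a : AD n m0) (q : Fin (n + 1) → F) (μ : Option H → ℝ)
    (hq : ∀ o k, ‖lf (genO d o k) q‖ ≤ μ o) :
    ‖MvPolynomial.eval q ((∏ i', PY F (g (κ i'))) * monomial (a : Fin (n + 1) →₀ ℕ) (1 : F))‖ ≤
      (R * (‖gg‖⁻¹ * ∏ τ, (((n : ℝ) + 1) * (((n : ℝ) + 1) * B' * μ (some τ) * ‖ℓ τ‖)))) ^ j *
        μ none ^ m0 := by
  obtain ⟨γ, θ, hqe, hA⟩ := expansion d B' hB' q μ hq
  have hμ : ∀ o, 0 ≤ μ o := fun o => (norm_nonneg _).trans (hq o 0)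
  have hB0 : 0 ≤ B' := (norm_nonneg _).trans (hB' (Sum.inl 0) γ 0)
  rw [map_mul, norm_mul, map_prod, norm_prod]
  refine mul_le_mul ?_ ?_ (norm_nonneg _) ?_
  · have h1 : ∀ i' ∈ (Finset.univ : Finset (Fin j)), ‖MvPolynomial.eval q (PY F (g (κ i')))‖ ≤
        R * (‖gg‖⁻¹ * ∏ τ, (((n : ℝ) + 1) * (((n : ℝ) + 1) * B' * μ (some τ) * ‖ℓ τ‖))) := by
      intro i' _
      rw [hqe]
      exact eval_comp_le (QQ L γ) θ ℓ y gg hgg hfac (g (κ i')) R hR (hcomp (κ i') γ) _ hA
    refine (Finset.prod_le_prod (fun i' _ => norm_nonneg _) h1).trans (le_of_eq ?_)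
    rw [Finset.prod_const, Finset.card_univ, Fintype.card_fin]
  · rw [eval_monomial, one_mul, Finsupp.prod_fintype _ _ fun j => pow_zero _, norm_prod]
    have h1 : ∀ k ∈ (Finset.univ : Finset (Fin (n + 1))),
        ‖q k ^ (a : Fin (n + 1) →₀ ℕ) k‖ ≤ μ none ^ (a : Fin (n + 1) →₀ ℕ) k := by
      intro k _
      rw [norm_pow]
      refine pow_le_pow_left₀ (norm_nonneg _) ?_ _
      have h2 := hq none k
      have h3 : lf (genO d none k) q = q k := by
        show ∑ j, (Pi.single k (1 : F) : _ → F) j * q j = q k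
        simp only [Pi.single_apply, ite_mul, one_mul, zero_mul]
        simp
      rwa [h3] at h2
    refine (Finset.prod_le_prod (fun k _ => norm_nonneg _) h1).trans (le_of_eq ?_)
    rw [Finset.prod_pow_eq_pow_sum]
    congr 1
    have h3 := mem_AD.1 a.2
    rw [Finsupp.degree_eq_sum] at h3
    exact h3
  · refine pow_nonneg (mul_nonneg hR (mul_nonneg (inv_nonneg.2 (norm_nonneg _))
      (Finset.prod_nonneg fun τ _ => ?_))) _
    have := hμ (some τ)
    positivity

end Pool.Agent.T9h24
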