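import Mathlib
import Pool.Agent.T9h24.Lcx

/-!
The local estimate with frames depending on the points.
-/

set_option autoImplicit false
set_option linter.unusedSectionVars false

open Finset MvPolynomial

namespace Pool.Agent.T9h24

variable {F : Type} [NormedField F] {n : ℕ} {ι : Type} [Fintype ι] {L : ι → Fin (n + 1) → F}
  {B : ℝ}

/-- the entries of the matrix of interpolation -/
theorem entry_le {H : Type} [Fintype H] {ℓ : H → Fin (n + 1) → F}
    (d : ∀ τ, PtD L B (ℓ τ)) (hB1 : 1 ≤ B) (hB' : ∀ p γ k, ‖lf (psi L p) (QQ L γ k)‖ ≤ B)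
    {r j m0 D : ℕ} (hH : Fintype.card H = r)
    (lab : Fin (D + n) ≃ ((Fin j × H) ⊕ Fin (m0 + n)))
    {Rn : ℕ} (t : Fin (D + n) → Fin (n + 1) → Fin (Rn + 1)) (δ : ℝ) (hδ : 0 < δ)
    (hnd : ∀ c : Bs (D + n) (n + 1), δ * Mx (genO d) (fun l => tyO lab (en c l)) ≤
      nd (YY (genO d) (tyO lab) t) c) (CR CM : ℝ)
    (hCR : (((n : ℝ) + 1) * ((Rn : ℝ) + 1)) ^ (n + 1) = CR)
    (hCM : ∀ c, Mx (genO d) c ≤ CM)
    (y : Fin (NN n r) → F) (gg : F) (hgg : gg ≠ 0)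
    (hfac : C gg * PY F y = ∏ τ, ∑ j, C (ℓ τ j) * X j)
    {k0 : ℕ} (g : Fin k0 → Fin (NN n r) → F) (R : ℝ) (hR : 0 ≤ R)
    (hcomp : ∀ k γ a, ‖(sb (QQ L γ) (PY F (g k))).coeff a‖ ≤
      R * ‖(sb (QQ L γ) (PY F y)).coeff a‖)
    (κ : Fin j → Fin k0) (a : AD n m0) (b : Bs (D + n) n) :
    ‖MvPolynomial.eval (qv (wb (YY (genO d) (tyO lab) t) b))
        ((∏ i', PY F (g (κ i'))) * monomial (a : Fin (n + 1) →₀ ℕ) (1 : F)) /
      ∏ y ∈ b.1ᶜ, dv (YY (genO d) (tyO lab) t y) (wb (YY (genO d) (tyO lab) t) b)‖ ≤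
      ((((n : ℝ) + 1) * (((n : ℝ) + 1) * B * CR)) ^ r) ^ j * CR ^ m0 * CM ^ n / δ ^ D *
        (R * (‖gg‖⁻¹ * ∏ τ, ‖ℓ τ‖)) ^ j /
        Mx (genO d) (Fin.cons none (fun l => tyO lab (en b l)) : Fin (n + 1) → Option H) ^ n := by
  classical
  set Y := YY (genO d) (tyO lab) t with hY
  set Mb : Option H → ℝ := fun o =>
    Mx (genO d) (Fin.cons o (fun l => tyO lab (en b l)) : Fin (n + 1) → Option H) with hMb
  have hMb0 : ∀ o, 0 < Mb o := fun o => Mx_pos _ (det_genO d) _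
  have hCR0 : 0 < CR := by
    rw [← hCR]
    positivity
  have hq : ∀ o k, ‖lf (genO d o k) (qv (wb Y b))‖ ≤ CR * Mb o := by
    intro o k
    have h1 : lf (genO d o k) (qv (wb Y b)) = dv (genO d o k) (wb Y b) := (dv_eq _ _).symm
    rw [h1, ← hCR]
    exact dv_YY_le (genO d) (tyO lab) t b o k
  have hnum := eval_prod_le d hB' y gg hgg hfac g R hR hcomp κ a (qv (wb Y b))
    (fun o => CR * Mb o) hq
  set Bb : ℝ := R * (‖gg‖⁻¹ * ∏ τ, ‖ℓ τ‖) with hBb
  set Kq : ℝ := (((n : ℝ) + 1) * (((n : ℝ) + 1) * B * CR)) ^ r with hKq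
  have e1 : (R * (‖gg‖⁻¹ * ∏ τ, (((n : ℝ) + 1) * (((n : ℝ) + 1) * B * (CR * Mb (some τ)) *
      ‖ℓ τ‖)))) = Bb * Kq * ∏ τ, Mb (some τ) := by
    have e2 : ∏ τ, (((n : ℝ) + 1) * (((n : ℝ) + 1) * B * (CR * Mb (some τ)) * ‖ℓ τ‖)) =
        Kq * (∏ τ, Mb (some τ)) * ∏ τ, ‖ℓ τ‖ := by
      rw [hKq, ← hH, ← Finset.card_univ, ← Finset.prod_const, ← Finset.prod_mul_distrib,
        ← Finset.prod_mul_distrib]
      exact Finset.prod_congr rfl fun τ _ => by ring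
    rw [e2, hBb]
    ring
  rw [e1] at hnum
  -- the denominator
  set Pc : ℝ := ∏ y ∈ b.1ᶜ, Mb (tyO lab y) with hPc
  have hPc0 : 0 < Pc := Finset.prod_pos fun y _ => hMb0 _
  have hcard : (b.1ᶜ).card = D := by
    rw [Finset.card_compl, Fintype.card_fin, b.2]
    omega
  have hden : δ ^ D * Pc ≤ ‖∏ y ∈ b.1ᶜ, dv (Y y) (wb Y b)‖ := by
    have hδD : δ ^ D = ∏ _y ∈ b.1ᶜ, δ := by
      rw [Finset.prod_const, hcard]
    rw [norm_prod, hPc, hδD, ← Finset.prod_mul_distrib]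
    refine Finset.prod_le_prod (fun y _ => mul_nonneg hδ.le (hMb0 _).le) fun y hy => ?_
    have hyb : y ∉ b.1 := Finset.mem_compl.1 hy
    rw [nd_ins Y b hyb]
    refine le_trans (le_of_eq ?_) (hnd (ins b hyb))
    rw [hMb]
    simp only
    rw [Mx_ins (genO d) (tyO lab) b hyb]
  have hden0 : 0 < δ ^ D * Pc := mul_pos (pow_pos hδ _) hPc0
  have hBb0 : 0 ≤ Bb := by
    rw [hBb]
    exact mul_nonneg hR (mul_nonneg (inv_nonneg.2 (norm_nonneg _))
      (Finset.prod_nonneg fun τ _ => norm_nonneg _))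
  have hKq0 : 0 ≤ Kq := by
    rw [hKq]
    have : 0 ≤ B := by linarith
    positivity
  rw [norm_div]
  refine (div_le_div₀ ?_ hnum hden0 hden).trans ?_
  · exact mul_nonneg (pow_nonneg (mul_nonneg (mul_nonneg hBb0 hKq0)
      (Finset.prod_nonneg fun τ _ => (hMb0 _).le)) _) (pow_nonneg (mul_nonneg hCR0.le
      (hMb0 _).le) _)
  have hMn : 0 < Mb none ^ n := pow_pos (hMb0 none) n
  rw [div_le_div_iff₀ hden0 hMn]
  have hall := prod_tyO lab Mb
  have hsplit : ∏ y, Mb (tyO lab y) = (∏ y ∈ b.1, Mb (tyO lab y)) * Pc :=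
    (Finset.prod_mul_prod_compl b.1 (fun y => Mb (tyO lab y))).symm
  have hb : ∏ y ∈ b.1, Mb (tyO lab y) ≤ CM ^ n := by
    have h1 : ∏ y ∈ b.1, Mb (tyO lab y) ≤ ∏ _y ∈ b.1, CM :=
      Finset.prod_le_prod (fun y _ => (hMb0 _).le) fun y _ => hCM _
    rwa [Finset.prod_const, b.2] at h1
  have e3 : (Bb * Kq * ∏ τ, Mb (some τ)) ^ j * (CR * Mb none) ^ m0 * Mb none ^ n =
      Bb ^ j * Kq ^ j * CR ^ m0 * ((∏ τ, Mb (some τ)) ^ j * Mb none ^ (m0 + n)) := by
    rw [mul_pow, mul_pow, mul_pow, pow_add]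
    ring
  have e4 : Kq ^ j * CR ^ m0 * CM ^ n / δ ^ D * Bb ^ j * (δ ^ D * Pc) =
      Bb ^ j * Kq ^ j * CR ^ m0 * (CM ^ n * Pc) := by
    have hδD : δ ^ D ≠ 0 := (pow_pos hδ D).ne'
    field_simp
  rw [e3, e4, ← hall, hsplit]
  refine mul_le_mul_of_nonneg_left (mul_le_mul_of_nonneg_right hb hPc0.le) ?_
  exact mul_nonneg (mul_nonneg (pow_nonneg hBb0 _) (pow_nonneg hKq0 _)) (pow_nonneg hCR0.le _)

/-- the labels with different copies -/
theorem prod_copies {H : Type} [Fintype H] [DecidableEq H] {m j m1 : ℕ}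
    (lab : Fin m ≃ ((Fin j × H) ⊕ Fin m1)) (gen : Option H → Fin (n + 1) → Fin (n + 1) → F)
    (CM : ℝ) (hCM0 : 0 < CM) (hCM : ∀ c, Mx gen c ≤ CM) :
    ∏ c : Bs m (n + 1), (Mx gen (fun l => tyO lab (en c l)) / CM) ≤
      (∏ σ : Fin (n + 1) → H, (Mx gen (fun l => some (σ l)) / CM)) ^ (j.choose (n + 1)) := by
  classical
  have hv : ∀ p : Bs j (n + 1) × (Fin (n + 1) → H), Function.Injective
      (fun l => lab.symm (Sum.inl (en p.1 l, p.2 l))) := by
    intro p l l' h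
    have h1 := Sum.inl.inj (lab.symm.injective h)
    exact en_inj p.1 (Prod.ext_iff.1 h1).1
  set cc : Bs j (n + 1) × (Fin (n + 1) → H) → Bs m (n + 1) := fun p =>
    ⟨Finset.univ.image (fun l => lab.symm (Sum.inl (en p.1 l, p.2 l))), by
      rw [Finset.card_image_of_injective _ (hv p), Finset.card_univ, Fintype.card_fin]⟩ with hcc
  have hmem : ∀ p l, lab.symm (Sum.inl (en p.1 l, p.2 l)) ∈ (cc p).1 := fun p l =>
    Finset.mem_image_of_mem _ (Finset.mem_univ l)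
  have hinj : Function.Injective cc := by
    rintro ⟨S, σ⟩ ⟨S', σ'⟩ h
    have h1 : ∀ l, ∃ l', en S' l' = en S l ∧ σ' l' = σ l := by
      intro l
      have h2 := hmem (S, σ) l
      rw [h] at h2
      obtain ⟨l', -, hl'⟩ := Finset.mem_image.1 h2
      have h3 := Sum.inl.inj (lab.symm.injective hl')
      exact ⟨l', (Prod.ext_iff.1 h3).1, (Prod.ext_iff.1 h3).2⟩
    have h2 : S = S' := by
      have h3 : S.1 ⊆ S'.1 := by
        intro i hi
        obtain ⟨l, rfl⟩ := exists_en S hi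
        obtain ⟨l', hl', -⟩ := h1 l
        rw [← hl']
        exact en_mem S' l'
      exact Subtype.ext (Finset.eq_of_subset_of_card_le h3 (by rw [S.2, S'.2]))
    subst h2
    have h3 : σ = σ' := by
      funext l
      obtain ⟨l', hl', hσ⟩ := h1 l
      rw [← hσ, en_inj S hl']
    rw [h3]
  have hty : ∀ p, Mx gen (fun l => tyO lab (en (cc p) l)) =
      Mx gen (fun l => some (p.2 l)) := by
    intro p
    have h1 := Mx_perm gen (tyO lab) (fun l => lab.symm (Sum.inl (en p.1 l, p.2 l)))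
      (en (cc p)) (hv p) (fun l => exists_en (cc p) (hmem p l))
    rw [← h1]
    congr 1
    funext l
    unfold tyO
    rw [Equiv.apply_symm_apply]
    rfl
  have h0 : ∀ c, 0 ≤ Mx gen (fun l => tyO lab (en c l)) / CM := fun c =>
    div_nonneg (Mx_nonneg _ _) hCM0.le
  have h1 : ∀ c : Bs m (n + 1), Mx gen (fun l => tyO lab (en c l)) / CM ≤ 1 := fun c =>
    (div_le_one hCM0).2 (hCM _)
  set f : Bs m (n + 1) → ℝ := fun c => Mx gen (fun l => tyO lab (en c l)) / CM with hf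
  have h2 : ∏ c, f c ≤ ∏ c ∈ Finset.univ.image cc, f c := by
    rw [← Finset.prod_mul_prod_compl (Finset.univ.image cc) f]
    refine mul_le_of_le_one_right (Finset.prod_nonneg fun c _ => h0 c) ?_
    exact Finset.prod_le_one (fun c _ => h0 c) fun c _ => h1 c
  refine h2.trans (le_of_eq ?_)
  rw [Finset.prod_image fun p _ p' _ h => hinj h, Fintype.prod_prod_type]
  have h3 : ∀ (S : Bs j (n + 1)) (σ : Fin (n + 1) → H), f (cc (S, σ)) =
      Mx gen (fun l => some (σ l)) / CM := by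
    intro S σ
    rw [hf]
    simp only
    rw [hty (S, σ)]
  simp only [h3]
  rw [Finset.prod_const, Finset.card_univ, Fintype.card_finset_len, Fintype.card_fin]

end Pool.Agent.T9h24
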