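import Mathlib
import Pool.Agent.T9h24.Lcf

/-!
The local estimate with frames depending on the points: the determinant.
-/

set_option autoImplicit false
set_option linter.unusedSectionVars false

open Finset MvPolynomial

namespace Pool.Agent.T9h24

variable {F : Type} [NormedField F] {n : ℕ} {ι : Type} [Fintype ι] {L : ι → Fin (n + 1) → F}
  {B : ℝ}

/-- logarithms of the final estimate -/
theorem log_final {Δ Nf K4 Bb PV κs CC : ℝ} {j n N M ch : ℕ} (hΔ : 0 < Δ) (hNf : 0 < Nf)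
    (hK4 : 0 < K4) (hBb : 0 < Bb) (hPV : 0 < PV) (hκs : 0 < κs) (hCC : 0 < CC)
    (h : Δ ≤ Nf * (K4 * Bb ^ j * (PV ^ n)⁻¹) ^ N * (κs * (CC ^ M * PV ^ ch))) :
    Real.log Δ ≤ N * (j * Real.log Bb) + (Real.log Nf + N * Real.log K4 + Real.log κs +
      M * Real.log CC) + ((ch : ℝ) - n * N) * Real.log PV := by
  have h1 := Real.log_le_log hΔ h
  have e1 : Bb ^ j ≠ 0 := (pow_pos hBb j).ne'
  have e2 : (PV ^ n)⁻¹ ≠ 0 := inv_ne_zero (pow_pos hPV n).ne'
  have e3 : K4 * Bb ^ j ≠ 0 := mul_ne_zero hK4.ne' e1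
  have e4 : (K4 * Bb ^ j * (PV ^ n)⁻¹) ^ N ≠ 0 := pow_ne_zero _ (mul_ne_zero e3 e2)
  have e5 : CC ^ M ≠ 0 := (pow_pos hCC M).ne'
  have e6 : PV ^ ch ≠ 0 := (pow_pos hPV ch).ne'
  have e7 : κs * (CC ^ M * PV ^ ch) ≠ 0 := mul_ne_zero hκs.ne' (mul_ne_zero e5 e6)
  rw [Real.log_mul (mul_ne_zero hNf.ne' e4) e7, Real.log_mul hNf.ne' e4, Real.log_pow,
    Real.log_mul e3 e2, Real.log_mul hK4.ne' e1, Real.log_pow, Real.log_inv, Real.log_pow,
    Real.log_mul hκs.ne' (mul_ne_zero e5 e6), Real.log_mul e5 e6, Real.log_pow,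
    Real.log_pow] at h1
  refine h1.trans (le_of_eq ?_)
  ring

/-- **The bound for the determinant.** -/
theorem det_place {H : Type} [Fintype H] [DecidableEq H] [Nonempty H] {ℓ : H → Fin (n + 1) → F}
    (d : ∀ τ, PtD L B (ℓ τ)) (hB1 : 1 ≤ B) (hpsi : ∀ i j, ‖psi L i j‖ ≤ B)
    (hB' : ∀ p γ k, ‖lf (psi L p) (QQ L γ k)‖ ≤ B)
    {r j m0 D : ℕ} (hH : Fintype.card H = r) (hD : D = j * r + m0)
    (φ : Bs (D + n) n ≃ Fin (NN n D)) (κs : ℝ) (hκs : 0 < κs)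
    (hstar : ∀ Y : Fin (D + n) → Fin (n + 1) → F, GoodY Y →
      ‖(MM φ Y).det‖ = κs * ∏ c : Bs (D + n) (n + 1), nd Y c)
    {Rn : ℕ} (δ : ℝ) (hδ : 0 < δ)
    (hper : ∀ g : Fin (D + n) → Fin (n + 1) → Fin (n + 1) → F,
      ∃ t : Fin (D + n) → Fin (n + 1) → Fin (Rn + 1), ∀ c : Bs (D + n) (n + 1),
        δ * Mx g (en c) ≤ nd (fun y j => ∑ k, ((((t y k : ℕ) : ℤ)) : F) * g y k j) c)
    (CR CM C4 : ℝ) (hCR : (((n : ℝ) + 1) * ((Rn : ℝ) + 1)) ^ (n + 1) = CR)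
    (hCM : ((n + 1).factorial : ℝ) * (B * B) ^ (n + 1) = CM)
    (hC4 : (((n : ℝ) + 1) * (B * B)) ^ (n + 1) = C4)
    (y : Fin (NN n r) → F) (gg : F) (hgg : gg ≠ 0)
    (hfac : C gg * PY F y = ∏ τ, ∑ j, C (ℓ τ j) * X j)
    {k0 : ℕ} (g : Fin k0 → Fin (NN n r) → F) (R : ℝ) (hR : 0 ≤ R)
    (hcomp : ∀ k γ a, ‖(sb (QQ L γ) (PY F (g k))).coeff a‖ ≤
      R * ‖(sb (QQ L γ) (PY F y)).coeff a‖)
    (κ : Fin (NN n D) → Fin j → Fin k0) (b : Fin (NN n D) → AD n m0) :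
    ‖(Matrix.of fun ρ i => ((∏ i', PY F (g (κ ρ i'))) *
        monomial (b ρ : Fin (n + 1) →₀ ℕ) (1 : F)).coeff
          ((ee n D i : AD n D) : Fin (n + 1) →₀ ℕ)).det‖ ≤
      ((NN n D).factorial : ℝ) * (((((((n : ℝ) + 1) * (((n : ℝ) + 1) * B * CR)) ^ r) ^ j *
        CR ^ m0 * CM ^ n / δ ^ D) * (C4 / CM) ^ n) * (R * (‖gg‖⁻¹ * ∏ τ, ‖ℓ τ‖)) ^ j *
          ((∏ σ : Fin (n + 1) → H, (Mx (genO d) (fun l => some (σ l)) / CM)) ^ n)⁻¹) ^ (NN n D) *
        (κs * ((CR * CM) ^ (Fintype.card (Bs (D + n) (n + 1))) *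
          (∏ σ : Fin (n + 1) → H, (Mx (genO d) (fun l => some (σ l)) / CM)) ^
            (j.choose (n + 1)))) := by
  classical
  have hB0 : 0 < B := by linarith
  have hn0 : (0 : ℝ) < (n : ℝ) + 1 := by positivity
  have hCR0 : 0 < CR := by
    rw [← hCR]
    positivity
  have hCM0 : 0 < CM := by
    rw [← hCM]
    have : (0 : ℝ) < ((n + 1).factorial : ℝ) := by exact_mod_cast Nat.factorial_pos _
    positivity
  have hC40 : 0 < C4 := by
    rw [← hC4]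
    positivity
  have hCMb : ∀ c, Mx (genO d) c ≤ CM := by
    intro c
    rw [← hCM]
    exact Mx_upper d hpsi hB1 hB1 c
  have hMx0 : ∀ c, 0 < Mx (genO d) c := fun c => Mx_pos _ (det_genO d) c
  set PV : ℝ := ∏ σ : Fin (n + 1) → H, (Mx (genO d) (fun l => some (σ l)) / CM) with hPV
  have hPV0 : 0 < PV := Finset.prod_pos fun σ _ => div_pos (hMx0 _) hCM0
  have hPVle : ∀ σ : Fin (n + 1) → H, PV ≤ Mx (genO d) (fun l => some (σ l)) / CM := by
    intro σ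
    rw [hPV, ← Finset.mul_prod_erase Finset.univ _ (Finset.mem_univ σ)]
    exact mul_le_of_le_one_right (div_pos (hMx0 _) hCM0).le
      (Finset.prod_le_one (fun σ' _ => (div_pos (hMx0 _) hCM0).le)
        fun σ' _ => (div_le_one hCM0).2 (hCMb _))
  -- the labels
  have hcard : Fintype.card (Fin (D + n)) = Fintype.card ((Fin j × H) ⊕ Fin (m0 + n)) := by
    rw [Fintype.card_sum, Fintype.card_prod, Fintype.card_fin, Fintype.card_fin,
      Fintype.card_fin, hH, hD]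
    ring
  have lab : Fin (D + n) ≃ ((Fin j × H) ⊕ Fin (m0 + n)) := Fintype.equivOfCardEq hcard
  obtain ⟨t, ht⟩ := hper (fun y => genO d (tyO lab y))
  set Y := YY (genO d) (tyO lab) t with hY
  have hnd : ∀ c : Bs (D + n) (n + 1), δ * Mx (genO d) (fun l => tyO lab (en c l)) ≤ nd Y c := by
    intro c
    have h1 := ht c
    exact h1
  have hgood : GoodY Y := by
    rw [goodY_iff]
    intro c
    exact (lt_of_lt_of_le (mul_pos hδ (hMx0 _)) (hnd c)).ne'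
  -- the polynomials
  set P : Fin (NN n D) → MvPolynomial (Fin (n + 1)) F := fun ρ => (∏ i', PY F (g (κ ρ i'))) *
    monomial (b ρ : Fin (n + 1) →₀ ℕ) (1 : F) with hP
  have hPh : ∀ ρ, (P ρ).IsHomogeneous D := by
    intro ρ
    have h1 := MvPolynomial.IsHomogeneous.prod (Finset.univ : Finset (Fin j))
      (fun i' => PY F (g (κ ρ i'))) (fun _ => r) fun i' _ => PY_hom _
    rw [Finset.sum_const, Finset.card_univ, Fintype.card_fin, smul_eq_mul] at h1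
    have h2 := h1.mul (isHomogeneous_monomial (R := F) 1 (mem_AD.1 (b ρ).2))
    rw [← hD] at h2
    exact h2
  have hint := det_interp rfl φ hgood (fun ρ => P (φ ρ)) fun ρ => hPh _
  have hsub : (Matrix.of fun ρ b' : Bs (D + n) n => (P (φ ρ)).coeff
      ((ee n D (φ b') : AD n D) : Fin (n + 1) →₀ ℕ)) =
      (Matrix.of fun ρ i => (P ρ).coeff ((ee n D i : AD n D) : Fin (n + 1) →₀ ℕ)).submatrix
        φ φ := rfl
  rw [hsub, Matrix.det_submatrix_equiv_self] at hint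
  rw [hint, norm_mul, hstar Y hgood]
  -- the first determinant
  set e : ℝ := ((((((n : ℝ) + 1) * (((n : ℝ) + 1) * B * CR)) ^ r) ^ j *
        CR ^ m0 * CM ^ n / δ ^ D) * (C4 / CM) ^ n) * (R * (‖gg‖⁻¹ * ∏ τ, ‖ℓ τ‖)) ^ j *
          (PV ^ n)⁻¹ with he
  have hBb0 : 0 ≤ (R * (‖gg‖⁻¹ * ∏ τ, ‖ℓ τ‖)) ^ j := by
    refine pow_nonneg (mul_nonneg hR (mul_nonneg (inv_nonneg.2 (norm_nonneg _)) ?_)) _
    exact Finset.prod_nonneg fun τ _ => norm_nonneg _
  have hK30 : 0 ≤ (((((n : ℝ) + 1) * (((n : ℝ) + 1) * B * CR)) ^ r) ^ j *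
        CR ^ m0 * CM ^ n / δ ^ D) := by
    positivity
  have hentry : ∀ (ρ b' : Bs (D + n) n), ‖(Matrix.of fun ρ b : Bs (D + n) n =>
      MvPolynomial.eval (qv (wb Y b)) (P (φ ρ)) / ∏ y ∈ b.1ᶜ, dv (Y y) (wb Y b)) ρ b'‖ ≤ e := by
    intro ρ b'
    rw [Matrix.of_apply]
    refine (entry_le d hB1 hB' hH lab t δ hδ hnd CR CM hCR hCMb y gg hgg hfac g R hR hcomp
      (κ (φ ρ)) (b (φ ρ)) b').trans ?_
    set Mb := Mx (genO d) (Fin.cons none (fun l => tyO lab (en b' l)) : Fin (n + 1) → Option H)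
      with hMb
    obtain ⟨τ0⟩ := (inferInstance : Nonempty H)
    have h1 := Mx_some_le d hpsi hB1 hB1 τ0
      (Fin.cons none (fun l => tyO lab (en b' l)) : Fin (n + 1) → Option H)
    rw [hC4, ← hMb] at h1
    have h2 := hPVle (fun l => ((Fin.cons none (fun l => tyO lab (en b' l)) :
      Fin (n + 1) → Option H) l).getD τ0)
    rw [le_div_iff₀ hCM0] at h2
    have h3 : PV * CM / C4 ≤ Mb := by
      rw [div_le_iff₀ hC40, mul_comm Mb C4]
      exact h2.trans h1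
    have h4 : 0 < PV * CM / C4 := div_pos (mul_pos hPV0 hCM0) hC40
    have h5 : (Mb ^ n)⁻¹ ≤ (C4 / CM) ^ n * (PV ^ n)⁻¹ := by
      have h6 : (PV * CM / C4) ^ n ≤ Mb ^ n := pow_le_pow_left₀ h4.le h3 n
      have h7 := inv_anti₀ (pow_pos h4 n) h6
      refine h7.trans (le_of_eq ?_)
      rw [← inv_pow, ← inv_pow, ← mul_pow]
      congr 1
      field_simp
    rw [div_eq_mul_inv _ (Mb ^ n), he]
    refine (mul_le_mul_of_nonneg_left h5 (mul_nonneg hK30 hBb0)).trans (le_of_eq ?_)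
    ring
  have hdet1 := det_col_le (Matrix.of fun ρ b : Bs (D + n) n =>
      MvPolynomial.eval (qv (wb Y b)) (P (φ ρ)) / ∏ y ∈ b.1ᶜ, dv (Y y) (wb Y b))
    (fun _ => e) fun ρ b' => hentry ρ b'
  rw [Finset.prod_const, Finset.card_univ, Fintype.card_congr φ, Fintype.card_fin] at hdet1
  -- the second determinant
  have hdet2 : ∏ c : Bs (D + n) (n + 1), nd Y c ≤
      (CR * CM) ^ (Fintype.card (Bs (D + n) (n + 1))) * PV ^ (j.choose (n + 1)) := by
    have h1 : ∏ c : Bs (D + n) (n + 1), nd Y c ≤ ∏ c : Bs (D + n) (n + 1),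
        ((CR * CM) * (Mx (genO d) (fun l => tyO lab (en c l)) / CM)) := by
      refine Finset.prod_le_prod (fun c _ => nd_nonneg _ _) fun c _ => ?_
      have h2 := nd_YY_le (genO d) (tyO lab) t c
      rw [hCR] at h2
      refine h2.trans (le_of_eq ?_)
      field_simp
    refine h1.trans ?_
    rw [Finset.prod_mul_distrib, Finset.prod_const, Finset.card_univ]
    refine mul_le_mul_of_nonneg_left ?_ (pow_nonneg (mul_nonneg hCR0.le hCM0.le) _)
    exact prod_copies lab (genO d) CM hCM0 hCMb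
  have he0 : 0 ≤ e ^ (NN n D) := by
    refine pow_nonneg ?_ _
    rw [he]
    refine mul_nonneg (mul_nonneg (mul_nonneg hK30 ?_) hBb0) (inv_nonneg.2 (pow_pos hPV0 n).le)
    exact pow_nonneg (div_pos hC40 hCM0).le n
  refine mul_le_mul hdet1 (mul_le_mul_of_nonneg_left hdet2 hκs.le) ?_ ?_
  · exact mul_nonneg hκs.le (Finset.prod_nonneg fun c _ => nd_nonneg _ _)
  · exact mul_nonneg (Nat.cast_nonneg _) he0

end Pool.Agent.T9h24
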