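import Mathlib
import Pool.Agent.T9h24.Lcm

/-!
The local estimate in terms of the largest determinants.
-/

set_option autoImplicit false
set_option linter.unusedSectionVars false

open Finset MvPolynomial

namespace Pool.Agent.T9h24

variable {F : Type} [NormedField F] {n : ℕ} {ι : Type} [Fintype ι]

/-- **The estimate at one place, intrinsic form.** -/
theorem loc_int [CharZero F] (hF : ∀ R : ℝ, ∃ c : F, R ≤ ‖c‖) (L : ι → Fin (n + 1) → F)
    (hs : ∃ β : Fin (n + 1) → ι, (Matrix.of fun a => L (β a)).det ≠ 0) (r j m0 : ℕ)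
    (hr : 1 ≤ r) (hN : n * NN n (j * r + m0) ≤ j.choose (n + 1)) :
    ∃ Cc : ℝ, 0 ≤ Cc ∧ ∀ {H : Type} [Fintype H] [DecidableEq H],
      Fintype.card H = r → ∀ ℓ : H → Fin (n + 1) → F, (∀ τ, ℓ τ ≠ 0) →
      ∀ (y : Fin (NN n r) → F) (gg : F), gg ≠ 0 →
      C gg * PY F y = ∏ τ, ∑ j, C (ℓ τ j) * X j →
      ∀ {k0 : ℕ} (g : Fin k0 → Fin (NN n r) → F) (R : ℝ), 0 < R →
      (∀ k γ a, ‖(sb (QQ L γ) (PY F (g k))).coeff a‖ ≤
        R * ‖(sb (QQ L γ) (PY F y)).coeff a‖) →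
      ∀ (κ : Fin (NN n (j * r + m0)) → Fin j → Fin k0)
        (b : Fin (NN n (j * r + m0)) → AD n m0),
      (Matrix.of fun ρ i => ((∏ i', PY F (g (κ ρ i'))) *
        monomial (b ρ : Fin (n + 1) →₀ ℕ) (1 : F)).coeff
          ((ee n (j * r + m0) i : AD n (j * r + m0)) : Fin (n + 1) →₀ ℕ)).det ≠ 0 →
      (∀ i τ, L i = 0 ∨ lf (L i) (ℓ τ) ≠ 0) →
      ∀ Φ : (Fin (n + 1) → H) → ℝ, (∀ σ, ∀ z : Fin (n + 1) → Fin (n + 1) → F,
        (∀ l i, ‖lf (L i) (z l)‖ * ‖ℓ (σ l)‖ ≤ ‖lf (L i) (ℓ (σ l))‖) →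
          ‖(Matrix.of z).det‖ ≤ Real.exp (-(Φ σ))) →
      Real.log ‖(Matrix.of fun ρ i => ((∏ i', PY F (g (κ ρ i'))) *
        monomial (b ρ : Fin (n + 1) →₀ ℕ) (1 : F)).coeff
          ((ee n (j * r + m0) i : AD n (j * r + m0)) : Fin (n + 1) →₀ ℕ)).det‖ ≤
        (NN n (j * r + m0) : ℝ) * (j * (Real.log R + (∑ τ, Real.log ‖ℓ τ‖ - Real.log ‖gg‖))) +
          Cc - ((j.choose (n + 1) : ℝ) - n * (NN n (j * r + m0) : ℝ)) * ∑ σ, Φ σ := by
  classical
  set D := j * r + m0 with hD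
  have hφ : Fintype.card (Bs (D + n) n) = Fintype.card (Fin (NN n D)) := by
    rw [Fintype.card_finset_len, Fintype.card_fin, Fintype.card_fin, NN_eq]
  obtain ⟨φ⟩ : Nonempty (Bs (D + n) n ≃ Fin (NN n D)) := ⟨Fintype.equivOfCardEq hφ⟩
  obtain ⟨κs, hκs, hstar⟩ := star (F := F) (n := n) (m := D + n) (D := D) rfl φ
  obtain ⟨δ, Rn, hδ, hper⟩ := perturb F n (D + n)
  obtain ⟨B1, hB11, hL1, hpsi1, hLp1, hQ1⟩ := exists_bound L
  set B : ℝ := ((n : ℝ) + 1) * (∑ i, ‖L i‖) + 1 + B1 with hBd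
  have hsum0 : 0 ≤ ((n : ℝ) + 1) * (∑ i, ‖L i‖) :=
    mul_nonneg (by positivity) (Finset.sum_nonneg fun i _ => norm_nonneg _)
  have hB1 : 1 ≤ B := by rw [hBd]; linarith
  have hBB : B1 ≤ B := by rw [hBd]; linarith
  have hB0 : 0 < B := by linarith
  obtain ⟨cc, hcc⟩ := hF B
  have hcc0 : 0 < ‖cc‖ := by linarith
  set CR : ℝ := (((n : ℝ) + 1) * ((Rn : ℝ) + 1)) ^ (n + 1) with hCR
  set CM : ℝ := ((n + 1).factorial : ℝ) * (B * B) ^ (n + 1) with hCM
  set C4 : ℝ := (((n : ℝ) + 1) * (B * B)) ^ (n + 1) with hC4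
  have hCR0 : 0 < CR := by
    rw [hCR]
    positivity
  have hCM0 : 0 < CM := by
    rw [hCM]
    have : (0 : ℝ) < ((n + 1).factorial : ℝ) := by exact_mod_cast Nat.factorial_pos _
    positivity
  have hC40 : 0 < C4 := by
    rw [hC4]
    positivity
  set K4 : ℝ := (((((n : ℝ) + 1) * (((n : ℝ) + 1) * B * CR)) ^ r) ^ j *
        CR ^ m0 * CM ^ n / δ ^ D) * (C4 / CM) ^ n with hK4
  have hK40 : 0 < K4 := by
    rw [hK4]
    positivity
  set M : ℕ := Fintype.card (Bs (D + n) (n + 1)) with hM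
  have hN' : (0 : ℝ) ≤ (j.choose (n + 1) : ℝ) - n * (NN n D : ℝ) := by
    have : ((n * NN n D : ℕ) : ℝ) ≤ (j.choose (n + 1) : ℝ) := by exact_mod_cast hN
    push_cast at this
    linarith
  set C1 : ℝ := Real.log ((NN n D).factorial : ℝ) + (NN n D : ℝ) * Real.log K4 + Real.log κs +
    M * Real.log (CR * CM) with hC1
  set C2 : ℝ := ((j.choose (n + 1) : ℝ) - n * (NN n D : ℝ)) *
    ((r : ℝ) ^ (n + 1) * Real.log (‖cc‖ ^ (n + 1) / CM)) with hC2
  refine ⟨|C1| + |C2|, by positivity, fun {H} _ _ hH ℓ hℓ y gg hgg hfac {k0} g R hR hcomp κ b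
    hdet hoff Φ hΦ => ?_⟩
  have : Nonempty H := by
    rw [← Fintype.card_pos_iff, hH]
    omega
  have hd : ∀ τ, Nonempty (PtD L B (ℓ τ)) := fun τ =>
    exists_PtD L hs B (by rw [hBd]; linarith) (ℓ τ) (hℓ τ)
  have d : ∀ τ, PtD L B (ℓ τ) := fun τ => Classical.choice (hd τ)
  have hbound := det_place d hB1 (fun i j => (hpsi1 i j).trans hBB)
    (fun p γ k => (hQ1 p γ k).trans hBB) hH hD φ κs hκs hstar δ hδ hper CR CM C4 rfl rfl rfl
    y gg hgg hfac g R hR.le hcomp κ b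
  set PV : ℝ := ∏ σ : Fin (n + 1) → H, (Mx (genO d) (fun l => some (σ l)) / CM) with hPV
  have hMx0 : ∀ c, 0 < Mx (genO d) c := fun c => Mx_pos _ (det_genO d) c
  have hPV0 : 0 < PV := Finset.prod_pos fun σ _ => div_pos (hMx0 _) hCM0
  have hgg0 : 0 < ‖gg‖ := norm_pos_iff.2 hgg
  have hℓ0 : 0 < ∏ τ, ‖ℓ τ‖ := Finset.prod_pos fun τ _ => norm_pos_iff.2 (hℓ τ)
  have hggi : 0 < ‖gg‖⁻¹ := inv_pos.2 hgg0
  have hBb0 : 0 < R * (‖gg‖⁻¹ * ∏ τ, ‖ℓ τ‖) := mul_pos hR (mul_pos hggi hℓ0)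
  have hNf : (0 : ℝ) < ((NN n D).factorial : ℝ) := by exact_mod_cast Nat.factorial_pos _
  have h1 := log_final (norm_pos_iff.2 hdet) hNf hK40 hBb0 hPV0 hκs (mul_pos hCR0 hCM0) hbound
  have hBl : Real.log (R * (‖gg‖⁻¹ * ∏ τ, ‖ℓ τ‖)) =
      Real.log R + (∑ τ, Real.log ‖ℓ τ‖ - Real.log ‖gg‖) := by
    rw [Real.log_mul hR.ne' (mul_pos hggi hℓ0).ne', Real.log_mul hggi.ne' hℓ0.ne',
      Real.log_inv, Real.log_prod fun τ _ => (norm_pos_iff.2 (hℓ τ)).ne']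
    ring
  have hPVl : Real.log PV ≤ (r : ℝ) ^ (n + 1) * Real.log (‖cc‖ ^ (n + 1) / CM) - ∑ σ, Φ σ := by
    rw [hPV, Real.log_prod fun σ _ => (div_pos (hMx0 _) hCM0).ne']
    have h2 : ∀ σ ∈ (Finset.univ : Finset (Fin (n + 1) → H)),
        Real.log (Mx (genO d) (fun l => some (σ l)) / CM) ≤
          Real.log (‖cc‖ ^ (n + 1) / CM) - Φ σ := by
      intro σ _
      obtain ⟨k, hk⟩ := exists_Mx (genO d) (fun l => some (σ l))
      have hccne : cc ≠ 0 := norm_pos_iff.1 hcc0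
      have h3 := hΦ σ (fun l j => cc⁻¹ * (d (σ l)).gen (k l) j) (fun l i => by
        rcases hoff i (σ l) with e0 | e0
        · have e1 : ∀ y : Fin (n + 1) → F, lf (L i) y = 0 := by
            intro y
            rw [e0]
            unfold lf
            simp
          rw [e1, e1, norm_zero, zero_mul]
        have e1 : lf (L i) (fun j => cc⁻¹ * (d (σ l)).gen (k l) j) =
            cc⁻¹ * lf (L i) ((d (σ l)).gen (k l)) := by
          unfold lf
          rw [Finset.mul_sum]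
          exact Finset.sum_congr rfl fun j _ => by ring
        have e2 := (d (σ l)).lf_gen_le (fun i p => (hLp1 i p).trans hBB) hB0.le i (k l)
        have e3 := (d (σ l)).s_eq i e0
        have e4 : 0 < ‖ℓ (σ l)‖ := norm_pos_iff.2 (hℓ _)
        rw [e3] at e2
        have e5 : ‖lf (L i) ((d (σ l)).gen (k l))‖ * ‖ℓ (σ l)‖ ≤
            B * ‖lf (L i) (ℓ (σ l))‖ := by
          rw [mul_div_assoc', le_div_iff₀ e4] at e2
          exact e2
        rw [e1, norm_mul, norm_inv, mul_assoc, inv_mul_le_iff₀ hcc0]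
        exact e5.trans (mul_le_mul_of_nonneg_right hcc (norm_nonneg _)))
      have h4 : (Matrix.of fun l j => cc⁻¹ * (d (σ l)).gen (k l) j) =
          cc⁻¹ • (Matrix.of fun l => genO d (some (σ l)) (k l)) := by
        ext l j
        rw [Matrix.smul_apply, Matrix.of_apply, Matrix.of_apply, smul_eq_mul]
        rfl
      rw [h4, Matrix.det_smul, norm_mul, norm_pow, norm_inv, ← hk, Fintype.card_fin,
        inv_pow, inv_mul_le_iff₀ (pow_pos hcc0 _)] at h3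
      have h5 := Real.log_le_log (div_pos (hMx0 _) hCM0)
        (div_le_div_of_nonneg_right h3 hCM0.le)
      refine h5.trans (le_of_eq ?_)
      rw [mul_div_right_comm, Real.log_mul (div_pos (pow_pos hcc0 _) hCM0).ne'
        (Real.exp_pos _).ne', Real.log_exp]
      ring
    refine (Finset.sum_le_sum h2).trans (le_of_eq ?_)
    rw [Finset.sum_sub_distrib, Finset.sum_const, Finset.card_univ, Fintype.card_fun,
      Fintype.card_fin, hH, nsmul_eq_mul]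
    push_cast
    ring
  rw [hBl] at h1
  have h2 := mul_le_mul_of_nonneg_left hPVl hN'
  have h3 := le_abs_self C1
  have h4 := le_abs_self C2
  have h5 : ((j.choose (n + 1) : ℝ) - n * (NN n D : ℝ)) *
      ((r : ℝ) ^ (n + 1) * Real.log (‖cc‖ ^ (n + 1) / CM) - ∑ σ, Φ σ) = C2 -
      ((j.choose (n + 1) : ℝ) - n * (NN n D : ℝ)) * ∑ σ, Φ σ := by
    rw [hC2]
    ring
  rw [h5] at h2
  refine h1.trans ?_
  linarith

end Pool.Agent.T9h24
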