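import Mathlib
import Pool.Agent.T9h24.Glf

/-!
The subspace theorem for closed points of given degree: integral coordinates.
-/

set_option autoImplicit false
set_option linter.unusedSectionVars false

open Finset MvPolynomial NumberField IsDedekindDomain

namespace Pool.Agent.T9h24

open Pool.Agent.W180.OP (Pl av wt nrm le_nrm nrm_pos)
open Pool.Agent.TeamU (Over act mem_act)

/-- the final computation -/
theorem final_arith {ι : Type} (S : Finset ι) {ν rn N κ ε e' H B C0 C1 lz L1 Xi Li Ai : ℝ}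
    {X Lp A c Cp A' : ι → ℝ} (hκ : 0 < κ) (hrn : 0 ≤ rn) (hN : 0 ≤ N)
    (hNj : N ≤ κ * (rn * (ν + 1 + ε / 2))) (hc : ∀ p ∈ S, 0 ≤ c p)
    (he : e' * (1 + ∑ p ∈ S, c p) * (ν + 1 + ε / 2) = ε / 2) (he0 : 0 ≤ e')
    (hi : Li ≤ N * (1 * B + Ai) + C1 - κ * Xi)
    (hp : ∀ p ∈ S, Lp p ≤ N * (c p * B + A p) + Cp p - κ * X p)
    (hs : 0 ≤ Li + ∑ p ∈ S, Lp p) (hAi : Ai ≤ H) (hA : ∀ p ∈ S, A p ≤ A' p)
    (hB : B = C0 + e' * lz) (hlz : lz ≤ L1 + H) (hH : 0 ≤ H) :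
    Xi + ∑ p ∈ S, X p ≤ rn * (ν + 1 + ε) * H +
      (N * ((1 + ∑ p ∈ S, c p) * (C0 + e' * L1) + ∑ p ∈ S, A' p) + C1 + ∑ p ∈ S, Cp p) / κ := by
  have hp2 := Finset.sum_le_sum hp
  rw [Finset.sum_sub_distrib, Finset.sum_add_distrib, ← Finset.mul_sum, ← Finset.mul_sum,
    Finset.sum_add_distrib, ← Finset.sum_mul] at hp2
  set cs := ∑ p ∈ S, c p with hcs
  have hcs0 : 0 ≤ cs := Finset.sum_nonneg hc
  have hA2 := Finset.sum_le_sum hA
  have h1 : κ * (Xi + ∑ p ∈ S, X p) ≤ N * ((1 + cs) * B + H + ∑ p ∈ S, A' p) + C1 +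
      ∑ p ∈ S, Cp p := by
    have h2 : N * (Ai + ∑ p ∈ S, A p) ≤ N * (H + ∑ p ∈ S, A' p) :=
      mul_le_mul_of_nonneg_left (add_le_add hAi hA2) hN
    nlinarith [h2, hi, hp2, hs]
  have h2 : (1 + cs) * B ≤ (1 + cs) * (C0 + e' * L1) + (1 + cs) * e' * H := by
    have h3 : B ≤ C0 + e' * (L1 + H) := by
      rw [hB]
      have := mul_le_mul_of_nonneg_left hlz he0
      linarith
    have h4 := mul_le_mul_of_nonneg_left h3 (by linarith : 0 ≤ 1 + cs)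
    linarith
  have h3 : N * (1 + (1 + cs) * e') * H ≤ κ * (rn * (ν + 1 + ε) * H) := by
    have h4 : 0 ≤ 1 + (1 + cs) * e' := by
      have : 0 ≤ (1 + cs) * e' := mul_nonneg (by linarith) he0
      linarith
    have h5 := mul_le_mul_of_nonneg_right (mul_le_mul_of_nonneg_right hNj h4) hH
    refine h5.trans (le_of_eq ?_)
    have h6 : (ν + 1 + ε / 2) * (1 + (1 + cs) * e') = ν + 1 + ε := by
      have : (ν + 1 + ε / 2) * (1 + (1 + cs) * e') =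
          (ν + 1 + ε / 2) + e' * (1 + cs) * (ν + 1 + ε / 2) := by ring
      rw [this, he]
      ring
    have h7 : κ * (rn * (ν + 1 + ε / 2)) * (1 + (1 + cs) * e') * H =
        κ * (rn * ((ν + 1 + ε / 2) * (1 + (1 + cs) * e')) * H) := by ring
    rw [h7, h6]
  have h4 : κ * (Xi + ∑ p ∈ S, X p) ≤ κ * (rn * (ν + 1 + ε) * H) +
      (N * ((1 + cs) * (C0 + e' * L1) + ∑ p ∈ S, A' p) + C1 + ∑ p ∈ S, Cp p) := by
    have h5 := mul_le_mul_of_nonneg_left h2 hN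
    linarith
  have h5 : κ * (Xi + ∑ p ∈ S, X p) ≤ κ * (rn * (ν + 1 + ε) * H +
      (N * ((1 + cs) * (C0 + e' * L1) + ∑ p ∈ S, A' p) + C1 + ∑ p ∈ S, Cp p) / κ) := by
    refine h4.trans (le_of_eq ?_)
    field_simp
  exact le_of_mul_le_mul_left h5 hκ

/-- the ideal of a rational space of forms -/
noncomputable def idl {n r : ℕ} (W : Submodule ℚ (Fin (NN n r) → ℚ)) :
    Ideal (MvPolynomial (Fin (n + 1)) ℚ) :=
  Ideal.span ((fun w : Fin (NN n r) → ℚ => PY ℚ w) '' (W : Set (Fin (NN n r) → ℚ)))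

theorem idl_le {n r m : ℕ} (h : Fin m → Fin (NN n r) → ℤ) (W : Submodule ℚ (Fin (NN n r) → ℚ))
    (hW : Submodule.span ℚ (Set.range fun k j => (h k j : ℚ)) = W) :
    idl W ≤ Ideal.span (Set.range fun k => PY ℚ fun i => (h k i : ℚ)) := by
  unfold idl
  rw [Ideal.span_le]
  rintro _ ⟨w, hw, rfl⟩
  show PY ℚ w ∈ _
  have hw' : w ∈ Submodule.span ℚ (Set.range fun k j => (h k j : ℚ)) := by
    rw [hW]
    exact hw
  obtain ⟨c, hc⟩ := (Submodule.mem_span_range_iff_exists_fun ℚ).1 hw'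
  have h1 : PY ℚ w = ∑ k, C (c k) * PY ℚ (fun i => (h k i : ℚ)) := by
    unfold PY
    simp only [Finset.mul_sum, C_mul_monomial]
    rw [Finset.sum_comm]
    refine Finset.sum_congr rfl fun i _ => ?_
    rw [← hc, ← map_sum]
    congr 1
    simp only [Finset.sum_apply, Pi.smul_apply, smul_eq_mul]
  rw [h1]
  exact Ideal.sum_mem _ fun k _ => Ideal.mul_mem_left _ _ (Ideal.subset_span ⟨k, rfl⟩)

/-- if the form of a point vanishes at a rational point of the dual space then a conjugate of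
the point lies on a fixed hyperplane -/
theorem vanish {n r : ℕ} {E : Type} [Field E] [NumberField E] (x : Fin (n + 1) → 𝓞 E) (g : ℤ)
    (y : Fin (NN n r) → ℤ) (hnf : nf x = C g * PY ℤ y)
    (W : Submodule ℚ (Fin (NN n r) → ℚ)) (hy : (fun j => (y j : ℚ)) ∈ W)
    (u : Fin (n + 1) → AlgebraicClosure ℚ) (hu : ∀ P ∈ idl W, MvPolynomial.aeval u P = 0) :
    ∃ τ : E →+* AlgebraicClosure ℚ, ∑ j, u j * τ (x j : E) = 0 := by
  have h1 : MvPolynomial.aeval u (PY ℚ fun j => (y j : ℚ)) = 0 :=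
    hu _ (Ideal.subset_span ⟨_, hy, rfl⟩)
  have h2 : MvPolynomial.eval u (PY (AlgebraicClosure ℚ) fun j => ((y j : ℤ) :
      AlgebraicClosure ℚ)) = 0 := by
    rw [← h1, MvPolynomial.aeval_def, ← MvPolynomial.eval_map, PY_map]
    congr 2
  have h3 : MvPolynomial.eval u (MvPolynomial.map (Int.castRingHom (AlgebraicClosure ℚ)) (nf x)) =
      0 := by
    rw [hnf, map_mul, PY_map, map_mul]
    have h4 : (fun i => Int.castRingHom (AlgebraicClosure ℚ) (y i)) =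
        fun j => ((y j : ℤ) : AlgebraicClosure ℚ) := rfl
    rw [h4, h2, mul_zero]
  rw [nf_map (AlgebraicClosure ℚ) x, map_prod, Finset.prod_eq_zero_iff] at h3
  obtain ⟨τ, -, hτ⟩ := h3
  refine ⟨τ, ?_⟩
  rw [← hτ, map_sum]
  refine Finset.sum_congr rfl fun j _ => ?_
  rw [map_mul, eval_C, eval_X, mul_comm]

/-- **The subspace theorem for closed points of given degree**, integral coordinates. -/
theorem mainF (n r : ℕ) (hr : 1 ≤ r) (G : Polynomial ℤ) (hG : G ≠ 0) :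
    ∃ Z : Finset (Fin (n + 1) → AlgebraicClosure ℚ), (∀ u ∈ Z, u ≠ 0) ∧
      ∀ (S : Finset Nat.Primes) (ε : ℝ), 0 < ε → ∃ Cc : ℝ, ∀ (E : Type) [Field E]
        [NumberField E], Module.finrank ℚ E = r → ∀ x : Fin (n + 1) → 𝓞 E, x ≠ 0 →
      (∀ u ∈ Z, ∀ τ : E →+* AlgebraicClosure ℚ, ∑ j, u j * τ (x j : E) ≠ 0) →
      ∀ Λ : Fin (n + 1) → Fin (n + 1) → ℂ, (∀ k j, Λ k j ∈ (mp ℂ G).roots) →
        (Matrix.of Λ).det ≠ 0 →
      ∀ Λp : ∀ p : Nat.Primes, Fin (n + 1) → Fin (n + 1) → PadicAlgCl p,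
        (∀ p ∈ S, ∀ k j, Λp p k j ∈ (mp (PadicAlgCl p) G).roots) →
        (∀ p ∈ S, (Matrix.of (Λp p)).det ≠ 0) →
      ∑ σ : Fin (n + 1) → (E →+* ℂ), td (fun (τ : E →+* ℂ) k =>
          lamH (Λ k) (fun i => τ (x i : E))) σ +
        ∑ p ∈ S, ∑ σ : Fin (n + 1) → (E →+* PadicAlgCl p), td (fun (τ : E →+* PadicAlgCl p) k =>
          lamH (Λp p k) (fun i => τ (x i : E))) σ ≤
        (r : ℝ) ^ n * ((n : ℝ) + 1 + ε) * Height.logHeight (fun i => (x i : E)) + Cc := by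
  classical
  obtain ⟨K, _, _, hgal, hi, hsp⟩ := exists_field G hG
  obtain ⟨D0, RK, ω, hD0, hRK, hω⟩ := exists_roots (K := K) G
  obtain ⟨TT, hTT⟩ := full hi (NN n r) (LLf (n := n) ω r) (LLf_gal G hRK hω r)
  have hns : ∀ W : Submodule ℚ (Fin (NN n r) → ℚ), ∃ (u : Fin (n + 1) → AlgebraicClosure ℚ)
      (m0 : ℕ), u ≠ 0 ∧ ((∀ P ∈ idl W, MvPolynomial.aeval u P = 0) ∨
        ∀ D, m0 ≤ D → ∀ Q : MvPolynomial (Fin (n + 1)) ℚ, Q.IsHomogeneous D → Q ∈ idl W) := by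
    intro W
    rcases ns (idl W) with ⟨u, hu, h⟩ | ⟨m0, h⟩
    · exact ⟨u, 0, hu, Or.inl h⟩
    · exact ⟨fun _ => 1, m0, fun h0 => one_ne_zero (congrFun h0 0), Or.inr h⟩
  choose uW mW huW hnsW using hns
  refine ⟨TT.image uW, fun u hu => ?_, fun S ε hε => ?_⟩
  · obtain ⟨W, -, rfl⟩ := Finset.mem_image.1 hu
    exact huW W
  set m0 : ℕ := ∑ W ∈ TT, mW W with hm0
  obtain ⟨j, hj0, hj⟩ := numer n r m0 hr (ε / 2) (by linarith)
  obtain ⟨T, hT, hT'⟩ := exists_T (K := K) S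
  -- the places
  obtain ⟨ψ⟩ := exists_emb K ℂ
  have hψ : ∀ z, ‖ψ z‖ = av (Sum.inl (InfinitePlace.mk ψ) : Pl K) z ^ (1 : ℝ) := fun z => by
    rw [Real.rpow_one]
    exact (InfinitePlace.apply ψ z).symm
  obtain ⟨C1, hC1, hinf⟩ := placeG (n := n) ψ (Sum.inl (InfinitePlace.mk ψ)) 1 one_pos hψ r j m0
    G hsp hD0 hRK hω
  have hfinp : ∀ p : Nat.Primes, ∃ (w : Pl K) (c C : ℝ), (p ∈ S → ∀ Q, w = Sum.inr Q → Q ∈ T) ∧
      0 < c ∧ 0 ≤ C ∧ ∀ (E : Type) [Field E] [NumberField E], Module.finrank ℚ E = r →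
      ∀ x : Fin (n + 1) → 𝓞 E, x ≠ 0 → ∀ (g : ℤ) (y : Fin (NN n r) → ℤ), g ≠ 0 →
      nf x = MvPolynomial.C g * PY ℤ y → ∀ {m : ℕ} (h : Fin m → Fin (NN n r) → ℤ) (B : ℝ),
      (∀ k, ∀ l : (Fin (n + 1) → Fin (n + 1) → RK) × AD n r,
        av w (∑ i, (LLf ω r l i : K) * ((h k i : ℤ) : K)) ≤
        Real.exp B * av w (∑ i, (LLf ω r l i : K) * ((y i : ℤ) : K))) →
      ∀ (κ : Fin (NN n (j * r + m0)) → Fin j → Fin m) (b : Fin (NN n (j * r + m0)) → AD n m0),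
      Dt r j m0 h κ b ≠ 0 → ∀ Λ : Fin (n + 1) → Fin (n + 1) → PadicAlgCl p,
      (∀ k j, Λ k j ∈ (mp (PadicAlgCl p) G).roots) → (Matrix.of Λ).det ≠ 0 →
      Real.log ‖((Dt r j m0 h κ b : ℤ) : PadicAlgCl p)‖ ≤
        (NN n (j * r + m0) : ℝ) * (j * (c * B + (∑ τ : E →+* PadicAlgCl p,
          Real.log ‖fun i => τ (x i : E)‖ - Real.log ‖(g : PadicAlgCl p)‖))) +
          C - (j.descFactorial (n + 1) : ℝ) / ((n + 1).factorial : ℝ) *
          ∑ σ : Fin (n + 1) → (E →+* PadicAlgCl p), td (fun (τ : E →+* PadicAlgCl p) k =>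
            lamH (Λ k) (fun i => τ (x i : E))) σ := by
    intro p
    obtain ⟨ψp⟩ := exists_emb K (PadicAlgCl p)
    have hp0 : (((p : ℕ) : ℕ) : PadicAlgCl p) ≠ 0 := by exact_mod_cast p.2.ne_zero
    have hp1 : ‖(((p : ℕ) : ℕ) : PadicAlgCl p)‖ < 1 := by
      have h1 := norm_int_padicAlgCl (p : ℕ) ((p : ℕ) : ℤ)
      push_cast at h1
      rw [h1, Padic.norm_p]
      exact inv_lt_one_of_one_lt₀ (by exact_mod_cast p.2.one_lt)
    obtain ⟨Q, hQ, c, hc, hψp⟩ := padic_place ψp (p : ℕ) hp0 hp1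
    obtain ⟨C, hC, hplace⟩ := placeG (n := n) ψp (Sum.inr Q) c hc hψp r j m0 G hsp hD0 hRK hω
    exact ⟨Sum.inr Q, c, C, fun hp Q' hQ' => by
      rw [← Sum.inr.inj hQ']
      exact hT' Q ⟨p, hp, hQ⟩, hc, hC, hplace⟩
  choose w c Cp hwT hc hCp hplace using hfinp
  have hAp : ∀ p : Nat.Primes, ∃ Cc : ℝ, 0 ≤ Cc ∧ ∀ (E : Type) [Field E] [NumberField E],
      Module.finrank ℚ E = r → ∀ x : Fin (n + 1) → 𝓞 E, x ≠ 0 →
      ∀ (g : ℤ) (y : Fin (NN n r) → ℤ), g ≠ 0 → nf x = C g * PY ℤ y →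
      ∑ τ : E →+* PadicAlgCl p, Real.log ‖fun i => τ (x i : E)‖ -
        Real.log ‖(g : PadicAlgCl p)‖ ≤ Cc := fun p => padic_A n r
  choose A' hA'0 hA' using hAp
  have hcs0 : 0 ≤ ∑ p ∈ S, c p := Finset.sum_nonneg fun p _ => (hc p).le
  have hn0 : (0 : ℝ) ≤ n := Nat.cast_nonneg n
  set e' : ℝ := ε / 2 / ((1 + ∑ p ∈ S, c p) * ((n : ℝ) + 1 + ε / 2)) with he'
  have hden : 0 < (1 + ∑ p ∈ S, c p) * ((n : ℝ) + 1 + ε / 2) :=
    mul_pos (by linarith) (by linarith)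
  have he'0 : 0 < e' := div_pos (by linarith) hden
  have hee : e' * (1 + ∑ p ∈ S, c p) * ((n : ℝ) + 1 + ε / 2) = ε / 2 := by
    rw [mul_assoc, he', div_mul_cancel₀ _ hden.ne']
  obtain ⟨C0, hC0, hcomp⟩ := hTT T hT e' he'0
  set N : ℝ := (NN n (j * r + m0) : ℝ) * j with hN
  set κ : ℝ := (j.descFactorial (n + 1) : ℝ) / ((n + 1).factorial : ℝ) with hκ
  have hN0 : 0 ≤ N := mul_nonneg (Nat.cast_nonneg _) (Nat.cast_nonneg _)
  have hκ0 : 0 < κ := div_pos (by exact_mod_cast hj0) (by exact_mod_cast Nat.factorial_pos _)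
  set L1 : ℝ := r * Real.log ((n : ℝ) + 1) with hL1
  refine ⟨(N * ((1 + ∑ p ∈ S, c p) * (C0 + e' * L1) + ∑ p ∈ S, A' p) + C1 + ∑ p ∈ S, Cp p) / κ,
    fun E _ _ hE x hx hZ Λ hΛ hΛd Λp hΛp hΛpd => ?_⟩
  obtain ⟨g, y, hg, hy, hnf, hsz, hAinf⟩ := exists_form x hx r hE
  obtain ⟨W, hW, hyW, m, h, hspan, hbd⟩ := hcomp y hy
  -- there is no common zero
  have hnsW2 : ∀ D, m0 + r ≤ D → ∀ Q : MvPolynomial (Fin (n + 1)) ℚ, Q.IsHomogeneous D →
      Q ∈ Ideal.span (Set.range fun k => PY ℚ fun i => (h k i : ℚ)) := by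
    rcases hnsW W with h1 | h1
    · exfalso
      obtain ⟨τ, hτ⟩ := vanish x g y hnf W hyW (uW W) h1
      exact hZ _ (Finset.mem_image_of_mem _ hW) τ hτ
    · intro D hD Q hQ
      refine idl_le h W hspan (h1 D ?_ Q hQ)
      have h2 := Finset.single_le_sum (f := mW) (fun W _ => Nat.zero_le _) hW
      rw [← hm0] at h2
      omega
  obtain ⟨κ', b, hΔ⟩ := exists_prods r m0 h hnsW2 j
  have hΔ' : Dt r j m0 h κ' b ≠ 0 := hΔ
  clear hΔ
  have h1 := hinf E hE x hx g y hg hnf h (C0 + e' * Real.log (sz y))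
    (fun k l => hbd k _ (fun Q hQ => absurd hQ (by simp)) l) κ' b hΔ' Λ hΛ hΛd
  have h2 : ∀ p ∈ S, Real.log ‖((Dt r j m0 h κ' b : ℤ) : PadicAlgCl p)‖ ≤
        N * (c p * (C0 + e' * Real.log (sz y)) + (∑ τ : E →+* PadicAlgCl p,
          Real.log ‖fun i => τ (x i : E)‖ - Real.log ‖(g : PadicAlgCl p)‖)) +
          Cp p - κ *
          ∑ σ : Fin (n + 1) → (E →+* PadicAlgCl p), td (fun (τ : E →+* PadicAlgCl p) k =>
            lamH (Λp p k) (fun i => τ (x i : E))) σ := by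
    intro p hp
    have h3 := hplace p E hE x hx g y hg hnf h (C0 + e' * Real.log (sz y))
      (fun k l => hbd k _ (hwT p hp) l) κ' b hΔ' (Λp p) (hΛp p hp) (hΛpd p hp)
    rw [← mul_assoc] at h3
    exact h3
  rw [← mul_assoc] at h1
  have hs := sum_log_nonneg S _ hΔ'
  have h5 : Real.log ‖((Dt r j m0 h κ' b : ℤ) : ℂ)‖ =
      Real.log |((Dt r j m0 h κ' b : ℤ) : ℝ)| := by
    rw [Complex.norm_intCast]
  have h6 : ∑ p ∈ S, Real.log ‖((Dt r j m0 h κ' b : ℤ) : PadicAlgCl p)‖ =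
      ∑ p ∈ S, Real.log ‖((Dt r j m0 h κ' b : ℤ) : ℚ_[(p : ℕ)])‖ :=
    Finset.sum_congr rfl fun p _ => by rw [norm_int_padicAlgCl]
  rw [← h5, ← h6] at hs
  have hAi : ∑ τ : E →+* ℂ, Real.log ‖fun i => τ (x i : E)‖ - Real.log ‖(g : ℂ)‖ ≤
      Height.logHeight (fun i => (x i : E)) := by
    rw [Complex.norm_intCast, ← Real.log_prod]
    · exact hAinf
    · intro τ _
      refine (norm_pos_iff.2 fun h0 => hx ?_).ne'
      funext i
      have h7 : τ (x i : E) = 0 := congrFun h0 i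
      exact RingOfIntegers.ext (by simpa using h7)
  exact final_arith S hκ0 (by positivity) hN0 hj (fun p _ => (hc p).le) hee he'0.le h1 h2 hs hAi
    (fun p _ => hA' p E hE x hx g y hg hnf) rfl hsz (Height.logHeight_nonneg _)

end Pool.Agent.T9h24
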