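import Mathlib
import Pool.Agent.T9h24.Nmr

/-!
The choice of the degree, with a correction term.
-/

set_option autoImplicit false
set_option linter.unusedSectionVars false

open Finset Filter

namespace Pool.Agent.T9h24

theorem numer2 (n r m0 : ℕ) (hr : 1 ≤ r) (ε : ℝ) (hε : 0 < ε) : ∃ j : ℕ,
    n * NN n (j * r + m0) < j.choose (n + 1) ∧ (NN n (j * r + m0) : ℝ) * j ≤
      ((j.choose (n + 1) : ℝ) - n * (NN n (j * r + m0) : ℝ)) *
        ((r : ℝ) ^ n * ((n : ℝ) + 1 + ε)) := by
  have hr0 : (0 : ℝ) < r := by exact_mod_cast hr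
  have hr1 : (1 : ℝ) ≤ r := by exact_mod_cast hr
  have hn0 : (0 : ℝ) < (n : ℝ) + 1 := by positivity
  set c : ℝ := (r : ℝ) ^ n * ((n : ℝ) + 1 + ε) with hc
  have hc0 : 0 < c := by
    rw [hc]
    positivity
  obtain ⟨A, hA⟩ := exists_nat_ge (((n * r + m0 + n : ℕ) : ℝ) + n * c)
  have hlim : Tendsto (fun t : ℕ => (1 + (A : ℝ) / t) ^ (n + 1)) atTop (nhds 1) := by
    have h1 := (tendsto_const_div_atTop_nhds_zero_nat (A : ℝ)).const_add 1
    have h2 := h1.pow (n + 1)
    rw [add_zero, one_pow] at h2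
    exact h2
  have h1 : ∀ᶠ t : ℕ in atTop, (1 + (A : ℝ) / t) ^ (n + 1) < 1 + ε / ((n : ℝ) + 1) := by
    refine (tendsto_order.1 hlim).2 _ ?_
    have : 0 < ε / ((n : ℝ) + 1) := by positivity
    linarith
  obtain ⟨t, ht, ht1⟩ := (h1.and (eventually_ge_atTop 1)).exists
  have ht0 : (0 : ℝ) < t := by exact_mod_cast ht1
  have hA0 : (0 : ℝ) ≤ A := Nat.cast_nonneg A
  have h2 : t ^ (n + 1) ≤ (n + t).descFactorial (n + 1) := by
    have := Nat.pow_sub_le_descFactorial (n + t) (n + 1)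
    rwa [show n + t + 1 - (n + 1) = t by omega] at this
  set D := (n + t) * r + m0 with hD
  have h3 : n.factorial * NN n D ≤ (D + n) ^ n := by
    rw [NN_eq, ← Nat.descFactorial_eq_factorial_mul_choose]
    exact Nat.descFactorial_le_pow _ _
  have hncc : (0 : ℝ) ≤ n * c := by positivity
  have h4 : ((D : ℝ) + n) ≤ r * (t + A) := by
    have h5 : ((D : ℝ) + n) = r * t + ((n * r + m0 + n : ℕ) : ℝ) := by
      rw [hD]
      push_cast
      ring
    rw [h5]
    have h6 : (A : ℝ) ≤ r * A := by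
      have := mul_le_mul_of_nonneg_right hr1 hA0
      linarith
    have h7 : ((n * r + m0 + n : ℕ) : ℝ) ≤ A := by linarith
    linarith
  have h5 : ((n + t : ℕ) : ℝ) + n * c ≤ t + A := by
    have h6 : (n : ℝ) ≤ ((n * r + m0 + n : ℕ) : ℝ) := by
      exact_mod_cast (by omega : n ≤ n * r + m0 + n)
    push_cast at h6 ⊢
    push_cast at hA
    linarith
  have hf : (0 : ℝ) < (n.factorial : ℝ) := by exact_mod_cast Nat.factorial_pos _
  have hch : (t : ℝ) ^ (n + 1) ≤ ((n : ℝ) + 1) * n.factorial * ((n + t).choose (n + 1) : ℝ) := by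
    have h6 : t ^ (n + 1) ≤ (n + 1).factorial * (n + t).choose (n + 1) := by
      rw [← Nat.descFactorial_eq_factorial_mul_choose]
      exact h2
    rw [Nat.factorial_succ] at h6
    exact_mod_cast h6
  have h7 : (n.factorial : ℝ) * NN n D ≤ (r * (t + A)) ^ n := by
    have h8 : (n.factorial : ℝ) * NN n D ≤ ((D : ℝ) + n) ^ n := by exact_mod_cast h3
    exact h8.trans (pow_le_pow_left₀ (by positivity) h4 n)
  have hNj : (0 : ℝ) < NN n D := by
    have : 0 < NN n D := by
      rw [NN_eq]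
      exact Nat.choose_pos (by omega)
    exact_mod_cast this
  -- the main inequality
  have key : (NN n D : ℝ) * (((n + t : ℕ) : ℝ) + n * c) ≤ ((n + t).choose (n + 1) : ℝ) * c := by
    have e1 : (n.factorial : ℝ) * ((NN n D : ℝ) * (((n + t : ℕ) : ℝ) + n * c)) ≤
        (r * (t + A)) ^ n * (t + A) := by
      rw [← mul_assoc]
      exact mul_le_mul h7 h5 (by positivity) (by positivity)
    have e2 : (r * (t + A)) ^ n * (t + A) = r ^ n * (t ^ (n + 1) * (1 + (A : ℝ) / t) ^ (n + 1)) := by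
      have e3 : (t : ℝ) * (1 + (A : ℝ) / t) = t + A := by
        field_simp
      rw [← mul_pow (t : ℝ), e3, pow_succ, mul_pow]
      ring
    have e4 : (r : ℝ) ^ n * (t ^ (n + 1) * (1 + (A : ℝ) / t) ^ (n + 1)) ≤
        r ^ n * ((((n : ℝ) + 1) * n.factorial * ((n + t).choose (n + 1) : ℝ)) *
          (1 + ε / ((n : ℝ) + 1))) :=
      mul_le_mul_of_nonneg_left (mul_le_mul hch ht.le (by positivity) (by positivity))
        (by positivity)
    have e5 : (r : ℝ) ^ n * ((((n : ℝ) + 1) * n.factorial * ((n + t).choose (n + 1) : ℝ)) *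
          (1 + ε / ((n : ℝ) + 1))) = n.factorial * (((n + t).choose (n + 1) : ℝ) * c) := by
      rw [hc]
      field_simp
    rw [e2] at e1
    rw [e5] at e4
    exact le_of_mul_le_mul_left (e1.trans e4) hf
  have hnt : (0 : ℝ) < ((n + t : ℕ) : ℝ) := by
    exact_mod_cast (by omega : 0 < n + t)
  refine ⟨n + t, ?_, ?_⟩
  · have e1 : (n : ℝ) * (NN n D : ℝ) * c < ((n + t).choose (n + 1) : ℝ) * c := by
      have := mul_pos hNj hnt
      linarith
    have e2 := lt_of_mul_lt_mul_right e1 hc0.le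
    exact_mod_cast e2
  · linarith

end Pool.Agent.T9h24
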