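import Mathlib
import Pool.Agent.T9h24.Lcn
import Pool.Agent.T9h24.Nmx
import Pool.Agent.T9h24.Mnf

/-!
The family of linear forms for all dual bases, and the estimate at one place.
-/

set_option autoImplicit false
set_option linter.unusedSectionVars false

open Finset MvPolynomial NumberField IsDedekindDomain

namespace Pool.Agent.T9h24

open Pool.Agent.W180.OP (Pl av wt nrm le_nrm nrm_pos)

variable {K : Type} [Field K] [NumberField K] {n : ℕ}

/-- the linear forms on vectors of coefficients given by a family of matrices -/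
noncomputable def LLg {κβ : Type} (Ω : κβ → Fin (n + 1) → Fin (n + 1) → 𝓞 K) (r : ℕ)
    (l : κβ × AD n r) (i : Fin (NN n r)) : 𝓞 K :=
  (sb (Ω l.1) (monomial ((ee n r i : AD n r) : Fin (n + 1) →₀ ℕ) 1)).coeff
    (l.2 : Fin (n + 1) →₀ ℕ)

theorem LLg_gal {κβ : Type} (Ω : κβ → Fin (n + 1) → Fin (n + 1) → 𝓞 K) (r : ℕ)
    (σ : K ≃ₐ[ℚ] K) (h : ∀ β, ∃ β', ∀ k j, (Ω β' k j : K) = σ (Ω β k j : K))
    (l : κβ × AD n r) : ∃ l', ∀ j, (LLg Ω r l' j : K) = σ (LLg Ω r l j : K) := by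
  obtain ⟨β', hβ'⟩ := h l.1
  refine ⟨(β', l.2), fun i => ?_⟩
  unfold LLg
  rw [coe_LL, coe_LL]
  have h1 := coeff_map (σ : K →+* K) (sb (fun k j => (Ω l.1 k j : K))
    (monomial ((ee n r i : AD n r) : Fin (n + 1) →₀ ℕ) 1)) (l.2 : Fin (n + 1) →₀ ℕ)
  rw [sb_map, map_monomial, map_one] at h1
  refine Eq.trans ?_ h1
  congr 3
  funext k j
  exact hβ' k j

/-- the frames with entries in a finite set -/
def LK (RK : Finset K) (v : Fin (n + 1) → RK) (j : Fin (n + 1)) : K := (v j : K)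

/-- maps of index sets -/
def mapJ {ι ι' : Type} (f : ι → ι') : Jx n ι → Jx n ι'
  | Sum.inl k => Sum.inl k
  | Sum.inr p => Sum.inr (fun k => f (p.1 k), p.2)

theorem psi_mapJ {F : Type} [Field F] {ι ι' : Type} (f : ι → ι') (L : ι' → Fin (n + 1) → F)
    (i : Jx n ι) : psi L (mapJ f i) = psi (fun i => L (f i)) i := by
  rcases i with k | p
  · rfl
  · rfl

theorem QQ_mapJ {F : Type} [Field F] {ι ι' : Type} (f : ι → ι') (L : ι' → Fin (n + 1) → F)
    (γ : Fin (n + 1) → Jx n ι) (k j : Fin (n + 1)) :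
    QQ L (fun k => mapJ f (γ k)) k j = QQ (fun i => L (f i)) γ k j := by
  unfold QQ
  simp only [psi_mapJ]

/-- integral multiples of the dual bases -/
theorem exists_Om (n : ℕ) (RK : Finset K) : ∃ (D1 : ℤ)
    (Ω : (Fin (n + 1) → Jx n (Fin (n + 1) → RK)) → Fin (n + 1) → Fin (n + 1) → 𝓞 K),
    D1 ≠ 0 ∧ ∀ γ k j, (Ω γ k j : K) = (D1 : K) * QQ (LK RK) γ k j := by
  classical
  set s : Finset K := Finset.univ.image
    (fun p : (Fin (n + 1) → Jx n (Fin (n + 1) → RK)) × Fin (n + 1) × Fin (n + 1) =>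
      QQ (LK RK) p.1 p.2.1 p.2.2) with hs
  obtain ⟨D1, hD1, hint⟩ := exists_integral_multiples ℤ ℚ s
  have hL : ∀ (γ : Fin (n + 1) → Jx n (Fin (n + 1) → RK)) (k j : Fin (n + 1)),
      ∃ w : 𝓞 K, (w : K) = (D1 : K) * QQ (LK RK) γ k j := by
    intro γ k j
    have h1 := hint (QQ (LK RK) γ k j) (by
      rw [hs]
      exact Finset.mem_image.2 ⟨(γ, k, j), Finset.mem_univ _, rfl⟩)
    rw [zsmul_eq_mul] at h1
    exact ⟨⟨_, h1⟩, rfl⟩
  choose Ω hΩ using hL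
  exact ⟨D1, Ω, hD1, hΩ⟩

/-- the family is stable under the Galois group -/
theorem Om_gal (G : Polynomial ℤ) {RK : Finset K} (hRK : ∀ P, P ∈ RK ↔ P ∈ (mp K G).roots)
    {D1 : ℤ} {Ω : (Fin (n + 1) → Jx n (Fin (n + 1) → RK)) → Fin (n + 1) → Fin (n + 1) → 𝓞 K}
    (hΩ : ∀ γ k j, (Ω γ k j : K) = (D1 : K) * QQ (LK RK) γ k j) (σ : K ≃ₐ[ℚ] K)
    (γ : Fin (n + 1) → Jx n (Fin (n + 1) → RK)) :
    ∃ γ', ∀ k j, (Ω γ' k j : K) = σ (Ω γ k j : K) := by
  have hroot : ∀ P ∈ RK, σ P ∈ RK := by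
    intro P hP
    rw [hRK] at hP ⊢
    rw [Polynomial.mem_roots'] at hP ⊢
    refine ⟨hP.1, ?_⟩
    have h1 : (mp K G).map (σ : K →+* K) = mp K G := mp_map (σ : K →+* K) G
    have h2 : (mp K G).eval P = 0 := hP.2
    show (mp K G).eval (σ P) = 0
    conv_lhs => rw [← h1]
    have h3 : σ P = (σ : K →+* K) P := rfl
    rw [h3, Polynomial.eval_map, Polynomial.eval₂_hom, h2, map_zero]
  set f : (Fin (n + 1) → RK) → (Fin (n + 1) → RK) := fun v j =>
    ⟨σ (v j : K), hroot _ (v j).2⟩ with hf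
  refine ⟨fun k => mapJ f (γ k), fun k j => ?_⟩
  rw [hΩ, hΩ, map_mul, map_intCast, QQ_mapJ]
  congr 1
  have h1 := QQ_map (σ : K →+* K) (LK RK) γ k j
  exact h1

/-- substitutions and multiples -/
theorem sb_mul_PY {F : Type} [Field F] (c : F) (Q : Fin (n + 1) → Fin (n + 1) → F) {r : ℕ}
    (y : Fin (NN n r) → F) : sb (fun k j => c * Q k j) (PY F y) = C (c ^ r) * sb Q (PY F y) := by
  unfold PY
  rw [map_sum, map_sum, Finset.mul_sum]
  refine Finset.sum_congr rfl fun i _ => ?_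
  rw [sb_monomial, sb_monomial]
  have h1 : ∀ j : Fin (n + 1), (∑ k, C (c * Q k j) * X k : MvPolynomial (Fin (n + 1)) F) =
      C c * ∑ k, C (Q k j) * X k := by
    intro j
    rw [Finset.mul_sum]
    refine Finset.sum_congr rfl fun k _ => ?_
    rw [C_mul, mul_assoc]
  simp only [h1, mul_pow]
  rw [Finset.prod_mul_distrib, Finset.prod_pow_eq_pow_sum]
  have h3 := mem_AD.1 (ee n r i).2
  rw [Finsupp.degree_eq_sum] at h3
  rw [h3, ← map_pow]
  ring

/-- **One place**, frames depending on the conjugates. -/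
theorem placeM {F : Type} [NormedField F] [CharZero F] [IsAlgClosed F] (ψ : K →+* F)
    (w : Pl K) (c : ℝ) (hc : 0 < c) (hψ : ∀ z, ‖ψ z‖ = av w z ^ c) (r j m0 : ℕ) (hr : 1 ≤ r)
    (hN : n * NN n (j * r + m0) ≤ j.choose (n + 1))
    (G : Polynomial ℤ) (hsp : (mp K G).Splits) {RK : Finset K}
    (hRK : ∀ P, P ∈ RK ↔ P ∈ (mp K G).roots) (h0 : (0 : K) ∈ RK) (h1 : (1 : K) ∈ RK) {D1 : ℤ}
    (hD1 : D1 ≠ 0)
    {Ω : (Fin (n + 1) → Jx n (Fin (n + 1) → RK)) → Fin (n + 1) → Fin (n + 1) → 𝓞 K}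
    (hΩ : ∀ γ k j, (Ω γ k j : K) = (D1 : K) * QQ (LK RK) γ k j) :
    ∃ Cc : ℝ, 0 ≤ Cc ∧ ∀ (E : Type) [Field E] [NumberField E], Module.finrank ℚ E = r →
      ∀ x : Fin (n + 1) → 𝓞 E, x ≠ 0 → ∀ (g : ℤ) (y : Fin (NN n r) → ℤ), g ≠ 0 →
      nf x = C g * PY ℤ y → ∀ {m : ℕ} (h : Fin m → Fin (NN n r) → ℤ) (B : ℝ),
      (∀ k, ∀ l : (Fin (n + 1) → Jx n (Fin (n + 1) → RK)) × AD n r,
        av w (∑ i, (LLg Ω r l i : K) * ((h k i : ℤ) : K)) ≤
        Real.exp B * av w (∑ i, (LLg Ω r l i : K) * ((y i : ℤ) : K))) →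
      ∀ (κ : Fin (NN n (j * r + m0)) → Fin j → Fin m) (b : Fin (NN n (j * r + m0)) → AD n m0),
      Dt r j m0 h κ b ≠ 0 →
      ∀ Λ : (Fin (n + 1) → (E →+* F)) → Fin (n + 1) → Fin (n + 1) → F,
      (∀ σ k j, Λ σ k j ∈ (mp F G).roots) → (∀ σ, (Matrix.of (Λ σ)).det ≠ 0) →
      Real.log ‖((Dt r j m0 h κ b : ℤ) : F)‖ ≤
        (NN n (j * r + m0) : ℝ) * (j * (c * B + (∑ τ : E →+* F,
          Real.log ‖fun i => τ (x i : E)‖ - Real.log ‖(g : F)‖))) +
          Cc - ((j.choose (n + 1) : ℝ) - n * (NN n (j * r + m0) : ℝ)) *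
          ∑ σ : Fin (n + 1) → (E →+* F), td (fun (τ : E →+* F) k =>
            lamH (Λ σ k) (fun i => τ (x i : E))) σ := by
  classical
  set L : (Fin (n + 1) → RK) → Fin (n + 1) → F := fun v j => ψ (LK RK v j) with hL
  have hs : ∃ β : Fin (n + 1) → (Fin (n + 1) → RK), (Matrix.of fun a => L (β a)).det ≠ 0 := by
    refine ⟨fun a j => if a = j then ⟨1, h1⟩ else ⟨0, h0⟩, ?_⟩
    have e1 : (Matrix.of fun a => L (fun j => if a = j then (⟨1, h1⟩ : RK) else ⟨0, h0⟩)) =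
        (1 : Matrix (Fin (n + 1)) (Fin (n + 1)) F) := by
      ext a j
      rw [Matrix.of_apply, Matrix.one_apply]
      show ψ (((if a = j then (⟨1, h1⟩ : RK) else ⟨0, h0⟩) : RK) : K) = _
      split_ifs
      · exact map_one ψ
      · exact map_zero ψ
    rw [e1, Matrix.det_one]
    exact one_ne_zero
  obtain ⟨Cc, hC, hloc⟩ := loc_multi L hs r j m0 hr hN
  refine ⟨Cc, hC, fun E _ _ hE x hx g y hg hnf {m} h B hB κ b hΔ Λ hΛ hdet => ?_⟩
  have hH : Fintype.card (E →+* F) = r := by rw [card_emb F, hE]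
  have hℓ : ∀ τ : E →+* F, (fun i => τ (x i : E)) ≠ 0 := by
    intro τ h0
    apply hx
    funext i
    have h1 : τ (x i : E) = 0 := congrFun h0 i
    exact RingOfIntegers.ext (by simpa using h1)
  have hgF : (g : F) ≠ 0 := by exact_mod_cast hg
  have hfac : C (g : F) * PY F (fun i => ((y i : ℤ) : F)) =
      ∏ τ : E →+* F, ∑ j, C (τ (x j : E)) * X j := by
    rw [← nf_map F x, hnf, map_mul, PY_map, map_C]
    rfl
  have hD1F : 0 < ‖(D1 : F)‖ ^ r := pow_pos (norm_pos_iff.2 (by exact_mod_cast hD1)) r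
  have hscale : ∀ (γ : Fin (n + 1) → Jx n (Fin (n + 1) → RK)) (a : Fin (n + 1) →₀ ℕ)
      (z : Fin (NN n r) → ℤ),
      ‖(sb (fun k j => ψ (Ω γ k j : K)) (PY F fun i => ((z i : ℤ) : F))).coeff a‖ =
        ‖(D1 : F)‖ ^ r * ‖(sb (QQ L γ) (PY F fun i => ((z i : ℤ) : F))).coeff a‖ := by
    intro γ a z
    have e1 : (fun k j => ψ (Ω γ k j : K)) = fun k j => (D1 : F) * QQ L γ k j := by
      funext k j
      rw [hΩ, map_mul, map_intCast, hL, QQ_map]
    rw [e1, sb_mul_PY, coeff_C_mul, norm_mul, norm_pow]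
  have hcomp : ∀ k γ a, ‖(sb (QQ L γ) (PY F fun i => ((h k i : ℤ) : F))).coeff a‖ ≤
        Real.exp (c * B) * ‖(sb (QQ L γ) (PY F fun i => ((y i : ℤ) : F))).coeff a‖ := by
    intro k γ a
    by_cases ha : a ∈ AD n r
    · have e1 := hB k (γ, ⟨a, ha⟩)
      unfold LLg at e1
      simp only at e1
      rw [val_LL, val_LL] at e1
      have e3 := Real.rpow_le_rpow ((av w).nonneg _) e1 hc.le
      rw [Real.mul_rpow (Real.exp_pos _).le ((av w).nonneg _), ← Real.exp_mul, mul_comm B c,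
        ← hψ, ← hψ, map_sb_coeff ψ (fun k j => (Ω γ k j : K)) a (h k),
        map_sb_coeff ψ (fun k j => (Ω γ k j : K)) a y, hscale, hscale] at e3
      have e4 : Real.exp (c * B) * (‖(D1 : F)‖ ^ r *
          ‖(sb (QQ L γ) (PY F fun i => ((y i : ℤ) : F))).coeff a‖) =
          ‖(D1 : F)‖ ^ r * (Real.exp (c * B) *
          ‖(sb (QQ L γ) (PY F fun i => ((y i : ℤ) : F))).coeff a‖) := by ring
      rw [e4] at e3
      exact le_of_mul_le_mul_left e3 hD1F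
    · have e1 : a.degree ≠ r := fun h => ha (mem_AD.2 h)
      rw [(sb_hom _ (PY_hom _)).coeff_eq_zero e1, norm_zero]
      exact mul_nonneg (Real.exp_pos _).le (norm_nonneg _)
  have hΔF : ((Dt r j m0 h κ b : ℤ) : F) ≠ 0 := by exact_mod_cast hΔ
  rw [Dt_cast F] at hΔF ⊢
  have hΦ : ∀ σ : Fin (n + 1) → (E →+* F), ∃ Λ' : Fin (n + 1) → (Fin (n + 1) → RK),
      (Matrix.of fun k => L (Λ' k)).det ≠ 0 ∧
      td (fun (τ : E →+* F) k => lamH (Λ σ k) (fun i => τ (x i : E))) σ ≤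
        td (fun (τ : E →+* F) k => lamH (L (Λ' k)) (fun i => τ (x i : E))) σ := by
    intro σ
    have hβ : ∀ k i, ∃ z : RK, ψ (z : K) = Λ σ k i := by
      intro k i
      have e1 := hΛ σ k i
      rw [← mp_map ψ, hsp.roots_map] at e1
      obtain ⟨P', e2, e3⟩ := Multiset.mem_map.1 e1
      exact ⟨⟨P', (hRK P').2 e2⟩, e3⟩
    choose β hβ using hβ
    have e1 : (fun k => L (β k)) = Λ σ := by
      funext k i
      exact hβ k i
    refine ⟨β, ?_, ?_⟩
    · rw [e1]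
      exact hdet σ
    · have e2 : ∀ k, L (β k) = Λ σ k := fun k => congrFun e1 k
      simp only [e2]
      exact le_rfl
  have h2 := hloc (H := E →+* F) hH (fun τ i => τ (x i : E)) hℓ
    (fun i => ((y i : ℤ) : F)) (g : F) hgF hfac (fun k i => ((h k i : ℤ) : F))
    (Real.exp (c * B)) (Real.exp_pos _) hcomp κ b hΔF
    (fun σ => td (fun (τ : E →+* F) k => lamH (Λ σ k) (fun i => τ (x i : E))) σ) hΦ
  rw [Real.log_exp] at h2
  exact h2

end Pool.Agent.T9h24
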