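import Mathlib
import Pool.Agent.T9h24.Gmm

/-!
The main inequality with frames depending on the conjugates: integral coordinates.
-/

set_option autoImplicit false
set_option linter.unusedSectionVars false

open Finset MvPolynomial NumberField IsDedekindDomain

namespace Pool.Agent.T9h24

open Pool.Agent.W180.OP (Pl av wt nrm le_nrm nrm_pos)
open Pool.Agent.TeamU (Over act mem_act)

/-- the roots of a multiple -/
theorem roots_mul_left {F : Type} [Field F] [CharZero F] {G H : Polynomial ℤ} (hH : G * H ≠ 0)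
    {z : F} (hz : z ∈ (mp F G).roots) : z ∈ (mp F (G * H)).roots := by
  rw [Polynomial.mem_roots'] at hz ⊢
  refine ⟨mp_ne hH, ?_⟩
  unfold mp
  rw [Polynomial.IsRoot, Polynomial.map_mul, Polynomial.eval_mul]
  have h1 : (mp F G).eval z = 0 := hz.2
  unfold mp at h1
  rw [h1, zero_mul]

/-- **Main inequality**, integral coordinates. -/
theorem mainM (n r : ℕ) (hr : 1 ≤ r) (G : Polynomial ℤ) (hG : G ≠ 0) :
    ∃ Z : Finset (Fin (n + 1) → AlgebraicClosure ℚ), (∀ u ∈ Z, u ≠ 0) ∧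
      ∀ (S : Finset Nat.Primes) (ε : ℝ), 0 < ε → ∃ Cc : ℝ, ∀ (E : Type) [Field E]
        [NumberField E], Module.finrank ℚ E = r → ∀ x : Fin (n + 1) → 𝓞 E, x ≠ 0 →
      (∀ u ∈ Z, ∀ τ : E →+* AlgebraicClosure ℚ, ∑ j, u j * τ (x j : E) ≠ 0) →
      ∀ Λ : (Fin (n + 1) → (E →+* ℂ)) → Fin (n + 1) → Fin (n + 1) → ℂ,
        (∀ σ k j, Λ σ k j ∈ (mp ℂ G).roots) → (∀ σ, (Matrix.of (Λ σ)).det ≠ 0) →
      ∀ Λp : ∀ p : Nat.Primes, (Fin (n + 1) → (E →+* PadicAlgCl p)) →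
        Fin (n + 1) → Fin (n + 1) → PadicAlgCl p,
        (∀ p ∈ S, ∀ σ k j, Λp p σ k j ∈ (mp (PadicAlgCl p) G).roots) →
        (∀ p ∈ S, ∀ σ, (Matrix.of (Λp p σ)).det ≠ 0) →
      ∑ σ : Fin (n + 1) → (E →+* ℂ), td (fun (τ : E →+* ℂ) k =>
          lamH (Λ σ k) (fun i => τ (x i : E))) σ +
        ∑ p ∈ S, ∑ σ : Fin (n + 1) → (E →+* PadicAlgCl p), td (fun (τ : E →+* PadicAlgCl p) k =>
          lamH (Λp p σ k) (fun i => τ (x i : E))) σ ≤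
        (r : ℝ) ^ n * ((n : ℝ) + 1 + ε) * Height.logHeight (fun i => (x i : E)) + Cc := by
  classical
  set G1 : Polynomial ℤ := G * (Polynomial.X * (Polynomial.X - 1)) with hG1
  have hX1 : (Polynomial.X - 1 : Polynomial ℤ) ≠ 0 := by
    rw [← Polynomial.C_1]
    exact Polynomial.X_sub_C_ne_zero 1
  have hG10 : G1 ≠ 0 := mul_ne_zero hG (mul_ne_zero Polynomial.X_ne_zero hX1)
  obtain ⟨K, _, _, hgal, hi, hsp⟩ := exists_field G1 hG10
  obtain ⟨-, RK, -, -, hRK, -⟩ := exists_roots (K := K) G1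
  have h0K : (0 : K) ∈ RK := by
    rw [hRK, Polynomial.mem_roots']
    refine ⟨mp_ne hG10, ?_⟩
    rw [hG1]
    unfold mp
    simp
  have h1K : (1 : K) ∈ RK := by
    rw [hRK, Polynomial.mem_roots']
    refine ⟨mp_ne hG10, ?_⟩
    rw [hG1]
    unfold mp
    simp
  obtain ⟨D1, Ω, hD1, hΩ⟩ := exists_Om n RK
  obtain ⟨TT, hTT⟩ := full hi (NN n r) (LLg (n := n) Ω r) (fun σ l =>
    LLg_gal Ω r σ (fun γ => Om_gal G1 hRK hΩ σ γ) l)
  have hns : ∀ W : Submodule ℚ (Fin (NN n r) → ℚ), ∃ (u : Fin (n + 1) → AlgebraicClosure ℚ)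
      (m0 : ℕ), u ≠ 0 ∧ ((∀ P ∈ idl W, MvPolynomial.aeval u P = 0) ∨
        ∀ D, m0 ≤ D → ∀ Q : MvPolynomial (Fin (n + 1)) ℚ, Q.IsHomogeneous D → Q ∈ idl W) := by
    intro W
    rcases ns (idl W) with ⟨u, hu, h⟩ | ⟨m0, h⟩
    · exact ⟨u, 0, hu, Or.inl h⟩
    · exact ⟨fun _ => 1, m0, fun h0 => one_ne_zero (congrFun h0 0), Or.inr h⟩
  choose uW mW huW hnsW using hns
  refine ⟨TT.image uW, fun u hu => ?_, fun S ε hε => ?_⟩
  · obtain ⟨W, -, rfl⟩ := Finset.mem_image.1 hu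
    exact huW W
  set m0 : ℕ := ∑ W ∈ TT, mW W with hm0
  obtain ⟨j, hj0, hj⟩ := numer2 n r m0 hr (ε / 2) (by linarith)
  obtain ⟨T, hT, hT'⟩ := exists_T (K := K) S
  -- the places
  obtain ⟨ψ⟩ := exists_emb K ℂ
  have hψ : ∀ z, ‖ψ z‖ = av (Sum.inl (InfinitePlace.mk ψ) : Pl K) z ^ (1 : ℝ) := fun z => by
    rw [Real.rpow_one]
    exact (InfinitePlace.apply ψ z).symm
  obtain ⟨C1, hC1, hinf⟩ := placeM (n := n) ψ (Sum.inl (InfinitePlace.mk ψ)) 1 one_pos hψ r j m0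
    hr hj0.le G1 hsp hRK h0K h1K hD1 hΩ
  have hfinp : ∀ p : Nat.Primes, ∃ (w : Pl K) (c C : ℝ), (p ∈ S → ∀ Q, w = Sum.inr Q → Q ∈ T) ∧
      0 < c ∧ 0 ≤ C ∧ ∀ (E : Type) [Field E] [NumberField E], Module.finrank ℚ E = r →
      ∀ x : Fin (n + 1) → 𝓞 E, x ≠ 0 → ∀ (g : ℤ) (y : Fin (NN n r) → ℤ), g ≠ 0 →
      nf x = MvPolynomial.C g * PY ℤ y → ∀ {m : ℕ} (h : Fin m → Fin (NN n r) → ℤ) (B : ℝ),
      (∀ k, ∀ l : (Fin (n + 1) → Jx n (Fin (n + 1) → RK)) × AD n r,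
        av w (∑ i, (LLg Ω r l i : K) * ((h k i : ℤ) : K)) ≤
        Real.exp B * av w (∑ i, (LLg Ω r l i : K) * ((y i : ℤ) : K))) →
      ∀ (κ : Fin (NN n (j * r + m0)) → Fin j → Fin m) (b : Fin (NN n (j * r + m0)) → AD n m0),
      Dt r j m0 h κ b ≠ 0 →
      ∀ Λ : (Fin (n + 1) → (E →+* PadicAlgCl p)) → Fin (n + 1) → Fin (n + 1) → PadicAlgCl p,
      (∀ σ k j, Λ σ k j ∈ (mp (PadicAlgCl p) G1).roots) → (∀ σ, (Matrix.of (Λ σ)).det ≠ 0) →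
      Real.log ‖((Dt r j m0 h κ b : ℤ) : PadicAlgCl p)‖ ≤
        (NN n (j * r + m0) : ℝ) * (j * (c * B + (∑ τ : E →+* PadicAlgCl p,
          Real.log ‖fun i => τ (x i : E)‖ - Real.log ‖(g : PadicAlgCl p)‖))) +
          C - ((j.choose (n + 1) : ℝ) - n * (NN n (j * r + m0) : ℝ)) *
          ∑ σ : Fin (n + 1) → (E →+* PadicAlgCl p), td (fun (τ : E →+* PadicAlgCl p) k =>
            lamH (Λ σ k) (fun i => τ (x i : E))) σ := by
    intro p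
    obtain ⟨ψp⟩ := exists_emb K (PadicAlgCl p)
    have hp0 : (((p : ℕ) : ℕ) : PadicAlgCl p) ≠ 0 := by exact_mod_cast p.2.ne_zero
    have hp1 : ‖(((p : ℕ) : ℕ) : PadicAlgCl p)‖ < 1 := by
      have h1 := norm_int_padicAlgCl (p : ℕ) ((p : ℕ) : ℤ)
      push_cast at h1
      rw [h1, Padic.norm_p]
      exact inv_lt_one_of_one_lt₀ (by exact_mod_cast p.2.one_lt)
    obtain ⟨Q, hQ, c, hc, hψp⟩ := padic_place ψp (p : ℕ) hp0 hp1
    obtain ⟨C, hC, hplace⟩ := placeM (n := n) ψp (Sum.inr Q) c hc hψp r j m0 hr hj0.le G1 hsp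
      hRK h0K h1K hD1 hΩ
    exact ⟨Sum.inr Q, c, C, fun hp Q' hQ' => by
      rw [← Sum.inr.inj hQ']
      exact hT' Q ⟨p, hp, hQ⟩, hc, hC, hplace⟩
  choose w c Cp hwT hc hCp hplace using hfinp
  have hAp : ∀ p : Nat.Primes, ∃ Cc : ℝ, 0 ≤ Cc ∧ ∀ (E : Type) [Field E] [NumberField E],
      Module.finrank ℚ E = r → ∀ x : Fin (n + 1) → 𝓞 E, x ≠ 0 →
      ∀ (g : ℤ) (y : Fin (NN n r) → ℤ), g ≠ 0 → nf x = C g * PY ℤ y →
      ∑ τ : E →+* PadicAlgCl p, Real.log ‖fun i => τ (x i : E)‖ -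
        Real.log ‖(g : PadicAlgCl p)‖ ≤ Cc := fun p => padic_A n r
  choose A' hA'0 hA' using hAp
  have hcs0 : 0 ≤ ∑ p ∈ S, c p := Finset.sum_nonneg fun p _ => (hc p).le
  have hn0 : (0 : ℝ) ≤ n := Nat.cast_nonneg n
  set e' : ℝ := ε / 2 / ((1 + ∑ p ∈ S, c p) * ((n : ℝ) + 1 + ε / 2)) with he'
  have hden : 0 < (1 + ∑ p ∈ S, c p) * ((n : ℝ) + 1 + ε / 2) :=
    mul_pos (by linarith) (by linarith)
  have he'0 : 0 < e' := div_pos (by linarith) hden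
  have hee : e' * (1 + ∑ p ∈ S, c p) * ((n : ℝ) + 1 + ε / 2) = ε / 2 := by
    rw [mul_assoc, he', div_mul_cancel₀ _ hden.ne']
  obtain ⟨C0, hC0, hcomp⟩ := hTT T hT e' he'0
  set N : ℝ := (NN n (j * r + m0) : ℝ) * j with hN
  set κ : ℝ := (j.choose (n + 1) : ℝ) - n * (NN n (j * r + m0) : ℝ) with hκ
  have hN0 : 0 ≤ N := mul_nonneg (Nat.cast_nonneg _) (Nat.cast_nonneg _)
  have hκ0 : 0 < κ := by
    have h1 : ((n * NN n (j * r + m0) : ℕ) : ℝ) < (j.choose (n + 1) : ℝ) := by exact_mod_cast hj0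
    push_cast at h1
    rw [hκ]
    linarith
  set L1 : ℝ := r * Real.log ((n : ℝ) + 1) with hL1
  refine ⟨(N * ((1 + ∑ p ∈ S, c p) * (C0 + e' * L1) + ∑ p ∈ S, A' p) + C1 + ∑ p ∈ S, Cp p) / κ,
    fun E _ _ hE x hx hZ Λ hΛ hΛd Λp hΛp hΛpd => ?_⟩
  obtain ⟨g, y, hg, hy, hnf, hsz, hAinf⟩ := exists_form x hx r hE
  obtain ⟨W, hW, hyW, m, h, hspan, hbd⟩ := hcomp y hy
  -- there is no common zero
  have hnsW2 : ∀ D, m0 + r ≤ D → ∀ Q : MvPolynomial (Fin (n + 1)) ℚ, Q.IsHomogeneous D →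
      Q ∈ Ideal.span (Set.range fun k => PY ℚ fun i => (h k i : ℚ)) := by
    rcases hnsW W with h1 | h1
    · exfalso
      obtain ⟨τ, hτ⟩ := vanish x g y hnf W hyW (uW W) h1
      exact hZ _ (Finset.mem_image_of_mem _ hW) τ hτ
    · intro D hD Q hQ
      refine idl_le h W hspan (h1 D ?_ Q hQ)
      have h2 := Finset.single_le_sum (f := mW) (fun W _ => Nat.zero_le _) hW
      rw [← hm0] at h2
      omega
  obtain ⟨κ', b, hΔ⟩ := exists_prods r m0 h hnsW2 j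
  have hΔ' : Dt r j m0 h κ' b ≠ 0 := hΔ
  clear hΔ
  have h1 := hinf E hE x hx g y hg hnf h (C0 + e' * Real.log (sz y))
    (fun k l => hbd k _ (fun Q hQ => absurd hQ (by simp)) l) κ' b hΔ' Λ
    (fun σ k j => roots_mul_left hG10 (hΛ σ k j)) hΛd
  have h2 : ∀ p ∈ S, Real.log ‖((Dt r j m0 h κ' b : ℤ) : PadicAlgCl p)‖ ≤
        N * (c p * (C0 + e' * Real.log (sz y)) + (∑ τ : E →+* PadicAlgCl p,
          Real.log ‖fun i => τ (x i : E)‖ - Real.log ‖(g : PadicAlgCl p)‖)) +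
          Cp p - κ *
          ∑ σ : Fin (n + 1) → (E →+* PadicAlgCl p), td (fun (τ : E →+* PadicAlgCl p) k =>
            lamH (Λp p σ k) (fun i => τ (x i : E))) σ := by
    intro p hp
    have h3 := hplace p E hE x hx g y hg hnf h (C0 + e' * Real.log (sz y))
      (fun k l => hbd k _ (hwT p hp) l) κ' b hΔ' (Λp p)
      (fun σ k j => roots_mul_left hG10 (hΛp p hp σ k j)) (hΛpd p hp)
    rw [← mul_assoc] at h3
    exact h3
  rw [← mul_assoc] at h1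
  have hs := sum_log_nonneg S _ hΔ'
  have h5 : Real.log ‖((Dt r j m0 h κ' b : ℤ) : ℂ)‖ =
      Real.log |((Dt r j m0 h κ' b : ℤ) : ℝ)| := by
    rw [Complex.norm_intCast]
  have h6 : ∑ p ∈ S, Real.log ‖((Dt r j m0 h κ' b : ℤ) : PadicAlgCl p)‖ =
      ∑ p ∈ S, Real.log ‖((Dt r j m0 h κ' b : ℤ) : ℚ_[(p : ℕ)])‖ :=
    Finset.sum_congr rfl fun p _ => by rw [norm_int_padicAlgCl]
  rw [← h5, ← h6] at hs
  have hAi : ∑ τ : E →+* ℂ, Real.log ‖fun i => τ (x i : E)‖ - Real.log ‖(g : ℂ)‖ ≤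
      Height.logHeight (fun i => (x i : E)) := by
    rw [Complex.norm_intCast, ← Real.log_prod]
    · exact hAinf
    · intro τ _
      refine (norm_pos_iff.2 fun h0 => hx ?_).ne'
      funext i
      have h7 : τ (x i : E) = 0 := congrFun h0 i
      exact RingOfIntegers.ext (by simpa using h7)
  exact final_arith S hκ0 (by positivity) hN0 hj (fun p _ => (hc p).le) hee he'0.le h1 h2 hs hAi
    (fun p _ => hA' p E hE x hx g y hg hnf) rfl hsz (Height.logHeight_nonneg _)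

end Pool.Agent.T9h24
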