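import Mathlib
import Pool.Agent.T9h24.Lci
import Pool.Agent.T9h24.Mnm

/-!
The main inequality, intrinsic form.
-/

set_option autoImplicit false
set_option linter.unusedSectionVars false

open Finset MvPolynomial NumberField IsDedekindDomain

namespace Pool.Agent.T9h24

open Pool.Agent.W180.OP (Pl av wt nrm le_nrm nrm_pos)
open Pool.Agent.TeamU (Over act mem_act)

section place

variable {K : Type} [Field K] [NumberField K] {n : ℕ}

/-- **One place**, intrinsic form. -/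
theorem placeI {F : Type} [NormedField F] [CharZero F] [IsAlgClosed F] (ψ : K →+* F)
    (hF : ∀ R : ℝ, ∃ c : F, R ≤ ‖c‖) (w : Pl K) (c : ℝ) (hc : 0 < c) (hψ : ∀ z, ‖ψ z‖ = av w z ^ c) (r j m0 : ℕ) (hr : 1 ≤ r)
    (hN : n * NN n (j * r + m0) ≤ j.choose (n + 1))
    (G : Polynomial ℤ) (hsp : (mp K G).Splits) {RK : Finset K}
    (hRK : ∀ P, P ∈ RK ↔ P ∈ (mp K G).roots) (h0 : (0 : K) ∈ RK) (h1 : (1 : K) ∈ RK) {D1 : ℤ}
    (hD1 : D1 ≠ 0)
    {Ω : (Fin (n + 1) → Jx n (Fin (n + 1) → RK)) → Fin (n + 1) → Fin (n + 1) → 𝓞 K}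
    (hΩ : ∀ γ k j, (Ω γ k j : K) = (D1 : K) * QQ (LK RK) γ k j) :
    ∃ Cc : ℝ, 0 ≤ Cc ∧ ∀ (E : Type) [Field E] [NumberField E], Module.finrank ℚ E = r →
      ∀ x : Fin (n + 1) → 𝓞 E, x ≠ 0 → ∀ (g : ℤ) (y : Fin (NN n r) → ℤ), g ≠ 0 →
      nf x = C g * PY ℤ y → ∀ {m : ℕ} (h : Fin m → Fin (NN n r) → ℤ) (B : ℝ),
      (∀ k, ∀ l : (Fin (n + 1) → Jx n (Fin (n + 1) → RK)) × AD n r,
        av w (∑ i, (LLg Ω r l i : K) * ((h k i : ℤ) : K)) ≤
        Real.exp B * av w (∑ i, (LLg Ω r l i : K) * ((y i : ℤ) : K))) →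
      ∀ (κ : Fin (NN n (j * r + m0)) → Fin j → Fin m) (b : Fin (NN n (j * r + m0)) → AD n m0),
      Dt r j m0 h κ b ≠ 0 →
      (∀ (τ : E →+* F) (Λ : Fin (n + 1) → F), (∀ j, Λ j ∈ (mp F G).roots) →
        Λ = 0 ∨ lf Λ (fun i => τ (x i : E)) ≠ 0) →
      ∀ Φ : (Fin (n + 1) → (E →+* F)) → ℝ,
      (∀ σ : Fin (n + 1) → (E →+* F), ∀ z : Fin (n + 1) → Fin (n + 1) → F,
        (∀ (l : Fin (n + 1)) (Λ : Fin (n + 1) → F), (∀ j, Λ j ∈ (mp F G).roots) →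
          ‖lf Λ (z l)‖ * ‖fun i => σ l (x i : E)‖ ≤ ‖lf Λ (fun i => σ l (x i : E))‖) →
        ‖(Matrix.of z).det‖ ≤ Real.exp (-(Φ σ))) →
      Real.log ‖((Dt r j m0 h κ b : ℤ) : F)‖ ≤
        (NN n (j * r + m0) : ℝ) * (j * (c * B + (∑ τ : E →+* F,
          Real.log ‖fun i => τ (x i : E)‖ - Real.log ‖(g : F)‖))) +
          Cc - ((j.choose (n + 1) : ℝ) - n * (NN n (j * r + m0) : ℝ)) *
          ∑ σ : Fin (n + 1) → (E →+* F), Φ σ := by
  classical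
  set L : (Fin (n + 1) → RK) → Fin (n + 1) → F := fun v j => ψ (LK RK v j) with hL
  have hs : ∃ β : Fin (n + 1) → (Fin (n + 1) → RK), (Matrix.of fun a => L (β a)).det ≠ 0 := by
    refine ⟨fun a j => if a = j then ⟨1, h1⟩ else ⟨0, h0⟩, ?_⟩
    have e1 : (Matrix.of fun a => L (fun j => if a = j then (⟨1, h1⟩ : RK) else ⟨0, h0⟩)) =
        (1 : Matrix (Fin (n + 1)) (Fin (n + 1)) F) := by
      ext a j
      rw [Matrix.of_apply, Matrix.one_apply]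
      show ψ (((if a = j then (⟨1, h1⟩ : RK) else ⟨0, h0⟩) : RK) : K) = _
      split_ifs
      · exact map_one ψ
      · exact map_zero ψ
    rw [e1, Matrix.det_one]
    exact one_ne_zero
  obtain ⟨Cc, hC, hloc⟩ := loc_int hF L hs r j m0 hr hN
  refine ⟨Cc, hC, fun E _ _ hE x hx g y hg hnf {m} h B hB κ b hΔ hoff Φ hΦ => ?_⟩
  have hH : Fintype.card (E →+* F) = r := by rw [card_emb F, hE]
  have hℓ : ∀ τ : E →+* F, (fun i => τ (x i : E)) ≠ 0 := by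
    intro τ h0
    apply hx
    funext i
    have h1 : τ (x i : E) = 0 := congrFun h0 i
    exact RingOfIntegers.ext (by simpa using h1)
  have hgF : (g : F) ≠ 0 := by exact_mod_cast hg
  have hfac : C (g : F) * PY F (fun i => ((y i : ℤ) : F)) =
      ∏ τ : E →+* F, ∑ j, C (τ (x j : E)) * X j := by
    rw [← nf_map F x, hnf, map_mul, PY_map, map_C]
    rfl
  have hD1F : 0 < ‖(D1 : F)‖ ^ r := pow_pos (norm_pos_iff.2 (by exact_mod_cast hD1)) r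
  have hscale : ∀ (γ : Fin (n + 1) → Jx n (Fin (n + 1) → RK)) (a : Fin (n + 1) →₀ ℕ)
      (z : Fin (NN n r) → ℤ),
      ‖(sb (fun k j => ψ (Ω γ k j : K)) (PY F fun i => ((z i : ℤ) : F))).coeff a‖ =
        ‖(D1 : F)‖ ^ r * ‖(sb (QQ L γ) (PY F fun i => ((z i : ℤ) : F))).coeff a‖ := by
    intro γ a z
    have e1 : (fun k j => ψ (Ω γ k j : K)) = fun k j => (D1 : F) * QQ L γ k j := by
      funext k j
      rw [hΩ, map_mul, map_intCast, hL, QQ_map]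
    rw [e1, sb_mul_PY, coeff_C_mul, norm_mul, norm_pow]
  have hcomp : ∀ k γ a, ‖(sb (QQ L γ) (PY F fun i => ((h k i : ℤ) : F))).coeff a‖ ≤
        Real.exp (c * B) * ‖(sb (QQ L γ) (PY F fun i => ((y i : ℤ) : F))).coeff a‖ := by
    intro k γ a
    by_cases ha : a ∈ AD n r
    · have e1 := hB k (γ, ⟨a, ha⟩)
      unfold LLg at e1
      simp only at e1
      rw [val_LL, val_LL] at e1
      have e3 := Real.rpow_le_rpow ((av w).nonneg _) e1 hc.le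
      rw [Real.mul_rpow (Real.exp_pos _).le ((av w).nonneg _), ← Real.exp_mul, mul_comm B c,
        ← hψ, ← hψ, map_sb_coeff ψ (fun k j => (Ω γ k j : K)) a (h k),
        map_sb_coeff ψ (fun k j => (Ω γ k j : K)) a y, hscale, hscale] at e3
      have e4 : Real.exp (c * B) * (‖(D1 : F)‖ ^ r *
          ‖(sb (QQ L γ) (PY F fun i => ((y i : ℤ) : F))).coeff a‖) =
          ‖(D1 : F)‖ ^ r * (Real.exp (c * B) *
          ‖(sb (QQ L γ) (PY F fun i => ((y i : ℤ) : F))).coeff a‖) := by ring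
      rw [e4] at e3
      exact le_of_mul_le_mul_left e3 hD1F
    · have e1 : a.degree ≠ r := fun h => ha (mem_AD.2 h)
      rw [(sb_hom _ (PY_hom _)).coeff_eq_zero e1, norm_zero]
      exact mul_nonneg (Real.exp_pos _).le (norm_nonneg _)
  have hΔF : ((Dt r j m0 h κ b : ℤ) : F) ≠ 0 := by exact_mod_cast hΔ
  rw [Dt_cast F] at hΔF ⊢
  have hβ : ∀ Λ : Fin (n + 1) → F, (∀ j, Λ j ∈ (mp F G).roots) →
      ∃ v : Fin (n + 1) → RK, L v = Λ := by
    intro Λ hΛ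
    have e0 : ∀ i, ∃ z : RK, ψ (z : K) = Λ i := by
      intro i
      have e1 := hΛ i
      rw [← mp_map ψ, hsp.roots_map] at e1
      obtain ⟨P', e2, e3⟩ := Multiset.mem_map.1 e1
      exact ⟨⟨P', (hRK P').2 e2⟩, e3⟩
    choose β hβ using e0
    exact ⟨β, funext fun i => hβ i⟩
  have hLr : ∀ (v : Fin (n + 1) → RK) j, L v j ∈ (mp F G).roots := by
    intro v j
    rw [← mp_map ψ, hsp.roots_map]
    exact Multiset.mem_map_of_mem _ ((hRK _).1 (v j).2)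
  have h2 := hloc (H := E →+* F) hH (fun τ i => τ (x i : E)) hℓ
    (fun i => ((y i : ℤ) : F)) (g : F) hgF hfac (fun k i => ((h k i : ℤ) : F))
    (Real.exp (c * B)) (Real.exp_pos _) hcomp κ b hΔF
    (fun v τ => hoff τ (L v) (hLr v)) Φ (fun σ z hz => hΦ σ z fun l Λ hΛ => by
      obtain ⟨v, rfl⟩ := hβ Λ hΛ
      exact hz l v)
  rw [Real.log_exp] at h2
  exact h2

end place

section main

variable {n : ℕ}

/-- the numbers `Φ σ` bound the determinants of all vectors which are at least as near to the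
hyperplanes as the conjugates -/
def Mixed (F : Type) [NormedField F] (G : Polynomial ℤ) {E : Type} [Field E] [NumberField E]
    (x : Fin (n + 1) → 𝓞 E) (Φ : (Fin (n + 1) → (E →+* F)) → ℝ) : Prop :=
  ∀ σ : Fin (n + 1) → (E →+* F), ∀ z : Fin (n + 1) → Fin (n + 1) → F,
    (∀ (l : Fin (n + 1)) (Λ : Fin (n + 1) → F), (∀ j, Λ j ∈ (mp F G).roots) →
      ‖lf Λ (z l)‖ * ‖fun i => σ l (x i : E)‖ ≤ ‖lf Λ (fun i => σ l (x i : E))‖) →
    ‖(Matrix.of z).det‖ ≤ Real.exp (-(Φ σ))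

/-- the nonzero vectors with entries among the zeros of `G` -/
noncomputable def Zr (n : ℕ) (G : Polynomial ℤ) : Finset (Fin (n + 1) → AlgebraicClosure ℚ) := by
  classical
  exact (Fintype.piFinset fun _ : Fin (n + 1) =>
    (mp (AlgebraicClosure ℚ) G).roots.toFinset).filter (fun z => z ≠ 0)

theorem mem_Zr {n : ℕ} {G : Polynomial ℤ} {z : Fin (n + 1) → AlgebraicClosure ℚ} :
    z ∈ Zr n G ↔ (∀ j, z j ∈ (mp (AlgebraicClosure ℚ) G).roots) ∧ z ≠ 0 := by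
  classical
  unfold Zr
  rw [Finset.mem_filter, Fintype.mem_piFinset]
  simp only [Multiset.mem_toFinset]

theorem exists_norm_ge {F : Type} [NormedField F] (a : F) (h0 : a ≠ 0) (h1 : ‖a‖ < 1) (R : ℝ) :
    ∃ c : F, R ≤ ‖c‖ := by
  have h2 : 1 < ‖a⁻¹‖ := by
    rw [norm_inv]
    exact (one_lt_inv₀ (norm_pos_iff.2 h0)).2 h1
  obtain ⟨k, hk⟩ := pow_unbounded_of_one_lt R h2
  exact ⟨a⁻¹ ^ k, by rw [norm_pow]; exact hk.le⟩

theorem isAlg_Qbar : Algebra.IsAlgebraic ℚ (AlgebraicClosure ℚ) := by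
  have h := AlgebraicClosure.isAlgebraic ℚ
  refine ⟨fun z => ?_⟩
  obtain ⟨p, hp, hz⟩ := h.isAlgebraic z
  refine ⟨p, hp, ?_⟩
  have h1 : (AlgebraicClosure.instAlgebra ℚ : Algebra ℚ (AlgebraicClosure ℚ)) =
    DivisionRing.toRatAlgebra := Subsingleton.elim _ _
  rw [← h1]
  exact hz

theorem exists_lift {E : Type} [Field E] [NumberField E] {F : Type} [Field F] [CharZero F]
    [IsAlgClosed F] (τ : E →+* F) : ∃ (τ0 : E →+* AlgebraicClosure ℚ)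
      (ι : AlgebraicClosure ℚ →+* F), ∀ z, ι (τ0 z) = τ z := by
  have τ0 : E →+* AlgebraicClosure ℚ := (IsAlgClosed.lift : E →ₐ[ℚ] AlgebraicClosure ℚ).toRingHom
  let _ : Algebra E (AlgebraicClosure ℚ) := τ0.toAlgebra
  let _ : Algebra E F := τ.toAlgebra
  have h1 : IsScalarTower ℚ E (AlgebraicClosure ℚ) := IsScalarTower.of_algebraMap_eq fun q => by
    rw [eq_ratCast, eq_ratCast, map_ratCast]
  have h0 := isAlg_Qbar
  have h2 : Algebra.IsAlgebraic E (AlgebraicClosure ℚ) := Algebra.IsAlgebraic.tower_top (K := ℚ) E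
  exact ⟨τ0, (IsAlgClosed.lift (R := E) (M := F) (S := AlgebraicClosure ℚ)).toRingHom,
    fun z => (IsAlgClosed.lift (R := E) (M := F) (S := AlgebraicClosure ℚ)).commutes z⟩

theorem ev0 {K : Type} [Field K] (G : Polynomial ℤ) (h : G.eval 0 = 0) :
   (G.map (Int.castRingHom K)).IsRoot 0 := by
  rw [Polynomial.IsRoot, Polynomial.eval_map, Polynomial.eval₂_at_zero, ← Polynomial.coeff_zero_eq_eval_zero] at *
  rw [h, map_zero]

theorem ev1 {K : Type} [Field K] (G : Polynomial ℤ) (h : G.eval 1 = 0) :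
   (G.map (Int.castRingHom K)).IsRoot 1 := by
  have h1 := Polynomial.eval₂_at_one (Int.castRingHom K) (p := G)
  rw [Polynomial.IsRoot, Polynomial.eval_map, h1, h, map_zero]

theorem off_of_Z {E : Type} [Field E] [NumberField E] {F : Type} [Field F] [CharZero F]
    [IsAlgClosed F] (G : Polynomial ℤ) (x : Fin (n + 1) → 𝓞 E)
    (hZ : ∀ u ∈ Zr n G, ∀ τ : E →+* AlgebraicClosure ℚ, ∑ j, u j * τ (x j : E) ≠ 0)
    (τ : E →+* F) (Λ : Fin (n + 1) → F) (hΛ : ∀ j, Λ j ∈ (mp F G).roots) :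
    Λ = 0 ∨ ∑ j, Λ j * τ (x j : E) ≠ 0 := by
  classical
  obtain ⟨τ0, ι, hι⟩ := exists_lift τ
  have h1 : ∀ j, ∃ z ∈ (mp (AlgebraicClosure ℚ) G).roots, ι z = Λ j := by
    intro j
    have h2 := hΛ j
    have h3 : (mp (AlgebraicClosure ℚ) G).map ι = mp F G := by
      unfold mp
      rw [Polynomial.map_map]
      congr 1
      exact RingHom.ext_int _ _
    rw [← h3, (mp_splits (F := AlgebraicClosure ℚ) G).roots_map] at h2
    exact Multiset.mem_map.1 h2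
  choose u hu hu' using h1
  by_cases h0 : u = 0
  · left
    funext j
    rw [← hu' j, h0]
    exact map_zero ι
  · right
    have h2 := hZ u (mem_Zr.2 ⟨hu, h0⟩) τ0
    have h3 : ∑ j, Λ j * τ (x j : E) = ι (∑ j, u j * τ0 (x j : E)) := by
      rw [map_sum]
      exact Finset.sum_congr rfl fun j _ => by rw [map_mul, hι, hu']
    rw [h3]
    exact (map_ne_zero ι).2 h2

end main

/-- **Main inequality**, integral coordinates, intrinsic form. -/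
theorem mainI (n r : ℕ) (hr : 1 ≤ r) (G : Polynomial ℤ) (hG : G ≠ 0) (hG0 : G.eval 0 = 0)
    (hG1 : G.eval 1 = 0) :
    ∃ Z : Finset (Fin (n + 1) → AlgebraicClosure ℚ), (∀ u ∈ Z, u ≠ 0) ∧
      ∀ (S : Finset Nat.Primes) (ε : ℝ), 0 < ε → ∃ Cc : ℝ, ∀ (E : Type) [Field E]
        [NumberField E], Module.finrank ℚ E = r → ∀ x : Fin (n + 1) → 𝓞 E, x ≠ 0 →
      (∀ u ∈ Z, ∀ τ : E →+* AlgebraicClosure ℚ, ∑ j, u j * τ (x j : E) ≠ 0) →
      ∀ Φ : (Fin (n + 1) → (E →+* ℂ)) → ℝ, Mixed ℂ G x Φ →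
      ∀ Φp : ∀ p : Nat.Primes, (Fin (n + 1) → (E →+* PadicAlgCl p)) → ℝ,
        (∀ p ∈ S, Mixed (PadicAlgCl p) G x (Φp p)) →
      ∑ σ : Fin (n + 1) → (E →+* ℂ), Φ σ +
        ∑ p ∈ S, ∑ σ : Fin (n + 1) → (E →+* PadicAlgCl p), Φp p σ ≤
        (r : ℝ) ^ n * ((n : ℝ) + 1 + ε) * Height.logHeight (fun i => (x i : E)) + Cc := by
  classical
  obtain ⟨K, _, _, hgal, hi, hsp⟩ := exists_field G hG
  obtain ⟨-, RK, -, -, hRK, -⟩ := exists_roots (K := K) G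
  have h0K : (0 : K) ∈ RK := by
    rw [hRK, Polynomial.mem_roots']
    refine ⟨mp_ne hG, ?_⟩
    exact ev0 G hG0
  have h1K : (1 : K) ∈ RK := by
    rw [hRK, Polynomial.mem_roots']
    refine ⟨mp_ne hG, ?_⟩
    exact ev1 G hG1
  obtain ⟨D1, Ω, hD1, hΩ⟩ := exists_Om n RK
  obtain ⟨TT, hTT⟩ := full hi (NN n r) (LLg (n := n) Ω r) (fun σ l =>
    LLg_gal Ω r σ (fun γ => Om_gal G hRK hΩ σ γ) l)
  have hns : ∀ W : Submodule ℚ (Fin (NN n r) → ℚ), ∃ (u : Fin (n + 1) → AlgebraicClosure ℚ)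
      (m0 : ℕ), u ≠ 0 ∧ ((∀ P ∈ idl W, MvPolynomial.aeval u P = 0) ∨
        ∀ D, m0 ≤ D → ∀ Q : MvPolynomial (Fin (n + 1)) ℚ, Q.IsHomogeneous D → Q ∈ idl W) := by
    intro W
    rcases ns (idl W) with ⟨u, hu, h⟩ | ⟨m0, h⟩
    · exact ⟨u, 0, hu, Or.inl h⟩
    · exact ⟨fun _ => 1, m0, fun h0 => one_ne_zero (congrFun h0 0), Or.inr h⟩
  choose uW mW huW hnsW using hns
  refine ⟨TT.image uW ∪ Zr n G, fun u hu => ?_, fun S ε hε => ?_⟩
  · rcases Finset.mem_union.1 hu with hu | hu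
    · obtain ⟨W, -, rfl⟩ := Finset.mem_image.1 hu
      exact huW W
    · exact (mem_Zr.1 hu).2
  set m0 : ℕ := ∑ W ∈ TT, mW W with hm0
  obtain ⟨j, hj0, hj⟩ := numer2 n r m0 hr (ε / 2) (by linarith)
  obtain ⟨T, hT, hT'⟩ := exists_T (K := K) S
  -- the places
  obtain ⟨ψ⟩ := exists_emb K ℂ
  have hψ : ∀ z, ‖ψ z‖ = av (Sum.inl (InfinitePlace.mk ψ) : Pl K) z ^ (1 : ℝ) := fun z => by
    rw [Real.rpow_one]
    exact (InfinitePlace.apply ψ z).symm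
  obtain ⟨C1, hC1, hinf⟩ := placeI (n := n) ψ (fun R => ⟨((|R| : ℝ) : ℂ), by
    rw [Complex.norm_real, Real.norm_eq_abs, abs_abs]
    exact le_abs_self R⟩) (Sum.inl (InfinitePlace.mk ψ)) 1 one_pos hψ r j m0
    hr hj0.le G hsp hRK h0K h1K hD1 hΩ
  have hfinp : ∀ p : Nat.Primes, ∃ (w : Pl K) (c C : ℝ), (p ∈ S → ∀ Q, w = Sum.inr Q → Q ∈ T) ∧
      0 < c ∧ 0 ≤ C ∧ ∀ (E : Type) [Field E] [NumberField E], Module.finrank ℚ E = r →
      ∀ x : Fin (n + 1) → 𝓞 E, x ≠ 0 → ∀ (g : ℤ) (y : Fin (NN n r) → ℤ), g ≠ 0 →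
      nf x = MvPolynomial.C g * PY ℤ y → ∀ {m : ℕ} (h : Fin m → Fin (NN n r) → ℤ) (B : ℝ),
      (∀ k, ∀ l : (Fin (n + 1) → Jx n (Fin (n + 1) → RK)) × AD n r,
        av w (∑ i, (LLg Ω r l i : K) * ((h k i : ℤ) : K)) ≤
        Real.exp B * av w (∑ i, (LLg Ω r l i : K) * ((y i : ℤ) : K))) →
      ∀ (κ : Fin (NN n (j * r + m0)) → Fin j → Fin m) (b : Fin (NN n (j * r + m0)) → AD n m0),
      Dt r j m0 h κ b ≠ 0 →
      (∀ (τ : E →+* PadicAlgCl p) (Λ : Fin (n + 1) → PadicAlgCl p),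
        (∀ j, Λ j ∈ (mp (PadicAlgCl p) G).roots) → Λ = 0 ∨ lf Λ (fun i => τ (x i : E)) ≠ 0) →
      ∀ Φ : (Fin (n + 1) → (E →+* PadicAlgCl p)) → ℝ, Mixed (PadicAlgCl p) G x Φ →
      Real.log ‖((Dt r j m0 h κ b : ℤ) : PadicAlgCl p)‖ ≤
        (NN n (j * r + m0) : ℝ) * (j * (c * B + (∑ τ : E →+* PadicAlgCl p,
          Real.log ‖fun i => τ (x i : E)‖ - Real.log ‖(g : PadicAlgCl p)‖))) +
          C - ((j.choose (n + 1) : ℝ) - n * (NN n (j * r + m0) : ℝ)) *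
          ∑ σ : Fin (n + 1) → (E →+* PadicAlgCl p), Φ σ := by
    intro p
    obtain ⟨ψp⟩ := exists_emb K (PadicAlgCl p)
    have hp0 : (((p : ℕ) : ℕ) : PadicAlgCl p) ≠ 0 := by exact_mod_cast p.2.ne_zero
    have hp1 : ‖(((p : ℕ) : ℕ) : PadicAlgCl p)‖ < 1 := by
      have h1 := norm_int_padicAlgCl (p : ℕ) ((p : ℕ) : ℤ)
      push_cast at h1
      rw [h1, Padic.norm_p]
      exact inv_lt_one_of_one_lt₀ (by exact_mod_cast p.2.one_lt)
    obtain ⟨Q, hQ, c, hc, hψp⟩ := padic_place ψp (p : ℕ) hp0 hp1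
    obtain ⟨C, hC, hplace⟩ := placeI (n := n) ψp (exists_norm_ge _ hp0 hp1) (Sum.inr Q) c hc hψp r j m0 hr hj0.le G hsp
      hRK h0K h1K hD1 hΩ
    exact ⟨Sum.inr Q, c, C, fun hp Q' hQ' => by
      rw [← Sum.inr.inj hQ']
      exact hT' Q ⟨p, hp, hQ⟩, hc, hC, hplace⟩
  choose w c Cp hwT hc hCp hplace using hfinp
  have hAp : ∀ p : Nat.Primes, ∃ Cc : ℝ, 0 ≤ Cc ∧ ∀ (E : Type) [Field E] [NumberField E],
      Module.finrank ℚ E = r → ∀ x : Fin (n + 1) → 𝓞 E, x ≠ 0 →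
      ∀ (g : ℤ) (y : Fin (NN n r) → ℤ), g ≠ 0 → nf x = C g * PY ℤ y →
      ∑ τ : E →+* PadicAlgCl p, Real.log ‖fun i => τ (x i : E)‖ -
        Real.log ‖(g : PadicAlgCl p)‖ ≤ Cc := fun p => padic_A n r
  choose A' hA'0 hA' using hAp
  have hcs0 : 0 ≤ ∑ p ∈ S, c p := Finset.sum_nonneg fun p _ => (hc p).le
  have hn0 : (0 : ℝ) ≤ n := Nat.cast_nonneg n
  set e' : ℝ := ε / 2 / ((1 + ∑ p ∈ S, c p) * ((n : ℝ) + 1 + ε / 2)) with he'
  have hden : 0 < (1 + ∑ p ∈ S, c p) * ((n : ℝ) + 1 + ε / 2) :=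
    mul_pos (by linarith) (by linarith)
  have he'0 : 0 < e' := div_pos (by linarith) hden
  have hee : e' * (1 + ∑ p ∈ S, c p) * ((n : ℝ) + 1 + ε / 2) = ε / 2 := by
    rw [mul_assoc, he', div_mul_cancel₀ _ hden.ne']
  obtain ⟨C0, hC0, hcomp⟩ := hTT T hT e' he'0
  set N : ℝ := (NN n (j * r + m0) : ℝ) * j with hN
  set κ : ℝ := (j.choose (n + 1) : ℝ) - n * (NN n (j * r + m0) : ℝ) with hκ
  have hN0 : 0 ≤ N := mul_nonneg (Nat.cast_nonneg _) (Nat.cast_nonneg _)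
  have hκ0 : 0 < κ := by
    have h1 : ((n * NN n (j * r + m0) : ℕ) : ℝ) < (j.choose (n + 1) : ℝ) := by exact_mod_cast hj0
    push_cast at h1
    rw [hκ]
    linarith
  set L1 : ℝ := r * Real.log ((n : ℝ) + 1) with hL1
  refine ⟨(N * ((1 + ∑ p ∈ S, c p) * (C0 + e' * L1) + ∑ p ∈ S, A' p) + C1 + ∑ p ∈ S, Cp p) / κ,
    fun E _ _ hE x hx hZ Φ hΦ Φp hΦp => ?_⟩
  obtain ⟨g, y, hg, hy, hnf, hsz, hAinf⟩ := exists_form x hx r hE
  obtain ⟨W, hW, hyW, m, h, hspan, hbd⟩ := hcomp y hy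
  -- there is no common zero
  have hnsW2 : ∀ D, m0 + r ≤ D → ∀ Q : MvPolynomial (Fin (n + 1)) ℚ, Q.IsHomogeneous D →
      Q ∈ Ideal.span (Set.range fun k => PY ℚ fun i => (h k i : ℚ)) := by
    rcases hnsW W with h1 | h1
    · exfalso
      obtain ⟨τ, hτ⟩ := vanish x g y hnf W hyW (uW W) h1
      exact hZ _ (Finset.mem_union_left _ (Finset.mem_image_of_mem _ hW)) τ hτ
    · intro D hD Q hQ
      refine idl_le h W hspan (h1 D ?_ Q hQ)
      have h2 := Finset.single_le_sum (f := mW) (fun W _ => Nat.zero_le _) hW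
      rw [← hm0] at h2
      omega
  obtain ⟨κ', b, hΔ⟩ := exists_prods r m0 h hnsW2 j
  have hΔ' : Dt r j m0 h κ' b ≠ 0 := hΔ
  clear hΔ
  have h1 := hinf E hE x hx g y hg hnf h (C0 + e' * Real.log (sz y))
    (fun k l => hbd k _ (fun Q hQ => absurd hQ (by simp)) l) κ' b hΔ'
    (fun τ Λ hΛ => off_of_Z G x (fun u hu => hZ u (Finset.mem_union_right _ hu)) τ Λ hΛ) Φ hΦ
  have h2 : ∀ p ∈ S, Real.log ‖((Dt r j m0 h κ' b : ℤ) : PadicAlgCl p)‖ ≤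
        N * (c p * (C0 + e' * Real.log (sz y)) + (∑ τ : E →+* PadicAlgCl p,
          Real.log ‖fun i => τ (x i : E)‖ - Real.log ‖(g : PadicAlgCl p)‖)) +
          Cp p - κ *
          ∑ σ : Fin (n + 1) → (E →+* PadicAlgCl p), Φp p σ := by
    intro p hp
    have h3 := hplace p E hE x hx g y hg hnf h (C0 + e' * Real.log (sz y))
      (fun k l => hbd k _ (hwT p hp) l) κ' b hΔ'
      (fun τ Λ hΛ => off_of_Z G x (fun u hu => hZ u (Finset.mem_union_right _ hu)) τ Λ hΛ)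
      (Φp p) (hΦp p hp)
    rw [← mul_assoc] at h3
    exact h3
  rw [← mul_assoc] at h1
  have hs := sum_log_nonneg S _ hΔ'
  have h5 : Real.log ‖((Dt r j m0 h κ' b : ℤ) : ℂ)‖ =
      Real.log |((Dt r j m0 h κ' b : ℤ) : ℝ)| := by
    rw [Complex.norm_intCast]
  have h6 : ∑ p ∈ S, Real.log ‖((Dt r j m0 h κ' b : ℤ) : PadicAlgCl p)‖ =
      ∑ p ∈ S, Real.log ‖((Dt r j m0 h κ' b : ℤ) : ℚ_[(p : ℕ)])‖ :=
    Finset.sum_congr rfl fun p _ => by rw [norm_int_padicAlgCl]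
  rw [← h5, ← h6] at hs
  have hAi : ∑ τ : E →+* ℂ, Real.log ‖fun i => τ (x i : E)‖ - Real.log ‖(g : ℂ)‖ ≤
      Height.logHeight (fun i => (x i : E)) := by
    rw [Complex.norm_intCast, ← Real.log_prod]
    · exact hAinf
    · intro τ _
      refine (norm_pos_iff.2 fun h0 => hx ?_).ne'
      funext i
      have h7 : τ (x i : E) = 0 := congrFun h0 i
      exact RingOfIntegers.ext (by simpa using h7)
  exact final_arith S hκ0 (by positivity) hN0 hj (fun p _ => (hc p).le) hee he'0.le h1 h2 hs hAi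
    (fun p _ => hA' p E hE x hx g y hg hnf) rfl hsz (Height.logHeight_nonneg _)

end Pool.Agent.T9h24
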