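import Mathlib
import Pool.Agent.T9h24.Gmi

/-!
The main inequality for the Veronese embeddings.
-/

set_option autoImplicit false
set_option linter.unusedSectionVars false

open Finset MvPolynomial NumberField IsDedekindDomain

namespace Pool.Agent.T9h24

variable {n : ℕ}

/-- a monomial is a word -/
theorem exists_word (d : ℕ) : ∀ a : Fin (n + 1) →₀ ℕ, a.degree = d →
    ∃ I : Fin d → Fin (n + 1), ∀ j, a j = ∑ k, if I k = j then 1 else 0 := by
  induction d with
  | zero =>
    intro a ha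
    rw [Finsupp.degree_eq_zero_iff] at ha
    refine ⟨fun k => k.elim0, fun j => ?_⟩
    rw [ha]
    simp
  | succ d ih =>
    intro a ha
    obtain ⟨j, hj⟩ : ∃ j, a j ≠ 0 := by
      by_contra hcon
      push Not at hcon
      have h0 : a = 0 := Finsupp.ext hcon
      rw [h0] at ha
      simp at ha
    have h1 : Finsupp.single j 1 ≤ a := by
      rw [Finsupp.single_le_iff]
      omega
    have h2 : Finsupp.single j 1 + (a - Finsupp.single j 1) = a := add_tsub_cancel_of_le h1
    have h3 : (a - Finsupp.single j 1).degree = d := by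
      have h4 := congrArg Finsupp.degree h2
      rw [map_add, Finsupp.degree_single, ha] at h4
      omega
    obtain ⟨I, hI⟩ := ih _ h3
    refine ⟨Fin.cons j I, fun i => ?_⟩
    rw [Fin.sum_univ_succ]
    simp only [Fin.cons_zero, Fin.cons_succ]
    rw [← hI i]
    have h4 := DFunLike.congr_fun h2 i
    rw [Finsupp.add_apply, Finsupp.single_apply] at h4
    exact h4.symm

theorem prod_word {R : Type} [CommMonoid R] {d : ℕ} {a : Fin (n + 1) →₀ ℕ}
    {I : Fin d → Fin (n + 1)} (h : ∀ j, a j = ∑ k, if I k = j then 1 else 0)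
    (x : Fin (n + 1) → R) : ∏ k, x (I k) = ∏ j, x j ^ a j := by
  have h1 : ∀ j, x j ^ a j = ∏ k, x j ^ (if I k = j then 1 else 0) := by
    intro j
    rw [h j, Finset.prod_pow_eq_pow_sum]
  simp only [h1]
  rw [Finset.prod_comm]
  refine Finset.prod_congr rfl fun k _ => ?_
  rw [Finset.prod_eq_single (I k)]
  · rw [if_pos rfl, pow_one]
  · intro j _ hj
    rw [if_neg (fun h => hj h.symm), pow_zero]
  · intro h
    exact absurd (Finset.mem_univ _) h

/-- the Veronese map -/
def ver {R : Type} [CommMonoid R] {n' d : ℕ} (e : Fin (n' + 1) ≃ AD n d) (x : Fin (n + 1) → R)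
    (i : Fin (n' + 1)) : R := ∏ j, x j ^ (e i : Fin (n + 1) →₀ ℕ) j

theorem ver_height {E : Type} [Field E] [NumberField E] {n' d : ℕ} (e : Fin (n' + 1) ≃ AD n d)
    (x : Fin (n + 1) → E) (hx : x ≠ 0) :
    Height.logHeight (ver e x) ≤ d * Height.logHeight x := by
  have h1 : ∀ i, ∃ I : Fin d → Fin (n + 1), ∀ j, (e i : Fin (n + 1) →₀ ℕ) j =
      ∑ k, if I k = j then 1 else 0 := fun i => exists_word d _ (mem_AD.1 (e i).2)
  choose I hI using h1
  have h2 : ver e x = (fun J : Fin d → Fin (n + 1) => ∏ k, x (J k)) ∘ I := by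
    funext i
    exact (prod_word (hI i) x).symm
  rw [h2]
  refine (Height.logHeight_comp_le _ _).trans (le_of_eq ?_)
  rw [Height.logHeight_fun_prod_eq (x := fun _ : Fin d => x) fun _ => hx]
  rw [Finset.sum_const, Finset.card_univ, Fintype.card_fin, nsmul_eq_mul]

theorem ver_ne {R : Type} [CommRing R] [IsDomain R] {n' d : ℕ} (e : Fin (n' + 1) ≃ AD n d)
    (x : Fin (n + 1) → R) {j0 : Fin (n + 1)} (hj : x j0 ≠ 0) : ver e x ≠ 0 := by
  have h1 : (Finsupp.single j0 d : Fin (n + 1) →₀ ℕ) ∈ AD n d :=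
    mem_AD.2 (Finsupp.degree_single _ _)
  intro h0
  have h2 := congrFun h0 (e.symm ⟨_, h1⟩)
  unfold ver at h2
  rw [Equiv.apply_symm_apply, Pi.zero_apply, Finset.prod_eq_zero_iff] at h2
  obtain ⟨j, -, hj'⟩ := h2
  simp only [Finsupp.single_apply] at hj'
  split_ifs at hj' with h3
  · rw [← h3] at hj'
    exact hj (eq_zero_of_pow_eq_zero hj')
  · rw [pow_zero] at hj'
    exact one_ne_zero hj'

theorem norm_ver {F : Type} [NormedField F] {n' d : ℕ} (e : Fin (n' + 1) ≃ AD n d)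
    (y : Fin (n + 1) → F) : ‖y‖ ^ d ≤ ‖ver e y‖ := by
  obtain ⟨j0, hj0⟩ : ∃ j0, ‖y‖ = ‖y j0‖ := by
    obtain ⟨j0, -, hj0⟩ := Finset.exists_max_image Finset.univ (fun j => ‖y j‖)
      ⟨0, Finset.mem_univ _⟩
    refine ⟨j0, le_antisymm ?_ (norm_le_pi_norm y j0)⟩
    exact (pi_norm_le_iff_of_nonneg (norm_nonneg _)).2 fun j => hj0 j (Finset.mem_univ j)
  have h1 : (Finsupp.single j0 d : Fin (n + 1) →₀ ℕ) ∈ AD n d :=
    mem_AD.2 (Finsupp.degree_single _ _)
  have h2 := norm_le_pi_norm (ver e y) (e.symm ⟨_, h1⟩)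
  refine le_trans (le_of_eq ?_) h2
  unfold ver
  rw [Equiv.apply_symm_apply, Finset.prod_eq_single j0]
  · simp only [Finsupp.single_apply, if_true]
    rw [norm_pow, hj0]
  · intro j _ hj
    rw [Finsupp.single_apply, if_neg (fun h => hj h.symm), pow_zero]
  · intro h
    exact absurd (Finset.mem_univ _) h

/-- the product of linear forms -/
noncomputable def PL {F : Type} [Field F] {d : ℕ} (Λ : Fin d → Fin (n + 1) → F) :
    MvPolynomial (Fin (n + 1)) F := ∏ k, LP (Λ k)

theorem PL_hom {F : Type} [Field F] {d : ℕ} (Λ : Fin d → Fin (n + 1) → F) :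
    (PL Λ).IsHomogeneous d := by
  have h1 := MvPolynomial.IsHomogeneous.prod (Finset.univ : Finset (Fin d))
    (fun k => LP (Λ k)) (fun _ => 1) fun k _ => LP_hom _
  rw [Finset.sum_const, Finset.card_univ, Fintype.card_fin, smul_eq_mul, mul_one] at h1
  exact h1

/-- the coefficients of a form -/
noncomputable def cf {F : Type} [Field F] {n' d : ℕ} (e : Fin (n' + 1) ≃ AD n d)
    (P : MvPolynomial (Fin (n + 1)) F) (i : Fin (n' + 1)) : F :=
  P.coeff (e i : Fin (n + 1) →₀ ℕ)

theorem eval_cf {F : Type} [Field F] {n' d : ℕ} (e : Fin (n' + 1) ≃ AD n d)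
    (P : MvPolynomial (Fin (n + 1)) F) (hP : P.IsHomogeneous d) (y : Fin (n + 1) → F) :
    ∑ i, cf e P i * ver e y i = MvPolynomial.eval y P := by
  rw [MvPolynomial.eval_eq']
  have h1 : P.support ⊆ AD n d := by
    intro a ha
    rw [mem_AD]
    by_contra hcon
    exact MvPolynomial.mem_support_iff.1 ha (hP.coeff_eq_zero hcon)
  rw [Finset.sum_subset h1 fun a _ ha => by
    rw [MvPolynomial.notMem_support_iff.1 ha, zero_mul]]
  rw [← Finset.sum_coe_sort (AD n d), ← Equiv.sum_comp e]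
  rfl

theorem lf_PL {F : Type} [NormedField F] {n' d : ℕ} (e : Fin (n' + 1) ≃ AD n d)
    (Λ : Fin d → Fin (n + 1) → F) (y : Fin (n + 1) → F) :
    lf (cf e (PL Λ)) (ver e y) = ∏ k, lf (Λ k) y := by
  have h1 := eval_cf e (PL Λ) (PL_hom Λ) y
  unfold lf at *
  rw [h1]
  unfold PL
  rw [map_prod]
  exact Finset.prod_congr rfl fun k _ => eval_LP _ _

/-- an integral polynomial vanishing at an algebraic number -/
theorem exists_ann (w : AlgebraicClosure ℚ) : ∃ g : Polynomial ℤ, g ≠ 0 ∧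
    w ∈ (mp (AlgebraicClosure ℚ) g).roots := by
  have h1 := isAlg_Qbar.isAlgebraic w
  have h2 : IsAlgebraic ℤ w := (IsFractionRing.isAlgebraic_iff ℤ ℚ (AlgebraicClosure ℚ)).2 h1
  obtain ⟨g, hg, hw⟩ := h2
  refine ⟨g, hg, ?_⟩
  rw [Polynomial.mem_roots (mp_ne hg)]
  unfold mp
  rw [Polynomial.IsRoot, Polynomial.eval_map]
  exact hw

/-- **Enlarging the set of the coefficients.** -/
theorem exists_big_G (n d : ℕ) (G : Polynomial ℤ) : ∃ G' : Polynomial ℤ, G' ≠ 0 ∧
    G'.eval 0 = 0 ∧ G'.eval 1 = 0 ∧ ∀ (F : Type) [Field F] [CharZero F] [IsAlgClosed F]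
      (Λ : Fin d → Fin (n + 1) → F), (∀ k j, Λ k j ∈ (mp F G).roots) →
      ∀ a, (PL Λ).coeff a ∈ (mp F G').roots := by
  classical
  set R := (mp (AlgebraicClosure ℚ) G).roots.toFinset with hR
  set A : Finset (AlgebraicClosure ℚ) := Finset.univ.image
    (fun p : (Fin d → Fin (n + 1) → R) × AD n d =>
      (PL (fun k j => (p.1 k j : AlgebraicClosure ℚ))).coeff (p.2 : Fin (n + 1) →₀ ℕ)) with hA
  choose g hg hgr using exists_ann
  set G' : Polynomial ℤ := Polynomial.X * (Polynomial.X - 1) * ∏ w ∈ A, g w with hG'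
  have hX1 : (Polynomial.X - 1 : Polynomial ℤ) ≠ 0 := by
    rw [← Polynomial.C_1]
    exact Polynomial.X_sub_C_ne_zero 1
  have hG'0 : G' ≠ 0 := mul_ne_zero (mul_ne_zero Polynomial.X_ne_zero hX1)
    (Finset.prod_ne_zero_iff.2 fun w _ => hg w)
  refine ⟨G', hG'0, by rw [hG']; simp, by rw [hG']; simp, fun F _ _ _ Λ hΛ a => ?_⟩
  obtain ⟨ι⟩ : Nonempty (AlgebraicClosure ℚ →+* F) := by
    obtain ⟨-, ι, -⟩ := exists_lift (E := ℚ) (F := F) (algebraMap ℚ F)
    exact ⟨ι⟩
  have hmap : ∀ g : Polynomial ℤ, (mp (AlgebraicClosure ℚ) g).map ι = mp F g := by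
    intro g
    unfold mp
    rw [Polynomial.map_map]
    congr 1
    exact RingHom.ext_int _ _
  by_cases ha : a ∈ AD n d
  · have h1 : ∀ k j, ∃ z : R, ι z = Λ k j := by
      intro k j
      have h2 := hΛ k j
      rw [← hmap, (mp_splits (F := AlgebraicClosure ℚ) G).roots_map] at h2
      obtain ⟨z, hz, hz'⟩ := Multiset.mem_map.1 h2
      exact ⟨⟨z, Multiset.mem_toFinset.2 hz⟩, hz'⟩
    choose v hv using h1
    have h2 : (PL Λ).coeff a =
        ι ((PL (fun k j => (v k j : AlgebraicClosure ℚ))).coeff a) := by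
      rw [← coeff_map]
      congr 1
      unfold PL LP
      rw [map_prod]
      refine Finset.prod_congr rfl fun k _ => ?_
      rw [map_sum]
      refine Finset.sum_congr rfl fun j _ => ?_
      rw [map_mul, map_C, map_X, hv]
    set w := (PL (fun k j => (v k j : AlgebraicClosure ℚ))).coeff a with hw
    have hwA : w ∈ A := Finset.mem_image.2 ⟨(v, ⟨a, ha⟩), Finset.mem_univ _, rfl⟩
    rw [h2]
    have h3 := hgr w
    rw [Polynomial.mem_roots'] at h3 ⊢
    refine ⟨mp_ne hG'0, ?_⟩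
    rw [← hmap, Polynomial.IsRoot, Polynomial.eval_map, Polynomial.eval₂_hom]
    have h4 : (mp (AlgebraicClosure ℚ) G').eval w = 0 := by
      rw [hG', ← Finset.mul_prod_erase A g hwA]
      unfold mp
      rw [Polynomial.map_mul, Polynomial.map_mul (p := g w), Polynomial.eval_mul,
        Polynomial.eval_mul (p := Polynomial.map _ (g w))]
      have h5 : (mp (AlgebraicClosure ℚ) (g w)).eval w = 0 := h3.2
      unfold mp at h5
      rw [h5, zero_mul, mul_zero]
    rw [h4, map_zero]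
  · have h1 : (PL Λ).coeff a = 0 := (PL_hom Λ).coeff_eq_zero fun h => ha (mem_AD.2 h)
    rw [h1, Polynomial.mem_roots']
    exact ⟨mp_ne hG'0, ev0 G' (by rw [hG']; simp)⟩

end Pool.Agent.T9h24
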