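import Mathlib
import Pool.Agent.T9h24.Vrn

/-!
The main inequality for the Veronese embeddings.
-/

set_option autoImplicit false
set_option linter.unusedSectionVars false

open Finset MvPolynomial NumberField IsDedekindDomain

namespace Pool.Agent.T9h24

/-- the numbers `Φ σ` bound the determinants of all functionals on the forms of degree `d` which
are not larger than the conjugates on the products of linear forms -/
def MixedV (F : Type) [NormedField F] (G : Polynomial ℤ) {n n' d : ℕ}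
    (e : Fin (n' + 1) ≃ AD n d) {E : Type} [Field E] [NumberField E]
    (x : Fin (n + 1) → 𝓞 E) (Φ : (Fin (n' + 1) → (E →+* F)) → ℝ) : Prop :=
  ∀ σ : Fin (n' + 1) → (E →+* F), ∀ ξ : Fin (n' + 1) → Fin (n' + 1) → F,
    (∀ (l : Fin (n' + 1)) (Λ : Fin d → Fin (n + 1) → F), (∀ k j, Λ k j ∈ (mp F G).roots) →
      ‖lf (cf e (PL Λ)) (ξ l)‖ * ‖fun i => σ l (x i : E)‖ ^ d ≤
        ∏ k, ‖lf (Λ k) (fun i => σ l (x i : E))‖) →
    ‖(Matrix.of ξ).det‖ ≤ Real.exp (-(Φ σ))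

theorem map_ver {E : Type} [Field E] [NumberField E] {F : Type} [Field F] {n n' d : ℕ}
    (e : Fin (n' + 1) ≃ AD n d) (τ : E →+* F) (x : Fin (n + 1) → 𝓞 E) (i : Fin (n' + 1)) :
    τ ((ver e x i : 𝓞 E) : E) = ver e (fun j => τ (x j : E)) i := by
  unfold ver
  have h1 : ((∏ j, x j ^ (e i : Fin (n + 1) →₀ ℕ) j : 𝓞 E) : E) =
      ∏ j, (x j : E) ^ (e i : Fin (n + 1) →₀ ℕ) j := by
    have h2 := map_prod (algebraMap (𝓞 E) E) (fun j => x j ^ (e i : Fin (n + 1) →₀ ℕ) j)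
      Finset.univ
    refine h2.trans ?_
    exact Finset.prod_congr rfl fun j _ => by rw [map_pow]
  rw [h1, map_prod]
  exact Finset.prod_congr rfl fun j _ => by rw [map_pow]

theorem mixed_of_mixedV {F : Type} [NormedField F] {G G' : Polynomial ℤ} {n n' d : ℕ}
    (e : Fin (n' + 1) ≃ AD n d)
    (hG' : ∀ Λ : Fin d → Fin (n + 1) → F, (∀ k j, Λ k j ∈ (mp F G).roots) →
      ∀ a, (PL Λ).coeff a ∈ (mp F G').roots)
    {E : Type} [Field E] [NumberField E] (x : Fin (n + 1) → 𝓞 E)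
    (Φ : (Fin (n' + 1) → (E →+* F)) → ℝ) (h : MixedV F G e x Φ) : Mixed F G' (ver e x) Φ := by
  intro σ z hz
  refine h σ z fun l Λ hΛ => ?_
  have h1 := hz l (cf e (PL Λ)) fun i => hG' Λ hΛ _
  have h2 : (fun i => σ l ((ver e x i : 𝓞 E) : E)) = ver e (fun j => σ l (x j : E)) :=
    funext fun i => map_ver e (σ l) x i
  rw [h2, lf_PL, norm_prod] at h1
  exact (mul_le_mul_of_nonneg_left (norm_ver e _) (norm_nonneg _)).trans h1

/-- **The main inequality for the Veronese embeddings**, integral coordinates. -/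
theorem mainV (n r d : ℕ) (hr : 1 ≤ r) (G : Polynomial ℤ) {n' : ℕ} (e : Fin (n' + 1) ≃ AD n d) :
    ∃ Z : Finset (Fin (n' + 1) → AlgebraicClosure ℚ), (∀ u ∈ Z, u ≠ 0) ∧
      ∀ (S : Finset Nat.Primes) (ε : ℝ), 0 < ε → ∃ Cc : ℝ, ∀ (E : Type) [Field E]
        [NumberField E], Module.finrank ℚ E = r → ∀ x : Fin (n + 1) → 𝓞 E, x ≠ 0 →
      (∀ u ∈ Z, ∀ τ : E →+* AlgebraicClosure ℚ,
        ∑ i, u i * ver e (fun j => τ (x j : E)) i ≠ 0) →
      ∀ Φ : (Fin (n' + 1) → (E →+* ℂ)) → ℝ, MixedV ℂ G e x Φ →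
      ∀ Φp : ∀ p : Nat.Primes, (Fin (n' + 1) → (E →+* PadicAlgCl p)) → ℝ,
        (∀ p ∈ S, MixedV (PadicAlgCl p) G e x (Φp p)) →
      ∑ σ : Fin (n' + 1) → (E →+* ℂ), Φ σ +
        ∑ p ∈ S, ∑ σ : Fin (n' + 1) → (E →+* PadicAlgCl p), Φp p σ ≤
        (r : ℝ) ^ n' * ((n' : ℝ) + 1 + ε) * (d * Height.logHeight (fun i => (x i : E))) + Cc := by
  obtain ⟨G', hG'0, hG'1, hG'2, hG'⟩ := exists_big_G n d G
  obtain ⟨Z, hZ, h⟩ := mainI n' r hr G' hG'0 hG'1 hG'2
  refine ⟨Z, hZ, fun S ε hε => ?_⟩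
  obtain ⟨Cc, hC⟩ := h S ε hε
  refine ⟨Cc, fun E _ _ hE x hx hxZ Φ hΦ Φp hΦp => ?_⟩
  obtain ⟨j0, hj0⟩ := Function.ne_iff.1 hx
  have hx' : ver e x ≠ 0 := ver_ne e x hj0
  have h1 := hC E hE (ver e x) hx' (fun u hu τ => by
    have h2 := hxZ u hu τ
    intro h0
    apply h2
    rw [← h0]
    exact Finset.sum_congr rfl fun i _ => by rw [map_ver])
    Φ (mixed_of_mixedV e (hG' ℂ) x Φ hΦ) Φp
    (fun p hp => mixed_of_mixedV e (hG' (PadicAlgCl p)) x (Φp p) (hΦp p hp))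
  refine h1.trans (add_le_add_left (mul_le_mul_of_nonneg_left ?_ ?_) _)
  · have hxE : (fun j => (x j : E)) ≠ 0 := by
      intro h0
      apply hx
      funext i
      have h3 : (x i : E) = 0 := congrFun h0 i
      exact RingOfIntegers.ext (by simpa using h3)
    have h2 := ver_height e (fun j => (x j : E)) hxE
    refine le_trans (le_of_eq ?_) h2
    congr 1
    funext i
    exact map_ver e (RingHom.id E) x i
  · have : (0 : ℝ) ≤ n' := Nat.cast_nonneg n'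
    positivity

end Pool.Agent.T9h24
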