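import Mathlib
import Pool.Agent.T9h24.Vrm
import Pool.Agent.T9h24.Ptn

/-!
Determinants of functionals which are small on the powers of different frames.
-/

set_option autoImplicit false
set_option linter.unusedSectionVars false

open Finset MvPolynomial NumberField IsDedekindDomain

namespace Pool.Agent.T9h24

section bas

variable {F : Type} [NormedField F] {n n' d : ℕ}

/-- the matrix of the monomials in the forms of a frame -/
noncomputable def MF (e : Fin (n' + 1) ≃ AD n d) (Λ : Fin (n + 1) → Fin (n + 1) → F) :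
    Matrix (Fin (n' + 1)) (Fin (n' + 1)) F :=
  Matrix.of fun i i' => (∏ j, LP (Λ j) ^ (e i : Fin (n + 1) →₀ ℕ) j).coeff
    (e i' : Fin (n + 1) →₀ ℕ)

theorem det_MF (e : Fin (n' + 1) ≃ AD n d) (Λ : Fin (n + 1) → Fin (n + 1) → F)
    (hΛ : (Matrix.of Λ).det ≠ 0) : (MF e Λ).det ≠ 0 := by
  classical
  set φ := e.trans (ee n d).symm with hφ
  have h1 : MF e Λ = (wm (fun k j => Λ j k) d).submatrix φ φ := by
    ext i i'
    rw [Matrix.submatrix_apply]
    unfold MF wm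
    rw [Matrix.of_apply, Matrix.of_apply, sb_monomial, C_1, one_mul]
    have h2 : ∀ i, ((ee n d (φ i) : AD n d) : Fin (n + 1) →₀ ℕ) =
        (e i : Fin (n + 1) →₀ ℕ) := by
      intro i
      rw [hφ]
      simp
    rw [h2, h2]
    rfl
  have h2 : (Matrix.of fun k j => Λ j k).det ≠ 0 := by
    have h3 : (Matrix.of fun k j => Λ j k) = (Matrix.of Λ).transpose := rfl
    rw [h3, Matrix.det_transpose]
    exact hΛ
  -- the submatrix
  have h3 : IsUnit (wm (fun k j => Λ j k) d) := by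
    rw [Matrix.isUnit_iff_isUnit_det]
    exact isUnit_iff_ne_zero.2 (det_wm _ h2 d)
  have h4 : IsUnit (MF e Λ) := by
    rw [h1, Matrix.isUnit_submatrix_equiv]
    exact h3
  exact isUnit_iff_ne_zero.1 ((Matrix.isUnit_iff_isUnit_det _).1 h4)

theorem multi_expand {N : ℕ} (c : Fin N → Fin N → F) (w : Fin N → Fin N → Fin N → F) :
    (Matrix.of fun l j => ∑ k, c l k * w l k j).det =
      ∑ κ : Fin N → Fin N, (∏ l, c l (κ l)) * (Matrix.of fun l => w l (κ l)).det := by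
  have h1 := (Matrix.detRowAlternating (n := Fin N) (R := F)).toMultilinearMap.map_sum
    (fun l k => c l k • w l k)
  have h3 : (fun l => ∑ k, c l k • w l k) = fun l j => ∑ k, c l k * w l k j := by
    funext l j
    simp only [Finset.sum_apply, Pi.smul_apply, smul_eq_mul]
  rw [h3] at h1
  refine h1.trans (Finset.sum_congr rfl fun r _ => ?_)
  rw [MultilinearMap.map_smul_univ]
  rfl

/-- **Vectors which are small in different bases.** -/
theorem multi_bound {H : Type} {N : ℕ} (W : H → Matrix (Fin (N + 1)) (Fin (N + 1)) F)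
    (hW : ∀ τ, (W τ).det ≠ 0) (σ : Fin (N + 1) → H) (ξ : Fin (N + 1) → Fin (N + 1) → F)
    (M0 R : ℝ) (hR : 0 ≤ R) (hM0 : 0 ≤ M0)
    (hM : ∀ κ : Fin (N + 1) → Fin (N + 1),
      ‖(Matrix.of fun l j => (W (σ l))⁻¹ j (κ l)).det‖ ≤ M0)
    (h : ∀ κ : Fin (N + 1) → Fin (N + 1), (∀ l l', σ l = σ l' → κ l = κ l' → l = l') →
      ∏ l, ‖∑ i, W (σ l) (κ l) i * ξ l i‖ ≤ R) :
    ‖(Matrix.of ξ).det‖ ≤ ((N : ℝ) + 1) ^ (N + 1) * (R * M0) := by
  classical
  have h1 : ξ = fun l j => ∑ k, (∑ i, W (σ l) k i * ξ l i) * (fun l k j => (W (σ l))⁻¹ j k) l k j :=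
    funext fun l => col_expand (W (σ l)) (hW _) (ξ l)
  have h2 : (Matrix.of ξ).det = ∑ κ : Fin (N + 1) → Fin (N + 1),
      (∏ l, (∑ i, W (σ l) (κ l) i * ξ l i)) *
        (Matrix.of fun l j => (W (σ l))⁻¹ j (κ l)).det := by
    conv_lhs => rw [h1]
    exact multi_expand (fun l k => ∑ i, W (σ l) k i * ξ l i) (fun l k j => (W (σ l))⁻¹ j k)
  rw [h2]
  refine (norm_sum_le _ _).trans ?_
  have h3 : ∀ κ ∈ (Finset.univ : Finset (Fin (N + 1) → Fin (N + 1))),
      ‖(∏ l, (∑ i, W (σ l) (κ l) i * ξ l i)) *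
        (Matrix.of fun l j => (W (σ l))⁻¹ j (κ l)).det‖ ≤ R * M0 := by
    intro κ _
    by_cases hκ : ∀ l l', σ l = σ l' → κ l = κ l' → l = l'
    · rw [norm_mul, norm_prod]
      exact mul_le_mul (h κ hκ) (hM κ) (norm_nonneg _) hR
    · push Not at hκ
      obtain ⟨l, l', e1, e2, e3⟩ := hκ
      rw [Matrix.det_zero_of_row_eq e3 (by
        funext j
        rw [Matrix.of_apply, Matrix.of_apply, e1, e2]), mul_zero, norm_zero]
      exact mul_nonneg hR hM0
  refine (Finset.sum_le_sum h3).trans (le_of_eq ?_)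
  rw [Finset.sum_const, Finset.card_univ, Fintype.card_fun, Fintype.card_fin, nsmul_eq_mul]
  push_cast
  ring

/-- the values of a functional on the monomials in the forms of a frame -/
theorem frame_val {H : Type} (e : Fin (n' + 1) ≃ AD n d)
    (Λ : Fin (n + 1) → Fin (n + 1) → F) (ℓ : H → Fin (n + 1) → F) (τ : H) (hℓ : ℓ τ ≠ 0)
    (ξ : Fin (n' + 1) → F)
    (h : ∀ I : Fin d → Fin (n + 1), ‖lf (cf e (PL fun k => Λ (I k))) ξ‖ * ‖ℓ τ‖ ^ d ≤
      ∏ k, ‖lf (Λ (I k)) (ℓ τ)‖) (i : Fin (n' + 1)) :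
    ‖∑ i', MF e Λ i i' * ξ i'‖ ≤ AA Λ ^ d *
      Real.exp (-∑ j, ((e i : Fin (n + 1) →₀ ℕ) j : ℝ) * uu Λ ℓ τ j) := by
  obtain ⟨I, hI⟩ := exists_word d _ (mem_AD.1 (e i).2)
  have h1 := h I
  have h2 : ∑ i', MF e Λ i i' * ξ i' = lf (cf e (PL fun k => Λ (I k))) ξ := by
    unfold lf MF cf PL
    refine Finset.sum_congr rfl fun i' _ => ?_
    rw [Matrix.of_apply, prod_word hI (fun j => LP (Λ j))]
  have hℓ0 : 0 < ‖ℓ τ‖ := norm_pos_iff.2 hℓ
  have hA := one_le_AA Λ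
  have h3 : ∏ k, ‖lf (Λ (I k)) (ℓ τ)‖ ≤ ∏ k, (AA Λ * ‖ℓ τ‖ * Real.exp (-(uu Λ ℓ τ (I k)))) :=
    Finset.prod_le_prod (fun k _ => norm_nonneg _) fun k _ => lf_le_exp Λ ℓ τ (I k)
  have h4 : ∏ k, (AA Λ * ‖ℓ τ‖ * Real.exp (-(uu Λ ℓ τ (I k)))) =
      (AA Λ ^ d * Real.exp (-∑ j, ((e i : Fin (n + 1) →₀ ℕ) j : ℝ) * uu Λ ℓ τ j)) *
        ‖ℓ τ‖ ^ d := by
    have h5 := prod_word hI (fun j => Real.exp (-(uu Λ ℓ τ j)))
    rw [Finset.prod_mul_distrib, Finset.prod_const, Finset.card_univ, Fintype.card_fin, mul_pow,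
      h5]
    have h6 : ∏ j, Real.exp (-(uu Λ ℓ τ j)) ^ (e i : Fin (n + 1) →₀ ℕ) j =
        Real.exp (-∑ j, ((e i : Fin (n + 1) →₀ ℕ) j : ℝ) * uu Λ ℓ τ j) := by
      rw [← Finset.sum_neg_distrib, Real.exp_sum]
      refine Finset.prod_congr rfl fun j _ => ?_
      rw [← Real.exp_nat_mul]
      congr 1
      ring
    rw [h6]
    ring
  rw [h2]
  rw [h4] at h3
  exact le_of_mul_le_mul_right (h1.trans h3) (pow_pos hℓ0 d)

/-- the number of entries of a tuple equal to `τ` -/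
def cnt {H : Type} [DecidableEq H] {N : ℕ} (σ : Fin N → H) (τ : H) : ℕ :=
  (Finset.univ.filter fun l => σ l = τ).card

/-- **The combinatorial bound.** -/
theorem weight_bound {H : Type} [Fintype H] [DecidableEq H] (e : Fin (n' + 1) ≃ AD n d)
    (μ : H → Fin (n + 1) → ℝ) (hμ : ∀ τ j, 0 ≤ μ τ j) (σ : Fin (n' + 1) → H)
    (κ : Fin (n' + 1) → Fin (n' + 1)) (hκ : ∀ l l', σ l = σ l' → κ l = κ l' → l = l') (θ : ℕ) :
    ∑ τ, ∑ j, μ τ j * ((θ : ℝ) * cnt σ τ - PT n d θ j) ≤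
      ∑ l, ∑ j, ((e (κ l) : Fin (n + 1) →₀ ℕ) j : ℝ) * μ (σ l) j := by
  classical
  have h1 : ∑ l, ∑ j, ((e (κ l) : Fin (n + 1) →₀ ℕ) j : ℝ) * μ (σ l) j =
      ∑ τ, ∑ j, μ τ j * ∑ l ∈ Finset.univ.filter (fun l => σ l = τ),
        ((e (κ l) : Fin (n + 1) →₀ ℕ) j : ℝ) := by
    have h2 := Finset.sum_fiberwise (Finset.univ : Finset (Fin (n' + 1))) σ
      (fun l => ∑ j, ((e (κ l) : Fin (n + 1) →₀ ℕ) j : ℝ) * μ (σ l) j)
    rw [← h2]
    refine Finset.sum_congr rfl fun τ _ => ?_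
    rw [Finset.sum_comm]
    refine Finset.sum_congr rfl fun j _ => ?_
    rw [Finset.mul_sum]
    refine Finset.sum_congr rfl fun l hl => ?_
    rw [(Finset.mem_filter.1 hl).2, mul_comm]
  rw [h1]
  refine Finset.sum_le_sum fun τ _ => Finset.sum_le_sum fun j _ =>
    mul_le_mul_of_nonneg_left ?_ (hμ τ j)
  have h3 : ∑ l ∈ Finset.univ.filter (fun l => σ l = τ),
      (θ - (e (κ l) : Fin (n + 1) →₀ ℕ) j) ≤ PT n d θ j := by
    unfold PT
    rw [← Finset.sum_image (f := fun a : Fin (n + 1) →₀ ℕ => θ - a j)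
      (g := fun l => (e (κ l) : Fin (n + 1) →₀ ℕ))]
    · refine Finset.sum_le_sum_of_subset fun a ha => ?_
      obtain ⟨l, -, rfl⟩ := Finset.mem_image.1 ha
      exact (e (κ l)).2
    · intro l hl l' hl' h
      have e1 := (Finset.mem_filter.1 (Finset.mem_coe.1 hl)).2
      have e2 := (Finset.mem_filter.1 (Finset.mem_coe.1 hl')).2
      exact hκ l l' (e1.trans e2.symm) (e.injective (Subtype.ext h))
  have h4 : θ * cnt σ τ ≤ ∑ l ∈ Finset.univ.filter (fun l => σ l = τ),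
      (e (κ l) : Fin (n + 1) →₀ ℕ) j + PT n d θ j := by
    have h5 : θ * cnt σ τ = ∑ _l ∈ Finset.univ.filter (fun l => σ l = τ), θ := by
      rw [Finset.sum_const, smul_eq_mul, mul_comm]
      rfl
    rw [h5]
    refine le_trans ?_ (Nat.add_le_add_left h3 _)
    rw [← Finset.sum_add_distrib]
    exact Finset.sum_le_sum fun l _ => by omega
  have h5 : ((θ * cnt σ τ : ℕ) : ℝ) ≤ ((∑ l ∈ Finset.univ.filter (fun l => σ l = τ),
      (e (κ l) : Fin (n + 1) →₀ ℕ) j + PT n d θ j : ℕ) : ℝ) := by exact_mod_cast h4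
  push_cast at h5
  linarith

/-- sums over tuples -/
theorem sum_tuples {H : Type} [Fintype H] [DecidableEq H] {N : ℕ} (f : H → ℝ)
    (l : Fin (N + 1)) : ∑ σ : Fin (N + 1) → H, f (σ l) = (Fintype.card H : ℝ) ^ N * ∑ τ, f τ := by
  classical
  have h1 := Finset.prod_univ_sum (fun _ : Fin (N + 1) => (Finset.univ : Finset H))
    (fun l' τ => if l' = l then f τ else 1)
  rw [Fintype.piFinset_univ] at h1
  have h2 : ∀ σ : Fin (N + 1) → H, ∏ l', (if l' = l then f (σ l') else 1) = f (σ l) := by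
    intro σ
    rw [Finset.prod_ite_eq' Finset.univ l (fun l' => f (σ l')), if_pos (Finset.mem_univ _)]
  simp only [h2] at h1
  rw [← h1, ← Finset.mul_prod_erase Finset.univ _ (Finset.mem_univ l), mul_comm]
  congr 1
  · have h3 : ∀ l' ∈ Finset.univ.erase l, ∑ τ : H, (if l' = l then f τ else 1) =
        (Fintype.card H : ℝ) := by
      intro l' hl'
      have h4 := Finset.ne_of_mem_erase hl'
      simp only [h4, if_false]
      rw [Finset.sum_const, Finset.card_univ, nsmul_eq_mul, mul_one]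
    rw [Finset.prod_congr rfl h3, Finset.prod_const, Finset.card_erase_of_mem
      (Finset.mem_univ l), Finset.card_univ, Fintype.card_fin]
    rfl
  · refine Finset.sum_congr rfl fun τ _ => ?_
    rw [if_pos rfl]

theorem sum_cnt {H : Type} [Fintype H] [DecidableEq H] {N : ℕ} (f : H → ℝ) :
    ∑ σ : Fin (N + 1) → H, ∑ τ, f τ * (cnt σ τ : ℝ) =
      ((N : ℝ) + 1) * (Fintype.card H : ℝ) ^ N * ∑ τ, f τ := by
  classical
  have h1 : ∀ σ : Fin (N + 1) → H, ∑ τ, f τ * (cnt σ τ : ℝ) = ∑ l, f (σ l) := by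
    intro σ
    rw [← Finset.sum_fiberwise (Finset.univ : Finset (Fin (N + 1))) σ (fun l => f (σ l))]
    refine Finset.sum_congr rfl fun τ _ => ?_
    rw [Finset.sum_congr rfl fun l hl => by rw [(Finset.mem_filter.1 hl).2]]
    rw [Finset.sum_const, nsmul_eq_mul, mul_comm]
    rfl
  simp only [h1]
  rw [Finset.sum_comm]
  simp only [sum_tuples]
  rw [Finset.sum_const, Finset.card_univ, Fintype.card_fin, nsmul_eq_mul]
  push_cast
  ring

end bas

end Pool.Agent.T9h24
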