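import Mathlib
import Pool.Agent.T9h24.Mlt

/-!
The mixed determinants for frames depending on the conjugates.
-/

set_option autoImplicit false
set_option linter.unusedSectionVars false

open Finset MvPolynomial NumberField IsDedekindDomain

namespace Pool.Agent.T9h24

open Classical in
theorem mixedV_frames {F : Type} [NormedField F] [CharZero F] [IsAlgClosed F] {n n' d : ℕ}
    (G : Polynomial ℤ) (e : Fin (n' + 1) ≃ AD n d) (θ : ℕ) : ∃ K0 : ℝ,
    ∀ (E : Type) [Field E] [NumberField E] (x : Fin (n + 1) → 𝓞 E), x ≠ 0 →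
      ∀ L : (E →+* F) → Fin (n + 1) → Fin (n + 1) → F, (∀ τ k j, L τ k j ∈ (mp F G).roots) →
      (∀ τ, (Matrix.of (L τ)).det ≠ 0) →
      MixedV F G e x (fun σ => ∑ τ, ∑ j, uu (L τ) (fun (τ : E →+* F) i => τ (x i : E)) τ j *
        ((θ : ℝ) * cnt σ τ - PT n d θ j) - K0) := by
  set RF : Finset F := (mp F G).roots.toFinset with hRF
  obtain ⟨A, hA1, hA⟩ := exists_big (fun f : Fin (n + 1) → Fin (n + 1) → RF =>
    AA (fun k j => (f k j : F)))
  obtain ⟨M0, hM1, hM0⟩ := exists_big (fun p : (Fin (n' + 1) → Fin (n + 1) → Fin (n + 1) → RF) ×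
    (Fin (n' + 1) → Fin (n' + 1)) => ‖(Matrix.of fun l j =>
      (MF e (fun k j => (p.1 l k j : F)))⁻¹ j (p.2 l)).det‖)
  have hA0 : (0 : ℝ) < A := by exact_mod_cast hA1
  have hM00 : (0 : ℝ) < M0 := by exact_mod_cast hM1
  set KK : ℝ := ((n' : ℝ) + 1) ^ (n' + 1) * (((A : ℝ) ^ d) ^ (n' + 1) * M0) with hKK
  have hKK0 : 0 < KK := by
    rw [hKK]
    positivity
  refine ⟨Real.log KK, fun E _ _ x hx L hL hLd => ?_⟩
  intro σ ξ hξ
  have hℓ : ∀ τ : E →+* F, (fun i => τ (x i : E)) ≠ 0 := by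
    intro τ h0
    apply hx
    funext i
    have h1 : τ (x i : E) = 0 := congrFun h0 i
    exact RingOfIntegers.ext (by simpa using h1)
  -- the frames
  have hf : ∀ (τ : E →+* F), ∃ f : Fin (n + 1) → Fin (n + 1) → RF,
      (fun k j => (f k j : F)) = L τ := fun τ =>
    ⟨fun k j => ⟨L τ k j, Multiset.mem_toFinset.2 (hL τ k j)⟩, rfl⟩
  choose f hf using hf
  set μ : (E →+* F) → Fin (n + 1) → ℝ := fun τ j =>
    uu (L τ) (fun (τ : E →+* F) i => τ (x i : E)) τ j with hμ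
  have hμ0 : ∀ τ j, 0 ≤ μ τ j := fun τ j => uu_nonneg _ _ _ _
  set Ξ : ℝ := ∑ τ, ∑ j, μ τ j * ((θ : ℝ) * cnt σ τ - PT n d θ j) with hΞ
  have hval : ∀ l i, ‖∑ i', MF e (L (σ l)) i i' * ξ l i'‖ ≤ (A : ℝ) ^ d *
      Real.exp (-∑ j, ((e i : Fin (n + 1) →₀ ℕ) j : ℝ) * μ (σ l) j) := by
    intro l i
    have h1 := frame_val e (L (σ l)) (fun (τ : E →+* F) i => τ (x i : E)) (σ l) (hℓ _) (ξ l)
      (fun I => hξ l (fun k => L (σ l) (I k)) fun k j => hL _ _ _) i
    refine h1.trans (mul_le_mul_of_nonneg_right (pow_le_pow_left₀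
      (zero_le_one.trans (one_le_AA _)) ?_ d) (Real.exp_pos _).le)
    have h2 := hA (f (σ l))
    rw [hf] at h2
    exact h2
  have hmain := multi_bound (fun τ => MF e (L τ)) (fun τ => det_MF e (L τ) (hLd τ)) σ ξ M0
    (((A : ℝ) ^ d) ^ (n' + 1) * Real.exp (-Ξ)) (by positivity) hM00.le (fun κ => by
      have h2 := hM0 (fun l => f (σ l), κ)
      simp only [hf] at h2
      exact h2)
    (fun κ hκ => by
      have h1 : ∏ l, ‖∑ i, MF e (L (σ l)) (κ l) i * ξ l i‖ ≤ ∏ l, ((A : ℝ) ^ d *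
          Real.exp (-∑ j, ((e (κ l) : Fin (n + 1) →₀ ℕ) j : ℝ) * μ (σ l) j)) :=
        Finset.prod_le_prod (fun l _ => norm_nonneg _) fun l _ => hval l (κ l)
      refine h1.trans ?_
      rw [Finset.prod_mul_distrib, Finset.prod_const, Finset.card_univ, Fintype.card_fin,
        ← Real.exp_sum, Finset.sum_neg_distrib]
      refine mul_le_mul_of_nonneg_left (Real.exp_le_exp.2 (neg_le_neg ?_)) (by positivity)
      exact weight_bound e μ hμ0 σ κ hκ θ)
  refine hmain.trans (le_of_eq ?_)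
  have h1 : -(Ξ - Real.log KK) = -Ξ + Real.log KK := by ring
  show _ = Real.exp (-(Ξ - Real.log KK))
  rw [h1, Real.exp_add, Real.exp_log hKK0, hKK]
  ring

end Pool.Agent.T9h24
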