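import Mathlib
import Pool.Agent.T9h24.Mlf

/-!
The inequality for the full local heights: integral coordinates.
-/

set_option autoImplicit false
set_option linter.unusedSectionVars false

open Finset MvPolynomial NumberField IsDedekindDomain

namespace Pool.Agent.T9h24

/-- the form with given coefficients -/
noncomputable def Pu {n n' d : ℕ} (e : Fin (n' + 1) ≃ AD n d)
    (u : Fin (n' + 1) → AlgebraicClosure ℚ) : MvPolynomial (Fin (n + 1)) (AlgebraicClosure ℚ) :=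
  ∑ i, monomial (e i : Fin (n + 1) →₀ ℕ) (u i)

theorem Pu_ne {n n' d : ℕ} (e : Fin (n' + 1) ≃ AD n d)
    (u : Fin (n' + 1) → AlgebraicClosure ℚ) (hu : u ≠ 0) : Pu e u ≠ 0 := by
  classical
  obtain ⟨i0, hi0⟩ := Function.ne_iff.1 hu
  intro h0
  apply hi0
  have h1 := congrArg (fun P : MvPolynomial (Fin (n + 1)) (AlgebraicClosure ℚ) =>
    P.coeff (e i0 : Fin (n + 1) →₀ ℕ)) h0
  unfold Pu at h1
  simp only [coeff_sum, coeff_monomial, coeff_zero] at h1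
  rw [Finset.sum_eq_single i0] at h1
  · rw [if_pos rfl] at h1
    exact h1
  · intro i _ hi
    rw [if_neg]
    intro h2
    exact hi (e.injective (Subtype.ext h2))
  · intro h
    exact absurd (Finset.mem_univ _) h

theorem Pu_hom {n n' d : ℕ} (e : Fin (n' + 1) ≃ AD n d)
    (u : Fin (n' + 1) → AlgebraicClosure ℚ) : (Pu e u).IsHomogeneous d := by
  unfold Pu
  exact MvPolynomial.IsHomogeneous.sum _ _ _ fun i _ =>
    isHomogeneous_monomial _ (mem_AD.1 (e i).2)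

theorem eval_Pu {n n' d : ℕ} (e : Fin (n' + 1) ≃ AD n d)
    (u : Fin (n' + 1) → AlgebraicClosure ℚ) (y : Fin (n + 1) → AlgebraicClosure ℚ) :
    MvPolynomial.eval y (Pu e u) = ∑ i, u i * ver e y i := by
  unfold Pu ver
  rw [map_sum]
  refine Finset.sum_congr rfl fun i _ => ?_
  rw [eval_monomial, Finsupp.prod_fintype _ _ fun j => pow_zero _]

theorem lamH_le_uu' {n : ℕ} {F : Type} [NormedField F] (Λ : Fin (n + 1) → Fin (n + 1) → F)
    {H : Type} (ℓ : H → Fin (n + 1) → F) (τ : H) (k : Fin (n + 1)) :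
    lamH (Λ k) (ℓ τ) ≤ uu Λ ℓ τ k := by
  have h1 := lamH_le_uu (1 : F) one_ne_zero Λ ℓ τ k
  simpa using h1

/-- the sum of the bounds -/
theorem sum_Phi {n n' d : ℕ} {H : Type} [Fintype H] [DecidableEq H] (r : ℕ)
    (hH : Fintype.card H = r) (hN : NN n d = n' + 1) (θ : ℕ) (κ : ℝ)
    (hκ : ∀ j : Fin (n + 1), (d : ℝ) * NN n d * κ ≤ (θ : ℝ) * NN n d - r * PT n d θ j)
    (μ : H → Fin (n + 1) → ℝ) (hμ : ∀ τ j, 0 ≤ μ τ j) (K0 : ℝ) :
    (r : ℝ) ^ n' * ((d : ℝ) * NN n d * κ * ∑ τ, ∑ j, μ τ j) - (r : ℝ) ^ (n' + 1) * K0 ≤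
      ∑ σ : Fin (n' + 1) → H, (∑ τ, ∑ j, μ τ j * ((θ : ℝ) * cnt σ τ - PT n d θ j) - K0) := by
  have h1 : ∀ σ : Fin (n' + 1) → H, ∑ τ, ∑ j, μ τ j * ((θ : ℝ) * cnt σ τ - PT n d θ j) =
      ∑ τ, (θ * ∑ j, μ τ j) * (cnt σ τ : ℝ) - ∑ τ, ∑ j, μ τ j * PT n d θ j := by
    intro σ
    rw [← Finset.sum_sub_distrib]
    refine Finset.sum_congr rfl fun τ _ => ?_
    rw [Finset.mul_sum, Finset.sum_mul, ← Finset.sum_sub_distrib]
    exact Finset.sum_congr rfl fun j _ => by ring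
  rw [Finset.sum_sub_distrib]
  simp only [h1]
  rw [Finset.sum_sub_distrib, sum_cnt (fun τ => (θ : ℝ) * ∑ j, μ τ j), Finset.sum_const,
    Finset.sum_const, Finset.card_univ, Fintype.card_fun, Fintype.card_fin, hH, nsmul_eq_mul,
    nsmul_eq_mul, ← Finset.mul_sum]
  push_cast
  have h2 : (d : ℝ) * NN n d * κ * ∑ τ, ∑ j, μ τ j ≤
      θ * NN n d * ∑ τ, ∑ j, μ τ j - r * ∑ τ, ∑ j, μ τ j * PT n d θ j := by
    rw [Finset.mul_sum, Finset.mul_sum, Finset.mul_sum, ← Finset.sum_sub_distrib]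
    refine Finset.sum_le_sum fun τ _ => ?_
    rw [Finset.mul_sum, Finset.mul_sum, Finset.mul_sum, ← Finset.sum_sub_distrib]
    refine Finset.sum_le_sum fun j _ => ?_
    have h3 := mul_le_mul_of_nonneg_right (hκ j) (hμ τ j)
    refine h3.trans (le_of_eq ?_)
    ring
  have h3 := mul_le_mul_of_nonneg_left h2 (pow_nonneg (Nat.cast_nonneg (α := ℝ) r) n')
  have h4 : (NN n d : ℝ) = (n' : ℝ) + 1 := by
    rw [hN]
    push_cast
    ring
  have h5 : (r : ℝ) ^ (n' + 1) = r ^ n' * r := pow_succ _ _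
  rw [h5]
  rw [h4] at h3 ⊢
  linarith

open Classical in
/-- **The inequality for the full local heights**, integral coordinates. -/
theorem degB (n r : ℕ) (hr : 1 ≤ r) (G : Polynomial ℤ) (d θ : ℕ) (hd : 1 ≤ d)
    (κ : ℝ) (hκ0 : 0 ≤ κ)
    (hκ : ∀ j : Fin (n + 1), (d : ℝ) * NN n d * κ ≤ (θ : ℝ) * NN n d - r * PT n d θ j) :
    ∃ Z : Finset (MvPolynomial (Fin (n + 1)) (AlgebraicClosure ℚ)),
      (∀ P ∈ Z, P ≠ 0 ∧ P.IsHomogeneous d) ∧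
      ∀ (S : Finset Nat.Primes) (ε : ℝ), 0 < ε → ∃ Cc : ℝ, ∀ (E : Type) [Field E]
        [NumberField E], Module.finrank ℚ E = r → ∀ x : Fin (n + 1) → 𝓞 E, x ≠ 0 →
      (∀ P ∈ Z, ∀ τ : E →+* AlgebraicClosure ℚ,
        MvPolynomial.eval (fun j => τ (x j : E)) P ≠ 0) →
      ∀ L : (E →+* ℂ) → Fin (n + 1) → Fin (n + 1) → ℂ,
        (∀ τ k j, L τ k j ∈ (mp ℂ G).roots) → (∀ τ, (Matrix.of (L τ)).det ≠ 0) →
      ∀ Lp : ∀ p : Nat.Primes, (E →+* PadicAlgCl p) → Fin (n + 1) → Fin (n + 1) → PadicAlgCl p,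
        (∀ p ∈ S, ∀ τ k j, Lp p τ k j ∈ (mp (PadicAlgCl p) G).roots) →
        (∀ p ∈ S, ∀ τ, (Matrix.of (Lp p τ)).det ≠ 0) →
      κ * (∑ τ : E →+* ℂ, ∑ k, lamH (L τ k) (fun i => τ (x i : E)) +
        ∑ p ∈ S, ∑ τ : E →+* PadicAlgCl p, ∑ k, lamH (Lp p τ k) (fun i => τ (x i : E))) ≤
        (1 + ε) * Height.logHeight (fun i => (x i : E)) + Cc := by
  have hNpos : 0 < NN n d := by
    rw [NN_eq]
    exact Nat.choose_pos (by omega)
  obtain ⟨n', hn'⟩ : ∃ n', NN n d = n' + 1 := ⟨NN n d - 1, by omega⟩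
  have e : Fin (n' + 1) ≃ AD n d := (finCongr hn'.symm).trans (ee n d)
  obtain ⟨Z, hZ, h⟩ := mainV n r d hr G e
  refine ⟨Z.image (Pu e), fun P hP => ?_, fun S ε hε => ?_⟩
  · obtain ⟨u, hu, rfl⟩ := Finset.mem_image.1 hP
    exact ⟨Pu_ne e u (hZ u hu), Pu_hom e u⟩
  have hN0 : (0 : ℝ) < (NN n d : ℝ) := by exact_mod_cast hNpos
  have hNr : (NN n d : ℝ) = (n' : ℝ) + 1 := by
    rw [hn']
    push_cast
    ring
  have hd0 : (0 : ℝ) < d := by exact_mod_cast hd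
  have hr0 : (0 : ℝ) < r := by exact_mod_cast hr
  obtain ⟨Cc, hC⟩ := h S (ε * NN n d) (mul_pos hε hN0)
  obtain ⟨Ki, hKi⟩ := mixedV_frames (F := ℂ) G e θ
  have hKp : ∀ p : Nat.Primes, ∃ K0 : ℝ, ∀ (E : Type) [Field E] [NumberField E]
      (x : Fin (n + 1) → 𝓞 E), x ≠ 0 → ∀ L : (E →+* PadicAlgCl p) → Fin (n + 1) →
        Fin (n + 1) → PadicAlgCl p, (∀ τ k j, L τ k j ∈ (mp (PadicAlgCl p) G).roots) →
      (∀ τ, (Matrix.of (L τ)).det ≠ 0) →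
      MixedV (PadicAlgCl p) G e x (fun σ => ∑ τ, ∑ j, uu (L τ)
        (fun (τ : E →+* PadicAlgCl p) i => τ (x i : E)) τ j *
        ((θ : ℝ) * cnt σ τ - PT n d θ j) - K0) := fun p => mixedV_frames G e θ
  choose Kp hKp using hKp
  refine ⟨(Cc + (r : ℝ) ^ (n' + 1) * (Ki + ∑ p ∈ S, Kp p)) / ((r : ℝ) ^ n' * (d * NN n d)),
    fun E _ _ hE x hx hxZ L hL hLd Lp hLp hLpd => ?_⟩
  set ui : (E →+* ℂ) → Fin (n + 1) → ℝ := fun τ j =>
    uu (L τ) (fun (τ : E →+* ℂ) i => τ (x i : E)) τ j with hui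
  set up : ∀ p : Nat.Primes, (E →+* PadicAlgCl p) → Fin (n + 1) → ℝ := fun p τ j =>
    uu (Lp p τ) (fun (τ : E →+* PadicAlgCl p) i => τ (x i : E)) τ j with hup
  have h1 := hC E hE x hx (fun u hu τ => by
    have h2 := hxZ (Pu e u) (Finset.mem_image_of_mem _ hu) τ
    rwa [eval_Pu] at h2)
    (fun σ => ∑ τ, ∑ j, ui τ j * ((θ : ℝ) * cnt σ τ - PT n d θ j) - Ki)
    (hKi E x hx L hL hLd)
    (fun p σ => ∑ τ, ∑ j, up p τ j * ((θ : ℝ) * cnt σ τ - PT n d θ j) - Kp p)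
    (fun p hp => hKp p E x hx (Lp p) (hLp p hp) (hLpd p hp))
  have hci : Fintype.card (E →+* ℂ) = r := by rw [card_emb ℂ, hE]
  have hcp : ∀ p : Nat.Primes, Fintype.card (E →+* PadicAlgCl p) = r := fun p => by
    rw [card_emb (PadicAlgCl p), hE]
  have h2 := sum_Phi r hci hn' θ κ hκ ui (fun τ j => uu_nonneg _ _ _ _) Ki
  have h3 : ∀ p ∈ S, _ := fun p _ => sum_Phi r (hcp p) hn' θ κ hκ (up p)
    (fun τ j => uu_nonneg _ _ _ _) (Kp p)
  have h4 := Finset.sum_le_sum h3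
  rw [Finset.sum_sub_distrib, ← Finset.mul_sum, ← Finset.mul_sum, ← Finset.mul_sum] at h4
  -- the local heights
  have h5 : ∑ τ : E →+* ℂ, ∑ k, lamH (L τ k) (fun i => τ (x i : E)) ≤ ∑ τ, ∑ j, ui τ j :=
    Finset.sum_le_sum fun τ _ => Finset.sum_le_sum fun k _ =>
      lamH_le_uu' (L τ) (fun (τ : E →+* ℂ) i => τ (x i : E)) τ k
  have h6 : ∑ p ∈ S, ∑ τ : E →+* PadicAlgCl p, ∑ k, lamH (Lp p τ k) (fun i => τ (x i : E)) ≤
      ∑ p ∈ S, ∑ τ, ∑ j, up p τ j :=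
    Finset.sum_le_sum fun p _ => Finset.sum_le_sum fun τ _ => Finset.sum_le_sum fun k _ =>
      lamH_le_uu' (Lp p τ) (fun (τ : E →+* PadicAlgCl p) i => τ (x i : E)) τ k
  refine (mul_le_mul_of_nonneg_left (add_le_add h5 h6) hκ0).trans ?_
  set A1 := ∑ τ, ∑ j, ui τ j with hA1
  set A2 := ∑ p ∈ S, ∑ τ, ∑ j, up p τ j with hA2
  set LH := Height.logHeight (fun i => (x i : E)) with hLH
  have hden : 0 < (r : ℝ) ^ n' * (d * NN n d) := by positivity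
  have h7 : (r : ℝ) ^ n' * (d * NN n d) * (κ * (A1 + A2)) ≤
      (r : ℝ) ^ n' * (d * NN n d) * ((1 + ε) * LH) +
        (Cc + (r : ℝ) ^ (n' + 1) * (Ki + ∑ p ∈ S, Kp p)) := by
    rw [← hNr] at h1
    have h8 : (r : ℝ) ^ n' * ((NN n d : ℝ) + ε * NN n d) * (d * LH) =
        (r : ℝ) ^ n' * (d * NN n d) * ((1 + ε) * LH) := by ring
    rw [h8] at h1
    have h9 : (r : ℝ) ^ n' * (d * NN n d) * (κ * (A1 + A2)) =
        (r : ℝ) ^ n' * (d * NN n d * κ * A1) + (r : ℝ) ^ n' * (d * NN n d * κ * A2) := by ring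
    rw [h9]
    linarith
  have h8 : (r : ℝ) ^ n' * (d * NN n d) * ((1 + ε) * LH) +
        (Cc + (r : ℝ) ^ (n' + 1) * (Ki + ∑ p ∈ S, Kp p)) =
      (r : ℝ) ^ n' * (d * NN n d) * ((1 + ε) * LH +
        (Cc + (r : ℝ) ^ (n' + 1) * (Ki + ∑ p ∈ S, Kp p)) / ((r : ℝ) ^ n' * (d * NN n d))) := by
    field_simp
  rw [h8] at h7
  exact le_of_mul_le_mul_left h7 hden

end Pool.Agent.T9h24
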