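import Mathlib
import Pool.Agent.T9h24.Kap

/-!
The constant.
-/

set_option autoImplicit false
set_option linter.unusedSectionVars false

open Finset

namespace Pool.Agent.T9h24

/-- the function of the threshold -/
noncomputable def kapp (n r : ℕ) (m : ℝ) : ℝ :=
  (r : ℝ) / (n + 1) * (1 - (1 - m) ^ (n + 1)) - (r - 1) * m

theorem kapp_anti (n : ℕ) {s r : ℕ} (hsr : s ≤ r) (m : ℝ) (hm1 : m ≤ 1) :
    kapp n r m ≤ kapp n s m := by
  have hn0 : (0 : ℝ) < (n : ℝ) + 1 := by positivity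
  have h1 := one_add_mul_le_pow (a := -m) (by linarith) (n + 1)
  have h2 : (1 - (1 - m) ^ (n + 1)) / (n + 1) ≤ m := by
    rw [div_le_iff₀ hn0]
    have h3 : 1 + -m = 1 - m := by ring
    rw [h3] at h1
    push_cast at h1
    linarith
  have h4 : ∀ q : ℕ, kapp n q m = m + q * ((1 - (1 - m) ^ (n + 1)) / (n + 1) - m) := by
    intro q
    unfold kapp
    ring
  rw [h4, h4]
  have h5 : (s : ℝ) ≤ r := by exact_mod_cast hsr
  nlinarith

theorem K_facts (n r : ℕ) (hn : 1 ≤ n) (hr : 1 ≤ r) :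
    0 ≤ 1 - (1 - 1 / (r : ℝ)) ^ (1 / (n : ℝ)) ∧ 1 - (1 - 1 / (r : ℝ)) ^ (1 / (n : ℝ)) ≤ 1 ∧
    0 < 1 - n * ((r : ℝ) - 1) * (1 - (1 - 1 / (r : ℝ)) ^ (1 / (n : ℝ))) ∧
    kapp n r (1 - (1 - 1 / (r : ℝ)) ^ (1 / (n : ℝ))) =
      (1 - n * ((r : ℝ) - 1) * (1 - (1 - 1 / (r : ℝ)) ^ (1 / (n : ℝ)))) / (n + 1) := by
  have hr1 : (1 : ℝ) ≤ r := by exact_mod_cast hr
  have hr0 : (0 : ℝ) < r := by linarith
  have hn1 : (1 : ℝ) ≤ n := by exact_mod_cast hn
  have hn0 : (0 : ℝ) < n := by linarith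
  have hb0 : 0 ≤ 1 - 1 / (r : ℝ) := by
    rw [sub_nonneg, div_le_one hr0]
    exact hr1
  have hb1 : 1 - 1 / (r : ℝ) ≤ 1 := by
    have : 0 ≤ 1 / (r : ℝ) := by positivity
    linarith
  set t : ℝ := (1 - 1 / (r : ℝ)) ^ (1 / (n : ℝ)) with ht
  have ht0 : 0 ≤ t := Real.rpow_nonneg hb0 _
  have ht1 : t ≤ 1 := Real.rpow_le_one hb0 hb1 (by positivity)
  have htn : t ^ n = 1 - 1 / (r : ℝ) := by
    rw [ht, one_div (n : ℝ)]
    exact Real.rpow_inv_natCast_pow hb0 (by omega)
  have hrt : (r : ℝ) * t ^ n = r - 1 := by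
    rw [htn]
    field_simp
  refine ⟨by linarith, by linarith, ?_, ?_⟩
  · rcases Nat.eq_or_lt_of_le hr with h | h
    · rw [← h]
      norm_num
    · have hr2 : (0 : ℝ) < (r : ℝ) - 1 := by
        have : (1 : ℝ) < r := by exact_mod_cast h
        linarith
      have htpos : 0 < t := by
        rcases ht0.lt_or_eq with h1 | h1
        · exact h1
        · exfalso
          rw [← h1, zero_pow (by omega), mul_zero] at hrt
          linarith
      have h1 := one_add_mul_le_pow (a := 1 / t - 1) (by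
        have : 0 < 1 / t := by positivity
        linarith) n
      have h2 : 1 + (1 / t - 1) = 1 / t := by ring
      rw [h2, div_pow, one_pow] at h1
      have h3 : 1 / t ^ n = r / (r - 1) := by
        rw [← hrt]
        have : t ^ n ≠ 0 := (pow_pos htpos n).ne'
        field_simp
      rw [h3] at h1
      have h4 : (r : ℝ) / (r - 1) = 1 + 1 / (r - 1) := by
        field_simp
        ring
      rw [h4] at h1
      have h5 : (n : ℝ) * (1 / t - 1) ≤ 1 / (r - 1) := by linarith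
      have h6 : (n : ℝ) * (1 / t - 1) * (t * (r - 1)) ≤ 1 / (r - 1) * (t * (r - 1)) :=
        mul_le_mul_of_nonneg_right h5 (by positivity)
      have h7 : (n : ℝ) * (1 / t - 1) * (t * (r - 1)) = n * (r - 1) * (1 - t) := by
        field_simp
      have h8 : 1 / ((r : ℝ) - 1) * (t * (r - 1)) = t := by
        field_simp
      rw [h7, h8] at h6
      rcases ht1.lt_or_eq with h9 | h9
      · linarith
      · rw [h9]
        norm_num
  · unfold kapp
    have h1 : 1 - (1 - t) = t := by ring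
    rw [h1, pow_succ]
    have hn2 : (n : ℝ) + 1 ≠ 0 := by positivity
    field_simp
    have h2 : (r : ℝ) * (1 - t ^ n * t) = r - (r * t ^ n) * t := by ring
    rw [h2, hrt]
    ring

end Pool.Agent.T9h24
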