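import Mathlib
import Pool.Agent.TH875.Cm4
import Pool.Agent.T9h24.Ptn

/-!
Bases of the homogeneous parts of the coordinate ring adapted to a system of parameters.
-/

set_option autoImplicit false
set_option linter.unusedSectionVars false

namespace Pool.Agent.T9h24

open MvPolynomial Finset Pool.Agent.TH875

section basis

variable {K : Type} [Field K] {n : ℕ}

/-- a basis of monomials -/
theorem mono_basis (I : Ideal (MvPolynomial (Fin n) K)) (M N : ℕ)
    (hN : Module.finrank K (VM I M) = N + 1) :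
    ∃ (c : Fin (N + 1) → (Fin n →₀ ℕ)) (b : Module.Basis (Fin (N + 1)) K (VM I M)),
      (∀ i, (c i).degree = M) ∧
      ∀ i, ((b i : VM I M) : MvPolynomial (Fin n) K ⧸ I) =
        Ideal.Quotient.mkₐ K I (monomial (c i) 1) := by
  classical
  set s : Set (MvPolynomial (Fin n) K ⧸ I) :=
    {w | ∃ a : Fin n →₀ ℕ, a.degree = M ∧ w = Ideal.Quotient.mkₐ K I (monomial a 1)} with hs
  have hspan : Submodule.span K s = VM I M := by
    apply le_antisymm
    · rw [Submodule.span_le]
      rintro _ ⟨a, ha, rfl⟩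
      exact ⟨monomial a 1, isHomogeneous_monomial _ ha, rfl⟩
    · rintro _ ⟨F, hF, rfl⟩
      have hF' : F.IsHomogeneous M := hF
      rw [F.as_sum, map_sum]
      refine Submodule.sum_mem _ fun β hβ => ?_
      have e1 : monomial β (F.coeff β) = F.coeff β • (monomial β 1 : MvPolynomial (Fin n) K) := by
        rw [smul_monomial, smul_eq_mul, mul_one]
      rw [e1, map_smul]
      refine Submodule.smul_mem _ _ (Submodule.subset_span ⟨β, ?_, rfl⟩)
      by_contra h
      exact mem_support_iff.1 hβ (hF'.coeff_eq_zero h)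
  have hfin : Module.Finite K (Submodule.span K s) := by
    rw [hspan]
    exact VM_finite I M
  obtain ⟨f, hf, -, hli⟩ := Submodule.exists_fun_fin_finrank_span_eq K s
  have hcard : Module.finrank K (Submodule.span K s) = N + 1 := by rw [hspan, hN]
  choose c hc hfc using fun i : Fin (N + 1) => hf (finCongr hcard.symm i)
  have hmem : ∀ i : Fin (N + 1), Ideal.Quotient.mkₐ K I (monomial (c i) 1) ∈ VM I M := fun i =>
    ⟨monomial (c i) 1, isHomogeneous_monomial _ (hc i), rfl⟩
  set g : Fin (N + 1) → VM I M := fun i => ⟨_, hmem i⟩ with hg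
  have hgli : LinearIndependent K g := by
    refine LinearIndependent.of_comp (VM I M).subtype ?_
    have h1 := hli.comp (finCongr hcard.symm) (Equiv.injective _)
    have e : (VM I M).subtype ∘ g = f ∘ (finCongr hcard.symm) := by
      funext i
      exact (hfc i).symm
    rw [e]
    exact h1
  refine ⟨c, basisOfLinearIndependentOfCardEqFinrank hgli (by rw [hN, Fintype.card_fin]), hc,
    fun i => ?_⟩
  rw [coe_basisOfLinearIndependentOfCardEqFinrank]

/-- the adapted bases -/
theorem adapted {r D M N : ℕ} (I : Ideal (MvPolynomial (Fin n) K)) (hD : 1 ≤ D)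
    (c : Fin (N + 1) → (Fin n →₀ ℕ)) (b : Module.Basis (Fin (N + 1)) K (VM I M))
    (hc : ∀ i, (c i).degree = M)
    (hb : ∀ i, ((b i : VM I M) : MvPolynomial (Fin n) K ⧸ I) =
        Ideal.Quotient.mkₐ K I (monomial (c i) 1))
    (y : Fin r → MvPolynomial (Fin n) K) (hy : ∀ k, (y k).IsHomogeneous D)
    (E : Finset (Fin n →₀ ℕ)) (hE : Ind I y E) :
    ∃ (s : Fin (N + 1) → (Fin r → ℕ) × (Fin n →₀ ℕ)) (W : Matrix (Fin (N + 1)) (Fin (N + 1)) K),
      W.det ≠ 0 ∧ (∀ a, dg D (s a) = M) ∧
      (∀ a, ym y (s a) - ∑ i, C (W a i) * monomial (c i) 1 ∈ I) ∧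
      (Sm D E r M).card ≤ N + 1 ∧
      ∀ (θ : ℕ) (k : Fin r), ∑ a, (θ - (s a).1 k) =
        ∑ t ∈ Sm D E r M, (θ - t.1 k) + (N + 1 - (Sm D E r M).card) * θ := by
  classical
  have hmemV : ∀ s : {s // s ∈ Sm D E r M}, Ideal.Quotient.mkₐ K I (ym y s.1) ∈ VM I M := by
    intro s
    have h1 := ym_hom hy s.1
    rw [((mem_Sm hD E M s.1).1 s.2).2] at h1
    exact ⟨_, h1, rfl⟩
  set v : {s // s ∈ Sm D E r M} → VM I M := fun s =>
    ⟨Ideal.Quotient.mkₐ K I (ym y s.1), hmemV s⟩ with hv
  have hvli : LinearIndependent K v := by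
    refine LinearIndependent.of_comp (VM I M).subtype ?_
    have h1 : LinearIndependent K (fun s : {s : (Fin r → ℕ) × (Fin n →₀ ℕ) | s.2 ∈ E} =>
      Ideal.Quotient.mkₐ K I (ym y s.1)) := hE
    have h2 := h1.comp (fun s : {s // s ∈ Sm D E r M} =>
      (⟨s.1, ((mem_Sm hD E M s.1).1 s.2).1⟩ :
        {s : (Fin r → ℕ) × (Fin n →₀ ℕ) | s.2 ∈ E})) (by
      intro a a' h
      exact Subtype.ext (by simpa using h))
    exact h2
  obtain ⟨J, hJ, hli⟩ := ext_basis v hvli b
  rw [Fintype.card_coe] at hJ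
  have ecard : Fintype.card (Fin (N + 1)) = Fintype.card ({s // s ∈ Sm D E r M} ⊕ J) := by
    rw [Fintype.card_fin, Fintype.card_sum, Fintype.card_coe, Fintype.card_coe, hJ]
  have φ : Fin (N + 1) ≃ ({s // s ∈ Sm D E r M} ⊕ J) := Fintype.equivOfCardEq ecard
  set w : Fin (N + 1) → VM I M := fun a => Sum.elim v (fun j : J => b j) (φ a) with hw
  have hwli : LinearIndependent K w := hli.comp φ φ.injective
  set s : Fin (N + 1) → (Fin r → ℕ) × (Fin n →₀ ℕ) := fun a =>
    Sum.elim (fun t : {s // s ∈ Sm D E r M} => t.1) (fun j : J => (0, c j)) (φ a) with hs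
  have hws : ∀ a, ((w a : VM I M) : MvPolynomial (Fin n) K ⧸ I) =
      Ideal.Quotient.mkₐ K I (ym y (s a)) := by
    intro a
    simp only [hw, hs]
    rcases φ a with t | j
    · rfl
    · simp only [Sum.elim_inr]
      rw [hb]
      unfold ym
      simp
  have hsM : ∀ a, dg D (s a) = M := by
    intro a
    simp only [hs]
    rcases φ a with t | j
    · exact ((mem_Sm hD E M t.1).1 t.2).2
    · simp only [Sum.elim_inr]
      unfold dg
      simp [hc]
  refine ⟨s, Matrix.of fun a i => b.repr (w a) i, ?_, hsM, fun a => ?_, by omega, fun θ k => ?_⟩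
  · have h1 : LinearIndependent K (fun a => b.equivFun (w a)) :=
      hwli.map' b.equivFun.toLinearMap (LinearMap.ker_eq_bot.2 b.equivFun.injective)
    have h2 : IsUnit (Matrix.of fun a i => b.repr (w a) i) := by
      rw [← Matrix.linearIndependent_rows_iff_isUnit]
      exact h1
    exact isUnit_iff_ne_zero.1 ((Matrix.isUnit_iff_isUnit_det _).1 h2)
  · rw [← Ideal.Quotient.eq_zero_iff_mem]
    have h1 := congrArg (fun z : VM I M => (z : MvPolynomial (Fin n) K ⧸ I)) (b.sum_repr (w a))
    simp only [AddSubmonoidClass.coe_finsetSum, Submodule.coe_smul] at h1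
    rw [hws] at h1
    simp only [hb] at h1
    have h2 : Ideal.Quotient.mkₐ K I (ym y (s a) -
        ∑ i, C (b.repr (w a) i) * monomial (c i) 1) = 0 := by
      rw [map_sub, map_sum, sub_eq_zero, ← h1]
      refine Finset.sum_congr rfl fun i _ => ?_
      rw [← MvPolynomial.smul_eq_C_mul, map_smul]
    exact h2
  · have h1 : ∑ a, (θ - (s a).1 k) = ∑ x : {s // s ∈ Sm D E r M} ⊕ J,
        (θ - (Sum.elim (fun t : {s // s ∈ Sm D E r M} => t.1) (fun j : J => (0, c j)) x).1 k) :=
      Equiv.sum_comp φ (fun x : {s // s ∈ Sm D E r M} ⊕ J =>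
        (θ - (Sum.elim (fun t : {s // s ∈ Sm D E r M} => t.1) (fun j : J => (0, c j)) x).1 k))
    rw [h1, Fintype.sum_sum_type]
    simp only [Sum.elim_inl, Sum.elim_inr, Pi.zero_apply, Nat.sub_zero]
    rw [Finset.sum_const, Finset.card_univ, Fintype.card_coe, smul_eq_mul,
      Finset.sum_coe_sort (Sm D E r M) (fun t => θ - t.1 k)]
    congr 2
    omega

end basis

end Pool.Agent.T9h24
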