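import Mathlib
import Pool.Agent.T9h24.Xba
import Pool.Agent.T9h24.Knr

/-!
Sums over the adapted bases.
-/

set_option autoImplicit false
set_option linter.unusedSectionVars false

namespace Pool.Agent.T9h24

open MvPolynomial Finset Filter Pool.Agent.TH875

theorem PT_succ_of_ge (n d θ : ℕ) (h : d ≤ θ) (j : Fin (n + 1)) :
    PT n d (θ + 1) j = PT n d θ j + NN n d := by
  unfold PT NN
  rw [Finset.card_eq_sum_ones, ← Finset.sum_add_distrib]
  refine Finset.sum_congr rfl fun a ha => ?_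
  have h1 : a j ≤ d := by
    rw [← mem_AD.1 ha, Finsupp.degree_eq_sum]
    exact Finset.single_le_sum (f := fun j => a j) (fun _ _ => Nat.zero_le _) (Finset.mem_univ j)
  omega

theorem PT_eq' (n d : ℕ) (j : Fin (n + 1)) (θ : ℕ) :
    PT n d θ j + (n + d).choose (n + 1) = θ * NN n d + (n + d - θ).choose (n + 1) := by
  rcases le_total θ d with h | h
  · exact PT_eq n d j θ h
  · obtain ⟨t, rfl⟩ := Nat.exists_eq_add_of_le h
    induction t with
    | zero => exact PT_eq n d j d le_rfl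
    | succ t ih =>
      have h1 := ih (by omega)
      have h2 := PT_succ_of_ge n d (d + t) (by omega) j
      have h3 : (n + d - (d + t)).choose (n + 1) = 0 := Nat.choose_eq_zero_of_lt (by omega)
      have h4 : (n + d - (d + (t + 1))).choose (n + 1) = 0 := Nat.choose_eq_zero_of_lt (by omega)
      rw [← add_assoc, h2]
      rw [← add_assoc] at h4
      rw [h4]
      rw [h3] at h1
      linarith

theorem fiber_sum {n ν D : ℕ} (hD : 1 ≤ D) (E : Finset (Fin n →₀ ℕ)) (M : ℕ)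
    (β : Fin n →₀ ℕ) (hβ : β ∈ E) (d' : ℕ) (hd' : D * d' + β.degree = M)
    (f : (Fin (ν + 1) → ℕ) → ℕ) :
    ∑ t ∈ (Sm D E (ν + 1) M).filter (fun t => t.2 = β), f t.1 = ∑ a ∈ AD ν d', f a := by
  classical
  refine Finset.sum_nbij' (fun t => Finsupp.equivFunOnFinite.symm t.1)
    (fun a => ((a : Fin (ν + 1) → ℕ), β)) ?_ ?_ ?_ ?_ ?_
  · intro t ht
    obtain ⟨h1, h2⟩ := Finset.mem_filter.1 ht
    obtain ⟨-, h3⟩ := (mem_Sm hD E M t).1 h1
    rw [mem_AD, Finsupp.degree_eq_sum]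
    unfold dg at h3
    rw [h2] at h3
    have h4 : D * ∑ k, t.1 k = D * d' := by omega
    exact Nat.eq_of_mul_eq_mul_left hD h4
  · intro a ha
    rw [Finset.mem_filter, mem_Sm hD]
    refine ⟨⟨hβ, ?_⟩, rfl⟩
    unfold dg
    rw [mem_AD, Finsupp.degree_eq_sum] at ha
    rw [← hd', ← ha]
  · intro t ht
    obtain ⟨-, h2⟩ := Finset.mem_filter.1 ht
    refine Prod.ext ?_ h2.symm
    rfl
  · intro a _
    exact Finsupp.equivFunOnFinite.symm_apply_apply a
  · intro t _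
    rfl

theorem fiber_empty {n ν D : ℕ} (hD : 1 ≤ D) (E : Finset (Fin n →₀ ℕ)) (M : ℕ)
    (β : Fin n →₀ ℕ) (h : ¬ ∃ d', D * d' + β.degree = M) :
    (Sm D E (ν + 1) M).filter (fun t => t.2 = β) = ∅ := by
  classical
  rw [Finset.filter_eq_empty_iff]
  intro t ht h2
  obtain ⟨-, h3⟩ := (mem_Sm hD E M t).1 ht
  unfold dg at h3
  rw [h2] at h3
  exact h ⟨_, h3⟩

theorem Sm_bound {n ν D : ℕ} (hD : 1 ≤ D) (E : Finset (Fin n →₀ ℕ)) (d B θ r : ℕ)
    (hB : ∀ β ∈ E, β.degree ≤ B) (κ : ℝ) (hκ : 0 ≤ κ)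
    (h : ∀ d' : ℕ, d ≤ d' + B → d' ≤ d → ∀ j : Fin (ν + 1),
      (d' : ℝ) * NN ν d' * κ ≤ (θ : ℝ) * NN ν d' - r * PT ν d' θ j) (j : Fin (ν + 1)) :
    ((d : ℝ) - B) * κ * (Sm D E (ν + 1) (D * d)).card ≤
      (θ : ℝ) * (Sm D E (ν + 1) (D * d)).card -
        r * ((∑ t ∈ Sm D E (ν + 1) (D * d), (θ - t.1 j) : ℕ) : ℝ) := by
  classical
  set Sd := Sm D E (ν + 1) (D * d) with hSd
  have hmaps : ∀ t ∈ Sd, t.2 ∈ E := fun t ht => ((mem_Sm hD E _ t).1 ht).1
  have h1 : Sd.card = ∑ β ∈ E, (Sd.filter fun t => t.2 = β).card :=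
    Finset.card_eq_sum_card_fiberwise hmaps
  have h2 : ∑ t ∈ Sd, (θ - t.1 j) = ∑ β ∈ E, ∑ t ∈ Sd.filter (fun t => t.2 = β), (θ - t.1 j) :=
    (Finset.sum_fiberwise_of_maps_to hmaps _).symm
  have h3 : ∀ β ∈ E, ((d : ℝ) - B) * κ * ((Sd.filter fun t => t.2 = β).card : ℝ) ≤
      (θ : ℝ) * ((Sd.filter fun t => t.2 = β).card : ℝ) -
        r * ((∑ t ∈ Sd.filter (fun t => t.2 = β), (θ - t.1 j) : ℕ) : ℝ) := by
    intro β hβ
    by_cases he : ∃ d', D * d' + β.degree = D * d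
    · obtain ⟨d', hd'⟩ := he
      have hle : d' ≤ d := by
        have h4 : D * d' ≤ D * d := by omega
        exact Nat.le_of_mul_le_mul_left h4 hD
      have hge : d ≤ d' + B := by
        have h4 := hB β hβ
        obtain ⟨u, hu⟩ := Nat.exists_eq_add_of_le hle
        subst hu
        have h5 : u ≤ D * u := Nat.le_mul_of_pos_left _ hD
        have h6 : D * (d' + u) = D * d' + D * u := Nat.mul_add _ _ _
        omega
      have h5 := fiber_sum (ν := ν) hD E (D * d) β hβ d' hd' (fun _ => 1)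
      have h6 := fiber_sum (ν := ν) hD E (D * d) β hβ d' hd' (fun a => θ - a j)
      rw [← hSd] at h5 h6
      simp only [Finset.sum_const, smul_eq_mul, mul_one] at h5
      have h7 : (Sd.filter fun t => t.2 = β).card = NN ν d' := h5
      have h8 : ∑ t ∈ Sd.filter (fun t => t.2 = β), (θ - t.1 j) = PT ν d' θ j := h6
      rw [h7, h8]
      refine le_trans ?_ (h d' hge hle j)
      have h9 : (d : ℝ) - B ≤ d' := by
        have : (d : ℝ) ≤ d' + B := by exact_mod_cast hge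
        linarith
      have h10 : (0 : ℝ) ≤ κ * NN ν d' := mul_nonneg hκ (Nat.cast_nonneg _)
      nlinarith
    · rw [hSd, fiber_empty hD E _ β he]
      simp
  have h4 := Finset.sum_le_sum h3
  rw [Finset.sum_sub_distrib, ← Finset.mul_sum, ← Finset.mul_sum, ← Finset.mul_sum] at h4
  rw [h1, h2]
  push_cast at h4 ⊢
  exact h4

/-- the lower bound for the constant, uniformly near `d` -/
theorem exists_theta2 (n r : ℕ) (hr : 1 ≤ r) (m : ℝ) (hm0 : 0 ≤ m) (hm1 : m ≤ 1)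
    (ε : ℝ) (hε : 0 < ε) (B : ℕ) : ∃ d0 : ℕ, ∀ d, d0 ≤ d → ∀ d', d ≤ d' + B → d' ≤ d →
      ∀ j : Fin (n + 1), (d' : ℝ) * NN n d' * (kapp n r m - ε) ≤
        (⌊m * d⌋₊ : ℝ) * NN n d' - r * PT n d' ⌊m * d⌋₊ j := by
  have hr1 : (1 : ℝ) ≤ r := by exact_mod_cast hr
  have hn0 : (0 : ℝ) < (n : ℝ) + 1 := by positivity
  have hlim : Tendsto (fun d : ℕ => (r : ℝ) / (n + 1) *
      (1 - m + ((n : ℝ) + 1) / d) ^ (n + 1) + ((r - 1) * m * B) / d) atTop
      (nhds ((r : ℝ) / (n + 1) * (1 - m + 0) ^ (n + 1) + 0)) := by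
    have h1 := (tendsto_const_div_atTop_nhds_zero_nat ((n : ℝ) + 1)).const_add (1 - m)
    exact ((h1.pow (n + 1)).const_mul _).add (tendsto_const_div_atTop_nhds_zero_nat _)
  rw [add_zero, add_zero] at hlim
  have h1 : ∀ᶠ d : ℕ in atTop, (r : ℝ) / (n + 1) * (1 - m + ((n : ℝ) + 1) / d) ^ (n + 1) +
      ((r - 1) * m * B) / d < (r : ℝ) / (n + 1) * (1 - m) ^ (n + 1) + ε :=
    (tendsto_order.1 hlim).2 _ (by linarith)
  obtain ⟨d1, hd1⟩ := Filter.eventually_atTop.1 (h1.and (eventually_ge_atTop 1))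
  refine ⟨d1 + B, fun e he d hde hdle j => ?_⟩
  obtain ⟨hd, hd1'⟩ := hd1 d (by omega)
  have hd0 : (0 : ℝ) < d := by exact_mod_cast hd1'
  have hed : (e : ℝ) ≤ d + B := by exact_mod_cast hde
  have hed' : (d : ℝ) ≤ e := by exact_mod_cast hdle
  set θ := ⌊m * e⌋₊ with hθ
  have hθ1 : (θ : ℝ) ≤ m * e := Nat.floor_le (by positivity)
  have hθ2 : m * e < θ + 1 := Nat.lt_floor_add_one _
  have hθ3 : m * d < θ + 1 := lt_of_le_of_lt (mul_le_mul_of_nonneg_left hed' hm0) hθ2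
  have h2 := PT_eq' n d j θ
  have h3 : (PT n d θ j : ℝ) = θ * NN n d + ((n + d - θ).choose (n + 1) : ℝ) -
      ((n + d).choose (n + 1) : ℝ) := by
    have h4 : ((PT n d θ j + (n + d).choose (n + 1) : ℕ) : ℝ) =
        ((θ * NN n d + (n + d - θ).choose (n + 1) : ℕ) : ℝ) := by exact_mod_cast h2
    push_cast at h4
    linarith
  have h4 : ((n + d).choose (n + 1) : ℝ) * (n + 1) = NN n d * d := by
    have h5 := Nat.choose_succ_right_eq (n + d) n
    rw [show n + d - n = d by omega] at h5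
    rw [NN_eq, show d + n = n + d by omega]
    exact_mod_cast h5
  set Nd : ℝ := (NN n d : ℝ) with hNd
  have hf : (0 : ℝ) < (n.factorial : ℝ) := by exact_mod_cast Nat.factorial_pos _
  have h5 : (d : ℝ) ^ n ≤ n.factorial * Nd := by
    have h6 : d ^ n ≤ n.factorial * NN n d := by
      rw [NN_eq, ← Nat.descFactorial_eq_factorial_mul_choose]
      have h7 := Nat.pow_sub_le_descFactorial (d + n) n
      exact (Nat.pow_le_pow_left (by omega) n).trans h7
    rw [hNd]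
    exact_mod_cast h6
  have hNd0 : 0 < Nd := by
    by_contra hcon
    have h6 : (d : ℝ) ^ n ≤ 0 := h5.trans (mul_nonpos_of_nonneg_of_nonpos hf.le (not_lt.1 hcon))
    exact absurd h6 (not_le.2 (by positivity))
  have hbase : (0 : ℝ) ≤ d * (1 - m + ((n : ℝ) + 1) / d) := by
    have : 0 ≤ ((n : ℝ) + 1) / d := by positivity
    exact mul_nonneg hd0.le (by linarith)
  -- the other binomial coefficient
  have h6 : ((n + d - θ).choose (n + 1) : ℝ) * (n + 1) ≤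
      Nd * d * (1 - m + ((n : ℝ) + 1) / d) ^ (n + 1) := by
    have h7 : ((n + 1).factorial : ℝ) * ((n + d - θ).choose (n + 1) : ℝ) ≤
        ((n + d - θ : ℕ) : ℝ) ^ (n + 1) := by
      have h8 : (n + 1).factorial * (n + d - θ).choose (n + 1) ≤ (n + d - θ) ^ (n + 1) := by
        rw [← Nat.descFactorial_eq_factorial_mul_choose]
        exact Nat.descFactorial_le_pow _ _
      exact_mod_cast h8
    have h8 : ((n + d - θ : ℕ) : ℝ) ≤ d * (1 - m + ((n : ℝ) + 1) / d) := by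
      rcases le_total θ (n + d) with hθd | hθd
      · have h9 : ((n + d - θ : ℕ) : ℝ) = n + d - θ := by
          rw [Nat.cast_sub hθd]
          push_cast
          ring
        have h10 : (d : ℝ) * (1 - m + ((n : ℝ) + 1) / d) = d - m * d + (n + 1) := by
          field_simp
        rw [h9, h10]
        linarith
      · rw [Nat.sub_eq_zero_of_le hθd, Nat.cast_zero]
        exact hbase
    have h9 : ((n + 1).factorial : ℝ) = (n + 1) * n.factorial := by
      rw [Nat.factorial_succ]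
      push_cast
      ring
    have h10 : (n.factorial : ℝ) * (((n + d - θ).choose (n + 1) : ℝ) * (n + 1)) ≤
        n.factorial * (Nd * d * (1 - m + ((n : ℝ) + 1) / d) ^ (n + 1)) := by
      have e1 : (n.factorial : ℝ) * (((n + d - θ).choose (n + 1) : ℝ) * (n + 1)) =
          ((n + 1).factorial : ℝ) * ((n + d - θ).choose (n + 1) : ℝ) := by
        rw [h9]
        ring
      rw [e1]
      have h11 : ((n + d - θ : ℕ) : ℝ) ^ (n + 1) ≤
          (d * (1 - m + ((n : ℝ) + 1) / d)) ^ (n + 1) :=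
        pow_le_pow_left₀ (Nat.cast_nonneg _) h8 _
      refine h7.trans (h11.trans ?_)
      rw [mul_pow, pow_succ (d : ℝ) n]
      have h12 : 0 ≤ (1 - m + ((n : ℝ) + 1) / d) ^ (n + 1) := by
        refine pow_nonneg ?_ _
        have : 0 ≤ ((n : ℝ) + 1) / d := by positivity
        linarith
      have h13 := mul_le_mul_of_nonneg_right (mul_le_mul_of_nonneg_right h5 hd0.le) h12
      refine h13.trans (le_of_eq ?_)
      ring
    exact le_of_mul_le_mul_left h10 hf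
  rw [h3]
  have h7 : ((n + d).choose (n + 1) : ℝ) = Nd * d / (n + 1) := by
    rw [eq_div_iff hn0.ne']
    exact h4
  have h8 : ((n + d - θ).choose (n + 1) : ℝ) ≤
      Nd * d * (1 - m + ((n : ℝ) + 1) / d) ^ (n + 1) / (n + 1) := by
    rw [le_div_iff₀ hn0]
    exact h6
  rw [h7]
  have h9 : (θ : ℝ) * Nd - r * (θ * Nd + ((n + d - θ).choose (n + 1) : ℝ) - Nd * d / (n + 1)) =
      r * (Nd * d / (n + 1)) - (r - 1) * (θ * Nd) - r * ((n + d - θ).choose (n + 1) : ℝ) := by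
    ring
  rw [h9]
  have h10 := mul_le_mul_of_nonneg_left h8 (by linarith : (0 : ℝ) ≤ r)
  have h11 : (r - 1) * ((θ : ℝ) * Nd) ≤ (r - 1) * (m * (d + B) * Nd) := by
    refine mul_le_mul_of_nonneg_left (mul_le_mul_of_nonneg_right ?_ hNd0.le) (by linarith)
    exact hθ1.trans (mul_le_mul_of_nonneg_left hed hm0)
  have h12 := mul_le_mul_of_nonneg_left hd.le (mul_pos hd0 hNd0).le
  have h13 : r * (Nd * d * (1 - m + ((n : ℝ) + 1) / d) ^ (n + 1) / (n + 1)) =
      d * Nd * ((r : ℝ) / (n + 1) * (1 - m + ((n : ℝ) + 1) / d) ^ (n + 1)) := by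
    field_simp
  rw [h13] at h10
  have h14 : (d : ℝ) * Nd * (kapp n r m - ε) =
      r * (Nd * d / (n + 1)) - (r - 1) * (m * d * Nd) -
        d * Nd * ((r : ℝ) / (n + 1) * (1 - m) ^ (n + 1) + ε) := by
    unfold kapp
    field_simp
    ring
  have h15 : d * Nd * ((r - 1) * m * B / d) = (r - 1) * (m * B * Nd) := by
    field_simp
  rw [mul_add (d * Nd) ((r : ℝ) / (n + 1) * (1 - m + ((n : ℝ) + 1) / d) ^ (n + 1)), h15] at h12
  rw [h14]
  have h16 : (r - 1) * (m * (d + B) * Nd) = (r - 1) * (m * d * Nd) + (r - 1) * (m * B * Nd) := by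
    ring
  rw [h16] at h11
  linarith

/-- **The choice of the degree.** -/
theorem choose_par {n' ν D r : ℕ} (hD : 1 ≤ D) (hr : 1 ≤ r) {ι : Type} [Fintype ι]
    (E : ι → Finset (Fin n' →₀ ℕ)) (Nf : ℕ → ℕ) (hle : ∀ m, Nf m ≤ (m + 1) ^ n')
    (t0 : ι → ℕ) (hcount : ∀ e t, t0 e ≤ t → ∀ M, Nf M ≤ (Sm D (E e) (ν + 1) (M + D * t)).card)
    (hpos : ∀ k t, 1 ≤ Nf (k * (D * t)))
    (m : ℝ) (hm0 : 0 ≤ m) (hm1 : m ≤ 1) (κ0 : ℝ) (hκ00 : 0 ≤ κ0) (hκ0 : κ0 < kapp ν r m) :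
    ∃ d θ : ℕ, 1 ≤ d ∧ 1 ≤ Nf (D * d) ∧ ∀ e, (Sm D (E e) (ν + 1) (D * d)).card ≤ Nf (D * d) →
      ∀ j : Fin (ν + 1), (d : ℝ) * Nf (D * d) * κ0 ≤ θ * Nf (D * d) -
        r * ((∑ t ∈ Sm D (E e) (ν + 1) (D * d), (θ - t.1 j) +
          (Nf (D * d) - (Sm D (E e) (ν + 1) (D * d)).card) * θ : ℕ) : ℝ) := by
  classical
  have hr1 : (1 : ℝ) ≤ r := by exact_mod_cast hr
  set t : ℕ := 1 + ∑ e, t0 e with ht
  have htle : ∀ e, t0 e ≤ t := fun e => by
    have := Finset.single_le_sum (f := t0) (fun _ _ => Nat.zero_le _) (Finset.mem_univ e)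
    omega
  set B : ℕ := ∑ e, ∑ β ∈ E e, β.degree with hBm
  have hB : ∀ e, ∀ β ∈ E e, β.degree ≤ B := by
    intro e β hβ
    refine (Finset.single_le_sum (f := fun β : Fin n' →₀ ℕ => β.degree) (fun _ _ => Nat.zero_le _)
      hβ).trans ?_
    exact Finset.single_le_sum (f := fun e => ∑ β ∈ E e, β.degree) (fun _ _ => Nat.zero_le _)
      (Finset.mem_univ e)
  set κ1 : ℝ := (κ0 + kapp ν r m) / 2 with hκ1
  have hκ01 : κ0 < κ1 := by rw [hκ1]; linarith
  have hκ10 : 0 < κ1 := by linarith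
  have hε : 0 < kapp ν r m - κ1 := by rw [hκ1]; linarith
  obtain ⟨d0, hd0⟩ := exists_theta2 ν r hr m hm0 hm1 _ hε B
  rw [sub_sub_cancel] at hd0
  set δ : ℝ := min (1 / 2) ((κ1 - κ0) / (2 * κ1 + r)) with hδ
  have hden : 0 < 2 * κ1 + r := by linarith
  have hδ0 : 0 < δ := lt_min (by norm_num) (div_pos (by linarith) hden)
  have hδ1 : δ ≤ 1 / 2 := min_le_left _ _
  have hδ2 : δ * (2 * κ1 + r) ≤ κ1 - κ0 := by
    have h1 : δ ≤ (κ1 - κ0) / (2 * κ1 + r) := min_le_right _ _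
    rwa [le_div_iff₀ hden] at h1
  obtain ⟨k, hk, hk2⟩ := growth Nf n' (D * t) hle (fun k => hpos k t) δ hδ0 (by linarith)
    (d0 + ⌈(B : ℝ) / δ⌉₊)
  set d : ℕ := (k + 1) * t with hd
  have hdk : k + 1 ≤ d := Nat.le_mul_of_pos_right _ (by omega)
  have hDd : (k + 1) * (D * t) = D * d := by rw [hd]; ring
  have hDd' : k * (D * t) + D * t = D * d := by rw [hd]; ring
  rw [hDd] at hk2
  clear_value d
  have hdB : (B : ℝ) ≤ δ * d := by
    have h1 : (B : ℝ) / δ ≤ d := (Nat.le_ceil _).trans (by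
      exact_mod_cast (by omega : ⌈(B : ℝ) / δ⌉₊ ≤ d))
    rw [div_le_iff₀ hδ0] at h1
    linarith
  refine ⟨d, ⌊m * d⌋₊, by omega, ?_, fun e hce j => ?_⟩
  · have h1 := hpos (k + 1) t
    rwa [hDd] at h1
  have h1 := Sm_bound hD (E e) d B ⌊m * d⌋₊ r (hB e) κ1 hκ10.le
    (fun d' h1 h2 j => hd0 d (by omega) d' h1 h2 j) j
  have h2 := hcount e t (htle e) (k * (D * t))
  rw [hDd'] at h2
  have h2' : (Nf (k * (D * t)) : ℝ) ≤ ((Sm D (E e) (ν + 1) (D * d)).card : ℝ) := by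
    exact_mod_cast h2
  have h3 : ((Sm D (E e) (ν + 1) (D * d)).card : ℝ) ≤ (Nf (D * d) : ℝ) := by exact_mod_cast hce
  have h4 : ((Nf (D * d) - (Sm D (E e) (ν + 1) (D * d)).card : ℕ) : ℝ) =
      (Nf (D * d) : ℝ) - ((Sm D (E e) (ν + 1) (D * d)).card : ℝ) := Nat.cast_sub hce
  have hd00 : (0 : ℝ) ≤ d := Nat.cast_nonneg _
  have hθ1 : (⌊m * d⌋₊ : ℝ) ≤ d := (Nat.floor_le (by positivity)).trans (by nlinarith)
  rw [Nat.cast_add, Nat.cast_mul (Nf (D * d) - _), h4]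
  set c : ℝ := ((Sm D (E e) (ν + 1) (D * d)).card : ℝ) with hc
  set N : ℝ := (Nf (D * d) : ℝ) with hN
  set θ : ℝ := (⌊m * d⌋₊ : ℝ) with hθ
  set Su : ℝ := ((∑ t ∈ Sm D (E e) (ν + 1) (D * d), (⌊m * d⌋₊ - t.1 j) : ℕ) : ℝ) with hSu
  have hN0 : 0 ≤ N := Nat.cast_nonneg _
  have hcN : (1 - δ) * N ≤ c := hk2.trans h2'
  have h5 : (1 - δ) * d * κ1 * ((1 - δ) * N) ≤ ((d : ℝ) - B) * κ1 * c := by
    have e1 : (1 - δ) * d ≤ (d : ℝ) - B := by linarith
    have e2 : 0 ≤ (1 - δ) * d := mul_nonneg (by linarith) hd00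
    have e3 : 0 ≤ (1 - δ) * N := mul_nonneg (by linarith) hN0
    exact mul_le_mul (mul_le_mul_of_nonneg_right e1 hκ10.le) hcN e3
      (mul_nonneg (by linarith) hκ10.le)
  have h6 : ((r : ℝ) - 1) * ((N - c) * θ) ≤ (r - 1) * (δ * N * d) := by
    refine mul_le_mul_of_nonneg_left ?_ (by linarith)
    exact mul_le_mul (by linarith) hθ1 (Nat.cast_nonneg _) (by positivity)
  have h7 : (d : ℝ) * N * κ0 ≤ (1 - δ) * d * κ1 * ((1 - δ) * N) - (r - 1) * (δ * N * d) := by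
    have e1 : (1 - δ) * d * κ1 * ((1 - δ) * N) - (r - 1) * (δ * N * d) =
        d * N * ((1 - δ) ^ 2 * κ1 - (r - 1) * δ) := by ring
    rw [e1]
    refine mul_le_mul_of_nonneg_left ?_ (by positivity)
    nlinarith [mul_nonneg hδ0.le hδ0.le]
  linarith

end Pool.Agent.T9h24
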