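import Mathlib
import Pool.Agent.T9h24.Xbl
import Pool.Agent.T9h24.Kap

/-!
The mixed determinants for the adapted bases.
-/

set_option autoImplicit false
set_option linter.unusedSectionVars false

open Finset MvPolynomial NumberField IsDedekindDomain

namespace Pool.Agent.T9h24

open Pool.Agent.TH875 (ym dg)

section bounds

variable {n : ℕ} {F : Type} [NormedField F] [CharZero F] [IsAlgClosed F]

theorem map_root {F : Type} [Field F] [CharZero F] {g : Polynomial ℤ} (hg : g ≠ 0)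
    {w : AlgebraicClosure ℚ} (hw : w ∈ (mp (AlgebraicClosure ℚ) g).roots)
    (j : AlgebraicClosure ℚ →+* F) : j w ∈ (mp F g).roots := by
  rw [Polynomial.mem_roots'] at hw ⊢
  refine ⟨mp_ne hg, ?_⟩
  have h1 : mp F g = (mp (AlgebraicClosure ℚ) g).map j := by
    unfold mp
    rw [Polynomial.map_map]
    congr 1
    exact RingHom.ext_int _ _
  rw [h1, Polynomial.IsRoot, Polynomial.eval_map, Polynomial.eval₂_hom, hw.2, map_zero]

/-- the conjugates of an algebraic number are bounded -/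
theorem embed_bound (w : AlgebraicClosure ℚ) :
    ∃ B : ℝ, 1 ≤ B ∧ ∀ j : AlgebraicClosure ℚ →+* F, ‖j w‖ ≤ B := by
  classical
  obtain ⟨g, hg, hw⟩ := exists_ann w
  obtain ⟨B, hB1, hB⟩ := exists_big (fun z : (mp F g).roots.toFinset => ‖(z : F)‖)
  refine ⟨B, by exact_mod_cast hB1, fun j => ?_⟩
  exact hB ⟨j w, Multiset.mem_toFinset.2 (map_root hg hw j)⟩

theorem norm_mono_le (z : Fin (n + 1) → F) (a : Fin (n + 1) →₀ ℕ) :
    ‖∏ i, z i ^ a i‖ ≤ ‖z‖ ^ a.degree := by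
  rw [norm_prod, Finsupp.degree_eq_sum, ← Finset.prod_pow_eq_pow_sum]
  refine Finset.prod_le_prod (fun i _ => norm_nonneg _) fun i _ => ?_
  rw [norm_pow]
  exact pow_le_pow_left₀ (norm_nonneg _) (norm_le_pi_norm z i) _

theorem form_bound (P : MvPolynomial (Fin (n + 1)) (AlgebraicClosure ℚ)) {d : ℕ}
    (hP : P.IsHomogeneous d) : ∃ B : ℝ, 1 ≤ B ∧ ∀ (j : AlgebraicClosure ℚ →+* F)
      (z : Fin (n + 1) → F), ‖eval z (map j P)‖ ≤ B * ‖z‖ ^ d := by
  classical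
  choose Bf hB1 hB using fun w : AlgebraicClosure ℚ => embed_bound (F := F) w
  refine ⟨1 + ∑ a ∈ P.support, Bf (P.coeff a), ?_, fun j z => ?_⟩
  · have : 0 ≤ ∑ a ∈ P.support, Bf (P.coeff a) :=
      Finset.sum_nonneg fun a _ => zero_le_one.trans (hB1 _)
    linarith
  · rw [eval_map, eval₂_eq']
    refine (norm_sum_le _ _).trans ?_
    have h1 : ∀ a ∈ P.support, ‖j (P.coeff a) * ∏ i, z i ^ a i‖ ≤ Bf (P.coeff a) * ‖z‖ ^ d := by
      intro a ha
      have h2 : a.degree = d := by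
        by_contra h
        exact mem_support_iff.1 ha (hP.coeff_eq_zero h)
      rw [norm_mul, ← h2]
      exact mul_le_mul (hB _ _) (norm_mono_le z a) (norm_nonneg _) (zero_le_one.trans (hB1 _))
    refine (Finset.sum_le_sum h1).trans ?_
    rw [← Finset.sum_mul, add_mul, one_mul]
    have : 0 ≤ ‖z‖ ^ d := pow_nonneg (norm_nonneg _) _
    linarith

/-- the local height of a hypersurface -/
noncomputable def laq (d : ℕ) (P : MvPolynomial (Fin (n + 1)) F) (z : Fin (n + 1) → F) : ℝ :=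
  Real.log (‖z‖ ^ d / ‖eval z P‖)

theorem eval_le_exp (d : ℕ) (P : MvPolynomial (Fin (n + 1)) F) (z : Fin (n + 1) → F) (hz : z ≠ 0)
    {B : ℝ} (hB : 1 ≤ B) (h : ‖eval z P‖ ≤ B * ‖z‖ ^ d) :
    ‖eval z P‖ ≤ B * ‖z‖ ^ d * Real.exp (-max 0 (laq d P z)) := by
  have hz0 : 0 < ‖z‖ := norm_pos_iff.2 hz
  rcases eq_or_ne (eval z P) 0 with h0 | h0
  · rw [h0, norm_zero]
    positivity
  · have h1 : 0 < ‖eval z P‖ := norm_pos_iff.2 h0
    rcases le_total 0 (laq d P z) with h2 | h2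
    · rw [max_eq_right h2]
      unfold laq
      rw [Real.exp_neg, Real.exp_log (by positivity), inv_div]
      have h3 : B * ‖z‖ ^ d * (‖eval z P‖ / ‖z‖ ^ d) = B * ‖eval z P‖ := by
        field_simp
      rw [h3]
      nlinarith
    · rw [max_eq_left h2, neg_zero, Real.exp_zero, mul_one]
      exact h

/-- the value of a monomial in the parameters -/
theorem ym_value {r D M : ℕ} (hD : 1 ≤ D)
    (y : Fin r → MvPolynomial (Fin (n + 1)) (AlgebraicClosure ℚ))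
    (j : AlgebraicClosure ℚ →+* F) (z : Fin (n + 1) → F) (μ : Fin r → ℝ) (A : ℝ) (hA : 1 ≤ A)
    (h : ∀ k, ‖eval z (map j (y k))‖ ≤ A * ‖z‖ ^ D * Real.exp (-(μ k)))
    (s : (Fin r → ℕ) × (Fin (n + 1) →₀ ℕ)) (hs : dg D s = M) :
    ‖eval z (map j (ym y s))‖ ≤ A ^ M * ‖z‖ ^ M * Real.exp (-∑ k, (s.1 k : ℝ) * μ k) := by
  have h1 : eval z (map j (ym y s)) = (∏ k, eval z (map j (y k)) ^ s.1 k) *
      ∏ i, z i ^ s.2 i := by
    unfold ym
    rw [map_mul, map_mul, map_prod, map_prod]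
    congr 1
    · exact Finset.prod_congr rfl fun k _ => by rw [map_pow, map_pow]
    · rw [map_monomial, map_one, eval_monomial, one_mul,
        Finsupp.prod_fintype _ _ fun i => pow_zero _]
  have hA0 : 0 ≤ A := zero_le_one.trans hA
  rw [h1, norm_mul, norm_prod]
  have h2 : ∏ k, ‖eval z (map j (y k)) ^ s.1 k‖ ≤
      ∏ k, (A * ‖z‖ ^ D * Real.exp (-(μ k))) ^ s.1 k := by
    refine Finset.prod_le_prod (fun k _ => norm_nonneg _) fun k _ => ?_
    rw [norm_pow]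
    exact pow_le_pow_left₀ (norm_nonneg _) (h k) _
  have h3 : ∏ k, (A * ‖z‖ ^ D * Real.exp (-(μ k))) ^ s.1 k =
      A ^ (∑ k, s.1 k) * ‖z‖ ^ (D * ∑ k, s.1 k) * Real.exp (-∑ k, (s.1 k : ℝ) * μ k) := by
    have e1 : Real.exp (-∑ k, (s.1 k : ℝ) * μ k) = ∏ k, Real.exp (-(μ k)) ^ s.1 k := by
      rw [← Finset.sum_neg_distrib, Real.exp_sum]
      refine Finset.prod_congr rfl fun k _ => ?_
      rw [← Real.exp_nat_mul]
      congr 1
      ring
    rw [e1, Finset.mul_sum, ← Finset.prod_pow_eq_pow_sum, ← Finset.prod_pow_eq_pow_sum,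
      ← Finset.prod_mul_distrib, ← Finset.prod_mul_distrib]
    refine Finset.prod_congr rfl fun k _ => ?_
    rw [mul_pow, mul_pow, ← pow_mul]
  rw [h3] at h2
  refine (mul_le_mul h2 (norm_mono_le z s.2) (norm_nonneg _) (by positivity)).trans ?_
  unfold dg at hs
  have h4 : ∑ k, s.1 k ≤ M := by
    have h5 : ∑ k, s.1 k ≤ D * ∑ k, s.1 k := Nat.le_mul_of_pos_left _ hD
    omega
  have h5 : A ^ (∑ k, s.1 k) ≤ A ^ M := pow_le_pow_right₀ hA h4
  have h6 : A ^ (∑ k, s.1 k) * ‖z‖ ^ (D * ∑ k, s.1 k) * Real.exp (-∑ k, (s.1 k : ℝ) * μ k) *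
      ‖z‖ ^ s.2.degree = A ^ (∑ k, s.1 k) * (‖z‖ ^ M * Real.exp (-∑ k, (s.1 k : ℝ) * μ k)) := by
    rw [← hs, pow_add]
    ring
  rw [h6, mul_assoc]
  exact mul_le_mul_of_nonneg_right h5 (by positivity)

end bounds

/-- **The combinatorial bound.** -/
theorem weight_bound' {H : Type} [Fintype H] [DecidableEq H] {N ν : ℕ}
    (s : H → Fin N → Fin (ν + 1) → ℕ) (μ : H → Fin (ν + 1) → ℝ) (hμ : ∀ τ j, 0 ≤ μ τ j)
    (σ : Fin N → H) (κ : Fin N → Fin N) (hκ : ∀ l l', σ l = σ l' → κ l = κ l' → l = l') (θ : ℕ) :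
    ∑ τ, ∑ j, μ τ j * ((θ : ℝ) * cnt σ τ - ((∑ a, (θ - s τ a j) : ℕ) : ℝ)) ≤
      ∑ l, ∑ j, (s (σ l) (κ l) j : ℝ) * μ (σ l) j := by
  classical
  have h1 : ∑ l, ∑ j, (s (σ l) (κ l) j : ℝ) * μ (σ l) j =
      ∑ τ, ∑ j, μ τ j * ∑ l ∈ Finset.univ.filter (fun l => σ l = τ), (s τ (κ l) j : ℝ) := by
    have h2 := Finset.sum_fiberwise (Finset.univ : Finset (Fin N)) σ
      (fun l => ∑ j, (s (σ l) (κ l) j : ℝ) * μ (σ l) j)
    rw [← h2]
    refine Finset.sum_congr rfl fun τ _ => ?_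
    rw [Finset.sum_comm]
    refine Finset.sum_congr rfl fun j _ => ?_
    rw [Finset.mul_sum]
    refine Finset.sum_congr rfl fun l hl => ?_
    rw [(Finset.mem_filter.1 hl).2, mul_comm]
  rw [h1]
  refine Finset.sum_le_sum fun τ _ => Finset.sum_le_sum fun j _ =>
    mul_le_mul_of_nonneg_left ?_ (hμ τ j)
  have h3 : ∑ l ∈ Finset.univ.filter (fun l => σ l = τ), (θ - s τ (κ l) j) ≤
      ∑ a, (θ - s τ a j) := by
    rw [← Finset.sum_image (f := fun a : Fin N => θ - s τ a j) (g := κ)]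
    · exact Finset.sum_le_sum_of_subset (Finset.subset_univ _)
    · intro l hl l' hl' h
      have e1 := (Finset.mem_filter.1 (Finset.mem_coe.1 hl)).2
      have e2 := (Finset.mem_filter.1 (Finset.mem_coe.1 hl')).2
      exact hκ l l' (e1.trans e2.symm) h
  have h4 : θ * cnt σ τ ≤ ∑ l ∈ Finset.univ.filter (fun l => σ l = τ),
      s τ (κ l) j + ∑ a, (θ - s τ a j) := by
    have h5 : θ * cnt σ τ = ∑ _l ∈ Finset.univ.filter (fun l => σ l = τ), θ := by
      rw [Finset.sum_const, smul_eq_mul, mul_comm]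
      rfl
    rw [h5]
    refine le_trans ?_ (Nat.add_le_add_left h3 _)
    rw [← Finset.sum_add_distrib]
    exact Finset.sum_le_sum fun l _ => by omega
  have h5 : ((θ * cnt σ τ : ℕ) : ℝ) ≤ ((∑ l ∈ Finset.univ.filter (fun l => σ l = τ),
      s τ (κ l) j + ∑ a, (θ - s τ a j) : ℕ) : ℝ) := by exact_mod_cast h4
  push_cast at h5 ⊢
  linarith

open Classical in
/-- **One place.** -/
theorem mixedX {F : Type} [NormedField F] [CharZero F] [IsAlgClosed F] {n' ν : ℕ} {ι : Type}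
    [Fintype ι] (G' : Polynomial ℤ) (hG' : G' ≠ 0)
    (W : ι → Matrix (Fin (n' + 1)) (Fin (n' + 1)) (AlgebraicClosure ℚ))
    (hW : ∀ e, (W e).det ≠ 0)
    (hWr : ∀ e a i, W e a i ∈ (mp (AlgebraicClosure ℚ) G').roots)
    (s : ι → Fin (n' + 1) → Fin (ν + 1) → ℕ) (θ : ℕ) (A : ℝ) (hA : 1 ≤ A) : ∃ K0 : ℝ,
    ∀ (E : Type) [Field E] [NumberField E] (Y : Fin (n' + 1) → 𝓞 E), Y ≠ 0 →
      ∀ (e : (E →+* F) → ι) (j : (E →+* F) → (AlgebraicClosure ℚ →+* F))
        (μ : (E →+* F) → Fin (ν + 1) → ℝ), (∀ τ k, 0 ≤ μ τ k) →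
      (∀ τ a, ‖lf (fun i => j τ (W (e τ) a i)) (fun i => τ (Y i : E))‖ ≤
        A * ‖fun i => τ (Y i : E)‖ * Real.exp (-∑ k, (s (e τ) a k : ℝ) * μ τ k)) →
      Mixed F G' Y (fun σ => ∑ τ, ∑ k, μ τ k *
        ((θ : ℝ) * cnt σ τ - ((∑ a, (θ - s (e τ) a k) : ℕ) : ℝ)) - K0) := by
  set RF : Finset F := (mp F G').roots.toFinset with hRF
  obtain ⟨M0, hM1, hM0⟩ := exists_big (fun p : (Fin (n' + 1) → Fin (n' + 1) → Fin (n' + 1) → RF) ×
    (Fin (n' + 1) → Fin (n' + 1)) => ‖(Matrix.of fun l i =>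
      (Matrix.of fun a b => (p.1 l a b : F))⁻¹ i (p.2 l)).det‖)
  have hA0 : (0 : ℝ) < A := by linarith
  have hM00 : (0 : ℝ) < M0 := by exact_mod_cast hM1
  set KK : ℝ := ((n' : ℝ) + 1) ^ (n' + 1) * (A ^ (n' + 1) * M0) with hKK
  have hKK0 : 0 < KK := by
    rw [hKK]
    positivity
  refine ⟨Real.log KK, fun E _ _ Y hY e j μ hμ0 hval => ?_⟩
  intro σ ξ hξ
  have hℓ : ∀ τ : E →+* F, (fun i => τ (Y i : E)) ≠ 0 := by
    intro τ h0
    apply hY
    funext i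
    have h1 : τ (Y i : E) = 0 := congrFun h0 i
    exact RingOfIntegers.ext (by simpa using h1)
  set Ξ : ℝ := ∑ τ, ∑ k, μ τ k *
    ((θ : ℝ) * cnt σ τ - ((∑ a, (θ - s (e τ) a k) : ℕ) : ℝ)) with hΞ
  have hr : ∀ τ a i, j τ (W (e τ) a i) ∈ (mp F G').roots := fun τ a i =>
    map_root hG' (hWr _ _ _) _
  have hval2 : ∀ l a, ‖∑ i, (W (e (σ l))).map (j (σ l)) a i * ξ l i‖ ≤ A *
      Real.exp (-∑ k, (s (e (σ l)) a k : ℝ) * μ (σ l) k) := by
    intro l a
    have h1 := hξ l (fun i => j (σ l) (W (e (σ l)) a i)) fun i => hr _ _ _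
    have h2 := h1.trans (hval (σ l) a)
    have h3 : 0 < ‖fun i => σ l (Y i : E)‖ := norm_pos_iff.2 (hℓ _)
    have h4 : A * ‖fun i => σ l (Y i : E)‖ * Real.exp (-∑ k, (s (e (σ l)) a k : ℝ) * μ (σ l) k) =
        (A * Real.exp (-∑ k, (s (e (σ l)) a k : ℝ) * μ (σ l) k)) * ‖fun i => σ l (Y i : E)‖ := by
      ring
    rw [h4] at h2
    exact le_of_mul_le_mul_right h2 h3
  have hdet : ∀ τ, ((W (e τ)).map (j τ)).det ≠ 0 := by
    intro τ
    have h1 : ((W (e τ)).map (j τ)).det = j τ (W (e τ)).det := (RingHom.map_det _ _).symm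
    rw [h1]
    exact (map_ne_zero _).2 (hW _)
  have hmain := multi_bound (fun τ => (W (e τ)).map (j τ)) hdet σ ξ M0
    (A ^ (n' + 1) * Real.exp (-Ξ)) (by positivity) hM00.le (fun κ => by
      have h2 := hM0 (fun l a b => ⟨j (σ l) (W (e (σ l)) a b),
        Multiset.mem_toFinset.2 (hr _ _ _)⟩, κ)
      exact h2)
    (fun κ hκ => by
      have h1 : ∏ l, ‖∑ i, (W (e (σ l))).map (j (σ l)) (κ l) i * ξ l i‖ ≤ ∏ l, (A *
          Real.exp (-∑ k, (s (e (σ l)) (κ l) k : ℝ) * μ (σ l) k)) :=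
        Finset.prod_le_prod (fun l _ => norm_nonneg _) fun l _ => hval2 l (κ l)
      refine h1.trans ?_
      rw [Finset.prod_mul_distrib, Finset.prod_const, Finset.card_univ, Fintype.card_fin,
        ← Real.exp_sum, Finset.sum_neg_distrib]
      refine mul_le_mul_of_nonneg_left (Real.exp_le_exp.2 (neg_le_neg ?_)) (by positivity)
      exact weight_bound' (fun τ => s (e τ)) μ hμ0 σ κ hκ θ)
  refine hmain.trans (le_of_eq ?_)
  have h1 : -(Ξ - Real.log KK) = -Ξ + Real.log KK := by ring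
  show _ = Real.exp (-(Ξ - Real.log KK))
  rw [h1, Real.exp_add, Real.exp_log hKK0, hKK]
  ring

end Pool.Agent.T9h24
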