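import Mathlib
import Pool.Agent.T9h24.Xbl

/-!
The choice of the degree, for several thresholds.
-/

set_option autoImplicit false
set_option linter.unusedSectionVars false

namespace Pool.Agent.T9h24

open MvPolynomial Finset Filter Pool.Agent.TH875

/-- the function of the threshold, for a real ratio -/
noncomputable def kappR (n : ℕ) (ρ m : ℝ) : ℝ :=
  ρ / (n + 1) * (1 - (1 - m) ^ (n + 1)) - (ρ - 1) * m

theorem Sm_boundR {n ν D : ℕ} (hD : 1 ≤ D) (E : Finset (Fin n →₀ ℕ)) (d B θ : ℕ) (r : ℝ)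
    (hB : ∀ β ∈ E, β.degree ≤ B) (κ : ℝ) (hκ : 0 ≤ κ)
    (h : ∀ d' : ℕ, d ≤ d' + B → d' ≤ d → ∀ j : Fin (ν + 1),
      (d' : ℝ) * NN ν d' * κ ≤ (θ : ℝ) * NN ν d' - r * PT ν d' θ j) (j : Fin (ν + 1)) :
    ((d : ℝ) - B) * κ * (Sm D E (ν + 1) (D * d)).card ≤
      (θ : ℝ) * (Sm D E (ν + 1) (D * d)).card -
        r * ((∑ t ∈ Sm D E (ν + 1) (D * d), (θ - t.1 j) : ℕ) : ℝ) := by
  classical
  set Sd := Sm D E (ν + 1) (D * d) with hSd
  have hmaps : ∀ t ∈ Sd, t.2 ∈ E := fun t ht => ((mem_Sm hD E _ t).1 ht).1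
  have h1 : Sd.card = ∑ β ∈ E, (Sd.filter fun t => t.2 = β).card :=
    Finset.card_eq_sum_card_fiberwise hmaps
  have h2 : ∑ t ∈ Sd, (θ - t.1 j) = ∑ β ∈ E, ∑ t ∈ Sd.filter (fun t => t.2 = β), (θ - t.1 j) :=
    (Finset.sum_fiberwise_of_maps_to hmaps _).symm
  have h3 : ∀ β ∈ E, ((d : ℝ) - B) * κ * ((Sd.filter fun t => t.2 = β).card : ℝ) ≤
      (θ : ℝ) * ((Sd.filter fun t => t.2 = β).card : ℝ) -
        r * ((∑ t ∈ Sd.filter (fun t => t.2 = β), (θ - t.1 j) : ℕ) : ℝ) := by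
    intro β hβ
    by_cases he : ∃ d', D * d' + β.degree = D * d
    · obtain ⟨d', hd'⟩ := he
      have hle : d' ≤ d := by
        have h4 : D * d' ≤ D * d := by omega
        exact Nat.le_of_mul_le_mul_left h4 hD
      have hge : d ≤ d' + B := by
        have h4 := hB β hβ
        obtain ⟨u, hu⟩ := Nat.exists_eq_add_of_le hle
        subst hu
        have h5 : u ≤ D * u := Nat.le_mul_of_pos_left _ hD
        have h6 : D * (d' + u) = D * d' + D * u := Nat.mul_add _ _ _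
        omega
      have h5 := fiber_sum (ν := ν) hD E (D * d) β hβ d' hd' (fun _ => 1)
      have h6 := fiber_sum (ν := ν) hD E (D * d) β hβ d' hd' (fun a => θ - a j)
      rw [← hSd] at h5 h6
      simp only [Finset.sum_const, smul_eq_mul, mul_one] at h5
      have h7 : (Sd.filter fun t => t.2 = β).card = NN ν d' := h5
      have h8 : ∑ t ∈ Sd.filter (fun t => t.2 = β), (θ - t.1 j) = PT ν d' θ j := h6
      rw [h7, h8]
      refine le_trans ?_ (h d' hge hle j)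
      have h9 : (d : ℝ) - B ≤ d' := by
        have : (d : ℝ) ≤ d' + B := by exact_mod_cast hge
        linarith
      have h10 : (0 : ℝ) ≤ κ * NN ν d' := mul_nonneg hκ (Nat.cast_nonneg _)
      nlinarith
    · rw [hSd, fiber_empty hD E _ β he]
      simp
  have h4 := Finset.sum_le_sum h3
  rw [Finset.sum_sub_distrib, ← Finset.mul_sum, ← Finset.mul_sum, ← Finset.mul_sum] at h4
  rw [h1, h2]
  push_cast at h4 ⊢
  exact h4

/-- the lower bound for the constant, uniformly near `d` -/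
theorem exists_thetaR (n : ℕ) r (hr1 : 1 ≤ r) (m : ℝ) (hm0 : 0 ≤ m) (hm1 : m ≤ 1)
    (ε : ℝ) (hε : 0 < ε) (B : ℕ) : ∃ d0 : ℕ, ∀ d, d0 ≤ d → ∀ d', d ≤ d' + B → d' ≤ d →
      ∀ j : Fin (n + 1), (d' : ℝ) * NN n d' * (kappR n r m - ε) ≤
        (⌊m * d⌋₊ : ℝ) * NN n d' - r * PT n d' ⌊m * d⌋₊ j := by
  have hn0 : (0 : ℝ) < (n : ℝ) + 1 := by positivity
  have hlim : Tendsto (fun d : ℕ => r / (n + 1) *
      (1 - m + ((n : ℝ) + 1) / d) ^ (n + 1) + ((r - 1) * m * B) / d) atTop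
      (nhds (r / (n + 1) * (1 - m + 0) ^ (n + 1) + 0)) := by
    have h1 := (tendsto_const_div_atTop_nhds_zero_nat ((n : ℝ) + 1)).const_add (1 - m)
    exact ((h1.pow (n + 1)).const_mul _).add (tendsto_const_div_atTop_nhds_zero_nat _)
  rw [add_zero, add_zero] at hlim
  have h1 : ∀ᶠ d : ℕ in atTop, r / (n + 1) * (1 - m + ((n : ℝ) + 1) / d) ^ (n + 1) +
      ((r - 1) * m * B) / d < r / (n + 1) * (1 - m) ^ (n + 1) + ε :=
    (tendsto_order.1 hlim).2 _ (by linarith)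
  obtain ⟨d1, hd1⟩ := Filter.eventually_atTop.1 (h1.and (eventually_ge_atTop 1))
  refine ⟨d1 + B, fun e he d hde hdle j => ?_⟩
  obtain ⟨hd, hd1'⟩ := hd1 d (by omega)
  have hd0 : (0 : ℝ) < d := by exact_mod_cast hd1'
  have hed : (e : ℝ) ≤ d + B := by exact_mod_cast hde
  have hed' : (d : ℝ) ≤ e := by exact_mod_cast hdle
  set θ := ⌊m * e⌋₊ with hθ
  have hθ1 : (θ : ℝ) ≤ m * e := Nat.floor_le (by positivity)
  have hθ2 : m * e < θ + 1 := Nat.lt_floor_add_one _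
  have hθ3 : m * d < θ + 1 := lt_of_le_of_lt (mul_le_mul_of_nonneg_left hed' hm0) hθ2
  have h2 := PT_eq' n d j θ
  have h3 : (PT n d θ j : ℝ) = θ * NN n d + ((n + d - θ).choose (n + 1) : ℝ) -
      ((n + d).choose (n + 1) : ℝ) := by
    have h4 : ((PT n d θ j + (n + d).choose (n + 1) : ℕ) : ℝ) =
        ((θ * NN n d + (n + d - θ).choose (n + 1) : ℕ) : ℝ) := by exact_mod_cast h2
    push_cast at h4
    linarith
  have h4 : ((n + d).choose (n + 1) : ℝ) * (n + 1) = NN n d * d := by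
    have h5 := Nat.choose_succ_right_eq (n + d) n
    rw [show n + d - n = d by omega] at h5
    rw [NN_eq, show d + n = n + d by omega]
    exact_mod_cast h5
  set Nd : ℝ := (NN n d : ℝ) with hNd
  have hf : (0 : ℝ) < (n.factorial : ℝ) := by exact_mod_cast Nat.factorial_pos _
  have h5 : (d : ℝ) ^ n ≤ n.factorial * Nd := by
    have h6 : d ^ n ≤ n.factorial * NN n d := by
      rw [NN_eq, ← Nat.descFactorial_eq_factorial_mul_choose]
      have h7 := Nat.pow_sub_le_descFactorial (d + n) n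
      exact (Nat.pow_le_pow_left (by omega) n).trans h7
    rw [hNd]
    exact_mod_cast h6
  have hNd0 : 0 < Nd := by
    by_contra hcon
    have h6 : (d : ℝ) ^ n ≤ 0 := h5.trans (mul_nonpos_of_nonneg_of_nonpos hf.le (not_lt.1 hcon))
    exact absurd h6 (not_le.2 (by positivity))
  have hbase : (0 : ℝ) ≤ d * (1 - m + ((n : ℝ) + 1) / d) := by
    have : 0 ≤ ((n : ℝ) + 1) / d := by positivity
    exact mul_nonneg hd0.le (by linarith)
  -- the other binomial coefficient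
  have h6 : ((n + d - θ).choose (n + 1) : ℝ) * (n + 1) ≤
      Nd * d * (1 - m + ((n : ℝ) + 1) / d) ^ (n + 1) := by
    have h7 : ((n + 1).factorial : ℝ) * ((n + d - θ).choose (n + 1) : ℝ) ≤
        ((n + d - θ : ℕ) : ℝ) ^ (n + 1) := by
      have h8 : (n + 1).factorial * (n + d - θ).choose (n + 1) ≤ (n + d - θ) ^ (n + 1) := by
        rw [← Nat.descFactorial_eq_factorial_mul_choose]
        exact Nat.descFactorial_le_pow _ _
      exact_mod_cast h8
    have h8 : ((n + d - θ : ℕ) : ℝ) ≤ d * (1 - m + ((n : ℝ) + 1) / d) := by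
      rcases le_total θ (n + d) with hθd | hθd
      · have h9 : ((n + d - θ : ℕ) : ℝ) = n + d - θ := by
          rw [Nat.cast_sub hθd]
          push_cast
          ring
        have h10 : (d : ℝ) * (1 - m + ((n : ℝ) + 1) / d) = d - m * d + (n + 1) := by
          field_simp
        rw [h9, h10]
        linarith
      · rw [Nat.sub_eq_zero_of_le hθd, Nat.cast_zero]
        exact hbase
    have h9 : ((n + 1).factorial : ℝ) = (n + 1) * n.factorial := by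
      rw [Nat.factorial_succ]
      push_cast
      ring
    have h10 : (n.factorial : ℝ) * (((n + d - θ).choose (n + 1) : ℝ) * (n + 1)) ≤
        n.factorial * (Nd * d * (1 - m + ((n : ℝ) + 1) / d) ^ (n + 1)) := by
      have e1 : (n.factorial : ℝ) * (((n + d - θ).choose (n + 1) : ℝ) * (n + 1)) =
          ((n + 1).factorial : ℝ) * ((n + d - θ).choose (n + 1) : ℝ) := by
        rw [h9]
        ring
      rw [e1]
      have h11 : ((n + d - θ : ℕ) : ℝ) ^ (n + 1) ≤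
          (d * (1 - m + ((n : ℝ) + 1) / d)) ^ (n + 1) :=
        pow_le_pow_left₀ (Nat.cast_nonneg _) h8 _
      refine h7.trans (h11.trans ?_)
      rw [mul_pow, pow_succ (d : ℝ) n]
      have h12 : 0 ≤ (1 - m + ((n : ℝ) + 1) / d) ^ (n + 1) := by
        refine pow_nonneg ?_ _
        have : 0 ≤ ((n : ℝ) + 1) / d := by positivity
        linarith
      have h13 := mul_le_mul_of_nonneg_right (mul_le_mul_of_nonneg_right h5 hd0.le) h12
      refine h13.trans (le_of_eq ?_)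
      ring
    exact le_of_mul_le_mul_left h10 hf
  rw [h3]
  have h7 : ((n + d).choose (n + 1) : ℝ) = Nd * d / (n + 1) := by
    rw [eq_div_iff hn0.ne']
    exact h4
  have h8 : ((n + d - θ).choose (n + 1) : ℝ) ≤
      Nd * d * (1 - m + ((n : ℝ) + 1) / d) ^ (n + 1) / (n + 1) := by
    rw [le_div_iff₀ hn0]
    exact h6
  rw [h7]
  have h9 : (θ : ℝ) * Nd - r * (θ * Nd + ((n + d - θ).choose (n + 1) : ℝ) - Nd * d / (n + 1)) =
      r * (Nd * d / (n + 1)) - (r - 1) * (θ * Nd) - r * ((n + d - θ).choose (n + 1) : ℝ) := by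
    ring
  rw [h9]
  have h10 := mul_le_mul_of_nonneg_left h8 (by linarith : (0 : ℝ) ≤ r)
  have h11 : (r - 1) * ((θ : ℝ) * Nd) ≤ (r - 1) * (m * (d + B) * Nd) := by
    refine mul_le_mul_of_nonneg_left (mul_le_mul_of_nonneg_right ?_ hNd0.le) (by linarith)
    exact hθ1.trans (mul_le_mul_of_nonneg_left hed hm0)
  have h12 := mul_le_mul_of_nonneg_left hd.le (mul_pos hd0 hNd0).le
  have h13 : r * (Nd * d * (1 - m + ((n : ℝ) + 1) / d) ^ (n + 1) / (n + 1)) =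
      d * Nd * (r / (n + 1) * (1 - m + ((n : ℝ) + 1) / d) ^ (n + 1)) := by
    field_simp
  rw [h13] at h10
  have h14 : (d : ℝ) * Nd * (kappR n r m - ε) =
      r * (Nd * d / (n + 1)) - (r - 1) * (m * d * Nd) -
        d * Nd * (r / (n + 1) * (1 - m) ^ (n + 1) + ε) := by
    unfold kappR
    field_simp
    ring
  have h15 : d * Nd * ((r - 1) * m * B / d) = (r - 1) * (m * B * Nd) := by
    field_simp
  rw [mul_add (d * Nd) (r / (n + 1) * (1 - m + ((n : ℝ) + 1) / d) ^ (n + 1)), h15] at h12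
  rw [h14]
  have h16 : (r - 1) * (m * (d + B) * Nd) = (r - 1) * (m * d * Nd) + (r - 1) * (m * B * Nd) := by
    ring
  rw [h16] at h11
  linarith


/-- **The choice of the degree.** -/
theorem choose_parR {n' ν D : ℕ} (hD : 1 ≤ D) {X : Type} [Fintype X]
    (E : X → Finset (Fin n' →₀ ℕ)) (Nf : ℕ → ℕ) (hle : ∀ m, Nf m ≤ (m + 1) ^ n')
    (t0 : X → ℕ) (hcount : ∀ e t, t0 e ≤ t → ∀ M, Nf M ≤ (Sm D (E e) (ν + 1) (M + D * t)).card)
    (hpos : ∀ k t, 1 ≤ Nf (k * (D * t))) {J : Type} [Fintype J] (ρ m κ : J → ℝ)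
    (hρ : ∀ i, 1 ≤ ρ i) (hm0 : ∀ i, 0 ≤ m i) (hm1 : ∀ i, m i ≤ 1) (hκ00 : ∀ i, 0 ≤ κ i)
    (hκ0 : ∀ i, κ i < kappR ν (ρ i) (m i)) (Cx : ℕ) :
    ∃ t d : ℕ, (∀ e, t0 e ≤ t) ∧ 1 ≤ d ∧ 1 ≤ Nf (D * d) ∧ (∀ i, ⌊m i * d⌋₊ ≤ d) ∧
      ∀ i e, (Sm D (E e) (ν + 1) (D * d)).card ≤ Nf (D * d) →
      ∀ j : Fin (ν + 1), (d : ℝ) * Nf (D * d) * κ i ≤ (⌊m i * d⌋₊ : ℝ) * Nf (D * d) -
        ρ i * ((∑ t ∈ Sm D (E e) (ν + 1) (D * d), (⌊m i * d⌋₊ - t.1 j) +
          (Nf (D * d) - (Sm D (E e) (ν + 1) (D * d)).card) * ⌊m i * d⌋₊ +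
            Cx * t * Nf (D * d) : ℕ) : ℝ) := by
  classical
  set t : ℕ := 1 + ∑ e, t0 e with ht
  have htle : ∀ e, t0 e ≤ t := fun e => by
    have := Finset.single_le_sum (f := t0) (fun _ _ => Nat.zero_le _) (Finset.mem_univ e)
    omega
  set B : ℕ := ∑ e, ∑ β ∈ E e, β.degree with hBm
  have hB : ∀ e, ∀ β ∈ E e, β.degree ≤ B := by
    intro e β hβ
    refine (Finset.single_le_sum (f := fun β : Fin n' →₀ ℕ => β.degree) (fun _ _ => Nat.zero_le _)
      hβ).trans ?_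
    exact Finset.single_le_sum (f := fun e => ∑ β ∈ E e, β.degree) (fun _ _ => Nat.zero_le _)
      (Finset.mem_univ e)
  set κ1 : J → ℝ := fun i => (κ i + kappR ν (ρ i) (m i)) / 2 with hκ1
  have hκ01 : ∀ i, κ i < κ1 i := fun i => by
    have := hκ0 i
    simp only [hκ1]
    linarith
  have hκ10 : ∀ i, 0 < κ1 i := fun i => lt_of_le_of_lt (hκ00 i) (hκ01 i)
  have hε : ∀ i, 0 < kappR ν (ρ i) (m i) - κ1 i := fun i => by
    have := hκ0 i
    simp only [hκ1]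
    linarith
  choose d0 hd0 using fun i => exists_thetaR ν (ρ i) (hρ i) (m i) (hm0 i) (hm1 i) _ (hε i) B
  simp only [sub_sub_cancel] at hd0
  have hden : ∀ i, 0 < 2 * κ1 i + ρ i := fun i => by
    have h1 := hκ10 i
    have h2 := hρ i
    linarith
  obtain ⟨δ, hδ0, hδ1, hδ2⟩ : ∃ δ : ℝ, 0 < δ ∧ δ ≤ 1 / 2 ∧
      ∀ i, δ * (2 * κ1 i + ρ i) ≤ (κ1 i - κ i) / 2 := by
    rcases isEmpty_or_nonempty J with hJ | hJ
    · exact ⟨1 / 2, by norm_num, le_rfl, fun i => hJ.elim i⟩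
    · obtain ⟨i0, hi0⟩ := Finite.exists_min fun i => (κ1 i - κ i) / 2 / (2 * κ1 i + ρ i)
      refine ⟨min (1 / 2) ((κ1 i0 - κ i0) / 2 / (2 * κ1 i0 + ρ i0)), lt_min (by norm_num)
        (div_pos (by have := hκ01 i0; linarith) (hden i0)), min_le_left _ _, fun i => ?_⟩
      have h1 := (min_le_right (1 / 2 : ℝ) _).trans (hi0 i)
      rwa [le_div_iff₀ (hden i)] at h1
  obtain ⟨k, hk, hk2⟩ := growth Nf n' (D * t) hle (fun k => hpos k t) δ hδ0 (by linarith)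
    (∑ i, d0 i + ⌈(B : ℝ) / δ⌉₊ + ∑ i, ⌈ρ i * Cx * t / ((κ1 i - κ i) / 2)⌉₊)
  set d : ℕ := (k + 1) * t with hd
  have hdk : k + 1 ≤ d := Nat.le_mul_of_pos_right _ (by omega)
  have hDd : (k + 1) * (D * t) = D * d := by rw [hd]; ring
  have hDd' : k * (D * t) + D * t = D * d := by rw [hd]; ring
  rw [hDd] at hk2
  have hN1 : 1 ≤ Nf (D * d) := by
    have h1 := hpos (k + 1) t
    rwa [hDd] at h1
  clear_value d
  have hdB : (B : ℝ) ≤ δ * d := by
    have h1 : (B : ℝ) / δ ≤ d := (Nat.le_ceil _).trans (by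
      exact_mod_cast (by omega : ⌈(B : ℝ) / δ⌉₊ ≤ d))
    rw [div_le_iff₀ hδ0] at h1
    linarith
  have hd00 : (0 : ℝ) ≤ d := Nat.cast_nonneg _
  have hθd : ∀ i, (⌊m i * d⌋₊ : ℝ) ≤ d := fun i =>
    (Nat.floor_le (mul_nonneg (hm0 i) hd00)).trans (by
      have := hm1 i
      nlinarith)
  refine ⟨t, d, htle, by omega, hN1, fun i => by exact_mod_cast hθd i, fun i e hce j => ?_⟩
  have hdi : d0 i ≤ d := by
    have := Finset.single_le_sum (f := d0) (fun _ _ => Nat.zero_le _) (Finset.mem_univ i)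
    omega
  have hslack : 0 < (κ1 i - κ i) / 2 := by
    have := hκ01 i
    linarith
  have hdC : ρ i * Cx * t ≤ (κ1 i - κ i) / 2 * d := by
    have h0 := Finset.single_le_sum (f := fun i => ⌈ρ i * Cx * t / ((κ1 i - κ i) / 2)⌉₊)
      (fun _ _ => Nat.zero_le _) (Finset.mem_univ i)
    have h1 : ρ i * Cx * t / ((κ1 i - κ i) / 2) ≤ d := (Nat.le_ceil _).trans (by
      exact_mod_cast (by omega : ⌈ρ i * Cx * t / ((κ1 i - κ i) / 2)⌉₊ ≤ d))
    rw [div_le_iff₀ hslack] at h1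
    linarith
  have h1 := Sm_boundR hD (E e) d B ⌊m i * d⌋₊ (ρ i) (hB e) (κ1 i) (hκ10 i).le
    (fun d' h1 h2 j => hd0 i d hdi d' h1 h2 j) j
  have h2 := hcount e t (htle e) (k * (D * t))
  rw [hDd'] at h2
  have h2' : (Nf (k * (D * t)) : ℝ) ≤ ((Sm D (E e) (ν + 1) (D * d)).card : ℝ) := by
    exact_mod_cast h2
  have h3 : ((Sm D (E e) (ν + 1) (D * d)).card : ℝ) ≤ (Nf (D * d) : ℝ) := by exact_mod_cast hce
  have h4 : ((Nf (D * d) - (Sm D (E e) (ν + 1) (D * d)).card : ℕ) : ℝ) =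
      (Nf (D * d) : ℝ) - ((Sm D (E e) (ν + 1) (D * d)).card : ℝ) := Nat.cast_sub hce
  have hθ1 := hθd i
  rw [Nat.cast_add, Nat.cast_add, Nat.cast_mul (Nf (D * d) - _), h4, Nat.cast_mul (Cx * t),
    Nat.cast_mul Cx t]
  set c : ℝ := ((Sm D (E e) (ν + 1) (D * d)).card : ℝ) with hc
  set N : ℝ := (Nf (D * d) : ℝ) with hN
  set θ : ℝ := (⌊m i * d⌋₊ : ℝ) with hθ
  set Su : ℝ := ((∑ t ∈ Sm D (E e) (ν + 1) (D * d), (⌊m i * d⌋₊ - t.1 j) : ℕ) : ℝ) with hSu
  have hN0 : 0 ≤ N := Nat.cast_nonneg _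
  have hcN : (1 - δ) * N ≤ c := hk2.trans h2'
  have hr1 := hρ i
  have hκ10' := hκ10 i
  have h5 : (1 - δ) * d * κ1 i * ((1 - δ) * N) ≤ ((d : ℝ) - B) * κ1 i * c := by
    have e1 : (1 - δ) * d ≤ (d : ℝ) - B := by linarith
    have e3 : 0 ≤ (1 - δ) * N := mul_nonneg (by linarith) hN0
    exact mul_le_mul (mul_le_mul_of_nonneg_right e1 hκ10'.le) hcN e3
      (mul_nonneg (by
        have : 0 ≤ (1 - δ) * d := mul_nonneg (by linarith) hd00
        linarith) hκ10'.le)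
  have h6 : (ρ i - 1) * ((N - c) * θ) ≤ (ρ i - 1) * (δ * N * d) := by
    refine mul_le_mul_of_nonneg_left ?_ (by linarith)
    exact mul_le_mul (by linarith) hθ1 (Nat.cast_nonneg _) (by positivity)
  have h8 := mul_le_mul_of_nonneg_right hdC hN0
  have h7 : (d : ℝ) * N * κ i ≤ (1 - δ) * d * κ1 i * ((1 - δ) * N) -
      (ρ i - 1) * (δ * N * d) - (κ1 i - κ i) / 2 * d * N := by
    have e1 : (1 - δ) * d * κ1 i * ((1 - δ) * N) - (ρ i - 1) * (δ * N * d) -
        (κ1 i - κ i) / 2 * d * N =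
        d * N * ((1 - δ) ^ 2 * κ1 i - (ρ i - 1) * δ - (κ1 i - κ i) / 2) := by ring
    rw [e1]
    refine mul_le_mul_of_nonneg_left ?_ (by positivity)
    have e2 := hδ2 i
    have e3 : 0 ≤ δ * δ * κ1 i := by positivity
    have e4 : (1 - δ) ^ 2 * κ1 i = κ1 i - 2 * δ * κ1 i + δ * δ * κ1 i := by ring
    rw [e4]
    linarith
  linarith

end Pool.Agent.T9h24
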