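import Mathlib
import Pool.Agent.T9h24.Ych

/-!
Layers of a function, and the weights of the order statistics.
-/

set_option autoImplicit false
set_option linter.unusedSectionVars false

namespace Pool.Agent.T9h24

open Finset

theorem abel (g G : ℕ → ℝ) (hG : G 0 = 0) : ∀ n : ℕ,
    ∑ s ∈ Finset.range n, (g s - g (s + 1)) * G (s + 1) =
      ∑ u ∈ Finset.range n, (G (u + 1) - G u) * g u - g n * G n
  | 0 => by simp [hG]
  | n + 1 => by
    rw [Finset.sum_range_succ, Finset.sum_range_succ, abel g G hG n]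
    ring

/-- **Layers.** -/
theorem layers {H : Type} [Fintype H] [DecidableEq H] {r : ℕ} (hH : Fintype.card H = r)
    (g : H → ℝ) (hg : ∀ τ, 0 ≤ g τ) :
    ∃ (π : Fin r ≃ H) (δ : Fin r → ℝ) (A : Fin r → Finset H), (∀ s, 0 ≤ δ s) ∧
      (∀ s, (A s).card = s + 1) ∧ (∀ τ, g τ = ∑ s, if τ ∈ A s then δ s else 0) ∧
      (∀ s, δ s ≠ 0 → ∀ τ ∈ A s, g τ ≠ 0) ∧
      ∀ G : ℕ → ℝ, G 0 = 0 → ∑ s : Fin r, δ s * G (s + 1) =
        ∑ u : Fin r, (G (u + 1) - G u) * g (π u) := by
  classical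
  have e0 : Fin r ≃ H := (Fintype.equivFinOfCardEq hH).symm
  set σ := Tuple.sort (fun i => -g (e0 i)) with hσ
  have hmono : Monotone ((fun i => -g (e0 i)) ∘ σ) := Tuple.monotone_sort _
  set π : Fin r ≃ H := σ.trans e0 with hπ
  have hanti : ∀ u v : Fin r, u ≤ v → g (π v) ≤ g (π u) := by
    intro u v huv
    have h1 := hmono huv
    simp only [Function.comp_apply, neg_le_neg_iff] at h1
    exact h1
  set g' : ℕ → ℝ := fun u => if h : u < r then g (π ⟨u, h⟩) else 0 with hg'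
  have hg'0 : ∀ u, 0 ≤ g' u := by
    intro u
    simp only [hg']
    split_ifs
    · exact hg _
    · exact le_rfl
  have hg'anti : ∀ u, g' (u + 1) ≤ g' u := by
    intro u
    simp only [hg']
    by_cases h1 : u + 1 < r
    · rw [dif_pos h1, dif_pos (by omega)]
      exact hanti _ _ (by
        show u ≤ u + 1
        omega)
    · rw [dif_neg h1]
      split_ifs
      · exact hg _
      · exact le_rfl
  have hg'r : g' r = 0 := by
    simp only [hg']
    rw [dif_neg (lt_irrefl r)]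
  have hg'π : ∀ u : Fin r, g' u = g (π u) := by
    intro u
    simp only [hg']
    rw [dif_pos u.2]
  set A : Fin r → Finset H := fun s => (Finset.univ.filter fun u : Fin r => u ≤ s).map
    π.toEmbedding with hA
  have hmem : ∀ s u, π u ∈ A s ↔ u ≤ s := by
    intro s u
    simp only [hA, Finset.mem_map_equiv, Equiv.symm_apply_apply, Finset.mem_filter,
      Finset.mem_univ, true_and]
  refine ⟨π, fun s => g' s - g' (s + 1), A, fun s => ?_, fun s => ?_, fun τ => ?_,
    fun s hs τ hτ => ?_, fun G hG => ?_⟩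
  · have := hg'anti s
    linarith
  · simp only [hA]
    rw [Finset.card_map]
    have h1 : (Finset.univ.filter fun u : Fin r => u ≤ s) = Finset.Iic s := by
      ext u
      simp
    rw [h1, Fin.card_Iic]
  · obtain ⟨u, rfl⟩ := π.surjective τ
    have h1 : ∀ n, (u : ℕ) ≤ n → g' u = ∑ s ∈ Finset.range n,
        (if (u : ℕ) ≤ s then g' s - g' (s + 1) else 0) + g' n := by
      intro n hn
      induction n, hn using Nat.le_induction with
      | base =>
        rw [Finset.sum_eq_zero, zero_add]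
        intro s hs
        rw [if_neg]
        have := Finset.mem_range.1 hs
        omega
      | succ n hn ih =>
        rw [Finset.sum_range_succ, if_pos hn]
        linarith
    rw [← hg'π u, h1 r u.2.le, hg'r, add_zero, ← Fin.sum_univ_eq_sum_range
      (fun s => if (u : ℕ) ≤ s then g' s - g' (s + 1) else 0)]
    refine Finset.sum_congr rfl fun s _ => ?_
    by_cases h2 : u ≤ s
    · have h3 : (u : ℕ) ≤ s := h2
      rw [if_pos h3, if_pos ((hmem s u).2 h2)]
    · have h3 : ¬ (u : ℕ) ≤ s := h2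
      rw [if_neg h3, if_neg (fun h3 => h2 ((hmem s u).1 h3))]
  · obtain ⟨u, rfl⟩ := π.surjective τ
    have h1 := (hmem s u).1 hτ
    have h2 := hanti u s h1
    have h3 := hg'anti s
    have h4 := hg'0 (s + 1)
    have h7 := hg'π s
    intro h5
    apply hs
    have h6 := hg (π s)
    simp only
    linarith
  · have h1 := abel g' G hG r
    rw [hg'r, zero_mul, sub_zero, ← Fin.sum_univ_eq_sum_range
      (fun s => (g' s - g' (s + 1)) * G (s + 1)), ← Fin.sum_univ_eq_sum_range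
      (fun u => (G (u + 1) - G u) * g' u)] at h1
    rw [h1]
    exact Finset.sum_congr rfl fun u _ => by rw [hg'π]

/-- the integral of the exponents of the lowest part `u` -/
noncomputable def gq (ν : ℕ) (u : ℝ) : ℝ :=
  1 / (ν + 1) - (1 - u) + ν / (ν + 1) * (1 - u) ^ (1 + 1 / (ν : ℝ))

theorem gq_zero (ν : ℕ) : gq ν 0 = 0 := by
  unfold gq
  rw [sub_zero, Real.one_rpow]
  have : (ν : ℝ) + 1 ≠ 0 := by positivity
  field_simp
  ring

theorem gq_mono {ν : ℕ} (hν : 1 ≤ ν) {u v : ℝ} (huv : u ≤ v) (hu : 0 ≤ u) (hv : v ≤ 1) :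
    gq ν u ≤ gq ν v := by
  have hν0 : (0 : ℝ) < ν := by exact_mod_cast hν
  rcases eq_or_lt_of_le hv with h1 | h1
  · -- the end point
    rw [h1]
    unfold gq
    have h2 : (1 - u) ^ (1 + 1 / (ν : ℝ)) ≤ 1 - u := by
      rcases eq_or_lt_of_le (huv.trans hv) with h3 | h3
      · rw [h3, sub_self, Real.zero_rpow (by positivity)]
      · have h4 : (0 : ℝ) < 1 - u := by linarith
        have h5 := Real.rpow_le_rpow_of_exponent_ge h4 (by linarith)
          (show (1 : ℝ) ≤ 1 + 1 / (ν : ℝ) by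
            have : 0 ≤ 1 / (ν : ℝ) := by positivity
            linarith)
        rwa [Real.rpow_one] at h5
    have h3 : (ν : ℝ) / (ν + 1) * (1 - u) ^ (1 + 1 / (ν : ℝ)) ≤ 1 * (1 - u) := by
      refine mul_le_mul ?_ h2 (Real.rpow_nonneg (by linarith) _) zero_le_one
      rw [div_le_one (by positivity)]
      linarith
    rw [sub_self, Real.zero_rpow (by positivity), mul_zero]
    linarith
  · have hw' : (0 : ℝ) < 1 - v := by linarith
    have hw : (0 : ℝ) < 1 - u := by linarith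
    have hp : (1 : ℝ) ≤ 1 + 1 / (ν : ℝ) := by
      have : 0 ≤ 1 / (ν : ℝ) := by positivity
      linarith
    have h2 := one_add_mul_self_le_rpow_one_add (s := (1 - v) / (1 - u) - 1) (by
      have : 0 ≤ (1 - v) / (1 - u) := by positivity
      linarith) hp
    have h3 : 1 + ((1 - v) / (1 - u) - 1) = (1 - v) / (1 - u) := by ring
    rw [h3, Real.div_rpow hw'.le hw.le, le_div_iff₀ (Real.rpow_pos_of_pos hw _)] at h2
    have h4 : (1 - u) ^ (1 + 1 / (ν : ℝ)) = (1 - u) * (1 - u) ^ (1 / (ν : ℝ)) := by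
      rw [Real.rpow_add hw, Real.rpow_one]
    have h5 : (1 - u) ^ (1 / (ν : ℝ)) ≤ 1 := Real.rpow_le_one hw.le (by linarith) (by positivity)
    have h6 : 0 ≤ (1 - u) ^ (1 / (ν : ℝ)) := Real.rpow_nonneg hw.le _
    unfold gq
    set w := (1 - u) ^ (1 / (ν : ℝ)) with hwd
    have h7 : (1 + (1 + 1 / (ν : ℝ)) * ((1 - v) / (1 - u) - 1)) * (1 - u) ^ (1 + 1 / (ν : ℝ)) =
        (1 - u) * w - (1 + 1 / (ν : ℝ)) * (v - u) * w := by
      rw [h4]
      field_simp
      ring
    rw [h7] at h2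
    have h8 : (ν : ℝ) / (ν + 1) * ((1 - u) * w - (1 + 1 / (ν : ℝ)) * (v - u) * w) ≤
        ν / (ν + 1) * (1 - v) ^ (1 + 1 / (ν : ℝ)) := mul_le_mul_of_nonneg_left h2 (by positivity)
    have h9 : (ν : ℝ) / (ν + 1) * ((1 - u) * w - (1 + 1 / (ν : ℝ)) * (v - u) * w) =
        ν / (ν + 1) * ((1 - u) * w) - (v - u) * w := by
      field_simp
    rw [h9] at h8
    rw [h4]
    nlinarith

theorem gq_pos {ν : ℕ} (hν : 1 ≤ ν) {u : ℝ} (hu : 0 < u) (hu1 : u ≤ 1) : 0 < gq ν u := by
  have hν0 : (0 : ℝ) < ν := by exact_mod_cast hν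
  have h1 := one_add_mul_self_lt_rpow_one_add (s := -u) (by linarith) (by linarith)
    (show (1 : ℝ) < 1 + 1 / (ν : ℝ) by
      have : 0 < 1 / (ν : ℝ) := by positivity
      linarith)
  unfold gq
  have h2 : 1 + -u = 1 - u := by ring
  rw [h2] at h1
  have h3 : (ν : ℝ) / (ν + 1) * (1 + (1 + 1 / (ν : ℝ)) * -u) <
      ν / (ν + 1) * (1 - u) ^ (1 + 1 / (ν : ℝ)) := mul_lt_mul_of_pos_left h1 (by positivity)
  have h4 : (ν : ℝ) / (ν + 1) * (1 + (1 + 1 / (ν : ℝ)) * -u) = ν / (ν + 1) - u := by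
    field_simp
    ring
  rw [h4] at h3
  have h5 : 1 / ((ν : ℝ) + 1) + ν / (ν + 1) = 1 := by
    field_simp
    ring
  linarith

/-- the value of the threshold function -/
theorem kappR_eq {ν : ℕ} (hν : 1 ≤ ν) {u : ℝ} (hu : 0 < u) (hu1 : u ≤ 1) :
    0 ≤ 1 - (1 - u) ^ (1 / (ν : ℝ)) ∧ 1 - (1 - u) ^ (1 / (ν : ℝ)) ≤ 1 ∧
      kappR ν (1 / u) (1 - (1 - u) ^ (1 / (ν : ℝ))) = 1 / u * gq ν u := by
  have hν0 : (0 : ℝ) < ν := by exact_mod_cast hν
  have hw0 : 0 ≤ 1 - u := by linarith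
  have h1 : (1 - u) ^ (1 / (ν : ℝ)) ≤ 1 := Real.rpow_le_one hw0 (by linarith) (by positivity)
  have h2 : 0 ≤ (1 - u) ^ (1 / (ν : ℝ)) := Real.rpow_nonneg hw0 _
  refine ⟨by linarith, by linarith, ?_⟩
  have h3 : (1 - u) ^ (1 + 1 / (ν : ℝ)) = ((1 - u) ^ (1 / (ν : ℝ))) ^ (ν + 1) := by
    rw [← Real.rpow_natCast, ← Real.rpow_mul hw0]
    congr 1
    push_cast
    field_simp
  have h4 : ((1 - u) ^ (1 / (ν : ℝ))) ^ ν = 1 - u := by
    rw [one_div]
    exact Real.rpow_inv_natCast_pow hw0 (by omega)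
  unfold kappR gq
  rw [h3]
  set w := (1 - u) ^ (1 / (ν : ℝ)) with hw
  have h5 : 1 - (1 - w) = w := by ring
  rw [h5, pow_succ, h4]
  field_simp
  ring

end Pool.Agent.T9h24
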