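import Mathlib
import Pool.Agent.T9h24.Xlc

/-!
The monomial maps of projective varieties, and the estimate at one place.
-/

set_option autoImplicit false
set_option linter.unusedSectionVars false

open Finset MvPolynomial NumberField IsDedekindDomain

namespace Pool.Agent.T9h24

open Pool.Agent.TH875 (ym dg VM Ind Sm)

/-- a polynomial vanishing at finitely many algebraic numbers -/
theorem exists_poly (A : Finset (AlgebraicClosure ℚ)) : ∃ G' : Polynomial ℤ, G' ≠ 0 ∧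
    G'.eval 0 = 0 ∧ G'.eval 1 = 0 ∧ ∀ w ∈ A, w ∈ (mp (AlgebraicClosure ℚ) G').roots := by
  classical
  choose g hg hgr using exists_ann
  set G' : Polynomial ℤ := Polynomial.X * (Polynomial.X - 1) * ∏ w ∈ A, g w with hG'
  have hX1 : (Polynomial.X - 1 : Polynomial ℤ) ≠ 0 := by
    rw [← Polynomial.C_1]
    exact Polynomial.X_sub_C_ne_zero 1
  have hG'0 : G' ≠ 0 := mul_ne_zero (mul_ne_zero Polynomial.X_ne_zero hX1)
    (Finset.prod_ne_zero_iff.2 fun w _ => hg w)
  refine ⟨G', hG'0, by rw [hG']; simp, by rw [hG']; simp, fun w hw => ?_⟩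
  have h3 := hgr w
  rw [Polynomial.mem_roots'] at h3 ⊢
  refine ⟨mp_ne hG'0, ?_⟩
  rw [Polynomial.IsRoot, hG', ← Finset.mul_prod_erase A g hw]
  unfold mp
  rw [Polynomial.map_mul, Polynomial.map_mul (p := g w), Polynomial.eval_mul,
    Polynomial.eval_mul (p := Polynomial.map _ (g w))]
  have h5 : (mp (AlgebraicClosure ℚ) (g w)).eval w = 0 := h3.2
  unfold mp at h5
  rw [h5, zero_mul, mul_zero]

section variety

variable {m n : ℕ}

/-- the ideal of a variety over the algebraic closure of `ℚ` -/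
noncomputable def idX (G : Fin m → MvPolynomial (Fin (n + 1)) ℚ) :
    Ideal (MvPolynomial (Fin (n + 1)) (AlgebraicClosure ℚ)) :=
  Ideal.span (Set.range fun k => map (algebraMap ℚ (AlgebraicClosure ℚ)) (G k))

theorem map_point {E F : Type} [Field E] [CharZero E] [Field F] [CharZero F]
    (P : MvPolynomial (Fin (n + 1)) ℚ) (x : Fin (n + 1) → E) (τ : E →+* F)
    (h : aeval x P = 0) : eval (fun i => τ (x i)) (map (algebraMap ℚ F) P) = 0 := by
  have h1 : eval (fun i => τ (x i)) (map (algebraMap ℚ F) P) = τ (aeval x P) := by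
    rw [aeval_def, eval_map]
    have h2 := MvPolynomial.eval₂_comp_left τ (algebraMap ℚ E) x P
    rw [h2]
    congr 1
    exact Subsingleton.elim _ _
  rw [h1, h, map_zero]

theorem idX_eval {G : Fin m → MvPolynomial (Fin (n + 1)) ℚ}
    {P : MvPolynomial (Fin (n + 1)) (AlgebraicClosure ℚ)} (hP : P ∈ idX G) {F : Type} [Field F]
    [CharZero F] (j : AlgebraicClosure ℚ →+* F) (z : Fin (n + 1) → F)
    (hz : ∀ k, eval z (map (algebraMap ℚ F) (G k)) = 0) : eval z (map j P) = 0 := by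
  have h1 : idX G ≤ RingHom.ker ((eval z).comp (map j)) := by
    unfold idX
    rw [Ideal.span_le]
    rintro _ ⟨k, rfl⟩
    show eval z (map j (map (algebraMap ℚ (AlgebraicClosure ℚ)) (G k))) = 0
    rw [MvPolynomial.map_map]
    have h2 : j.comp (algebraMap ℚ (AlgebraicClosure ℚ)) = algebraMap ℚ F := Subsingleton.elim _ _
    rw [h2]
    exact hz k
  exact h1 hP

/-- no common zeros -/
def NCZ {q r : ℕ} (G : Fin m → MvPolynomial (Fin (n + 1)) ℚ)
    (F : Fin q → MvPolynomial (Fin (n + 1)) (AlgebraicClosure ℚ)) (e : Fin r → Fin q) : Prop :=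
  ∀ x : Fin (n + 1) → AlgebraicClosure ℚ,
    (∀ k, eval x (map (algebraMap ℚ (AlgebraicClosure ℚ)) (G k)) = 0) →
    (∀ k, eval x (F (e k)) = 0) → x = 0

theorem ncz_ext {q r : ℕ} {G : Fin m → MvPolynomial (Fin (n + 1)) ℚ}
    {F : Fin q → MvPolynomial (Fin (n + 1)) (AlgebraicClosure ℚ)} {e : Fin r → Fin q}
    (h : NCZ G F e) (L : Type) [Field L] [Algebra (AlgebraicClosure ℚ) L] (x : Fin (n + 1) → L)
    (hG : ∀ k, aeval x (map (algebraMap ℚ (AlgebraicClosure ℚ)) (G k)) = 0)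
    (hF : ∀ k, aeval x (F (e k)) = 0) : x = 0 := by
  classical
  set J : Ideal (MvPolynomial (Fin (n + 1)) (AlgebraicClosure ℚ)) := Ideal.span
    (Set.range (Sum.elim (fun k => map (algebraMap ℚ (AlgebraicClosure ℚ)) (G k))
      (fun k => F (e k)))) with hJ
  funext i
  have h1 : (X i : MvPolynomial (Fin (n + 1)) (AlgebraicClosure ℚ)) ∈ J.radical := by
    rw [← vanishingIdeal_zeroLocus_eq_radical (K := AlgebraicClosure ℚ)]
    intro z hz
    have h2 : z = 0 := by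
      refine h z (fun k => ?_) fun k => ?_
      · exact hz _ (Ideal.subset_span ⟨Sum.inl k, rfl⟩)
      · exact hz _ (Ideal.subset_span ⟨Sum.inr k, rfl⟩)
    rw [h2]
    simp
  obtain ⟨N, hN⟩ := h1
  have h2 : J ≤ RingHom.ker (aeval x : MvPolynomial (Fin (n + 1)) (AlgebraicClosure ℚ) →ₐ[_] L) := by
    rw [hJ, Ideal.span_le]
    rintro _ ⟨k | k, rfl⟩
    · exact hG k
    · exact hF k
  have h3 : aeval x ((X i : MvPolynomial (Fin (n + 1)) (AlgebraicClosure ℚ)) ^ N) = 0 := h2 hN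
  rw [map_pow, aeval_X] at h3
  exact eq_zero_of_pow_eq_zero h3

end variety

section mon

variable {n N : ℕ}

/-- the monomial map -/
def monP {R : Type} [CommMonoid R] (c : Fin (N + 1) → (Fin (n + 1) →₀ ℕ)) (x : Fin (n + 1) → R)
    (i : Fin (N + 1)) : R := ∏ j, x j ^ c i j

theorem monP_height {E : Type} [Field E] [NumberField E] {M : ℕ}
    (c : Fin (N + 1) → (Fin (n + 1) →₀ ℕ)) (hc : ∀ i, (c i).degree = M)
    (x : Fin (n + 1) → E) (hx : x ≠ 0) :
    Height.logHeight (monP c x) ≤ M * Height.logHeight x := by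
  have h1 : ∀ i, ∃ I : Fin M → Fin (n + 1), ∀ j, c i j =
      ∑ k, if I k = j then 1 else 0 := fun i => exists_word M _ (hc i)
  choose I hI using h1
  have h2 : monP c x = (fun J : Fin M → Fin (n + 1) => ∏ k, x (J k)) ∘ I := by
    funext i
    exact (prod_word (hI i) x).symm
  rw [h2]
  refine (Height.logHeight_comp_le _ _).trans (le_of_eq ?_)
  rw [Height.logHeight_fun_prod_eq (x := fun _ : Fin M => x) fun _ => hx]
  rw [Finset.sum_const, Finset.card_univ, Fintype.card_fin, nsmul_eq_mul]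

theorem map_monP {E : Type} [Field E] [NumberField E] {F : Type} [Field F]
    (c : Fin (N + 1) → (Fin (n + 1) →₀ ℕ)) (τ : E →+* F) (x : Fin (n + 1) → 𝓞 E)
    (i : Fin (N + 1)) : τ ((monP c x i : 𝓞 E) : E) = monP c (fun j => τ (x j : E)) i := by
  unfold monP
  have h1 : ((∏ j, x j ^ c i j : 𝓞 E) : E) = ∏ j, (x j : E) ^ c i j := by
    have h2 := map_prod (algebraMap (𝓞 E) E) (fun j => x j ^ c i j) Finset.univ
    refine h2.trans ?_
    exact Finset.prod_congr rfl fun j _ => by rw [map_pow]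
  rw [h1, map_prod]
  exact Finset.prod_congr rfl fun j _ => by rw [map_pow]

/-- the form with given coefficients -/
noncomputable def Pc {K : Type} [Field K] (c : Fin (N + 1) → (Fin (n + 1) →₀ ℕ))
    (u : Fin (N + 1) → K) : MvPolynomial (Fin (n + 1)) K := ∑ i, C (u i) * monomial (c i) 1

theorem Pc_hom {K : Type} [Field K] {M : ℕ} (c : Fin (N + 1) → (Fin (n + 1) →₀ ℕ))
    (hc : ∀ i, (c i).degree = M) (u : Fin (N + 1) → K) : (Pc c u).IsHomogeneous M := by
  unfold Pc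
  refine MvPolynomial.IsHomogeneous.sum _ _ _ fun i _ => ?_
  rw [C_mul_monomial]
  exact isHomogeneous_monomial _ (hc i)

theorem eval_Pc {K F : Type} [Field K] [Field F] (c : Fin (N + 1) → (Fin (n + 1) →₀ ℕ))
    (u : Fin (N + 1) → K) (j : K →+* F) (z : Fin (n + 1) → F) :
    eval z (map j (Pc c u)) = ∑ i, j (u i) * monP c z i := by
  unfold Pc monP
  rw [map_sum, map_sum]
  refine Finset.sum_congr rfl fun i _ => ?_
  rw [map_mul, map_mul, map_C, eval_C, map_monomial, map_one, eval_monomial, one_mul,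
    Finsupp.prod_fintype _ _ fun j => pow_zero _]

variable {K : Type} [Field K]

theorem exists_coeffs {M : ℕ} (I : Ideal (MvPolynomial (Fin (n + 1)) K))
    (c : Fin (N + 1) → (Fin (n + 1) →₀ ℕ)) (b : Module.Basis (Fin (N + 1)) K (VM I M))
    (hb : ∀ i, ((b i : VM I M) : MvPolynomial (Fin (n + 1)) K ⧸ I) =
        Ideal.Quotient.mkₐ K I (monomial (c i) 1))
    (P : MvPolynomial (Fin (n + 1)) K) (hP : P.IsHomogeneous M) :
    ∃ w : Fin (N + 1) → K, P - Pc c w ∈ I := by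
  have hmem : Ideal.Quotient.mkₐ K I P ∈ VM I M := ⟨P, hP, rfl⟩
  refine ⟨fun i => b.repr ⟨_, hmem⟩ i, ?_⟩
  rw [← Ideal.Quotient.eq_zero_iff_mem]
  have h1 := congrArg (fun z : VM I M => (z : MvPolynomial (Fin (n + 1)) K ⧸ I))
    (b.sum_repr ⟨_, hmem⟩)
  simp only [AddSubmonoidClass.coe_finsetSum, Submodule.coe_smul, hb] at h1
  have h2 : Ideal.Quotient.mkₐ K I (P - Pc c fun i => b.repr ⟨_, hmem⟩ i) = 0 := by
    unfold Pc
    rw [map_sub, map_sum, sub_eq_zero]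
    refine h1.symm.trans (Finset.sum_congr rfl fun i _ => ?_)
    rw [← MvPolynomial.smul_eq_C_mul, map_smul]
  exact h2

theorem Pc_notMem {M : ℕ} (I : Ideal (MvPolynomial (Fin (n + 1)) K))
    (c : Fin (N + 1) → (Fin (n + 1) →₀ ℕ)) (b : Module.Basis (Fin (N + 1)) K (VM I M))
    (hb : ∀ i, ((b i : VM I M) : MvPolynomial (Fin (n + 1)) K ⧸ I) =
        Ideal.Quotient.mkₐ K I (monomial (c i) 1))
    (u : Fin (N + 1) → K) (hu : u ≠ 0) : Pc c u ∉ I := by
  intro h
  apply hu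
  have h1 : ∑ i, u i • b i = 0 := by
    apply Subtype.ext
    simp only [AddSubmonoidClass.coe_finsetSum, Submodule.coe_smul, hb, ZeroMemClass.coe_zero]
    have h2 : Ideal.Quotient.mkₐ K I (Pc c u) = 0 := Ideal.Quotient.eq_zero_iff_mem.2 h
    rw [← h2]
    unfold Pc
    rw [map_sum]
    refine Finset.sum_congr rfl fun i _ => ?_
    rw [← MvPolynomial.smul_eq_C_mul, map_smul]
  funext i
  exact Fintype.linearIndependent_iff.1 b.linearIndependent u h1 i

end mon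

section place

variable {m n N : ℕ} {F : Type} [NormedField F] [CharZero F] [IsAlgClosed F]

theorem monP_lower {M : ℕ} (I : Ideal (MvPolynomial (Fin (n + 1)) (AlgebraicClosure ℚ)))
    (c : Fin (N + 1) → (Fin (n + 1) →₀ ℕ))
    (b : Module.Basis (Fin (N + 1)) (AlgebraicClosure ℚ) (VM I M))
    (hb : ∀ i, ((b i : VM I M) : MvPolynomial (Fin (n + 1)) (AlgebraicClosure ℚ) ⧸ I) =
        Ideal.Quotient.mkₐ (AlgebraicClosure ℚ) I (monomial (c i) 1)) :
    ∃ A : ℝ, 1 ≤ A ∧ ∀ (j : AlgebraicClosure ℚ →+* F) (z : Fin (n + 1) → F),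
      (∀ P ∈ I, eval z (map j P) = 0) → ‖z‖ ^ M ≤ A * ‖monP c z‖ := by
  classical
  have h1 : ∀ i : Fin (n + 1), ∃ w : Fin (N + 1) → AlgebraicClosure ℚ,
      (X i : MvPolynomial (Fin (n + 1)) (AlgebraicClosure ℚ)) ^ M - Pc c w ∈ I := fun i =>
    exists_coeffs I c b hb _ (by
      have := (isHomogeneous_X (AlgebraicClosure ℚ) i).pow M
      rwa [one_mul] at this)
  choose w hw using h1
  choose Bf hB1 hB using fun w : AlgebraicClosure ℚ => embed_bound (F := F) w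
  have hBf0 : ∀ w, 0 ≤ Bf w := fun w => zero_le_one.trans (hB1 w)
  refine ⟨1 + ∑ i, ∑ l, Bf (w i l), ?_, fun j z hz => ?_⟩
  · have : 0 ≤ ∑ i, ∑ l, Bf (w i l) :=
      Finset.sum_nonneg fun i _ => Finset.sum_nonneg fun l _ => hBf0 _
    linarith
  · obtain ⟨i0, hi0⟩ : ∃ i0, ‖z‖ = ‖z i0‖ := by
      obtain ⟨i0, -, hi0⟩ := Finset.exists_max_image Finset.univ (fun j => ‖z j‖)
        ⟨0, Finset.mem_univ _⟩
      refine ⟨i0, le_antisymm ?_ (norm_le_pi_norm z i0)⟩
      exact (pi_norm_le_iff_of_nonneg (norm_nonneg _)).2 fun j => hi0 j (Finset.mem_univ j)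
    have h2 := hz _ (hw i0)
    rw [map_sub, map_sub, eval_Pc, map_pow, map_pow, map_X, eval_X, sub_eq_zero] at h2
    rw [hi0, ← norm_pow, h2]
    refine (norm_sum_le _ _).trans ?_
    have h3 : ∀ l ∈ (Finset.univ : Finset (Fin (N + 1))), ‖j (w i0 l) * monP c z l‖ ≤
        Bf (w i0 l) * ‖monP c z‖ := fun l _ => by
      rw [norm_mul]
      exact mul_le_mul (hB _ _) (norm_le_pi_norm _ l) (norm_nonneg _) (hBf0 _)
    refine (Finset.sum_le_sum h3).trans ?_
    rw [← Finset.sum_mul]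
    refine mul_le_mul_of_nonneg_right ?_ (norm_nonneg _)
    have h4 := Finset.single_le_sum (f := fun i => ∑ l, Bf (w i l))
      (fun i _ => Finset.sum_nonneg fun l _ => hBf0 _) (Finset.mem_univ i0)
    linarith

/-- the values of the adapted basis -/
theorem place_bnd {q ν D M : ℕ} (hD : 1 ≤ D)
    (I : Ideal (MvPolynomial (Fin (n + 1)) (AlgebraicClosure ℚ)))
    (c : Fin (N + 1) → (Fin (n + 1) →₀ ℕ))
    (b : Module.Basis (Fin (N + 1)) (AlgebraicClosure ℚ) (VM I M))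
    (hb : ∀ i, ((b i : VM I M) : MvPolynomial (Fin (n + 1)) (AlgebraicClosure ℚ) ⧸ I) =
        Ideal.Quotient.mkₐ (AlgebraicClosure ℚ) I (monomial (c i) 1))
    (Fo : Fin q → MvPolynomial (Fin (n + 1)) (AlgebraicClosure ℚ)) (d : Fin q → ℕ)
    (hdD : ∀ i, d i ∣ D) (hFo : ∀ i, (Fo i).IsHomogeneous (d i)) {ι : Type}
    (fr : ι → Fin (ν + 1) → Fin q)
    (s : ι → Fin (N + 1) → (Fin (ν + 1) → ℕ) × (Fin (n + 1) →₀ ℕ))
    (W : ι → Matrix (Fin (N + 1)) (Fin (N + 1)) (AlgebraicClosure ℚ))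
    (hs : ∀ e a, dg D (s e a) = M)
    (hW : ∀ e a, ym (fun k => Fo (fr e k) ^ (D / d (fr e k))) (s e a) -
      ∑ i, C (W e a i) * monomial (c i) 1 ∈ I) :
    ∃ A : ℝ, 1 ≤ A ∧ ∀ (e : ι) (j : AlgebraicClosure ℚ →+* F) (z : Fin (n + 1) → F), z ≠ 0 →
      (∀ P ∈ I, eval z (map j P) = 0) → ∀ a,
      ‖lf (fun i => j (W e a i)) (monP c z)‖ ≤ A * ‖monP c z‖ *
        Real.exp (-∑ k, ((s e a).1 k : ℝ) * (((D / d (fr e k) : ℕ) : ℝ) *
          max 0 (laq (d (fr e k)) (map j (Fo (fr e k))) z))) := by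
  classical
  obtain ⟨A2, hA2, hlow⟩ := monP_lower (F := F) I c b hb
  choose B hB1 hB using fun i => form_bound (F := F) (Fo i) (hFo i)
  set B0 : ℝ := 1 + ∑ i, B i with hB0
  have hBn : ∀ i, 0 ≤ B i := fun i => zero_le_one.trans (hB1 i)
  have hB01 : 1 ≤ B0 := by
    have : 0 ≤ ∑ i, B i := Finset.sum_nonneg fun i _ => hBn i
    rw [hB0]
    linarith
  have hBB : ∀ i, B i ≤ B0 := fun i => by
    have := Finset.single_le_sum (f := B) (fun i _ => hBn i) (Finset.mem_univ i)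
    rw [hB0]
    linarith
  have hBD : 1 ≤ B0 ^ D := one_le_pow₀ hB01
  refine ⟨(B0 ^ D) ^ M * A2, one_le_mul_of_one_le_of_one_le (one_le_pow₀ hBD) hA2,
    fun e j z hz hI a => ?_⟩
  have h1 : lf (fun i => j (W e a i)) (monP c z) =
      eval z (map j (ym (fun k => Fo (fr e k) ^ (D / d (fr e k))) (s e a))) := by
    have h2 := hI _ (hW e a)
    rw [map_sub, map_sub, sub_eq_zero] at h2
    rw [h2]
    exact (eval_Pc c (W e a) j z).symm
  rw [h1]
  have h2 := ym_value hD (fun k => Fo (fr e k) ^ (D / d (fr e k))) j z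
    (fun k => ((D / d (fr e k) : ℕ) : ℝ) * max 0 (laq (d (fr e k)) (map j (Fo (fr e k))) z))
    (B0 ^ D) hBD (fun k => by
      have h3 := eval_le_exp (d (fr e k)) (map j (Fo (fr e k))) z hz hB01
        ((hB _ j z).trans (mul_le_mul_of_nonneg_right (hBB _) (pow_nonneg (norm_nonneg _) _)))
      rw [map_pow, map_pow, norm_pow]
      refine (pow_le_pow_left₀ (norm_nonneg _) h3 _).trans ?_
      rw [mul_pow, mul_pow, ← pow_mul, Nat.mul_div_cancel' (hdD _), ← Real.exp_nat_mul]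
      have h4 : B0 ^ (D / d (fr e k)) ≤ B0 ^ D :=
        pow_le_pow_right₀ hB01 (Nat.div_le_self _ _)
      have h5 : ((D / d (fr e k) : ℕ) : ℝ) * -max 0 (laq (d (fr e k)) (map j (Fo (fr e k))) z) =
          -(((D / d (fr e k) : ℕ) : ℝ) * max 0 (laq (d (fr e k)) (map j (Fo (fr e k))) z)) := by
        ring
      rw [h5]
      exact mul_le_mul_of_nonneg_right (mul_le_mul_of_nonneg_right h4
        (pow_nonneg (norm_nonneg _) _)) (Real.exp_pos _).le) (s e a) (hs e a)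
  refine h2.trans ?_
  refine mul_le_mul_of_nonneg_right ?_ (Real.exp_pos _).le
  rw [mul_assoc]
  exact mul_le_mul_of_nonneg_left (hlow j z hI) (pow_nonneg (pow_nonneg (by linarith) _) _)

end place

open Classical in
/-- the sum of the bounds -/
theorem sum_Phi' {n' ν : ℕ} {H : Type} [Fintype H] (r : ℕ)
    (hH : Fintype.card H = r) (θ : ℕ) (T : H → Fin (ν + 1) → ℝ) (L0 : ℝ)
    (hT : ∀ τ k, L0 ≤ (θ : ℝ) * ((n' : ℝ) + 1) - r * T τ k)
    (μ : H → Fin (ν + 1) → ℝ) (hμ : ∀ τ j, 0 ≤ μ τ j) (K0 : ℝ) :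
    (r : ℝ) ^ n' * (L0 * ∑ τ, ∑ j, μ τ j) - (r : ℝ) ^ (n' + 1) * K0 ≤
      ∑ σ : Fin (n' + 1) → H, (∑ τ, ∑ j, μ τ j * ((θ : ℝ) * cnt σ τ - T τ j) - K0) := by
  have h1 : ∀ σ : Fin (n' + 1) → H, ∑ τ, ∑ j, μ τ j * ((θ : ℝ) * cnt σ τ - T τ j) =
      ∑ τ, (θ * ∑ j, μ τ j) * (cnt σ τ : ℝ) - ∑ τ, ∑ j, μ τ j * T τ j := by
    intro σ
    rw [← Finset.sum_sub_distrib]
    refine Finset.sum_congr rfl fun τ _ => ?_
    rw [Finset.mul_sum, Finset.sum_mul, ← Finset.sum_sub_distrib]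
    exact Finset.sum_congr rfl fun j _ => by ring
  rw [Finset.sum_sub_distrib]
  simp only [h1]
  rw [Finset.sum_sub_distrib, sum_cnt (fun τ => (θ : ℝ) * ∑ j, μ τ j), Finset.sum_const,
    Finset.sum_const, Finset.card_univ, Fintype.card_fun, Fintype.card_fin, hH, nsmul_eq_mul,
    nsmul_eq_mul, ← Finset.mul_sum]
  push_cast
  have h2 : L0 * ∑ τ, ∑ j, μ τ j ≤
      θ * ((n' : ℝ) + 1) * ∑ τ, ∑ j, μ τ j - r * ∑ τ, ∑ j, μ τ j * T τ j := by
    rw [Finset.mul_sum, Finset.mul_sum, Finset.mul_sum, ← Finset.sum_sub_distrib]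
    refine Finset.sum_le_sum fun τ _ => ?_
    rw [Finset.mul_sum, Finset.mul_sum, Finset.mul_sum, ← Finset.sum_sub_distrib]
    refine Finset.sum_le_sum fun j _ => ?_
    have h3 := mul_le_mul_of_nonneg_right (hT τ j) (hμ τ j)
    refine h3.trans (le_of_eq ?_)
    ring
  have h3 := mul_le_mul_of_nonneg_left h2 (pow_nonneg (Nat.cast_nonneg (α := ℝ) r) n')
  have h5 : (r : ℝ) ^ (n' + 1) = r ^ n' * r := pow_succ _ _
  rw [h5]
  linarith

end Pool.Agent.T9h24
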