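import Mathlib

/-!
Counting vectors of dual bases.
-/

set_option autoImplicit false
set_option linter.unusedSectionVars false

namespace Pool.Agent.T9h24

open Module

section la

variable {K V : Type} [Field K] [AddCommGroup V] [Module K V] [FiniteDimensional K V]

theorem inter_finrank {ι : Type} [DecidableEq ι] (T : Finset ι) (U : ι → Submodule K V)
    (Y : Submodule K V) (c : ℕ) (hU : ∀ x ∈ T, U x ≤ Y)
    (hc : ∀ x ∈ T, finrank K Y ≤ finrank K (U x) + c) :
    finrank K Y ≤ finrank K (Y ⊓ T.inf U : Submodule K V) + T.card * c := by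
  induction T using Finset.induction_on with
  | empty =>
    rw [Finset.inf_empty, inf_top_eq]
    omega
  | insert a T ha ih =>
    have h1 := ih (fun x hx => hU x (Finset.mem_insert_of_mem hx))
      (fun x hx => hc x (Finset.mem_insert_of_mem hx))
    have h2 := hU a (Finset.mem_insert_self _ _)
    have h3 := hc a (Finset.mem_insert_self _ _)
    have e1 : (Y ⊓ (insert a T).inf U : Submodule K V) = (Y ⊓ T.inf U) ⊓ U a := by
      rw [Finset.inf_insert, inf_assoc, inf_comm (U a)]
    have h4 := Submodule.finrank_sup_add_finrank_inf_eq (Y ⊓ T.inf U) (U a)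
    have h5 : finrank K ((Y ⊓ T.inf U) ⊔ U a : Submodule K V) ≤ finrank K Y :=
      Submodule.finrank_mono (sup_le inf_le_left h2)
    rw [e1, Finset.card_insert_of_notMem ha, add_mul, one_mul]
    omega

theorem count_functionals {J : Type} [Fintype J] (R : J → Dual K V)
    (hR : LinearIndependent K R) (U : Submodule K V) (h : ∀ j, ∀ u ∈ U, R j u = 0) :
    Fintype.card J + finrank K U ≤ finrank K V := by
  have hmem : ∀ j, R j ∈ U.dualAnnihilator := fun j =>
    (Submodule.mem_dualAnnihilator _).2 fun u hu => h j u hu
  have h1 : LinearIndependent K (fun j => (⟨R j, hmem j⟩ : U.dualAnnihilator)) := by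
    refine LinearIndependent.of_comp (U.dualAnnihilator).subtype ?_
    exact hR
  have h2 := h1.fintype_card_le_finrank
  have h3 := Subspace.finrank_add_finrank_dualAnnihilator_eq (K := K) U
  omega

/-- **Counting vectors of dual bases.** -/
theorem count_main {N : ℕ} (b : Basis (Fin N) K V) {X : Type} [DecidableEq X]
    (W : X → Matrix (Fin N) (Fin N) K) (hW : ∀ x, (W x).det ≠ 0)
    (α : X → Fin N → ℕ) (T : Finset X) (j : ℕ) (Y : Submodule K V)
    (hY : ∀ x ∈ T, ∀ a, j ≤ α x a → ∑ i, W x a i • b i ∈ Y) (c : ℕ)
    (hc : ∀ x ∈ T, finrank K Y ≤ (Finset.univ.filter fun a => j ≤ α x a).card + c)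
    (f : Fin N → X) (κ : Fin N → Fin N)
    (hdet : (Matrix.of fun l i => (W (f l))⁻¹ i (κ l)).det ≠ 0)
    (J : Finset (Fin N)) (hJ : ∀ l ∈ J, f l ∈ T ∧ α (f l) (κ l) < j) :
    J.card + finrank K Y ≤ N + T.card * c := by
  classical
  set v : X → Fin N → V := fun x a => ∑ i, W x a i • b i with hv
  have hve : ∀ x a, v x a = b.equivFun.symm (W x a) := by
    intro x a
    rw [Basis.equivFun_symm_apply]
  have hvli : ∀ x, LinearIndependent K (v x) := by
    intro x
    have h1 : LinearIndependent K (W x).row :=
      Matrix.linearIndependent_rows_iff_isUnit.2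
        ((Matrix.isUnit_iff_isUnit_det _).2 (isUnit_iff_ne_zero.2 (hW x)))
    have h2 := h1.map' b.equivFun.symm.toLinearMap
      (LinearMap.ker_eq_bot.2 b.equivFun.symm.injective)
    have e : v x = b.equivFun.symm.toLinearMap ∘ (W x).row := funext fun a => hve x a
    rw [e]
    exact h2
  set U : X → Submodule K V := fun x =>
    Submodule.span K (Set.range fun a : {a // j ≤ α x a} => v x a) with hU
  have hUr : ∀ x, finrank K (U x) = (Finset.univ.filter fun a => j ≤ α x a).card := by
    intro x
    have h1 := finrank_span_eq_card ((hvli x).comp (fun a : {a // j ≤ α x a} => (a : Fin N))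
      Subtype.val_injective)
    rw [Fintype.card_subtype] at h1
    exact h1
  have h1 := inter_finrank T U Y c (fun x hx => by
      rw [hU]
      simp only
      rw [Submodule.span_le]
      rintro _ ⟨a, rfl⟩
      exact hY x hx a a.2) (fun x hx => by
      rw [hUr]
      exact hc x hx)
  -- the functionals
  set R : Fin N → Dual K V := fun l => b.dualBasis.equivFun.symm
    (fun i => (W (f l))⁻¹ i (κ l)) with hR
  have hRli : LinearIndependent K R := by
    have h2 : LinearIndependent K (Matrix.of fun l i => (W (f l))⁻¹ i (κ l)).row :=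
      Matrix.linearIndependent_rows_iff_isUnit.2
        ((Matrix.isUnit_iff_isUnit_det _).2 (isUnit_iff_ne_zero.2 hdet))
    exact h2.map' b.dualBasis.equivFun.symm.toLinearMap
      (LinearMap.ker_eq_bot.2 b.dualBasis.equivFun.symm.injective)
  have hRv : ∀ l a, R l (v (f l) a) = if a = κ l then 1 else 0 := by
    intro l a
    have e1 : R l = ∑ i, (W (f l))⁻¹ i (κ l) • b.dualBasis i := by
      rw [hR]
      simp only
      rw [Basis.equivFun_symm_apply]
    have e2 : R l (v (f l) a) = (W (f l) * (W (f l))⁻¹) a (κ l) := by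
      rw [e1, LinearMap.sum_apply, Matrix.mul_apply]
      refine Finset.sum_congr rfl fun i _ => ?_
      rw [LinearMap.smul_apply, smul_eq_mul, hv]
      simp only [map_sum, map_smul, smul_eq_mul, Basis.dualBasis_apply_self]
      rw [Finset.sum_eq_single i]
      · rw [if_pos rfl]
        ring
      · intro i' _ hi'
        rw [if_neg hi', mul_zero]
      · intro h
        exact absurd (Finset.mem_univ _) h
    rw [e2, Matrix.mul_nonsing_inv _ (isUnit_iff_ne_zero.2 (hW (f l))), Matrix.one_apply]
  have h2 := count_functionals (fun l : J => R l) (hRli.comp _ Subtype.val_injective)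
    (Y ⊓ T.inf U) (by
      rintro ⟨l, hl⟩ u hu
      have h3 : u ∈ U (f l) := (Finset.inf_le (f := U) (hJ l hl).1 : T.inf U ≤ U (f l)) hu.2
      have h4 : U (f l) ≤ LinearMap.ker (R l) := by
        rw [hU]
        simp only
        rw [Submodule.span_le]
        rintro _ ⟨a, rfl⟩
        show R l (v (f l) a) = 0
        rw [hRv, if_neg]
        intro h5
        have h6 := a.2
        rw [h5] at h6
        have h7 := (hJ l hl).2
        omega
      exact h4 h3)
  rw [Fintype.card_coe, finrank_eq_card_basis b, Fintype.card_fin] at h2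
  omega

end la

end Pool.Agent.T9h24
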