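import Mathlib
import Pool.Agent.T9h24.Ych
import Pool.Agent.T9h24.Yla
import Pool.Agent.T9h24.Xdg

/-!
Adapted bases and the subspaces of multiples of powers of a form.
-/

set_option autoImplicit false
set_option linter.unusedSectionVars false

namespace Pool.Agent.T9h24

open MvPolynomial Finset Pool.Agent.TH875

section basis

variable {K : Type} [Field K] {n : ℕ}

/-- the adapted bases -/
theorem adapted2 {r D M N : ℕ} (I : Ideal (MvPolynomial (Fin n) K)) (hD : 1 ≤ D)
    (c : Fin (N + 1) → (Fin n →₀ ℕ)) (b : Module.Basis (Fin (N + 1)) K (VM I M))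
    (hc : ∀ i, (c i).degree = M)
    (hb : ∀ i, ((b i : VM I M) : MvPolynomial (Fin n) K ⧸ I) =
        Ideal.Quotient.mkₐ K I (monomial (c i) 1))
    (y : Fin r → MvPolynomial (Fin n) K) (hy : ∀ k, (y k).IsHomogeneous D)
    (E : Finset (Fin n →₀ ℕ)) (hE : Ind I y E) :
    ∃ (s : Fin (N + 1) → (Fin r → ℕ) × (Fin n →₀ ℕ)) (W : Matrix (Fin (N + 1)) (Fin (N + 1)) K),
      W.det ≠ 0 ∧ (∀ a, dg D (s a) = M) ∧
      (∀ a, ym y (s a) - ∑ i, C (W a i) * monomial (c i) 1 ∈ I) ∧
      (Sm D E r M).card ≤ N + 1 ∧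
      ∀ (g : (Fin r → ℕ) → ℕ), ∑ a, g (s a).1 =
        ∑ t ∈ Sm D E r M, g t.1 + (N + 1 - (Sm D E r M).card) * g 0 := by
  classical
  have hmemV : ∀ s : {s // s ∈ Sm D E r M}, Ideal.Quotient.mkₐ K I (ym y s.1) ∈ VM I M := by
    intro s
    have h1 := ym_hom hy s.1
    rw [((mem_Sm hD E M s.1).1 s.2).2] at h1
    exact ⟨_, h1, rfl⟩
  set v : {s // s ∈ Sm D E r M} → VM I M := fun s =>
    ⟨Ideal.Quotient.mkₐ K I (ym y s.1), hmemV s⟩ with hv
  have hvli : LinearIndependent K v := by
    refine LinearIndependent.of_comp (VM I M).subtype ?_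
    have h1 : LinearIndependent K (fun s : {s : (Fin r → ℕ) × (Fin n →₀ ℕ) | s.2 ∈ E} =>
      Ideal.Quotient.mkₐ K I (ym y s.1)) := hE
    have h2 := h1.comp (fun s : {s // s ∈ Sm D E r M} =>
      (⟨s.1, ((mem_Sm hD E M s.1).1 s.2).1⟩ :
        {s : (Fin r → ℕ) × (Fin n →₀ ℕ) | s.2 ∈ E})) (by
      intro a a' h
      exact Subtype.ext (by simpa using h))
    exact h2
  obtain ⟨J, hJ, hli⟩ := ext_basis v hvli b
  rw [Fintype.card_coe] at hJ
  have ecard : Fintype.card (Fin (N + 1)) = Fintype.card ({s // s ∈ Sm D E r M} ⊕ J) := by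
    rw [Fintype.card_fin, Fintype.card_sum, Fintype.card_coe, Fintype.card_coe, hJ]
  have φ : Fin (N + 1) ≃ ({s // s ∈ Sm D E r M} ⊕ J) := Fintype.equivOfCardEq ecard
  set w : Fin (N + 1) → VM I M := fun a => Sum.elim v (fun j : J => b j) (φ a) with hw
  have hwli : LinearIndependent K w := hli.comp φ φ.injective
  set s : Fin (N + 1) → (Fin r → ℕ) × (Fin n →₀ ℕ) := fun a =>
    Sum.elim (fun t : {s // s ∈ Sm D E r M} => t.1) (fun j : J => (0, c j)) (φ a) with hs
  have hws : ∀ a, ((w a : VM I M) : MvPolynomial (Fin n) K ⧸ I) =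
      Ideal.Quotient.mkₐ K I (ym y (s a)) := by
    intro a
    simp only [hw, hs]
    rcases φ a with t | j
    · rfl
    · simp only [Sum.elim_inr]
      rw [hb]
      unfold ym
      simp
  have hsM : ∀ a, dg D (s a) = M := by
    intro a
    simp only [hs]
    rcases φ a with t | j
    · exact ((mem_Sm hD E M t.1).1 t.2).2
    · simp only [Sum.elim_inr]
      unfold dg
      simp [hc]
  refine ⟨s, Matrix.of fun a i => b.repr (w a) i, ?_, hsM, fun a => ?_, by omega, fun g => ?_⟩
  · have h1 : LinearIndependent K (fun a => b.equivFun (w a)) :=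
      hwli.map' b.equivFun.toLinearMap (LinearMap.ker_eq_bot.2 b.equivFun.injective)
    have h2 : IsUnit (Matrix.of fun a i => b.repr (w a) i) := by
      rw [← Matrix.linearIndependent_rows_iff_isUnit]
      exact h1
    exact isUnit_iff_ne_zero.1 ((Matrix.isUnit_iff_isUnit_det _).1 h2)
  · rw [← Ideal.Quotient.eq_zero_iff_mem]
    have h1 := congrArg (fun z : VM I M => (z : MvPolynomial (Fin n) K ⧸ I)) (b.sum_repr (w a))
    simp only [AddSubmonoidClass.coe_finsetSum, Submodule.coe_smul] at h1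
    rw [hws] at h1
    simp only [hb] at h1
    have h2 : Ideal.Quotient.mkₐ K I (ym y (s a) -
        ∑ i, C (b.repr (w a) i) * monomial (c i) 1) = 0 := by
      rw [map_sub, map_sum, sub_eq_zero, ← h1]
      refine Finset.sum_congr rfl fun i _ => ?_
      rw [← MvPolynomial.smul_eq_C_mul, map_smul]
    exact h2
  · have h1 : ∑ a, g (s a).1 = ∑ x : {s // s ∈ Sm D E r M} ⊕ J,
        g (Sum.elim (fun t : {s // s ∈ Sm D E r M} => t.1) (fun j : J => (0, c j)) x).1 :=
      Equiv.sum_comp φ (fun x : {s // s ∈ Sm D E r M} ⊕ J =>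
        g (Sum.elim (fun t : {s // s ∈ Sm D E r M} => t.1) (fun j : J => (0, c j)) x).1)
    rw [h1, Fintype.sum_sum_type]
    simp only [Sum.elim_inl, Sum.elim_inr]
    rw [Finset.sum_const, Finset.card_univ, Fintype.card_coe, smul_eq_mul,
      Finset.sum_coe_sort (Sm D E r M) (fun t => g t.1)]
    congr 2
    omega


/-- the multiples of the power of a form -/
theorem exists_Yj (I : Ideal (MvPolynomial (Fin n) K)) (hI : I.IsPrime) {D dd j : ℕ}
    (hj : j ≤ dd) (P : MvPolynomial (Fin n) K) (hP : P.IsHomogeneous D)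
    (hP0 : Ideal.Quotient.mkₐ K I P ≠ 0) :
    ∃ Y : Submodule K (VM I (D * dd)), Module.finrank K Y = Module.finrank K (VM I (D * (dd - j)))
      ∧ ∀ Q : MvPolynomial (Fin n) K, Q.IsHomogeneous (D * (dd - j)) → ∀ v : VM I (D * dd),
        (v : MvPolynomial (Fin n) K ⧸ I) = Ideal.Quotient.mkₐ K I (P ^ j * Q) → v ∈ Y := by
  have hdom : IsDomain (MvPolynomial (Fin n) K ⧸ I) := Ideal.Quotient.isDomain I
  set p := Ideal.Quotient.mkₐ K I (P ^ j) with hp
  have hp0 : p ≠ 0 := by
    rw [hp, map_pow]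
    exact pow_ne_zero _ hP0
  have hDj : D * j + D * (dd - j) = D * dd := by
    rw [← Nat.mul_add]
    congr 1
    omega
  have hmap : ∀ u ∈ VM I (D * (dd - j)), (LinearMap.mulLeft K p) u ∈ VM I (D * dd) := by
    rintro _ ⟨F, hF, rfl⟩
    have hF' : F.IsHomogeneous (D * (dd - j)) := hF
    refine ⟨P ^ j * F, ?_, ?_⟩
    · have h1 := (hP.pow j).mul hF'
      rw [hDj] at h1
      exact h1
    · show Ideal.Quotient.mkₐ K I (P ^ j * F) = p * Ideal.Quotient.mkₐ K I F
      rw [map_mul]
  set φ : VM I (D * (dd - j)) →ₗ[K] VM I (D * dd) := (LinearMap.mulLeft K p).restrict hmap with hφ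
  have hφi : Function.Injective φ := by
    intro u u' h
    have h1 : p * (u : MvPolynomial (Fin n) K ⧸ I) = p * (u' : MvPolynomial (Fin n) K ⧸ I) :=
      congrArg Subtype.val h
    exact Subtype.ext (mul_left_cancel₀ hp0 h1)
  refine ⟨LinearMap.range φ, LinearMap.finrank_range_of_inj hφi, fun Q hQ v hv => ?_⟩
  refine ⟨⟨Ideal.Quotient.mkₐ K I Q, ⟨Q, hQ, rfl⟩⟩, Subtype.ext ?_⟩
  rw [hv, map_mul]
  rfl

theorem ym_split {r D : ℕ} (y : Fin r → MvPolynomial (Fin n) K)
    (s : (Fin r → ℕ) × (Fin n →₀ ℕ)) (k : Fin r) (j : ℕ) (hj : j ≤ s.1 k) :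
    ym y s = y k ^ j * ym y (Function.update s.1 k (s.1 k - j), s.2) ∧
      dg D s = D * j + dg D (Function.update s.1 k (s.1 k - j), s.2) := by
  classical
  constructor
  · unfold ym
    rw [← mul_assoc]
    congr 1
    rw [← Finset.mul_prod_erase Finset.univ (fun k => y k ^ s.1 k) (Finset.mem_univ k),
      ← Finset.mul_prod_erase Finset.univ
        (fun i => y i ^ (Function.update s.1 k (s.1 k - j)) i) (Finset.mem_univ k),
      ← mul_assoc, Function.update_self, ← pow_add, Nat.add_sub_cancel' hj]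
    congr 1
    refine Finset.prod_congr rfl fun i hi => ?_
    rw [Function.update_of_ne (Finset.ne_of_mem_erase hi)]
  · unfold dg
    simp only
    rw [← Finset.add_sum_erase Finset.univ s.1 (Finset.mem_univ k),
      ← Finset.add_sum_erase Finset.univ (Function.update s.1 k (s.1 k - j)) (Finset.mem_univ k),
      Function.update_self]
    have h1 : ∑ i ∈ Finset.univ.erase k, Function.update s.1 k (s.1 k - j) i =
        ∑ i ∈ Finset.univ.erase k, s.1 i := by
      refine Finset.sum_congr rfl fun i hi => ?_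
      rw [Function.update_of_ne (Finset.ne_of_mem_erase hi)]
    rw [h1]
    have h2 : D * (s.1 k + ∑ i ∈ Finset.univ.erase k, s.1 i) =
        D * j + D * (s.1 k - j + ∑ i ∈ Finset.univ.erase k, s.1 i) := by
      rw [← Nat.mul_add]
      congr 1
      omega
    rw [h2]
    ring

/-- the elements of degree `d` whose exponent is at least `j` -/
theorem Sm_ge {ν D : ℕ} (hD : 1 ≤ D) (E : Finset (Fin n →₀ ℕ)) (dd j : ℕ) (hj : j ≤ dd)
    (k : Fin ν) : (Sm D E ν (D * (dd - j))).card ≤
      ((Sm D E ν (D * dd)).filter fun t => j ≤ t.1 k).card := by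
  classical
  refine Finset.card_le_card_of_injOn
    (fun t => (Function.update t.1 k (t.1 k + j), t.2)) ?_ ?_
  · intro t ht
    obtain ⟨h1, h2⟩ := (mem_Sm hD E _ t).1 (Finset.mem_coe.1 ht)
    rw [Finset.mem_coe, Finset.mem_filter, mem_Sm hD]
    refine ⟨⟨h1, ?_⟩, ?_⟩
    · have h3 := (ym_split (K := ℚ) (D := D) (fun _ => (0 : MvPolynomial (Fin n) ℚ))
        (Function.update t.1 k (t.1 k + j), t.2) k j (by
          simp only [Function.update_self]
          omega)).2
      simp only [Function.update_self, Function.update_idem, Nat.add_sub_cancel,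
        Function.update_eq_self] at h3
      rw [h3]
      have h4 : dg D (t.1, t.2) = D * (dd - j) := h2
      rw [h4, ← Nat.mul_add]
      congr 1
      omega
    · simp only [Function.update_self]
      omega
  · intro t _ t' _ h
    have h1 := congrArg Prod.fst h
    have h2 := congrArg Prod.snd h
    simp only at h1 h2
    refine Prod.ext ?_ h2
    funext i
    have h3 := congrFun h1 i
    by_cases hi : i = k
    · subst hi
      rw [Function.update_self, Function.update_self] at h3
      omega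
    · rwa [Function.update_of_ne hi, Function.update_of_ne hi] at h3

end basis

end Pool.Agent.T9h24
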