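import Mathlib
import Pool.Agent.T9h24.Ysp

/-!
The exponents of the vectors of dual bases of different frames.
-/

set_option autoImplicit false
set_option linter.unusedSectionVars false

namespace Pool.Agent.T9h24

open MvPolynomial Finset Pool.Agent.TH875

/-- truncated differences as sums -/
theorem tsub_eq_sum (α : ℕ) : ∀ θ : ℕ, θ - α = ∑ i ∈ Finset.range θ, if α < i + 1 then 1 else 0
  | 0 => by simp
  | θ + 1 => by
    rw [Finset.sum_range_succ, ← tsub_eq_sum α θ]
    split_ifs <;> omega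

theorem telescope (h : ℕ → ℕ) (hh : Antitone h) (t θ : ℕ) :
    ∑ i ∈ Finset.range θ, (h (i + 1) - h (i + 1 + t)) ≤ t * h 0 := by
  have h1 : ∑ i ∈ Finset.range θ, h (i + 1) ≤ t * h 0 + ∑ i ∈ Finset.range θ, h (i + 1 + t) := by
    have h2 : ∑ i ∈ Finset.range θ, h (i + 1) ≤ ∑ i ∈ Finset.range (t + θ), h (i + 1) :=
      Finset.sum_le_sum_of_subset (Finset.range_mono (by omega))
    rw [Finset.sum_range_add] at h2
    refine h2.trans (Nat.add_le_add ?_ (le_of_eq ?_))
    · have h3 : ∑ i ∈ Finset.range t, h (i + 1) ≤ ∑ _i ∈ Finset.range t, h 0 :=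
        Finset.sum_le_sum fun i _ => hh (Nat.zero_le _)
      refine h3.trans (le_of_eq ?_)
      rw [Finset.sum_const, Finset.card_range, smul_eq_mul]
    · refine Finset.sum_congr rfl fun i _ => ?_
      congr 1
      omega
  have h2 : ∑ i ∈ Finset.range θ, (h (i + 1) - h (i + 1 + t)) +
      ∑ i ∈ Finset.range θ, h (i + 1 + t) = ∑ i ∈ Finset.range θ, h (i + 1) := by
    rw [← Finset.sum_add_distrib]
    refine Finset.sum_congr rfl fun i _ => ?_
    have := hh (show i + 1 ≤ i + 1 + t by omega)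
    omega
  omega

section thr

variable {K : Type} [Field K] {n ν D dd N : ℕ}

/-- the Hilbert function -/
noncomputable def hf (I : Ideal (MvPolynomial (Fin n) K)) (D dd j : ℕ) : ℕ :=
  if j ≤ dd then Module.finrank K (VM I (D * (dd - j))) else 0

theorem hf_anti (I : Ideal (MvPolynomial (Fin n) K)) (hI : I.IsPrime)
    (P : MvPolynomial (Fin n) K) (hP : P.IsHomogeneous D)
    (hP0 : Ideal.Quotient.mkₐ K I P ≠ 0) : Antitone (hf I D dd) := by
  intro j j' hjj
  unfold hf
  by_cases h1 : j' ≤ dd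
  · rw [if_pos h1, if_pos (hjj.trans h1)]
    obtain ⟨Y, hY, -⟩ := exists_Yj (dd := dd - j) (j := j' - j) I hI (by omega) P hP hP0
    rw [show dd - j - (j' - j) = dd - j' by omega] at hY
    rw [← hY]
    have := VM_finite I (D * (dd - j))
    exact Submodule.finrank_le Y
  · rw [if_neg h1]
    exact Nat.zero_le _

/-- the data of the adapted bases of all frames -/
structure Data (I : Ideal (MvPolynomial (Fin n) K)) (X : Type) (ν D dd N : ℕ)
    (c : Fin (N + 1) → (Fin n →₀ ℕ)) (b : Module.Basis (Fin (N + 1)) K (VM I (D * dd)))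
    (y : X → Fin (ν + 1) → MvPolynomial (Fin n) K) (E0 : X → Finset (Fin n →₀ ℕ))
    (s : X → Fin (N + 1) → (Fin (ν + 1) → ℕ) × (Fin n →₀ ℕ))
    (W : X → Matrix (Fin (N + 1)) (Fin (N + 1)) K) (t : ℕ) : Prop where
  hI : I.IsPrime
  hD : 1 ≤ D
  hb : ∀ i, ((b i : VM I (D * dd)) : MvPolynomial (Fin n) K ⧸ I) =
        Ideal.Quotient.mkₐ K I (monomial (c i) 1)
  hyh : ∀ x k, (y x k).IsHomogeneous D
  hy0 : ∀ x k, Ideal.Quotient.mkₐ K I (y x k) ≠ 0
  hW : ∀ x, (W x).det ≠ 0
  hsM : ∀ x a, dg D (s x a) = D * dd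
  hWI : ∀ x a, ym (y x) (s x a) - ∑ i, C (W x a i) * monomial (c i) 1 ∈ I
  hcard : ∀ x, (Sm D (E0 x) (ν + 1) (D * dd)).card ≤ N + 1
  hsum : ∀ x (g : (Fin (ν + 1) → ℕ) → ℕ), ∑ a, g (s x a).1 =
    ∑ t ∈ Sm D (E0 x) (ν + 1) (D * dd), g t.1 +
      (N + 1 - (Sm D (E0 x) (ν + 1) (D * dd)).card) * g 0
  hcount : ∀ x M, Module.finrank K (VM I M) ≤ (Sm D (E0 x) (ν + 1) (M + D * t)).card

variable {I : Ideal (MvPolynomial (Fin n) K)} {X : Type}
  {c : Fin (N + 1) → (Fin n →₀ ℕ)} {b : Module.Basis (Fin (N + 1)) K (VM I (D * dd))}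
  {y : X → Fin (ν + 1) → MvPolynomial (Fin n) K} {E0 : X → Finset (Fin n →₀ ℕ)}
  {s : X → Fin (N + 1) → (Fin (ν + 1) → ℕ) × (Fin n →₀ ℕ)}
  {W : X → Matrix (Fin (N + 1)) (Fin (N + 1)) K} {t : ℕ}

theorem Data.coe (Δ : Data I X ν D dd N c b y E0 s W t) (x : X) (a : Fin (N + 1)) :
    ((∑ i, W x a i • b i : VM I (D * dd)) : MvPolynomial (Fin n) K ⧸ I) =
      Ideal.Quotient.mkₐ K I (ym (y x) (s x a)) := by
  simp only [AddSubmonoidClass.coe_finsetSum, Submodule.coe_smul, Δ.hb]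
  have h1 : Ideal.Quotient.mkₐ K I (ym (y x) (s x a) - ∑ i, C (W x a i) * monomial (c i) 1) = 0 :=
    Ideal.Quotient.eq_zero_iff_mem.2 (Δ.hWI x a)
  rw [map_sub, sub_eq_zero] at h1
  rw [h1, map_sum]
  refine Finset.sum_congr rfl fun i _ => ?_
  rw [← MvPolynomial.smul_eq_C_mul, map_smul]

theorem Data.hN (_Δ : Data I X ν D dd N c b y E0 s W t) : hf I D dd 0 = N + 1 := by
  unfold hf
  rw [if_pos (Nat.zero_le _), Nat.sub_zero, Module.finrank_eq_card_basis b, Fintype.card_fin]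

theorem Data.memY (Δ : Data I X ν D dd N c b y E0 s W t) {j : ℕ} (hj : j ≤ dd)
    (Y : Submodule K (VM I (D * dd))) (P : MvPolynomial (Fin n) K)
    (hY : ∀ Q : MvPolynomial (Fin n) K, Q.IsHomogeneous (D * (dd - j)) → ∀ v : VM I (D * dd),
        (v : MvPolynomial (Fin n) K ⧸ I) = Ideal.Quotient.mkₐ K I (P ^ j * Q) → v ∈ Y)
    (x : X) (k : Fin (ν + 1)) (hP : y x k = P) (a : Fin (N + 1)) (ha : j ≤ (s x a).1 k) :
    ∑ i, W x a i • b i ∈ Y := by
  obtain ⟨h1, h2⟩ := ym_split (D := D) (y x) (s x a) k j ha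
  refine hY (ym (y x) (Function.update (s x a).1 k ((s x a).1 k - j), (s x a).2)) ?_ _ ?_
  · have h3 := ym_hom (Δ.hyh x) (Function.update (s x a).1 k ((s x a).1 k - j), (s x a).2)
    have h4 : dg D (Function.update (s x a).1 k ((s x a).1 k - j), (s x a).2) =
        D * (dd - j) := by
      rw [Δ.hsM] at h2
      have h5 : D * dd = D * j + D * (dd - j) := by
        rw [← Nat.mul_add]
        congr 1
        omega
      omega
    rwa [h4] at h3
  · rw [Δ.coe, h1, hP]

theorem Data.upper (Δ : Data I X ν D dd N c b y E0 s W t) (x : X) (k : Fin (ν + 1)) {j : ℕ}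
    (hj : j ≤ dd) :
    (Finset.univ.filter fun a => j ≤ (s x a).1 k).card ≤ hf I D dd j := by
  classical
  obtain ⟨Y, hY1, hY2⟩ := exists_Yj I Δ.hI hj (y x k) (Δ.hyh x k) (Δ.hy0 x k)
  have hfin := VM_finite I (D * dd)
  have hli : LinearIndependent K (fun a => ∑ i, W x a i • b i) := by
    have h1 : LinearIndependent K (W x).row :=
      Matrix.linearIndependent_rows_iff_isUnit.2
        ((Matrix.isUnit_iff_isUnit_det _).2 (isUnit_iff_ne_zero.2 (Δ.hW x)))
    have h2 := h1.map' b.equivFun.symm.toLinearMap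
      (LinearMap.ker_eq_bot.2 b.equivFun.symm.injective)
    have e : (fun a => ∑ i, W x a i • b i) = b.equivFun.symm.toLinearMap ∘ (W x).row :=
      funext fun a => (Module.Basis.equivFun_symm_apply _ _).symm
    rw [e]
    exact h2
  have h1 : LinearIndependent K (fun a : {a // j ≤ (s x a).1 k} =>
      (⟨∑ i, W x a i • b i, Δ.memY hj Y _ hY2 x k rfl a a.2⟩ : Y)) := by
    refine LinearIndependent.of_comp Y.subtype ?_
    exact hli.comp (fun a : {a // j ≤ (s x a).1 k} => (a : Fin (N + 1))) Subtype.val_injective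
  have h2 := h1.fintype_card_le_finrank
  rw [Fintype.card_subtype, hY1] at h2
  unfold hf
  rw [if_pos hj]
  exact h2

theorem Data.lower (Δ : Data I X ν D dd N c b y E0 s W t) (x : X) (k : Fin (ν + 1)) {j : ℕ}
    (hj : 1 ≤ j) :
    hf I D dd (j + t) ≤ (Finset.univ.filter fun a => j ≤ (s x a).1 k).card := by
  classical
  unfold hf
  split_ifs with h
  · have h1 := Δ.hsum x (fun e => if j ≤ e k then 1 else 0)
    have h2 : (if j ≤ (0 : Fin (ν + 1) → ℕ) k then 1 else 0) = 0 := by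
      rw [if_neg]
      simp only [Pi.zero_apply]
      omega
    rw [h2, mul_zero, add_zero, ← Finset.card_filter, ← Finset.card_filter] at h1
    rw [h1]
    refine le_trans ?_ (Sm_ge Δ.hD (E0 x) dd j (by omega) k)
    have h3 := Δ.hcount x (D * (dd - (j + t)))
    have h4 : D * (dd - (j + t)) + D * t = D * (dd - j) := by
      rw [← Nat.mul_add]
      congr 1
      omega
    rwa [h4] at h3
  · exact Nat.zero_le _

variable [Fintype X] [DecidableEq X]

theorem Data.count (Δ : Data I X ν D dd N c b y E0 s W t) (P : MvPolynomial (Fin n) K)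
    (T : Finset X) (kx : X → Fin (ν + 1)) (hT : ∀ x ∈ T, y x (kx x) = P)
    (f : Fin (N + 1) → X) (κ : Fin (N + 1) → Fin (N + 1))
    (hdet : (Matrix.of fun l i => (W (f l))⁻¹ i (κ l)).det ≠ 0) {j : ℕ} (hj : 1 ≤ j)
    (hj' : j ≤ dd) (J : Finset (Fin (N + 1)))
    (hJ : ∀ l ∈ J, f l ∈ T ∧ (s (f l) (κ l)).1 (kx (f l)) < j) :
    J.card + hf I D dd j ≤ N + 1 + Fintype.card X * (hf I D dd j - hf I D dd (j + t)) := by
  classical
  rcases T.eq_empty_or_nonempty with h0 | ⟨x0, hx0⟩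
  · have h1 : J = ∅ := by
      rw [Finset.eq_empty_iff_forall_notMem]
      intro l hl
      have := (hJ l hl).1
      rw [h0] at this
      exact absurd this (Finset.notMem_empty _)
    rw [h1, Finset.card_empty, zero_add]
    have h2 : hf I D dd j ≤ hf I D dd 0 :=
      hf_anti I Δ.hI (y (f 0) 0) (Δ.hyh _ _) (Δ.hy0 _ _) (Nat.zero_le _)
    rw [Δ.hN] at h2
    omega
  · obtain ⟨Y, hY1, hY2⟩ := exists_Yj I Δ.hI hj' P (by
      rw [← hT x0 hx0]
      exact Δ.hyh _ _) (by
      rw [← hT x0 hx0]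
      exact Δ.hy0 _ _)
    have hfin := VM_finite I (D * dd)
    have hYh : Module.finrank K Y = hf I D dd j := by
      unfold hf
      rw [if_pos hj', hY1]
    have h1 := count_main b W Δ.hW (fun x a => (s x a).1 (kx x)) T j Y
      (fun x hx a ha => Δ.memY hj' Y P hY2 x (kx x) (hT x hx) a ha)
      (hf I D dd j - hf I D dd (j + t)) (fun x _ => by
        rw [hYh]
        have h2 := Δ.lower x (kx x) hj
        omega) f κ hdet J hJ
    rw [hYh] at h1
    have h2 : T.card * (hf I D dd j - hf I D dd (j + t)) ≤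
        Fintype.card X * (hf I D dd j - hf I D dd (j + t)) :=
      Nat.mul_le_mul_right _ (Finset.card_le_univ T)
    omega

/-- **The bound for one threshold.** -/
theorem Data.threshold (Δ : Data I X ν D dd N c b y E0 s W t) (x0 : X) (k0 : Fin (ν + 1))
    (P : MvPolynomial (Fin n) K)
    (T : Finset X) (kx : X → Fin (ν + 1)) (hT : ∀ x ∈ T, y x (kx x) = P)
    (f : Fin (N + 1) → X) (κ : Fin (N + 1) → Fin (N + 1))
    (hdet : (Matrix.of fun l i => (W (f l))⁻¹ i (κ l)).det ≠ 0) {θ : ℕ} (hθ : θ ≤ dd)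
    (J : Finset (Fin (N + 1))) (hJ : ∀ l ∈ J, f l ∈ T) :
    ∑ l ∈ J, (θ - (s (f l) (κ l)).1 (kx (f l))) ≤
      ∑ a, (θ - (s x0 a).1 k0) + Fintype.card X * t * (N + 1) := by
  classical
  have hanti := hf_anti (dd := dd) I Δ.hI (y x0 k0) (Δ.hyh x0 k0) (Δ.hy0 x0 k0)
  have h1 : ∑ l ∈ J, (θ - (s (f l) (κ l)).1 (kx (f l))) = ∑ i ∈ Finset.range θ,
      (J.filter fun l => (s (f l) (κ l)).1 (kx (f l)) < i + 1).card := by
    have h2 : ∀ l ∈ J, (θ - (s (f l) (κ l)).1 (kx (f l))) = ∑ i ∈ Finset.range θ,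
        if (s (f l) (κ l)).1 (kx (f l)) < i + 1 then 1 else 0 := fun l _ => tsub_eq_sum _ _
    rw [Finset.sum_congr rfl h2, Finset.sum_comm]
    exact Finset.sum_congr rfl fun i _ => (Finset.card_filter _ _).symm
  have h3 : ∑ a, (θ - (s x0 a).1 k0) = ∑ i ∈ Finset.range θ,
      (Finset.univ.filter fun a => (s x0 a).1 k0 < i + 1).card := by
    have h2 : ∀ a ∈ (Finset.univ : Finset (Fin (N + 1))), (θ - (s x0 a).1 k0) =
        ∑ i ∈ Finset.range θ, if (s x0 a).1 k0 < i + 1 then 1 else 0 := fun a _ => tsub_eq_sum _ _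
    rw [Finset.sum_congr rfl h2, Finset.sum_comm]
    exact Finset.sum_congr rfl fun i _ => (Finset.card_filter _ _).symm
  have h4 := telescope (hf I D dd) hanti t θ
  rw [Δ.hN] at h4
  rw [h1, h3]
  have h5 : ∀ i ∈ Finset.range θ,
      (J.filter fun l => (s (f l) (κ l)).1 (kx (f l)) < i + 1).card ≤
        (Finset.univ.filter fun a => (s x0 a).1 k0 < i + 1).card +
          Fintype.card X * (hf I D dd (i + 1) - hf I D dd (i + 1 + t)) := by
    intro i hi
    have hi' : i + 1 ≤ dd := by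
      have := Finset.mem_range.1 hi
      omega
    have h6 := Δ.count P T kx hT f κ hdet (j := i + 1) (by omega) hi'
      (J.filter fun l => (s (f l) (κ l)).1 (kx (f l)) < i + 1) (fun l hl => by
        obtain ⟨e1, e2⟩ := Finset.mem_filter.1 hl
        exact ⟨hJ l e1, e2⟩)
    have h7 := Δ.upper x0 k0 hi'
    have h8 := Finset.card_filter_add_card_filter_not (s := (Finset.univ : Finset (Fin (N + 1))))
      (fun a => i + 1 ≤ (s x0 a).1 k0)
    rw [Finset.card_univ, Fintype.card_fin] at h8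
    have h9 : (Finset.univ.filter fun a => ¬ i + 1 ≤ (s x0 a).1 k0) =
        Finset.univ.filter fun a => (s x0 a).1 k0 < i + 1 :=
      Finset.filter_congr fun a _ => by omega
    rw [h9] at h8
    omega
  refine (Finset.sum_le_sum h5).trans ?_
  rw [Finset.sum_add_distrib, ← Finset.mul_sum]
  refine Nat.add_le_add_left ?_ _
  rw [mul_assoc]
  exact Nat.mul_le_mul_left _ h4

end thr

end Pool.Agent.T9h24
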