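import Mathlib
import Pool.Agent.T9h24.Yth
import Pool.Agent.T9h24.Ylr

/-!
The mixed determinants with the order statistics of the conjugates.
-/

set_option autoImplicit false
set_option linter.unusedSectionVars false

open Finset MvPolynomial NumberField IsDedekindDomain

namespace Pool.Agent.T9h24

open Pool.Agent.TH875 (ym dg VM)

/-- **Vectors which are small in different bases.** -/
theorem multi_bound2 {F H : Type} [NormedField F] {N : ℕ}
    (W : H → Matrix (Fin (N + 1)) (Fin (N + 1)) F)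
    (hW : ∀ τ, (W τ).det ≠ 0) (σ : Fin (N + 1) → H) (ξ : Fin (N + 1) → Fin (N + 1) → F)
    (M0 R : ℝ) (hR : 0 ≤ R) (hM0 : 0 ≤ M0)
    (hM : ∀ κ : Fin (N + 1) → Fin (N + 1),
      ‖(Matrix.of fun l j => (W (σ l))⁻¹ j (κ l)).det‖ ≤ M0)
    (h : ∀ κ : Fin (N + 1) → Fin (N + 1),
      (Matrix.of fun l j => (W (σ l))⁻¹ j (κ l)).det ≠ 0 →
      ∏ l, ‖∑ i, W (σ l) (κ l) i * ξ l i‖ ≤ R) :
    ‖(Matrix.of ξ).det‖ ≤ ((N : ℝ) + 1) ^ (N + 1) * (R * M0) := by
  classical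
  have h1 : ξ = fun l j => ∑ k, (∑ i, W (σ l) k i * ξ l i) * (fun l k j => (W (σ l))⁻¹ j k) l k j :=
    funext fun l => col_expand (W (σ l)) (hW _) (ξ l)
  have h2 : (Matrix.of ξ).det = ∑ κ : Fin (N + 1) → Fin (N + 1),
      (∏ l, (∑ i, W (σ l) (κ l) i * ξ l i)) *
        (Matrix.of fun l j => (W (σ l))⁻¹ j (κ l)).det := by
    conv_lhs => rw [h1]
    exact multi_expand (fun l k => ∑ i, W (σ l) k i * ξ l i) (fun l k j => (W (σ l))⁻¹ j k)
  rw [h2]
  refine (norm_sum_le _ _).trans ?_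
  have h3 : ∀ κ ∈ (Finset.univ : Finset (Fin (N + 1) → Fin (N + 1))),
      ‖(∏ l, (∑ i, W (σ l) (κ l) i * ξ l i)) *
        (Matrix.of fun l j => (W (σ l))⁻¹ j (κ l)).det‖ ≤ R * M0 := by
    intro κ _
    by_cases hκ : (Matrix.of fun l j => (W (σ l))⁻¹ j (κ l)).det = 0
    · rw [hκ, mul_zero, norm_zero]
      exact mul_nonneg hR hM0
    · rw [norm_mul, norm_prod]
      exact mul_le_mul (h κ hκ) (hM κ) (norm_nonneg _) hR
  refine (Finset.sum_le_sum h3).trans (le_of_eq ?_)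
  rw [Finset.sum_const, Finset.card_univ, Fintype.card_fun, Fintype.card_fin, nsmul_eq_mul]
  push_cast
  ring

/-- the number of entries of a tuple in a set -/
def cntA {H : Type} [DecidableEq H] {N : ℕ} (σ : Fin N → H) (A : Finset H) : ℕ :=
  (Finset.univ.filter fun l => σ l ∈ A).card

section thr

variable {K : Type} [Field K] {n ν D dd N : ℕ}
  {I : Ideal (MvPolynomial (Fin n) K)} {X : Type}
  {c : Fin (N + 1) → (Fin n →₀ ℕ)} {b : Module.Basis (Fin (N + 1)) K (VM I (D * dd))}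
  {y : X → Fin (ν + 1) → MvPolynomial (Fin n) K} {E0 : X → Finset (Fin n →₀ ℕ)}
  {s : X → Fin (N + 1) → (Fin (ν + 1) → ℕ) × (Fin n →₀ ℕ)}
  {W : X → Matrix (Fin (N + 1)) (Fin (N + 1)) K} {t : ℕ}
  [Fintype X] [DecidableEq X]

/-- **The combinatorial bound.** -/
theorem weight_layers (Δ : Data I X ν D dd N c b y E0 s W t) {q r : ℕ} (x0 : X)
    (fr : X → Fin (ν + 1) → Fin q) (P : Fin q → MvPolynomial (Fin n) K)
    (hyP : ∀ x k, y x k = P (fr x k)) {H : Type} [Fintype H] [DecidableEq H]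
    (θ : Fin r → ℕ) (hθ : ∀ u, θ u ≤ dd) (e : H → X) (μ : H → Fin q → ℝ)
    (hμ : ∀ τ i, μ τ i ≠ 0 → ∃ k, fr (e τ) k = i)
    (δ : Fin q → Fin r → ℝ) (As : Fin q → Fin r → Finset H) (hδ : ∀ i u, 0 ≤ δ i u)
    (hμδ : ∀ τ i, μ τ i = ∑ u, if τ ∈ As i u then δ i u else 0)
    (hδμ : ∀ i u, δ i u ≠ 0 → ∀ τ ∈ As i u, μ τ i ≠ 0)
    (σ : Fin (N + 1) → H) (κ : Fin (N + 1) → Fin (N + 1))
    (hdet : (Matrix.of fun l i => (W (e (σ l)))⁻¹ i (κ l)).det ≠ 0) :
    ∑ i, ∑ u, δ i u * ((θ u : ℝ) * cntA σ (As i u) -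
      ((∑ a, (θ u - (s x0 a).1 0) + Fintype.card X * t * (N + 1) : ℕ) : ℝ)) ≤
      ∑ l, ∑ k, ((s (e (σ l)) (κ l)).1 k : ℝ) * μ (σ l) (fr (e (σ l)) k) := by
  classical
  -- the exponents of the divisors
  set α : Fin (N + 1) → Fin q → ℕ := fun l i =>
    ∑ k, if fr (e (σ l)) k = i then (s (e (σ l)) (κ l)).1 k else 0 with hα
  have h1 : ∀ l, ∑ k, ((s (e (σ l)) (κ l)).1 k : ℝ) * μ (σ l) (fr (e (σ l)) k) =
      ∑ i, (α l i : ℝ) * μ (σ l) i := by
    intro l
    simp only [hα]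
    push_cast
    simp only [Finset.sum_mul]
    rw [Finset.sum_comm]
    refine Finset.sum_congr rfl fun k _ => ?_
    simp only [ite_mul, zero_mul]
    rw [Finset.sum_ite_eq Finset.univ (fr (e (σ l)) k)
      (fun i => ((s (e (σ l)) (κ l)).1 k : ℝ) * μ (σ l) i), if_pos (Finset.mem_univ _)]
  have h2 : ∑ l, ∑ k, ((s (e (σ l)) (κ l)).1 k : ℝ) * μ (σ l) (fr (e (σ l)) k) =
      ∑ i, ∑ u, δ i u * ((∑ l ∈ Finset.univ.filter (fun l => σ l ∈ As i u), α l i : ℕ) : ℝ) := by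
    simp only [h1]
    rw [Finset.sum_comm]
    refine Finset.sum_congr rfl fun i _ => ?_
    have h3 : ∀ l ∈ (Finset.univ : Finset (Fin (N + 1))), (α l i : ℝ) * μ (σ l) i =
        ∑ u, if σ l ∈ As i u then δ i u * (α l i : ℝ) else 0 := by
      intro l _
      rw [hμδ, Finset.mul_sum]
      refine Finset.sum_congr rfl fun u _ => ?_
      split_ifs
      · ring
      · ring
    rw [Finset.sum_congr rfl h3, Finset.sum_comm]
    refine Finset.sum_congr rfl fun u _ => ?_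
    push_cast
    rw [Finset.mul_sum, Finset.sum_filter]
  rw [h2]
  refine Finset.sum_le_sum fun i _ => Finset.sum_le_sum fun u _ => ?_
  rcases eq_or_ne (δ i u) 0 with h0 | h0
  · rw [h0, zero_mul, zero_mul]
  · refine mul_le_mul_of_nonneg_left ?_ (hδ i u)
    -- the frames which contain the divisor
    set T : Finset X := Finset.univ.filter fun x => ∃ k, fr x k = i with hT
    set kx : X → Fin (ν + 1) := fun x => if h : ∃ k, fr x k = i then h.choose else 0 with hkx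
    have hkx' : ∀ x ∈ T, fr x (kx x) = i := by
      intro x hx
      have hx' : ∃ k, fr x k = i := (Finset.mem_filter.1 hx).2
      simp only [hkx]
      rw [dif_pos hx']
      exact hx'.choose_spec
    have hJ : ∀ l ∈ Finset.univ.filter (fun l => σ l ∈ As i u), e (σ l) ∈ T := by
      intro l hl
      rw [hT, Finset.mem_filter]
      exact ⟨Finset.mem_univ _, hμ _ _ (hδμ i u h0 (σ l) (Finset.mem_filter.1 hl).2)⟩
    have h3 := Δ.threshold x0 0 (P i) T kx (fun x hx => by rw [hyP, hkx' x hx])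
      (fun l => e (σ l)) κ hdet (hθ u) (Finset.univ.filter fun l => σ l ∈ As i u) hJ
    have h4 : ∀ l ∈ Finset.univ.filter (fun l => σ l ∈ As i u),
        (s (e (σ l)) (κ l)).1 (kx (e (σ l))) ≤ α l i := by
      intro l hl
      simp only [hα]
      have h5 := Finset.single_le_sum (f := fun k => if fr (e (σ l)) k = i then
        (s (e (σ l)) (κ l)).1 k else 0) (fun _ _ => Nat.zero_le _)
        (Finset.mem_univ (kx (e (σ l))))
      simp only [hkx' _ (hJ l hl), if_true] at h5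
      exact h5
    have h5 : θ u * cntA σ (As i u) ≤ ∑ l ∈ Finset.univ.filter (fun l => σ l ∈ As i u), α l i +
        (∑ a, (θ u - (s x0 a).1 0) + Fintype.card X * t * (N + 1)) := by
      have h6 : θ u * cntA σ (As i u) =
          ∑ _l ∈ Finset.univ.filter (fun l => σ l ∈ As i u), θ u := by
        rw [Finset.sum_const, smul_eq_mul, mul_comm]
        rfl
      rw [h6]
      refine le_trans ?_ (Nat.add_le_add_left h3 _)
      rw [← Finset.sum_add_distrib]
      refine Finset.sum_le_sum fun l hl => ?_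
      have := h4 l hl
      omega
    have h6 : ((θ u * cntA σ (As i u) : ℕ) : ℝ) ≤
        ((∑ l ∈ Finset.univ.filter (fun l => σ l ∈ As i u), α l i +
        (∑ a, (θ u - (s x0 a).1 0) + Fintype.card X * t * (N + 1)) : ℕ) : ℝ) := by
      exact_mod_cast h5
    rw [Nat.cast_mul, Nat.cast_add (∑ l ∈ _, _)] at h6
    linarith

end thr

open Classical in
/-- **One place.** -/
theorem mixedY {n ν D dd N : ℕ} {I : Ideal (MvPolynomial (Fin n) (AlgebraicClosure ℚ))}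
    {X : Type} [Fintype X]
    {c : Fin (N + 1) → (Fin n →₀ ℕ)}
    {b : Module.Basis (Fin (N + 1)) (AlgebraicClosure ℚ) (VM I (D * dd))}
    {y : X → Fin (ν + 1) → MvPolynomial (Fin n) (AlgebraicClosure ℚ)}
    {E0 : X → Finset (Fin n →₀ ℕ)}
    {s : X → Fin (N + 1) → (Fin (ν + 1) → ℕ) × (Fin n →₀ ℕ)}
    {W : X → Matrix (Fin (N + 1)) (Fin (N + 1)) (AlgebraicClosure ℚ)} {t : ℕ}
    (Δ : Data I X ν D dd N c b y E0 s W t)
    {F : Type} [NormedField F] [CharZero F] [IsAlgClosed F]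
    (G' : Polynomial ℤ) (hG' : G' ≠ 0)
    (hWr : ∀ e a i, W e a i ∈ (mp (AlgebraicClosure ℚ) G').roots) {q r : ℕ} (x0 : X)
    (fr : X → Fin (ν + 1) → Fin q) (P : Fin q → MvPolynomial (Fin n) (AlgebraicClosure ℚ))
    (hyP : ∀ x k, y x k = P (fr x k)) (θ : Fin r → ℕ) (hθ : ∀ u, θ u ≤ dd)
    (A : ℝ) (hA : 1 ≤ A) : ∃ K0 : ℝ,
    ∀ (E : Type) [Field E] [NumberField E] (Y : Fin (N + 1) → 𝓞 E), Y ≠ 0 →
      ∀ (e : (E →+* F) → X) (j : AlgebraicClosure ℚ →+* F) (μ : (E →+* F) → Fin q → ℝ),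
      (∀ τ i, μ τ i ≠ 0 → ∃ k, fr (e τ) k = i) →
      (∀ τ a, ‖lf (fun i => j (W (e τ) a i)) (fun i => τ (Y i : E))‖ ≤
        A * ‖fun i => τ (Y i : E)‖ *
          Real.exp (-∑ k, ((s (e τ) a).1 k : ℝ) * μ τ (fr (e τ) k))) →
      ∀ (δ : Fin q → Fin r → ℝ) (As : Fin q → Fin r → Finset (E →+* F)),
      (∀ i u, 0 ≤ δ i u) → (∀ τ i, μ τ i = ∑ u, if τ ∈ As i u then δ i u else 0) →
      (∀ i u, δ i u ≠ 0 → ∀ τ ∈ As i u, μ τ i ≠ 0) →
      Mixed F G' Y (fun σ => ∑ i, ∑ u, δ i u * ((θ u : ℝ) * cntA σ (As i u) -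
        ((∑ a, (θ u - (s x0 a).1 0) + Fintype.card X * t * (N + 1) : ℕ) : ℝ)) - K0) := by
  set RF : Finset F := (mp F G').roots.toFinset with hRF
  obtain ⟨M0, hM1, hM0⟩ := exists_big (fun p : (Fin (N + 1) → Fin (N + 1) → Fin (N + 1) → RF) ×
    (Fin (N + 1) → Fin (N + 1)) => ‖(Matrix.of fun l i =>
      (Matrix.of fun a b => (p.1 l a b : F))⁻¹ i (p.2 l)).det‖)
  have hA0 : (0 : ℝ) < A := by linarith
  have hM00 : (0 : ℝ) < M0 := by exact_mod_cast hM1
  set KK : ℝ := ((N : ℝ) + 1) ^ (N + 1) * (A ^ (N + 1) * M0) with hKK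
  have hKK0 : 0 < KK := by
    rw [hKK]
    positivity
  refine ⟨Real.log KK, fun E _ _ Y hY e j μ hμ hval δ As hδ hμδ hδμ => ?_⟩
  intro σ ξ hξ
  have hℓ : ∀ τ : E →+* F, (fun i => τ (Y i : E)) ≠ 0 := by
    intro τ h0
    apply hY
    funext i
    have h1 : τ (Y i : E) = 0 := congrFun h0 i
    exact RingOfIntegers.ext (by simpa using h1)
  set Ξ : ℝ := ∑ i, ∑ u, δ i u * ((θ u : ℝ) * cntA σ (As i u) -
        ((∑ a, (θ u - (s x0 a).1 0) + Fintype.card X * t * (N + 1) : ℕ) : ℝ)) with hΞ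
  have hr : ∀ τ a i, j (W (e τ) a i) ∈ (mp F G').roots := fun τ a i =>
    map_root hG' (hWr _ _ _) _
  have hval2 : ∀ l a, ‖∑ i, (W (e (σ l))).map j a i * ξ l i‖ ≤ A *
      Real.exp (-∑ k, ((s (e (σ l)) a).1 k : ℝ) * μ (σ l) (fr (e (σ l)) k)) := by
    intro l a
    have h1 := hξ l (fun i => j (W (e (σ l)) a i)) fun i => hr _ _ _
    have h2 := h1.trans (hval (σ l) a)
    have h3 : 0 < ‖fun i => σ l (Y i : E)‖ := norm_pos_iff.2 (hℓ _)
    have h4 : A * ‖fun i => σ l (Y i : E)‖ *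
        Real.exp (-∑ k, ((s (e (σ l)) a).1 k : ℝ) * μ (σ l) (fr (e (σ l)) k)) =
        (A * Real.exp (-∑ k, ((s (e (σ l)) a).1 k : ℝ) * μ (σ l) (fr (e (σ l)) k))) *
          ‖fun i => σ l (Y i : E)‖ := by
      ring
    rw [h4] at h2
    exact le_of_mul_le_mul_right h2 h3
  have hdet : ∀ x, ((W x).map j).det ≠ 0 := by
    intro x
    have h1 : ((W x).map j).det = j (W x).det := (RingHom.map_det _ _).symm
    rw [h1]
    exact (map_ne_zero _).2 (Δ.hW _)
  have hinv : ∀ x, ((W x).map j)⁻¹ = ((W x)⁻¹).map j := by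
    intro x
    apply Matrix.inv_eq_right_inv
    rw [← Matrix.map_mul, Matrix.mul_nonsing_inv _ (isUnit_iff_ne_zero.2 (Δ.hW x)),
      Matrix.map_one _ (map_zero j) (map_one j)]
  have hmain := multi_bound2 (fun τ : E →+* F => (W (e τ)).map j) (fun τ => hdet _) σ ξ M0
    (A ^ (N + 1) * Real.exp (-Ξ)) (by positivity) hM00.le (fun κ => by
      have h2 := hM0 (fun l a b => ⟨j (W (e (σ l)) a b),
        Multiset.mem_toFinset.2 (hr _ _ _)⟩, κ)
      exact h2)
    (fun κ hκ => by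
      have h1 : ∏ l, ‖∑ i, (W (e (σ l))).map j (κ l) i * ξ l i‖ ≤ ∏ l, (A *
          Real.exp (-∑ k, ((s (e (σ l)) (κ l)).1 k : ℝ) * μ (σ l) (fr (e (σ l)) k))) :=
        Finset.prod_le_prod (fun l _ => norm_nonneg _) fun l _ => hval2 l (κ l)
      refine h1.trans ?_
      rw [Finset.prod_mul_distrib, Finset.prod_const, Finset.card_univ, Fintype.card_fin,
        ← Real.exp_sum, Finset.sum_neg_distrib]
      refine mul_le_mul_of_nonneg_left (Real.exp_le_exp.2 (neg_le_neg ?_)) (by positivity)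
      refine weight_layers Δ x0 fr P hyP θ hθ e μ hμ δ As hδ hμδ hδμ σ κ ?_
      intro h0
      apply hκ
      have h2 : (Matrix.of fun l i => ((W (e (σ l))).map j)⁻¹ i (κ l)) =
          (Matrix.of fun l i => (W (e (σ l)))⁻¹ i (κ l)).map j := by
        ext l i
        rw [Matrix.of_apply, Matrix.map_apply, Matrix.of_apply, hinv, Matrix.map_apply]
      have h3 : ((Matrix.of fun l i => (W (e (σ l)))⁻¹ i (κ l)).map j).det =
          j (Matrix.of fun l i => (W (e (σ l)))⁻¹ i (κ l)).det := (RingHom.map_det _ _).symm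
      rw [h2, h3, h0, map_zero])
  refine hmain.trans (le_of_eq ?_)
  have h1 : -(Ξ - Real.log KK) = -Ξ + Real.log KK := by ring
  show _ = Real.exp (-(Ξ - Real.log KK))
  rw [h1, Real.exp_add, Real.exp_log hKK0, hKK]
  ring

open Classical in
/-- the sum of the bounds over the tuples -/
theorem sum_cntA {H : Type} [Fintype H] {N : ℕ} (A : Finset H) :
    ∑ σ : Fin (N + 1) → H, (cntA σ A : ℝ) =
      ((N : ℝ) + 1) * (Fintype.card H : ℝ) ^ N * A.card := by
  have h1 : ∀ σ : Fin (N + 1) → H, (cntA σ A : ℝ) = ∑ l, if σ l ∈ A then (1 : ℝ) else 0 := by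
    intro σ
    unfold cntA
    rw [Finset.card_filter]
    push_cast
    rfl
  simp only [h1]
  rw [Finset.sum_comm]
  have h2 : ∀ l ∈ (Finset.univ : Finset (Fin (N + 1))),
      ∑ σ : Fin (N + 1) → H, (if σ l ∈ A then (1 : ℝ) else 0) =
        (Fintype.card H : ℝ) ^ N * A.card := by
    intro l _
    rw [sum_tuples (fun τ => if τ ∈ A then (1 : ℝ) else 0) l]
    congr 1
    rw [Finset.sum_ite_mem, Finset.univ_inter, Finset.sum_const, nsmul_eq_mul, mul_one]
  rw [Finset.sum_congr rfl h2, Finset.sum_const, Finset.card_univ, Fintype.card_fin,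
    nsmul_eq_mul]
  push_cast
  ring

open Classical in
/-- the sum of the bounds -/
theorem sum_PhiY {N q : ℕ} {H : Type} [Fintype H] {r : ℕ} (hr : 1 ≤ r)
    (hH : Fintype.card H = r) (θ : Fin r → ℕ) (T : Fin r → ℝ) (L0 : ℝ) (κ : Fin r → ℝ)
    (hT : ∀ u, L0 * κ u ≤ (θ u : ℝ) * ((N : ℝ) + 1) - r / (u + 1) * T u)
    (δ : Fin q → Fin r → ℝ) (hδ : ∀ i u, 0 ≤ δ i u) (As : Fin q → Fin r → Finset H)
    (hAs : ∀ i u, (As i u).card = u + 1) (K0 : ℝ) :
    (r : ℝ) ^ N * (L0 * ∑ i, ∑ u, δ i u * ((u + 1) * κ u)) - (r : ℝ) ^ (N + 1) * K0 ≤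
      ∑ σ : Fin (N + 1) → H,
        (∑ i, ∑ u, δ i u * ((θ u : ℝ) * cntA σ (As i u) - T u) - K0) := by
  have hr0 : (0 : ℝ) < r := by exact_mod_cast hr
  rw [Finset.sum_sub_distrib]
  have h1 : ∑ σ : Fin (N + 1) → H, ∑ i, ∑ u, δ i u * ((θ u : ℝ) * cntA σ (As i u) - T u) =
      ∑ i, ∑ u, δ i u * ((θ u : ℝ) * (((N : ℝ) + 1) * (r : ℝ) ^ N * (u + 1)) -
        (r : ℝ) ^ (N + 1) * T u) := by
    rw [Finset.sum_comm]
    refine Finset.sum_congr rfl fun i _ => ?_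
    rw [Finset.sum_comm]
    refine Finset.sum_congr rfl fun u _ => ?_
    rw [← Finset.mul_sum, Finset.sum_sub_distrib, ← Finset.mul_sum, sum_cntA, hAs, hH,
      Finset.sum_const, Finset.card_univ, Fintype.card_fun, Fintype.card_fin, hH, nsmul_eq_mul]
    push_cast
    ring
  rw [h1, Finset.sum_const, Finset.card_univ, Fintype.card_fun, Fintype.card_fin, hH,
    nsmul_eq_mul]
  push_cast
  refine sub_le_sub_right ?_ _
  rw [Finset.mul_sum, Finset.mul_sum]
  refine Finset.sum_le_sum fun i _ => ?_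
  rw [Finset.mul_sum, Finset.mul_sum]
  refine Finset.sum_le_sum fun u _ => ?_
  have hu0 : (0 : ℝ) < (u : ℝ) + 1 := by positivity
  have h2 := mul_le_mul_of_nonneg_left (hT u) (mul_nonneg (pow_nonneg hr0.le N)
    (mul_nonneg hu0.le (hδ i u)))
  have h3 : (r : ℝ) ^ N * ((u + 1) * δ i u) * ((θ u : ℝ) * ((N : ℝ) + 1) - r / (u + 1) * T u) =
      δ i u * ((θ u : ℝ) * (((N : ℝ) + 1) * (r : ℝ) ^ N * (u + 1)) -
        (r : ℝ) ^ (N + 1) * T u) := by
    rw [pow_succ]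
    field_simp
  rw [h3] at h2
  refine le_trans (le_of_eq ?_) h2
  ring

end Pool.Agent.T9h24
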