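import Mathlib
import Pool.Agent.T9h24.Ymx

/-!
The inequality with the order statistics of the conjugates, integral coordinates.
-/

set_option autoImplicit false
set_option linter.unusedSectionVars false

open Finset MvPolynomial NumberField IsDedekindDomain

namespace Pool.Agent.T9h24

open Pool.Agent.TH875 (ym dg VM VM_le VM_finite Ind Sm alg_ind module_main)

/-- the ordered mean: the minimum over all numberings -/
noncomputable def Lst {H : Type} (ν r : ℕ) (f : H → ℝ) : ℝ :=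
  ⨅ π : Fin r ≃ H, ∑ u : Fin r, (gq ν (((u : ℝ) + 1) / r) - gq ν ((u : ℝ) / r)) * f (π u)

theorem Lst_le {H : Type} [Finite H] (ν r : ℕ) (f : H → ℝ) (π : Fin r ≃ H) :
    Lst ν r f ≤ ∑ u : Fin r, (gq ν (((u : ℝ) + 1) / r) - gq ν ((u : ℝ) / r)) * f (π u) :=
  ciInf_le (Set.finite_range _).bddBelow π

theorem weight_nonneg {ν r : ℕ} (hν : 1 ≤ ν) (hr : 1 ≤ r) (u : Fin r) :
    0 ≤ gq ν (((u : ℝ) + 1) / r) - gq ν ((u : ℝ) / r) := by
  have hr0 : (0 : ℝ) < r := by exact_mod_cast hr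
  rw [sub_nonneg]
  refine gq_mono hν (div_le_div_of_nonneg_right (by linarith) hr0.le) (by positivity) ?_
  rw [div_le_one hr0]
  have h1 : (u : ℕ) + 1 ≤ r := u.2
  exact_mod_cast h1

theorem Lst_mono {H : Type} [Fintype H] {ν r : ℕ} (hν : 1 ≤ ν) (hr : 1 ≤ r)
    (hH : Fintype.card H = r) (f g : H → ℝ) (h : ∀ τ, f τ ≤ g τ) : Lst ν r f ≤ Lst ν r g := by
  have hne : Nonempty (Fin r ≃ H) := ⟨(Fintype.equivFinOfCardEq hH).symm⟩
  refine le_ciInf fun π => (Lst_le ν r f π).trans ?_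
  exact Finset.sum_le_sum fun u _ => mul_le_mul_of_nonneg_left (h _) (weight_nonneg hν hr u)

/-- one place: the layers of all divisors -/
theorem place_layers {n' q : ℕ} {H : Type} [Fintype H] [DecidableEq H] {ν r : ℕ} (hr : 1 ≤ r)
    (hH : Fintype.card H = r) (θ : Fin r → ℕ) (T : Fin r → ℝ) (L0 η : ℝ) (hL0 : 0 ≤ L0)
    (hη : 0 ≤ η)
    (hT : ∀ u : Fin r, L0 * (η * (r / (u + 1) * gq ν (((u : ℝ) + 1) / r))) ≤
      (θ u : ℝ) * ((n' : ℝ) + 1) - r / (u + 1) * T u)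
    (μ : H → Fin q → ℝ) (hμ : ∀ τ i, 0 ≤ μ τ i) :
    ∃ (δ : Fin q → Fin r → ℝ) (As : Fin q → Fin r → Finset H), (∀ i u, 0 ≤ δ i u) ∧
      (∀ τ i, μ τ i = ∑ u, if τ ∈ As i u then δ i u else 0) ∧
      (∀ i u, δ i u ≠ 0 → ∀ τ ∈ As i u, μ τ i ≠ 0) ∧
      ∀ K0 : ℝ, (r : ℝ) ^ n' * (L0 * (η * (r * ∑ i, Lst ν r fun τ => μ τ i))) -
        (r : ℝ) ^ (n' + 1) * K0 ≤ ∑ σ : Fin (n' + 1) → H,
          (∑ i, ∑ u, δ i u * ((θ u : ℝ) * cntA σ (As i u) - T u) - K0) := by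
  classical
  have hr0 : (0 : ℝ) < r := by exact_mod_cast hr
  choose π δ As h1 h2 h3 h4 h5 using fun i => layers hH (fun τ => μ τ i) (fun τ => hμ τ i)
  refine ⟨δ, As, h1, fun τ i => h3 i τ, fun i u hu τ hτ => h4 i u hu τ hτ, fun K0 => ?_⟩
  have h6 := sum_PhiY (N := n') hr hH θ T L0
    (fun u : Fin r => η * (r / (u + 1) * gq ν (((u : ℝ) + 1) / r))) hT δ h1 As h2 K0
  have h7 : ∑ σ : Fin (n' + 1) → H,
      (∑ i, ∑ u, δ i u * ((θ u : ℝ) * cntA σ (As i u) - T u) - K0) =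
      ∑ σ : Fin (n' + 1) → H,
        (∑ i, ∑ u, δ i u * ((θ u : ℝ) *
          @cntA H (Classical.decEq H) _ σ (As i u) - T u) - K0) := by
    refine Finset.sum_congr rfl fun σ _ => ?_
    congr 1
    refine Finset.sum_congr rfl fun i _ => Finset.sum_congr rfl fun u _ => ?_
    have e : cntA σ (As i u) = @cntA H (Classical.decEq H) _ σ (As i u) := by
      unfold cntA
      congr
    rw [e]
  rw [h7]
  have h9 : ∀ σ : Fin (n' + 1) → H, ∀ i u, @cntA H (Classical.decEq H) _ σ (As i u) =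
      @cntA H (fun a b => Classical.propDecidable (a = b)) _ σ (As i u) := by
    intro σ i u
    unfold cntA
    congr
  refine le_trans ?_ (h6.trans (le_of_eq ?_))
  · refine sub_le_sub_right ?_ _
    refine mul_le_mul_of_nonneg_left (mul_le_mul_of_nonneg_left ?_ hL0) (by positivity)
    rw [Finset.mul_sum, Finset.mul_sum]
    refine Finset.sum_le_sum fun i _ => ?_
    have e1 : ∑ u : Fin r, δ i u * (((u : ℝ) + 1) *
        (η * (r / (u + 1) * gq ν (((u : ℝ) + 1) / r)))) =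
        η * (r * ∑ u : Fin r, δ i u * gq ν (((u : ℝ) + 1) / r)) := by
      rw [Finset.mul_sum, Finset.mul_sum]
      refine Finset.sum_congr rfl fun u _ => ?_
      have hu0 : (0 : ℝ) < (u : ℝ) + 1 := by positivity
      field_simp
    rw [e1]
    refine mul_le_mul_of_nonneg_left (mul_le_mul_of_nonneg_left ?_ hr0.le) hη
    have e2 := h5 i (fun s => gq ν ((s : ℝ) / r)) (by
      simp only [Nat.cast_zero, zero_div]
      exact gq_zero ν)
    push_cast at e2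
    rw [e2]
    exact Lst_le ν r _ (π i)
  · refine Finset.sum_congr rfl fun σ _ => ?_
    congr 1

theorem degY {m n q ν : ℕ} (hν : 1 ≤ ν) (r : ℕ) (hr : 1 ≤ r)
    (G : Fin m → MvPolynomial (Fin (n + 1)) ℚ)
    (g : Fin m → ℕ) (hG : ∀ k, (G k).IsHomogeneous (g k)) (hX : (idX G).IsPrime)
    (hdim : Algebra.trdeg (AlgebraicClosure ℚ)
      (MvPolynomial (Fin (n + 1)) (AlgebraicClosure ℚ) ⧸ idX G) = ((ν + 1 : ℕ) : Cardinal))
    (Fo : Fin q → MvPolynomial (Fin (n + 1)) (AlgebraicClosure ℚ)) (d : Fin q → ℕ)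
    (hd : ∀ i, 1 ≤ d i) (hFo : ∀ i, (Fo i).IsHomogeneous (d i)) (η : ℝ) (hη0 : 0 ≤ η)
    (hη1 : η < 1) :
    ∃ Z : Finset (MvPolynomial (Fin (n + 1)) (AlgebraicClosure ℚ)),
      (∀ P ∈ Z, P ∉ idX G ∧ ∃ M, P.IsHomogeneous M) ∧
      ∀ (S : Finset Nat.Primes) (ε : ℝ), 0 < ε → ∃ Cc : ℝ, ∀ (E : Type) [Field E]
        [NumberField E], Module.finrank ℚ E = r → ∀ x : Fin (n + 1) → 𝓞 E, x ≠ 0 →
      (∀ k, aeval (fun i => (x i : E)) (G k) = 0) →
      (∀ P ∈ Z, ∀ τ : E →+* AlgebraicClosure ℚ, eval (fun i => τ (x i : E)) P ≠ 0) →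
      ∀ (e : (E →+* ℂ) → Fin (ν + 1) → Fin q)
        (j : AlgebraicClosure ℚ →+* ℂ), (∀ τ, NCZ G Fo (e τ)) →
      ∀ (ep : ∀ p : Nat.Primes, (E →+* PadicAlgCl p) → Fin (ν + 1) → Fin q)
        (jp : ∀ p : Nat.Primes, AlgebraicClosure ℚ →+* PadicAlgCl p),
        (∀ p ∈ S, ∀ τ, NCZ G Fo (ep p τ)) →
      ∀ (f : (E →+* ℂ) → Fin q → ℝ) (fp : ∀ p : Nat.Primes, (E →+* PadicAlgCl p) → Fin q → ℝ),
        (∀ τ i, (f τ i = 0) ∨ ((∃ k, e τ k = i) ∧
          f τ i = max 0 (laq (d i) (map j (Fo i)) (fun l => τ (x l : E))))) →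
        (∀ τ k, f τ (e τ k) = max 0 (laq (d (e τ k)) (map j (Fo (e τ k)))
          (fun l => τ (x l : E)))) →
        (∀ p ∈ S, ∀ τ i, (fp p τ i = 0) ∨ ((∃ k, ep p τ k = i) ∧
          fp p τ i = max 0 (laq (d i) (map (jp p) (Fo i)) (fun l => τ (x l : E))))) →
        (∀ p ∈ S, ∀ τ k, fp p τ (ep p τ k) = max 0 (laq (d (ep p τ k))
          (map (jp p) (Fo (ep p τ k))) (fun l => τ (x l : E)))) →
      η * (∑ i, Lst ν r (fun τ : E →+* ℂ => f τ i / d i) +
        ∑ p ∈ S, ∑ i, Lst ν r (fun τ : E →+* PadicAlgCl p => fp p τ i / d i)) ≤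
        (1 + ε) * (Height.logHeight (fun i => (x i : E)) / r) + Cc := by
  classical
  obtain ⟨I, hI⟩ : ∃ I, I = idX G := ⟨_, rfl⟩
  have hprime : I.IsPrime := by rw [hI]; exact hX
  set D : ℕ := ∏ i, d i with hDd
  have hD : 1 ≤ D := Nat.one_le_iff_ne_zero.2
    (Finset.prod_ne_zero_iff.2 fun i _ => (Nat.one_le_iff_ne_zero.1 (hd i)))
  have hdD : ∀ i, d i ∣ D := fun i => Finset.dvd_prod_of_mem d (Finset.mem_univ i)
  have hGQ : ∀ k, (map (algebraMap ℚ (AlgebraicClosure ℚ)) (G k)).IsHomogeneous (g k) :=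
    fun k => (hG k).map _
  by_cases hne : Nonempty {e : Fin (ν + 1) → Fin q // NCZ G Fo e}
  swap
  · refine ⟨∅, by simp, fun S ε hε => ⟨0, fun E _ _ hE x hx _ _ e j he => ?_⟩⟩
    obtain ⟨τ0⟩ := exists_emb E ℂ
    exact absurd ⟨⟨e τ0, he τ0⟩⟩ hne
  obtain ⟨e0⟩ := hne
  obtain ⟨y, hy⟩ : ∃ y : {e : Fin (ν + 1) → Fin q // NCZ G Fo e} → Fin (ν + 1) →
      MvPolynomial (Fin (n + 1)) (AlgebraicClosure ℚ),
      y = fun e k => Fo (e.1 k) ^ (D / d (e.1 k)) := ⟨_, rfl⟩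
  have hyh : ∀ e k, (y e k).IsHomogeneous D := by
    intro e k
    have := (hFo (e.1 k)).pow (D / d (e.1 k))
    rw [Nat.mul_div_cancel' (hdD (e.1 k))] at this
    rw [hy]
    exact this
  have h0y : ∀ e : {e : Fin (ν + 1) → Fin q // NCZ G Fo e}, ∀ (L : Type) [Field L]
      [Algebra (AlgebraicClosure ℚ) L] (x : Fin (n + 1) → L),
      (∀ k, aeval x (map (algebraMap ℚ (AlgebraicClosure ℚ)) (G k)) = 0) →
      (∀ k, aeval x (y e k) = 0) → x = 0 := by
    intro e L _ _ x hx hxy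
    refine ncz_ext e.2 L x hx fun k => ?_
    have h1 := hxy k
    simp only [hy, map_pow] at h1
    exact eq_zero_of_pow_eq_zero h1
  have halg : ∀ e, AlgebraicIndependent (AlgebraicClosure ℚ)
      (fun k => Ideal.Quotient.mkₐ (AlgebraicClosure ℚ) I (y e k)) := by
    intro e
    subst hI
    exact alg_ind _ g hGQ D hD (y e) (hyh e) (h0y e) hX hdim
  have hmod : ∀ e, ∃ (E : Finset (Fin (n + 1) →₀ ℕ)) (t0 : ℕ), Ind I (y e) E ∧ ∀ t, t0 ≤ t →
      ∀ M, Module.finrank (AlgebraicClosure ℚ) (VM I M) ≤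
        (Sm D E (ν + 1) (M + D * t)).card := by
    intro e
    have halge := halg e
    subst hI
    exact module_main _ g hGQ D hD (y e) (hyh e) 0 (h0y e) hX halge
  choose E0 t0 hE0 hcount using hmod
  have hpos : ∀ k t, 1 ≤ Module.finrank (AlgebraicClosure ℚ) (VM I (k * (D * t))) := by
    intro k t
    set a := Ideal.Quotient.mkₐ (AlgebraicClosure ℚ) I (y e0 0) with ha
    have ha0 : a ≠ 0 := (halg e0).ne_zero 0
    have hdom : IsDomain (MvPolynomial (Fin (n + 1)) (AlgebraicClosure ℚ) ⧸ I) :=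
      Ideal.Quotient.isDomain I
    have hmem : a ^ (k * t) ∈ VM I (k * (D * t)) := by
      refine ⟨y e0 0 ^ (k * t), ?_, ?_⟩
      · have h1 := (hyh e0 0).pow (k * t)
        have e1 : D * (k * t) = k * (D * t) := by ring
        rw [e1] at h1
        exact h1
      · show Ideal.Quotient.mkₐ (AlgebraicClosure ℚ) I (y e0 0 ^ (k * t)) = _
        rw [map_pow]
    have hfin := VM_finite I (k * (D * t))
    rw [Nat.one_le_iff_ne_zero]
    intro h0
    rw [Submodule.finrank_eq_zero] at h0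
    rw [h0] at hmem
    exact pow_ne_zero _ ha0 ((Submodule.mem_bot _).1 hmem)
  have hr0 : (0 : ℝ) < r := by exact_mod_cast hr
  -- the thresholds
  have hu : ∀ u : Fin r, 0 < ((u : ℝ) + 1) / r ∧ ((u : ℝ) + 1) / r ≤ 1 := by
    intro u
    refine ⟨by positivity, ?_⟩
    rw [div_le_one hr0]
    have h1 : (u : ℕ) + 1 ≤ r := u.2
    exact_mod_cast h1
  set ms : Fin r → ℝ := fun u => 1 - (1 - ((u : ℝ) + 1) / r) ^ (1 / (ν : ℝ)) with hms
  have hinv : ∀ u : Fin r, 1 / (((u : ℝ) + 1) / r) = r / (u + 1) := fun u => one_div_div _ _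
  obtain ⟨t, dd, ht, hdd, hN1, hθ, hpar⟩ := choose_parR (n' := n + 1) (ν := ν) hD E0
    (fun M => Module.finrank (AlgebraicClosure ℚ) (VM I M)) (VM_le I) t0 hcount hpos
    (fun u : Fin r => (r : ℝ) / (u + 1)) ms
    (fun u : Fin r => η * (r / (u + 1) * gq ν (((u : ℝ) + 1) / r)))
    (fun u => by
      rw [← hinv, le_div_iff₀ (hu u).1, one_mul]
      exact (hu u).2)
    (fun u => (kappR_eq hν (hu u).1 (hu u).2).1) (fun u => (kappR_eq hν (hu u).1 (hu u).2).2.1)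
    (fun u => mul_nonneg hη0 (mul_nonneg (by positivity) (gq_pos hν (hu u).1 (hu u).2).le))
    (fun u => by
      have h1 := (kappR_eq hν (hu u).1 (hu u).2).2.2
      simp only [hms]
      rw [← hinv, h1]
      have h2 : 0 < 1 / (((u : ℝ) + 1) / r) * gq ν (((u : ℝ) + 1) / r) :=
        mul_pos (one_div_pos.2 (hu u).1) (gq_pos hν (hu u).1 (hu u).2)
      nlinarith)
    (Fintype.card {e : Fin (ν + 1) → Fin q // NCZ G Fo e})
  obtain ⟨N, hN⟩ : ∃ N, Module.finrank (AlgebraicClosure ℚ) (VM I (D * dd)) = N + 1 :=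
    ⟨Module.finrank (AlgebraicClosure ℚ) (VM I (D * dd)) - 1, by omega⟩
  obtain ⟨c, b, hc, hb⟩ := mono_basis I (D * dd) N hN
  choose s W hWd hsM hWI hcard hsum using fun e =>
    adapted2 I hD c b hc hb (y e) (hyh e) (E0 e) (hE0 e)
  have Δ : Data I {e : Fin (ν + 1) → Fin q // NCZ G Fo e} ν D dd N c b y E0 s W t :=
    { hI := hprime
      hD := hD
      hb := hb
      hyh := hyh
      hy0 := fun x k => (halg x).ne_zero k
      hW := hWd
      hsM := hsM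
      hWI := hWI
      hcard := hcard
      hsum := hsum
      hcount := fun x M => hcount x t (ht x) M }
  obtain ⟨G', hG'0, hG'1, hG'2, hG'⟩ := exists_poly (Finset.univ.image fun p :
    {e : Fin (ν + 1) → Fin q // NCZ G Fo e} × Fin (N + 1) × Fin (N + 1) => W p.1 p.2.1 p.2.2)
  have hWr : ∀ e a i, W e a i ∈ (mp (AlgebraicClosure ℚ) G').roots := fun e a i =>
    hG' _ (Finset.mem_image.2 ⟨(e, a, i), Finset.mem_univ _, rfl⟩)
  obtain ⟨Z, hZ, h⟩ := mainI N r hr G' hG'0 hG'1 hG'2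
  refine ⟨Z.image (Pc c), fun P hP => ?_, fun S ε hε => ?_⟩
  · obtain ⟨u, hu, rfl⟩ := Finset.mem_image.1 hP
    rw [← hI]
    exact ⟨Pc_notMem I c b hb u (hZ u hu), _, Pc_hom c hc u⟩
  set θ : Fin r → ℕ := fun u => ⌊ms u * dd⌋₊ with hθd
  set T : Fin r → ℝ := fun u => ((∑ a, (θ u - (s e0 a).1 0) +
    Fintype.card {e : Fin (ν + 1) → Fin q // NCZ G Fo e} * t * (N + 1) : ℕ) : ℝ) with hTd
  have hT : ∀ u : Fin r, ((dd : ℝ) * ((N : ℝ) + 1)) *
      (η * (r / (u + 1) * gq ν (((u : ℝ) + 1) / r))) ≤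
      (θ u : ℝ) * ((N : ℝ) + 1) - r / (u + 1) * T u := by
    intro u
    have h1 := hpar u e0 (by
      rw [hN]
      exact hcard e0) 0
    simp only [hN] at h1
    have h2 := hsum e0 (fun a => θ u - a 0)
    simp only [Pi.zero_apply, Nat.sub_zero] at h2
    simp only [hTd]
    rw [h2]
    push_cast at h1 ⊢
    exact h1
  have hN0 : (0 : ℝ) < (N : ℝ) + 1 := by positivity
  have hdd0 : (0 : ℝ) < dd := by exact_mod_cast hdd
  have hD0 : (0 : ℝ) < D := by exact_mod_cast hD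
  obtain ⟨Cc, hC⟩ := h S (ε * ((N : ℝ) + 1)) (mul_pos hε hN0)
  subst hy
  obtain ⟨Ai, hAi1, hAi⟩ := place_bnd (F := ℂ) (ν := ν) hD I c b hb Fo d hdD hFo
    (fun e : {e : Fin (ν + 1) → Fin q // NCZ G Fo e} => e.1) s W hsM hWI
  obtain ⟨Ki, hKi⟩ := mixedY Δ (F := ℂ) G' hG'0 hWr e0 (fun e => e.1)
    (fun i => Fo i ^ (D / d i)) (fun _ _ => rfl) θ hθ Ai hAi1
  have hAp := fun p : Nat.Primes => place_bnd (F := PadicAlgCl p) (ν := ν) hD I c b hb Fo d hdD
    hFo (fun e : {e : Fin (ν + 1) → Fin q // NCZ G Fo e} => e.1) s W hsM hWI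
  choose Ap hAp1 hAp using hAp
  have hKp := fun p : Nat.Primes => mixedY Δ (F := PadicAlgCl p) G' hG'0 hWr e0 (fun e => e.1)
    (fun i => Fo i ^ (D / d i)) (fun _ _ => rfl) θ hθ (Ap p) (hAp1 p)
  choose Kp hKp using hKp
  refine ⟨(Cc + (r : ℝ) ^ (N + 1) * (Ki + ∑ p ∈ S, Kp p)) /
    ((r : ℝ) ^ N * (dd * ((N : ℝ) + 1)) * D * r),
    fun E _ _ hE x hx hxG hxZ e j he ep jp hep f fp hf hf' hfp hfp' => ?_⟩
  -- the point
  set Y : Fin (N + 1) → 𝓞 E := monP c x with hYd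
  have hYm : ∀ (F : Type) [Field F] (τ : E →+* F), (fun i => τ (Y i : E)) =
      monP c (fun i => τ (x i : E)) := fun F _ τ => funext fun i => map_monP c τ x i
  have hxτ : ∀ (F : Type) [Field F] [CharZero F] (τ : E →+* F),
      (fun i => τ (x i : E)) ≠ 0 := by
    intro F _ _ τ h0
    apply hx
    funext i
    have h1 : τ (x i : E) = 0 := congrFun h0 i
    exact RingOfIntegers.ext (by simpa using h1)
  have hXτ : ∀ (F : Type) [Field F] [CharZero F] (τ : E →+* F)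
      (j : AlgebraicClosure ℚ →+* F), ∀ P ∈ I, eval (fun i => τ (x i : E)) (map j P) = 0 := by
    intro F _ _ τ j P hP
    rw [hI] at hP
    exact idX_eval hP j _ fun k => map_point (G k) (fun i => (x i : E)) τ (hxG k)
  have hY : Y ≠ 0 := by
    obtain ⟨τ0⟩ := exists_emb E ℂ
    obtain ⟨-, ι0, -⟩ := exists_lift τ0
    obtain ⟨A, -, hA⟩ := monP_lower (F := ℂ) I c b hb
    have h1 := hA ι0 _ (hXτ ℂ τ0 ι0)
    intro h0
    have h2 : monP c (fun i => τ0 (x i : E)) = 0 := by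
      rw [← hYm ℂ τ0, h0]
      funext i
      simp
    rw [h2, norm_zero, mul_zero] at h1
    exact absurd h1 (not_le.2 (pow_pos (norm_pos_iff.2 (hxτ ℂ τ0)) _))
  have hdiv : ∀ i, ((D / d i : ℕ) : ℝ) = D / d i := fun i => Nat.cast_div (hdD i) (by
    exact_mod_cast (Nat.one_le_iff_ne_zero.1 (hd i)))
  have hdi0 : ∀ i, (0 : ℝ) < d i := fun i => by exact_mod_cast (hd i)
  have hci : Fintype.card (E →+* ℂ) = r := by rw [card_emb ℂ, hE]
  have hcp : ∀ p : Nat.Primes, Fintype.card (E →+* PadicAlgCl p) = r := fun p => by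
    rw [card_emb (PadicAlgCl p), hE]
  have hL0 : (0 : ℝ) ≤ (dd : ℝ) * ((N : ℝ) + 1) := by positivity
  -- the frames
  set fq : ∀ p : Nat.Primes, (E →+* PadicAlgCl p) → {e : Fin (ν + 1) → Fin q // NCZ G Fo e} :=
    fun p τ => if h : NCZ G Fo (ep p τ) then ⟨ep p τ, h⟩ else e0 with hfq
  have hfq' : ∀ p ∈ S, ∀ τ, (fq p τ).1 = ep p τ := by
    intro p hp τ
    simp only [hfq]
    rw [dif_pos (hep p hp τ)]
  set μi : (E →+* ℂ) → Fin q → ℝ := fun τ i => (D : ℝ) * (f τ i / d i) with hμi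
  set μp : ∀ p : Nat.Primes, (E →+* PadicAlgCl p) → Fin q → ℝ := fun p τ i =>
    if p ∈ S then (D : ℝ) * (fp p τ i / d i) else 0 with hμp
  have hf0 : ∀ τ i, 0 ≤ f τ i := by
    intro τ i
    rcases hf τ i with h1 | ⟨-, h1⟩
    · rw [h1]
    · rw [h1]
      exact le_max_left _ _
  have hfp0 : ∀ p ∈ S, ∀ τ i, 0 ≤ fp p τ i := by
    intro p hp τ i
    rcases hfp p hp τ i with h1 | ⟨-, h1⟩
    · rw [h1]
    · rw [h1]
      exact le_max_left _ _
  have hμi0 : ∀ τ i, 0 ≤ μi τ i := fun τ i =>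
    mul_nonneg hD0.le (div_nonneg (hf0 τ i) (hdi0 i).le)
  have hμp0 : ∀ p τ i, 0 ≤ μp p τ i := fun p τ i => by
    simp only [hμp]
    split_ifs with hp
    · exact mul_nonneg hD0.le (div_nonneg (hfp0 p hp τ i) (hdi0 i).le)
    · exact le_rfl
  obtain ⟨δi, Asi, hδi, hμδi, hδμi, hsumi⟩ := place_layers (n' := N) (ν := ν) hr hci θ T
    ((dd : ℝ) * ((N : ℝ) + 1)) η hL0 hη0 hT μi hμi0
  have hlp := fun p : Nat.Primes => place_layers (n' := N) (ν := ν) hr (hcp p) θ T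
    ((dd : ℝ) * ((N : ℝ) + 1)) η hL0 hη0 hT (μp p) (hμp0 p)
  choose δp Asp hδp hμδp hδμp hsump using hlp
  have hMi := hKi E Y hY (fun τ => ⟨e τ, he τ⟩) j μi (fun τ i h0 => by
      rcases hf τ i with h1 | ⟨h1, -⟩
      · exfalso
        apply h0
        simp only [hμi]
        rw [h1, zero_div, mul_zero]
      · exact h1)
    (fun τ a => by
      rw [hYm ℂ τ]
      have h1 := hAi ⟨e τ, he τ⟩ j _ (hxτ ℂ τ) (hXτ ℂ τ j) a
      refine h1.trans (le_of_eq ?_)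
      congr 3
      refine Finset.sum_congr rfl fun k _ => ?_
      simp only [hμi]
      rw [hf' τ k, hdiv]
      ring) δi Asi hδi hμδi hδμi
  have hMp : ∀ p ∈ S, _ := fun p hp => hKp p E Y hY (fq p) (jp p) (μp p) (fun τ i h0 => by
      rw [hfq' p hp τ]
      rcases hfp p hp τ i with h1 | ⟨h1, -⟩
      · exfalso
        apply h0
        simp only [hμp]
        rw [if_pos hp, h1, zero_div, mul_zero]
      · exact h1)
    (fun τ a => by
      rw [hYm _ τ]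
      have h1 := hAp p (fq p τ) (jp p) _ (hxτ _ τ) (hXτ _ τ (jp p)) a
      refine h1.trans (le_of_eq ?_)
      congr 3
      refine Finset.sum_congr rfl fun k _ => ?_
      simp only [hμp]
      rw [if_pos hp, hfq' p hp τ, hfp' p hp τ k, hdiv]
      ring) (δp p) (Asp p) (hδp p) (hμδp p) (hδμp p)
  have h1 := hC E hE Y hY (fun u hu τ => by
      have h2 := hxZ (Pc c u) (Finset.mem_image_of_mem _ hu) τ
      have h3 := eval_Pc c u (RingHom.id (AlgebraicClosure ℚ)) (fun i => τ (x i : E))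
      rw [MvPolynomial.map_id] at h3
      rw [h3] at h2
      intro h4
      apply h2
      rw [← h4]
      refine Finset.sum_congr rfl fun i _ => ?_
      rw [RingHom.id_apply, ← congrFun (hYm _ τ) i])
    _ hMi (fun p σ => ∑ i, ∑ u, δp p i u * ((θ u : ℝ) * cntA σ (Asp p i u) - T u) - Kp p)
    (fun p hp => by
      have h2 := hMp p hp
      convert h2 using 1)
  have h2 := hsumi Ki
  have h3 : ∀ p ∈ S, _ := fun p _ => hsump p (Kp p)
  have h4 := Finset.sum_le_sum h3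
  rw [Finset.sum_sub_distrib, ← Finset.mul_sum, ← Finset.mul_sum, ← Finset.mul_sum,
    ← Finset.mul_sum, ← Finset.mul_sum] at h4
  -- the local heights
  have hLD : ∀ {H : Type} [Fintype H] (_ : Fintype.card H = r) (f : H → ℝ),
      Lst ν r (fun τ => (D : ℝ) * f τ) = D * Lst ν r f := by
    intro H _ hH f
    have hne : Nonempty (Fin r ≃ H) := ⟨(Fintype.equivFinOfCardEq hH).symm⟩
    unfold Lst
    rw [Real.mul_iInf_of_nonneg hD0.le]
    congr 1
    funext π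
    rw [Finset.mul_sum]
    exact Finset.sum_congr rfl fun u _ => by ring
  have h5 : ∑ i, Lst ν r (fun τ => μi τ i) =
      D * ∑ i, Lst ν r (fun τ : E →+* ℂ => f τ i / d i) := by
    rw [Finset.mul_sum]
    exact Finset.sum_congr rfl fun i _ => hLD hci _
  have h6 : ∑ p ∈ S, ∑ i, Lst ν r (fun τ => μp p τ i) =
      D * ∑ p ∈ S, ∑ i, Lst ν r (fun τ : E →+* PadicAlgCl p => fp p τ i / d i) := by
    rw [Finset.mul_sum]
    refine Finset.sum_congr rfl fun p hp => ?_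
    rw [Finset.mul_sum]
    refine Finset.sum_congr rfl fun i _ => ?_
    simp only [hμp, if_pos hp]
    exact hLD (hcp p) _
  set A1 := ∑ i, Lst ν r (fun τ : E →+* ℂ => f τ i / d i) with hA1
  set A2 := ∑ p ∈ S, ∑ i, Lst ν r (fun τ : E →+* PadicAlgCl p => fp p τ i / d i) with hA2
  rw [h5] at h2
  rw [h6] at h4
  have hxE : (fun i => (x i : E)) ≠ 0 := hxτ E (RingHom.id E)
  have hht : Height.logHeight (fun i => (Y i : E)) ≤
      ((D * dd : ℕ) : ℝ) * Height.logHeight (fun i => (x i : E)) := by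
    have h7 := monP_height c hc (fun i => (x i : E)) hxE
    have h8 : (fun i => (Y i : E)) = monP c (fun i => (x i : E)) := hYm E (RingHom.id E)
    rw [h8]
    exact h7
  set LH := Height.logHeight (fun i => (x i : E)) with hLH
  have h7 := h1.trans (add_le_add_left (mul_le_mul_of_nonneg_left hht (by positivity)) _)
  have hden : 0 < (r : ℝ) ^ N * (dd * ((N : ℝ) + 1)) * D * r := by positivity
  have h8 : (r : ℝ) ^ N * (dd * ((N : ℝ) + 1)) * D * r * (η * (A1 + A2)) ≤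
      (r : ℝ) ^ N * (dd * ((N : ℝ) + 1)) * D * r * ((1 + ε) * (LH / r)) +
        (Cc + (r : ℝ) ^ (N + 1) * (Ki + ∑ p ∈ S, Kp p)) := by
    have h9 : (r : ℝ) ^ N * ((N : ℝ) + 1 + ε * ((N : ℝ) + 1)) * (((D * dd : ℕ) : ℝ) * LH) =
        (r : ℝ) ^ N * (dd * ((N : ℝ) + 1)) * D * r * ((1 + ε) * (LH / r)) := by
      push_cast
      field_simp
    rw [h9] at h7
    have h10 : (r : ℝ) ^ N * (dd * ((N : ℝ) + 1)) * D * r * (η * (A1 + A2)) =
        (r : ℝ) ^ N * (dd * ((N : ℝ) + 1) * (η * (r * (D * A1)))) +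
          (r : ℝ) ^ N * (dd * ((N : ℝ) + 1) * (η * (r * (D * A2)))) := by ring
    rw [h10]
    linarith
  have h9 : (r : ℝ) ^ N * (dd * ((N : ℝ) + 1)) * D * r * ((1 + ε) * (LH / r)) +
        (Cc + (r : ℝ) ^ (N + 1) * (Ki + ∑ p ∈ S, Kp p)) =
      (r : ℝ) ^ N * (dd * ((N : ℝ) + 1)) * D * r * ((1 + ε) * (LH / r) +
        (Cc + (r : ℝ) ^ (N + 1) * (Ki + ∑ p ∈ S, Kp p)) /
          ((r : ℝ) ^ N * (dd * ((N : ℝ) + 1)) * D * r)) := by
    rw [mul_add ((r : ℝ) ^ N * (dd * ((N : ℝ) + 1)) * D * r) ((1 + ε) * (LH / r)) _,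
      mul_div_cancel₀ _ hden.ne']
  rw [h9] at h8
  exact le_of_mul_le_mul_left h8 hden

end Pool.Agent.T9h24
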