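import Mathlib
import Pool.Agent.T9h24.Ydg

/-!
Ordered means for an arbitrary function, and the numbers of monomials for a point.
-/

set_option autoImplicit false
set_option linter.unusedSectionVars false

open Finset MvPolynomial NumberField IsDedekindDomain Filter

namespace Pool.Agent.T9h24

/-- the ordered mean for the function `g`: the minimum over all numberings -/
noncomputable def LstG {H : Type} (g : ℝ → ℝ) (r : ℕ) (f : H → ℝ) : ℝ :=
  ⨅ π : Fin r ≃ H, ∑ u : Fin r, (g (((u : ℝ) + 1) / r) - g ((u : ℝ) / r)) * f (π u)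

theorem LstG_le {H : Type} [Finite H] (g : ℝ → ℝ) (r : ℕ) (f : H → ℝ) (π : Fin r ≃ H) :
    LstG g r f ≤ ∑ u : Fin r, (g (((u : ℝ) + 1) / r) - g ((u : ℝ) / r)) * f (π u) :=
  ciInf_le (Set.finite_range _).bddBelow π

/-- one place: the layers of all targets -/
theorem place_layersG {n' q : ℕ} {H : Type} [Fintype H] [DecidableEq H] {r : ℕ} (hr : 1 ≤ r)
    (hH : Fintype.card H = r) (g : ℝ → ℝ) (hg0 : g 0 = 0) (θ : Fin r → ℕ) (T : Fin r → ℝ)
    (L0 η : ℝ) (hL0 : 0 ≤ L0) (hη : 0 ≤ η)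
    (hT : ∀ u : Fin r, L0 * (η * (r / (u + 1) * g (((u : ℝ) + 1) / r))) ≤
      (θ u : ℝ) * ((n' : ℝ) + 1) - r / (u + 1) * T u)
    (μ : H → Fin q → ℝ) (hμ : ∀ τ i, 0 ≤ μ τ i) :
    ∃ (δ : Fin q → Fin r → ℝ) (As : Fin q → Fin r → Finset H), (∀ i u, 0 ≤ δ i u) ∧
      (∀ τ i, μ τ i = ∑ u, if τ ∈ As i u then δ i u else 0) ∧
      (∀ i u, δ i u ≠ 0 → ∀ τ ∈ As i u, μ τ i ≠ 0) ∧
      ∀ K0 : ℝ, (r : ℝ) ^ n' * (L0 * (η * (r * ∑ i, LstG g r fun τ => μ τ i))) -
        (r : ℝ) ^ (n' + 1) * K0 ≤ ∑ σ : Fin (n' + 1) → H,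
          (∑ i, ∑ u, δ i u * ((θ u : ℝ) * cntA σ (As i u) - T u) - K0) := by
  classical
  have hr0 : (0 : ℝ) < r := by exact_mod_cast hr
  choose π δ As h1 h2 h3 h4 h5 using fun i => layers hH (fun τ => μ τ i) (fun τ => hμ τ i)
  refine ⟨δ, As, h1, fun τ i => h3 i τ, fun i u hu τ hτ => h4 i u hu τ hτ, fun K0 => ?_⟩
  have h6 := sum_PhiY (N := n') hr hH θ T L0
    (fun u : Fin r => η * (r / (u + 1) * g (((u : ℝ) + 1) / r))) hT δ h1 As h2 K0
  have h7 : ∑ σ : Fin (n' + 1) → H,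
      (∑ i, ∑ u, δ i u * ((θ u : ℝ) * cntA σ (As i u) - T u) - K0) =
      ∑ σ : Fin (n' + 1) → H,
        (∑ i, ∑ u, δ i u * ((θ u : ℝ) *
          @cntA H (Classical.decEq H) _ σ (As i u) - T u) - K0) := by
    refine Finset.sum_congr rfl fun σ _ => ?_
    congr 1
    refine Finset.sum_congr rfl fun i _ => Finset.sum_congr rfl fun u _ => ?_
    have e : cntA σ (As i u) = @cntA H (Classical.decEq H) _ σ (As i u) := by
      unfold cntA
      congr
    rw [e]
  rw [h7]
  refine le_trans ?_ (h6.trans (le_of_eq ?_))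
  · refine sub_le_sub_right ?_ _
    refine mul_le_mul_of_nonneg_left (mul_le_mul_of_nonneg_left ?_ hL0) (by positivity)
    rw [Finset.mul_sum, Finset.mul_sum]
    refine Finset.sum_le_sum fun i _ => ?_
    have e1 : ∑ u : Fin r, δ i u * (((u : ℝ) + 1) *
        (η * (r / (u + 1) * g (((u : ℝ) + 1) / r)))) =
        η * (r * ∑ u : Fin r, δ i u * g (((u : ℝ) + 1) / r)) := by
      rw [Finset.mul_sum, Finset.mul_sum]
      refine Finset.sum_congr rfl fun u _ => ?_
      have hu0 : (0 : ℝ) < (u : ℝ) + 1 := by positivity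
      field_simp
    rw [e1]
    refine mul_le_mul_of_nonneg_left (mul_le_mul_of_nonneg_left ?_ hr0.le) hη
    have e2 := h5 i (fun s => g ((s : ℝ) / r)) (by
      simp only [Nat.cast_zero, zero_div]
      exact hg0)
    push_cast at e2
    rw [e2]
    exact LstG_le g r _ (π i)
  · refine Finset.sum_congr rfl fun σ _ => ?_
    congr 1

/-- the sum of the truncated differences of the order at a point -/
def PP (n d θ : ℕ) : ℕ := ∑ a ∈ AD n d, (θ - (d - a 0))

theorem PP_eq (n d : ℕ) : ∀ θ ≤ d, PP n d θ = (n + θ).choose (n + 1) := by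
  classical
  intro θ
  induction θ with
  | zero =>
    intro _
    unfold PP
    simp
  | succ θ ih =>
    intro h
    have h1 := ih (by omega)
    have h2 : PP n d (θ + 1) = PP n d θ + ((AD n d).filter fun a => d - θ ≤ a 0).card := by
      unfold PP
      rw [Finset.card_filter, ← Finset.sum_add_distrib]
      refine Finset.sum_congr rfl fun a _ => ?_
      split_ifs with h3
      · omega
      · omega
    rw [h2, h1, card_ge n d (d - θ) (by omega) 0, NN_eq, show d - (d - θ) = θ by omega,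
      show n + (θ + 1) = (n + θ) + 1 by omega, Nat.choose_succ_succ, add_comm θ n, add_comm]

/-- the partial integral of the orders at a point -/
noncomputable def gp (n : ℕ) (u : ℝ) : ℝ := n / (n + 1) * u ^ (1 + 1 / (n : ℝ))

theorem gp_zero (n : ℕ) : gp n 0 = 0 := by
  unfold gp
  have h2 : (0 : ℝ) < 1 + 1 / (n : ℝ) := by positivity
  rw [Real.zero_rpow h2.ne', mul_zero]

/-- **The choice of the degree and of the thresholds.** -/
theorem exists_thetaP (n r : ℕ) (hn : 1 ≤ n) (hr : 1 ≤ r) (η : ℝ) (hη1 : η < 1) :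
    ∃ (d : ℕ) (θ : Fin r → ℕ), 1 ≤ d ∧ (∀ u, θ u ≤ d) ∧ ∀ u : Fin r,
      ((d : ℝ) * NN n d) * (η * (r / (u + 1) * gp n (((u : ℝ) + 1) / r))) ≤
        (θ u : ℝ) * NN n d - r / (u + 1) * PP n d (θ u) := by
  have hr0 : (0 : ℝ) < r := by exact_mod_cast hr
  have hn0 : (0 : ℝ) < n := by exact_mod_cast hn
  have hn1 : (0 : ℝ) < (n : ℝ) + 1 := by positivity
  -- the limits of the thresholds
  set c : Fin r → ℝ := fun u => (((u : ℝ) + 1) / r) ^ (1 / (n : ℝ)) with hc
  have hu : ∀ u : Fin r, 0 < ((u : ℝ) + 1) / r ∧ ((u : ℝ) + 1) / r ≤ 1 := by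
    intro u
    refine ⟨by positivity, ?_⟩
    rw [div_le_one hr0]
    have h1 : (u : ℕ) + 1 ≤ r := u.2
    exact_mod_cast h1
  have hc0 : ∀ u, 0 < c u := fun u => Real.rpow_pos_of_pos (hu u).1 _
  have hc1 : ∀ u, c u ≤ 1 := fun u => Real.rpow_le_one (hu u).1.le (hu u).2 (by positivity)
  have hcn : ∀ u, c u ^ n = ((u : ℝ) + 1) / r := by
    intro u
    simp only [hc]
    rw [one_div]
    exact Real.rpow_inv_natCast_pow (hu u).1.le (by omega)
  have hgp : ∀ u : Fin r, r / ((u : ℝ) + 1) * gp n (((u : ℝ) + 1) / r) = n / (n + 1) * c u := by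
    intro u
    unfold gp
    rw [Real.rpow_add (hu u).1, Real.rpow_one]
    have hu0 : (0 : ℝ) < (u : ℝ) + 1 := by positivity
    simp only [hc]
    field_simp
  -- the limit
  have hlim : ∀ u : Fin r, Tendsto (fun d : ℕ => c u - 1 / (d : ℝ) -
      r / ((u : ℝ) + 1) * (c u + (n : ℝ) / d) ^ (n + 1) / (n + 1)) atTop
      (nhds (c u - 0 - r / ((u : ℝ) + 1) * (c u + 0) ^ (n + 1) / (n + 1))) := by
    intro u
    have h1 := (tendsto_const_div_atTop_nhds_zero_nat (n : ℝ)).const_add (c u)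
    have h2 := tendsto_const_div_atTop_nhds_zero_nat (1 : ℝ)
    exact (h2.const_sub (c u)).sub (((h1.pow (n + 1)).const_mul _).div_const _)
  have hval : ∀ u : Fin r, c u - 0 - r / ((u : ℝ) + 1) * (c u + 0) ^ (n + 1) / (n + 1) =
      n / (n + 1) * c u := by
    intro u
    have hu0 : (0 : ℝ) < (u : ℝ) + 1 := by positivity
    rw [add_zero, sub_zero, pow_succ, hcn]
    field_simp
    ring
  have hev : ∀ u : Fin r, ∀ᶠ d : ℕ in atTop, η * (n / (n + 1) * c u) <
      c u - 1 / (d : ℝ) - r / ((u : ℝ) + 1) * (c u + (n : ℝ) / d) ^ (n + 1) / (n + 1) := by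
    intro u
    have h1 := hlim u
    rw [hval u] at h1
    refine (tendsto_order.1 h1).1 _ ?_
    have h2 : 0 < (n : ℝ) / (n + 1) * c u := mul_pos (by positivity) (hc0 u)
    nlinarith
  obtain ⟨d, hd, hd1⟩ := ((Filter.eventually_all.2 hev).and (eventually_ge_atTop 1)).exists
  have hd0 : (0 : ℝ) < d := by exact_mod_cast hd1
  have hθd : ∀ u, ⌊c u * d⌋₊ ≤ d := by
    intro u
    have h2 : ((⌊c u * d⌋₊ : ℕ) : ℝ) ≤ d := by
      refine (Nat.floor_le (mul_nonneg (hc0 u).le hd0.le)).trans ?_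
      have := mul_le_mul_of_nonneg_right (hc1 u) hd0.le
      linarith
    exact_mod_cast h2
  refine ⟨d, fun u => ⌊c u * d⌋₊, hd1, hθd, fun u => ?_⟩
  set θ := ⌊c u * d⌋₊ with hθ
  have hθ1 : (θ : ℝ) ≤ c u * d := Nat.floor_le (mul_nonneg (hc0 u).le hd0.le)
  have hθ2 : c u * d < θ + 1 := Nat.lt_floor_add_one _
  have hu0 : (0 : ℝ) < (u : ℝ) + 1 := by positivity
  rw [hgp, PP_eq n d θ (hθd u)]
  set Nd : ℝ := (NN n d : ℝ) with hNd
  have hf : (0 : ℝ) < (n.factorial : ℝ) := by exact_mod_cast Nat.factorial_pos _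
  have h5 : (d : ℝ) ^ n ≤ n.factorial * Nd := by
    have h6 : d ^ n ≤ n.factorial * NN n d := by
      rw [NN_eq, ← Nat.descFactorial_eq_factorial_mul_choose]
      have h7 := Nat.pow_sub_le_descFactorial (d + n) n
      exact (Nat.pow_le_pow_left (by omega) n).trans h7
    rw [hNd]
    exact_mod_cast h6
  have hNd0 : 0 < Nd := by
    by_contra hcon
    have h6 : (d : ℝ) ^ n ≤ 0 := h5.trans (mul_nonpos_of_nonneg_of_nonpos hf.le (not_lt.1 hcon))
    exact absurd h6 (not_le.2 (by positivity))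
  -- the binomial coefficient
  have h6 : ((n + θ).choose (n + 1) : ℝ) ≤ Nd * d * ((c u + (n : ℝ) / d) ^ (n + 1) / (n + 1)) := by
    have h7 : ((n + 1).factorial : ℝ) * ((n + θ).choose (n + 1) : ℝ) ≤
        ((n : ℝ) + θ) ^ (n + 1) := by
      have h8 : (n + 1).factorial * (n + θ).choose (n + 1) ≤ (n + θ) ^ (n + 1) := by
        rw [← Nat.descFactorial_eq_factorial_mul_choose]
        exact Nat.descFactorial_le_pow _ _
      exact_mod_cast h8
    have h8 : (n : ℝ) + θ ≤ d * (c u + (n : ℝ) / d) := by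
      have h10 : (d : ℝ) * (c u + (n : ℝ) / d) = c u * d + n := by
        field_simp
      rw [h10]
      linarith
    have h9 : ((n + 1).factorial : ℝ) = (n + 1) * n.factorial := by
      rw [Nat.factorial_succ]
      push_cast
      ring
    have h11 : ((n : ℝ) + θ) ^ (n + 1) ≤ (d * (c u + (n : ℝ) / d)) ^ (n + 1) :=
      pow_le_pow_left₀ (by positivity) h8 _
    have h12 := h7.trans h11
    rw [mul_pow, pow_succ (d : ℝ) n, h9] at h12
    have h13 : 0 ≤ (c u + (n : ℝ) / d) ^ (n + 1) :=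
      pow_nonneg (add_nonneg (hc0 u).le (by positivity)) _
    have h14 := h12.trans (mul_le_mul_of_nonneg_right (mul_le_mul_of_nonneg_right h5 hd0.le) h13)
    have h15 : (n.factorial : ℝ) * (((n : ℝ) + 1) * ((n + θ).choose (n + 1) : ℝ)) ≤
        n.factorial * (Nd * d * (c u + (n : ℝ) / d) ^ (n + 1)) := by
      refine le_trans (le_of_eq ?_) (h14.trans (le_of_eq ?_))
      · ring
      · ring
    have h16 := le_of_mul_le_mul_left h15 hf
    rw [← mul_div_assoc, le_div_iff₀ hn1]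
    linarith
  have h7 := mul_le_mul_of_nonneg_left (hd u).le (mul_pos hd0 hNd0).le
  have h8 := mul_le_mul_of_nonneg_left h6 (div_pos hr0 hu0).le
  have h9 : (d : ℝ) * Nd * (c u - 1 / (d : ℝ) - r / ((u : ℝ) + 1) * (c u + (n : ℝ) / d) ^ (n + 1) /
      (n + 1)) = (c u * d - 1) * Nd - r / ((u : ℝ) + 1) *
        (Nd * d * ((c u + (n : ℝ) / d) ^ (n + 1) / (n + 1))) := by
    field_simp
  rw [h9] at h7
  have h10 : (c u * d - 1) * Nd ≤ θ * Nd := mul_le_mul_of_nonneg_right (by linarith) hNd0.le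
  linarith

end Pool.Agent.T9h24
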