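import Mathlib
import Pool.Agent.T9h24.Pta
import Pool.Agent.T9h24.Kap

/-!
The mixed determinants for conjugates which are near to given points.
-/

set_option autoImplicit false
set_option linter.unusedSectionVars false

open Finset MvPolynomial NumberField IsDedekindDomain

namespace Pool.Agent.T9h24

/-- the values of a functional on the monomials in the forms of a frame -/
theorem frame_val2 {F : Type} [NormedField F] {n n' d : ℕ} (e : Fin (n' + 1) ≃ AD n d)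
    (Λ : Fin (n + 1) → Fin (n + 1) → F) (y : Fin (n + 1) → F) (hy : y ≠ 0) (A : ℝ)
    (ν : Fin (n + 1) → ℝ) (hν : ∀ k, ‖lf (Λ k) y‖ ≤ A * ‖y‖ * Real.exp (-(ν k)))
    (ξ : Fin (n' + 1) → F)
    (h : ∀ I : Fin d → Fin (n + 1), ‖lf (cf e (PL fun k => Λ (I k))) ξ‖ * ‖y‖ ^ d ≤
      ∏ k, ‖lf (Λ (I k)) y‖) (i : Fin (n' + 1)) :
    ‖∑ i', MF e Λ i i' * ξ i'‖ ≤ A ^ d *
      Real.exp (-∑ j, ((e i : Fin (n + 1) →₀ ℕ) j : ℝ) * ν j) := by
  obtain ⟨I, hI⟩ := exists_word d _ (mem_AD.1 (e i).2)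
  have h1 := h I
  have h2 : ∑ i', MF e Λ i i' * ξ i' = lf (cf e (PL fun k => Λ (I k))) ξ := by
    unfold lf MF cf PL
    refine Finset.sum_congr rfl fun i' _ => ?_
    rw [Matrix.of_apply, prod_word hI (fun j => LP (Λ j))]
  have hy0 : 0 < ‖y‖ := norm_pos_iff.2 hy
  have h3 : ∏ k, ‖lf (Λ (I k)) y‖ ≤ ∏ k, (A * ‖y‖ * Real.exp (-(ν (I k)))) :=
    Finset.prod_le_prod (fun k _ => norm_nonneg _) fun k _ => hν (I k)
  have h4 : ∏ k, (A * ‖y‖ * Real.exp (-(ν (I k)))) =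
      (A ^ d * Real.exp (-∑ j, ((e i : Fin (n + 1) →₀ ℕ) j : ℝ) * ν j)) * ‖y‖ ^ d := by
    have h5 := prod_word hI (fun j => Real.exp (-(ν j)))
    rw [Finset.prod_mul_distrib, Finset.prod_const, Finset.card_univ, Fintype.card_fin, mul_pow,
      h5]
    have h6 : ∏ j, Real.exp (-(ν j)) ^ (e i : Fin (n + 1) →₀ ℕ) j =
        Real.exp (-∑ j, ((e i : Fin (n + 1) →₀ ℕ) j : ℝ) * ν j) := by
      rw [← Finset.sum_neg_distrib, Real.exp_sum]
      refine Finset.prod_congr rfl fun j _ => ?_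
      rw [← Real.exp_nat_mul]
      congr 1
      ring
    rw [h6]
    ring
  rw [h2]
  rw [h4] at h3
  exact le_of_mul_le_mul_right (h1.trans h3) (pow_pos hy0 d)

/-- **The combinatorial bound** for the targets. -/
theorem weight_targets {F : Type} [Field F] {N q r : ℕ}
    (W : Fin q → Matrix (Fin (N + 1)) (Fin (N + 1)) F) (α : Fin (N + 1) → ℕ)
    {H : Type} [Fintype H] [DecidableEq H] (θ : Fin r → ℕ) (tgt : H → Fin q)
    (μ : H → Fin q → ℝ) (hμ : ∀ τ i, μ τ i ≠ 0 → tgt τ = i)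
    (δ : Fin q → Fin r → ℝ) (As : Fin q → Fin r → Finset H) (hδ : ∀ i u, 0 ≤ δ i u)
    (hμδ : ∀ τ i, μ τ i = ∑ u, if τ ∈ As i u then δ i u else 0)
    (hδμ : ∀ i u, δ i u ≠ 0 → ∀ τ ∈ As i u, μ τ i ≠ 0)
    (σ : Fin (N + 1) → H) (κ : Fin (N + 1) → Fin (N + 1))
    (hdet : (Matrix.of fun l j => (W (tgt (σ l)))⁻¹ j (κ l)).det ≠ 0) :
    ∑ i, ∑ u, δ i u * ((θ u : ℝ) * cntA σ (As i u) - ((∑ a, (θ u - α a) : ℕ) : ℝ)) ≤
      ∑ l, (α (κ l) : ℝ) * μ (σ l) (tgt (σ l)) := by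
  classical
  have h1 : ∀ l, (α (κ l) : ℝ) * μ (σ l) (tgt (σ l)) = ∑ i, (α (κ l) : ℝ) * μ (σ l) i := by
    intro l
    rw [Finset.sum_eq_single (tgt (σ l))]
    · intro i _ hi
      have h2 : μ (σ l) i = 0 := by
        by_contra h3
        exact hi (hμ _ _ h3).symm
      rw [h2, mul_zero]
    · intro h
      exact absurd (Finset.mem_univ _) h
  have h2 : ∑ l, (α (κ l) : ℝ) * μ (σ l) (tgt (σ l)) =
      ∑ i, ∑ u, δ i u * ((∑ l ∈ Finset.univ.filter (fun l => σ l ∈ As i u), α (κ l) : ℕ) : ℝ) := by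
    simp only [h1]
    rw [Finset.sum_comm]
    refine Finset.sum_congr rfl fun i _ => ?_
    have h3 : ∀ l ∈ (Finset.univ : Finset (Fin (N + 1))), (α (κ l) : ℝ) * μ (σ l) i =
        ∑ u, if σ l ∈ As i u then δ i u * (α (κ l) : ℝ) else 0 := by
      intro l _
      rw [hμδ, Finset.mul_sum]
      refine Finset.sum_congr rfl fun u _ => ?_
      split_ifs
      · ring
      · ring
    rw [Finset.sum_congr rfl h3, Finset.sum_comm]
    refine Finset.sum_congr rfl fun u _ => ?_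
    push_cast
    rw [Finset.mul_sum, Finset.sum_filter]
  rw [h2]
  refine Finset.sum_le_sum fun i _ => Finset.sum_le_sum fun u _ => ?_
  rcases eq_or_ne (δ i u) 0 with h0 | h0
  · rw [h0, zero_mul, zero_mul]
  · refine mul_le_mul_of_nonneg_left ?_ (hδ i u)
    have hJ : ∀ l ∈ Finset.univ.filter (fun l => σ l ∈ As i u), tgt (σ l) = i := fun l hl =>
      hμ _ _ (hδμ i u h0 (σ l) (Finset.mem_filter.1 hl).2)
    have hinj : Set.InjOn κ (Finset.univ.filter fun l => σ l ∈ As i u : Finset (Fin (N + 1))) := by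
      intro l hl l' hl' hll
      by_contra hne
      apply hdet
      refine Matrix.det_zero_of_row_eq hne ?_
      funext j
      rw [Matrix.of_apply, Matrix.of_apply, hJ l (Finset.mem_coe.1 hl),
        hJ l' (Finset.mem_coe.1 hl'), hll]
    have h3 : ∑ l ∈ Finset.univ.filter (fun l => σ l ∈ As i u), (θ u - α (κ l)) ≤
        ∑ a, (θ u - α a) := by
      rw [← Finset.sum_image (f := fun a => θ u - α a) (g := κ) hinj]
      exact Finset.sum_le_sum_of_subset (Finset.subset_univ _)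
    have h5 : θ u * cntA σ (As i u) ≤ ∑ l ∈ Finset.univ.filter (fun l => σ l ∈ As i u), α (κ l) +
        ∑ a, (θ u - α a) := by
      have h6 : θ u * cntA σ (As i u) =
          ∑ _l ∈ Finset.univ.filter (fun l => σ l ∈ As i u), θ u := by
        rw [Finset.sum_const, smul_eq_mul, mul_comm]
        rfl
      rw [h6]
      refine le_trans ?_ (Nat.add_le_add_left h3 _)
      rw [← Finset.sum_add_distrib]
      refine Finset.sum_le_sum fun l hl => ?_
      omega
    have h6 : ((θ u * cntA σ (As i u) : ℕ) : ℝ) ≤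
        ((∑ l ∈ Finset.univ.filter (fun l => σ l ∈ As i u), α (κ l) +
        ∑ a, (θ u - α a) : ℕ) : ℝ) := by
      exact_mod_cast h5
    rw [Nat.cast_mul, Nat.cast_add (∑ l ∈ _, _)] at h6
    linarith

open Classical in
/-- **One place.** -/
theorem target_place {F : Type} [NormedField F] [CharZero F] [IsAlgClosed F] {n n' d q r : ℕ}
    (G : Polynomial ℤ) (hG : G ≠ 0) (e : Fin (n' + 1) ≃ AD n d)
    (L : Fin q → Fin (n + 1) → Fin (n + 1) → AlgebraicClosure ℚ)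
    (hL : ∀ i k l, L i k l ∈ (mp (AlgebraicClosure ℚ) G).roots)
    (hLd : ∀ i, (Matrix.of (L i)).det ≠ 0) (θ : Fin r → ℕ) (A : ℝ) (hA : 1 ≤ A) : ∃ K0 : ℝ,
    ∀ (E : Type) [Field E] [NumberField E] (x : Fin (n + 1) → 𝓞 E), x ≠ 0 →
      ∀ (j : AlgebraicClosure ℚ →+* F) (tgt : (E →+* F) → Fin q) (μ : (E →+* F) → Fin q → ℝ),
      (∀ τ i, μ τ i ≠ 0 → tgt τ = i) →
      (∀ τ k, k ≠ 0 → ‖lf (fun l => j (L (tgt τ) k l)) (fun l => τ (x l : E))‖ ≤
        A * ‖fun l => τ (x l : E)‖ * Real.exp (-(μ τ (tgt τ)))) →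
      (∀ τ, ‖lf (fun l => j (L (tgt τ) 0 l)) (fun l => τ (x l : E))‖ ≤
        A * ‖fun l => τ (x l : E)‖) →
      ∀ (δ : Fin q → Fin r → ℝ) (As : Fin q → Fin r → Finset (E →+* F)),
      (∀ i u, 0 ≤ δ i u) → (∀ τ i, μ τ i = ∑ u, if τ ∈ As i u then δ i u else 0) →
      (∀ i u, δ i u ≠ 0 → ∀ τ ∈ As i u, μ τ i ≠ 0) →
      MixedV F G e x (fun σ => ∑ i, ∑ u, δ i u * ((θ u : ℝ) * cntA σ (As i u) -
        ((PP n d (θ u) : ℕ) : ℝ)) - K0) := by
  set RF : Finset F := (mp F G).roots.toFinset with hRF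
  obtain ⟨M0, hM1, hM0⟩ := exists_big (fun p : (Fin (n' + 1) → Fin (n + 1) → Fin (n + 1) → RF) ×
    (Fin (n' + 1) → Fin (n' + 1)) => ‖(Matrix.of fun l j =>
      (MF e (fun k j => (p.1 l k j : F)))⁻¹ j (p.2 l)).det‖)
  have hA0 : (0 : ℝ) < A := by linarith
  have hM00 : (0 : ℝ) < M0 := by exact_mod_cast hM1
  set KK : ℝ := ((n' : ℝ) + 1) ^ (n' + 1) * ((A ^ d) ^ (n' + 1) * M0) with hKK
  have hKK0 : 0 < KK := by
    rw [hKK]
    positivity
  refine ⟨Real.log KK, fun E _ _ x hx j tgt μ hμ hval hval0 δ As hδ hμδ hδμ => ?_⟩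
  intro σ ξ hξ
  have hℓ : ∀ τ : E →+* F, (fun i => τ (x i : E)) ≠ 0 := by
    intro τ h0
    apply hx
    funext i
    have h1 : τ (x i : E) = 0 := congrFun h0 i
    exact RingOfIntegers.ext (by simpa using h1)
  set Ξ : ℝ := ∑ i, ∑ u, δ i u * ((θ u : ℝ) * cntA σ (As i u) -
        ((PP n d (θ u) : ℕ) : ℝ)) with hΞ
  set LF : Fin q → Fin (n + 1) → Fin (n + 1) → F := fun i k l => j (L i k l) with hLF
  have hr : ∀ i k l, LF i k l ∈ (mp F G).roots := fun i k l => map_root hG (hL i k l) j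
  have hLFd : ∀ i, (Matrix.of (LF i)).det ≠ 0 := by
    intro i
    have h1 : (Matrix.of (LF i)).det = j (Matrix.of (L i)).det := by
      rw [RingHom.map_det]
      rfl
    rw [h1]
    exact (map_ne_zero j).2 (hLd i)
  set α : Fin (n' + 1) → ℕ := fun a => d - (e a : Fin (n + 1) →₀ ℕ) 0 with hα
  have hPP : ∀ t, PP n d t = ∑ a, (t - α a) := by
    intro t
    unfold PP
    rw [← Finset.sum_coe_sort (AD n d) (fun a => t - (d - a 0)),
      ← Equiv.sum_comp e (fun a : AD n d => t - (d - (a : Fin (n + 1) →₀ ℕ) 0))]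
  have hval2 : ∀ l a, ‖∑ i, MF e (LF (tgt (σ l))) a i * ξ l i‖ ≤ A ^ d *
      Real.exp (-((α a : ℝ) * μ (σ l) (tgt (σ l)))) := by
    intro l a
    have h1 := frame_val2 e (LF (tgt (σ l))) (fun i => σ l (x i : E)) (hℓ _) A
      (fun k => if k = 0 then 0 else μ (σ l) (tgt (σ l))) (fun k => by
        by_cases hk : k = 0
        · rw [if_pos hk, neg_zero, Real.exp_zero, mul_one, hk]
          exact hval0 (σ l)
        · rw [if_neg hk]
          exact hval (σ l) k hk) (ξ l)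
      (fun I => hξ l (fun k => LF (tgt (σ l)) (I k)) fun k j => hr _ _ _) a
    refine h1.trans (le_of_eq ?_)
    congr 3
    have h2 : ∑ k, ((e a : Fin (n + 1) →₀ ℕ) k : ℝ) *
        (if k = 0 then 0 else μ (σ l) (tgt (σ l))) =
        ((∑ k ∈ Finset.univ.erase (0 : Fin (n + 1)), (e a : Fin (n + 1) →₀ ℕ) k : ℕ) : ℝ) *
          μ (σ l) (tgt (σ l)) := by
      rw [← Finset.add_sum_erase Finset.univ _ (Finset.mem_univ (0 : Fin (n + 1))), if_pos rfl,
        mul_zero, zero_add]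
      push_cast
      rw [Finset.sum_mul]
      refine Finset.sum_congr rfl fun k hk => ?_
      rw [if_neg (Finset.ne_of_mem_erase hk)]
    rw [h2]
    congr 2
    have h3 : ∑ k, (e a : Fin (n + 1) →₀ ℕ) k = d := by
      rw [← Finsupp.degree_eq_sum]
      exact mem_AD.1 (e a).2
    rw [← Finset.add_sum_erase Finset.univ _ (Finset.mem_univ (0 : Fin (n + 1)))] at h3
    simp only [hα]
    omega
  have hmain := multi_bound2 (fun τ : E →+* F => MF e (LF (tgt τ)))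
    (fun τ => det_MF e _ (hLFd _)) σ ξ M0
    ((A ^ d) ^ (n' + 1) * Real.exp (-Ξ)) (by positivity) hM00.le (fun κ => by
      have h2 := hM0 (fun l k i => ⟨LF (tgt (σ l)) k i, Multiset.mem_toFinset.2 (hr _ _ _)⟩, κ)
      exact h2)
    (fun κ hκ => by
      have h1 : ∏ l, ‖∑ i, MF e (LF (tgt (σ l))) (κ l) i * ξ l i‖ ≤ ∏ l, (A ^ d *
          Real.exp (-((α (κ l) : ℝ) * μ (σ l) (tgt (σ l))))) :=
        Finset.prod_le_prod (fun l _ => norm_nonneg _) fun l _ => hval2 l (κ l)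
      refine h1.trans ?_
      rw [Finset.prod_mul_distrib, Finset.prod_const, Finset.card_univ, Fintype.card_fin,
        ← Real.exp_sum, Finset.sum_neg_distrib]
      refine mul_le_mul_of_nonneg_left (Real.exp_le_exp.2 (neg_le_neg ?_)) (by positivity)
      have h2 := weight_targets (fun i => MF e (LF i)) α θ tgt μ hμ δ As hδ hμδ hδμ σ κ hκ
      rw [hΞ]
      simp only [hPP]
      exact h2)
  refine hmain.trans (le_of_eq ?_)
  have h1 : -(Ξ - Real.log KK) = -Ξ + Real.log KK := by ring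
  show _ = Real.exp (-(Ξ - Real.log KK))
  rw [h1, Real.exp_add, Real.exp_log hKK0, hKK]
  ring

end Pool.Agent.T9h24
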