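import Mathlib
import Pool.Agent.T9h24.Ptc

/-!
The distance of two points of projective space.
-/

set_option autoImplicit false
set_option linter.unusedSectionVars false

open Finset MvPolynomial NumberField IsDedekindDomain

namespace Pool.Agent.T9h24

/-- the `2 × 2` minors of two vectors -/
def wg {F : Type} [Field F] {n : ℕ} (y P : Fin (n + 1) → F) (a : Fin (n + 1) × Fin (n + 1)) : F :=
  y a.1 * P a.2 - y a.2 * P a.1

section wedge

variable {n : ℕ} {F : Type} [NormedField F]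

/-- the local height of the point `P` at `y` -/
noncomputable def lpt (P y : Fin (n + 1) → F) : ℝ := Real.log (‖y‖ * ‖P‖ / ‖wg y P‖)

theorem norm_wg_le (y P : Fin (n + 1) → F) : ‖wg y P‖ ≤ 2 * (‖y‖ * ‖P‖) := by
  rw [pi_norm_le_iff_of_nonneg (by positivity)]
  intro a
  unfold wg
  refine (norm_sub_le _ _).trans ?_
  rw [norm_mul, norm_mul]
  have h1 := mul_le_mul (norm_le_pi_norm y a.1) (norm_le_pi_norm P a.2) (norm_nonneg _)
    (norm_nonneg _)
  have h2 := mul_le_mul (norm_le_pi_norm y a.2) (norm_le_pi_norm P a.1) (norm_nonneg _)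
    (norm_nonneg _)
  linarith

theorem norm_wg_eq {y P : Fin (n + 1) → F} (hy : y ≠ 0) (hP : P ≠ 0) (h : wg y P ≠ 0) :
    ‖wg y P‖ = ‖y‖ * ‖P‖ * Real.exp (-(lpt P y)) := by
  have h1 : 0 < ‖y‖ := norm_pos_iff.2 hy
  have h2 : 0 < ‖P‖ := norm_pos_iff.2 hP
  have h3 : 0 < ‖wg y P‖ := norm_pos_iff.2 h
  unfold lpt
  rw [Real.exp_neg, Real.exp_log (by positivity)]
  field_simp

theorem norm_wg_exp {y P : Fin (n + 1) → F} (hy : y ≠ 0) (hP : P ≠ 0) :
    ‖wg y P‖ ≤ 2 * (‖y‖ * ‖P‖) * Real.exp (-(max 0 (lpt P y))) := by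
  by_cases h : wg y P = 0
  · rw [h, norm_zero]
    positivity
  · rcases le_total (lpt P y) 0 with h1 | h1
    · rw [max_eq_left h1, neg_zero, Real.exp_zero, mul_one]
      exact norm_wg_le y P
    · rw [max_eq_right h1, norm_wg_eq hy hP h]
      refine mul_le_mul_of_nonneg_right ?_ (Real.exp_nonneg _)
      have : 0 ≤ ‖y‖ * ‖P‖ := by positivity
      linarith

/-- the triangle inequality -/
theorem wg_sep (y P Q : Fin (n + 1) → F) :
    ‖y‖ * ‖wg P Q‖ ≤ 2 * (‖wg y P‖ * ‖Q‖) + ‖P‖ * ‖wg y Q‖ := by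
  obtain ⟨l, hl⟩ := Finite.exists_max fun l => ‖y l‖
  have h1 : ‖y‖ ≤ ‖y l‖ := (pi_norm_le_iff_of_nonneg (norm_nonneg _)).2 hl
  refine (mul_le_mul_of_nonneg_right h1 (norm_nonneg _)).trans ?_
  rw [← norm_smul]
  rw [pi_norm_le_iff_of_nonneg (by positivity)]
  intro a
  have h2 : (y l • wg P Q) a = wg y P (l, a.1) * Q a.2 - wg y P (l, a.2) * Q a.1 +
      P l * wg y Q a := by
    rw [Pi.smul_apply, smul_eq_mul]
    unfold wg
    ring
  rw [h2]
  refine (norm_add_le _ _).trans (add_le_add ((norm_sub_le _ _).trans ?_) ?_)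
  · rw [norm_mul, norm_mul]
    have h3 := mul_le_mul (norm_le_pi_norm (wg y P) (l, a.1)) (norm_le_pi_norm Q a.2)
      (norm_nonneg _) (norm_nonneg _)
    have h4 := mul_le_mul (norm_le_pi_norm (wg y P) (l, a.2)) (norm_le_pi_norm Q a.1)
      (norm_nonneg _) (norm_nonneg _)
    linarith
  · rw [norm_mul]
    exact mul_le_mul (norm_le_pi_norm P l) (norm_le_pi_norm (wg y Q) a) (norm_nonneg _)
      (norm_nonneg _)

end wedge

/-- a basis of the linear forms such that all but one vanish at the point -/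
theorem exists_frame {K : Type} [Field K] {n : ℕ} (P : Fin (n + 1) → K) (hP : P ≠ 0) :
    ∃ L : Fin (n + 1) → Fin (n + 1) → K, (Matrix.of L).det ≠ 0 ∧
      ∃ (s : Fin (n + 1) → Fin (n + 1)) (j0 : Fin (n + 1)),
        ∀ (F : Type) [NormedField F] (j : K →+* F) (y : Fin (n + 1) → F),
          lf (fun l => j (L 0 l)) y = y j0 ∧
          ∀ k, k ≠ 0 → lf (fun l => j (L k l)) y = wg y (fun l => j (P l)) (s k, j0) := by
  classical
  obtain ⟨j0, hj0⟩ := Function.ne_iff.1 hP
  set s : Fin (n + 1) → Fin (n + 1) := fun k => Equiv.swap 0 j0 k with hs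
  refine ⟨fun k l => if k = 0 then (if l = j0 then 1 else 0) else
    (if l = s k then P j0 else 0) - (if l = j0 then P (s k) else 0), ?_, s, j0, ?_⟩
  · intro h0
    obtain ⟨v, hv, hv0⟩ := Matrix.exists_mulVec_eq_zero_iff.2 h0
    apply hv
    have h1 : v j0 = 0 := by
      have h2 := congrFun hv0 0
      simp only [Matrix.mulVec, dotProduct, Matrix.of_apply, if_true, ite_mul, one_mul, zero_mul,
        Finset.sum_ite_eq', Finset.mem_univ, Pi.zero_apply] at h2
      exact h2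
    have h2 : ∀ k, k ≠ 0 → v (s k) = 0 := by
      intro k hk
      have h3 := congrFun hv0 k
      simp only [Matrix.mulVec, dotProduct, Matrix.of_apply, if_neg hk, sub_mul, ite_mul, zero_mul,
        Finset.sum_sub_distrib, Finset.sum_ite_eq', Finset.mem_univ, if_true, Pi.zero_apply,
        h1, mul_zero, sub_zero] at h3
      exact (mul_eq_zero.1 h3).resolve_left hj0
    funext l
    by_cases hl : l = j0
    · rw [hl, h1, Pi.zero_apply]
    · have h3 : s (Equiv.swap 0 j0 l) = l := by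
        simp only [hs]
        exact Equiv.swap_apply_self 0 j0 l
      rw [← h3, Pi.zero_apply]
      refine h2 _ ?_
      intro h4
      apply hl
      rw [← h3, h4]
      simp only [hs, Equiv.swap_apply_left]
  · intro F _ j y
    refine ⟨?_, fun k hk => ?_⟩
    · unfold lf
      simp only [if_true]
      rw [Finset.sum_eq_single j0]
      · rw [if_pos rfl, map_one, one_mul]
      · intro l _ hl
        rw [if_neg hl, map_zero, zero_mul]
      · intro h
        exact absurd (Finset.mem_univ _) h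
    · unfold lf wg
      simp only [if_neg hk, map_sub, sub_mul, Finset.sum_sub_distrib]
      congr 1
      · rw [Finset.sum_eq_single (s k)]
        · rw [if_pos rfl, mul_comm]
        · intro l _ hl
          rw [if_neg hl, map_zero, zero_mul]
        · intro h
          exact absurd (Finset.mem_univ _) h
      · rw [Finset.sum_eq_single j0]
        · rw [if_pos rfl, mul_comm]
        · intro l _ hl
          rw [if_neg hl, map_zero, zero_mul]
        · intro h
          exact absurd (Finset.mem_univ _) h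

section sep

variable {n : ℕ} {F : Type} [NormedField F] [CharZero F] [IsAlgClosed F]

/-- the conjugates of a vector are bounded -/
theorem vec_bound (P : Fin (n + 1) → AlgebraicClosure ℚ) :
    ∃ B : ℝ, 1 ≤ B ∧ ∀ j : AlgebraicClosure ℚ →+* F, ‖fun l => j (P l)‖ ≤ B := by
  choose B hB1 hB using fun l => embed_bound (F := F) (P l)
  have h0 : ∀ l, 0 ≤ B l := fun l => zero_le_one.trans (hB1 l)
  refine ⟨1 + ∑ l, B l, ?_, fun j => ?_⟩
  · have : 0 ≤ ∑ l, B l := Finset.sum_nonneg fun l _ => h0 l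
    linarith
  · have h1 : 0 ≤ ∑ l, B l := Finset.sum_nonneg fun l _ => h0 l
    rw [pi_norm_le_iff_of_nonneg (by linarith)]
    intro l
    have h2 := Finset.single_le_sum (f := B) (fun l _ => h0 l) (Finset.mem_univ l)
    have h3 := hB l j
    linarith

theorem wg_map (j : AlgebraicClosure ℚ →+* F) (P Q : Fin (n + 1) → AlgebraicClosure ℚ)
    (a : Fin (n + 1) × Fin (n + 1)) :
    wg (fun l => j (P l)) (fun l => j (Q l)) a = j (wg P Q a) := by
  unfold wg
  rw [map_sub, map_mul, map_mul]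

/-- no point is near to two different points -/
theorem sep_bound {P Q : Fin (n + 1) → AlgebraicClosure ℚ} (hP : P ≠ 0) (hQ : Q ≠ 0)
    (h : wg P Q ≠ 0) : ∃ C0 : ℝ, 0 ≤ C0 ∧ ∀ (j : AlgebraicClosure ℚ →+* F) (y : Fin (n + 1) → F),
      y ≠ 0 → lpt (fun l => j (P l)) y ≤ C0 ∨ lpt (fun l => j (Q l)) y ≤ C0 := by
  obtain ⟨a, ha⟩ := Function.ne_iff.1 h
  obtain ⟨BP, hBP1, hBP⟩ := vec_bound (F := F) P
  obtain ⟨BQ, hBQ1, hBQ⟩ := vec_bound (F := F) Q
  obtain ⟨B, hB1, hB⟩ := embed_bound (F := F) (wg P Q a)⁻¹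
  have hBP0 : 0 < BP := by linarith
  have hBQ0 : 0 < BQ := by linarith
  have hB0 : 0 < B := by linarith
  have hC1 : 1 ≤ 3 * BP * BQ * B := by
    have h1 : 1 ≤ BP * BQ := one_le_mul_of_one_le_of_one_le hBP1 hBQ1
    have h2 : 1 ≤ BP * BQ * B := one_le_mul_of_one_le_of_one_le h1 hB1
    linarith
  refine ⟨Real.log (3 * BP * BQ * B), Real.log_nonneg hC1, fun j y hy => ?_⟩
  by_contra hcon
  push Not at hcon
  obtain ⟨h1, h2⟩ := hcon
  have hC0 := Real.log_nonneg hC1
  set C0 := Real.log (3 * BP * BQ * B) with hC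
  have hjP : (fun l => j (P l)) ≠ 0 := by
    intro h3
    apply hP
    funext l
    exact (map_eq_zero j).1 (congrFun h3 l)
  have hjQ : (fun l => j (Q l)) ≠ 0 := by
    intro h3
    apply hQ
    funext l
    exact (map_eq_zero j).1 (congrFun h3 l)
  have hy0 : 0 < ‖y‖ := norm_pos_iff.2 hy
  have hP0 : 0 < ‖fun l => j (P l)‖ := norm_pos_iff.2 hjP
  have hQ0 : 0 < ‖fun l => j (Q l)‖ := norm_pos_iff.2 hjQ
  have hwP : wg y (fun l => j (P l)) ≠ 0 := by
    intro h3
    unfold lpt at h1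
    rw [h3, norm_zero, div_zero, Real.log_zero] at h1
    linarith
  have hwQ : wg y (fun l => j (Q l)) ≠ 0 := by
    intro h3
    unfold lpt at h2
    rw [h3, norm_zero, div_zero, Real.log_zero] at h2
    linarith
  have h3 := norm_wg_eq hy hjP hwP
  have h4 := norm_wg_eq hy hjQ hwQ
  have h5 : Real.exp (-(lpt (fun l => j (P l)) y)) < Real.exp (-C0) :=
    Real.exp_lt_exp.2 (neg_lt_neg h1)
  have h6 : Real.exp (-(lpt (fun l => j (Q l)) y)) < Real.exp (-C0) :=
    Real.exp_lt_exp.2 (neg_lt_neg h2)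
  have h7 := wg_sep y (fun l => j (P l)) (fun l => j (Q l))
  -- the lower bound
  have h8 : 1 ≤ B * ‖wg (fun l => j (P l)) (fun l => j (Q l))‖ := by
    have h9 := hB j
    rw [map_inv₀, norm_inv] at h9
    have h10 : 0 < ‖j (wg P Q a)‖ := norm_pos_iff.2 ((map_ne_zero j).2 ha)
    rw [inv_le_iff_one_le_mul₀ h10] at h9
    refine h9.trans (mul_le_mul_of_nonneg_left ?_ hB0.le)
    rw [← wg_map]
    exact norm_le_pi_norm (wg (fun l => j (P l)) (fun l => j (Q l))) a
  set NP := ‖fun l => j (P l)‖ with hNP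
  set NQ := ‖fun l => j (Q l)‖ with hNQ
  set W := ‖wg (fun l => j (P l)) (fun l => j (Q l))‖ with hW
  rw [h3, h4] at h7
  have h9 : ‖y‖ * W < ‖y‖ * (3 * NP * NQ * Real.exp (-C0)) := by
    refine lt_of_le_of_lt h7 ?_
    have h10 : ‖y‖ * NP * NQ * Real.exp (-(lpt (fun l => j (P l)) y)) <
        ‖y‖ * NP * NQ * Real.exp (-C0) := mul_lt_mul_of_pos_left h5 (by positivity)
    have h11 : ‖y‖ * NP * NQ * Real.exp (-(lpt (fun l => j (Q l)) y)) <
        ‖y‖ * NP * NQ * Real.exp (-C0) := mul_lt_mul_of_pos_left h6 (by positivity)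
    nlinarith
  have h10 := lt_of_mul_lt_mul_left h9 hy0.le
  have h11 : NP * NQ ≤ BP * BQ := mul_le_mul (hBP j) (hBQ j) (norm_nonneg _) hBP0.le
  have h12 : Real.exp (-C0) = (3 * BP * BQ * B)⁻¹ := by
    rw [Real.exp_neg, hC, Real.exp_log (by positivity)]
  have h13 : B * (3 * NP * NQ * Real.exp (-C0)) ≤ 1 := by
    rw [h12]
    calc B * (3 * NP * NQ * (3 * BP * BQ * B)⁻¹) = (NP * NQ) / (BP * BQ) := by
          field_simp
      _ ≤ 1 := (div_le_one (by positivity)).2 h11
  have h14 := mul_lt_mul_of_pos_left h10 hB0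
  linarith

/-- the nearest point -/
theorem exists_tgt {q : ℕ} (hq : 0 < q) (P : Fin q → Fin (n + 1) → AlgebraicClosure ℚ)
    (hP0 : ∀ i, P i ≠ 0) (hP : ∀ i i', i ≠ i' → wg (P i) (P i') ≠ 0) :
    ∃ C0 : ℝ, 0 ≤ C0 ∧ ∀ (j : AlgebraicClosure ℚ →+* F) (y : Fin (n + 1) → F), y ≠ 0 →
      ∃ i0 : Fin q, ∀ i, lpt (fun l => j (P i l)) y ≤
        (if i0 = i then max 0 (lpt (fun l => j (P i l)) y) else 0) + C0 := by
  classical
  have h1 : ∀ i i' : Fin q, ∃ C0 : ℝ, 0 ≤ C0 ∧ (i ≠ i' → ∀ (j : AlgebraicClosure ℚ →+* F)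
      (y : Fin (n + 1) → F), y ≠ 0 →
        lpt (fun l => j (P i l)) y ≤ C0 ∨ lpt (fun l => j (P i' l)) y ≤ C0) := by
    intro i i'
    by_cases h : i = i'
    · exact ⟨0, le_rfl, fun h' => absurd h h'⟩
    · obtain ⟨C0, h2, h3⟩ := sep_bound (F := F) (hP0 i) (hP0 i') (hP i i' h)
      exact ⟨C0, h2, fun _ => h3⟩
  choose C0 hC0 hC using h1
  have hs : ∀ i i', C0 i i' ≤ ∑ i, ∑ i', C0 i i' := by
    intro i i'
    refine (Finset.single_le_sum (f := fun i' => C0 i i') (fun _ _ => hC0 _ _)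
      (Finset.mem_univ i')).trans ?_
    exact Finset.single_le_sum (f := fun i => ∑ i', C0 i i')
      (fun _ _ => Finset.sum_nonneg fun _ _ => hC0 _ _) (Finset.mem_univ i)
  refine ⟨∑ i, ∑ i', C0 i i', Finset.sum_nonneg fun _ _ => Finset.sum_nonneg fun _ _ => hC0 _ _,
    fun j y hy => ?_⟩
  have hne : Nonempty (Fin q) := ⟨⟨0, hq⟩⟩
  obtain ⟨i0, hi0⟩ := Finite.exists_max fun i => lpt (fun l => j (P i l)) y
  refine ⟨i0, fun i => ?_⟩
  have h0 : 0 ≤ ∑ i, ∑ i', C0 i i' :=
    Finset.sum_nonneg fun _ _ => Finset.sum_nonneg fun _ _ => hC0 _ _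
  by_cases h : i0 = i
  · rw [if_pos h]
    have := le_max_right 0 (lpt (fun l => j (P i l)) y)
    linarith
  · rw [if_neg h, zero_add]
    rcases hC i0 i h j y hy with h2 | h2
    · exact (hi0 i).trans (h2.trans (hs _ _))
    · exact h2.trans (hs _ _)

end sep

end Pool.Agent.T9h24
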