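import Mathlib
import Pool.Agent.T9h24.Ptw

/-!
The inequality for the distances of the conjugates to given points, integral coordinates.
-/

set_option autoImplicit false
set_option linter.unusedSectionVars false

open Finset MvPolynomial NumberField IsDedekindDomain

namespace Pool.Agent.T9h24

/-- the truncated local height for the target -/
noncomputable def mt {F : Type} [NormedField F] {n q : ℕ} {H : Type}
    (P : Fin q → Fin (n + 1) → F) (y : H → Fin (n + 1) → F) (tgt : H → Fin q) (τ : H)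
    (i : Fin q) : ℝ :=
  if tgt τ = i then max 0 (lpt (P i) (y τ)) else 0

theorem mt_nonneg {F : Type} [NormedField F] {n q : ℕ} {H : Type}
    (P : Fin q → Fin (n + 1) → F) (y : H → Fin (n + 1) → F) (tgt : H → Fin q) (τ : H)
    (i : Fin q) : 0 ≤ mt P y tgt τ i := by
  unfold mt
  split_ifs
  · exact le_max_left _ _
  · exact le_rfl

theorem mt_self {F : Type} [NormedField F] {n q : ℕ} {H : Type}
    (P : Fin q → Fin (n + 1) → F) (y : H → Fin (n + 1) → F) (tgt : H → Fin q) (τ : H) :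
    mt P y tgt τ (tgt τ) = max 0 (lpt (P (tgt τ)) (y τ)) := by
  unfold mt
  rw [if_pos rfl]

theorem mt_ne {F : Type} [NormedField F] {n q : ℕ} {H : Type}
    (P : Fin q → Fin (n + 1) → F) (y : H → Fin (n + 1) → F) (tgt : H → Fin q) (τ : H)
    (i : Fin q) (h : mt P y tgt τ i ≠ 0) : tgt τ = i := by
  by_contra h1
  apply h
  unfold mt
  rw [if_neg h1]

open Classical in
/-- **One place**, with the constant. -/
theorem point_place {F : Type} [NormedField F] [CharZero F] [IsAlgClosed F] {n n' d q r : ℕ}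
    (G : Polynomial ℤ) (hG : G ≠ 0) (e : Fin (n' + 1) ≃ AD n d)
    (P : Fin q → Fin (n + 1) → AlgebraicClosure ℚ) (hP : ∀ i, P i ≠ 0)
    (L : Fin q → Fin (n + 1) → Fin (n + 1) → AlgebraicClosure ℚ)
    (hL : ∀ i k l, L i k l ∈ (mp (AlgebraicClosure ℚ) G).roots)
    (hLd : ∀ i, (Matrix.of (L i)).det ≠ 0)
    (s : Fin q → Fin (n + 1) → Fin (n + 1)) (j0 : Fin q → Fin (n + 1))
    (hLf : ∀ i, ∀ (j : AlgebraicClosure ℚ →+* F) (y : Fin (n + 1) → F),
          lf (fun l => j (L i 0 l)) y = y (j0 i) ∧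
          ∀ k, k ≠ 0 → lf (fun l => j (L i k l)) y = wg y (fun l => j (P i l)) (s i k, j0 i))
    (θ : Fin r → ℕ) : ∃ K0 : ℝ,
    ∀ (E : Type) [Field E] [NumberField E] (x : Fin (n + 1) → 𝓞 E), x ≠ 0 →
      ∀ (j : AlgebraicClosure ℚ →+* F) (tgt : (E →+* F) → Fin q),
      ∀ (δ : Fin q → Fin r → ℝ) (As : Fin q → Fin r → Finset (E →+* F)),
      (∀ i u, 0 ≤ δ i u) → (∀ τ i, mt (fun i l => j (P i l))
        (fun (τ : E →+* F) l => τ (x l : E)) tgt τ i = ∑ u, if τ ∈ As i u then δ i u else 0) →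
      (∀ i u, δ i u ≠ 0 → ∀ τ ∈ As i u, mt (fun i l => j (P i l))
        (fun (τ : E →+* F) l => τ (x l : E)) tgt τ i ≠ 0) →
      MixedV F G e x (fun σ => ∑ i, ∑ u, δ i u * ((θ u : ℝ) * cntA σ (As i u) -
        ((PP n d (θ u) : ℕ) : ℝ)) - K0) := by
  classical
  choose B hB1 hB using fun i => vec_bound (F := F) (P i)
  have hB0 : ∀ i, 0 ≤ B i := fun i => zero_le_one.trans (hB1 i)
  have hs0 : 0 ≤ ∑ i, B i := Finset.sum_nonneg fun i _ => hB0 i
  obtain ⟨K0, hK0⟩ := target_place (F := F) G hG e L hL hLd θ (1 + 2 * ∑ i, B i) (by linarith)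
  refine ⟨K0, fun E _ _ x hx j tgt δ As hδ hμδ hδμ => ?_⟩
  have hjP : ∀ i, (fun l => j (P i l)) ≠ 0 := by
    intro i h3
    apply hP i
    funext l
    exact (map_eq_zero j).1 (congrFun h3 l)
  have hy : ∀ τ : E →+* F, (fun l => τ (x l : E)) ≠ 0 := by
    intro τ h0
    apply hx
    funext i
    have h1 : τ (x i : E) = 0 := congrFun h0 i
    exact RingOfIntegers.ext (by simpa using h1)
  refine hK0 E x hx j tgt (mt (fun i l => j (P i l)) (fun (τ : E →+* F) l => τ (x l : E)) tgt)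
    (fun τ i h => mt_ne _ _ _ _ _ h) (fun τ k hk => ?_) (fun τ => ?_) δ As hδ hμδ hδμ
  · rw [(hLf (tgt τ) j (fun l => τ (x l : E))).2 k hk, mt_self]
    refine (norm_le_pi_norm (wg (fun l => τ (x l : E)) fun l => j (P (tgt τ) l)) _).trans ?_
    refine (norm_wg_exp (hy τ) (hjP (tgt τ))).trans ?_
    refine mul_le_mul_of_nonneg_right ?_ (Real.exp_nonneg _)
    have h1 := hB (tgt τ) j
    have h2 : B (tgt τ) ≤ ∑ i, B i := Finset.single_le_sum (f := B) (fun i _ => hB0 i)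
      (Finset.mem_univ _)
    have h3 : 0 ≤ ‖fun l => τ (x l : E)‖ := norm_nonneg _
    have h4 := mul_le_mul_of_nonneg_left (h1.trans h2) h3
    nlinarith
  · rw [(hLf (tgt τ) j (fun l => τ (x l : E))).1]
    refine (norm_le_pi_norm (fun l => τ (x l : E)) (j0 (tgt τ))).trans ?_
    have h3 : 0 ≤ ‖fun l => τ (x l : E)‖ := norm_nonneg _
    nlinarith

/-- **The inequality for the distances to given points**, integral coordinates. -/
theorem degP (n r : ℕ) (hn : 1 ≤ n) (hr : 1 ≤ r) {q : ℕ}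
    (P : Fin q → Fin (n + 1) → AlgebraicClosure ℚ) (hP : ∀ i, P i ≠ 0) (η : ℝ) (hη0 : 0 ≤ η)
    (hη1 : η < 1) :
    ∃ Z : Finset (MvPolynomial (Fin (n + 1)) (AlgebraicClosure ℚ)),
      (∀ Q ∈ Z, Q ≠ 0 ∧ ∃ t, Q.IsHomogeneous t) ∧
      ∀ (S : Finset Nat.Primes) (ε : ℝ), 0 < ε → ∃ Cc : ℝ, ∀ (E : Type) [Field E]
        [NumberField E], Module.finrank ℚ E = r → ∀ x : Fin (n + 1) → 𝓞 E, x ≠ 0 →
      (∀ Q ∈ Z, ∀ τ : E →+* AlgebraicClosure ℚ, eval (fun i => τ (x i : E)) Q ≠ 0) →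
      ∀ (tgt : (E →+* ℂ) → Fin q) (j : AlgebraicClosure ℚ →+* ℂ)
        (tgtp : ∀ p : Nat.Primes, (E →+* PadicAlgCl p) → Fin q)
        (jp : ∀ p : Nat.Primes, AlgebraicClosure ℚ →+* PadicAlgCl p),
      η * (∑ i, LstG (gp n) r (fun τ : E →+* ℂ => mt (fun i l => j (P i l))
          (fun (τ : E →+* ℂ) l => τ (x l : E)) tgt τ i) +
        ∑ p ∈ S, ∑ i, LstG (gp n) r (fun τ : E →+* PadicAlgCl p => mt (fun i l => jp p (P i l))
          (fun (τ : E →+* PadicAlgCl p) l => τ (x l : E)) (tgtp p) τ i)) ≤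
        (1 + ε) * (Height.logHeight (fun i => (x i : E)) / r) + Cc := by
  classical
  obtain ⟨d, θ, hd1, hθd, hθ⟩ := exists_thetaP n r hn hr η hη1
  have hNpos : 0 < NN n d := by
    rw [NN_eq]
    exact Nat.choose_pos (by omega)
  obtain ⟨n', hn'⟩ : ∃ n', NN n d = n' + 1 := ⟨NN n d - 1, by omega⟩
  have e : Fin (n' + 1) ≃ AD n d := (finCongr hn'.symm).trans (ee n d)
  choose L hLd s j0 hLf using fun i => exists_frame (P i) (hP i)
  obtain ⟨G', hG'0, -, -, hG'⟩ := exists_poly (Finset.univ.image fun p :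
    Fin q × Fin (n + 1) × Fin (n + 1) => L p.1 p.2.1 p.2.2)
  have hLr : ∀ i k l, L i k l ∈ (mp (AlgebraicClosure ℚ) G').roots := fun i k l =>
    hG' _ (Finset.mem_image.2 ⟨(i, k, l), Finset.mem_univ _, rfl⟩)
  obtain ⟨Z, hZ, h⟩ := mainV n r d hr G' e
  refine ⟨Z.image (Pu e), fun Q hQ => ?_, fun S ε hε => ?_⟩
  · obtain ⟨u, hu, rfl⟩ := Finset.mem_image.1 hQ
    exact ⟨Pu_ne e u (hZ u hu), _, Pu_hom e u⟩
  have hNr : (NN n d : ℝ) = (n' : ℝ) + 1 := by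
    rw [hn']
    push_cast
    ring
  have hN0 : (0 : ℝ) < (n' : ℝ) + 1 := by positivity
  have hd0 : (0 : ℝ) < d := by exact_mod_cast hd1
  have hr0 : (0 : ℝ) < r := by exact_mod_cast hr
  obtain ⟨Cc, hC⟩ := h S (ε * ((n' : ℝ) + 1)) (mul_pos hε hN0)
  obtain ⟨Ki, hKi⟩ := point_place (F := ℂ) (r := r) G' hG'0 e P hP L hLr hLd s j0
    (fun i => hLf i ℂ) θ
  have hKp := fun p : Nat.Primes => point_place (F := PadicAlgCl p) (r := r) G' hG'0 e P hP L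
    hLr hLd s j0 (fun i => hLf i (PadicAlgCl p)) θ
  choose Kp hKp using hKp
  refine ⟨(Cc + (r : ℝ) ^ (n' + 1) * (Ki + ∑ p ∈ S, Kp p)) /
    ((r : ℝ) ^ n' * (d * ((n' : ℝ) + 1)) * r), fun E _ _ hE x hx hxZ tgt j tgtp jp => ?_⟩
  have hci : Fintype.card (E →+* ℂ) = r := by rw [card_emb ℂ, hE]
  have hcp : ∀ p : Nat.Primes, Fintype.card (E →+* PadicAlgCl p) = r := fun p => by
    rw [card_emb (PadicAlgCl p), hE]
  have hL0 : (0 : ℝ) ≤ (d : ℝ) * ((n' : ℝ) + 1) := by positivity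
  have hT : ∀ u : Fin r, ((d : ℝ) * ((n' : ℝ) + 1)) *
      (η * (r / (u + 1) * gp n (((u : ℝ) + 1) / r))) ≤
      (θ u : ℝ) * ((n' : ℝ) + 1) - r / (u + 1) * ((PP n d (θ u) : ℕ) : ℝ) := by
    intro u
    have h1 := hθ u
    rw [hNr] at h1
    exact h1
  obtain ⟨δi, Asi, hδi, hμδi, hδμi, hsumi⟩ := place_layersG (n' := n') hr hci (gp n) (gp_zero n) θ
    (fun u => ((PP n d (θ u) : ℕ) : ℝ)) ((d : ℝ) * ((n' : ℝ) + 1)) η hL0 hη0 hT
    (mt (fun i l => j (P i l)) (fun (τ : E →+* ℂ) l => τ (x l : E)) tgt)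
    (fun τ i => mt_nonneg _ _ _ _ _)
  have hlp := fun p : Nat.Primes => place_layersG (n' := n') hr (hcp p) (gp n) (gp_zero n) θ
    (fun u => ((PP n d (θ u) : ℕ) : ℝ)) ((d : ℝ) * ((n' : ℝ) + 1)) η hL0 hη0 hT
    (mt (fun i l => jp p (P i l)) (fun (τ : E →+* PadicAlgCl p) l => τ (x l : E)) (tgtp p))
    (fun τ i => mt_nonneg _ _ _ _ _)
  choose δp Asp hδp hμδp hδμp hsump using hlp
  have h1 := hC E hE x hx (fun u hu τ => by
      have h2 := hxZ (Pu e u) (Finset.mem_image_of_mem _ hu) τ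
      rwa [eval_Pu] at h2)
    _ (hKi E x hx j tgt δi Asi hδi hμδi hδμi)
    (fun p σ => ∑ i, ∑ u, δp p i u * ((θ u : ℝ) * cntA σ (Asp p i u) -
      ((PP n d (θ u) : ℕ) : ℝ)) - Kp p)
    (fun p _ => hKp p E x hx (jp p) (tgtp p) (δp p) (Asp p) (hδp p) (hμδp p) (hδμp p))
  have h2 := hsumi Ki
  have h3 : ∀ p ∈ S, _ := fun p _ => hsump p (Kp p)
  have h4 := Finset.sum_le_sum h3
  rw [Finset.sum_sub_distrib, ← Finset.mul_sum, ← Finset.mul_sum, ← Finset.mul_sum,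
    ← Finset.mul_sum, ← Finset.mul_sum] at h4
  set A1 := ∑ i, LstG (gp n) r (fun τ : E →+* ℂ => mt (fun i l => j (P i l))
          (fun (τ : E →+* ℂ) l => τ (x l : E)) tgt τ i) with hA1
  set A2 := ∑ p ∈ S, ∑ i, LstG (gp n) r (fun τ : E →+* PadicAlgCl p =>
    mt (fun i l => jp p (P i l)) (fun (τ : E →+* PadicAlgCl p) l => τ (x l : E)) (tgtp p) τ i)
    with hA2
  set LH := Height.logHeight (fun i => (x i : E)) with hLH
  have hden : 0 < (r : ℝ) ^ n' * (d * ((n' : ℝ) + 1)) * r := by positivity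
  have h8 : (r : ℝ) ^ n' * (d * ((n' : ℝ) + 1)) * r * (η * (A1 + A2)) ≤
      (r : ℝ) ^ n' * (d * ((n' : ℝ) + 1)) * r * ((1 + ε) * (LH / r)) +
        (Cc + (r : ℝ) ^ (n' + 1) * (Ki + ∑ p ∈ S, Kp p)) := by
    have h9 : (r : ℝ) ^ n' * ((n' : ℝ) + 1 + ε * ((n' : ℝ) + 1)) * (d * LH) =
        (r : ℝ) ^ n' * (d * ((n' : ℝ) + 1)) * r * ((1 + ε) * (LH / r)) := by
      field_simp
    rw [h9] at h1
    have h10 : (r : ℝ) ^ n' * (d * ((n' : ℝ) + 1)) * r * (η * (A1 + A2)) =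
        (r : ℝ) ^ n' * (d * ((n' : ℝ) + 1) * (η * (r * A1))) +
          (r : ℝ) ^ n' * (d * ((n' : ℝ) + 1) * (η * (r * A2))) := by ring
    rw [h10]
    linarith
  have h9 : (r : ℝ) ^ n' * (d * ((n' : ℝ) + 1)) * r * ((1 + ε) * (LH / r)) +
        (Cc + (r : ℝ) ^ (n' + 1) * (Ki + ∑ p ∈ S, Kp p)) =
      (r : ℝ) ^ n' * (d * ((n' : ℝ) + 1)) * r * ((1 + ε) * (LH / r) +
        (Cc + (r : ℝ) ^ (n' + 1) * (Ki + ∑ p ∈ S, Kp p)) /
          ((r : ℝ) ^ n' * (d * ((n' : ℝ) + 1)) * r)) := by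
    rw [mul_add ((r : ℝ) ^ n' * (d * ((n' : ℝ) + 1)) * r) ((1 + ε) * (LH / r)) _,
      mul_div_cancel₀ _ hden.ne']
  rw [h9] at h8
  exact le_of_mul_le_mul_left h8 hden

end Pool.Agent.T9h24
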