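import Mathlib
import Pool.Agent.T9h24.Ydg

/-!
General position: at most `ν` local heights are large at a point.
-/

set_option autoImplicit false
set_option linter.unusedSectionVars false

open Finset MvPolynomial

namespace Pool.Agent.T9h24

variable {m n : ℕ} {F : Type} [NormedField F] [CharZero F] [IsAlgClosed F]

/-- a polynomial is bounded on the unit ball, uniformly in the embedding of its coefficients -/
theorem poly_bound (P : MvPolynomial (Fin (n + 1)) (AlgebraicClosure ℚ)) :
    ∃ B : ℝ, 1 ≤ B ∧ ∀ (j : AlgebraicClosure ℚ →+* F) (z : Fin (n + 1) → F), ‖z‖ ≤ 1 →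
      ‖eval z (map j P)‖ ≤ B := by
  classical
  choose Bf hB1 hB using fun w : AlgebraicClosure ℚ => embed_bound (F := F) w
  refine ⟨1 + ∑ a ∈ P.support, Bf (P.coeff a), ?_, fun j z hz => ?_⟩
  · have : 0 ≤ ∑ a ∈ P.support, Bf (P.coeff a) :=
      Finset.sum_nonneg fun a _ => zero_le_one.trans (hB1 _)
    linarith
  · rw [eval_map, eval₂_eq']
    refine (norm_sum_le _ _).trans ?_
    have h1 : ∀ a ∈ P.support, ‖j (P.coeff a) * ∏ i, z i ^ a i‖ ≤ Bf (P.coeff a) := by
      intro a ha
      rw [norm_mul]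
      have h2 : ‖∏ i, z i ^ a i‖ ≤ 1 :=
        (norm_mono_le z a).trans (pow_le_one₀ (norm_nonneg _) hz)
      calc _ ≤ Bf (P.coeff a) * 1 :=
            mul_le_mul (hB _ _) h2 (norm_nonneg _) (zero_le_one.trans (hB1 _))
        _ = _ := mul_one _
    refine (Finset.sum_le_sum h1).trans ?_
    linarith

/-- at a point of `X` one of the local heights of a tuple without common zeros is bounded -/
theorem ncz_bound {q r : ℕ} {G : Fin m → MvPolynomial (Fin (n + 1)) ℚ} {g : Fin m → ℕ}
    (hG : ∀ k, (G k).IsHomogeneous (g k))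
    {Fo : Fin q → MvPolynomial (Fin (n + 1)) (AlgebraicClosure ℚ)} {d : Fin q → ℕ}
    (hFo : ∀ i, (Fo i).IsHomogeneous (d i)) {e : Fin r → Fin q} (h : NCZ G Fo e) :
    ∃ A : ℝ, 0 ≤ A ∧ ∀ (j : AlgebraicClosure ℚ →+* F) (z : Fin (n + 1) → F), z ≠ 0 →
      (∀ k, eval z (map (algebraMap ℚ F) (G k)) = 0) →
      ∃ k, laq (d (e k)) (map j (Fo (e k))) z ≤ A := by
  classical
  set J : Ideal (MvPolynomial (Fin (n + 1)) (AlgebraicClosure ℚ)) := Ideal.span
    (Set.range (Sum.elim (fun k => map (algebraMap ℚ (AlgebraicClosure ℚ)) (G k))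
      (fun k => Fo (e k)))) with hJ
  have h0 : ∀ i, ∃ N : ℕ, (X i : MvPolynomial (Fin (n + 1)) (AlgebraicClosure ℚ)) ^ N ∈ J := by
    intro i
    have h1 : (X i : MvPolynomial (Fin (n + 1)) (AlgebraicClosure ℚ)) ∈ J.radical := by
      rw [← vanishingIdeal_zeroLocus_eq_radical (K := AlgebraicClosure ℚ)]
      intro z hz
      have h2 : z = 0 := by
        refine h z (fun k => ?_) fun k => ?_
        · exact hz _ (Ideal.subset_span ⟨Sum.inl k, rfl⟩)
        · exact hz _ (Ideal.subset_span ⟨Sum.inr k, rfl⟩)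
      rw [h2]
      simp
    exact h1
  choose N hN using h0
  have h1 : ∀ i, ∃ c : Fin m ⊕ Fin r → MvPolynomial (Fin (n + 1)) (AlgebraicClosure ℚ),
      ∑ s, c s * (Sum.elim (fun k => map (algebraMap ℚ (AlgebraicClosure ℚ)) (G k))
      (fun k => Fo (e k))) s = X i ^ N i := by
    intro i
    have h2 := hN i
    rw [hJ, Ideal.mem_span_range_iff_exists_fun] at h2
    exact h2
  choose c hc using h1
  choose B hB1 hB using fun P : MvPolynomial (Fin (n + 1)) (AlgebraicClosure ℚ) =>
    poly_bound (F := F) P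
  set A0 : ℝ := 1 + ∑ i, ∑ k, B (c i (Sum.inr k)) with hA0
  have hA0' : 1 ≤ A0 := by
    have : 0 ≤ ∑ i, ∑ k, B (c i (Sum.inr k)) :=
      Finset.sum_nonneg fun i _ => Finset.sum_nonneg fun k _ => zero_le_one.trans (hB1 _)
    linarith
  refine ⟨Real.log A0, Real.log_nonneg hA0', fun j z hz hzG => ?_⟩
  obtain ⟨i0, -, hi0⟩ := Finset.exists_mem_eq_sup' (s := (Finset.univ : Finset (Fin (n + 1))))
    Finset.univ_nonempty (fun i => ‖z i‖)
  have hz0 : 0 < ‖z‖ := norm_pos_iff.2 hz
  have hn : ‖z i0‖ = ‖z‖ := by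
    refine le_antisymm (norm_le_pi_norm z i0) ?_
    rw [pi_norm_le_iff_of_nonneg (norm_nonneg _)]
    intro i
    rw [← hi0]
    exact Finset.le_sup' (fun i => ‖z i‖) (Finset.mem_univ i)
  have hzi : z i0 ≠ 0 := by
    intro h2
    rw [h2, norm_zero] at hn
    linarith
  set w : Fin (n + 1) → F := (z i0)⁻¹ • z with hw
  have hw1 : ‖w‖ = 1 := by
    rw [hw, norm_smul, norm_inv, hn, inv_mul_cancel₀ hz0.ne']
  have hzw : z = z i0 • w := by
    rw [hw, smul_smul, mul_inv_cancel₀ hzi, one_smul]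
  have hsm : ∀ {d : ℕ} {P : MvPolynomial (Fin (n + 1)) F} (_ : P.IsHomogeneous d),
      eval z P = z i0 ^ d * eval w P := by
    intro d P hP
    conv_lhs => rw [hzw]
    rw [eval_eq', eval_eq', Finset.mul_sum]
    refine Finset.sum_congr rfl fun a ha => ?_
    have h1 : a.degree = d := by
      by_contra h
      exact mem_support_iff.1 ha (hP.coeff_eq_zero h)
    simp only [Pi.smul_apply, smul_eq_mul, mul_pow]
    rw [Finset.prod_mul_distrib, Finset.prod_pow_eq_pow_sum, ← Finsupp.degree_eq_sum, h1]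
    ring
  have hwG : ∀ k, eval w (map (algebraMap ℚ F) (G k)) = 0 := by
    intro k
    have h2 := hzG k
    rw [hsm ((hG k).map _)] at h2
    exact (mul_eq_zero.1 h2).resolve_left (pow_ne_zero _ hzi)
  have hlaq : ∀ k, laq (d (e k)) (map j (Fo (e k))) z =
      Real.log (1 / ‖eval w (map j (Fo (e k)))‖) := by
    intro k
    unfold laq
    rw [hsm ((hFo (e k)).map _), norm_mul, norm_pow, hn, ← div_div,
      div_self (pow_ne_zero _ hz0.ne')]
  -- the identity at `w`
  have h2 : ∑ k, eval w (map j (c i0 (Sum.inr k))) * eval w (map j (Fo (e k))) = 1 := by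
    have h3 := congrArg (fun P => eval w (map j P)) (hc i0)
    simp only [Fintype.sum_sum_type, Sum.elim_inl, Sum.elim_inr, map_add, map_sum, map_mul,
      map_pow, map_X, eval_X] at h3
    have h4 : w i0 = 1 := by
      rw [hw, Pi.smul_apply, smul_eq_mul, inv_mul_cancel₀ hzi]
    rw [h4, one_pow] at h3
    have h5 : ∑ k, eval w (map j (c i0 (Sum.inl k))) *
        eval w (map j (map (algebraMap ℚ (AlgebraicClosure ℚ)) (G k))) = 0 := by
      refine Finset.sum_eq_zero fun k _ => ?_
      rw [MvPolynomial.map_map]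
      have h6 : j.comp (algebraMap ℚ (AlgebraicClosure ℚ)) = algebraMap ℚ F :=
        Subsingleton.elim _ _
      rw [h6, hwG k, mul_zero]
    rw [h5, zero_add] at h3
    exact h3
  by_contra hcon
  push Not at hcon
  have h3 : ∀ k, ‖eval w (map j (Fo (e k)))‖ < 1 / A0 := by
    intro k
    have h4 := hcon k
    rw [hlaq k] at h4
    rcases eq_or_ne (eval w (map j (Fo (e k)))) 0 with h5 | h5
    · rw [h5, norm_zero]
      positivity
    · have h6 : 0 < ‖eval w (map j (Fo (e k)))‖ := norm_pos_iff.2 h5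
      have h7 := (Real.log_lt_log_iff (by linarith) (by positivity)).1 h4
      rw [lt_div_iff₀ h6] at h7
      rw [lt_div_iff₀ (by linarith)]
      linarith
  have h4 : (1 : ℝ) < 1 := by
    have hne : (Finset.univ : Finset (Fin r)).Nonempty := by
      rw [Finset.nonempty_iff_ne_empty]
      intro h5
      rw [h5, Finset.sum_empty] at h2
      exact zero_ne_one h2
    calc (1 : ℝ) = ‖∑ k, eval w (map j (c i0 (Sum.inr k))) * eval w (map j (Fo (e k)))‖ := by
          rw [h2, norm_one]
      _ ≤ ∑ k, ‖eval w (map j (c i0 (Sum.inr k))) * eval w (map j (Fo (e k)))‖ :=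
          norm_sum_le _ _
      _ < ∑ k, B (c i0 (Sum.inr k)) * (1 / A0) := by
          refine Finset.sum_lt_sum_of_nonempty hne fun k _ => ?_
          rw [norm_mul]
          refine lt_of_le_of_lt (mul_le_mul_of_nonneg_right (hB _ j w hw1.le) (norm_nonneg _)) ?_
          exact mul_lt_mul_of_pos_left (h3 k) (lt_of_lt_of_le one_pos (hB1 _))
      _ = (∑ k, B (c i0 (Sum.inr k))) * (1 / A0) := by rw [Finset.sum_mul]
      _ ≤ A0 * (1 / A0) := by
          refine mul_le_mul_of_nonneg_right ?_ (by positivity)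
          have h6 : ∑ k, B (c i0 (Sum.inr k)) ≤ ∑ i, ∑ k, B (c i (Sum.inr k)) :=
            Finset.single_le_sum (f := fun i => ∑ k, B (c i (Sum.inr k)))
              (fun i _ => Finset.sum_nonneg fun k _ => zero_le_one.trans (hB1 _))
              (Finset.mem_univ i0)
          linarith
      _ = 1 := by
          rw [mul_one_div, div_self (by linarith)]
  exact lt_irrefl _ h4

/-- the `k` largest values -/
theorem exists_top {q k : ℕ} (hk : k ≤ q) (f : Fin q → ℝ) :
    ∃ e : Fin k → Fin q, Function.Injective e ∧ ∀ i, (∀ l, e l ≠ i) → ∀ l, f i ≤ f (e l) := by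
  set σ := Tuple.sort (fun i => -f i) with hσ
  have hmon : Monotone ((fun i => -f i) ∘ σ) := Tuple.monotone_sort _
  refine ⟨fun l => σ (Fin.castLE hk l), fun a b hab => ?_, fun i hi l => ?_⟩
  · exact Fin.castLE_injective hk (σ.injective hab)
  · have h1 : k ≤ (σ.symm i : ℕ) := by
      by_contra h2
      push Not at h2
      apply hi ⟨σ.symm i, h2⟩
      have h3 : Fin.castLE hk ⟨(σ.symm i : ℕ), h2⟩ = σ.symm i := Fin.ext rfl
      show σ (Fin.castLE hk ⟨(σ.symm i : ℕ), h2⟩) = i
      rw [h3, Equiv.apply_symm_apply]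
    have h2 : Fin.castLE hk l ≤ σ.symm i := by
      rw [Fin.le_def]
      exact (le_of_lt l.2).trans h1
    have h3 := hmon h2
    simp only [Function.comp_apply, Equiv.apply_symm_apply] at h3
    linarith

/-- the `k` largest values on a subset -/
theorem exists_top_subset {q k : ℕ} (A : Finset (Fin q)) (hk : k ≤ A.card) (f : Fin q → ℝ) :
    ∃ e : Fin k → Fin q, Function.Injective e ∧ (∀ l, e l ∈ A) ∧
      ∀ i ∈ A, (∀ l, e l ≠ i) → ∀ l, f i ≤ f (e l) := by
  obtain ⟨e', he', h⟩ := exists_top hk (fun l : Fin A.card => f (A.equivFin.symm l : A))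
  refine ⟨fun l => (A.equivFin.symm (e' l) : A), fun a b hab => ?_, fun l => ?_,
    fun i hi hil l => ?_⟩
  · exact he' (A.equivFin.symm.injective (Subtype.ext hab))
  · exact (A.equivFin.symm (e' l)).2
  · have h1 := h (A.equivFin ⟨i, hi⟩) (fun l hl => by
      apply hil l
      show ((A.equivFin.symm (e' l) : A) : Fin q) = i
      rw [hl, Equiv.symm_apply_apply]) l
    rw [Equiv.symm_apply_apply] at h1
    exact h1

end Pool.Agent.T9h24
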