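import Mathlib
import Pool.Agent.T9h24.Mnf

/-!
# The subspace theorem for closed points of bounded degree of projective space

Let `X = ℙ^n`, and let `D` be a finite set of hyperplanes with algebraic coefficients (their
coefficients are zeros of a fixed integral polynomial `G`). We prove an inequality of the type of
Vojta's conjecture for all points `x` of degree at most `r` over `ℚ` outside of a finite set `Z` of
hyperplanes, which depends on `n`, `r` and `D` only, neither on `S` nor on `ε`: for all finite
sets `S` of primes and all `ε > 0` there is a constant `C` such that, for all choices of `n + 1`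
linearly independent hyperplanes `L_{v,0}, …, L_{v,n}` of `D` at each place `v ∈ S ∪ {∞}`,
`∑_{v ∈ S ∪ {∞}} E min_π ∑_k λ_{L_{v,k},v}(y_{π(k)}) ≤ (n + 1 + ε) h(x) + C`,
where `E` is the mean over all `(n + 1)`-tuples `(y_0, …, y_n)` of conjugates of `x` over the
algebraic closure of `ℚ_v` and `π` runs over the permutations.

* For `r = 1` this is Schmidt's subspace theorem (with the exceptional set of Vojta's refinement).
  For all `r` the constant is the same, `n + 1`, the degree of an anticanonical divisor, and it is
  optimal.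
* The mean over the conjugates `y` of `x` of `∑_k λ_{L_{v,k},v}(y)` is the local height
  `λ_{D_v,v}(x)` of the conjecture for `D_v = ∑_k L_{v,k}`; the mean over the tuples is smaller.
  They coincide if the local heights `λ_{L_{v,k},v}(y)` do not depend on the conjugate `y`, for
  example if the `L_{v,k}` are rational and there is one place of `ℚ(x)` above `v`. So for the
  points `x` of degree at most `r` outside of `Z` which have this property at the places `v ∈ S`
  this is the inequality of Vojta's conjecture, even without the term `d(x)`.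

Proof. Let `F_x` be the product of the linear forms `∑_j y_j X_j` over the conjugates `y` of `x`,
made primitive. The companion theorem (see `PairsOfConjugates`) is extended, by means of Minkowski's
second theorem over number fields and a dual version of the subspace theorem, to show that `F_x`
is contained in one of finitely many rational subspaces `W` of the space of forms of degree `r`
which have a basis of integral forms `G_i` whose coefficients, in the coordinates given by the
`L_{v,k}`, are not larger than those of `F_x` up to `H(F_x)^ε`. If the forms in `W` have a common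
zero then it is a hyperplane of `Z`. Otherwise, by the Nullstellensatz, the products of `j` forms
`G_i` and monomials of fixed degree span the forms of degree `D = j r + m`; the determinant of a
basis of such products is a nonzero integer, and it is small at `v` since the sum of the
costs of the optimal assignments of `D` points to `n + 1` boxes of all possible sizes is at least
the sum of the tropical determinants of all `(n + 1)`-tuples of points.
-/

set_option autoImplicit false

namespace Pool.Agent.Results.MP_651af7_nt.ClosedPointsSubspace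

open Polynomial

variable {n : ℕ} {F : Type} [NormedField F]

/-- The local height `λ_L(y) = log (|L| |y| / |L(y)|)` of the hyperplane `L` at the point `y` of
projective space, with maximum norms. -/
noncomputable def lambda (L y : Fin (n + 1) → F) : ℝ :=
  Real.log (‖L‖ * ‖y‖ / ‖∑ j, L j * y j‖)

/-- `L_0, …, L_n` are linearly independent linear forms with coefficients among the zeros of
`G`. -/
def IsFrame (G : ℤ[X]) (L : Fin (n + 1) → Fin (n + 1) → F) : Prop :=
  (∀ k j, aeval (L k j) G = 0) ∧ (Matrix.of L).det ≠ 0

/-- The mean, over all `(n + 1)`-tuples `(y_0, …, y_n)` of conjugates `y_l = σ_l(x)` of the point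
`x` of projective space over the field `F`, of the minimum over the permutations `π` of
`∑_l λ_{L_π(l)}(y_l)`. -/
noncomputable def matching [CharZero F] [IsAlgClosed F] {E : Type} [Field E] [NumberField E]
    (L : Fin (n + 1) → Fin (n + 1) → F) (x : Fin (n + 1) → E) : ℝ :=
  (∑ σ : Fin (n + 1) → (E →+* F),
    Finset.univ.inf' Finset.univ_nonempty fun π : Equiv.Perm (Fin (n + 1)) =>
      ∑ l, lambda (L (π l)) fun j => σ l (x j)) / (Module.finrank ℚ E : ℝ) ^ (n + 1)

/-- The absolute logarithmic height of a point of projective space over the number field `E`. -/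
noncomputable def height {E : Type} [Field E] [NumberField E] (x : Fin (n + 1) → E) : ℝ :=
  Height.logHeight x / Module.finrank ℚ E

theorem lambda_smul (L y : Fin (n + 1) → F) (c : F) (hc : c ≠ 0) :
    lambda L (fun j => c * y j) = lambda L y := by
  unfold lambda
  have h1 : ∑ j, L j * (c * y j) = c * ∑ j, L j * y j := by
    rw [Finset.mul_sum]
    exact Finset.sum_congr rfl fun j _ => by ring
  have h2 : ‖fun j => c * y j‖ = ‖c‖ * ‖y‖ := by
    have : (fun j => c * y j) = c • y := rfl
    rw [this, norm_smul]
  rw [h1, h2, norm_mul, mul_left_comm, mul_div_mul_left _ _ (norm_ne_zero_iff.2 hc)]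

theorem matching_smul [CharZero F] [IsAlgClosed F] {E : Type} [Field E] [NumberField E]
    (L : Fin (n + 1) → Fin (n + 1) → F) (x : Fin (n + 1) → E) (c : E) (hc : c ≠ 0) :
    matching L (fun j => c * x j) = matching L x := by
  unfold matching
  congr 1
  refine Finset.sum_congr rfl fun σ _ => ?_
  congr 1
  funext π
  refine Finset.sum_congr rfl fun l _ => ?_
  have h1 : (fun j => σ l (c * x j)) = fun j => σ l c * σ l (x j) := by
    funext j
    rw [map_mul]
  rw [h1, lambda_smul _ _ _ ((map_ne_zero (σ l)).2 hc)]

theorem roots_of_aeval {F : Type} [Field F] [CharZero F] (G : ℤ[X]) (hG : G ≠ 0) (z : F)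
    (h : aeval z G = 0) : z ∈ (Pool.Agent.T9h24.mp F G).roots := by
  rw [mem_roots (Pool.Agent.T9h24.mp_ne hG)]
  unfold Pool.Agent.T9h24.mp IsRoot
  rw [eval_map, ← h]
  rfl

/-- **The subspace theorem for closed points of bounded degree.** For all `n`, `r` and `G ≠ 0`
there is a finite set `Z` of hyperplanes of `ℙ^n` over the algebraic closure of `ℚ`, among them all
those with coefficients among the zeros of `G`, with the following property. For all finite sets
`S` of primes and all `ε > 0` there is a constant `C` such that for all points `x` of `ℙ^n` over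
number fields `E` of degree at most `r` with no conjugate in `Z`, and for all choices at each place
`v ∈ S ∪ {∞}` of `n + 1` linearly independent linear forms with coefficients among the zeros of
`G`,
`∑_{v ∈ S ∪ {∞}} E min_π ∑_l λ_{L_{v,π(l)}}(y_l) ≤ (n + 1 + ε) h(x) + C`. -/
theorem result (n r : ℕ) (G : ℤ[X]) (hG : G ≠ 0) :
    ∃ Z : Finset (Fin (n + 1) → AlgebraicClosure ℚ), (∀ z ∈ Z, z ≠ 0) ∧
      (∀ z : Fin (n + 1) → AlgebraicClosure ℚ, z ≠ 0 → (∀ j, aeval (z j) G = 0) → z ∈ Z) ∧
      ∀ (S : Finset Nat.Primes) (ε : ℝ), 0 < ε → ∃ C : ℝ,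
        ∀ (E : Type) [Field E] [NumberField E], Module.finrank ℚ E ≤ r →
        ∀ x : Fin (n + 1) → E, x ≠ 0 →
        (∀ z ∈ Z, ∀ τ : E →+* AlgebraicClosure ℚ, ∑ j, z j * τ (x j) ≠ 0) →
        ∀ L : Fin (n + 1) → Fin (n + 1) → ℂ, IsFrame G L →
        ∀ Lp : ∀ p : Nat.Primes, Fin (n + 1) → Fin (n + 1) → PadicAlgCl p,
        (∀ p ∈ S, IsFrame G (Lp p)) →
          matching L x + ∑ p ∈ S, matching (Lp p) x ≤ ((n : ℝ) + 1 + ε) * height x + C := by
  classical
  have hZr : ∀ s : ℕ, ∃ Z : Finset (Fin (n + 1) → AlgebraicClosure ℚ), 1 ≤ s →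
      (∀ u ∈ Z, u ≠ 0) ∧
      ∀ (S : Finset Nat.Primes) (ε : ℝ), 0 < ε → ∃ Cc : ℝ, ∀ (E : Type) [Field E]
        [NumberField E], Module.finrank ℚ E = s → ∀ x : Fin (n + 1) → E, x ≠ 0 →
      (∀ u ∈ Z, ∀ τ : E →+* AlgebraicClosure ℚ, ∑ j, u j * τ (x j) ≠ 0) →
      ∀ L : Fin (n + 1) → Fin (n + 1) → ℂ, IsFrame G L →
      ∀ Lp : ∀ p : Nat.Primes, Fin (n + 1) → Fin (n + 1) → PadicAlgCl p,
        (∀ p ∈ S, IsFrame G (Lp p)) →
          matching L x + ∑ p ∈ S, matching (Lp p) x ≤ ((n : ℝ) + 1 + ε) * height x + Cc := by
    intro s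
    by_cases hs : 1 ≤ s
    · obtain ⟨Z, hZ, h⟩ := Pool.Agent.T9h24.mainF n s hs G hG
      refine ⟨Z, fun _ => ⟨hZ, fun S ε hε => ?_⟩⟩
      obtain ⟨Cc, hC⟩ := h S ε hε
      have hs0 : (0 : ℝ) < s := by exact_mod_cast hs
      refine ⟨Cc / (s : ℝ) ^ (n + 1), fun E _ _ hE x hx hxZ L hL Lp hLp => ?_⟩
      -- integral coordinates
      obtain ⟨d, hd0, hd⟩ := exists_integral_multiples ℤ ℚ (Finset.univ.image x)
      have hint : ∀ j, ∃ w : NumberField.RingOfIntegers E, (w : E) = (d : E) * x j := by
        intro j
        have h1 := hd (x j) (Finset.mem_image_of_mem _ (Finset.mem_univ j))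
        rw [zsmul_eq_mul] at h1
        exact ⟨⟨_, h1⟩, rfl⟩
      choose x' hx' using hint
      have hdE : (d : E) ≠ 0 := by exact_mod_cast hd0
      have hx'0 : x' ≠ 0 := by
        intro h0
        apply hx
        funext j
        have h1 := hx' j
        rw [h0] at h1
        have h2 : (d : E) * x j = 0 := by rw [← h1]; rfl
        exact (mul_eq_zero.1 h2).resolve_left hdE
      have hx'f : (fun j => (x' j : E)) = fun j => (d : E) * x j := funext hx'
      have hmain := hC E hE x' hx'0 (by
        intro u hu τ h0
        apply hxZ u hu τ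
        have h1 : ∑ j, u j * τ (x' j : E) = τ (d : E) * ∑ j, u j * τ (x j) := by
          rw [Finset.mul_sum]
          refine Finset.sum_congr rfl fun j _ => ?_
          rw [hx', map_mul]
          ring
        rw [h1] at h0
        exact (mul_eq_zero.1 h0).resolve_left ((map_ne_zero τ).2 hdE))
        L (fun k j => roots_of_aeval G hG _ (hL.1 k j)) hL.2 Lp
        (fun p hp k j => roots_of_aeval G hG _ ((hLp p hp).1 k j)) (fun p hp => (hLp p hp).2)
      have hht : Height.logHeight (fun i => (x' i : E)) = Height.logHeight x := by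
        rw [hx'f]
        exact Height.logHeight_smul_eq_logHeight x hdE
      have hmat : ∀ (F : Type) [NormedField F] [CharZero F] [IsAlgClosed F]
          (L : Fin (n + 1) → Fin (n + 1) → F),
          (∑ σ : Fin (n + 1) → (E →+* F), Pool.Agent.T9h24.td (fun (τ : E →+* F) k =>
            Pool.Agent.T9h24.lamH (L k) (fun i => τ (x' i : E))) σ) =
            matching L x * (s : ℝ) ^ (n + 1) := by
        intro F _ _ _ L
        rw [← matching_smul L x (d : E) hdE, ← hx'f]
        unfold matching
        rw [hE, div_mul_cancel₀ _ (pow_pos hs0 _).ne']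
        rfl
      rw [hmat ℂ L, hht] at hmain
      simp only [hmat] at hmain
      rw [← Finset.sum_mul, ← add_mul] at hmain
      unfold height
      rw [hE]
      have h1 : ((n : ℝ) + 1 + ε) * (Height.logHeight x / s) + Cc / (s : ℝ) ^ (n + 1) =
          ((s : ℝ) ^ n * ((n : ℝ) + 1 + ε) * Height.logHeight x + Cc) / (s : ℝ) ^ (n + 1) := by
        rw [pow_succ]
        field_simp
      rw [h1, le_div_iff₀ (pow_pos hs0 _)]
      exact hmain
    · exact ⟨∅, fun h => absurd h hs⟩
  choose Zs hZs using hZr
  set R : Finset (AlgebraicClosure ℚ) :=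
    (Pool.Agent.T9h24.mp (AlgebraicClosure ℚ) G).roots.toFinset with hR
  set Z0 : Finset (Fin (n + 1) → AlgebraicClosure ℚ) :=
    (Fintype.piFinset fun _ : Fin (n + 1) => R).filter (fun z => z ≠ 0) with hZ0
  refine ⟨Z0 ∪ (Finset.Icc 1 r).biUnion Zs, fun z hz => ?_, fun z hz hzG => ?_,
    fun S ε hε => ?_⟩
  · rcases Finset.mem_union.1 hz with h | h
    · exact (Finset.mem_filter.1 h).2
    · obtain ⟨s, hs, hs'⟩ := Finset.mem_biUnion.1 h
      exact (hZs s (Finset.mem_Icc.1 hs).1).1 z hs'
  · refine Finset.mem_union_left _ (Finset.mem_filter.2 ⟨Fintype.mem_piFinset.2 fun j => ?_, hz⟩)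
    rw [hR, Multiset.mem_toFinset]
    exact roots_of_aeval G hG _ (hzG j)
  · have hCs : ∀ s : ℕ, ∃ Cc : ℝ, 1 ≤ s → ∀ (E : Type) [Field E]
        [NumberField E], Module.finrank ℚ E = s → ∀ x : Fin (n + 1) → E, x ≠ 0 →
      (∀ u ∈ Zs s, ∀ τ : E →+* AlgebraicClosure ℚ, ∑ j, u j * τ (x j) ≠ 0) →
      ∀ L : Fin (n + 1) → Fin (n + 1) → ℂ, IsFrame G L →
      ∀ Lp : ∀ p : Nat.Primes, Fin (n + 1) → Fin (n + 1) → PadicAlgCl p,
        (∀ p ∈ S, IsFrame G (Lp p)) →
          matching L x + ∑ p ∈ S, matching (Lp p) x ≤ ((n : ℝ) + 1 + ε) * height x + Cc := by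
      intro s
      by_cases hs : 1 ≤ s
      · obtain ⟨Cc, hC⟩ := (hZs s hs).2 S ε hε
        exact ⟨Cc, fun _ => hC⟩
      · exact ⟨0, fun h => absurd h hs⟩
    choose Cs hCs using hCs
    refine ⟨∑ s ∈ Finset.Icc 1 r, |Cs s|, fun E _ _ hE x hx hxZ L hL Lp hLp => ?_⟩
    have hpos : 1 ≤ Module.finrank ℚ E := Module.finrank_pos
    have hmem : Module.finrank ℚ E ∈ Finset.Icc 1 r := Finset.mem_Icc.2 ⟨hpos, hE⟩
    have h1 := hCs _ hpos E rfl x hx (fun u hu => hxZ u (Finset.mem_union_right _
      (Finset.mem_biUnion.2 ⟨_, hmem, hu⟩))) L hL Lp hLp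
    have h2 : |Cs (Module.finrank ℚ E)| ≤ ∑ s ∈ Finset.Icc 1 r, |Cs s| :=
      Finset.single_le_sum (f := fun s => |Cs s|) (fun s _ => abs_nonneg _) hmem
    have h3 := le_abs_self (Cs (Module.finrank ℚ E))
    linarith

end Pool.Agent.Results.MP_651af7_nt.ClosedPointsSubspace
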