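import Mathlib
import Pool.Agent.T9h24.Glo

/-!
The discriminant.
-/

set_option autoImplicit false
set_option linter.unusedSectionVars false

open Polynomial

namespace Pool.Agent.T9h24

section local_part

variable {F : Type} [NormedField F] [CharZero F] [IsAlgClosed F]

theorem nodup_mp {f : ℤ[X]} (hf : Irreducible f) (hdeg : f.natDegree ≠ 0) :
    (mp F f).roots.Nodup := by
  have hirr : Irreducible (mp ℚ f) :=
    ((hf.isPrimitive hdeg).irreducible_iff_irreducible_map_fraction_map (K := ℚ)).1 hf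
  have h1 : (mp ℚ f).Separable := hirr.separable
  have h2 : (mp F f).Separable := by
    rw [← mp_rat (F := F) f]
    exact h1.map
  exact nodup_roots h2

open Classical in
/-- the roots -/
noncomputable def rts (F : Type) [Field F] (f : ℤ[X]) : Finset F := (mp F f).roots.toFinset

theorem sum_rts {f : ℤ[X]} (hf : Irreducible f) (hdeg : f.natDegree ≠ 0) (g : F → ℝ) :
    ((mp F f).roots.map g).sum = ∑ x ∈ rts F f, g x := by
  classical
  have h1 := nodup_mp (F := F) hf hdeg
  unfold rts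
  rw [Finset.sum_multiset_map_count]
  refine Finset.sum_congr rfl fun x hx => ?_
  rw [Multiset.count_eq_one_of_mem h1 (Multiset.mem_toFinset.1 hx), one_smul]

theorem card_rts {f : ℤ[X]} (hf : Irreducible f) (hdeg : f.natDegree ≠ 0) :
    (rts F f).card = f.natDegree := by
  classical
  unfold rts
  rw [Multiset.toFinset_card_of_nodup (nodup_mp hf hdeg), card_roots_mp]

open Classical in
/-- the sum of the local heights of the diagonal at the pairs of different roots -/
noncomputable def dsum (F : Type) [NormedField F] (f : ℤ[X]) : ℝ :=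
  ∑ x ∈ rts F f, ∑ z ∈ (rts F f).erase x, lam z x

/-- the discriminant and the distances of the roots -/
theorem log_discr {f : ℤ[X]} (hf : Irreducible f) (hdeg : f.natDegree ≠ 0) :
    f.discr ≠ 0 ∧ Real.log ‖((f.discr : ℤ) : F)‖ =
      (2 * f.natDegree - 2) * Real.log (mm (mp F f)) - dsum F f := by
  classical
  set r := f.natDegree with hr
  have hr0 : 1 ≤ r := Nat.one_le_iff_ne_zero.2 hdeg
  have hf0 := hf.ne_zero
  have h0 := mp_ne (F := F) hf0
  set a := (mp F f).leadingCoeff with ha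
  have ha0 : a ≠ 0 := leadingCoeff_ne_zero.2 h0
  have hna : 0 < ‖a‖ := norm_pos_iff.2 ha0
  have haf : ((f.leadingCoeff : ℤ) : F) = a := by
    rw [ha]
    unfold mp
    rw [leadingCoeff_map_of_injective (RingHom.injective_int _)]
    rfl
  -- the resultant
  have h1 : ((resultant f f.derivative r (r - 1) : ℤ) : F) = a ^ (r - 1) *
      ((mp F f).roots.map fun x => (mp F f.derivative).eval x).prod := by
    have e1 := resultant_map_map f f.derivative r (r - 1) (Int.castRingHom F)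
    have e2 := resultant_eq_prod_eval (mp F f) (mp F f.derivative) (r - 1) (by
      rw [natDegree_mp]
      exact natDegree_derivative_le f) (mp_splits f)
    rw [natDegree_mp] at e2
    have e3 : resultant (mp F f) (mp F f.derivative) r (r - 1) =
        ((resultant f f.derivative r (r - 1) : ℤ) : F) := e1
    rw [← e3, hr, e2]
  have hder : ∀ x ∈ rts F f, (mp F f.derivative).eval x = a * ∏ z ∈ (rts F f).erase x, (x - z) := by
    intro x hx
    have hx' : x ∈ (mp F f).roots := Multiset.mem_toFinset.1 hx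
    have e1 : mp F f.derivative = derivative (mp F f) := by
      unfold mp
      rw [derivative_map]
    rw [e1]
    conv_lhs => rw [(mp_splits f).eq_prod_roots]
    rw [derivative_C_mul, eval_C_mul, eval_multiset_prod_X_sub_C_derivative hx']
    congr 1
    have e2 : (rts F f).erase x = ((mp F f).roots.erase x).toFinset := by
      unfold rts
      ext z
      rw [Finset.mem_erase, Multiset.mem_toFinset, Multiset.mem_toFinset,
        Multiset.Nodup.mem_erase_iff (nodup_mp hf hdeg)]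
    rw [e2, Finset.prod_multiset_map_count]
    refine Finset.prod_congr rfl fun z hz => ?_
    rw [Multiset.count_eq_one_of_mem ((nodup_mp hf hdeg).erase x) (Multiset.mem_toFinset.1 hz),
      pow_one]
  have hne : ∀ x ∈ rts F f, ∀ z ∈ (rts F f).erase x, x - z ≠ 0 := fun x _ z hz =>
    sub_ne_zero.2 (Finset.ne_of_mem_erase hz).symm
  have hder0 : ∀ x ∈ rts F f, (mp F f.derivative).eval x ≠ 0 := by
    intro x hx
    rw [hder x hx]
    exact mul_ne_zero ha0 (Finset.prod_ne_zero_iff.2 (hne x hx))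
  have h2 : ((mp F f).roots.map fun x => (mp F f.derivative).eval x).prod =
      ∏ x ∈ rts F f, (mp F f.derivative).eval x := by
    unfold rts
    rw [Finset.prod_multiset_map_count]
    refine Finset.prod_congr rfl fun x hx => ?_
    rw [Multiset.count_eq_one_of_mem (nodup_mp hf hdeg) (Multiset.mem_toFinset.1 hx), pow_one]
  have h3 := resultant_deriv (f := f) (natDegree_pos_iff_degree_pos.1 (by omega))
  rw [← hr] at h3
  have h4 : ‖((resultant f f.derivative r (r - 1) : ℤ) : F)‖ = ‖a‖ * ‖((f.discr : ℤ) : F)‖ := by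
    rw [h3]
    push_cast
    rw [norm_mul, norm_mul, norm_pow, norm_neg, norm_one, one_pow, one_mul, haf]
  have hprodne : ∏ x ∈ rts F f, (mp F f.derivative).eval x ≠ 0 := Finset.prod_ne_zero_iff.2 hder0
  have hdisc : f.discr ≠ 0 := by
    intro h5
    rw [h5, Int.cast_zero, norm_zero, mul_zero, h1, h2, norm_eq_zero] at h4
    exact mul_ne_zero (pow_ne_zero _ ha0) hprodne h4
  refine ⟨hdisc, ?_⟩
  have hdF : ((f.discr : ℤ) : F) ≠ 0 := by exact_mod_cast hdisc
  have h5 : Real.log ‖a‖ + Real.log ‖((f.discr : ℤ) : F)‖ = (r - 1 : ℕ) * Real.log ‖a‖ +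
      ∑ x ∈ rts F f, Real.log ‖(mp F f.derivative).eval x‖ := by
    rw [← Real.log_mul hna.ne' (norm_ne_zero_iff.2 hdF), ← h4, h1, h2, norm_mul, norm_pow,
      Real.log_mul (pow_pos hna _).ne' (norm_ne_zero_iff.2 hprodne), Real.log_pow, norm_prod,
      Real.log_prod fun x hx => norm_ne_zero_iff.2 (hder0 x hx)]
  have h6 : ∀ x ∈ rts F f, Real.log ‖(mp F f.derivative).eval x‖ =
      Real.log ‖a‖ + ((r : ℝ) - 1) * lamInf x + ∑ z ∈ (rts F f).erase x, lamInf z -
        ∑ z ∈ (rts F f).erase x, lam z x := by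
    intro x hx
    rw [hder x hx, norm_mul, Real.log_mul hna.ne' (norm_ne_zero_iff.2
      (Finset.prod_ne_zero_iff.2 (hne x hx))), norm_prod,
      Real.log_prod fun z hz => norm_ne_zero_iff.2 (hne x hx z hz)]
    have e1 : ∀ z ∈ (rts F f).erase x, Real.log ‖x - z‖ = lamInf x + lamInf z - lam z x := by
      intro z hz
      rw [lam_eq z x (Finset.ne_of_mem_erase hz).symm]
      ring
    rw [Finset.sum_congr rfl e1, Finset.sum_sub_distrib, Finset.sum_add_distrib, Finset.sum_const,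
      Finset.card_erase_of_mem hx, card_rts hf hdeg, nsmul_eq_mul, Nat.cast_sub hr0]
    push_cast
    ring
  rw [Finset.sum_congr rfl h6, Finset.sum_sub_distrib, Finset.sum_add_distrib,
    Finset.sum_add_distrib, Finset.sum_const, card_rts hf hdeg, nsmul_eq_mul, ← Finset.mul_sum]
    at h5
  have h7 : ∑ x ∈ rts F f, ∑ z ∈ (rts F f).erase x, lamInf z =
      ((r : ℝ) - 1) * ∑ x ∈ rts F f, lamInf x := by
    have e1 : ∀ x ∈ rts F f, ∑ z ∈ (rts F f).erase x, lamInf z =
        ∑ z ∈ rts F f, lamInf z - lamInf x := by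
      intro x hx
      rw [← Finset.add_sum_erase _ _ hx]
      ring
    rw [Finset.sum_congr rfl e1, Finset.sum_sub_distrib, Finset.sum_const, card_rts hf hdeg,
      nsmul_eq_mul]
    ring
  rw [h7] at h5
  have h8 := log_mm (mp F f) h0
  have h9 := sum_rts (F := F) hf hdeg lamInf
  rw [h9, ← ha] at h8
  unfold dsum
  rw [h8]
  rw [Nat.cast_sub hr0] at h5
  push_cast at h5
  linarith

/-- the sum over the pairs of roots -/
theorem pairs_eq {f : ℤ[X]} (hf : Irreducible f) (hdeg : f.natDegree ≠ 0)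
    (D : Finset (Option F)) : pairs D (mp F f) =
      ∑ P ∈ D, ∑ x ∈ rts F f, ∑ y ∈ rts F f, min (lamO P y) (lamO P x) := by
  unfold pairs
  refine Finset.sum_congr rfl fun P _ => ?_
  rw [sum_rts hf hdeg]
  refine Finset.sum_congr rfl fun x _ => ?_
  rw [sum_rts hf hdeg]

/-- the sum of the local heights -/
noncomputable def prox (D : Finset (Option F)) (f : ℤ[X]) : ℝ :=
  ∑ P ∈ D, ∑ x ∈ rts F f, lamO P x

/-- the conjugates repel each other away from the divisor -/
def Rep (D : Finset (Option F)) (κ : ℝ) (f : ℤ[X]) : Prop :=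
  ∀ x ∈ rts F f, ∀ y ∈ rts F f, x ≠ y → lam y x ≤ κ + ∑ P ∈ D, min (lamO P y) (lamO P x)

theorem prox_add_dsum {f : ℤ[X]} (hf : Irreducible f) (hdeg : f.natDegree ≠ 0)
    (D : Finset (Option F)) (κ : ℝ) (hκ : 0 ≤ κ) (h : Rep D κ f) :
    prox D f + dsum F f ≤ pairs D (mp F f) + f.natDegree ^ 2 * κ := by
  classical
  rw [pairs_eq hf hdeg]
  unfold prox dsum
  have h1 : ∀ x ∈ rts F f, ∑ z ∈ (rts F f).erase x, lam z x ≤
      ∑ z ∈ (rts F f).erase x, (κ + ∑ P ∈ D, min (lamO P z) (lamO P x)) := by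
    intro x hx
    exact Finset.sum_le_sum fun z hz => h x hx z (Finset.mem_of_mem_erase hz)
      (Finset.ne_of_mem_erase hz).symm
  have h2 : ∀ x ∈ rts F f, ∑ P ∈ D, lamO P x + ∑ z ∈ (rts F f).erase x, lam z x ≤
      f.natDegree * κ + ∑ P ∈ D, ∑ y ∈ rts F f, min (lamO P y) (lamO P x) := by
    intro x hx
    have h3 := h1 x hx
    rw [Finset.sum_add_distrib, Finset.sum_const, Finset.card_erase_of_mem hx,
      card_rts hf hdeg, nsmul_eq_mul] at h3
    have h4 : ((f.natDegree - 1 : ℕ) : ℝ) * κ ≤ f.natDegree * κ := by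
      refine mul_le_mul_of_nonneg_right ?_ hκ
      exact_mod_cast Nat.sub_le _ _
    have h5 : ∑ P ∈ D, ∑ y ∈ rts F f, min (lamO P y) (lamO P x) =
        ∑ P ∈ D, lamO P x + ∑ z ∈ (rts F f).erase x, ∑ P ∈ D, min (lamO P z) (lamO P x) := by
      rw [Finset.sum_comm (s := (rts F f).erase x), ← Finset.sum_add_distrib]
      refine Finset.sum_congr rfl fun P _ => ?_
      rw [← Finset.add_sum_erase _ _ hx, min_self]
    rw [h5]
    linarith
  have h3 := Finset.sum_le_sum h2
  rw [Finset.sum_add_distrib, Finset.sum_add_distrib, Finset.sum_const, card_rts hf hdeg,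
    nsmul_eq_mul] at h3
  have h4 : ∑ x ∈ rts F f, ∑ P ∈ D, lamO P x = ∑ P ∈ D, ∑ x ∈ rts F f, lamO P x :=
    Finset.sum_comm
  have h5 : ∑ x ∈ rts F f, ∑ P ∈ D, ∑ y ∈ rts F f, min (lamO P y) (lamO P x) =
      ∑ P ∈ D, ∑ x ∈ rts F f, ∑ y ∈ rts F f, min (lamO P y) (lamO P x) := Finset.sum_comm
  rw [h4, h5] at h3
  have h6 : (f.natDegree : ℝ) * (f.natDegree * κ) = f.natDegree ^ 2 * κ := by ring
  rw [h6] at h3
  linarith

end local_part

/-- the Mahler measure is at least one at a finite place -/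
theorem one_le_mm_padic {F : Type} [NormedField F] [IsUltrametricDist F] [CharZero F]
    [IsAlgClosed F] (f : ℤ[X]) (hf : f.IsPrimitive) : 1 ≤ mm (mp F f) := by
  classical
  have h1 := sum_taylor_le (mp F f) (mp_splits f) 0 1 zero_le_one f.natDegree
  obtain ⟨u, hu⟩ := exists_bezout f hf f.natDegree le_rfl
  -- the coefficients are bounded by the Mahler measure
  have hco : ∀ (s : Multiset F) (n : ℕ), ‖(s.map fun y => X - C y).prod.coeff n‖ ≤
      (s.map fun y => max 1 ‖y‖).prod := by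
    intro s
    induction s using Multiset.induction_on with
    | empty =>
      intro n
      rw [Multiset.map_zero, Multiset.prod_zero, Multiset.map_zero, Multiset.prod_zero, coeff_one]
      split_ifs <;> simp
    | cons a s ih =>
      intro n
      rw [Multiset.map_cons, Multiset.prod_cons, Multiset.map_cons, Multiset.prod_cons]
      have hp0 : 0 ≤ (s.map fun y => max 1 ‖y‖).prod := Multiset.prod_nonneg fun b hb => by
        obtain ⟨y, -, rfl⟩ := Multiset.mem_map.1 hb
        exact (max1_pos y).le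
      rcases n with _ | n
      · rw [mul_coeff_zero, norm_mul]
        have e1 : ‖(X - C a : F[X]).coeff 0‖ ≤ max 1 ‖a‖ := by simp
        exact mul_le_mul e1 (ih 0) (norm_nonneg _) (max1_pos a).le
      · rw [coeff_X_sub_C_mul]
        have e1 : ‖(s.map fun y => X - C y).prod.coeff n -
            a * (s.map fun y => X - C y).prod.coeff (n + 1)‖ ≤
            max ‖(s.map fun y => X - C y).prod.coeff n‖
              ‖a * (s.map fun y => X - C y).prod.coeff (n + 1)‖ := by
          have := IsUltrametricDist.norm_add_le_max ((s.map fun y => X - C y).prod.coeff n)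
            (-(a * (s.map fun y => X - C y).prod.coeff (n + 1)))
          rwa [norm_neg, ← sub_eq_add_neg] at this
        refine e1.trans (max_le ?_ ?_)
        · refine (ih n).trans ?_
          exact le_mul_of_one_le_left hp0 (le_max_left _ _)
        · rw [norm_mul]
          exact mul_le_mul (le_max_right _ _) (ih _) (norm_nonneg _) (max1_pos a).le
  have hcf : ∀ n, ‖((f.coeff n : ℤ) : F)‖ ≤ mm (mp F f) := by
    intro n
    rw [← mp_coeff F f n, (mp_splits f).eq_prod_roots, coeff_C_mul, norm_mul]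
    conv_rhs => rw [← (mp_splits f).eq_prod_roots]
    exact mul_le_mul_of_nonneg_left (hco _ n) (norm_nonneg _)
  by_contra hcon
  push Not at hcon
  have h2 : ‖((∑ i : Fin (f.natDegree + 1), u i * f.coeff i : ℤ) : F)‖ < 1 := by
    push_cast
    have h3 : ∀ s : Finset (Fin (f.natDegree + 1)),
        ‖∑ i ∈ s, (u i : F) * (f.coeff i : F)‖ < 1 := by
      intro s
      induction s using Finset.induction_on with
      | empty => simp
      | insert i s hi ih =>
        rw [Finset.sum_insert hi]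
        refine (IsUltrametricDist.norm_add_le_max _ _).trans_lt (max_lt ?_ ih)
        rw [norm_mul]
        have e1 : ‖(u i : F)‖ ≤ 1 := IsUltrametricDist.norm_intCast_le_one F _
        have e2 := (hcf i).trans_lt hcon
        calc ‖(u i : F)‖ * ‖((f.coeff i : ℤ) : F)‖ ≤ 1 * ‖((f.coeff i : ℤ) : F)‖ :=
              mul_le_mul_of_nonneg_right e1 (norm_nonneg _)
          _ < 1 := by rw [one_mul]; exact e2
    exact h3 Finset.univ
  rw [hu, Int.cast_one, norm_one] at h2
  exact lt_irrefl _ h2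

/-- a number composed of primes in `S` -/
theorem sum_log_nonpos (S : Finset Nat.Primes) (n : ℤ) (hn : n ≠ 0)
    (h : ∀ p : Nat.Primes, (((p : ℕ) : ℤ)) ∣ n → p ∈ S) :
    Real.log |(n : ℝ)| + ∑ p ∈ S, Real.log ‖(n : ℚ_[(p : ℕ)])‖ ≤ 0 := by
  classical
  have h1 : ∀ p : Nat.Primes, Real.log ‖(n : ℚ_[(p : ℕ)])‖ =
      -((n.natAbs.factorization p : ℕ) * Real.log (p : ℕ)) := by
    intro p
    have h2 : ‖(n : ℚ_[(p : ℕ)])‖ = ((p : ℕ) : ℝ) ^ (-(padicValInt p n : ℤ)) := by
      have := Padic.norm_eq_zpow_neg_valuation (p := (p : ℕ)) (x := (n : ℚ_[(p : ℕ)]))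
        (by exact_mod_cast hn)
      rw [this, Padic.valuation_intCast]
    rw [h2, Real.log_zpow, padicValInt, Nat.factorization_def _ p.2, Int.cast_neg,
      Int.cast_natCast]
    ring
  simp only [h1]
  rw [Finset.sum_neg_distrib]
  have h0 : n.natAbs ≠ 0 := Int.natAbs_ne_zero.2 hn
  have h3 : Real.log |(n : ℝ)| = ∑ p ∈ n.natAbs.primeFactors,
      (n.natAbs.factorization p : ℝ) * Real.log p := by
    have h2 : |(n : ℝ)| = (n.natAbs : ℝ) := by rw [Nat.cast_natAbs]; push_cast; rfl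
    rw [h2]
    conv_lhs => rw [← Nat.prod_factorization_pow_eq_self h0]
    rw [Finsupp.prod, Nat.support_factorization]
    push_cast
    rw [Real.log_prod]
    · exact Finset.sum_congr rfl fun p _ => Real.log_pow _ _
    · intro p hp
      have := (Nat.prime_of_mem_primeFactors hp).ne_zero
      positivity
  have h4 : ∑ p ∈ S, ((n.natAbs.factorization p : ℕ) : ℝ) * Real.log (p : ℕ) =
      ∑ p ∈ S.image (fun p : Nat.Primes => (p : ℕ)),
        ((n.natAbs.factorization p : ℕ) : ℝ) * Real.log p :=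
    (Finset.sum_image (s := S) (g := fun p : Nat.Primes => (p : ℕ))
      (f := fun p : ℕ => ((n.natAbs.factorization p : ℕ) : ℝ) * Real.log p)
      fun p _ p' _ h => Nat.Primes.coe_nat_injective h).symm
  have h5 : ∑ p ∈ n.natAbs.primeFactors, (n.natAbs.factorization p : ℝ) * Real.log p ≤
      ∑ p ∈ S.image (fun p : Nat.Primes => (p : ℕ)),
      ((n.natAbs.factorization p : ℕ) : ℝ) * Real.log p := by
    refine Finset.sum_le_sum_of_subset_of_nonneg (fun p hp => ?_) fun p hp _ => ?_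
    · have hp' := Nat.prime_of_mem_primeFactors hp
      refine Finset.mem_image.2 ⟨⟨p, hp'⟩, h ⟨p, hp'⟩ ?_, rfl⟩
      exact Int.natCast_dvd.2 (Nat.dvd_of_mem_primeFactors hp)
    · obtain ⟨p', -, rfl⟩ := Finset.mem_image.1 hp
      have := p'.2.one_lt
      have h8 : 0 ≤ Real.log ((p' : ℕ) : ℝ) := Real.log_nonneg (by exact_mod_cast this.le)
      positivity
  rw [h3, h4]
  linarith

/-- the prime-to-`S` part of a divisor -/
theorem sum_log_le (S : Finset Nat.Primes) (n d m : ℤ) (hn : n ≠ 0) (hd : d ≠ 0) (hm : m ≠ 0)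
    (h : ∀ p : Nat.Primes, (((p : ℕ) : ℤ)) ∣ m → p ∈ S) (hdvd : n ∣ m * d) :
    Real.log |(n : ℝ)| + ∑ p ∈ S, Real.log ‖(n : ℚ_[(p : ℕ)])‖ ≤ Real.log |(d : ℝ)| := by
  obtain ⟨k, hk⟩ := hdvd
  have hk0 : k ≠ 0 := by
    rintro rfl
    rw [mul_zero] at hk
    exact mul_ne_zero hm hd hk
  have h1 := sum_log_nonneg S k hk0
  have h2 := sum_log_nonpos S m hm h
  have h3 : ∀ p : Nat.Primes, Real.log ‖(n : ℚ_[(p : ℕ)])‖ + Real.log ‖(k : ℚ_[(p : ℕ)])‖ =
      Real.log ‖(m : ℚ_[(p : ℕ)])‖ + Real.log ‖(d : ℚ_[(p : ℕ)])‖ := by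
    intro p
    have hz : ∀ n : ℤ, n ≠ 0 → ‖(n : ℚ_[(p : ℕ)])‖ ≠ 0 := fun n hn =>
      norm_ne_zero_iff.2 (by exact_mod_cast hn)
    rw [← Real.log_mul (hz n hn) (hz k hk0), ← Real.log_mul (hz m hm) (hz d hd), ← norm_mul,
      ← norm_mul]
    congr 2
    have := congrArg (fun t : ℤ => (t : ℚ_[(p : ℕ)])) hk
    push_cast at this
    exact this.symm
  have h4 : Real.log |(n : ℝ)| + Real.log |(k : ℝ)| =
      Real.log |(m : ℝ)| + Real.log |(d : ℝ)| := by
    have hz : ∀ n : ℤ, n ≠ 0 → |(n : ℝ)| ≠ 0 := fun n hn => abs_ne_zero.2 (by exact_mod_cast hn)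
    rw [← Real.log_mul (hz n hn) (hz k hk0), ← Real.log_mul (hz m hm) (hz d hd), ← abs_mul,
      ← abs_mul]
    congr 2
    have := congrArg (fun t : ℤ => (t : ℝ)) hk
    push_cast at this
    exact this.symm
  have h5 : ∑ p ∈ S, Real.log ‖(n : ℚ_[(p : ℕ)])‖ + ∑ p ∈ S, Real.log ‖(k : ℚ_[(p : ℕ)])‖ =
      ∑ p ∈ S, Real.log ‖(m : ℚ_[(p : ℕ)])‖ + ∑ p ∈ S, Real.log ‖(d : ℚ_[(p : ℕ)])‖ := by
    rw [← Finset.sum_add_distrib, ← Finset.sum_add_distrib]
    exact Finset.sum_congr rfl fun p _ => h3 p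
  have h6 : ∑ p ∈ S, Real.log ‖(d : ℚ_[(p : ℕ)])‖ ≤ 0 :=
    Finset.sum_nonpos fun p _ => Real.log_nonpos (norm_nonneg _) (Padic.norm_int_le_one d)
  linarith

/-- **Vojta's inequality for the points with repelling conjugates.** -/
theorem special (G : ℤ[X]) (hG : G ≠ 0) (q r : ℕ) (hr : 1 ≤ r) (S : Finset Nat.Primes) (ε κ : ℝ)
    (hε : 0 < ε) :
    ∃ C : ℝ, ∀ f : ℤ[X], Irreducible f → f.natDegree = r → ¬ mp ℚ f ∣ mp ℚ G →
      Rep (divi ℂ G q) κ f → (∀ p ∈ S, Rep (divi (PadicAlgCl p) G q) κ f) → ∀ d m : ℤ, d ≠ 0 →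
      m ≠ 0 → (∀ p : Nat.Primes, (((p : ℕ) : ℤ)) ∣ m → p ∈ S) → f.discr ∣ m * d →
      prox (divi ℂ G q) f + ∑ p ∈ S, prox (divi (PadicAlgCl p) G q) f ≤
        (2 + ε) * Real.log (mm (mp ℂ f)) + Real.log |(d : ℝ)| + C := by
  obtain ⟨C, hC, hmain⟩ := main G hG q r hr S ε hε
  refine ⟨C + (S.card + 1) * (r ^ 2 * |κ|), fun f hf hfr hfG hrep hrepp d m hd hm hmS hdvd => ?_⟩
  have hdeg : f.natDegree ≠ 0 := by omega
  have hmono : ∀ (F : Type) [NormedField F] [CharZero F] [IsAlgClosed F] (D : Finset (Option F)),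
      Rep D κ f → Rep D |κ| f := by
    intro F _ _ _ D h x hx y hy hxy
    have := h x hx y hy hxy
    have h2 := le_abs_self κ
    linarith
  have h1 := hmain f hf hfr hfG
  have h2 := prox_add_dsum hf hdeg (divi ℂ G q) |κ| (abs_nonneg _) (hmono ℂ _ hrep)
  have h3 : ∀ p ∈ S, prox (divi (PadicAlgCl p) G q) f + dsum (PadicAlgCl p) f ≤
      pairs (divi (PadicAlgCl p) G q) (mp (PadicAlgCl p) f) + f.natDegree ^ 2 * |κ| := fun p hp =>
    prox_add_dsum hf hdeg (divi (PadicAlgCl p) G q) |κ| (abs_nonneg _)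
      (hmono (PadicAlgCl p) _ (hrepp p hp))
  have h4 := Finset.sum_le_sum h3
  rw [Finset.sum_add_distrib, Finset.sum_add_distrib, Finset.sum_const, nsmul_eq_mul] at h4
  obtain ⟨hdisc, h5⟩ := log_discr (F := ℂ) hf hdeg
  have h6 : ∀ p ∈ S, Real.log ‖(f.discr : ℚ_[(p : ℕ)])‖ = -dsum (PadicAlgCl p) f := by
    intro p _
    obtain ⟨-, h7⟩ := log_discr (F := PadicAlgCl p) hf hdeg
    have h8 : mm (mp (PadicAlgCl p) f) = 1 :=
      le_antisymm (mm_padic f) (one_le_mm_padic f (hf.isPrimitive hdeg))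
    rw [h8, Real.log_one, mul_zero, zero_sub, norm_int_padicAlgCl] at h7
    exact h7
  have h7 := sum_log_le S f.discr d m hdisc hd hm hmS hdvd
  rw [Finset.sum_congr rfl h6, Finset.sum_neg_distrib] at h7
  rw [Complex.norm_intCast] at h5
  rw [hfr] at h2 h4 h5
  have h8 : ((2 : ℝ) * r - 2) * Real.log (mm (mp ℂ f)) =
      Real.log |(f.discr : ℝ)| + dsum ℂ f := by linarith
  have h9 : (2 * r + ε) * Real.log (mm (mp ℂ f)) =
      (2 + ε) * Real.log (mm (mp ℂ f)) + ((2 : ℝ) * r - 2) * Real.log (mm (mp ℂ f)) := by ring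
  linarith

open Classical in
/-- the proximity of the conjugates to each other, minus the part which comes from `D` -/
noncomputable def clus {F : Type} [NormedField F] (D : Finset (Option F)) (f : ℤ[X]) : ℝ :=
  ∑ x ∈ rts F f, ∑ y ∈ (rts F f).erase x, (lam y x - ∑ P ∈ D, min (lamO P y) (lamO P x))

theorem prox_eq {F : Type} [NormedField F] [CharZero F] [IsAlgClosed F] {f : ℤ[X]}
    (hf : Irreducible f) (hdeg : f.natDegree ≠ 0) (D : Finset (Option F)) :
    prox D f = pairs D (mp F f) - dsum F f + clus D f := by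
  classical
  rw [pairs_eq hf hdeg]
  unfold prox dsum clus
  have h1 : ∀ x ∈ rts F f, ∑ P ∈ D, lamO P x = ∑ P ∈ D, ∑ y ∈ rts F f,
      min (lamO P y) (lamO P x) - ∑ y ∈ (rts F f).erase x, lam y x +
      ∑ y ∈ (rts F f).erase x, (lam y x - ∑ P ∈ D, min (lamO P y) (lamO P x)) := by
    intro x hx
    have h5 : ∑ P ∈ D, ∑ y ∈ rts F f, min (lamO P y) (lamO P x) =
        ∑ P ∈ D, lamO P x + ∑ z ∈ (rts F f).erase x, ∑ P ∈ D, min (lamO P z) (lamO P x) := by
      rw [Finset.sum_comm (s := (rts F f).erase x), ← Finset.sum_add_distrib]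
      refine Finset.sum_congr rfl fun P _ => ?_
      rw [← Finset.add_sum_erase _ _ hx, min_self]
    rw [h5, Finset.sum_sub_distrib]
    ring
  have h2 := Finset.sum_congr (rfl : rts F f = rts F f) h1
  rw [Finset.sum_add_distrib, Finset.sum_sub_distrib] at h2
  have h4 : ∑ x ∈ rts F f, ∑ P ∈ D, lamO P x = ∑ P ∈ D, ∑ x ∈ rts F f, lamO P x :=
    Finset.sum_comm
  have h5 : ∑ x ∈ rts F f, ∑ P ∈ D, ∑ y ∈ rts F f, min (lamO P y) (lamO P x) =
      ∑ P ∈ D, ∑ x ∈ rts F f, ∑ y ∈ rts F f, min (lamO P y) (lamO P x) := Finset.sum_comm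
  rw [h4, h5] at h2
  exact h2

/-- **Vojta's inequality with the discriminant of the minimal polynomial**, up to the excess of the
proximity of the conjugates to each other. -/
theorem vojta_form (G : ℤ[X]) (hG : G ≠ 0) (q r : ℕ) (hr : 1 ≤ r) (S : Finset Nat.Primes)
    (ε : ℝ) (hε : 0 < ε) :
    ∃ C : ℝ, ∀ f : ℤ[X], Irreducible f → f.natDegree = r → ¬ mp ℚ f ∣ mp ℚ G →
      prox (divi ℂ G q) f + ∑ p ∈ S, prox (divi (PadicAlgCl p) G q) f ≤
        (2 + ε) * Real.log (mm (mp ℂ f)) + (Real.log |(f.discr : ℝ)| +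
          ∑ p ∈ S, Real.log ‖(f.discr : ℚ_[(p : ℕ)])‖) +
          (clus (divi ℂ G q) f + ∑ p ∈ S, clus (divi (PadicAlgCl p) G q) f) + C := by
  obtain ⟨C, hC, hmain⟩ := main G hG q r hr S ε hε
  refine ⟨C, fun f hf hfr hfG => ?_⟩
  have hdeg : f.natDegree ≠ 0 := by omega
  have h1 := hmain f hf hfr hfG
  have h2 := prox_eq hf hdeg (divi ℂ G q)
  have h3 : ∀ p ∈ S, prox (divi (PadicAlgCl p) G q) f =
      pairs (divi (PadicAlgCl p) G q) (mp (PadicAlgCl p) f) - dsum (PadicAlgCl p) f +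
        clus (divi (PadicAlgCl p) G q) f := fun p _ =>
    prox_eq hf hdeg (divi (PadicAlgCl p) G q)
  have h4 := Finset.sum_congr (rfl : S = S) h3
  rw [Finset.sum_add_distrib, Finset.sum_sub_distrib] at h4
  obtain ⟨hdisc, h5⟩ := log_discr (F := ℂ) hf hdeg
  have h6 : ∀ p ∈ S, Real.log ‖(f.discr : ℚ_[(p : ℕ)])‖ = -dsum (PadicAlgCl p) f := by
    intro p _
    obtain ⟨-, h7⟩ := log_discr (F := PadicAlgCl p) hf hdeg
    have h8 : mm (mp (PadicAlgCl p) f) = 1 :=
      le_antisymm (mm_padic f) (one_le_mm_padic f (hf.isPrimitive hdeg))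
    rw [h8, Real.log_one, mul_zero, zero_sub, norm_int_padicAlgCl] at h7
    exact h7
  rw [Finset.sum_congr rfl h6, Finset.sum_neg_distrib, h2, h4]
  rw [Complex.norm_intCast, hfr] at h5
  have h8 : ((2 : ℝ) * r - 2) * Real.log (mm (mp ℂ f)) =
      Real.log |(f.discr : ℝ)| + dsum ℂ f := by linarith
  have h9 : (2 * r + ε) * Real.log (mm (mp ℂ f)) =
      (2 + ε) * Real.log (mm (mp ℂ f)) + ((2 : ℝ) * r - 2) * Real.log (mm (mp ℂ f)) := by ring
  linarith

theorem log_norm_padic (p : Nat.Primes) (n : ℤ) (hn : n ≠ 0) :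
    Real.log ‖(n : ℚ_[(p : ℕ)])‖ = -((padicValInt p n : ℝ) * Real.log (p : ℕ)) := by
  have h2 : ‖(n : ℚ_[(p : ℕ)])‖ = ((p : ℕ) : ℝ) ^ (-(padicValInt p n : ℤ)) := by
    have := Padic.norm_eq_zpow_neg_valuation (p := (p : ℕ)) (x := (n : ℚ_[(p : ℕ)]))
      (by exact_mod_cast hn)
    rw [this, Padic.valuation_intCast]
  rw [h2, Real.log_zpow, Int.cast_neg, Int.cast_natCast]
  ring

end Pool.Agent.T9h24
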