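import Mathlib
import Pool.Agent.T9h24.Dis

/-!
# Vojta's inequality for all points of degree `r` on the projective line, up to two explicit terms

Let `D` be an arbitrary reduced divisor on the projective line over `ℚ` (its points need not be
rational), `S` a finite set of primes, `r ≥ 1` and `ε > 0`. We prove for all algebraic numbers `x`
of degree `r` outside of `D`, without any exceptions, that
`∑_{v ∈ S ∪ {∞}} λ_{D,v}(x) + h_K(x) - d(x) ≤ ε h(x) + C + ι(x) + ∑_{v ∈ S ∪ {∞}} γ_v(x)`,
where `h_K = -2 h` and `d(x)` is the logarithmic discriminant of the field `ℚ(x)`, as in the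
conjecture, and where

* `ι(x) = (1 / r) log (disc(f) / disc(ℚ(x)))`, prime-to-`S` part, `f` the minimal polynomial of `x`
  over the integers, is `(2 / r) log` of the prime-to-`S` part of the index in the maximal order of
  the order attached to `f` (up to the `S`-part of `disc(ℚ(x))`, with the good sign);
* `γ_v(x)` is the average over the conjugates `x_i` of `x` of the sum over the `x_j ≠ x_i` of
  `λ_v(x_i, x_j) - ∑_{P ∈ D} min (λ_{P,v}(x_i), λ_{P,v}(x_j))`: here `λ_v(x_i, x_j)` is minus the
  logarithm of the `v`-adic distance of the two points, and by the triangle inequality this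
  difference is bounded below. It is the proximity of the two conjugates to each other which is not
  explained by their proximity to a point of `D`.

In particular the inequality of the conjecture holds, with a constant depending on `κ`, for all `x`
of degree `r` such that the order of `x` is maximal outside `S` and such that, at the places of
`S ∪ {∞}`, two conjugates `x_i`, `x_j` are at distance at least
`κ min_{P ∈ D} max (|x_i - P|, |x_j - P|)`.

By the product formula for the discriminant of `f` the inequality is equivalent to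
`∑_{v ∈ S ∪ {∞}} ∑_{P ∈ D} (1 / r) ∑_{i, j} min (λ_{P,v}(x_i), λ_{P,v}(x_j)) ≤ (2 r + ε) h(x) + C`,
in which the terms with `i = j` alone are Wirsing's theorem. It is an equality up to `ε h(x)` for
example for the roots `x` of `F_0 - t F_1`, `t` rational with large powers of primes of `S` as
numerator and denominator, with arbitrary ramification over `0` and `∞`.

Proof. Let `f` be the minimal polynomial of `x`. The subspace theorem, applied on the smallest
rational subspace which contains infinitely many exceptional `f`, and the box principle over a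
number field give a second integral polynomial `g` of degree at most `r`, not proportional to `f`,
such that at all places of `S ∪ {∞}` the Taylor coefficients of `g` at the points of `D` are not
larger, up to `H(f)^ε`, than those of `f`. This bounds `g(x_i)` by
`H(f)^ε ∏_j max (|x_i - P|, |x_j - P|)` for all `P` in `D`, and the resultant of `f` and `g` is a
nonzero integer.
-/

set_option autoImplicit false

namespace Pool.Agent.T9h24.PairsOfConjugates

open Polynomial IntermediateField

open Classical in
/-- The conjugates over the field `F` of an algebraic number with minimal polynomial `f`. -/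
noncomputable def conjugates (F : Type) [Field F] (f : ℤ[X]) : Finset F :=
  (f.map (Int.castRingHom F)).roots.toFinset

open Classical in
/-- The points over `F` of the reduced divisor `D`: the zeros of `G`, and the point at infinity
`none` if `deg G < q`. -/
noncomputable def points (F : Type) [Field F] (G : ℤ[X]) (q : ℕ) : Finset (Option F) :=
  (G.map (Int.castRingHom F)).roots.toFinset.image some ∪ if G.natDegree < q then {none} else ∅

/-- The local height `λ_P(x)`: minus the logarithm of the distance
`|x - P| / (max (1, |x|) max (1, |P|))`, which is `1 / max (1, |x|)` for the point `P = ∞`. -/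
noncomputable def lambda {F : Type} [NormedField F] : Option F → F → ℝ
  | none, x => Real.log (max 1 ‖x‖)
  | some P, x => Real.log (max 1 ‖P‖ * max 1 ‖x‖ / ‖x - P‖)

/-- The local height `λ_{D,v}(x)`: the average over the conjugates `x_i` of `x` over `F` (the
algebraic closure of the completion of `ℚ` at `v`) of `∑_{P ∈ D} λ_P(x_i)`. -/
noncomputable def proximity (F : Type) [NormedField F] (G : ℤ[X]) (q : ℕ) (f : ℤ[X]) : ℝ :=
  (∑ P ∈ points F G q, ∑ x ∈ conjugates F f, lambda P x) / f.natDegree

open Classical in
/-- The average over the conjugates `x_i` of the sums over the conjugates `x_j ≠ x_i` of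
`λ(x_i, x_j) - ∑_{P ∈ D} min (λ_P(x_i), λ_P(x_j))`, with `λ(x_i, x_j)` minus the logarithm of the
distance of `x_i` and `x_j`. -/
noncomputable def cluster (F : Type) [NormedField F] (G : ℤ[X]) (q : ℕ) (f : ℤ[X]) : ℝ :=
  (∑ x ∈ conjugates F f, ∑ y ∈ (conjugates F f).erase x,
    (lambda (some y) x - ∑ P ∈ points F G q, min (lambda P y) (lambda P x))) / f.natDegree

/-- The absolute logarithmic height `(log M(f)) / deg f` of the roots of an irreducible integral
polynomial `f` (`M` is the Mahler measure). -/
noncomputable def height (f : ℤ[X]) : ℝ :=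
  Real.log (f.map (Int.castRingHom ℂ)).mahlerMeasure / f.natDegree

/-- The logarithmic discriminant `d(x)` of the field `ℚ(x)`. -/
noncomputable def logDisc (x : ℂ) [NumberField ℚ⟮x⟯] : ℝ :=
  Real.log |(NumberField.discr ℚ⟮x⟯ : ℝ)| / Module.finrank ℚ ℚ⟮x⟯

/-- `(1 / r) (log |disc(f)| - ∑_{p ∈ S} v_p(disc(f)) log p) - d(x)`. -/
noncomputable def index (S : Finset Nat.Primes) (x : ℂ) [NumberField ℚ⟮x⟯] (f : ℤ[X]) : ℝ :=
  (Real.log |(f.discr : ℝ)| - ∑ p ∈ S, (padicValInt p f.discr : ℝ) * Real.log (p : ℕ)) /
    f.natDegree - logDisc x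

/-- **Vojta's inequality for points of degree `r` on the line, up to two explicit terms.** Let `D`
be the reduced divisor on the projective line given by `G ≠ 0` and `q`, `S` a finite set of primes,
`r ≥ 1` and `ε > 0`. There is a constant `C` such that for all algebraic numbers `x` of degree `r`
outside of `D`, with minimal polynomial `f` over the integers,
`∑_{v ∈ S ∪ {∞}} λ_{D,v}(x) + h_K(x) - d(x) ≤ ε h(x) + C + ι(x) + ∑_{v ∈ S ∪ {∞}} γ_v(x)`. -/
theorem result (G : ℤ[X]) (hG : G ≠ 0) (q r : ℕ) (hr : 1 ≤ r) (S : Finset Nat.Primes) (ε : ℝ)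
    (hε : 0 < ε) :
    ∃ C : ℝ, ∀ (x : ℂ) [NumberField ℚ⟮x⟯] (f : ℤ[X]), Irreducible f → f.natDegree = r →
      aeval x f = 0 → aeval x G ≠ 0 →
      proximity ℂ G q f + ∑ p ∈ S, proximity (PadicAlgCl p) G q f + (-2) * height f - logDisc x ≤
        ε * height f + C + index S x f +
          (cluster ℂ G q f + ∑ p ∈ S, cluster (PadicAlgCl p) G q f) := by
  classical
  obtain ⟨C, hC⟩ := Pool.Agent.T9h24.vojta_form G hG q r hr S ε hε
  refine ⟨C / r, fun x _ f hf hfr hx hGx => ?_⟩
  have hr0 : (0 : ℝ) < r := by exact_mod_cast hr
  have hdeg : f.natDegree ≠ 0 := by omega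
  have hnd : ¬ Pool.Agent.T9h24.mp ℚ f ∣ Pool.Agent.T9h24.mp ℚ G := by
    rintro ⟨k, hk⟩
    apply hGx
    have h1 : ∀ g : ℤ[X], aeval x g = aeval x (Pool.Agent.T9h24.mp ℚ g) := by
      intro g
      unfold Pool.Agent.T9h24.mp
      rw [show Int.castRingHom ℚ = algebraMap ℤ ℚ from rfl, aeval_map_algebraMap]
    rw [h1, hk, map_mul, ← h1, hx, zero_mul]
  have hlam : ∀ (F : Type) [NormedField F] (P : Option F) (x : F),
      Pool.Agent.T9h24.lamO P x = lambda P x := by
    intro F _ P x
    rcases P with _ | P <;> rfl
  have hprox : ∀ (F : Type) [NormedField F],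
      proximity F G q f = Pool.Agent.T9h24.prox (Pool.Agent.T9h24.divi F G q) f / r := by
    intro F _
    unfold proximity Pool.Agent.T9h24.prox
    simp only [hlam, hfr]
    rfl
  have hclus : ∀ (F : Type) [NormedField F],
      cluster F G q f = Pool.Agent.T9h24.clus (Pool.Agent.T9h24.divi F G q) f / r := by
    intro F _
    unfold cluster Pool.Agent.T9h24.clus
    simp only [hlam, hfr]
    rfl
  have hmm : Pool.Agent.T9h24.mm (Pool.Agent.T9h24.mp ℂ f) =
      (f.map (Int.castRingHom ℂ)).mahlerMeasure := by
    rw [mahlerMeasure_eq_leadingCoeff_mul_prod_roots]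
    rfl
  have h1 := hC f hf hfr hnd
  have hdisc : f.discr ≠ 0 := (Pool.Agent.T9h24.log_discr (F := ℂ) hf hdeg).1
  have h2 : ∑ p ∈ S, Real.log ‖(f.discr : ℚ_[(p : ℕ)])‖ =
      -∑ p ∈ S, (padicValInt p f.discr : ℝ) * Real.log (p : ℕ) := by
    rw [← Finset.sum_neg_distrib]
    exact Finset.sum_congr rfl fun p _ => Pool.Agent.T9h24.log_norm_padic p f.discr hdisc
  rw [h2, hmm] at h1
  have h3 : ∑ p ∈ S, proximity (PadicAlgCl p) G q f =
      (∑ p ∈ S, Pool.Agent.T9h24.prox (Pool.Agent.T9h24.divi (PadicAlgCl p) G q) f) / r := by
    rw [Finset.sum_div]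
    exact Finset.sum_congr rfl fun p _ => hprox (PadicAlgCl p)
  have h4 : ∑ p ∈ S, cluster (PadicAlgCl p) G q f =
      (∑ p ∈ S, Pool.Agent.T9h24.clus (Pool.Agent.T9h24.divi (PadicAlgCl p) G q) f) / r := by
    rw [Finset.sum_div]
    exact Finset.sum_congr rfl fun p _ => hclus (PadicAlgCl p)
  rw [hprox ℂ, hclus ℂ, h3, h4]
  unfold index height
  rw [hfr]
  have h5 := div_le_div_of_nonneg_right h1 hr0.le
  have h6 : ∀ a b c d e : ℝ, ((2 + ε) * a + (b + -c) + (d + e) + C) / r =
      2 * (a / r) + ε * (a / r) + (b - c) / r + (d / r + e / r) + C / r := by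
    intro a b c d e
    field_simp
    ring
  rw [h6, add_div] at h5
  linarith

end Pool.Agent.T9h24.PairsOfConjugates
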