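import Mathlib
import Pool.Agent.T9h24.Xdg

/-!
The inequality for hypersurface sections of projective varieties, integral coordinates.
-/

set_option autoImplicit false
set_option linter.unusedSectionVars false

open Finset MvPolynomial NumberField IsDedekindDomain

namespace Pool.Agent.T9h24

open Pool.Agent.TH875 (ym dg VM VM_le VM_finite Ind Sm alg_ind module_main)

theorem degX {m n q ν : ℕ} (r : ℕ) (hr : 1 ≤ r) (G : Fin m → MvPolynomial (Fin (n + 1)) ℚ)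
    (g : Fin m → ℕ) (hG : ∀ k, (G k).IsHomogeneous (g k)) (hX : (idX G).IsPrime)
    (hdim : Algebra.trdeg (AlgebraicClosure ℚ)
      (MvPolynomial (Fin (n + 1)) (AlgebraicClosure ℚ) ⧸ idX G) = ((ν + 1 : ℕ) : Cardinal))
    (Fo : Fin q → MvPolynomial (Fin (n + 1)) (AlgebraicClosure ℚ)) (d : Fin q → ℕ)
    (hd : ∀ i, 1 ≤ d i) (hFo : ∀ i, (Fo i).IsHomogeneous (d i)) (mm : ℝ) (hm0 : 0 ≤ mm)
    (hm1 : mm ≤ 1) (κ0 : ℝ) (hκ00 : 0 ≤ κ0) (hκ0 : κ0 < kapp ν r mm) :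
    ∃ Z : Finset (MvPolynomial (Fin (n + 1)) (AlgebraicClosure ℚ)),
      (∀ P ∈ Z, P ∉ idX G ∧ ∃ M, P.IsHomogeneous M) ∧
      ∀ (S : Finset Nat.Primes) (ε : ℝ), 0 < ε → ∃ Cc : ℝ, ∀ (E : Type) [Field E]
        [NumberField E], Module.finrank ℚ E = r → ∀ x : Fin (n + 1) → 𝓞 E, x ≠ 0 →
      (∀ k, aeval (fun i => (x i : E)) (G k) = 0) →
      (∀ P ∈ Z, ∀ τ : E →+* AlgebraicClosure ℚ, eval (fun i => τ (x i : E)) P ≠ 0) →
      ∀ (e : (E →+* ℂ) → Fin (ν + 1) → Fin q)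
        (j : (E →+* ℂ) → (AlgebraicClosure ℚ →+* ℂ)), (∀ τ, NCZ G Fo (e τ)) →
      ∀ (ep : ∀ p : Nat.Primes, (E →+* PadicAlgCl p) → Fin (ν + 1) → Fin q)
        (jp : ∀ p : Nat.Primes, (E →+* PadicAlgCl p) → (AlgebraicClosure ℚ →+* PadicAlgCl p)),
        (∀ p ∈ S, ∀ τ, NCZ G Fo (ep p τ)) →
      κ0 * (∑ τ : E →+* ℂ, ∑ k, max 0 (laq (d (e τ k)) (map (j τ) (Fo (e τ k)))
          (fun i => τ (x i : E))) / d (e τ k) +
        ∑ p ∈ S, ∑ τ : E →+* PadicAlgCl p, ∑ k, max 0 (laq (d (ep p τ k))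
          (map (jp p τ) (Fo (ep p τ k))) (fun i => τ (x i : E))) / d (ep p τ k)) ≤
        (1 + ε) * Height.logHeight (fun i => (x i : E)) + Cc := by
  classical
  obtain ⟨I, hI⟩ : ∃ I, I = idX G := ⟨_, rfl⟩
  set D : ℕ := ∏ i, d i with hDd
  have hD : 1 ≤ D := Nat.one_le_iff_ne_zero.2
    (Finset.prod_ne_zero_iff.2 fun i _ => (Nat.one_le_iff_ne_zero.1 (hd i)))
  have hdD : ∀ i, d i ∣ D := fun i => Finset.dvd_prod_of_mem d (Finset.mem_univ i)
  have hGQ : ∀ k, (map (algebraMap ℚ (AlgebraicClosure ℚ)) (G k)).IsHomogeneous (g k) :=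
    fun k => (hG k).map _
  by_cases hne : Nonempty {e : Fin (ν + 1) → Fin q // NCZ G Fo e}
  swap
  · refine ⟨∅, by simp, fun S ε hε => ⟨0, fun E _ _ hE x hx _ _ e j he => ?_⟩⟩
    obtain ⟨τ0⟩ := exists_emb E ℂ
    exact absurd ⟨⟨e τ0, he τ0⟩⟩ hne
  obtain ⟨e0⟩ := hne
  obtain ⟨y, hy⟩ : ∃ y : {e : Fin (ν + 1) → Fin q // NCZ G Fo e} → Fin (ν + 1) →
      MvPolynomial (Fin (n + 1)) (AlgebraicClosure ℚ),
      y = fun e k => Fo (e.1 k) ^ (D / d (e.1 k)) := ⟨_, rfl⟩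
  have hyh : ∀ e k, (y e k).IsHomogeneous D := by
    intro e k
    have := (hFo (e.1 k)).pow (D / d (e.1 k))
    rw [Nat.mul_div_cancel' (hdD (e.1 k))] at this
    rw [hy]
    exact this
  have h0y : ∀ e : {e : Fin (ν + 1) → Fin q // NCZ G Fo e}, ∀ (L : Type) [Field L]
      [Algebra (AlgebraicClosure ℚ) L] (x : Fin (n + 1) → L),
      (∀ k, aeval x (map (algebraMap ℚ (AlgebraicClosure ℚ)) (G k)) = 0) →
      (∀ k, aeval x (y e k) = 0) → x = 0 := by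
    intro e L _ _ x hx hxy
    refine ncz_ext e.2 L x hx fun k => ?_
    have h1 := hxy k
    simp only [hy, map_pow] at h1
    exact eq_zero_of_pow_eq_zero h1
  have halg : ∀ e, AlgebraicIndependent (AlgebraicClosure ℚ)
      (fun k => Ideal.Quotient.mkₐ (AlgebraicClosure ℚ) I (y e k)) := by
    intro e
    subst hI
    exact alg_ind _ g hGQ D hD (y e) (hyh e) (h0y e) hX hdim
  have hmod : ∀ e, ∃ (E : Finset (Fin (n + 1) →₀ ℕ)) (t0 : ℕ), Ind I (y e) E ∧ ∀ t, t0 ≤ t →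
      ∀ M, Module.finrank (AlgebraicClosure ℚ) (VM I M) ≤
        (Sm D E (ν + 1) (M + D * t)).card := by
    intro e
    have halge := halg e
    subst hI
    exact module_main _ g hGQ D hD (y e) (hyh e) 0 (h0y e) hX halge
  choose E0 t0 hE0 hcount using hmod
  have hpos : ∀ k t, 1 ≤ Module.finrank (AlgebraicClosure ℚ) (VM I (k * (D * t))) := by
    intro k t
    set a := Ideal.Quotient.mkₐ (AlgebraicClosure ℚ) I (y e0 0) with ha
    have ha0 : a ≠ 0 := (halg e0).ne_zero 0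
    have hprime : I.IsPrime := by rw [hI]; exact hX
    have hdom : IsDomain (MvPolynomial (Fin (n + 1)) (AlgebraicClosure ℚ) ⧸ I) :=
      Ideal.Quotient.isDomain I
    have hmem : a ^ (k * t) ∈ VM I (k * (D * t)) := by
      refine ⟨y e0 0 ^ (k * t), ?_, ?_⟩
      · have h1 := (hyh e0 0).pow (k * t)
        have e1 : D * (k * t) = k * (D * t) := by ring
        rw [e1] at h1
        exact h1
      · show Ideal.Quotient.mkₐ (AlgebraicClosure ℚ) I (y e0 0 ^ (k * t)) = _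
        rw [map_pow]
    have hfin := VM_finite I (k * (D * t))
    rw [Nat.one_le_iff_ne_zero]
    intro h0
    rw [Submodule.finrank_eq_zero] at h0
    rw [h0] at hmem
    exact pow_ne_zero _ ha0 ((Submodule.mem_bot _).1 hmem)
  obtain ⟨dd, θ, hdd, hN1, hpar⟩ := choose_par (n' := n + 1) hD hr E0
    (fun M => Module.finrank (AlgebraicClosure ℚ) (VM I M)) (VM_le I) t0 hcount hpos mm hm0 hm1
    κ0 hκ00 hκ0
  obtain ⟨N, hN⟩ : ∃ N, Module.finrank (AlgebraicClosure ℚ) (VM I (D * dd)) = N + 1 :=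
    ⟨Module.finrank (AlgebraicClosure ℚ) (VM I (D * dd)) - 1, by omega⟩
  obtain ⟨c, b, hc, hb⟩ := mono_basis I (D * dd) N hN
  choose s W hWd hsM hWI hcard hsum using fun e =>
    adapted I hD c b hc hb (y e) (hyh e) (E0 e) (hE0 e)
  obtain ⟨G', hG'0, hG'1, hG'2, hG'⟩ := exists_poly (Finset.univ.image fun p :
    {e : Fin (ν + 1) → Fin q // NCZ G Fo e} × Fin (N + 1) × Fin (N + 1) => W p.1 p.2.1 p.2.2)
  have hWr : ∀ e a i, W e a i ∈ (mp (AlgebraicClosure ℚ) G').roots := fun e a i =>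
    hG' _ (Finset.mem_image.2 ⟨(e, a, i), Finset.mem_univ _, rfl⟩)
  obtain ⟨Z, hZ, h⟩ := mainI N r hr G' hG'0 hG'1 hG'2
  refine ⟨Z.image (Pc c), fun P hP => ?_, fun S ε hε => ?_⟩
  · obtain ⟨u, hu, rfl⟩ := Finset.mem_image.1 hP
    rw [← hI]
    exact ⟨Pc_notMem I c b hb u (hZ u hu), _, Pc_hom c hc u⟩
  have hT : ∀ (e : {e : Fin (ν + 1) → Fin q // NCZ G Fo e}) (k : Fin (ν + 1)),
      (dd : ℝ) * ((N : ℝ) + 1) * κ0 ≤ (θ : ℝ) * ((N : ℝ) + 1) -
        r * ((∑ a, (θ - (s e a).1 k) : ℕ) : ℝ) := by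
    intro e k
    have h1 := hpar e (by
      rw [hN]
      exact hcard e) k
    simp only [hN] at h1
    rw [hsum e θ k]
    push_cast at h1 ⊢
    exact h1
  have hN0 : (0 : ℝ) < (N : ℝ) + 1 := by positivity
  have hdd0 : (0 : ℝ) < dd := by exact_mod_cast hdd
  have hD0 : (0 : ℝ) < D := by exact_mod_cast hD
  have hr0 : (0 : ℝ) < r := by exact_mod_cast hr
  obtain ⟨Cc, hC⟩ := h S (ε * ((N : ℝ) + 1)) (mul_pos hε hN0)
  subst hy
  obtain ⟨Ai, hAi1, hAi⟩ := place_bnd (F := ℂ) (ν := ν) hD I c b hb Fo d hdD hFo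
    (fun e : {e : Fin (ν + 1) → Fin q // NCZ G Fo e} => e.1) s W hsM hWI
  obtain ⟨Ki, hKi⟩ := mixedX (F := ℂ) G' hG'0 W hWd hWr (fun e a => (s e a).1) θ Ai hAi1
  have hAp := fun p : Nat.Primes => place_bnd (F := PadicAlgCl p) (ν := ν) hD I c b hb Fo d hdD
    hFo (fun e : {e : Fin (ν + 1) → Fin q // NCZ G Fo e} => e.1) s W hsM hWI
  choose Ap hAp1 hAp using hAp
  have hKp := fun p : Nat.Primes => mixedX (F := PadicAlgCl p) G' hG'0 W hWd hWr
    (fun e a => (s e a).1) θ (Ap p) (hAp1 p)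
  choose Kp hKp using hKp
  refine ⟨(Cc + (r : ℝ) ^ (N + 1) * (Ki + ∑ p ∈ S, Kp p)) /
    ((r : ℝ) ^ N * (dd * ((N : ℝ) + 1)) * D),
    fun E _ _ hE x hx hxG hxZ e j he ep jp hep => ?_⟩
  -- the point
  set Y : Fin (N + 1) → 𝓞 E := monP c x with hYd
  have hYm : ∀ (F : Type) [Field F] (τ : E →+* F), (fun i => τ (Y i : E)) =
      monP c (fun i => τ (x i : E)) := fun F _ τ => funext fun i => map_monP c τ x i
  have hxτ : ∀ (F : Type) [Field F] [CharZero F] (τ : E →+* F),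
      (fun i => τ (x i : E)) ≠ 0 := by
    intro F _ _ τ h0
    apply hx
    funext i
    have h1 : τ (x i : E) = 0 := congrFun h0 i
    exact RingOfIntegers.ext (by simpa using h1)
  have hXτ : ∀ (F : Type) [Field F] [CharZero F] (τ : E →+* F)
      (j : AlgebraicClosure ℚ →+* F), ∀ P ∈ I, eval (fun i => τ (x i : E)) (map j P) = 0 := by
    intro F _ _ τ j P hP
    rw [hI] at hP
    exact idX_eval hP j _ fun k => map_point (G k) (fun i => (x i : E)) τ (hxG k)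
  have hY : Y ≠ 0 := by
    obtain ⟨τ0⟩ := exists_emb E ℂ
    obtain ⟨-, ι0, -⟩ := exists_lift τ0
    obtain ⟨A, -, hA⟩ := monP_lower (F := ℂ) I c b hb
    have h1 := hA ι0 _ (hXτ ℂ τ0 ι0)
    intro h0
    have h2 : monP c (fun i => τ0 (x i : E)) = 0 := by
      rw [← hYm ℂ τ0, h0]
      funext i
      simp
    rw [h2, norm_zero, mul_zero] at h1
    exact absurd h1 (not_le.2 (pow_pos (norm_pos_iff.2 (hxτ ℂ τ0)) _))
  set fp : ∀ p : Nat.Primes, (E →+* PadicAlgCl p) → {e : Fin (ν + 1) → Fin q // NCZ G Fo e} :=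
    fun p τ => if h : NCZ G Fo (ep p τ) then ⟨ep p τ, h⟩ else e0 with hfp
  have hfp' : ∀ p ∈ S, ∀ τ, (fp p τ).1 = ep p τ := by
    intro p hp τ
    simp only [hfp]
    rw [dif_pos (hep p hp τ)]
  set μi : (E →+* ℂ) → Fin (ν + 1) → ℝ := fun τ k => ((D / d (e τ k) : ℕ) : ℝ) *
    max 0 (laq (d (e τ k)) (map (j τ) (Fo (e τ k))) (fun i => τ (x i : E))) with hμi
  set μp : ∀ p : Nat.Primes, (E →+* PadicAlgCl p) → Fin (ν + 1) → ℝ := fun p τ k =>
    ((D / d ((fp p τ).1 k) : ℕ) : ℝ) * max 0 (laq (d ((fp p τ).1 k))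
      (map (jp p τ) (Fo ((fp p τ).1 k))) (fun i => τ (x i : E))) with hμp
  have hμi0 : ∀ τ k, 0 ≤ μi τ k := fun τ k => mul_nonneg (Nat.cast_nonneg _) (le_max_left _ _)
  have hμp0 : ∀ p τ k, 0 ≤ μp p τ k := fun p τ k =>
    mul_nonneg (Nat.cast_nonneg _) (le_max_left _ _)
  have h1 := hC E hE Y hY (fun u hu τ => by
      have h2 := hxZ (Pc c u) (Finset.mem_image_of_mem _ hu) τ
      have h3 := eval_Pc c u (RingHom.id (AlgebraicClosure ℚ)) (fun i => τ (x i : E))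
      rw [MvPolynomial.map_id] at h3
      rw [h3] at h2
      intro h4
      apply h2
      rw [← h4]
      refine Finset.sum_congr rfl fun i _ => ?_
      rw [RingHom.id_apply, ← congrFun (hYm _ τ) i])
    _ (hKi E Y hY (fun τ => ⟨e τ, he τ⟩) j μi hμi0 (fun τ a => by
      rw [hYm ℂ τ]
      exact hAi ⟨e τ, he τ⟩ (j τ) _ (hxτ ℂ τ) (hXτ ℂ τ (j τ)) a))
    _ (fun p _ => hKp p E Y hY (fp p) (jp p) (μp p) (hμp0 p) (fun τ a => by
      rw [hYm _ τ]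
      exact hAp p (fp p τ) (jp p τ) _ (hxτ _ τ) (hXτ _ τ (jp p τ)) a))
  have hci : Fintype.card (E →+* ℂ) = r := by rw [card_emb ℂ, hE]
  have hcp : ∀ p : Nat.Primes, Fintype.card (E →+* PadicAlgCl p) = r := fun p => by
    rw [card_emb (PadicAlgCl p), hE]
  have h2 := sum_Phi' (n' := N) r hci θ
    (fun (τ : E →+* ℂ) k => ((∑ a, (θ - (s ⟨e τ, he τ⟩ a).1 k) : ℕ) : ℝ)) _
    (fun τ k => hT ⟨e τ, he τ⟩ k) μi hμi0 Ki
  have h3 : ∀ p ∈ S, _ := fun p _ => sum_Phi' (n' := N) r (hcp p) θ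
    (fun (τ : E →+* PadicAlgCl p) k => ((∑ a, (θ - (s (fp p τ) a).1 k) : ℕ) : ℝ)) _
    (fun τ k => hT (fp p τ) k) (μp p) (hμp0 p) (Kp p)
  have h4 := Finset.sum_le_sum h3
  rw [Finset.sum_sub_distrib, ← Finset.mul_sum, ← Finset.mul_sum, ← Finset.mul_sum] at h4
  -- the local heights
  have hdiv : ∀ i, ((D / d i : ℕ) : ℝ) = D / d i := fun i => Nat.cast_div (hdD i) (by
    exact_mod_cast (Nat.one_le_iff_ne_zero.1 (hd i)))
  have h5 : ∑ τ, ∑ k, μi τ k = D * ∑ τ : E →+* ℂ, ∑ k, max 0 (laq (d (e τ k))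
      (map (j τ) (Fo (e τ k))) (fun i => τ (x i : E))) / d (e τ k) := by
    rw [Finset.mul_sum]
    refine Finset.sum_congr rfl fun τ _ => ?_
    rw [Finset.mul_sum]
    refine Finset.sum_congr rfl fun k _ => ?_
    simp only [hμi]
    rw [hdiv]
    ring
  have h6 : ∑ p ∈ S, ∑ τ, ∑ k, μp p τ k = D * ∑ p ∈ S, ∑ τ : E →+* PadicAlgCl p, ∑ k,
      max 0 (laq (d (ep p τ k)) (map (jp p τ) (Fo (ep p τ k))) (fun i => τ (x i : E))) /
        d (ep p τ k) := by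
    rw [Finset.mul_sum]
    refine Finset.sum_congr rfl fun p hp => ?_
    rw [Finset.mul_sum]
    refine Finset.sum_congr rfl fun τ _ => ?_
    rw [Finset.mul_sum]
    refine Finset.sum_congr rfl fun k _ => ?_
    simp only [hμp]
    rw [hdiv, hfp' p hp τ]
    ring
  set A1 := ∑ τ : E →+* ℂ, ∑ k, max 0 (laq (d (e τ k)) (map (j τ) (Fo (e τ k)))
    (fun i => τ (x i : E))) / d (e τ k) with hA1
  set A2 := ∑ p ∈ S, ∑ τ : E →+* PadicAlgCl p, ∑ k, max 0 (laq (d (ep p τ k))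
    (map (jp p τ) (Fo (ep p τ k))) (fun i => τ (x i : E))) / d (ep p τ k) with hA2
  rw [h5] at h2
  rw [h6] at h4
  have hxE : (fun i => (x i : E)) ≠ 0 := hxτ E (RingHom.id E)
  have hht : Height.logHeight (fun i => (Y i : E)) ≤
      ((D * dd : ℕ) : ℝ) * Height.logHeight (fun i => (x i : E)) := by
    have h7 := monP_height c hc (fun i => (x i : E)) hxE
    have h8 : (fun i => (Y i : E)) = monP c (fun i => (x i : E)) := hYm E (RingHom.id E)
    rw [h8]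
    exact h7
  set LH := Height.logHeight (fun i => (x i : E)) with hLH
  have h7 := h1.trans (add_le_add_left (mul_le_mul_of_nonneg_left hht (by positivity)) _)
  have hden : 0 < (r : ℝ) ^ N * (dd * ((N : ℝ) + 1)) * D := by positivity
  have h8 : (r : ℝ) ^ N * (dd * ((N : ℝ) + 1)) * D * (κ0 * (A1 + A2)) ≤
      (r : ℝ) ^ N * (dd * ((N : ℝ) + 1)) * D * ((1 + ε) * LH) +
        (Cc + (r : ℝ) ^ (N + 1) * (Ki + ∑ p ∈ S, Kp p)) := by
    have h9 : (r : ℝ) ^ N * ((N : ℝ) + 1 + ε * ((N : ℝ) + 1)) * (((D * dd : ℕ) : ℝ) * LH) =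
        (r : ℝ) ^ N * (dd * ((N : ℝ) + 1)) * D * ((1 + ε) * LH) := by
      push_cast
      ring
    rw [h9] at h7
    have h10 : (r : ℝ) ^ N * (dd * ((N : ℝ) + 1)) * D * (κ0 * (A1 + A2)) =
        (r : ℝ) ^ N * (dd * ((N : ℝ) + 1) * κ0 * (D * A1)) +
          (r : ℝ) ^ N * (dd * ((N : ℝ) + 1) * κ0 * (D * A2)) := by ring
    rw [h10]
    linarith
  have h9 : (r : ℝ) ^ N * (dd * ((N : ℝ) + 1)) * D * ((1 + ε) * LH) +
        (Cc + (r : ℝ) ^ (N + 1) * (Ki + ∑ p ∈ S, Kp p)) =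
      (r : ℝ) ^ N * (dd * ((N : ℝ) + 1)) * D * ((1 + ε) * LH +
        (Cc + (r : ℝ) ^ (N + 1) * (Ki + ∑ p ∈ S, Kp p)) /
          ((r : ℝ) ^ N * (dd * ((N : ℝ) + 1)) * D)) := by
    field_simp
  rw [h9] at h8
  exact le_of_mul_le_mul_left h8 hden

end Pool.Agent.T9h24
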